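import Mathlib

/-!
Cook-Reckhow proof systems for propositional tautologies.
-/

namespace Pool.Agent.Work.MP_0532f7_lc

/-- Propositional formulas built from variables with negation and implication.
The variables are indexed by the binary words. -/
inductive Form : Type
  | var (s : List Bool) : Form
  | neg (φ : Form) : Form
  | imp (φ ψ : Form) : Form

/-- Truth value of a formula under a valuation. -/
def Form.eval (v : List Bool → Bool) : Form → Bool
  | .var s => v s
  | .neg φ => !(φ.eval v)
  | .imp φ ψ => !(φ.eval v) || ψ.eval v

/-- Pairing of binary words: the bits of `x`, each preceded by `1`, then `0`, then `y`. -/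
def pr : List Bool → List Bool → List Bool
  | [], y => false :: y
  | b :: x, y => true :: b :: pr x y

/-- Binary code of a formula (Polish notation: `00` then the self-delimiting code of the index for
a variable, `01` for negation, `1` for implication). -/
def Form.code : Form → List Bool
  | .var s => false :: false :: pr s []
  | .neg φ => false :: true :: φ.code
  | .imp φ ψ => true :: (φ.code ++ ψ.code)

/-- The set of codes of tautologies. -/
def TAUT : Set (List Bool) := {w | ∃ φ : Form, φ.code = w ∧ ∀ v : List Bool → Bool, φ.eval v = true}

/-- A function on binary words is computable in deterministic polynomial time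
(multi-stack Turing machines of Mathlib). -/
def PolyTime (f : List Bool → List Bool) : Prop :=
  Nonempty (Turing.TM2ComputableInPolyTime (fun x : List Bool => x) (fun x : List Bool => x) f)

/-- Cook-Reckhow proof systems. -/
def ProofSystem (f : List Bool → List Bool) : Prop := PolyTime f ∧ Set.range f = TAUT

/-- `f` simulates `g`. -/
def Simulates (f g : List Bool → List Bool) : Prop :=
  ∃ (h : List Bool → List Bool) (p : Polynomial ℕ),
    ∀ w, f (h w) = g w ∧ (h w).length ≤ p.eval w.length

/-- `f` is an optimal Cook-Reckhow proof system. -/
def Optimal (f : List Bool → List Bool) : Prop :=
  ProofSystem f ∧ ∀ g, ProofSystem g → Simulates f g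

end Pool.Agent.Work.MP_0532f7_lc
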