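import Mathlib
import Pool.Agent.Work.MP_0532f7_lc.Defs

/-!
Proof systems relative to an oracle, and random oracles.
-/

namespace Pool.Agent.Work.MP_0532f7_lc

mutual

/-- Propositional formulas built from variables with negation, implication and oracle gates with
any number of arguments. The variables are indexed by the binary words. -/
inductive OForm : Type
  | var (s : List Bool) : OForm
  | neg (φ : OForm) : OForm
  | imp (φ ψ : OForm) : OForm
  | orc (args : OForms) : OForm

/-- Finite sequences of formulas (the arguments of an oracle gate). -/
inductive OForms : Type
  | nil : OForms
  | cons (φ : OForm) (args : OForms) : OForms

end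

mutual

/-- Truth value of a formula relative to an oracle `R` (a set of binary words) under a valuation:
an oracle gate is true if the word formed by the truth values of its arguments is in `R`. -/
def OForm.eval (R : List Bool → Bool) (v : List Bool → Bool) : OForm → Bool
  | .var s => v s
  | .neg φ => !(φ.eval R v)
  | .imp φ ψ => !(φ.eval R v) || ψ.eval R v
  | .orc args => R (args.evals R v)

/-- The word formed by the truth values of a sequence of formulas. -/
def OForms.evals (R : List Bool → Bool) (v : List Bool → Bool) : OForms → List Bool
  | .nil => []
  | .cons φ args => φ.eval R v :: args.evals R v

end

mutual

/-- Binary code of a formula (Polish notation: `00` and the self-delimiting code of the index for a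
variable, `01` for negation, `10` for implication, `11` for an oracle gate, whose arguments are
preceded by `1` each and followed by `0`). -/
def OForm.code : OForm → List Bool
  | .var s => false :: false :: pr s []
  | .neg φ => false :: true :: φ.code
  | .imp φ ψ => true :: false :: (φ.code ++ ψ.code)
  | .orc args => true :: true :: args.codes

/-- Binary code of a sequence of formulas. -/
def OForms.codes : OForms → List Bool
  | .nil => [false]
  | .cons φ args => true :: (φ.code ++ args.codes)

end

/-- The set of codes of the formulas that are tautologies relative to the oracle `R`. -/
def OTAUT (R : List Bool → Bool) : Set (List Bool) :=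
  {w | ∃ φ : OForm, φ.code = w ∧ ∀ v : List Bool → Bool, φ.eval R v = true}

/-- The answers of the oracle `R` to the first `n` queries made on input `w`, where `Q` computes
from `w` and the previous answers the next query. -/
def answers (Q : List Bool → List Bool) (R : List Bool → Bool) (w : List Bool) : ℕ → List Bool
  | 0 => []
  | n + 1 => answers Q R w n ++ [R (Q (pr w (answers Q R w n)))]

/-- `f` is computable in polynomial time relative to the oracle `R`: on input `w` the oracle is
asked `|C w|` queries, each computed in polynomial time from `w` and the previous answers, and the
value is computed in polynomial time from `w` and all the answers. -/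
def PolyTimeRel (R : List Bool → Bool) (f : List Bool → List Bool) : Prop :=
  ∃ Q C O : List Bool → List Bool, PolyTime Q ∧ PolyTime C ∧ PolyTime O ∧
    ∀ w, f w = O (pr w (answers Q R w (C w).length))

/-- `f` is a Cook-Reckhow proof system relative to the oracle `R`. -/
def ProofSystemRel (R : List Bool → Bool) (f : List Bool → List Bool) : Prop :=
  PolyTimeRel R f ∧ Set.range f = OTAUT R

/-- `f` is an optimal Cook-Reckhow proof system relative to the oracle `R`. -/
def OptimalRel (R : List Bool → Bool) (f : List Bool → List Bool) : Prop :=
  ProofSystemRel R f ∧ ∀ g, ProofSystemRel R g → Simulates f g

/-- The join of two oracles: the first bit of the query selects the oracle. -/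
def ojoin (A R : List Bool → Bool) : List Bool → Bool
  | [] => false
  | false :: x => A x
  | true :: x => R x

/-- The distribution of a random oracle: each word is put in the oracle independently with
probability one half. -/
noncomputable def randomOracle : MeasureTheory.Measure (List Bool → Bool) :=
  MeasureTheory.Measure.infinitePi (fun _ => (PMF.uniformOfFintype Bool).toMeasure)

end Pool.Agent.Work.MP_0532f7_lc
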