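import Mathlib
import Pool.Agent.Work.MP_0532f7_lc.Defs

/-!
Proof systems with advice.
-/

namespace Pool.Agent.Work.MP_0532f7_lc

/-- The word formed by the first `n` bits of the infinite bit sequence `β`. -/
def pre (β : ℕ → Bool) (n : ℕ) : List Bool := (List.range n).map β

/-- The map computed with output advice: the word `w` yields the formula `D w` if the verifier `V`
accepts `w` together with the first `α |D w|` bits of `β`, and the tautology `x → x` otherwise. -/
def advised (D V : List Bool → List Bool) (β : ℕ → Bool) (α : ℕ → ℕ) (w : List Bool) :
    List Bool :=
  if V (pr w (pre β (α (D w).length))) = [true] then D w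
  else (Form.imp (.var []) (.var [])).code

/-- The map computed with prefix advice of logarithmic length: on a word of length `n` it uses the
first `⌊log₂ n⌋` bits of the single infinite bit sequence `β`. -/
def logAdv (F : List Bool → List Bool) (β : ℕ → Bool) (w : List Bool) : List Bool :=
  F (pr w (pre β (Nat.log 2 w.length)))

/-- The map computed with advice depending on the input length: on a word of length `n` it uses
the advice word `a n`. -/
def lenAdv (G : List Bool → List Bool) (a : ℕ → List Bool) (w : List Bool) : List Bool :=
  G (pr w (a w.length))

/-- `f` polynomially simulates `g`: some polynomial-time map translates proofs. -/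
def PSimulates (f g : List Bool → List Bool) : Prop :=
  ∃ h : List Bool → List Bool, PolyTime h ∧ ∀ w, f (h w) = g w

end Pool.Agent.Work.MP_0532f7_lc
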