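import Mathlib

/-!
Structured stack programs: syntax, semantics with cost, frame property.
-/

namespace Pool.Agent.Work.MP_0532f7_lc

/-- Structured programs over stacks of bits (registers). -/
inductive Prog : Type
  | skip : Prog
  | push (r : ℕ) (b : Bool) : Prog
  | pop (r : ℕ) : Prog
  | seq (p q : Prog) : Prog
  | cond (r : ℕ) (a b c : Prog) : Prog
  | loop (r : ℕ) (p : Prog) : Prog

/-- contents of the registers -/
abbrev Store := ℕ → List Bool

/-- one-register update, as a plain function -/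
def upd (s : Store) (r : ℕ) (x : List Bool) : Store := fun i => if i = r then x else s i

@[simp] theorem upd_same (s : Store) (r : ℕ) (x : List Bool) : upd s r x r = x := by simp [upd]

theorem upd_ne (s : Store) {r i : ℕ} (x : List Bool) (h : i ≠ r) : upd s r x i = s i := by
  simp [upd, h]

theorem upd_upd (s : Store) (r : ℕ) (x y : List Bool) : upd (upd s r x) r y = upd s r y := by
  funext i; by_cases h : i = r <;> simp [upd, h]

theorem upd_self (s : Store) (r : ℕ) : upd s r (s r) = s := by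
  funext i; by_cases h : i = r <;> simp [upd, h]

theorem upd_comm (s : Store) {r q : ℕ} (x y : List Bool) (h : r ≠ q) :
    upd (upd s r x) q y = upd (upd s q y) r x := by
  funext i
  by_cases h1 : i = r
  · subst h1; simp [upd, h]
  · by_cases h2 : i = q
    · subst h2; simp [upd, h1]
    · simp [upd, h1, h2]

/-- big-step semantics with cost -/
inductive Run : Prog → Store → Store → ℕ → Prop
  | skip (s : Store) : Run .skip s s 1
  | push (r : ℕ) (b : Bool) (s : Store) : Run (.push r b) s (upd s r (b :: s r)) 1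
  | pop (r : ℕ) (s : Store) : Run (.pop r) s (upd s r (s r).tail) 1
  | seq {p q : Prog} {s s1 s2 : Store} {n1 n2 : ℕ} :
      Run p s s1 n1 → Run q s1 s2 n2 → Run (.seq p q) s s2 (n1 + n2)
  | condN {r : ℕ} {a b c : Prog} {s s' : Store} {n : ℕ} :
      (s r).head? = none → Run a s s' n → Run (.cond r a b c) s s' (n + 1)
  | condF {r : ℕ} {a b c : Prog} {s s' : Store} {n : ℕ} :
      (s r).head? = some false → Run b s s' n → Run (.cond r a b c) s s' (n + 1)
  | condT {r : ℕ} {a b c : Prog} {s s' : Store} {n : ℕ} :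
      (s r).head? = some true → Run c s s' n → Run (.cond r a b c) s s' (n + 1)
  | loopN {r : ℕ} {p : Prog} {s : Store} : (s r).head? = none → Run (.loop r p) s s 1
  | loopS {r : ℕ} {p : Prog} {s s1 s2 : Store} {n1 n2 : ℕ} :
      (s r).head? ≠ none → Run p s s1 n1 → Run (.loop r p) s1 s2 n2 →
      Run (.loop r p) s s2 (n1 + n2 + 1)

/-- all registers used are `< m` -/
def Prog.bd (m : ℕ) : Prog → Prop
  | .skip => True
  | .push r _ => r < m
  | .pop r => r < m
  | .seq p q => p.bd m ∧ q.bd m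
  | .cond r a b c => r < m ∧ a.bd m ∧ b.bd m ∧ c.bd m
  | .loop r p => r < m ∧ p.bd m

theorem Prog.bd_mono {m m' : ℕ} (h : m ≤ m') : ∀ {p : Prog}, p.bd m → p.bd m'
  | .skip, _ => trivial
  | .push _ _, h1 => lt_of_lt_of_le h1 h
  | .pop _, h1 => lt_of_lt_of_le h1 h
  | .seq _ _, h1 => ⟨bd_mono h h1.1, bd_mono h h1.2⟩
  | .cond _ _ _ _, h1 =>
    ⟨lt_of_lt_of_le h1.1 h, bd_mono h h1.2.1, bd_mono h h1.2.2.1, bd_mono h h1.2.2.2⟩
  | .loop _ _, h1 => ⟨lt_of_lt_of_le h1.1 h, bd_mono h h1.2⟩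

theorem Prog.exists_bd : ∀ p : Prog, ∃ m, p.bd m
  | .skip => ⟨0, trivial⟩
  | .push r _ => ⟨r + 1, Nat.lt_succ_self r⟩
  | .pop r => ⟨r + 1, Nat.lt_succ_self r⟩
  | .seq p q => by
    obtain ⟨m, h⟩ := exists_bd p
    obtain ⟨m', h'⟩ := exists_bd q
    exact ⟨max m m', bd_mono (le_max_left _ _) h, bd_mono (le_max_right _ _) h'⟩
  | .cond r a b c => by
    obtain ⟨m, h⟩ := exists_bd a
    obtain ⟨m', h'⟩ := exists_bd b
    obtain ⟨m'', h''⟩ := exists_bd c
    refine ⟨r + 1 + m + m' + m'', by simp only [Prog.bd]; exact ⟨by omega, bd_mono (by omega) h,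
      bd_mono (by omega) h', bd_mono (by omega) h''⟩⟩
  | .loop r p => by
    obtain ⟨m, h⟩ := exists_bd p
    exact ⟨r + 1 + m, by simp only [Prog.bd]; exact ⟨by omega, bd_mono (by omega) h⟩⟩

/-- merge two stores: the first below `m`, the second from `m` on -/
def merge (m : ℕ) (s t : Store) : Store := fun i => if i < m then s i else t i

theorem merge_upd {m r : ℕ} (h : r < m) (s t : Store) (x : List Bool) :
    merge m (upd s r x) t = upd (merge m s t) r x := by
  funext i
  by_cases h1 : i = r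
  · subst h1; simp [merge, upd, h]
  · simp [merge, upd, h1]

theorem Run.frame {p : Prog} {s s' : Store} {n : ℕ} (h : Run p s s' n) {m : ℕ} (hp : p.bd m)
    (t : Store) : Run p (merge m s t) (merge m s' t) n := by
  induction h with
  | skip s => exact Run.skip _
  | push r b s =>
    have h1 : merge m s t r = s r := by simp [merge, show r < m from hp]
    rw [merge_upd hp, ← h1]; exact Run.push r b _
  | pop r s =>
    have h1 : merge m s t r = s r := by simp [merge, show r < m from hp]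
    rw [merge_upd hp, ← h1]; exact Run.pop r _
  | seq _ _ ih1 ih2 => exact Run.seq (ih1 hp.1) (ih2 hp.2)
  | @condN r a b c s s' n h1 _ ih =>
    refine Run.condN ?_ (ih hp.2.1)
    simpa [merge, hp.1] using h1
  | @condF r a b c s s' n h1 _ ih =>
    refine Run.condF ?_ (ih hp.2.2.1)
    simpa [merge, hp.1] using h1
  | @condT r a b c s s' n h1 _ ih =>
    refine Run.condT ?_ (ih hp.2.2.2)
    simpa [merge, hp.1] using h1
  | @loopN r p s h1 =>
    refine Run.loopN ?_
    simpa [merge, hp.1] using h1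
  | @loopS r p s s1 s2 n1 n2 h1 _ _ ih1 ih2 =>
    refine Run.loopS ?_ (ih1 hp.2) (ih2 hp)
    simpa [merge, hp.1] using h1

/-- total length of a register grows by at most the cost -/
theorem Run.length_le {p : Prog} {s s' : Store} {n : ℕ} (h : Run p s s' n) (r : ℕ) :
    (s' r).length ≤ (s r).length + n := by
  induction h with
  | skip s => omega
  | push r' b s =>
    by_cases h1 : r = r'
    · subst h1; simp [upd]
    · simp [upd, h1]
  | pop r' s =>
    by_cases h1 : r = r'
    · subst h1; simp [upd]; omega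
    · simp [upd, h1]
  | seq _ _ ih1 ih2 => omega
  | condN _ _ ih => omega
  | condF _ _ ih => omega
  | condT _ _ ih => omega
  | loopN _ => omega
  | loopS _ _ _ ih1 ih2 => omega

/-- run within a cost bound -/
def RunLe (p : Prog) (s s' : Store) (n : ℕ) : Prop := ∃ m, m ≤ n ∧ Run p s s' m

theorem RunLe.mono {p : Prog} {s s' : Store} {n n' : ℕ} (h : RunLe p s s' n) (hn : n ≤ n') :
    RunLe p s s' n' := by
  obtain ⟨m, hm, hr⟩ := h; exact ⟨m, hm.trans hn, hr⟩

theorem RunLe.to {p : Prog} {s s' s'' : Store} {n n' : ℕ} (h : RunLe p s s' n) (hn : n ≤ n')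
    (e : s' = s'') : RunLe p s s'' n' := e ▸ h.mono hn

theorem RunLe.seq {p q : Prog} {s s1 s2 : Store} {n1 n2 : ℕ} (h1 : RunLe p s s1 n1)
    (h2 : RunLe q s1 s2 n2) : RunLe (.seq p q) s s2 (n1 + n2) := by
  obtain ⟨m1, hm1, hr1⟩ := h1
  obtain ⟨m2, hm2, hr2⟩ := h2
  exact ⟨m1 + m2, by omega, Run.seq hr1 hr2⟩

theorem RunLe.skip (s : Store) : RunLe .skip s s 1 := ⟨1, le_rfl, Run.skip s⟩
theorem RunLe.push (r : ℕ) (b : Bool) (s : Store) :
    RunLe (.push r b) s (upd s r (b :: s r)) 1 := ⟨1, le_rfl, Run.push r b s⟩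
theorem RunLe.pop (r : ℕ) (s : Store) : RunLe (.pop r) s (upd s r (s r).tail) 1 :=
  ⟨1, le_rfl, Run.pop r s⟩

theorem RunLe.condN {r : ℕ} {a b c : Prog} {s s' : Store} {n : ℕ}
    (h : (s r).head? = none) (h1 : RunLe a s s' n) : RunLe (.cond r a b c) s s' (n + 1) := by
  obtain ⟨m, hm, hr⟩ := h1; exact ⟨m + 1, by omega, Run.condN h hr⟩
theorem RunLe.condF {r : ℕ} {a b c : Prog} {s s' : Store} {n : ℕ}
    (h : (s r).head? = some false) (h1 : RunLe b s s' n) : RunLe (.cond r a b c) s s' (n + 1) := by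
  obtain ⟨m, hm, hr⟩ := h1; exact ⟨m + 1, by omega, Run.condF h hr⟩
theorem RunLe.condT {r : ℕ} {a b c : Prog} {s s' : Store} {n : ℕ}
    (h : (s r).head? = some true) (h1 : RunLe c s s' n) : RunLe (.cond r a b c) s s' (n + 1) := by
  obtain ⟨m, hm, hr⟩ := h1; exact ⟨m + 1, by omega, Run.condT h hr⟩
theorem RunLe.loopN {r : ℕ} {p : Prog} {s : Store} (h : (s r).head? = none) :
    RunLe (.loop r p) s s 1 := ⟨1, le_rfl, Run.loopN h⟩
theorem RunLe.loopS {r : ℕ} {p : Prog} {s s1 s2 : Store} {n1 n2 : ℕ}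
    (h : (s r).head? ≠ none) (h1 : RunLe p s s1 n1) (h2 : RunLe (.loop r p) s1 s2 n2) :
    RunLe (.loop r p) s s2 (n1 + n2 + 1) := by
  obtain ⟨m1, hm1, hr1⟩ := h1
  obtain ⟨m2, hm2, hr2⟩ := h2
  exact ⟨m1 + m2 + 1, by omega, Run.loopS h hr1 hr2⟩

theorem RunLe.frame {p : Prog} {s s' : Store} {n : ℕ} (h : RunLe p s s' n) {m : ℕ}
    (hp : p.bd m) (t : Store) : RunLe p (merge m s t) (merge m s' t) n := by
  obtain ⟨k, hk, hr⟩ := h; exact ⟨k, hk, hr.frame hp t⟩

theorem RunLe.length_le {p : Prog} {s s' : Store} {n : ℕ} (h : RunLe p s s' n) (r : ℕ) :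
    (s' r).length ≤ (s r).length + n := by
  obtain ⟨k, hk, hr⟩ := h; exact (hr.length_le r).trans (by omega)

end Pool.Agent.Work.MP_0532f7_lc
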