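import Mathlib
import Pool.Agent.Work.MP_0532f7_lc.Defs
import Pool.Agent.Work.MP_0532f7_lc.Prog

/-!
Functions computed by stack programs in polynomial time, and closure properties.
-/

namespace Pool.Agent.Work.MP_0532f7_lc

open Polynomial

theorem pmono (P : Polynomial ℕ) {a b : ℕ} (h : a ≤ b) : P.eval a ≤ P.eval b := by
  induction P using Polynomial.induction_on' with
  | add p q hp hq => simp only [eval_add]; omega
  | monomial n c => simp only [eval_monomial]; gcongr

/-- the store with input `x` in register 0 -/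
def inp (x : List Bool) : Store := upd (fun _ => []) 0 x

/-! ### macros -/

/-- reverse-move from `a` onto `b` -/
def mv (a b : ℕ) : Prog :=
  .loop a (.cond a .skip (.seq (.pop a) (.push b false)) (.seq (.pop a) (.push b true)))

theorem mv_run {a b : ℕ} (hab : a ≠ b) (l : List Bool) : ∀ (s : Store), s a = l →
    RunLe (mv a b) s (upd (upd s a []) b (l.reverse ++ s b)) (4 * l.length + 1) := by
  induction l with
  | nil =>
    intro s hs
    have h : upd (upd s a []) b (([] : List Bool).reverse ++ s b) = s := by
      funext i; simp only [upd]; split_ifs with h1 h2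
      · subst h1; simp
      · subst h2; exact hs.symm
      · rfl
    rw [h]
    exact RunLe.loopN (by simp [hs])
  | cons x l ih =>
    intro s hs
    have key : RunLe (.cond a .skip (.seq (.pop a) (.push b false))
        (.seq (.pop a) (.push b true))) s (upd (upd s a l) b (x :: s b)) 3 := by
      have hp : RunLe (.seq (.pop a) (.push b x)) s (upd (upd s a l) b (x :: s b)) 2 := by
        have h1 := RunLe.pop a s
        rw [hs, List.tail_cons] at h1
        have h2 := RunLe.push b x (upd s a l)
        rw [upd_ne s l hab.symm] at h2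
        exact h1.seq h2
      cases x with
      | false => exact RunLe.condF (by simp [hs]) hp
      | true => exact RunLe.condT (by simp [hs]) hp
    have h3 := ih (upd (upd s a l) b (x :: s b)) (by rw [upd_ne _ _ hab, upd_same])
    have h4 := RunLe.loopS (r := a) (by simp [hs]) key h3
    refine RunLe.to h4 (by simp only [List.length_cons]; omega) ?_
    funext i
    simp only [upd, List.reverse_cons, List.append_assoc, List.singleton_append]
    split_ifs <;> simp_all

/-- reverse-move from `a` onto both `b` and `c` -/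
def mv2 (a b c : ℕ) : Prog :=
  .loop a (.cond a .skip (.seq (.pop a) (.seq (.push b false) (.push c false)))
    (.seq (.pop a) (.seq (.push b true) (.push c true))))

theorem mv2_run {a b c : ℕ} (hab : a ≠ b) (hac : a ≠ c) (hbc : b ≠ c) (l : List Bool) :
    ∀ (s : Store), s a = l →
    RunLe (mv2 a b c) s (upd (upd (upd s a []) b (l.reverse ++ s b)) c (l.reverse ++ s c))
      (5 * l.length + 1) := by
  induction l with
  | nil =>
    intro s hs
    have h : upd (upd (upd s a []) b (([] : List Bool).reverse ++ s b)) c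
        (([] : List Bool).reverse ++ s c) = s := by
      funext i; simp only [upd]; split_ifs with h1 h2 h3
      · subst h1; simp
      · subst h2; simp
      · subst h3; exact hs.symm
      · rfl
    rw [h]
    exact RunLe.loopN (by simp [hs])
  | cons x l ih =>
    intro s hs
    have key : RunLe (.cond a .skip (.seq (.pop a) (.seq (.push b false) (.push c false)))
        (.seq (.pop a) (.seq (.push b true) (.push c true)))) s
        (upd (upd (upd s a l) b (x :: s b)) c (x :: s c)) 4 := by
      have hp : RunLe (.seq (.pop a) (.seq (.push b x) (.push c x))) s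
          (upd (upd (upd s a l) b (x :: s b)) c (x :: s c)) 3 := by
        have h1 := RunLe.pop a s
        rw [hs, List.tail_cons] at h1
        have h2 := RunLe.push b x (upd s a l)
        rw [upd_ne s l hab.symm] at h2
        have h3 := RunLe.push c x (upd (upd s a l) b (x :: s b))
        rw [upd_ne _ _ hbc.symm, upd_ne _ _ hac.symm] at h3
        exact h1.seq (h2.seq h3)
      cases x with
      | false => exact RunLe.condF (by simp [hs]) hp
      | true => exact RunLe.condT (by simp [hs]) hp
    have h3 := ih (upd (upd (upd s a l) b (x :: s b)) c (x :: s c))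
      (by rw [upd_ne _ _ hac, upd_ne _ _ hab, upd_same])
    have h4 := RunLe.loopS (r := a) (by simp [hs]) key h3
    refine RunLe.to h4 (by simp only [List.length_cons]; omega) ?_
    funext i
    simp only [upd, List.reverse_cons, List.append_assoc, List.singleton_append]
    split_ifs <;> simp_all

/-- clear a register -/
def clr (a : ℕ) : Prog := .loop a (.pop a)

theorem clr_run {a : ℕ} (l : List Bool) : ∀ (s : Store), s a = l →
    RunLe (clr a) s (upd s a []) (2 * l.length + 1) := by
  induction l with
  | nil =>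
    intro s hs
    have h : upd s a [] = s := by rw [← hs, upd_self]
    rw [h]
    exact RunLe.loopN (by simp [hs])
  | cons x l ih =>
    intro s hs
    have h1 := RunLe.pop a s
    rw [hs, List.tail_cons] at h1
    have h3 := ih (upd s a l) (by rw [upd_same])
    rw [upd_upd] at h3
    exact (RunLe.loopS (r := a) (by simp [hs]) h1 h3).mono (by simp only [List.length_cons]; omega)

/-- order-preserving move from `a` onto `b`, via `t` -/
def mvo (a b t : ℕ) : Prog := .seq (mv a t) (mv t b)

theorem mvo_run {a b t : ℕ} (hab : a ≠ b) (hat : a ≠ t) (hbt : b ≠ t) (s : Store)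
    (ht : s t = []) :
    RunLe (mvo a b t) s (upd (upd s a []) b (s a ++ s b)) (8 * (s a).length + 2) := by
  have h1 := mv_run hat (s a) s rfl
  have h2 := mv_run hbt.symm ((s a).reverse ++ s t) (upd (upd s a []) t ((s a).reverse ++ s t))
    (by rw [upd_same])
  refine RunLe.to (h1.seq h2) (by simp [ht]; omega) ?_
  funext i
  simp only [upd]
  split_ifs <;> simp_all

/-- copy `a` onto `b`, via `t` -/
def cpy (a b t : ℕ) : Prog := .seq (mv a t) (mv2 t a b)

theorem cpy_run {a b t : ℕ} (hab : a ≠ b) (hat : a ≠ t) (hbt : b ≠ t) (s : Store)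
    (ht : s t = []) :
    RunLe (cpy a b t) s (upd s b (s a ++ s b)) (9 * (s a).length + 2) := by
  have h1 := mv_run hat (s a) s rfl
  have h2 := mv2_run hat.symm hbt.symm hab ((s a).reverse ++ s t)
    (upd (upd s a []) t ((s a).reverse ++ s t)) (by rw [upd_same])
  refine RunLe.to (h1.seq h2) (by simp [ht]; omega) ?_
  funext i
  simp only [upd]
  split_ifs <;> simp_all

/-! ### the class -/

/-- computed by a stack program in polynomial time (input and output in register 0) -/
def FP (f : List Bool → List Bool) : Prop :=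
  ∃ (p : Prog) (P : Polynomial ℕ), ∀ x, RunLe p (inp x) (inp (f x)) (P.eval x.length)

/-- local specification: the program works in any store whose registers `1..m-1` are empty -/
def Spec (f : List Bool → List Bool) (p : Prog) (m : ℕ) (P : Polynomial ℕ) : Prop :=
  ∀ t : Store, (∀ r, 0 < r → r < m → t r = []) →
    RunLe p t (upd t 0 (f (t 0))) (P.eval (t 0).length)

theorem FP.spec {f : List Bool → List Bool} (h : FP f) :
    ∃ (p : Prog) (m : ℕ) (P : Polynomial ℕ), Spec f p m P := by
  obtain ⟨p, P, hp⟩ := h
  obtain ⟨m, hm⟩ := p.exists_bd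
  refine ⟨p, m + 1, P, fun t ht => ?_⟩
  have h1 := (hp (t 0)).frame (Prog.bd_mono (Nat.le_succ m) hm) t
  have e1 : merge (m + 1) (inp (t 0)) t = t := by
    funext i
    simp only [merge, inp, upd]
    split_ifs with h2 h3
    · rw [h3]
    · exact (ht i (by omega) h2).symm
    · rfl
  have e2 : merge (m + 1) (inp (f (t 0))) t = upd t 0 (f (t 0)) := by
    funext i
    simp only [merge, inp, upd]
    split_ifs with h2 h3 h3
    · rfl
    · exact (ht i (by omega) h2).symm
    · omega
    · rfl
  rwa [e1, e2] at h1

theorem Spec.mono {f : List Bool → List Bool} {p : Prog} {m m' : ℕ} {P : Polynomial ℕ}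
    (h : Spec f p m P) (hm : m ≤ m') : Spec f p m' P :=
  fun t ht => h t (fun r h0 h1 => ht r h0 (by omega))

theorem FP.of_spec {f : List Bool → List Bool} {p : Prog} {m : ℕ} {P : Polynomial ℕ}
    (h : Spec f p m P) : FP f := by
  refine ⟨p, P, fun x => ?_⟩
  have h1 := h (inp x) (fun r h0 _ => by simp [inp, upd]; omega)
  have e0 : inp x 0 = x := by simp [inp]
  rw [e0] at h1
  have e1 : upd (inp x) 0 (f x) = inp (f x) := by rw [inp, upd_upd, inp]
  rwa [e1] at h1

theorem FP.length {f : List Bool → List Bool} (h : FP f) :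
    ∃ P : Polynomial ℕ, ∀ x, (f x).length ≤ P.eval x.length := by
  obtain ⟨p, P, hp⟩ := h
  refine ⟨X + P, fun x => ?_⟩
  have h1 := (hp x).length_le 0
  simp only [inp, upd_same] at h1
  simpa using h1

theorem FP.id : FP (fun x => x) :=
  ⟨.skip, 1, fun x => by simpa using RunLe.skip (inp x)⟩

theorem FP.comp {f g : List Bool → List Bool} (hf : FP f) (hg : FP g) : FP (fun x => f (g x)) := by
  obtain ⟨Q, hQ⟩ := hg.length
  obtain ⟨p, P, hp⟩ := hf
  obtain ⟨q, P', hq⟩ := hg
  refine ⟨.seq q p, P' + P.comp Q, fun x => ?_⟩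
  refine ((hq x).seq (hp (g x))).mono ?_
  simp only [eval_add, eval_comp]
  have := pmono P (hQ x)
  omega

theorem FP.cons (b : Bool) : FP (fun x => b :: x) := by
  refine FP.of_spec (p := .push 0 b) (m := 0) (P := 1) (fun t _ => ?_)
  simpa using RunLe.push 0 b t

theorem FP.tail : FP (fun x => x.tail) := by
  refine FP.of_spec (p := .pop 0) (m := 0) (P := 1) (fun t _ => ?_)
  simpa using RunLe.pop 0 t

theorem FP.nil : FP (fun _ => []) := by
  refine FP.of_spec (p := clr 0) (m := 0) (P := 2 * X + 1) (fun t _ => ?_)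
  simpa using clr_run (t 0) t rfl

theorem FP.const (w : List Bool) : FP (fun _ => w) := by
  induction w with
  | nil => exact FP.nil
  | cons b w ih => exact (FP.cons b).comp ih

/-- first component -/
def fs : List Bool → List Bool
  | true :: b :: l => b :: fs l
  | _ => []

/-- second component -/
def sn : List Bool → List Bool
  | true :: _ :: l => sn l
  | false :: l => l
  | _ => []

@[simp] theorem fs_pr (x y : List Bool) : fs (pr x y) = x := by
  induction x with
  | nil => simp [pr, fs]
  | cons b x ih => simp [pr, fs, ih]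

@[simp] theorem sn_pr (x y : List Bool) : sn (pr x y) = y := by
  induction x with
  | nil => simp [pr, sn]
  | cons b x ih => simp [pr, sn, ih]

theorem pr_length (x y : List Bool) : (pr x y).length = 2 * x.length + 1 + y.length := by
  induction x with
  | nil => simp [pr]; omega
  | cons b x ih => simp [pr, ih]; omega

/-- push the self-delimiting code of the reverse of `a` on `0` -/
def wr (a : ℕ) : Prog :=
  .loop a (.cond a .skip
    (.seq (.pop a) (.seq (.push 0 false) (.push 0 true)))
    (.seq (.pop a) (.seq (.push 0 true) (.push 0 true))))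

theorem wr_run {a : ℕ} (ha : a ≠ 0) (l : List Bool) : ∀ (s : Store) (x y : List Bool), s a = l →
    s 0 = pr x y →
    RunLe (wr a) s (upd (upd s a []) 0 (pr (l.reverse ++ x) y)) (5 * l.length + 1) := by
  induction l with
  | nil =>
    intro s x y hs h0
    have h : upd (upd s a []) 0 (pr (([] : List Bool).reverse ++ x) y) = s := by
      funext i; simp only [upd]; split_ifs with h1 h2
      · subst h1; simp [h0]
      · subst h2; exact hs.symm
      · rfl
    rw [h]
    exact RunLe.loopN (by simp [hs])
  | cons b l ih =>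
    intro s x y hs h0
    have key : RunLe (.cond a .skip
        (.seq (.pop a) (.seq (.push 0 false) (.push 0 true)))
        (.seq (.pop a) (.seq (.push 0 true) (.push 0 true)))) s
        (upd (upd s a l) 0 (pr (b :: x) y)) 4 := by
      have hp : RunLe (.seq (.pop a) (.seq (.push 0 b) (.push 0 true))) s
          (upd (upd s a l) 0 (pr (b :: x) y)) 3 := by
        have h1 := RunLe.pop a s
        rw [hs, List.tail_cons] at h1
        have h2 := RunLe.push 0 b (upd s a l)
        rw [upd_ne s l ha.symm] at h2
        have h3 := RunLe.push 0 true (upd (upd s a l) 0 (b :: s 0))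
        rw [upd_same, upd_upd, h0] at h3
        rw [h0] at h2
        exact h1.seq (h2.seq h3)
      cases b with
      | false => exact RunLe.condF (by simp [hs]) hp
      | true => exact RunLe.condT (by simp [hs]) hp
    have h3 := ih (upd (upd s a l) 0 (pr (b :: x) y)) (b :: x) y
      (by rw [upd_ne _ _ ha, upd_same]) (by rw [upd_same])
    have h4 := RunLe.loopS (r := a) (by simp [hs]) key h3
    refine RunLe.to h4 (by simp only [List.length_cons]; omega) ?_
    funext i
    simp only [upd, List.reverse_cons, List.append_assoc, List.singleton_append]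
    split_ifs <;> simp_all

theorem FP.pair {f g : List Bool → List Bool} (hf : FP f) (hg : FP g) :
    FP (fun x => pr (f x) (g x)) := by
  obtain ⟨Qf, hQf⟩ := hf.length
  obtain ⟨Qg, hQg⟩ := hg.length
  obtain ⟨p, m1, P, hp⟩ := hf.spec
  obtain ⟨q, m2, P', hq⟩ := hg.spec
  obtain ⟨m, hm⟩ : ∃ m, m = m1 + m2 + 1 := ⟨_, rfl⟩
  have hp := hp.mono (m' := m) (by omega)
  have hq := hq.mono (m' := m) (by omega)
  -- registers: A = m, C = m+1, T = m+2
  refine FP.of_spec (m := m + 3)
    (p := .seq (cpy 0 m (m + 2)) <| .seq q <| .seq (mv 0 (m + 1)) <| .seq (mvo m 0 (m + 2)) <|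
      .seq p <| .seq (mv 0 (m + 2)) <| .seq (mv (m + 1) 0) <| .seq (.push 0 false) (wr (m + 2)))
    (P := (9 * X + 2) + (P' + ((4 * Qg + 1) + ((8 * X + 2) + (P + ((4 * Qf + 1) + ((4 * Qg + 1) +
      (1 + (5 * Qf + 1)))))))))
    (fun t ht => ?_)
  have ht1 : ∀ r, 0 < r → r < m → t r = [] := fun r h0 h1 => ht r h0 (by omega)
  have tm : t m = [] := ht m (by omega) (by omega)
  have tm1 : t (m + 1) = [] := ht (m + 1) (by omega) (by omega)
  have tm2 : t (m + 2) = [] := ht (m + 2) (by omega) (by omega)
  set x := t 0 with hx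
  have hmne : m ≠ 0 := by omega
  -- 1
  have s1 := cpy_run (a := 0) (b := m) (t := m + 2) (by omega) (by omega) (by omega) t tm2
  rw [← hx, tm, List.append_nil] at s1
  -- 2
  have s2 := hq (upd t m x) (fun r h0 h1 => by rw [upd_ne _ _ (by omega)]; exact ht1 r h0 h1)
  rw [upd_ne _ _ (by omega : (0 : ℕ) ≠ m), ← hx] at s2
  -- 3
  have s3 := mv_run (a := 0) (b := m + 1) (by omega) (g x) (upd (upd t m x) 0 (g x))
    (by rw [upd_same])
  have e3 : upd (upd (upd (upd t m x) 0 (g x)) 0 []) (m + 1)
      ((g x).reverse ++ upd (upd t m x) 0 (g x) (m + 1)) =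
      upd (upd (upd t m x) 0 []) (m + 1) (g x).reverse := by
    rw [upd_upd, upd_ne _ _ (by omega), upd_ne _ _ (by omega), tm1, List.append_nil]
  rw [e3] at s3
  -- 4
  have s4 := mvo_run (a := m) (b := 0) (t := m + 2) (by omega) (by omega) (by omega)
    (upd (upd (upd t m x) 0 []) (m + 1) (g x).reverse)
    (by rw [upd_ne _ _ (by omega), upd_ne _ _ (by omega), upd_ne _ _ (by omega), tm2])
  have e4a : upd (upd (upd t m x) 0 []) (m + 1) (g x).reverse m = x := by
    rw [upd_ne _ _ (by omega), upd_ne _ _ (by omega), upd_same]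
  have e4b : upd (upd (upd t m x) 0 []) (m + 1) (g x).reverse 0 = [] := by
    rw [upd_ne _ _ (by omega), upd_same]
  rw [e4a, e4b, List.append_nil] at s4
  have e4 : upd (upd (upd (upd (upd t m x) 0 []) (m + 1) (g x).reverse) m []) 0 x =
      upd t (m + 1) (g x).reverse := by
    funext i
    by_cases h0 : i = 0
    · subst h0; rw [upd_same, upd_ne _ _ (by omega)]
    · by_cases h1 : i = m
      · subst h1
        rw [upd_ne _ _ (by omega), upd_same, upd_ne _ _ (by omega), tm]
      · by_cases h2 : i = m + 1
        · subst h2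
          rw [upd_ne _ _ (by omega), upd_ne _ _ (by omega), upd_same, upd_same]
        · rw [upd_ne _ _ h0, upd_ne _ _ h1, upd_ne _ _ h2, upd_ne _ _ h0, upd_ne _ _ h1,
            upd_ne _ _ h2]
  rw [e4] at s4
  -- 5
  have s5 := hp (upd t (m + 1) (g x).reverse)
    (fun r h0 h1 => by rw [upd_ne _ _ (by omega)]; exact ht1 r h0 h1)
  rw [upd_ne _ _ (by omega : (0 : ℕ) ≠ m + 1), ← hx] at s5
  -- 6
  have s6 := mv_run (a := 0) (b := m + 2) (by omega) (f x)
    (upd (upd t (m + 1) (g x).reverse) 0 (f x)) (by rw [upd_same])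
  have e6 : upd (upd (upd (upd t (m + 1) (g x).reverse) 0 (f x)) 0 []) (m + 2)
      ((f x).reverse ++ upd (upd t (m + 1) (g x).reverse) 0 (f x) (m + 2)) =
      upd (upd (upd t (m + 1) (g x).reverse) 0 []) (m + 2) (f x).reverse := by
    rw [upd_upd, upd_ne _ _ (by omega), upd_ne _ _ (by omega), tm2, List.append_nil]
  rw [e6] at s6
  -- 7
  have s7 := mv_run (a := m + 1) (b := 0) (by omega) (g x).reverse
    (upd (upd (upd t (m + 1) (g x).reverse) 0 []) (m + 2) (f x).reverse)
    (by rw [upd_ne _ _ (by omega), upd_ne _ _ (by omega), upd_same])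
  have e7a : upd (upd (upd t (m + 1) (g x).reverse) 0 []) (m + 2) (f x).reverse 0 = [] := by
    rw [upd_ne _ _ (by omega), upd_same]
  rw [e7a, List.append_nil, List.reverse_reverse] at s7
  have e7 : upd (upd (upd (upd (upd t (m + 1) (g x).reverse) 0 []) (m + 2) (f x).reverse)
      (m + 1) []) 0 (g x) = upd (upd t 0 (g x)) (m + 2) (f x).reverse := by
    funext i
    by_cases h0 : i = 0
    · subst h0; rw [upd_same, upd_ne _ _ (by omega), upd_same]
    · by_cases h1 : i = m + 1
      · subst h1
        rw [upd_ne _ _ (by omega), upd_same, upd_ne _ _ (by omega), upd_ne _ _ (by omega), tm1]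
      · by_cases h2 : i = m + 2
        · subst h2
          rw [upd_ne _ _ (by omega), upd_ne _ _ (by omega), upd_same, upd_same]
        · rw [upd_ne _ _ h0, upd_ne _ _ h1, upd_ne _ _ h2, upd_ne _ _ h0, upd_ne _ _ h1,
            upd_ne _ _ h2, upd_ne _ _ h0]
  rw [e7] at s7
  -- 8
  have s8 := RunLe.push 0 false (upd (upd t 0 (g x)) (m + 2) (f x).reverse)
  rw [upd_ne _ _ (by omega : (0 : ℕ) ≠ m + 2), upd_same] at s8
  -- 9
  have s9 := wr_run (a := m + 2) (by omega) (f x).reverse
    (upd (upd (upd t 0 (g x)) (m + 2) (f x).reverse) 0 (false :: g x)) [] (g x)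
    (by rw [upd_ne _ _ (by omega), upd_same]) (by rw [upd_same]; rfl)
  rw [List.reverse_reverse, List.append_nil] at s9
  have e9 : upd (upd (upd (upd (upd t 0 (g x)) (m + 2) (f x).reverse) 0 (false :: g x))
      (m + 2) []) 0 (pr (f x) (g x)) = upd t 0 (pr (f x) (g x)) := by
    funext i
    by_cases h0 : i = 0
    · subst h0; rw [upd_same, upd_same]
    · by_cases h2 : i = m + 2
      · subst h2
        rw [upd_ne _ _ (by omega), upd_same, upd_ne _ _ (by omega), tm2]
      · rw [upd_ne _ _ h0, upd_ne _ _ h2, upd_ne _ _ h0, upd_ne _ _ h2, upd_ne _ _ h0,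
          upd_ne _ _ h0]
  rw [e9] at s9
  have hall := s1.seq (s2.seq (s3.seq (s4.seq (s5.seq (s6.seq (s7.seq (s8.seq s9)))))))
  refine hall.mono ?_
  have b1 := hQf x
  have b2 := hQg x
  simp only [List.length_reverse, eval_add, eval_mul, eval_X, eval_one, eval_ofNat]
  omega

/-! ### decoding -/

/-- read the first component from register 0, storing its reverse in `a`; flag register `fl` -/
def rd (a fl : ℕ) : Prog :=
  .loop fl (.cond 0 (.pop fl) (.seq (.pop 0) (.pop fl))
    (.seq (.pop 0) (.cond 0 (.pop fl)
      (.seq (.pop 0) (.push a false))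
      (.seq (.pop 0) (.push a true)))))

theorem rd_run {a fl : ℕ} (ha : a ≠ 0) (hf : fl ≠ 0) (haf : a ≠ fl) (n : ℕ) :
    ∀ (x : List Bool) (s : Store), x.length ≤ n → s 0 = x → s fl = [true] →
    RunLe (rd a fl) s (upd (upd (upd s fl []) 0 (sn x)) a ((fs x).reverse ++ s a))
      (7 * n + 6) := by
  induction n with
  | zero =>
    intro x s hx h0 h1
    have hx0 : x = [] := List.length_eq_zero_iff.mp (by omega)
    subst hx0
    have k1 := RunLe.condN (r := 0) (b := (.seq (.pop 0) (.pop fl)))
      (c := (.seq (.pop 0) (.cond 0 (.pop fl)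
        (.seq (.pop 0) (.push a false)) (.seq (.pop 0) (.push a true)))))
      (by simp [h0]) (RunLe.pop fl s)
    rw [h1, List.tail_cons] at k1
    have k2 := RunLe.loopS (r := fl) (by simp [h1]) k1 (RunLe.loopN (by simp))
    refine RunLe.to k2 (by omega) ?_
    funext i
    simp only [upd, fs, sn]
    split_ifs <;> simp_all
  | succ n ih =>
    intro x s hx h0 h1
    match x, hx, h0 with
    | [], _, h0 =>
      have k1 := RunLe.condN (r := 0) (b := (.seq (.pop 0) (.pop fl)))
        (c := (.seq (.pop 0) (.cond 0 (.pop fl)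
          (.seq (.pop 0) (.push a false)) (.seq (.pop 0) (.push a true)))))
        (by simp [h0]) (RunLe.pop fl s)
      rw [h1, List.tail_cons] at k1
      have k2 := RunLe.loopS (r := fl) (by simp [h1]) k1 (RunLe.loopN (by simp))
      refine RunLe.to k2 (by omega) ?_
      funext i
      simp only [upd, fs, sn]
      split_ifs <;> simp_all
    | false :: l, _, h0 =>
      have k0 := RunLe.pop 0 s
      rw [h0, List.tail_cons] at k0
      have k1 := RunLe.condF (r := 0) (a := .pop fl)
        (c := (.seq (.pop 0) (.cond 0 (.pop fl)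
          (.seq (.pop 0) (.push a false)) (.seq (.pop 0) (.push a true)))))
        (by simp [h0]) (k0.seq (RunLe.pop fl (upd s 0 l)))
      rw [upd_ne _ _ hf, h1, List.tail_cons] at k1
      have k2 := RunLe.loopS (r := fl) (by simp [h1]) k1 (RunLe.loopN (by simp))
      refine RunLe.to k2 (by omega) ?_
      funext i
      simp only [upd, fs, sn]
      split_ifs <;> simp_all
    | [true], _, h0 =>
      have k0 := RunLe.pop 0 s
      rw [h0, List.tail_cons] at k0
      have k3 := RunLe.condN (r := 0) (b := (.seq (.pop 0) (.push a false)))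
        (c := (.seq (.pop 0) (.push a true))) (s := upd s 0 []) (by simp)
        (RunLe.pop fl (upd s 0 []))
      have k1 := RunLe.condT (r := 0) (a := .pop fl) (b := (.seq (.pop 0) (.pop fl)))
        (by simp [h0]) (k0.seq k3)
      rw [upd_ne _ _ hf, h1, List.tail_cons] at k1
      have k2 := RunLe.loopS (r := fl) (by simp [h1]) k1 (RunLe.loopN (by simp))
      refine RunLe.to k2 (by omega) ?_
      funext i
      simp only [upd, fs, sn]
      split_ifs <;> simp_all
    | true :: b :: l, hx, h0 =>
      have k0 := RunLe.pop 0 s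
      rw [h0, List.tail_cons] at k0
      have k4 := RunLe.pop 0 (upd s 0 (b :: l))
      rw [upd_same, List.tail_cons, upd_upd] at k4
      have k5 := RunLe.push a b (upd s 0 l)
      rw [upd_ne _ _ ha] at k5
      have k3 : RunLe (.cond 0 (.pop fl) (.seq (.pop 0) (.push a false))
          (.seq (.pop 0) (.push a true))) (upd s 0 (b :: l)) (upd (upd s 0 l) a (b :: s a))
          (1 + 1 + 1) := by
        cases b with
        | false => exact RunLe.condF (by simp) (k4.seq k5)
        | true => exact RunLe.condT (by simp) (k4.seq k5)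
      have k1 := RunLe.condT (r := 0) (a := .pop fl) (b := (.seq (.pop 0) (.pop fl)))
        (by simp [h0]) (k0.seq k3)
      have k6 := ih l (upd (upd s 0 l) a (b :: s a)) (by simp only [List.length_cons] at hx; omega)
        (by rw [upd_ne _ _ ha.symm, upd_same])
        (by rw [upd_ne _ _ haf.symm, upd_ne _ _ hf, h1])
      have k2 := RunLe.loopS (r := fl) (by simp [h1]) k1 k6
      refine RunLe.to k2 (by omega) ?_
      funext i
      simp only [upd, fs, sn, List.reverse_cons, List.append_assoc, List.singleton_append]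
      split_ifs <;> simp_all

theorem fs_length : ∀ x : List Bool, (fs x).length ≤ x.length
  | true :: b :: l => by have := fs_length l; simp [fs]; omega
  | [] => by simp [fs]
  | [true] => by simp [fs]
  | false :: _ => by simp [fs]

theorem sn_length : ∀ x : List Bool, (sn x).length ≤ x.length
  | true :: b :: l => by have := sn_length l; simp [sn]; omega
  | [] => by simp [sn]
  | [true] => by simp [sn]
  | false :: _ => by simp [sn]

theorem fs_sn_length : ∀ x : List Bool, 2 * (fs x).length + (sn x).length ≤ x.length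
  | true :: b :: l => by have := fs_sn_length l; simp [fs, sn]; omega
  | [] => by simp [fs, sn]
  | [true] => by simp [fs, sn]
  | false :: _ => by simp [fs, sn]

theorem FP.snI : FP sn := by
  refine FP.of_spec (m := 3) (p := .seq (.push 2 true) (.seq (rd 1 2) (clr 1)))
    (P := 1 + ((7 * X + 6) + (2 * X + 1))) (fun t ht => ?_)
  have t1 := ht 1 (by omega) (by omega)
  have t2 := ht 2 (by omega) (by omega)
  have s1 := RunLe.push 2 true t
  rw [t2] at s1
  have s2 := rd_run (a := 1) (fl := 2) (by omega) (by omega) (by omega) (t 0).length (t 0)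
    (upd t 2 [true]) le_rfl (by rw [upd_ne _ _ (by omega)]) (by rw [upd_same])
  rw [upd_ne _ _ (by omega : (1 : ℕ) ≠ 2), t1, List.append_nil] at s2
  have s3 := clr_run (a := 1) (fs (t 0)).reverse
    (upd (upd (upd (upd t 2 [true]) 2 []) 0 (sn (t 0))) 1 (fs (t 0)).reverse)
    (by rw [upd_same])
  refine RunLe.to (s1.seq (s2.seq s3)) ?_ ?_
  · have := fs_length (t 0)
    simp only [List.length_reverse, eval_add, eval_mul, eval_X, eval_one, eval_ofNat]
    omega
  · funext i
    simp only [upd]
    split_ifs <;> simp_all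

theorem FP.fsI : FP fs := by
  refine FP.of_spec (m := 3) (p := .seq (.push 2 true) (.seq (rd 1 2) (.seq (clr 0) (mv 1 0))))
    (P := 1 + ((7 * X + 6) + ((2 * X + 1) + (4 * X + 1)))) (fun t ht => ?_)
  have t1 := ht 1 (by omega) (by omega)
  have t2 := ht 2 (by omega) (by omega)
  have s1 := RunLe.push 2 true t
  rw [t2] at s1
  have s2 := rd_run (a := 1) (fl := 2) (by omega) (by omega) (by omega) (t 0).length (t 0)
    (upd t 2 [true]) le_rfl (by rw [upd_ne _ _ (by omega)]) (by rw [upd_same])
  rw [upd_ne _ _ (by omega : (1 : ℕ) ≠ 2), t1, List.append_nil] at s2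
  set u := upd (upd (upd (upd t 2 [true]) 2 []) 0 (sn (t 0))) 1
    (fs (t 0)).reverse with hu
  have s3 := clr_run (a := 0) (sn (t 0)) u
    (by rw [hu, upd_ne _ _ (by omega), upd_same])
  have s4 := mv_run (a := 1) (b := 0) (by omega) (fs (t 0)).reverse (upd u 0 [])
    (by rw [upd_ne _ _ (by omega), hu, upd_same])
  refine RunLe.to (s1.seq (s2.seq (s3.seq s4))) ?_ ?_
  · have := fs_length (t 0)
    have := sn_length (t 0)
    simp only [List.length_reverse, eval_add, eval_mul, eval_X, eval_one, eval_ofNat]
    omega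
  · funext i
    simp only [hu, upd, List.reverse_reverse]
    split_ifs <;> simp_all

/-! ### conditionals -/

/-- polynomial-time tests -/
def FPb (c : List Bool → Bool) : Prop := FP (fun x => [c x])

theorem FP.ite {c : List Bool → Bool} {f g : List Bool → List Bool} (hc : FPb c) (hf : FP f)
    (hg : FP g) : FP (fun x => if c x then f x else g x) := by
  obtain ⟨pc, m0, Pc, hc⟩ := FP.spec hc
  obtain ⟨p, m1, P, hp⟩ := hf.spec
  obtain ⟨q, m2, P', hq⟩ := hg.spec
  obtain ⟨m, hm⟩ : ∃ m, m = m0 + m1 + m2 + 1 := ⟨_, rfl⟩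
  have hc := hc.mono (m' := m) (by omega)
  have hp := hp.mono (m' := m) (by omega)
  have hq := hq.mono (m' := m) (by omega)
  refine FP.of_spec (m := m + 2)
    (p := .seq (cpy 0 m (m + 1)) <| .seq pc <| .cond 0 .skip
      (.seq (.pop 0) (.seq (mvo m 0 (m + 1)) q)) (.seq (.pop 0) (.seq (mvo m 0 (m + 1)) p)))
    (P := (9 * X + 2) + (Pc + (1 + (1 + ((8 * X + 2) + (P + P')))))) (fun t ht => ?_)
  have ht1 : ∀ r, 0 < r → r < m → t r = [] := fun r h0 h1 => ht r h0 (by omega)
  have tm : t m = [] := ht m (by omega) (by omega)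
  have tm1 : t (m + 1) = [] := ht (m + 1) (by omega) (by omega)
  set x := t 0 with hx
  have hmne : m ≠ 0 := by omega
  have s1 := cpy_run (a := 0) (b := m) (t := m + 1) (by omega) (by omega) (by omega) t tm1
  rw [← hx, tm, List.append_nil] at s1
  have s2 := hc (upd t m x) (fun r h0 h1 => by rw [upd_ne _ _ (by omega)]; exact ht1 r h0 h1)
  rw [upd_ne _ _ (by omega : (0 : ℕ) ≠ m), ← hx] at s2
  have s3 := RunLe.pop 0 (upd (upd t m x) 0 [c x])
  rw [upd_same, List.tail_cons, upd_upd] at s3
  have s4 := mvo_run (a := m) (b := 0) (t := m + 1) (by omega) (by omega) (by omega)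
    (upd (upd t m x) 0 []) (by rw [upd_ne _ _ (by omega), upd_ne _ _ (by omega), tm1])
  rw [upd_ne _ _ hmne, upd_same, upd_same, List.append_nil] at s4
  have e4 : upd (upd (upd (upd t m x) 0 []) m []) 0 x = t := by
    funext i
    simp only [upd]
    split_ifs <;> simp_all
  rw [e4] at s4
  have s5 := hp t ht1
  have s6 := hq t ht1
  rw [← hx] at s5 s6
  have hk : ∀ b, c x = b → RunLe (.cond 0 .skip
      (.seq (.pop 0) (.seq (mvo m 0 (m + 1)) q)) (.seq (.pop 0) (.seq (mvo m 0 (m + 1)) p)))
      (upd (upd t m x) 0 [c x]) (upd t 0 (if c x then f x else g x))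
      (1 + (1 + ((8 * x.length + 2) + (P.eval x.length + P'.eval x.length)))) := by
    intro b hb
    cases b with
    | false =>
      refine RunLe.to (RunLe.condF (by simp [hb]) (s3.seq (s4.seq s6))) (by omega) ?_
      simp [hb]
    | true =>
      refine RunLe.to (RunLe.condT (by simp [hb]) (s3.seq (s4.seq s5))) (by omega) ?_
      simp [hb]
  refine (s1.seq (s2.seq (hk _ rfl))).mono ?_
  simp only [eval_add, eval_mul, eval_X, eval_one, eval_ofNat]
  omega

/-! ### iteration -/

theorem loop_iter {f : List Bool → List Bool} {p : Prog} {m : ℕ} {P : Polynomial ℕ}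
    (hp : Spec f p m P) {a : ℕ} (ha : m ≤ a) (ha0 : a ≠ 0) (B : ℕ) (l : List Bool) :
    ∀ (t : Store), t a = l → (∀ r, 0 < r → r < m → t r = []) →
      (∀ i, i < l.length → (f^[i] (t 0)).length ≤ B) →
      RunLe (.loop a (.seq (.pop a) p)) t (upd (upd t a []) 0 (f^[l.length] (t 0)))
        (l.length * (P.eval B + 2) + 1) := by
  induction l with
  | nil =>
    intro t h1 h2 h3
    have e : upd (upd t a []) 0 (f^[([] : List Bool).length] (t 0)) = t := by
      funext i
      simp only [upd, List.length_nil, Function.iterate_zero, id_eq]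
      split_ifs <;> simp_all
    rw [e]
    exact (RunLe.loopN (by simp [h1])).mono (by simp)
  | cons b l ih =>
    intro t h1 h2 h3
    have s1 := RunLe.pop a t
    rw [h1, List.tail_cons] at s1
    have s2 := hp (upd t a l) (fun r h0 h4 => by rw [upd_ne _ _ (by omega)]; exact h2 r h0 h4)
    rw [upd_ne _ _ ha0.symm] at s2
    have s3 := ih (upd (upd t a l) 0 (f (t 0))) (by rw [upd_ne _ _ ha0, upd_same])
      (fun r h0 h4 => by rw [upd_ne _ _ (by omega), upd_ne _ _ (by omega)]; exact h2 r h0 h4)
      (fun i hi => by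
        rw [upd_same, ← Function.iterate_succ_apply]
        exact h3 (i + 1) (by simp only [List.length_cons]; omega))
    rw [upd_same, ← Function.iterate_succ_apply] at s3
    refine RunLe.to (RunLe.loopS (r := a) (by simp [h1]) (s1.seq s2) s3) ?_ ?_
    · have := pmono P (h3 0 (by simp))
      simp only [Function.iterate_zero, id_eq] at this
      simp only [List.length_cons]
      rw [Nat.succ_mul]
      omega
    · funext i
      simp only [upd, List.length_cons]
      split_ifs <;> simp_all

theorem FP.iter {f c g : List Bool → List Bool} (hf : FP f) (hc : FP c) (hg : FP g)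
    (B : Polynomial ℕ)
    (hB : ∀ x i, i ≤ (c x).length → (f^[i] (g x)).length ≤ B.eval x.length) :
    FP (fun x => f^[(c x).length] (g x)) := by
  obtain ⟨Qc, hQc⟩ := hc.length
  obtain ⟨pc, m0, Pc, hc⟩ := hc.spec
  obtain ⟨pg, m1, Pg, hg⟩ := hg.spec
  obtain ⟨p, m2, P, hp⟩ := hf.spec
  obtain ⟨m, hm⟩ : ∃ m, m = m0 + m1 + m2 + 1 := ⟨_, rfl⟩
  have hc := hc.mono (m' := m) (by omega)
  have hg := hg.mono (m' := m) (by omega)
  have hp := hp.mono (m' := m) (by omega)
  refine FP.of_spec (m := m + 3)
    (p := .seq (cpy 0 m (m + 1)) <| .seq pc <| .seq (mv 0 (m + 2)) <| .seq (mvo m 0 (m + 1)) <|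
      .seq pg (.loop (m + 2) (.seq (.pop (m + 2)) p)))
    (P := (9 * X + 2) + (Pc + ((4 * Qc + 1) + ((8 * X + 2) + (Pg + (Qc * (P.comp B + 2) + 1))))))
    (fun t ht => ?_)
  have ht1 : ∀ r, 0 < r → r < m → t r = [] := fun r h0 h1 => ht r h0 (by omega)
  have tm : t m = [] := ht m (by omega) (by omega)
  have tm1 : t (m + 1) = [] := ht (m + 1) (by omega) (by omega)
  have tm2 : t (m + 2) = [] := ht (m + 2) (by omega) (by omega)
  set x := t 0 with hx
  have hmne : m ≠ 0 := by omega
  have s1 := cpy_run (a := 0) (b := m) (t := m + 1) (by omega) (by omega) (by omega) t tm1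
  rw [← hx, tm, List.append_nil] at s1
  have s2 := hc (upd t m x) (fun r h0 h1 => by rw [upd_ne _ _ (by omega)]; exact ht1 r h0 h1)
  rw [upd_ne _ _ (by omega : (0 : ℕ) ≠ m), ← hx] at s2
  have s3 := mv_run (a := 0) (b := m + 2) (by omega) (c x) (upd (upd t m x) 0 (c x))
    (by rw [upd_same])
  rw [upd_upd, upd_ne _ _ (by omega : m + 2 ≠ 0), upd_ne _ _ (by omega : m + 2 ≠ m), tm2,
    List.append_nil] at s3
  have s4 := mvo_run (a := m) (b := 0) (t := m + 1) (by omega) (by omega) (by omega)
    (upd (upd (upd t m x) 0 []) (m + 2) (c x).reverse)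
    (by rw [upd_ne _ _ (by omega), upd_ne _ _ (by omega), upd_ne _ _ (by omega), tm1])
  rw [upd_ne _ _ (by omega : m ≠ m + 2), upd_ne _ _ hmne, upd_same,
    upd_ne _ _ (by omega : 0 ≠ m + 2), upd_same, List.append_nil] at s4
  have e4 : upd (upd (upd (upd (upd t m x) 0 []) (m + 2) (c x).reverse) m []) 0 x =
      upd t (m + 2) (c x).reverse := by
    funext i
    simp only [upd]
    split_ifs <;> simp_all
  rw [e4] at s4
  have s5 := hg (upd t (m + 2) (c x).reverse)
    (fun r h0 h1 => by rw [upd_ne _ _ (by omega)]; exact ht1 r h0 h1)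
  rw [upd_ne _ _ (by omega : (0 : ℕ) ≠ m + 2), ← hx] at s5
  have s6 := loop_iter hp (a := m + 2) (by omega) (by omega) (B.eval x.length) (c x).reverse
    (upd (upd t (m + 2) (c x).reverse) 0 (g x)) (by rw [upd_ne _ _ (by omega), upd_same])
    (fun r h0 h1 => by rw [upd_ne _ _ (by omega), upd_ne _ _ (by omega)]; exact ht1 r h0 h1)
    (fun i hi => by
      rw [upd_same]
      exact hB x i (by rw [List.length_reverse] at hi; omega))
  refine RunLe.to (s1.seq (s2.seq (s3.seq (s4.seq (s5.seq s6))))) ?_ ?_
  · have b1 := hQc x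
    have b2 : (c x).length * (P.eval (B.eval x.length) + 2) ≤
      Qc.eval x.length * (P.eval (B.eval x.length) + 2) := Nat.mul_le_mul_right _ b1
    simp only [List.length_reverse, eval_add, eval_mul, eval_X, eval_one, eval_ofNat, eval_comp]
    omega
  · funext i
    simp only [upd, List.length_reverse]
    split_ifs <;> simp_all

end Pool.Agent.Work.MP_0532f7_lc
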