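import Mathlib
import Pool.Agent.Work.MP_0532f7_lc.FP

/-!
A library of polynomial-time string functions.
-/

namespace Pool.Agent.Work.MP_0532f7_lc

open Polynomial

theorem FP.congr {f g : List Bool → List Bool} (hf : FP f) (h : ∀ x, f x = g x) : FP g := by
  have : f = g := funext h
  rwa [← this]

/-! ### tests -/

theorem FPb.comp {c : List Bool → Bool} {f : List Bool → List Bool} (hc : FPb c) (hf : FP f) :
    FPb (fun x => c (f x)) := FP.comp hc hf

theorem FPb.congr {c d : List Bool → Bool} (hc : FPb c) (h : ∀ x, c x = d x) : FPb d := by
  have : c = d := funext h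
  rwa [← this]

theorem FPb.const (b : Bool) : FPb (fun _ => b) := FP.const [b]

theorem FPb.ite {c a b : List Bool → Bool} (hc : FPb c) (ha : FPb a) (hb : FPb b) :
    FPb (fun x => if c x then a x else b x) := by
  refine (FP.ite hc ha hb).congr (fun x => ?_)
  by_cases h : c x <;> simp [h]

theorem FPb.not {c : List Bool → Bool} (hc : FPb c) : FPb (fun x => !c x) := by
  refine (FPb.ite hc (FPb.const false) (FPb.const true)).congr (fun x => ?_)
  cases h : c x <;> simp

theorem FPb.and {c d : List Bool → Bool} (hc : FPb c) (hd : FPb d) :
    FPb (fun x => c x && d x) := by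
  refine (FPb.ite hc hd (FPb.const false)).congr (fun x => ?_)
  cases h : c x <;> simp

theorem FPb.or {c d : List Bool → Bool} (hc : FPb c) (hd : FPb d) :
    FPb (fun x => c x || d x) := by
  refine (FPb.ite hc (FPb.const true) hd).congr (fun x => ?_)
  cases h : c x <;> simp

theorem test_run (a b c : Bool) (s : Store) :
    RunLe (.cond 0 (.push 0 a) (.seq (clr 0) (.push 0 b)) (.seq (clr 0) (.push 0 c))) s
      (upd s 0 [match (s 0).head? with | none => a | some false => b | some true => c])
      (2 * (s 0).length + 4) := by
  have s1 := clr_run (a := 0) (s 0) s rfl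
  cases h : s 0 with
  | nil =>
    have h1 := RunLe.push 0 a s
    rw [h] at h1
    exact (RunLe.condN (by simp [h]) h1).mono (by omega)
  | cons d l =>
    cases d with
    | false =>
      have h1 := RunLe.push 0 b (upd s 0 [])
      rw [upd_same, upd_upd] at h1
      refine (RunLe.condF (by simp [h]) (s1.seq h1)).mono ?_
      rw [h]; omega
    | true =>
      have h1 := RunLe.push 0 c (upd s 0 [])
      rw [upd_same, upd_upd] at h1
      refine (RunLe.condT (by simp [h]) (s1.seq h1)).mono ?_
      rw [h]; omega

theorem FPb.isNil : FPb (fun x => x.isEmpty) := by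
  refine FP.of_spec (m := 0) (P := 2 * X + 4)
    (p := .cond 0 (.push 0 true) (.seq (clr 0) (.push 0 false)) (.seq (clr 0) (.push 0 false)))
    (fun t _ => ?_)
  refine RunLe.to (test_run true false false t) ?_ ?_
  · simp
  · congr 1
    cases h : t 0 with
    | nil => rfl
    | cons d l => cases d <;> rfl

theorem FPb.hd : FPb (fun x => x.head?.getD false) := by
  refine FP.of_spec (m := 0) (P := 2 * X + 4)
    (p := .cond 0 (.push 0 false) (.seq (clr 0) (.push 0 false)) (.seq (clr 0) (.push 0 true)))
    (fun t _ => ?_)
  refine RunLe.to (test_run false false true t) ?_ ?_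
  · simp
  · congr 1
    cases h : t 0 with
    | nil => rfl
    | cons d l => cases d <;> rfl

/-! ### reverse, append -/

theorem FP.reverse : FP (fun x => x.reverse) := by
  refine FP.of_spec (m := 3) (p := .seq (mv 0 1) (.seq (mv 1 2) (mv 2 0)))
    (P := (4 * X + 1) + ((4 * X + 1) + (4 * X + 1))) (fun t ht => ?_)
  have t1 := ht 1 (by omega) (by omega)
  have t2 := ht 2 (by omega) (by omega)
  have s1 := mv_run (a := 0) (b := 1) (by omega) (t 0) t rfl
  rw [t1, List.append_nil] at s1
  have s2 := mv_run (a := 1) (b := 2) (by omega) (t 0).reverse (upd (upd t 0 []) 1 (t 0).reverse)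
    (by rw [upd_same])
  rw [upd_ne _ _ (by omega : (2 : ℕ) ≠ 1), upd_ne _ _ (by omega : (2 : ℕ) ≠ 0), t2,
    List.append_nil, List.reverse_reverse] at s2
  have s3 := mv_run (a := 2) (b := 0) (by omega) (t 0)
    (upd (upd (upd (upd t 0 []) 1 (t 0).reverse) 1 []) 2 (t 0)) (by rw [upd_same])
  refine RunLe.to (s1.seq (s2.seq s3)) ?_ ?_
  · simp only [List.length_reverse, eval_add, eval_mul, eval_X, eval_one, eval_ofNat]
    omega
  · funext i
    simp only [upd]
    split_ifs <;> simp_all

theorem FP.rev {f : List Bool → List Bool} (hf : FP f) : FP (fun x => (f x).reverse) :=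
  FP.reverse.comp hf

theorem FP.app0 : FP (fun z => fs z ++ sn z) := by
  refine FP.of_spec (m := 3) (p := .seq (.push 2 true) (.seq (rd 1 2) (mv 1 0)))
    (P := 1 + ((7 * X + 6) + (4 * X + 1))) (fun t ht => ?_)
  have t1 := ht 1 (by omega) (by omega)
  have t2 := ht 2 (by omega) (by omega)
  have s1 := RunLe.push 2 true t
  rw [t2] at s1
  have s2 := rd_run (a := 1) (fl := 2) (by omega) (by omega) (by omega) (t 0).length (t 0)
    (upd t 2 [true]) le_rfl (by rw [upd_ne _ _ (by omega)]) (by rw [upd_same])
  rw [upd_ne _ _ (by omega : (1 : ℕ) ≠ 2), t1, List.append_nil] at s2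
  have s3 := mv_run (a := 1) (b := 0) (by omega) (fs (t 0)).reverse
    (upd (upd (upd (upd t 2 [true]) 2 []) 0 (sn (t 0))) 1
      (fs (t 0)).reverse) (by rw [upd_same])
  refine RunLe.to (s1.seq (s2.seq s3)) ?_ ?_
  · have := fs_length (t 0)
    simp only [List.length_reverse, eval_add, eval_mul, eval_X, eval_one, eval_ofNat]
    omega
  · funext i
    simp only [upd, List.reverse_reverse]
    split_ifs <;> simp_all

theorem FP.app {f g : List Bool → List Bool} (hf : FP f) (hg : FP g) :
    FP (fun x => f x ++ g x) := by
  refine (FP.app0.comp (hf.pair hg)).congr (fun x => ?_)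
  simp

theorem FP.consb {c : List Bool → Bool} {f : List Bool → List Bool} (hc : FPb c) (hf : FP f) :
    FP (fun x => c x :: f x) := by
  refine (FP.app hc hf).congr (fun x => ?_)
  simp

theorem FP.fst {f : List Bool → List Bool} (hf : FP f) : FP (fun x => fs (f x)) :=
  FP.fsI.comp hf

theorem FP.snd {f : List Bool → List Bool} (hf : FP f) : FP (fun x => sn (f x)) :=
  FP.snI.comp hf

/-! ### iteration with a parameter -/

theorem FP.iterc {step : List Bool → List Bool → List Bool} {p c g : List Bool → List Bool}
    (hs : FP (fun z => step (fs z) (sn z)))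
    (hp : FP p) (hc : FP c) (hg : FP g)
    (B : Polynomial ℕ)
    (hB : ∀ x i, i ≤ (c x).length → ((step (p x))^[i] (g x)).length ≤ B.eval x.length) :
    FP (fun x => (step (p x))^[(c x).length] (g x)) := by
  obtain ⟨Q, hQ⟩ := hp.length
  have key : ∀ (x : List Bool) (i : ℕ),
      (fun z => pr (fs z) (step (fs z) (sn z)))^[i]
        (pr (p x) (g x)) = pr (p x) ((step (p x))^[i] (g x)) := by
    intro x i
    induction i with
    | zero => rfl
    | succ i ih =>
      rw [Function.iterate_succ_apply', ih, Function.iterate_succ_apply']
      simp
  have h1 := FP.iter (f := fun z => pr (fs z)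
    (step (fs z) (sn z)))
    (c := c) (g := fun x => pr (p x) (g x)) (FP.pair FP.fsI hs) hc (hp.pair hg)
    (2 * Q + 1 + B) (fun x i hi => by
      rw [key, pr_length]
      have := hB x i hi
      have := hQ x
      simp only [eval_add, eval_mul, eval_one, eval_ofNat]
      omega)
  refine (FP.snI.comp h1).congr (fun x => ?_)
  rw [key, sn_pr]

/-! ### drop, nth, take -/

theorem tail_iter (n : ℕ) (x : List Bool) : (fun x : List Bool => x.tail)^[n] x = x.drop n := by
  induction n generalizing x with
  | zero => simp
  | succ n ih => rw [Function.iterate_succ_apply, ih, List.drop_tail]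

theorem FP.drop {f g : List Bool → List Bool} (hf : FP f) (hg : FP g) :
    FP (fun x => (g x).drop (f x).length) := by
  obtain ⟨Q, hQ⟩ := hg.length
  refine (FP.iter (f := fun x => x.tail) FP.tail hf hg Q (fun x i _ => ?_)).congr (fun x => ?_)
  · rw [tail_iter]
    have := hQ x
    simp only [List.length_drop]; omega
  · rw [tail_iter]

theorem FP.take {f g : List Bool → List Bool} (hf : FP f) (hg : FP g) :
    FP (fun x => (g x).take (f x).length) := by
  refine (FP.rev (FP.drop (FP.drop hf hg) (FP.rev hg))).congr (fun x => ?_)
  rw [List.drop_reverse, List.reverse_reverse]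
  have : (g x).length - ((g x).drop (f x).length).length = min (f x).length (g x).length := by
    rw [List.length_drop]; omega
  rw [this]
  rcases le_total (f x).length (g x).length with h | h
  · rw [min_eq_left h]
  · rw [min_eq_right h, List.take_length, List.take_of_length_le h]

theorem sn_iter_length (n : ℕ) (x : List Bool) : (sn^[n] x).length ≤ x.length := by
  induction n generalizing x with
  | zero => simp
  | succ n ih => rw [Function.iterate_succ_apply]; exact (ih _).trans (sn_length x)

theorem FP.snIter {f g : List Bool → List Bool} (hf : FP f) (hg : FP g) :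
    FP (fun x => sn^[(f x).length] (g x)) := by
  obtain ⟨Q, hQ⟩ := hg.length
  exact FP.iter FP.snI hf hg Q (fun x i _ => (sn_iter_length i _).trans (hQ x))

/-- lists of strings as strings -/
def encL : List (List Bool) → List Bool
  | [] => []
  | x :: L => pr x (encL L)

@[simp] theorem encL_nil : encL [] = [] := rfl
@[simp] theorem encL_cons (x : List Bool) (L : List (List Bool)) : encL (x :: L) = pr x (encL L) :=
  rfl

theorem pr_app (x y z : List Bool) : pr x y ++ z = pr x (y ++ z) := by
  induction x with
  | nil => simp [pr]
  | cons b x ih => simp [pr, ih]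

theorem encL_append (A B : List (List Bool)) : encL (A ++ B) = encL A ++ encL B := by
  induction A with
  | nil => simp
  | cons x A ih => simp [ih, pr_app]

@[simp] theorem sn_nil : sn [] = [] := rfl
@[simp] theorem fs_nil : fs [] = [] := rfl

theorem sn_iter_encL (n : ℕ) (L : List (List Bool)) : sn^[n] (encL L) = encL (L.drop n) := by
  induction n generalizing L with
  | zero => simp
  | succ n ih =>
    rw [Function.iterate_succ_apply]
    cases L with
    | nil =>
      have : ∀ k, sn^[k] ([] : List Bool) = [] := by
        intro k; induction k with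
        | zero => rfl
        | succ k ihk => rw [Function.iterate_succ_apply, sn_nil, ihk]
      simp [this]
    | cons x L => simp [ih]

/-- the `i`-th string of a coded list -/
def nth (i L : List Bool) : List Bool := fs (sn^[i.length] L)

theorem nth_encL (i : List Bool) (L : List (List Bool)) : nth i (encL L) = L.getD i.length [] := by
  unfold nth
  rw [sn_iter_encL]
  rcases h : L.drop i.length with _ | ⟨x, L'⟩
  · simp only [encL_nil, fs_nil]
    rw [List.drop_eq_nil_iff] at h
    rw [List.getD_eq_getElem?_getD, List.getElem?_eq_none h]; rfl
  · simp only [encL_cons, fs_pr]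
    have h1 : (L.drop i.length)[0]? = some x := by rw [h]; rfl
    rw [List.getElem?_drop, Nat.add_zero] at h1
    rw [List.getD_eq_getElem?_getD, h1]; rfl

theorem FP.nthI {f g : List Bool → List Bool} (hf : FP f) (hg : FP g) :
    FP (fun x => nth (f x) (g x)) := FP.fsI.comp (FP.snIter hf hg)

/-- replace the `i`-th string of a coded list -/
def setS (i v L : List Bool) : List Bool :=
  L.take (L.length - (sn^[i.length] L).length) ++ pr v (sn (sn^[i.length] L))

theorem setS_encL (i v : List Bool) (L : List (List Bool)) (h : i.length < L.length) :
    setS i v (encL L) = encL (L.set i.length v) := by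
  unfold setS
  rw [sn_iter_encL]
  have e1 : encL L = encL (L.take i.length) ++ encL (L.drop i.length) := by
    rw [← encL_append, List.take_append_drop]
  have e2 : (encL L).length - (encL (L.drop i.length)).length = (encL (L.take i.length)).length := by
    rw [e1, List.length_append]; omega
  rw [e2]
  have e3 : (encL L).take (encL (L.take i.length)).length = encL (L.take i.length) := by
    conv_lhs => rw [e1]
    rw [List.take_left]
  rw [e3]
  have e4 : L.drop i.length = L[i.length] :: L.drop (i.length + 1) :=
    List.drop_eq_getElem_cons h
  rw [e4, encL_cons, sn_pr, List.set_eq_take_append_cons_drop, if_pos h, encL_append, encL_cons]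

theorem FP.setSI {f g v : List Bool → List Bool} (hf : FP f) (hv : FP v) (hg : FP g) :
    FP (fun x => setS (f x) (v x) (g x)) := by
  have h1 := FP.snIter hf hg
  have h2 := FP.drop h1 hg
  have h3 := FP.take h2 hg
  refine (FP.app h3 (FP.pair hv (FP.snI.comp h1))).congr (fun x => ?_)
  simp only [setS, List.length_drop]

theorem setS_length (i v L : List Bool) :
    (setS i v L).length ≤ L.length + 2 * v.length + 1 := by
  unfold setS
  rw [List.length_append, pr_length, List.length_take]
  have h1 := sn_iter_length i.length L
  have h2 := sn_length (sn^[i.length] L)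
  omega

/-! ### equality -/

/-- compare step -/
def cstep (z : List Bool) : List Bool :=
  if (!(fs z).isEmpty && !(sn z).isEmpty) &&
    (((fs z).head?.getD false && (sn z).head?.getD false) ||
     (!(fs z).head?.getD false && !(sn z).head?.getD false))
  then pr (fs z).tail (sn z).tail else z

theorem FP.cstepI : FP cstep := by
  refine FP.ite (((FPb.isNil.comp FP.fsI).not.and (FPb.isNil.comp FP.snI).not).and
    (((FPb.hd.comp FP.fsI).and (FPb.hd.comp FP.snI)).or
      ((FPb.hd.comp FP.fsI).not.and (FPb.hd.comp FP.snI).not)))
    ((FP.tail.comp FP.fsI).pair (FP.tail.comp FP.snI)) FP.id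

theorem cstep_pr (x y : List Bool) : cstep (pr x y) =
    match x, y with
    | a :: x', b :: y' => if a = b then pr x' y' else pr x y
    | _, _ => pr x y := by
  unfold cstep
  rw [fs_pr, sn_pr]
  cases x with
  | nil => simp
  | cons a x' =>
    cases y with
    | nil => simp
    | cons b y' => cases a <;> cases b <;> simp

theorem cstep_iter (x : List Bool) : ∀ y, (cstep^[x.length] (pr x y) = pr [] []) ↔ x = y := by
  induction x with
  | nil =>
    intro y
    simp only [List.length_nil, Function.iterate_zero, id_eq]
    constructor
    · intro h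
      have := congrArg sn h
      rw [sn_pr, sn_pr] at this
      exact this.symm
    · intro h; rw [h]
  | cons a x ih =>
    intro y
    rw [List.length_cons, Function.iterate_succ_apply, cstep_pr]
    cases y with
    | nil =>
      simp only [reduceCtorEq, iff_false]
      have hfix : ∀ n, cstep^[n] (pr (a :: x) []) = pr (a :: x) [] := by
        intro n; induction n with
        | zero => rfl
        | succ n ihn =>
          rw [Function.iterate_succ_apply, cstep_pr]; exact ihn
      rw [hfix]
      intro h
      have := congrArg fs h
      rw [fs_pr, fs_pr] at this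
      exact absurd this (by simp)
    | cons b y =>
      by_cases hab : a = b
      · subst hab
        simp only [if_true]
        rw [ih y]
        constructor
        · intro h; rw [h]
        · intro h; exact (List.cons.inj h).2
      · simp only [if_neg hab]
        have hfix : ∀ n, cstep^[n] (pr (a :: x) (b :: y)) = pr (a :: x) (b :: y) := by
          intro n; induction n with
          | zero => rfl
          | succ n ihn =>
            rw [Function.iterate_succ_apply, cstep_pr]; simp only [if_neg hab]; exact ihn
        rw [hfix]
        constructor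
        · intro h
          have := congrArg fs h
          rw [fs_pr, fs_pr] at this
          exact absurd this (by simp)
        · intro h; exact absurd (List.cons.inj h).1 hab

theorem cstep_length (z : List Bool) : (cstep z).length ≤ z.length := by
  unfold cstep
  split_ifs with h
  · rw [pr_length]
    have := fs_sn_length z
    have h2 : (sn z) ≠ [] := by
      intro h3; rw [h3] at h; simp at h
    have h3 : 0 < (sn z).length := List.length_pos_iff.mpr h2
    have h1 : (fs z) ≠ [] := by
      intro h3; rw [h3] at h; simp at h
    have h4 : 0 < (fs z).length := List.length_pos_iff.mpr h1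
    simp only [List.length_tail]
    omega
  · exact le_rfl

theorem FPb.eq {f g : List Bool → List Bool} (hf : FP f) (hg : FP g) :
    FPb (fun x => decide (f x = g x)) := by
  obtain ⟨Q, hQ⟩ := (hf.pair hg).length
  have hlen : ∀ (i : ℕ) z, (cstep^[i] z).length ≤ z.length := by
    intro i; induction i with
    | zero => intro z; simp
    | succ i ih => intro z; rw [Function.iterate_succ_apply]; exact (ih _).trans (cstep_length z)
  have h1 := FP.iter FP.cstepI hf (hf.pair hg) Q (fun x i _ => (hlen i _).trans (hQ x))
  -- the state is `pr [] []` iff both components are empty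
  have h2 : FPb (fun x => (fs (cstep^[(f x).length] (pr (f x) (g x)))).isEmpty &&
      (sn (cstep^[(f x).length] (pr (f x) (g x)))).isEmpty) :=
    (FPb.isNil.comp (FP.fsI.comp h1)).and (FPb.isNil.comp (FP.snI.comp h1))
  refine h2.congr (fun x => ?_)
  have hpr : ∀ (i : ℕ) (a b : List Bool), ∃ a' b', cstep^[i] (pr a b) = pr a' b' := by
    intro i; induction i with
    | zero => intro a b; exact ⟨a, b, rfl⟩
    | succ i ih =>
      intro a b
      rw [Function.iterate_succ_apply, cstep_pr]
      cases a with
      | nil => exact ih _ _
      | cons a0 a =>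
        cases b with
        | nil => exact ih _ _
        | cons b0 b =>
          by_cases h : a0 = b0
          · simp only [if_pos h]; exact ih _ _
          · simp only [if_neg h]; exact ih _ _
  obtain ⟨a', b', h3⟩ := hpr (f x).length (f x) (g x)
  have h4 := cstep_iter (f x) (g x)
  rw [h3] at h4 ⊢
  rw [fs_pr, sn_pr, eq_comm, Bool.eq_iff_iff]
  simp only [decide_eq_true_eq, Bool.and_eq_true, List.isEmpty_iff]
  rw [← h4]
  constructor
  · intro h
    have e1 := congrArg fs h
    have e2 := congrArg sn h
    rw [fs_pr, fs_pr] at e1
    rw [sn_pr, sn_pr] at e2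
    exact ⟨e1, e2⟩
  · rintro ⟨rfl, rfl⟩; rfl

end Pool.Agent.Work.MP_0532f7_lc
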