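import Mathlib
import Pool.Agent.Work.MP_0532f7_lc.FP

/-!
Stack programs compile to the TM2 machines of Mathlib.
-/

namespace Pool.Agent.Work.MP_0532f7_lc

open Turing Turing.TM2

/-- label type of a program -/
def Lab : Prog → Type
  | .skip => Empty
  | .push _ _ => Empty
  | .pop _ => Empty
  | .seq p q => Lab p ⊕ Lab q
  | .cond _ a b c => Lab a ⊕ (Lab b ⊕ Lab c)
  | .loop _ p => Option (Lab p)

noncomputable def labFintype : ∀ p : Prog, Fintype (Lab p)
  | .skip => inferInstanceAs (Fintype Empty)
  | .push _ _ => inferInstanceAs (Fintype Empty)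
  | .pop _ => inferInstanceAs (Fintype Empty)
  | .seq p q => by
    haveI := labFintype p; haveI := labFintype q
    exact inferInstanceAs (Fintype (Lab p ⊕ Lab q))
  | .cond _ a b c => by
    haveI := labFintype a; haveI := labFintype b; haveI := labFintype c
    exact inferInstanceAs (Fintype (Lab a ⊕ (Lab b ⊕ Lab c)))
  | .loop _ p => by
    haveI := labFintype p
    exact inferInstanceAs (Fintype (Option (Lab p)))

section

variable (N : ℕ) {Λ : Type}

/-- statements of the compiled machine -/
abbrev St (N : ℕ) (Λ : Type) := TM2.Stmt (fun _ : Fin (N + 1) => Bool) Λ (Option Bool)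

def reg (r : ℕ) : Fin (N + 1) := Fin.ofNat (N + 1) r

/-- compile with continuation -/
def cmp : (p : Prog) → (Lab p → Λ) → St N Λ → St N Λ
  | .skip, _, k => k
  | .push r b, _, k => .push (reg N r) (fun _ => b) k
  | .pop r, _, k => .pop (reg N r) (fun v _ => v) k
  | .seq p q, e, k => cmp p (fun l => e (Sum.inl l)) (cmp q (fun l => e (Sum.inr l)) k)
  | .cond r a b c, e, k => .peek (reg N r) (fun _ o => o)
      (.branch (fun v => v.isNone) (cmp a (fun l => e (Sum.inl l)) k)
        (.branch (fun v => v == some false) (cmp b (fun l => e (Sum.inr (Sum.inl l))) k)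
          (cmp c (fun l => e (Sum.inr (Sum.inr l))) k)))
  | .loop _ _, e, _ => .goto (fun _ => e none)

/-- the statement at a label -/
def bod : (p : Prog) → (Lab p → Λ) → St N Λ → Lab p → St N Λ
  | .skip, _, k, _ => k
  | .push _ _, _, k, _ => k
  | .pop _, _, k, _ => k
  | .seq p q, e, k, l => match l with
    | Sum.inl l => bod p (fun l => e (Sum.inl l)) (cmp N q (fun l => e (Sum.inr l)) k) l
    | Sum.inr l => bod q (fun l => e (Sum.inr l)) k l
  | .cond _ a b c, e, k, l => match l with
    | Sum.inl l => bod a (fun l => e (Sum.inl l)) k l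
    | Sum.inr (Sum.inl l) => bod b (fun l => e (Sum.inr (Sum.inl l))) k l
    | Sum.inr (Sum.inr l) => bod c (fun l => e (Sum.inr (Sum.inr l))) k l
  | .loop r p, e, k, l => match l with
    | none => .peek (reg N r) (fun _ o => o)
        (.branch (fun v => v.isNone) k
          (cmp N p (fun l => e (some l)) (.goto (fun _ => e none))))
    | some l => bod p (fun l => e (some l)) (.goto (fun _ => e none)) l

/-- the stacks given by a store -/
def stk (s : Store) : ∀ _ : Fin (N + 1), List Bool := fun k => s k.val

theorem reg_val {r : ℕ} (h : r < N + 1) : (reg N r).val = r := by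
  simp [reg, Nat.mod_eq_of_lt h]

theorem stk_reg {r : ℕ} (h : r < N + 1) (s : Store) : stk N s (reg N r) = s r := by
  simp only [stk, reg_val N h]

theorem update_stk {r : ℕ} (h : r < N + 1) (s : Store) (x : List Bool) :
    Function.update (stk N s) (reg N r) x = stk N (upd s r x) := by
  funext k
  by_cases hk : k = reg N r
  · subst hk; simp [stk, upd, reg_val N h]
  · rw [Function.update_of_ne hk]
    have : k.val ≠ r := fun h' => hk (Fin.ext (by rw [reg_val N h, h']))
    simp [stk, upd, this]

variable (M : Λ → St N Λ)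

/-- reachability in exactly `n` steps -/
def Steps (c c' : TM2.Cfg (fun _ : Fin (N + 1) => Bool) Λ (Option Bool)) (n : ℕ) : Prop :=
  (flip bind (TM2.step M))^[n] (some c) = some c'

theorem Steps.refl (c : TM2.Cfg (fun _ : Fin (N + 1) => Bool) Λ (Option Bool)) :
    Steps N M c c 0 := rfl

theorem Steps.trans {a b c : TM2.Cfg (fun _ : Fin (N + 1) => Bool) Λ (Option Bool)} {n m : ℕ}
    (h1 : Steps N M a b n) (h2 : Steps N M b c m) : Steps N M a c (n + m) := by
  unfold Steps at *
  rw [Nat.add_comm n m, Function.iterate_add_apply, h1, h2]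

theorem Steps.one (l : Λ) (v : Option Bool) (S : ∀ _ : Fin (N + 1), List Bool) :
    Steps N M ⟨some l, v, S⟩ (TM2.stepAux (M l) v S) 1 := by
  unfold Steps
  simp [flip, TM2.step]

theorem cmp_run {p : Prog} {s s' : Store} {n : ℕ} (h : Run p s s' n) :
    ∀ (hp : p.bd (N + 1)) (e : Lab p → Λ) (k : St N Λ) (_ : ∀ l, M (e l) = bod N p e k l)
      (v : Option Bool), ∃ m ≤ n, ∃ v', Steps N M (TM2.stepAux (cmp N p e k) v (stk N s))
        (TM2.stepAux k v' (stk N s')) m := by
  induction h with
  | skip s =>
    intro hp e k hM v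
    exact ⟨0, by omega, v, Steps.refl N M _⟩
  | push r b s =>
    intro hp e k hM v
    refine ⟨0, by omega, v, ?_⟩
    have hr : r < N + 1 := hp
    have : TM2.stepAux (cmp N (.push r b) e k) v (stk N s) =
        TM2.stepAux k v (stk N (upd s r (b :: s r))) := by
      simp only [cmp, TM2.stepAux]
      rw [stk_reg N hr, update_stk N hr]
    rw [this]; exact Steps.refl N M _
  | pop r s =>
    intro hp e k hM v
    refine ⟨0, by omega, v, ?_⟩
    have hr : r < N + 1 := hp
    have : TM2.stepAux (cmp N (.pop r) e k) v (stk N s) =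
        TM2.stepAux k v (stk N (upd s r (s r).tail)) := by
      simp only [cmp, TM2.stepAux]
      rw [stk_reg N hr, update_stk N hr]
    rw [this]; exact Steps.refl N M _
  | @seq p q s s1 s2 n1 n2 _ _ ih1 ih2 =>
    intro hp e k hM v
    obtain ⟨m1, hm1, v1, h1⟩ := ih1 hp.1 (fun l => e (Sum.inl l))
      (cmp N q (fun l => e (Sum.inr l)) k) (fun l => by rw [hM (Sum.inl l)]; rfl) v
    obtain ⟨m2, hm2, v2, h2⟩ := ih2 hp.2 (fun l => e (Sum.inr l)) k
      (fun l => by rw [hM (Sum.inr l)]; rfl) v1
    exact ⟨m1 + m2, by omega, v2, h1.trans N M h2⟩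
  | @condN r a b c s s' n h1 _ ih =>
    intro hp e k hM v
    obtain ⟨m1, hm1, v1, h2⟩ := ih hp.2.1 (fun l => e (Sum.inl l)) k
      (fun l => by rw [hM (Sum.inl l)]; rfl) (s r).head?
    refine ⟨m1, by omega, v1, ?_⟩
    have : TM2.stepAux (cmp N (.cond r a b c) e k) v (stk N s) =
        TM2.stepAux (cmp N a (fun l => e (Sum.inl l)) k) (s r).head? (stk N s) := by
      simp only [cmp, TM2.stepAux]
      rw [stk_reg N hp.1, h1]; rfl
    rw [this]; exact h2
  | @condF r a b c s s' n h1 _ ih =>
    intro hp e k hM v
    obtain ⟨m1, hm1, v1, h2⟩ := ih hp.2.2.1 (fun l => e (Sum.inr (Sum.inl l))) k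
      (fun l => by rw [hM (Sum.inr (Sum.inl l))]; rfl) (s r).head?
    refine ⟨m1, by omega, v1, ?_⟩
    have : TM2.stepAux (cmp N (.cond r a b c) e k) v (stk N s) =
        TM2.stepAux (cmp N b (fun l => e (Sum.inr (Sum.inl l))) k) (s r).head? (stk N s) := by
      simp only [cmp, TM2.stepAux]
      rw [stk_reg N hp.1, h1]; rfl
    rw [this]; exact h2
  | @condT r a b c s s' n h1 _ ih =>
    intro hp e k hM v
    obtain ⟨m1, hm1, v1, h2⟩ := ih hp.2.2.2 (fun l => e (Sum.inr (Sum.inr l))) k
      (fun l => by rw [hM (Sum.inr (Sum.inr l))]; rfl) (s r).head?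
    refine ⟨m1, by omega, v1, ?_⟩
    have : TM2.stepAux (cmp N (.cond r a b c) e k) v (stk N s) =
        TM2.stepAux (cmp N c (fun l => e (Sum.inr (Sum.inr l))) k) (s r).head? (stk N s) := by
      simp only [cmp, TM2.stepAux]
      rw [stk_reg N hp.1, h1]; rfl
    rw [this]; exact h2
  | @loopN r p s h1 =>
    intro hp e k hM v
    refine ⟨1, le_rfl, (s r).head?, ?_⟩
    have e1 : TM2.stepAux (cmp N (.loop r p) e k) v (stk N s) = ⟨some (e none), v, stk N s⟩ := rfl
    rw [e1]
    have h2 := Steps.one N M (e none) v (stk N s)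
    have e2 : TM2.stepAux (M (e none)) v (stk N s) = TM2.stepAux k (s r).head? (stk N s) := by
      rw [hM none]
      simp only [bod, TM2.stepAux]
      rw [stk_reg N hp.1, h1]; rfl
    rwa [e2] at h2
  | @loopS r p s s1 s2 n1 n2 h1 _ _ ih1 ih2 =>
    intro hp e k hM v
    obtain ⟨m1, hm1, v1, h2⟩ := ih1 hp.2 (fun l => e (some l)) (.goto (fun _ => e none))
      (fun l => by rw [hM (some l)]; rfl) (s r).head?
    obtain ⟨m2, hm2, v2, h3⟩ := ih2 hp e k hM v1
    refine ⟨1 + (m1 + m2), by omega, v2, ?_⟩
    have e1 : TM2.stepAux (cmp N (.loop r p) e k) v (stk N s) = ⟨some (e none), v, stk N s⟩ := rfl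
    rw [e1]
    have h4 := Steps.one N M (e none) v (stk N s)
    have e2 : TM2.stepAux (M (e none)) v (stk N s) =
        TM2.stepAux (cmp N p (fun l => e (some l)) (.goto (fun _ => e none))) (s r).head?
          (stk N s) := by
      rw [hM none]
      simp only [bod, TM2.stepAux]
      rw [stk_reg N hp.1]
      cases hh : (s r).head? with
      | none => exact absurd hh h1
      | some b => rfl
    rw [e2] at h4
    exact h4.trans N M (h2.trans N M h3)

end

/-- the machine of a program -/
noncomputable def machine (N : ℕ) (p : Prog) : FinTM2 :=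
  haveI := labFintype p
  { K := Fin (N + 1)
    k₀ := 0
    k₁ := 0
    Γ := fun _ => Bool
    Λ := Option (Lab p)
    main := none
    ΛFin := inferInstance
    σ := Option Bool
    initialState := none
    Γk₀Fin := inferInstance
    m := fun l => match l with
      | none => cmp N p some (.load (fun _ => none) .halt)
      | some l => bod N p some (.load (fun _ => none) .halt) l }

theorem FP.polyTime {f : List Bool → List Bool} (h : FP f) : PolyTime f := by
  obtain ⟨p, P, hp⟩ := h
  obtain ⟨N, hN⟩ := p.exists_bd
  have hN1 : p.bd (N + 1) := Prog.bd_mono (Nat.le_succ N) hN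
  refine ⟨{ tm := machine N p, inputAlphabet := Equiv.refl Bool, outputAlphabet := Equiv.refl Bool,
            time := P + 1, outputsFun := fun a => ?_ }⟩
  have key : ∃ n ≤ P.eval a.length + 1,
      (flip bind (machine N p).step)^[n] (some (initList (machine N p) a)) =
        some (haltList (machine N p) (f a)) := by
    obtain ⟨n, hn, hrun⟩ := hp a
    obtain ⟨m, hm, v', h1⟩ := cmp_run N (machine N p).m hrun hN1 some
      (.load (fun _ => none) .halt) (fun l => rfl) none
    have h0 := Steps.one N (machine N p).m none none (stk N (inp a))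
    have h2 := h0.trans N _ h1
    refine ⟨1 + m, by omega, ?_⟩
    have e1 : initList (machine N p) a = ⟨some none, none, stk N (inp a)⟩ := by
      unfold initList
      congr 1
      funext k
      change (if h : k = (0 : Fin (N + 1)) then _ else _) = _
      split_ifs with hk
      · subst hk; rfl
      · have : k.val ≠ 0 := fun h => hk (Fin.ext h)
        simp [stk, inp, upd, this]
        rfl
    have e2 : haltList (machine N p) (f a) = ⟨none, none, stk N (inp (f a))⟩ := by
      unfold haltList
      congr 1
      funext k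
      change (if h : k = (0 : Fin (N + 1)) then _ else _) = _
      split_ifs with hk
      · subst hk; rfl
      · have : k.val ≠ 0 := fun h => hk (Fin.ext h)
        simp [stk, inp, upd, this]
        rfl
    rw [e1, e2]
    exact h2
  choose n hn h using key
  refine { steps := n, evals_in_steps := ?_, steps_le_m := by simpa using hn }
  have goal : ∀ (x : List ((machine N p).Γ (machine N p).k₀))
      (y : List ((machine N p).Γ (machine N p).k₁)), x = a → y = f a →
      (flip bind (machine N p).step)^[n] (some (initList (machine N p) x)) =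
        Option.map (haltList (machine N p)) (some y) := by
    intro x y hx hy
    subst hx; subst hy
    exact h
  exact goal _ _ (List.map_id a) (List.map_id (f a))

end Pool.Agent.Work.MP_0532f7_lc
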