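import Mathlib
import Pool.Agent.Work.MP_0532f7_lc.Compile

/-!
Table machines: every TM2 machine of Mathlib is simulated by an explicit finite table of numbers.
-/

namespace Pool.Agent.Work.MP_0532f7_lc

open Turing Turing.TM2

/-- one step of the table machine with table `T` -/
def sstep (T : List (List ℕ)) (c : ℕ × List (List ℕ)) : ℕ × List (List ℕ) :=
  let row := T.getD c.1 []
  let kind := row.getD 0 0
  if kind = 0 then c else
  let st := c.2.getD (row.getD 1 0) []
  let idx := if kind = 1 ∨ kind = 2 then 0 else match st with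
    | [] => 0
    | a :: _ => a + 1
  let st' := if kind = 2 then row.getD 2 0 :: st else if kind = 3 then st.tail else st
  ((row.drop 3).getD idx 0, c.2.set (row.getD 1 0) st')

theorem set_getD_self {α : Type} (L : List α) (i : ℕ) (d : α) : L.set i (L.getD i d) = L := by
  apply List.ext_getElem
  · simp
  · intro j h1 h2
    rw [List.getElem_set]
    split_ifs with h
    · subst h
      rw [List.getD_eq_getElem?_getD, List.getElem?_eq_getElem h2, Option.getD_some]
    · rfl

theorem sstep_halt {T : List (List ℕ)} {c : ℕ × List (List ℕ)}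
    (h : (T.getD c.1 []).getD 0 0 = 0) : sstep T c = c := by
  unfold sstep; simp only [h, if_true]

theorem sstep_halt_iter {T : List (List ℕ)} {c : ℕ × List (List ℕ)}
    (h : (T.getD c.1 []).getD 0 0 = 0) (n : ℕ) : (sstep T)^[n] c = c := by
  induction n with
  | zero => rfl
  | succ n ih => rw [Function.iterate_succ_apply, sstep_halt h, ih]

noncomputable section

open Classical

variable (tm : FinTM2)

instance instFinK : Fintype tm.K := tm.kFin
instance instFinL : Fintype tm.Λ := tm.ΛFin
instance instFinS : Fintype tm.σ := tm.σFin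

/-- the type of statements of the machine -/
abbrev MS := TM2.Stmt tm.Γ tm.Λ tm.σ

/-- all sub-statements -/
def nodes : Finset (MS tm) := Finset.univ.biUnion (fun l : tm.Λ => TM2.stmts₁ (tm.m l))

theorem mem_nodes (l : tm.Λ) : tm.m l ∈ nodes tm :=
  Finset.mem_biUnion.mpr ⟨l, Finset.mem_univ _, TM2.stmts₁_self⟩

theorem nodes_sub {q q' : MS tm} (h : q ∈ nodes tm) (h' : q' ∈ TM2.stmts₁ q) : q' ∈ nodes tm := by
  obtain ⟨l, _, hl⟩ := Finset.mem_biUnion.mp h
  exact Finset.mem_biUnion.mpr ⟨l, Finset.mem_univ _, TM2.stmts₁_trans hl h'⟩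

/-- symbols pushed by a statement -/
def psym : MS tm → Finset (Σ k, tm.Γ k)
  | .push k f q => Finset.univ.image (fun v => (⟨k, f v⟩ : Σ k, tm.Γ k)) ∪ psym q
  | .peek _ _ q => psym q
  | .pop _ _ q => psym q
  | .load _ q => psym q
  | .branch _ q1 q2 => psym q1 ∪ psym q2
  | .goto _ => ∅
  | .halt => ∅

variable (ia : tm.Γ tm.k₀ ≃ Bool) (oa : tm.Γ tm.k₁ ≃ Bool)

/-- all relevant stack symbols -/
def syms : Finset (Σ k, tm.Γ k) :=
  (Finset.univ.biUnion (fun l : tm.Λ => psym tm (tm.m l))) ∪
  (Finset.univ.image (fun b : Bool => (⟨tm.k₀, ia.symm b⟩ : Σ k, tm.Γ k))) ∪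
  (Finset.univ.image (fun b : Bool => (⟨tm.k₁, oa.symm b⟩ : Σ k, tm.Γ k)))

/-- symbol code -/
def ac (a : Σ k, tm.Γ k) : ℕ :=
  if h : a ∈ syms tm ia oa then ((syms tm ia oa).equivFin ⟨a, h⟩ : ℕ) else 0

theorem ac_lt {a : Σ k, tm.Γ k} (h : a ∈ syms tm ia oa) :
    ac tm ia oa a < (syms tm ia oa).card := by
  unfold ac; rw [dif_pos h]; exact Fin.is_lt _

theorem ac_inj {a b : Σ k, tm.Γ k} (ha : a ∈ syms tm ia oa) (hb : b ∈ syms tm ia oa)
    (h : ac tm ia oa a = ac tm ia oa b) : a = b := by
  unfold ac at h
  rw [dif_pos ha, dif_pos hb] at h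
  have := (syms tm ia oa).equivFin.injective (Fin.ext h)
  exact congrArg Subtype.val this

/-- decoding of symbols -/
def dec (k : tm.K) (j : Fin (syms tm ia oa).card) : Option (tm.Γ k) :=
  if h : (((syms tm ia oa).equivFin.symm j : Σ k, tm.Γ k)).1 = k then
    some (h ▸ (((syms tm ia oa).equivFin.symm j : Σ k, tm.Γ k)).2) else none

theorem dec_ac {k : tm.K} {a : tm.Γ k} (h : (⟨k, a⟩ : Σ k, tm.Γ k) ∈ syms tm ia oa) :
    dec tm ia oa k ⟨ac tm ia oa ⟨k, a⟩, ac_lt tm ia oa h⟩ = some a := by
  have e : (syms tm ia oa).equivFin.symm ⟨ac tm ia oa ⟨k, a⟩, ac_lt tm ia oa h⟩ = ⟨⟨k, a⟩, h⟩ := by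
    rw [Equiv.symm_apply_eq]
    apply Fin.ext
    simp only [ac, dif_pos h]
  unfold dec
  rw [e]
  simp

/-- machine states: pairs of a sub-statement and an internal state -/
def sts : Finset (MS tm × tm.σ) := nodes tm ×ˢ Finset.univ

/-- state number -/
def sid (x : MS tm × tm.σ) : ℕ :=
  if h : x ∈ sts tm then ((sts tm).equivFin ⟨x, h⟩ : ℕ) else 0

/-- stack number -/
def kid (k : tm.K) : ℕ := (Fintype.equivFin tm.K k : ℕ)

theorem kid_lt (k : tm.K) : kid tm k < Fintype.card tm.K := Fin.is_lt _

/-- the table row of a state -/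
def row : MS tm × tm.σ → List ℕ
  | (.push k f q, v) => [2, kid tm k, ac tm ia oa ⟨k, f v⟩, sid tm (q, v)]
  | (.peek k f q, v) => 4 :: kid tm k :: 0 :: sid tm (q, f v none) ::
      List.ofFn (fun j => sid tm (q, f v (dec tm ia oa k j)))
  | (.pop k f q, v) => 3 :: kid tm k :: 0 :: sid tm (q, f v none) ::
      List.ofFn (fun j => sid tm (q, f v (dec tm ia oa k j)))
  | (.load a q, v) => [1, 0, 0, sid tm (q, a v)]
  | (.branch f q1 q2, v) => [1, 0, 0, sid tm (cond (f v) q1 q2, v)]
  | (.goto l, v) => [1, 0, 0, sid tm (tm.m (l v), v)]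
  | (.halt, _) => [0]

/-- the table -/
def table : List (List ℕ) :=
  List.ofFn (fun i : Fin (sts tm).card => row tm ia oa ((sts tm).equivFin.symm i).1)

theorem table_sid {x : MS tm × tm.σ} (h : x ∈ sts tm) :
    (table tm ia oa).getD (sid tm x) [] = row tm ia oa x := by
  have hlt : sid tm x < (sts tm).card := by unfold sid; rw [dif_pos h]; exact Fin.is_lt _
  have e : (sts tm).equivFin.symm ⟨sid tm x, hlt⟩ = ⟨x, h⟩ := by
    rw [Equiv.symm_apply_eq]
    apply Fin.ext
    simp only [sid, dif_pos h]
  rw [List.getD_eq_getElem?_getD, List.getElem?_eq_getElem (by rw [table, List.length_ofFn]; exact hlt)]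
  simp only [table, List.getElem_ofFn, Option.getD_some]
  rw [e]

/-- encoding of stacks -/
def es (S : ∀ k, List (tm.Γ k)) : List (List ℕ) :=
  List.ofFn (fun i : Fin (Fintype.card tm.K) =>
    (S ((Fintype.equivFin tm.K).symm i)).map (fun a => ac tm ia oa ⟨_, a⟩))

theorem es_getD (S : ∀ k, List (tm.Γ k)) (k : tm.K) :
    (es tm ia oa S).getD (kid tm k) [] = (S k).map (fun a => ac tm ia oa ⟨k, a⟩) := by
  rw [List.getD_eq_getElem?_getD,
    List.getElem?_eq_getElem (by rw [es, List.length_ofFn]; exact kid_lt tm k)]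
  simp only [es, List.getElem_ofFn, Option.getD_some]
  have e : (Fintype.equivFin tm.K).symm ⟨kid tm k, kid_lt tm k⟩ = k := by
    rw [Equiv.symm_apply_eq]; rfl
  rw [e]

theorem es_set (S : ∀ k, List (tm.Γ k)) (k : tm.K) (L : List (tm.Γ k)) :
    (es tm ia oa S).set (kid tm k) (L.map (fun a => ac tm ia oa ⟨k, a⟩)) =
      es tm ia oa (@Function.update tm.K _ tm.kDecidableEq S k L) := by
  apply List.ext_getElem
  · simp [es]
  · intro i h1 h2
    rw [List.getElem_set]
    have hi : i < Fintype.card tm.K := by simpa [es] using h2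
    by_cases hk : kid tm k = i
    · subst hk
      simp only [if_true, es, List.getElem_ofFn]
      have e : (Fintype.equivFin tm.K).symm ⟨kid tm k, kid_lt tm k⟩ = k := by
        rw [Equiv.symm_apply_eq]; rfl
      rw [e, Function.update_self]
    · rw [if_neg hk]
      simp only [es, List.getElem_ofFn]
      have hne : (Fintype.equivFin tm.K).symm ⟨i, hi⟩ ≠ k := by
        intro h
        apply hk
        rw [← h]
        simp [kid]
      rw [Function.update_of_ne hne]

/-- all stack symbols are relevant -/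
def good (S : ∀ k, List (tm.Γ k)) : Prop :=
  ∀ k, ∀ a ∈ S k, (⟨k, a⟩ : Σ k, tm.Γ k) ∈ syms tm ia oa

/-- number of micro steps of a statement -/
def sz : MS tm → ℕ
  | .push _ _ q => sz q + 1
  | .peek _ _ q => sz q + 1
  | .pop _ _ q => sz q + 1
  | .load _ q => sz q + 1
  | .branch _ q1 q2 => sz q1 + sz q2 + 1
  | .goto _ => 1
  | .halt => 0

/-- the table-machine configuration of a configuration reached by a statement -/
def rep (c : TM2.Cfg tm.Γ tm.Λ tm.σ) : ℕ × List (List ℕ) :=
  (match c.l with
    | some l => sid tm (tm.m l, c.var)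
    | none => sid tm (.halt, c.var), es tm ia oa c.stk)

theorem mem_sts {q : MS tm} (h : q ∈ nodes tm) (v : tm.σ) : (q, v) ∈ sts tm :=
  Finset.mem_product.mpr ⟨h, Finset.mem_univ _⟩

theorem micro (q : MS tm) : ∀ (hq : q ∈ nodes tm) (hs : psym tm q ⊆ syms tm ia oa) (v : tm.σ)
    (S : ∀ k, List (tm.Γ k)) (hS : good tm ia oa S),
    (∃ n ≤ sz tm q, (sstep (table tm ia oa))^[n] (sid tm (q, v), es tm ia oa S) =
      rep tm ia oa (@TM2.stepAux tm.K tm.Γ tm.Λ tm.σ tm.kDecidableEq q v S)) ∧
    good tm ia oa (@TM2.stepAux tm.K tm.Γ tm.Λ tm.σ tm.kDecidableEq q v S).stk ∧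
    ((@TM2.stepAux tm.K tm.Γ tm.Λ tm.σ tm.kDecidableEq q v S).l = none →
      (TM2.Stmt.halt : MS tm) ∈ nodes tm) := by
  induction q with
  | push k f q ih =>
    intro hq hs v S hS
    have hq' : q ∈ nodes tm := nodes_sub tm hq (by
      simp only [TM2.stmts₁]; exact Finset.mem_insert_of_mem TM2.stmts₁_self)
    have hs' : psym tm q ⊆ syms tm ia oa := fun a ha => hs (by
      simp only [psym]; exact Finset.mem_union_right _ ha)
    have hfa : (⟨k, f v⟩ : Σ k, tm.Γ k) ∈ syms tm ia oa := hs (by
      simp only [psym]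
      exact Finset.mem_union_left _ (Finset.mem_image_of_mem _ (Finset.mem_univ _)))
    have hS' : good tm ia oa (@Function.update tm.K _ tm.kDecidableEq S k (f v :: S k)) := by
      intro k' a ha
      by_cases hk : k' = k
      · subst hk
        rw [Function.update_self] at ha
        rcases List.mem_cons.mp ha with h | h
        · rw [h]; exact hfa
        · exact hS _ _ h
      · rw [Function.update_of_ne hk] at ha
        exact hS _ _ ha
    obtain ⟨⟨n, hn, h1⟩, h2, h3⟩ := ih hq' hs' v _ hS'
    refine ⟨⟨n + 1, by simp only [sz]; omega, ?_⟩, h2, h3⟩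
    rw [Function.iterate_succ_apply]
    have e : sstep (table tm ia oa) (sid tm (.push k f q, v), es tm ia oa S) =
        (sid tm (q, v), es tm ia oa (@Function.update tm.K _ tm.kDecidableEq S k (f v :: S k))) := by
      unfold sstep
      simp only [table_sid tm ia oa (mem_sts tm hq v), row]
      simp only [List.getD_cons_zero, List.getD_cons_succ, OfNat.ofNat_ne_zero, if_false,
        OfNat.ofNat_ne_one, if_true, or_true, List.drop_succ_cons, List.drop_zero]
      rw [es_getD, ← es_set]
      rfl
    rw [e]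
    exact h1
  | peek k f q ih =>
    intro hq hs v S hS
    have hq' : q ∈ nodes tm := nodes_sub tm hq (by
      simp only [TM2.stmts₁]; exact Finset.mem_insert_of_mem TM2.stmts₁_self)
    have hs' : psym tm q ⊆ syms tm ia oa := hs
    obtain ⟨⟨n, hn, h1⟩, h2, h3⟩ := ih hq' hs' (f v (S k).head?) S hS
    refine ⟨⟨n + 1, by simp only [sz]; omega, ?_⟩, h2, h3⟩
    rw [Function.iterate_succ_apply]
    have e : sstep (table tm ia oa) (sid tm (.peek k f q, v), es tm ia oa S) =
        (sid tm (q, f v (S k).head?), es tm ia oa S) := by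
      unfold sstep
      simp only [table_sid tm ia oa (mem_sts tm hq v), row]
      simp only [List.getD_cons_zero, List.getD_cons_succ, OfNat.ofNat_ne_zero, if_false,
        OfNat.ofNat_ne_one, false_or, List.drop_succ_cons, List.drop_zero]
      rw [es_getD]
      refine Prod.ext ?_ ?_
      · cases hh : S k with
        | nil => simp
        | cons a l =>
          have ha : (⟨k, a⟩ : Σ k, tm.Γ k) ∈ syms tm ia oa := hS k a (by rw [hh]; simp)
          simp only [List.map_cons, List.head?_cons, show ¬ (4 = 2) by omega, if_false]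
          rw [List.getD_cons_succ, List.getD_eq_getElem?_getD,
            List.getElem?_eq_getElem (by rw [List.length_ofFn]; exact ac_lt tm ia oa ha)]
          simp only [List.getElem_ofFn, Option.getD_some, dec_ac tm ia oa ha]
      · simp only [show ¬ (4 = 2) by omega, show ¬ (4 = 3) by omega, if_false]
        rw [es_set]
        congr 1
        exact Function.update_eq_self k S
    rw [e]
    exact h1
  | pop k f q ih =>
    intro hq hs v S hS
    have hq' : q ∈ nodes tm := nodes_sub tm hq (by
      simp only [TM2.stmts₁]; exact Finset.mem_insert_of_mem TM2.stmts₁_self)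
    have hs' : psym tm q ⊆ syms tm ia oa := hs
    have hS' : good tm ia oa (@Function.update tm.K _ tm.kDecidableEq S k (S k).tail) := by
      intro k' a ha
      by_cases hk : k' = k
      · subst hk
        rw [Function.update_self] at ha
        exact hS _ _ (List.mem_of_mem_tail ha)
      · rw [Function.update_of_ne hk] at ha
        exact hS _ _ ha
    obtain ⟨⟨n, hn, h1⟩, h2, h3⟩ := ih hq' hs' (f v (S k).head?) _ hS'
    refine ⟨⟨n + 1, by simp only [sz]; omega, ?_⟩, h2, h3⟩
    rw [Function.iterate_succ_apply]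
    have e : sstep (table tm ia oa) (sid tm (.pop k f q, v), es tm ia oa S) =
        (sid tm (q, f v (S k).head?),
          es tm ia oa (@Function.update tm.K _ tm.kDecidableEq S k (S k).tail)) := by
      unfold sstep
      simp only [table_sid tm ia oa (mem_sts tm hq v), row]
      simp only [List.getD_cons_zero, List.getD_cons_succ, OfNat.ofNat_ne_zero, if_false,
        OfNat.ofNat_ne_one, false_or, List.drop_succ_cons, List.drop_zero]
      rw [es_getD]
      refine Prod.ext ?_ ?_
      · cases hh : S k with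
        | nil => simp
        | cons a l =>
          have ha : (⟨k, a⟩ : Σ k, tm.Γ k) ∈ syms tm ia oa := hS k a (by rw [hh]; simp)
          simp only [List.map_cons, List.head?_cons, show ¬ (3 = 2) by omega, if_false]
          rw [List.getD_cons_succ, List.getD_eq_getElem?_getD,
            List.getElem?_eq_getElem (by rw [List.length_ofFn]; exact ac_lt tm ia oa ha)]
          simp only [List.getElem_ofFn, Option.getD_some, dec_ac tm ia oa ha]
      · simp only [show ¬ (3 = 2) by omega, if_false, if_true]
        rw [← List.map_tail, es_set]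
    rw [e]
    exact h1
  | load a q ih =>
    intro hq hs v S hS
    have hq' : q ∈ nodes tm := nodes_sub tm hq (by
      simp only [TM2.stmts₁]; exact Finset.mem_insert_of_mem TM2.stmts₁_self)
    have hs' : psym tm q ⊆ syms tm ia oa := hs
    obtain ⟨⟨n, hn, h1⟩, h2, h3⟩ := ih hq' hs' (a v) S hS
    refine ⟨⟨n + 1, by simp only [sz]; omega, ?_⟩, h2, h3⟩
    rw [Function.iterate_succ_apply]
    have e : sstep (table tm ia oa) (sid tm (.load a q, v), es tm ia oa S) =
        (sid tm (q, a v), es tm ia oa S) := by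
      unfold sstep
      simp only [table_sid tm ia oa (mem_sts tm hq v), row]
      simp only [List.getD_cons_zero, List.getD_cons_succ, List.drop_succ_cons, List.drop_zero]
      refine Prod.ext rfl ?_
      simp only [show ¬ (1 = 2) by omega, show ¬ (1 = 3) by omega, if_false, one_ne_zero]
      exact set_getD_self _ _ _
    rw [e]
    exact h1
  | branch f q1 q2 ih1 ih2 =>
    intro hq hs v S hS
    have hq1 : q1 ∈ nodes tm := nodes_sub tm hq (by
      simp only [TM2.stmts₁]
      exact Finset.mem_insert_of_mem (Finset.mem_union_left _ TM2.stmts₁_self))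
    have hq2 : q2 ∈ nodes tm := nodes_sub tm hq (by
      simp only [TM2.stmts₁]
      exact Finset.mem_insert_of_mem (Finset.mem_union_right _ TM2.stmts₁_self))
    have hs1 : psym tm q1 ⊆ syms tm ia oa := fun a ha => hs (by
      simp only [psym]; exact Finset.mem_union_left _ ha)
    have hs2 : psym tm q2 ⊆ syms tm ia oa := fun a ha => hs (by
      simp only [psym]; exact Finset.mem_union_right _ ha)
    have e : sstep (table tm ia oa) (sid tm (.branch f q1 q2, v), es tm ia oa S) =
        (sid tm (cond (f v) q1 q2, v), es tm ia oa S) := by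
      unfold sstep
      simp only [table_sid tm ia oa (mem_sts tm hq v), row]
      simp only [List.getD_cons_zero, List.getD_cons_succ, List.drop_succ_cons, List.drop_zero]
      refine Prod.ext rfl ?_
      simp only [show ¬ (1 = 2) by omega, show ¬ (1 = 3) by omega, if_false, one_ne_zero]
      exact set_getD_self _ _ _
    cases hb : f v with
    | true =>
      obtain ⟨⟨n, hn, h1⟩, h2, h3⟩ := ih1 hq1 hs1 v S hS
      have e2 : @TM2.stepAux tm.K tm.Γ tm.Λ tm.σ tm.kDecidableEq (.branch f q1 q2) v S =
        @TM2.stepAux tm.K tm.Γ tm.Λ tm.σ tm.kDecidableEq q1 v S := by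
        simp only [TM2.stepAux, hb, cond_true]
      rw [e2]
      refine ⟨⟨n + 1, by simp only [sz]; omega, ?_⟩, h2, h3⟩
      rw [Function.iterate_succ_apply, e, hb, cond_true]
      exact h1
    | false =>
      obtain ⟨⟨n, hn, h1⟩, h2, h3⟩ := ih2 hq2 hs2 v S hS
      have e2 : @TM2.stepAux tm.K tm.Γ tm.Λ tm.σ tm.kDecidableEq (.branch f q1 q2) v S =
        @TM2.stepAux tm.K tm.Γ tm.Λ tm.σ tm.kDecidableEq q2 v S := by
        simp only [TM2.stepAux, hb, cond_false]
      rw [e2]
      refine ⟨⟨n + 1, by simp only [sz]; omega, ?_⟩, h2, h3⟩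
      rw [Function.iterate_succ_apply, e, hb, cond_false]
      exact h1
  | goto l =>
    intro hq hs v S hS
    have e : sstep (table tm ia oa) (sid tm (.goto l, v), es tm ia oa S) =
        (sid tm (tm.m (l v), v), es tm ia oa S) := by
      unfold sstep
      simp only [table_sid tm ia oa (mem_sts tm hq v), row]
      simp only [List.getD_cons_zero, List.getD_cons_succ, List.drop_succ_cons, List.drop_zero]
      refine Prod.ext rfl ?_
      simp only [show ¬ (1 = 2) by omega, show ¬ (1 = 3) by omega, if_false, one_ne_zero]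
      exact set_getD_self _ _ _
    refine ⟨⟨1, by simp only [sz]; omega, ?_⟩, hS, fun h => by simp [TM2.stepAux] at h⟩
    rw [Function.iterate_one, e]
    rfl
  | halt =>
    intro hq hs v S hS
    exact ⟨⟨0, by omega, rfl⟩, hS, fun _ => hq⟩

/-- bound on the number of micro steps per step -/
def mxs : ℕ := Finset.univ.sup (fun l : tm.Λ => sz tm (tm.m l))

theorem sz_le (l : tm.Λ) : sz tm (tm.m l) ≤ mxs tm :=
  Finset.le_sup (f := fun l : tm.Λ => sz tm (tm.m l)) (Finset.mem_univ l)

theorem psym_le (l : tm.Λ) : psym tm (tm.m l) ⊆ syms tm ia oa := fun a ha =>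
  Finset.mem_union_left _ (Finset.mem_union_left _ (Finset.mem_biUnion.mpr ⟨l, Finset.mem_univ _, ha⟩))

theorem macro_run (n : ℕ) : ∀ (l : tm.Λ) (v : tm.σ) (S : ∀ k, List (tm.Γ k))
    (_ : good tm ia oa S) (cf : tm.Cfg) (_ : cf.l = none)
    (_ : (flip bind tm.step)^[n] (some (⟨some l, v, S⟩ : tm.Cfg)) = some cf),
    (∃ m ≤ n * mxs tm, (sstep (table tm ia oa))^[m] (sid tm (tm.m l, v), es tm ia oa S) =
      (sid tm (.halt, cf.var), es tm ia oa cf.stk)) ∧ (TM2.Stmt.halt : MS tm) ∈ nodes tm ∧
      good tm ia oa cf.stk := by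
  induction n with
  | zero =>
    intro l v S hS cf hcf h
    simp only [Function.iterate_zero, id_eq, Option.some.injEq] at h
    rw [← h] at hcf
    exact absurd hcf (by simp)
  | succ n ih =>
    intro l v S hS cf hcf h
    rw [Function.iterate_succ_apply] at h
    have e1 : flip bind tm.step (some (⟨some l, v, S⟩ : tm.Cfg)) =
      some (@TM2.stepAux tm.K tm.Γ tm.Λ tm.σ tm.kDecidableEq (tm.m l) v S) := rfl
    rw [e1] at h
    obtain ⟨⟨m, hm, h1⟩, h2, h3⟩ := micro tm ia oa (tm.m l) (mem_nodes tm l)
      (psym_le tm ia oa l) v S hS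
    have hmx := sz_le tm l
    generalize @TM2.stepAux tm.K tm.Γ tm.Λ tm.σ tm.kDecidableEq (tm.m l) v S = c1 at h h1 h2 h3
    obtain ⟨l1, v1, S1⟩ := c1
    cases l1 with
    | none =>
      cases n with
      | zero =>
        obtain rfl : (⟨none, v1, S1⟩ : tm.Cfg) = cf := Option.some.inj h
        refine ⟨⟨m, by rw [Nat.zero_add, Nat.one_mul]; omega, ?_⟩, h3 rfl, h2⟩
        rw [h1]; rfl
      | succ n =>
        exfalso
        rw [Function.iterate_succ_apply] at h
        change (flip bind tm.step)^[n] (none : Option tm.Cfg) = some cf at h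
        have e3 : ∀ k, (flip bind tm.step)^[k] (none : Option tm.Cfg) = none := by
          intro k
          induction k with
          | zero => rfl
          | succ k ihk => rw [Function.iterate_succ_apply]; exact ihk
        rw [e3] at h
        exact absurd h (by simp)
    | some l1 =>
      obtain ⟨⟨m', hm', h4⟩, h5, h6⟩ := ih l1 v1 S1 h2 cf hcf h
      refine ⟨⟨m' + m, by rw [Nat.succ_mul]; omega, ?_⟩, h5, h6⟩
      rw [Function.iterate_add_apply, h1]
      exact h4

end

end Pool.Agent.Work.MP_0532f7_lc
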