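import Mathlib
import Pool.Agent.Work.MP_0532f7_lc.Lib
import Pool.Agent.Work.MP_0532f7_lc.SM

/-!
A universal polynomial-time function for the TM2 machines of Mathlib.
-/

namespace Pool.Agent.Work.MP_0532f7_lc

open Polynomial

/-- unary numbers -/
def un (n : ℕ) : List Bool := List.replicate n true

@[simp] theorem un_length (n : ℕ) : (un n).length = n := by simp [un]
@[simp] theorem un_zero : un 0 = [] := rfl
theorem un_succ (n : ℕ) : un (n + 1) = true :: un n := rfl
theorem un_inj {a b : ℕ} (h : un a = un b) : a = b := by
  have := congrArg List.length h; simpa using this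

/-- lists of numbers as strings -/
def encN (l : List ℕ) : List Bool := encL (l.map un)

/-- lists of lists of numbers as strings -/
def encNN (S : List (List ℕ)) : List Bool := encL (S.map encN)

@[simp] theorem encN_nil : encN [] = [] := rfl
@[simp] theorem encN_cons (a : ℕ) (l : List ℕ) : encN (a :: l) = pr (un a) (encN l) := rfl

theorem getD_map {α β : Type} (f : α → β) (L : List α) (i : ℕ) (d : α) :
    (L.map f).getD i (f d) = f (L.getD i d) := by
  rw [List.getD_eq_getElem?_getD, List.getD_eq_getElem?_getD, List.getElem?_map]
  cases L[i]? <;> rfl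

theorem nth_encN (i : List Bool) (l : List ℕ) : nth i (encN l) = un (l.getD i.length 0) := by
  unfold encN
  rw [nth_encL, ← getD_map un l i.length 0]; rfl

theorem nth_encNN (i : List Bool) (S : List (List ℕ)) :
    nth i (encNN S) = encN (S.getD i.length []) := by
  unfold encNN
  rw [nth_encL, ← getD_map encN S i.length []]; rfl

theorem fs_encN (l : List ℕ) : fs (encN l) = un (l.getD 0 0) := by
  cases l <;> simp

theorem sn_encN (l : List ℕ) : sn (encN l) = encN l.tail := by
  cases l <;> simp

theorem encN_eq_nil (l : List ℕ) : encN l = [] ↔ l = [] := by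
  cases l with
  | nil => simp
  | cons a l =>
    simp only [encN_cons, reduceCtorEq, iff_false]
    intro h
    have := congrArg List.length h
    rw [pr_length] at this
    simp at this

/-- one step of the universal machine -/
def ustep (T z : List Bool) : List Bool :=
  if (fs (nth (fs z) T)).isEmpty then z else
  pr
    (nth
      (if decide (fs (nth (fs z) T) = [true]) || decide (fs (nth (fs z) T) = [true, true]) then []
        else if (nth (nth [true] (nth (fs z) T)) (sn z)).isEmpty then []
        else true :: fs (nth (nth [true] (nth (fs z) T)) (sn z)))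
      (sn (sn (sn (nth (fs z) T)))))
    (setS (nth [true] (nth (fs z) T))
      (if decide (fs (nth (fs z) T) = [true, true]) then
        pr (nth [true, true] (nth (fs z) T)) (nth (nth [true] (nth (fs z) T)) (sn z))
       else if decide (fs (nth (fs z) T) = [true, true, true]) then
        sn (nth (nth [true] (nth (fs z) T)) (sn z))
       else nth (nth [true] (nth (fs z) T)) (sn z))
      (sn z))

theorem FP.ustepI : FP (fun w => ustep (fs w) (sn w)) := by
  have hT : FP (fun w => fs w) := FP.fsI
  have hz : FP (fun w => sn w) := FP.snI
  have hq : FP (fun w => fs (sn w)) := hz.fst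
  have hS : FP (fun w => sn (sn w)) := hz.snd
  have hrow : FP (fun w => nth (fs (sn w)) (fs w)) := FP.nthI hq hT
  have hkind : FP (fun w => fs (nth (fs (sn w)) (fs w))) := hrow.fst
  have hk : FP (fun w => nth [true] (nth (fs (sn w)) (fs w))) := FP.nthI (FP.const [true]) hrow
  have hs : FP (fun w => nth [true, true] (nth (fs (sn w)) (fs w))) :=
    FP.nthI (FP.const [true, true]) hrow
  have hst : FP (fun w => nth (nth [true] (nth (fs (sn w)) (fs w))) (sn (sn w))) :=
    FP.nthI hk hS
  have hk1 := FPb.eq hkind (FP.const [true])
  have hk2 := FPb.eq hkind (FP.const [true, true])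
  have hk3 := FPb.eq hkind (FP.const [true, true, true])
  exact FP.ite (FPb.isNil.comp hkind) hz
    (FP.pair
      (FP.nthI (FP.ite (hk1.or hk2) FP.nil (FP.ite (FPb.isNil.comp hst) FP.nil
        ((FP.cons true).comp hst.fst))) hrow.snd.snd.snd)
      (FP.setSI hk (FP.ite hk2 (FP.pair hs hst) (FP.ite hk3 hst.snd hst)) hS))

theorem un_eq_iff (a b : ℕ) : (un a = un b) ↔ a = b := ⟨un_inj, fun h => by rw [h]⟩

theorem ustep_eq (T : List (List ℕ)) (q : ℕ) (S : List (List ℕ))
    (hk : (T.getD q []).getD 0 0 ≠ 0 → (T.getD q []).getD 1 0 < S.length) :
    ustep (encNN T) (pr (un q) (encNN S)) =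
      pr (un (sstep T (q, S)).1) (encNN (sstep T (q, S)).2) := by
  unfold ustep sstep
  simp only [fs_pr, sn_pr, nth_encNN, un_length, fs_encN, nth_encN, List.length_cons,
    List.length_nil, Nat.zero_add]
  generalize T.getD q [] = row at *
  have e1 : (decide (un (row.getD 0 0) = [true])) = decide (row.getD 0 0 = 1) := by
    have : ([true] : List Bool) = un 1 := rfl
    rw [this]; simp only [un_eq_iff]
  have e2 : (decide (un (row.getD 0 0) = [true, true])) = decide (row.getD 0 0 = 2) := by
    have : ([true, true] : List Bool) = un 2 := rfl
    rw [this]; simp only [un_eq_iff]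
  have e3 : (decide (un (row.getD 0 0) = [true, true, true])) = decide (row.getD 0 0 = 3) := by
    have : ([true, true, true] : List Bool) = un 3 := rfl
    rw [this]; simp only [un_eq_iff]
  rw [e1, e2, e3]
  by_cases h0 : row.getD 0 0 = 0
  · rw [h0]; simp
  · have h0' : (un (row.getD 0 0)).isEmpty = false := by
      rw [List.isEmpty_eq_false_iff]
      intro h
      exact h0 (un_inj (h.trans un_zero.symm))
    rw [h0', if_neg h0, if_neg (by simp)]
    have hk' := hk h0
    simp only [Bool.or_eq_true, decide_eq_true_eq]
    congr 1
    · -- next state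
      rw [sn_encN, sn_encN, sn_encN, nth_encN]
      have e4 : row.tail.tail.tail = row.drop 3 := by
        simp [← List.drop_one, List.drop_drop]
      rw [e4]
      congr 2
      by_cases h12 : row.getD 0 0 = 1 ∨ row.getD 0 0 = 2
      · rw [if_pos h12, if_pos h12]; rfl
      · rw [if_neg h12, if_neg h12]
        cases hst : S.getD (row.getD 1 0) [] with
        | nil => simp
        | cons a l =>
          have : (encN (a :: l)).isEmpty = false := by
            rw [List.isEmpty_eq_false_iff]
            intro h
            exact absurd ((encN_eq_nil _).mp h) (by simp)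
          rw [this]
          simp
    · -- stacks
      have e5 : (if row.getD 0 0 = 2 then pr (un (row.getD 2 0)) (encN (S.getD (row.getD 1 0) []))
          else if row.getD 0 0 = 3 then sn (encN (S.getD (row.getD 1 0) []))
          else encN (S.getD (row.getD 1 0) [])) =
          encN (if row.getD 0 0 = 2 then row.getD 2 0 :: S.getD (row.getD 1 0) []
            else if row.getD 0 0 = 3 then (S.getD (row.getD 1 0) []).tail
            else S.getD (row.getD 1 0) []) := by
        split_ifs
        · rfl
        · rw [sn_encN]
        · rfl
      rw [e5]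
      unfold encNN
      rw [setS_encL _ _ _ (by simpa using hk'), un_length, List.map_set]

theorem nth_length (i L : List Bool) : (nth i L).length ≤ L.length :=
  (fs_length _).trans (sn_iter_length _ _)

theorem setS_length' (i v L : List Bool) :
    (setS i v L).length + 2 * (nth i L).length ≤ L.length + 2 * v.length + 1 := by
  unfold setS nth
  rw [List.length_append, pr_length, List.length_take]
  have h1 := sn_iter_length i.length L
  have h2 := fs_sn_length (sn^[i.length] L)
  omega

theorem ustep_length (T z : List Bool) : (ustep T z).length ≤ z.length + 6 * T.length + 4 := by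
  unfold ustep
  by_cases h : (fs (nth (fs z) T)).isEmpty = true
  · rw [if_pos h]; omega
  · rw [if_neg h, pr_length]
    generalize hrow : nth (fs z) T = row
    have hr : row.length ≤ T.length := hrow ▸ nth_length _ _
    have h1 : ∀ i, (nth i (sn (sn (sn row)))).length ≤ row.length := fun i =>
      (nth_length _ _).trans ((sn_length _).trans ((sn_length _).trans (sn_length _)))
    have h2 := fun v => setS_length' (nth [true] row) v (sn z)
    have h3 := sn_length z
    generalize hst : nth (nth [true] row) (sn z) = st at *
    have h4 : (if decide (fs row = [true, true]) then pr (nth [true, true] row) st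
        else if decide (fs row = [true, true, true]) then sn st else st).length ≤
        2 * row.length + 1 + st.length := by
      split_ifs
      · rw [pr_length]; have := nth_length [true, true] row; omega
      · have := sn_length st; omega
      · omega
    have h5 := h2 (if decide (fs row = [true, true]) then pr (nth [true, true] row) st
        else if decide (fs row = [true, true, true]) then sn st else st)
    have h6 := h1 (if decide (fs row = [true]) || decide (fs row = [true, true]) then []
        else if st.isEmpty then [] else true :: fs st)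
    omega

theorem ustep_iter_length (T : List Bool) (i : ℕ) : ∀ z : List Bool,
    ((ustep T)^[i] z).length ≤ z.length + i * (6 * T.length + 4) := by
  induction i with
  | zero => intro z; simp
  | succ i ih =>
    intro z
    rw [Function.iterate_succ_apply]
    have := ih (ustep T z)
    have := ustep_length T z
    rw [Nat.succ_mul]
    omega

/-! ### input and output conversion -/

/-- input conversion step; context `pr i0 i1` -/
def istep (c z : List Bool) : List Bool :=
  if (fs z).isEmpty then z else
  pr (fs z).tail (pr (if (fs z).head?.getD false then sn c else fs c) (sn z))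

theorem FP.istepI : FP (fun w => istep (fs w) (sn w)) := by
  have hz : FP (fun w => sn w) := FP.snI
  exact FP.ite (FPb.isNil.comp hz.fst) hz
    (FP.pair (FP.tail.comp hz.fst)
      (FP.pair (FP.ite (FPb.hd.comp hz.fst) FP.fsI.snd FP.fsI.fst) hz.snd))

/-- converted input -/
def isym (i0 i1 x : List Bool) : List Bool :=
  sn ((istep (pr i0 i1))^[x.length] (pr x.reverse []))

theorem isym_aux (i0 i1 : ℕ) (y : List Bool) : ∀ l : List ℕ,
    (istep (pr (un i0) (un i1)))^[y.length] (pr y (encN l)) =
      pr [] (encN ((y.map (fun b => if b then i1 else i0)).reverse ++ l)) := by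
  induction y with
  | nil => intro l; simp
  | cons b y ih =>
    intro l
    rw [List.length_cons, Function.iterate_succ_apply]
    have e : istep (pr (un i0) (un i1)) (pr (b :: y) (encN l)) =
        pr y (encN ((if b then i1 else i0) :: l)) := by
      unfold istep
      cases b <;> simp
    rw [e, ih]
    simp

theorem isym_eq (i0 i1 : ℕ) (x : List Bool) :
    isym (un i0) (un i1) x = encN (x.map (fun b => if b then i1 else i0)) := by
  unfold isym
  have := isym_aux i0 i1 x.reverse []
  rw [List.length_reverse, encN_nil] at this
  rw [this, sn_pr, List.append_nil]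
  congr 1
  rw [← List.map_reverse, List.reverse_reverse]

theorem istep_length (c z : List Bool) : (istep c z).length ≤ z.length + 2 * c.length + 1 := by
  unfold istep
  split_ifs with h h1
  · omega
  · rw [pr_length, pr_length]
    have h2 := fs_sn_length z
    have h3 := sn_length c
    have h4 : 0 < (fs z).length := List.length_pos_iff.mpr (by
      intro h5; rw [h5] at h; simp at h)
    simp only [List.length_tail]
    omega
  · rw [pr_length, pr_length]
    have h2 := fs_sn_length z
    have h3 := fs_length c
    have h4 : 0 < (fs z).length := List.length_pos_iff.mpr (by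
      intro h5; rw [h5] at h; simp at h)
    simp only [List.length_tail]
    omega

theorem istep_iter_length (c : List Bool) (i : ℕ) : ∀ z : List Bool,
    ((istep c)^[i] z).length ≤ z.length + i * (2 * c.length + 1) := by
  induction i with
  | zero => intro z; simp
  | succ i ih =>
    intro z
    rw [Function.iterate_succ_apply]
    have := ih (istep c z)
    have := istep_length c z
    rw [Nat.succ_mul]
    omega

theorem FP.isymI {f g h : List Bool → List Bool} (hf : FP f) (hg : FP g) (hh : FP h) :
    FP (fun x => isym (f x) (g x) (h x)) := by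
  have hp := hf.pair hg
  obtain ⟨Q, hQ⟩ := hp.length
  obtain ⟨R, hR⟩ := hh.length
  have hi := (FP.rev hh).pair FP.nil
  refine FP.snd (FP.iterc (step := istep) FP.istepI hp hh hi
    (2 * R + 1 + R * (2 * Q + 1)) (fun x i hx => ?_))
  refine (istep_iter_length _ _ _).trans ?_
  rw [pr_length]
  have h1 := hQ x
  have h2 := hR x
  have h3 : i * (2 * (pr (f x) (g x)).length + 1) ≤ R.eval x.length * (2 * Q.eval x.length + 1) :=
    Nat.mul_le_mul (hx.trans h2) (by omega)
  simp only [eval_add, eval_mul, eval_one, eval_ofNat, List.length_reverse, List.length_nil]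
  omega

/-- output conversion step; context `o1` -/
def ostep (c z : List Bool) : List Bool :=
  if (fs z).isEmpty then z else pr (sn (fs z)) (decide (fs (fs z) = c) :: sn z)

theorem FP.ostepI : FP (fun w => ostep (fs w) (sn w)) := by
  have hz : FP (fun w => sn w) := FP.snI
  exact FP.ite (FPb.isNil.comp hz.fst) hz
    (FP.pair hz.fst.snd (FP.consb (FPb.eq hz.fst.fst FP.fsI) hz.snd))

/-- converted output -/
def osym (o1 st : List Bool) : List Bool :=
  (sn ((ostep o1)^[st.length] (pr st []))).reverse

theorem osym_aux (o1 : ℕ) (n : ℕ) : ∀ (l : List ℕ) (acc : List Bool), l.length ≤ n →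
    (ostep (un o1))^[n] (pr (encN l) acc) =
      pr [] ((l.map (fun a => decide (a = o1))).reverse ++ acc) := by
  induction n with
  | zero =>
    intro l acc h
    have : l = [] := List.length_eq_zero_iff.mp (by omega)
    subst this; simp
  | succ n ih =>
    intro l acc h
    rw [Function.iterate_succ_apply]
    cases l with
    | nil =>
      have e : ostep (un o1) (pr (encN []) acc) = pr (encN []) acc := by
        unfold ostep; simp
      rw [e, ih [] acc (by simp)]
    | cons a l =>
      have e : ostep (un o1) (pr (encN (a :: l)) acc) =
          pr (encN l) (decide (a = o1) :: acc) := by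
        unfold ostep
        have h1 : (encN (a :: l)).isEmpty = false := by
          rw [List.isEmpty_eq_false_iff]
          intro h
          exact absurd ((encN_eq_nil _).mp h) (by simp)
        rw [fs_pr, sn_pr, h1]
        simp only [encN_cons, fs_pr, sn_pr, un_eq_iff]
        simp
      rw [e, ih l _ (by simpa using h)]
      simp

theorem encN_length (l : List ℕ) : l.length ≤ (encN l).length := by
  induction l with
  | nil => simp
  | cons a l ih => rw [encN_cons, pr_length]; simp only [List.length_cons]; omega

theorem osym_eq (o1 : ℕ) (l : List ℕ) :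
    osym (un o1) (encN l) = l.map (fun a => decide (a = o1)) := by
  unfold osym
  rw [osym_aux o1 _ l [] (encN_length l), sn_pr, List.append_nil, List.reverse_reverse]

theorem ostep_length (c z : List Bool) : (ostep c z).length ≤ z.length + 1 := by
  unfold ostep
  split_ifs with h
  · omega
  · rw [pr_length]
    have h2 := fs_sn_length z
    have h3 := sn_length (fs z)
    simp only [List.length_cons]
    by_cases h4 : (fs z).length = (sn (fs z)).length
    · -- impossible, but the bound holds anyway up to one
      have h5 : 0 < (fs z).length := List.length_pos_iff.mpr (by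
        intro h5; rw [h5] at h; simp at h)
      have h6 : (sn (fs z)).length < (fs z).length := by
        have : fs z ≠ [] := by intro h7; rw [h7] at h5; simp at h5
        match hh : fs z with
        | [] => exact absurd hh this
        | false :: l => simp [sn]
        | [true] => simp [sn]
        | true :: b :: l => have := sn_length l; simp [sn]; omega
      omega
    · omega

theorem ostep_iter_length (c : List Bool) (i : ℕ) : ∀ z : List Bool,
    ((ostep c)^[i] z).length ≤ z.length + i := by
  induction i with
  | zero => intro z; simp
  | succ i ih =>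
    intro z
    rw [Function.iterate_succ_apply]
    have := ih (ostep c z)
    have := ostep_length c z
    omega

theorem FP.osymI {f g : List Bool → List Bool} (hf : FP f) (hg : FP g) :
    FP (fun x => osym (f x) (g x)) := by
  obtain ⟨R, hR⟩ := hg.length
  have hi := hg.pair FP.nil
  refine FP.rev (FP.snd (FP.iterc (step := ostep) FP.ostepI hf hg hi
    (2 * R + 1 + R) (fun x i hx => ?_)))
  refine (ostep_iter_length _ _ _).trans ?_
  rw [pr_length]
  have h2 := hR x
  simp only [eval_add, eval_mul, eval_one, eval_ofNat, List.length_nil]
  omega

/-! ### the universal function -/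

/-- initial configuration: code `c = encL [A, B, i0, i1, k1, o1, q0, T]` -/
def uinit (c x : List Bool) : List Bool :=
  pr (nth (un 6) c) (nth (un 0) c ++ pr (isym (nth (un 2) c) (nth (un 3) c) x) (nth (un 1) c))

/-- configuration after `|t|` steps -/
def urun (c x t : List Bool) : List Bool := (ustep (nth (un 7) c))^[t.length] (uinit c x)

/-- the universal function: `true :: output` if halted, `[]` otherwise -/
def uni (c x t : List Bool) : List Bool :=
  if (fs (nth (fs (urun c x t)) (nth (un 7) c))).isEmpty then
    true :: osym (nth (un 5) c) (nth (nth (un 4) c) (sn (urun c x t)))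
  else []

theorem FP.uniI {f g h : List Bool → List Bool} (hf : FP f) (hg : FP g) (hh : FP h) :
    FP (fun x => uni (f x) (g x) (h x)) := by
  have hn : ∀ i, FP (fun x => nth (un i) (f x)) := fun i => FP.nthI (FP.const _) hf
  have hinit : FP (fun x => uinit (f x) (g x)) :=
    FP.pair (hn 6) (FP.app (hn 0) (FP.pair (FP.isymI (hn 2) (hn 3) hg) (hn 1)))
  obtain ⟨Q, hQ⟩ := hinit.length
  obtain ⟨R, hR⟩ := hh.length
  obtain ⟨V, hV⟩ := (hn 7).length
  have hrun : FP (fun x => urun (f x) (g x) (h x)) := by
    refine FP.iterc (step := ustep) FP.ustepI (hn 7) hh hinit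
      (Q + R * (6 * V + 4)) (fun x i hx => ?_)
    refine (ustep_iter_length _ _ _).trans ?_
    have h1 := hQ x
    have h2 := hR x
    have h3 := hV x
    have h4 : i * (6 * (nth (un 7) (f x)).length + 4) ≤
        R.eval x.length * (6 * V.eval x.length + 4) :=
      Nat.mul_le_mul (hx.trans h2) (by omega)
    simp only [eval_add, eval_mul, eval_ofNat]
    omega
  exact FP.ite (FPb.isNil.comp (FP.fst (FP.nthI hrun.fst (hn 7))))
    ((FP.cons true).comp (FP.osymI (hn 5) (FP.nthI (hn 4) hrun.snd))) FP.nil

/-! ### correctness -/

theorem urun_eq (T : List (List ℕ)) (n : ℕ) (q : ℕ) (S : List (List ℕ))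
    (hk : ∀ row ∈ T, row.getD 0 0 ≠ 0 → row.getD 1 0 < S.length) :
    (ustep (encNN T))^[n] (pr (un q) (encNN S)) =
      pr (un ((sstep T)^[n] (q, S)).1) (encNN ((sstep T)^[n] (q, S)).2) := by
  induction n generalizing q S with
  | zero => rfl
  | succ n ih =>
    rw [Function.iterate_succ_apply, Function.iterate_succ_apply]
    have hlen : (sstep T (q, S)).2.length = S.length := by
      unfold sstep
      simp only
      split_ifs <;> simp
    rw [ustep_eq T q S (fun h => ?_)]
    · rw [ih _ _ (fun row hr h => by rw [hlen]; exact hk row hr h)]
    · have hm : T.getD q [] ∈ T := by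
        rcases hq : T[q]? with _ | r
        · exfalso
          apply h
          have : T.getD q [] = [] := by rw [List.getD_eq_getElem?_getD, hq]; rfl
          rw [this]; rfl
        · rw [List.getD_eq_getElem?_getD, hq, Option.getD_some]
          exact List.mem_of_getElem? hq
      exact hk _ hm h

open Turing

noncomputable section

open Classical

variable (tm : FinTM2) (ia : tm.Γ tm.k₀ ≃ Bool) (oa : tm.Γ tm.k₁ ≃ Bool)

/-- the code of a machine -/
def codeOf : List Bool :=
  encL [encL (List.replicate (kid tm tm.k₀) []),
    encL (List.replicate (Fintype.card tm.K - 1 - kid tm tm.k₀) []),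
    un (ac tm ia oa ⟨tm.k₀, ia.symm false⟩), un (ac tm ia oa ⟨tm.k₀, ia.symm true⟩),
    un (kid tm tm.k₁), un (ac tm ia oa ⟨tm.k₁, oa.symm true⟩), un (sid tm (tm.m tm.main, tm.initialState)),
    encNN (table tm ia oa)]

theorem table_k : ∀ row ∈ table tm ia oa, row.getD 0 0 ≠ 0 →
    row.getD 1 0 < Fintype.card tm.K := by
  intro r hr _
  unfold table at hr
  rw [List.mem_ofFn] at hr
  obtain ⟨i, rfl⟩ := hr
  have hpos : 0 < Fintype.card tm.K := Fintype.card_pos_iff.mpr ⟨tm.k₀⟩
  generalize ((sts tm).equivFin.symm i).1 = x
  obtain ⟨q, v⟩ := x
  cases q with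
  | push k f q => simp only [row, List.getD_cons_succ, List.getD_cons_zero]; exact kid_lt tm k
  | peek k f q => simp only [row, List.getD_cons_succ, List.getD_cons_zero]; exact kid_lt tm k
  | pop k f q => simp only [row, List.getD_cons_succ, List.getD_cons_zero]; exact kid_lt tm k
  | load a q => simpa only [row, List.getD_cons_succ, List.getD_cons_zero] using hpos
  | branch f q1 q2 => simpa only [row, List.getD_cons_succ, List.getD_cons_zero] using hpos
  | goto l => simpa only [row, List.getD_cons_succ, List.getD_cons_zero] using hpos
  | halt => simpa [row] using hpos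

theorem ofFn_split {α : Type} {n : ℕ} (f : Fin n → List α) (i : Fin n)
    (h : ∀ j, j ≠ i → f j = []) :
    List.ofFn f = List.replicate i.val [] ++ f i :: List.replicate (n - 1 - i.val) [] := by
  apply List.ext_getElem
  · simp; omega
  · intro j h1 h2
    simp only [List.getElem_ofFn]
    rw [List.getElem_append]
    split_ifs with h3
    · rw [List.getElem_replicate]
      simp only [List.length_replicate] at h3
      exact h _ (fun h4 => by have := congrArg Fin.val h4; simp at this; omega)
    · simp only [List.length_replicate] at h3 ⊢
      by_cases h4 : j = i.val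
      · subst h4; simp
      · obtain ⟨d, hd⟩ : ∃ d, j - i.val = d + 1 := ⟨j - i.val - 1, by omega⟩
        simp only [hd, List.getElem_cons_succ, List.getElem_replicate]
        exact h _ (fun h5 => h4 (by rw [← h5]))

theorem es_init (x : List Bool) :
    encNN (es tm ia oa (initList tm (x.map ia.symm)).stk) =
      encL (List.replicate (kid tm tm.k₀) []) ++
        pr (isym (un (ac tm ia oa ⟨tm.k₀, ia.symm false⟩)) (un (ac tm ia oa ⟨tm.k₀, ia.symm true⟩)) x)
          (encL (List.replicate (Fintype.card tm.K - 1 - kid tm tm.k₀) [])) := by
  have h1 : es tm ia oa (initList tm (x.map ia.symm)).stk =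
      List.replicate (kid tm tm.k₀) [] ++
      (x.map (fun b => if b then ac tm ia oa ⟨tm.k₀, ia.symm true⟩
        else ac tm ia oa ⟨tm.k₀, ia.symm false⟩)) ::
        List.replicate (Fintype.card tm.K - 1 - kid tm tm.k₀) [] := by
    unfold es
    rw [ofFn_split _ (Fintype.equivFin tm.K tm.k₀)]
    · have e : (Fintype.equivFin tm.K).symm (Fintype.equivFin tm.K tm.k₀) = tm.k₀ :=
        Equiv.symm_apply_apply _ _
      rw [e]
      have e2 : (initList tm (x.map ia.symm)).stk tm.k₀ = x.map ia.symm := by
        simp [initList]
      rw [e2, List.map_map]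
      congr 2
      apply List.map_congr_left
      intro b _
      cases b <;> rfl
    · intro j hj
      have hne : (Fintype.equivFin tm.K).symm j ≠ tm.k₀ := by
        intro h
        apply hj
        rw [← h]; simp
      have e2 : (initList tm (x.map ia.symm)).stk ((Fintype.equivFin tm.K).symm j) = [] := by
        simp [initList, hne]
      rw [e2]; rfl
  rw [h1]
  unfold encNN
  rw [List.map_append, List.map_cons, encL_append, encL_cons, isym_eq, List.map_replicate,
    List.map_replicate]
  rfl

theorem good_init (x : List Bool) : good tm ia oa (initList tm (x.map ia.symm)).stk := by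
  intro k a ha
  by_cases h : k = tm.k₀
  · subst h
    have e2 : (initList tm (x.map ia.symm)).stk tm.k₀ = x.map ia.symm := by
      simp [initList]
    rw [e2] at ha
    obtain ⟨b, _, rfl⟩ := List.mem_map.mp ha
    unfold syms
    exact Finset.mem_union_left _ (Finset.mem_union_right _
      (Finset.mem_image.mpr ⟨b, Finset.mem_univ _, rfl⟩))
  · have e2 : (initList tm (x.map ia.symm)).stk k = [] := by
      simp [initList, h]
    rw [e2] at ha
    simp at ha

theorem uni_codeOf (x y : List Bool) (n : ℕ)
    (h : (flip bind tm.step)^[n] (some (initList tm (x.map ia.symm))) =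
      some (haltList tm (y.map oa.symm))) (t : List Bool) :
    (n * mxs tm ≤ t.length → uni (codeOf tm ia oa) x t = true :: y) ∧
    (uni (codeOf tm ia oa) x t = [] ∨ uni (codeOf tm ia oa) x t = true :: y) := by
  have hcode : codeOf tm ia oa = encL [encL (List.replicate (kid tm tm.k₀) []),
    encL (List.replicate (Fintype.card tm.K - 1 - kid tm tm.k₀) []),
    un (ac tm ia oa ⟨tm.k₀, ia.symm false⟩), un (ac tm ia oa ⟨tm.k₀, ia.symm true⟩),
    un (kid tm tm.k₁), un (ac tm ia oa ⟨tm.k₁, oa.symm true⟩), un (sid tm (tm.m tm.main, tm.initialState)),
    encNN (table tm ia oa)] := rfl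
  have hn : ∀ i, nth (un i) (codeOf tm ia oa) = List.getD [encL (List.replicate (kid tm tm.k₀) []),
    encL (List.replicate (Fintype.card tm.K - 1 - kid tm tm.k₀) []),
    un (ac tm ia oa ⟨tm.k₀, ia.symm false⟩), un (ac tm ia oa ⟨tm.k₀, ia.symm true⟩),
    un (kid tm tm.k₁), un (ac tm ia oa ⟨tm.k₁, oa.symm true⟩), un (sid tm (tm.m tm.main, tm.initialState)),
    encNN (table tm ia oa)] i [] := by
    intro i
    rw [hcode, nth_encL, un_length]
  have hinit : uinit (codeOf tm ia oa) x = pr (un (sid tm (tm.m tm.main, tm.initialState)))
      (encNN (es tm ia oa (initList tm (x.map ia.symm)).stk)) := by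
    unfold uinit
    rw [es_init, hn 0, hn 1, hn 2, hn 3, hn 6]
    rfl
  obtain ⟨⟨m, hm, h1⟩, h2, h3⟩ := macro_run tm ia oa n tm.main tm.initialState
    (initList tm (x.map ia.symm)).stk (good_init tm ia oa x) (haltList tm (y.map oa.symm)) rfl h
  have hT : nth (un 7) (codeOf tm ia oa) = encNN (table tm ia oa) := by rw [hn 7]; rfl
  have hS : (es tm ia oa (initList tm (x.map ia.symm)).stk).length = Fintype.card tm.K := by
    simp [es]
  have hrun : ∀ t, urun (codeOf tm ia oa) x t =
      pr (un ((sstep (table tm ia oa))^[t.length] (sid tm (tm.m tm.main, tm.initialState),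
        es tm ia oa (initList tm (x.map ia.symm)).stk)).1)
      (encNN ((sstep (table tm ia oa))^[t.length] (sid tm (tm.m tm.main, tm.initialState),
        es tm ia oa (initList tm (x.map ia.symm)).stk)).2) := by
    intro t
    unfold urun
    rw [hT, hinit, urun_eq _ _ _ _ (fun row hr hk => by rw [hS]; exact table_k tm ia oa row hr hk)]
  -- final configuration
  have hhalt : (sid tm (.halt, (haltList tm (y.map oa.symm)).var),
      es tm ia oa (haltList tm (y.map oa.symm)).stk) =
      (sid tm ((.halt : MS tm), tm.initialState), es tm ia oa (haltList tm (y.map oa.symm)).stk) := rfl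
  have hzero : ((table tm ia oa).getD (sid tm ((.halt : MS tm), tm.initialState)) []).getD 0 0 = 0 := by
    rw [table_sid tm ia oa (mem_sts tm h2 _)]; rfl
  have hout : osym (un (ac tm ia oa ⟨tm.k₁, oa.symm true⟩))
      (nth (un (kid tm tm.k₁)) (encNN (es tm ia oa (haltList tm (y.map oa.symm)).stk))) = y := by
    rw [nth_encNN, un_length, es_getD, osym_eq]
    have e2 : (haltList tm (y.map oa.symm)).stk tm.k₁ = y.map oa.symm := by
      simp [haltList]
    rw [e2, List.map_map, List.map_map]
    have hmem : ∀ b, (⟨tm.k₁, oa.symm b⟩ : Σ k, tm.Γ k) ∈ syms tm ia oa := by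
      intro b
      unfold syms
      exact Finset.mem_union_right _ (Finset.mem_image.mpr ⟨b, Finset.mem_univ _, rfl⟩)
    conv_rhs => rw [← List.map_id y]
    apply List.map_congr_left
    intro b _
    simp only [Function.comp_apply, id_eq]
    cases b with
    | true => simp
    | false =>
      rw [decide_eq_false_iff_not]
      intro he
      have h5 := ac_inj tm ia oa (hmem false) (hmem true) he
      simp only [Sigma.mk.injEq, heq_eq_eq, true_and] at h5
      exact absurd (oa.symm.injective h5) (by simp)
  have hval : ∀ t, (sstep (table tm ia oa))^[t.length] (sid tm (tm.m tm.main, tm.initialState),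
        es tm ia oa (initList tm (x.map ia.symm)).stk) =
        (sid tm ((.halt : MS tm), tm.initialState), es tm ia oa (haltList tm (y.map oa.symm)).stk) →
      uni (codeOf tm ia oa) x t = true :: y := by
    intro t ht
    unfold uni
    rw [hrun t, ht, hT, fs_pr, sn_pr, nth_encNN, un_length, fs_encN, hzero, un_zero, hn 4, hn 5]
    simp only [List.isEmpty_nil, if_true]
    congr 1
  constructor
  · intro hle
    apply hval
    obtain ⟨d, hd⟩ : ∃ d, t.length = d + m := ⟨t.length - m, by omega⟩
    rw [hd, Function.iterate_add_apply, h1, hhalt, sstep_halt_iter hzero]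
  · by_cases hh : ((table tm ia oa).getD ((sstep (table tm ia oa))^[t.length]
        (sid tm (tm.m tm.main, tm.initialState),
          es tm ia oa (initList tm (x.map ia.symm)).stk)).1 []).getD 0 0 = 0
    · right
      apply hval
      rcases le_total m t.length with hle | hle
      · obtain ⟨d, hd⟩ : ∃ d, t.length = d + m := ⟨t.length - m, by omega⟩
        rw [hd, Function.iterate_add_apply, h1, hhalt, sstep_halt_iter hzero]
      · obtain ⟨d, hd⟩ : ∃ d, m = d + t.length := ⟨m - t.length, by omega⟩
        rw [hd, Function.iterate_add_apply, sstep_halt_iter hh, hhalt] at h1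
        exact h1
    · left
      unfold uni
      rw [hrun t, hT, fs_pr, nth_encNN, un_length, fs_encN]
      have : (un (((table tm ia oa).getD ((sstep (table tm ia oa))^[t.length]
        (sid tm (tm.m tm.main, tm.initialState),
          es tm ia oa (initList tm (x.map ia.symm)).stk)).1 []).getD 0 0)).isEmpty = false := by
        rw [List.isEmpty_eq_false_iff]
        intro h6
        exact hh (un_inj (h6.trans un_zero.symm))
      rw [this]; simp

end

/-- the universal function evaluates every polynomial-time function -/
theorem uni_spec {g : List Bool → List Bool} (hg : PolyTime g) :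
    ∃ (c : List Bool) (P : Polynomial ℕ), ∀ x t,
      (P.eval x.length ≤ t.length → uni c x t = true :: g x) ∧
      (uni c x t = [] ∨ uni c x t = true :: g x) := by
  obtain ⟨h⟩ := hg
  refine ⟨codeOf h.tm h.inputAlphabet h.outputAlphabet, h.time * C (mxs h.tm), fun x t => ?_⟩
  have h1 := (h.outputsFun x).evals_in_steps
  have h2 := (h.outputsFun x).steps_le_m
  have h3 := uni_codeOf h.tm h.inputAlphabet h.outputAlphabet x (g x) _ h1 t
  refine ⟨fun hle => h3.1 ?_, h3.2⟩
  refine le_trans ?_ hle
  rw [eval_mul, eval_C]
  exact Nat.mul_le_mul_right _ h2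

end Pool.Agent.Work.MP_0532f7_lc
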