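import Mathlib
import Pool.Agent.Work.MP_0532f7_lc.Univ

/-!
Clocks, and the equality of `FP` with polynomial time in the sense of Mathlib.
-/

namespace Pool.Agent.Work.MP_0532f7_lc

open Polynomial

theorem FP.mulLen {f g : List Bool → List Bool} (hf : FP f) (hg : FP g) :
    ∃ h, FP h ∧ ∀ x, (h x).length = (f x).length * (g x).length := by
  obtain ⟨Q, hQ⟩ := hf.length
  obtain ⟨R, hR⟩ := hg.length
  have hiter : ∀ (c : List Bool) (i : ℕ) (z : List Bool),
      ((fun z => c ++ z)^[i] z).length = i * c.length + z.length := by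
    intro c i
    induction i with
    | zero => intro z; simp
    | succ i ih =>
      intro z
      rw [Function.iterate_succ_apply, ih, List.length_append, Nat.succ_mul]
      omega
  refine ⟨fun x => (fun z => g x ++ z)^[(f x).length] [], ?_, fun x => ?_⟩
  · refine FP.iterc (step := fun c z => c ++ z) FP.app0 hg hf FP.nil (Q * R) (fun x i hi => ?_)
    rw [hiter]
    simp only [List.length_nil, Nat.add_zero, eval_mul]
    exact Nat.mul_le_mul (hi.trans (hQ x)) (hR x)
  · show ((fun z => g x ++ z)^[(f x).length] []).length = _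
    rw [hiter]; simp

theorem FP.clock (P : Polynomial ℕ) : ∃ k, FP k ∧ ∀ x, (k x).length = P.eval x.length := by
  induction P using Polynomial.induction_on' with
  | add p q hp hq =>
    obtain ⟨f, hf, hf'⟩ := hp
    obtain ⟨g, hg, hg'⟩ := hq
    exact ⟨fun x => f x ++ g x, hf.app hg, fun x => by simp [hf', hg']⟩
  | monomial n c =>
    induction n with
    | zero =>
      exact ⟨fun _ => un c, FP.const _, fun x => by simp⟩
    | succ n ih =>
      obtain ⟨f, hf, hf'⟩ := ih
      obtain ⟨h, hh, hh'⟩ := FP.mulLen FP.id hf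
      refine ⟨h, hh, fun x => ?_⟩
      rw [hh', hf']
      simp only [eval_monomial]
      ring

theorem PolyTime.fp {g : List Bool → List Bool} (hg : PolyTime g) : FP g := by
  obtain ⟨c, P, h⟩ := uni_spec hg
  obtain ⟨k, hk, hk'⟩ := FP.clock P
  refine (FP.tail.comp (FP.uniI (FP.const c) FP.id hk)).congr (fun x => ?_)
  rw [(h x (k x)).1 (hk' x).ge]
  rfl

theorem polyTime_iff_fp {g : List Bool → List Bool} : PolyTime g ↔ FP g :=
  ⟨PolyTime.fp, FP.polyTime⟩

end Pool.Agent.Work.MP_0532f7_lc
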