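import Mathlib
import Pool.Agent.Work.MP_0532f7_lc.Clock

/-!
Enumeration of binary strings in length order (bijective binary numeration).
-/

namespace Pool.Agent.Work.MP_0532f7_lc

open Polynomial

/-- successor in length order -/
def inc : List Bool → List Bool
  | [] => [false]
  | false :: l => true :: l
  | true :: l => false :: inc l

/-- position in length order -/
def val : List Bool → ℕ
  | [] => 0
  | b :: l => (if b then 2 else 1) + 2 * val l

theorem val_inc (x : List Bool) : val (inc x) = val x + 1 := by
  induction x with
  | nil => simp [inc, val]
  | cons b l ih => cases b <;> simp [inc, val, ih] <;> omega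

theorem val_inj : ∀ {x y : List Bool}, val x = val y → x = y
  | [], [], _ => rfl
  | [], b :: l, h => by exfalso; simp only [val] at h; split_ifs at h <;> omega
  | b :: l, [], h => by exfalso; simp only [val] at h; split_ifs at h <;> omega
  | b :: l, c :: m, h => by
    simp only [val] at h
    cases b <;> cases c <;> simp at h
    · rw [val_inj h]
    · omega
    · omega
    · rw [val_inj h]

theorem val_ge (x : List Bool) : 2 ^ x.length ≤ val x + 1 := by
  induction x with
  | nil => simp [val]
  | cons b l ih =>
    simp only [List.length_cons, pow_succ, val]
    split_ifs <;> omega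

theorem val_le (x : List Bool) : val x + 2 ≤ 2 ^ (x.length + 1) := by
  induction x with
  | nil => simp [val]
  | cons b l ih =>
    simp only [List.length_cons, pow_succ, val] at *
    split_ifs <;> omega

theorem length_le_of_val_le {x y : List Bool} (h : val x ≤ val y) : x.length ≤ y.length := by
  by_contra hc
  have h1 : 2 ^ (y.length + 1) ≤ 2 ^ x.length := Nat.pow_le_pow_right (by omega) (by omega)
  have := val_ge x
  have := val_le y
  omega

theorem val_inc_iter (n : ℕ) (x : List Bool) : val (inc^[n] x) = val x + n := by
  induction n generalizing x with
  | zero => rfl
  | succ n ih => rw [Function.iterate_succ_apply, ih, val_inc]; omega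

theorem inc_iter_eq {x y : List Bool} (h : val x ≤ val y) : inc^[val y - val x] x = y := by
  apply val_inj
  rw [val_inc_iter]; omega

theorem val_surj (n : ℕ) : ∃ x, val x = n := ⟨inc^[n] [], by rw [val_inc_iter]; simp [val]⟩

theorem inc_length (x : List Bool) : (inc x).length ≤ x.length + 1 := by
  induction x with
  | nil => simp [inc]
  | cons b l ih => cases b <;> simp [inc]; exact ih

theorem length_inc (x : List Bool) : x.length ≤ (inc x).length := by
  induction x with
  | nil => simp [inc]
  | cons b l ih => cases b <;> simp [inc]; exact ih

theorem val_replicate_le {y : List Bool} : val (List.replicate y.length false) ≤ val y := by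
  induction y with
  | nil => simp [val]
  | cons b l ih =>
    simp only [List.length_cons, List.replicate_succ, val]
    cases b <;> simp <;> omega

/-- one step of the carry propagation -/
def estep (z : List Bool) : List Bool :=
  if (sn z).head?.getD false then pr (false :: fs z) (sn z).tail else z

theorem FP.estepI : FP estep :=
  FP.ite (FPb.hd.comp FP.snI) (FP.pair ((FP.cons false).comp FP.fsI) (FP.tail.comp FP.snI)) FP.id

theorem estep_pr (a r : List Bool) : estep (pr a r) =
    match r with
    | true :: r' => pr (false :: a) r'
    | _ => pr a r := by
  unfold estep
  rw [fs_pr, sn_pr]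
  match r with
  | [] => simp
  | false :: r => simp
  | true :: r => simp

theorem inc_aux (r : List Bool) : ∀ (n : ℕ) (a : List Bool), r.length ≤ n →
    ∃ a' r', estep^[n] (pr a r) = pr a' r' ∧
      a'.reverse ++ (if r'.isEmpty then [false] else true :: r'.tail) = a.reverse ++ inc r := by
  induction r with
  | nil =>
    intro n a _
    have hfix : ∀ n, estep^[n] (pr a []) = pr a [] := by
      intro n; induction n with
      | zero => rfl
      | succ n ihn => rw [Function.iterate_succ_apply, estep_pr]; exact ihn
    exact ⟨a, [], hfix n, by simp [inc]⟩
  | cons b r ih =>
    intro n a hn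
    cases b with
    | false =>
      have hfix : ∀ n, estep^[n] (pr a (false :: r)) = pr a (false :: r) := by
        intro n; induction n with
        | zero => rfl
        | succ n ihn => rw [Function.iterate_succ_apply, estep_pr]; exact ihn
      exact ⟨a, false :: r, hfix n, by simp [inc]⟩
    | true =>
      obtain ⟨m, rfl⟩ : ∃ m, n = m + 1 := ⟨n - 1, by simp only [List.length_cons] at hn; omega⟩
      obtain ⟨a', r', h1, h2⟩ := ih m (false :: a) (by simpa using hn)
      refine ⟨a', r', ?_, ?_⟩
      · rw [Function.iterate_succ_apply, estep_pr]; exact h1
      · rw [h2]; simp [inc]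

theorem estep_length (z : List Bool) : (estep z).length ≤ z.length + 1 := by
  unfold estep
  split_ifs with h
  · rw [pr_length]
    have h1 := fs_sn_length z
    have h2 : 0 < (sn z).length := List.length_pos_iff.mpr (by
      intro h5; rw [h5] at h; simp at h)
    simp only [List.length_cons, List.length_tail]
    -- `2 * |fs z| + |sn z| + 1 ≤ |z|` whenever the second component is nonempty
    have h3 : 2 * (fs z).length + (sn z).length + 1 ≤ z.length := by
      have : ∀ z : List Bool, sn z ≠ [] → 2 * (fs z).length + (sn z).length + 1 ≤ z.length := by
        intro z
        induction z using fs.induct with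
        | case1 b l ih =>
          intro hz
          simp only [sn] at hz
          have := ih hz
          simp only [fs, sn, List.length_cons]; omega
        | case2 z hz =>
          intro h
          match z, hz, h with
          | [], _, h => simp at h
          | false :: l, _, _ => simp [fs, sn]
          | [true], _, h => simp [sn] at h
          | true :: b :: l, hz, _ => exact absurd rfl (hz b l)
      exact this z (List.length_pos_iff.mp h2)
    omega
  · omega

theorem FP.incI : FP inc := by
  have hlen : ∀ (i : ℕ) z, (estep^[i] z).length ≤ z.length + i := by
    intro i; induction i with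
    | zero => intro z; simp
    | succ i ih =>
      intro z; rw [Function.iterate_succ_apply]
      have := ih (estep z)
      have := estep_length z
      omega
  have h1 := FP.iter FP.estepI (c := fun x => x) (g := fun x => pr [] x) FP.id
    (FP.nil.pair FP.id) (2 * X + 1) (fun x i hi => by
      refine (hlen i _).trans ?_
      rw [pr_length]
      simp only [List.length_nil, eval_add, eval_mul, eval_ofNat, eval_X, eval_one]
      omega)
  refine (FP.app (FP.rev h1.fst) (FP.ite (FPb.isNil.comp h1.snd) (FP.const [false])
    ((FP.cons true).comp (FP.tail.comp h1.snd)))).congr (fun x => ?_)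
  obtain ⟨a', r', h2, h3⟩ := inc_aux x x.length [] le_rfl
  rw [h2, fs_pr, sn_pr]
  simpa using h3

end Pool.Agent.Work.MP_0532f7_lc
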