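import Mathlib
import Pool.Agent.Work.MP_0532f7_lc.Enum

/-!
Parsing and evaluation of formulas in polynomial time.
-/

namespace Pool.Agent.Work.MP_0532f7_lc

open Polynomial

/-! ### tokens and the stack algorithm -/

/-- tokens of a formula -/
def Form.toks : Form → List (List Bool)
  | .var s => [true :: s]
  | .neg φ => [false] :: φ.toks
  | .imp φ ψ => [] :: (φ.toks ++ ψ.toks)

/-- default formula -/
def topF : Form := .imp (.var []) (.var [])

theorem topF_eval (v : List Bool → Bool) : topF.eval v = true := by
  simp [topF, Form.eval]

/-- generic value of a formula -/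
def Form.fold {α : Type} (fv : List Bool → α) (fn : α → α) (fi : α → α → α) : Form → α
  | .var s => fv s
  | .neg φ => fn (φ.fold fv fn fi)
  | .imp φ ψ => fi (φ.fold fv fn fi) (ψ.fold fv fn fi)

/-- one token of the stack algorithm -/
def spush {α : Type} (fv : List Bool → α) (fn : α → α) (fi : α → α → α) (d : α) :
    List Bool → List α → List α
  | true :: s, st => fv s :: st
  | false :: _, st => fn (st.headD d) :: st.tail
  | [], st => fi (st.headD d) (st.tail.headD d) :: st.tail.tail

/-- the stack algorithm -/
def srun {α : Type} (fv : List Bool → α) (fn : α → α) (fi : α → α → α) (d : α) :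
    List (List Bool) → List α → List α
  | [], st => st
  | t :: L, st => srun fv fn fi d L (spush fv fn fi d t st)

theorem srun_append {α : Type} (fv : List Bool → α) (fn : α → α) (fi : α → α → α) (d : α)
    (A B : List (List Bool)) (st : List α) :
    srun fv fn fi d (A ++ B) st = srun fv fn fi d B (srun fv fn fi d A st) := by
  induction A generalizing st with
  | nil => rfl
  | cons t A ih => exact ih _

theorem srun_toks {α : Type} (fv : List Bool → α) (fn : α → α) (fi : α → α → α) (d : α)
    (φ : Form) (st : List α) :
    srun fv fn fi d φ.toks.reverse st = φ.fold fv fn fi :: st := by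
  induction φ generalizing st with
  | var s => rfl
  | neg φ ih =>
    simp only [Form.toks, List.reverse_cons, srun_append, ih]
    rfl
  | imp φ ψ ih1 ih2 =>
    simp only [Form.toks, List.reverse_cons, List.reverse_append, srun_append, ih1, ih2]
    rfl

theorem fold_form (φ : Form) : φ.fold Form.var Form.neg Form.imp = φ := by
  induction φ with
  | var s => rfl
  | neg φ ih => simp [Form.fold, ih]
  | imp φ ψ ih1 ih2 => simp [Form.fold, ih1, ih2]

/-- stacks correspond under a homomorphism -/
theorem spush_map {α β : Type} (h : α → β) (fv : List Bool → α) (fn : α → α) (fi : α → α → α)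
    (d : α) (gv : List Bool → β) (gn : β → β) (gi : β → β → β)
    (hv : ∀ s, h (fv s) = gv s) (hn : ∀ a, h (fn a) = gn (h a))
    (hi : ∀ a b, h (fi a b) = gi (h a) (h b)) (t : List Bool) (st : List α) :
    (spush fv fn fi d t st).map h = spush gv gn gi (h d) t (st.map h) := by
  have e1 : ∀ st : List α, h (st.headD d) = (st.map h).headD (h d) := by
    intro st; cases st <;> rfl
  cases t with
  | nil => simp only [spush, List.map_cons, hi, e1, List.map_tail]
  | cons b t =>
    cases b with
    | true => simp only [spush, List.map_cons, hv]
    | false => simp only [spush, List.map_cons, hn, e1, List.map_tail]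

theorem srun_map {α β : Type} (h : α → β) (fv : List Bool → α) (fn : α → α) (fi : α → α → α)
    (d : α) (gv : List Bool → β) (gn : β → β) (gi : β → β → β)
    (hv : ∀ s, h (fv s) = gv s) (hn : ∀ a, h (fn a) = gn (h a))
    (hi : ∀ a b, h (fi a b) = gi (h a) (h b)) (L : List (List Bool)) (st : List α) :
    (srun fv fn fi d L st).map h = srun gv gn gi (h d) L (st.map h) := by
  induction L generalizing st with
  | nil => rfl
  | cons t L ih =>
    simp only [srun]
    rw [ih, spush_map h fv fn fi d gv gn gi hv hn hi]

/-! ### tokenizer -/

/-- tokenizer step -/
def tks : List Bool × List (List Bool) → List Bool × List (List Bool)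
  | ([], acc) => ([], acc)
  | (true :: r, acc) => (r, [] :: acc)
  | (false :: true :: r, acc) => (r, [false] :: acc)
  | (false :: false :: r, acc) => (sn r, (true :: fs r) :: acc)
  | ([false], acc) => ([], [true] :: acc)

theorem tks_code (φ : Form) : ∀ (r : List Bool) (acc : List (List Bool)),
    tks^[φ.toks.length] (φ.code ++ r, acc) = (r, φ.toks.reverse ++ acc) := by
  induction φ with
  | var s =>
    intro r acc
    simp only [Form.toks, List.length_cons, List.length_nil, Form.code, List.cons_append, pr_app,
      List.nil_append, Function.iterate_succ_apply, Function.iterate_zero, id_eq, tks, sn_pr, fs_pr,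
      List.reverse_cons, List.reverse_nil]
  | neg φ ih =>
    intro r acc
    simp only [Form.toks, List.length_cons, Form.code, List.cons_append,
      Function.iterate_succ_apply, tks, ih, List.reverse_cons, List.append_assoc, List.nil_append]
  | imp φ ψ ih1 ih2 =>
    intro r acc
    simp only [Form.toks, List.length_cons, List.length_append, Form.code, List.cons_append,
      Function.iterate_succ_apply, tks, List.append_assoc]
    rw [Nat.add_comm φ.toks.length, Function.iterate_add_apply, ih1, ih2]
    simp

/-- reversed token list of a string -/
def revtoks (w : List Bool) : List (List Bool) := (tks^[w.length] (w, [])).2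

theorem toks_length_le (φ : Form) : φ.toks.length ≤ φ.code.length := by
  induction φ with
  | var s => simp [Form.toks, Form.code]
  | neg φ ih => simp only [Form.toks, Form.code, List.length_cons]; omega
  | imp φ ψ ih1 ih2 =>
    simp only [Form.toks, Form.code, List.length_cons, List.length_append]; omega

theorem revtoks_code (φ : Form) : revtoks φ.code = φ.toks.reverse := by
  unfold revtoks
  obtain ⟨d, hd⟩ : ∃ d, φ.code.length = d + φ.toks.length :=
    ⟨φ.code.length - φ.toks.length, by have := toks_length_le φ; omega⟩
  have h := tks_code φ [] []
  rw [List.append_nil, List.append_nil] at h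
  rw [hd, Function.iterate_add_apply, h]
  have hfix : ∀ n acc, tks^[n] (([] : List Bool), acc) = ([], acc) := by
    intro n acc; induction n with
    | zero => rfl
    | succ n ihn => rw [Function.iterate_succ_apply]; exact ihn
  rw [hfix]

/-- parsing; total -/
def parse (w : List Bool) : Form :=
  (srun Form.var Form.neg Form.imp topF (revtoks w) []).headD topF

theorem parse_code (φ : Form) : parse φ.code = φ := by
  unfold parse
  rw [revtoks_code, srun_toks, fold_form]; rfl

theorem code_injective {φ ψ : Form} (h : φ.code = ψ.code) : φ = ψ := by
  rw [← parse_code φ, h, parse_code]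

theorem mem_TAUT_iff (w : List Bool) :
    w ∈ TAUT ↔ (parse w).code = w ∧ ∀ v, (parse w).eval v = true := by
  constructor
  · rintro ⟨φ, rfl, h⟩
    rw [parse_code]; exact ⟨rfl, h⟩
  · rintro ⟨h1, h2⟩; exact ⟨parse w, h1, h2⟩

theorem code_mem_TAUT_iff (φ : Form) : φ.code ∈ TAUT ↔ ∀ v, φ.eval v = true := by
  rw [mem_TAUT_iff, parse_code]; simp

/-- code of the default tautology -/
def cT : List Bool := topF.code

theorem cT_mem : cT ∈ TAUT := (code_mem_TAUT_iff topF).mpr topF_eval

/-! ### tokenizer on strings -/

/-- tokenizer step on strings -/
def tsS (z : List Bool) : List Bool :=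
  if (fs z).isEmpty then z else
  if (fs z).head?.getD false then pr (fs z).tail (pr [] (sn z)) else
  if (fs z).tail.head?.getD false then pr (fs z).tail.tail (pr [false] (sn z)) else
  pr (sn (fs z).tail.tail) (pr (true :: fs (fs z).tail.tail) (sn z))

theorem FP.tsSI : FP tsS := by
  have h1 := FP.fsI
  have h2 := FP.tail.comp h1
  have h3 := FP.tail.comp h2
  exact FP.ite (FPb.isNil.comp h1) FP.id
    (FP.ite (FPb.hd.comp h1) (h2.pair (FP.nil.pair FP.snI))
      (FP.ite (FPb.hd.comp h2) (h3.pair ((FP.const [false]).pair FP.snI))
        (h3.snd.pair (((FP.cons true).comp h3.fst).pair FP.snI))))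

theorem tsS_eq (r : List Bool) (acc : List (List Bool)) :
    tsS (pr r (encL acc)) = pr (tks (r, acc)).1 (encL (tks (r, acc)).2) := by
  unfold tsS
  rw [fs_pr, sn_pr]
  match r with
  | [] => simp [tks]
  | true :: r => simp [tks]
  | [false] => simp [tks]
  | false :: true :: r => simp [tks]
  | false :: false :: r => simp [tks]

theorem tsS_iter (n : ℕ) : ∀ (r : List Bool) (acc : List (List Bool)),
    tsS^[n] (pr r (encL acc)) = pr (tks^[n] (r, acc)).1 (encL (tks^[n] (r, acc)).2) := by
  induction n with
  | zero => intro r acc; rfl
  | succ n ih =>
    intro r acc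
    rw [Function.iterate_succ_apply, tsS_eq, ih, Function.iterate_succ_apply]

theorem tsS_length (z : List Bool) : (tsS z).length ≤ z.length + 5 := by
  have hz := fs_sn_length z
  unfold tsS
  split_ifs with h1 h2 h3
  · omega
  · rw [pr_length, pr_length]
    simp only [List.length_tail, List.length_nil]; omega
  · rw [pr_length, pr_length]
    simp only [List.length_tail, List.length_nil, List.length_cons]; omega
  · rw [pr_length, pr_length]
    have := fs_sn_length (fs z).tail.tail
    have e : (fs z).tail.tail.length ≤ (fs z).length := by simp only [List.length_tail]; omega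
    simp only [List.length_cons]; omega

/-- the encoded reversed token list -/
def toksS (w : List Bool) : List Bool := sn (tsS^[w.length] (pr w []))

theorem toksS_eq (w : List Bool) : toksS w = encL (revtoks w) := by
  unfold toksS revtoks
  have := tsS_iter w.length w []
  rw [encL_nil] at this
  rw [this, sn_pr]

theorem FP.toksI : FP toksS := by
  have hlen : ∀ (i : ℕ) z, (tsS^[i] z).length ≤ z.length + i * 5 := by
    intro i; induction i with
    | zero => intro z; simp
    | succ i ih =>
      intro z; rw [Function.iterate_succ_apply]
      have := ih (tsS z)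
      have := tsS_length z
      omega
  refine FP.snd (FP.iter FP.tsSI (c := fun x => x) (g := fun x => pr x []) FP.id
    (FP.id.pair FP.nil) (2 * X + 1 + X * 5) (fun x i hi => ?_))
  refine (hlen i _).trans ?_
  rw [pr_length]
  simp only [List.length_nil, eval_add, eval_mul, eval_ofNat, eval_X, eval_one]
  omega

/-! ### reconstruction of the code -/

/-- top of a coded stack of codes -/
def T0 (st : List Bool) : List Bool := if st.isEmpty then cT else fs st

theorem T0_eq (st : List Form) : T0 (encL (st.map Form.code)) = (st.headD topF).code := by
  unfold T0
  cases st with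
  | nil => rfl
  | cons a st =>
    have : (encL ((a :: st).map Form.code)).isEmpty = false := by
      rw [List.isEmpty_eq_false_iff]
      intro h
      have := congrArg List.length h
      simp only [List.map_cons, encL_cons, pr_length, List.length_nil] at this
      omega
    rw [this]; simp

/-- reconstruction step; the state is `pr tokens stack` -/
def csS (z : List Bool) : List Bool :=
  if (fs z).isEmpty then z else
  if (fs (fs z)).isEmpty then
    pr (sn (fs z)) (pr (true :: (T0 (sn z) ++ T0 (sn (sn z)))) (sn (sn (sn z)))) else
  if (fs (fs z)).head?.getD false then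
    pr (sn (fs z)) (pr (false :: false :: pr (fs (fs z)).tail []) (sn z)) else
  pr (sn (fs z)) (pr (false :: true :: T0 (sn z)) (sn (sn z)))

theorem FP.T0I {f : List Bool → List Bool} (hf : FP f) : FP (fun x => T0 (f x)) :=
  FP.ite (FPb.isNil.comp hf) (FP.const cT) hf.fst

theorem FP.csSI : FP csS := by
  have h1 := FP.fsI
  have h2 := FP.snI
  have ht := h1.fst
  have hL := h1.snd
  refine FP.ite (FPb.isNil.comp h1) FP.id (FP.ite (FPb.isNil.comp ht) ?_
    (FP.ite (FPb.hd.comp ht) ?_ ?_))
  · exact hL.pair (((FP.cons true).comp ((FP.T0I h2).app (FP.T0I h2.snd))).pair h2.snd.snd)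
  · exact hL.pair (((FP.cons false).comp ((FP.cons false).comp
      ((FP.tail.comp ht).pair FP.nil))).pair h2)
  · exact hL.pair (((FP.cons false).comp ((FP.cons true).comp (FP.T0I h2))).pair h2.snd)

theorem encL_isEmpty (L : List (List Bool)) : (encL L).isEmpty = L.isEmpty := by
  cases L with
  | nil => rfl
  | cons a L =>
    rw [List.isEmpty_cons, List.isEmpty_eq_false_iff]
    intro h
    have := congrArg List.length h
    simp only [encL_cons, pr_length, List.length_nil] at this
    omega

theorem csS_eq (t : List Bool) (L : List (List Bool)) (st : List Form) :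
    csS (pr (encL (t :: L)) (encL (st.map Form.code))) =
      pr (encL L) (encL ((spush Form.var Form.neg Form.imp topF t st).map Form.code)) := by
  unfold csS
  rw [fs_pr, sn_pr, encL_isEmpty]
  have e1 : sn (encL (st.map Form.code)) = encL (st.tail.map Form.code) := by
    cases st <;> simp
  have e2 : sn (encL (st.tail.map Form.code)) = encL (st.tail.tail.map Form.code) := by
    cases st.tail <;> simp
  simp only [List.isEmpty_cons, encL_cons, fs_pr, sn_pr, e1, e2, T0_eq]
  match t with
  | [] => simp [spush, Form.code]
  | true :: t => simp [spush, Form.code]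
  | false :: t => simp [spush, Form.code]

theorem csS_iter (n : ℕ) : ∀ (L : List (List Bool)) (st : List Form), L.length ≤ n →
    csS^[n] (pr (encL L) (encL (st.map Form.code))) =
      pr [] (encL ((srun Form.var Form.neg Form.imp topF L st).map Form.code)) := by
  induction n with
  | zero =>
    intro L st h
    have : L = [] := List.length_eq_zero_iff.mp (by omega)
    subst this; rfl
  | succ n ih =>
    intro L st h
    rw [Function.iterate_succ_apply]
    cases L with
    | nil =>
      have e : csS (pr (encL []) (encL (st.map Form.code))) =
          pr (encL []) (encL (st.map Form.code)) := by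
        unfold csS; simp
      rw [e, ih [] st (by simp)]
    | cons t L =>
      rw [csS_eq, ih L _ (by simpa using h)]
      rfl

theorem T0_length (st : List Bool) : (T0 st).length ≤ 7 + (fs st).length := by
  unfold T0
  split_ifs
  · have : cT.length = 7 := by simp [cT, topF, Form.code, pr]
    omega
  · omega

theorem csS_length (z : List Bool) : (csS z).length ≤ z.length + 40 := by
  have hz := fs_sn_length z
  have h1 := fs_sn_length (fs z)
  have h2 := fs_sn_length (sn z)
  have h3 := fs_sn_length (sn (sn z))
  have h4 := T0_length (sn z)
  have h5 := T0_length (sn (sn z))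
  unfold csS
  split_ifs with ha hb hc
  · omega
  · rw [pr_length, pr_length]
    simp only [List.length_cons, List.length_append]; omega
  · rw [pr_length, pr_length]
    simp only [List.length_cons, pr_length, List.length_tail, List.length_nil]; omega
  · rw [pr_length, pr_length]
    simp only [List.length_cons]; omega

/-- the code of the parsed formula -/
def codeS (w : List Bool) : List Bool :=
  T0 (sn (csS^[(toksS w).length] (pr (toksS w) [])))

theorem encL_length (L : List (List Bool)) : L.length ≤ (encL L).length := by
  induction L with
  | nil => simp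
  | cons a L ih => rw [encL_cons, pr_length]; simp only [List.length_cons]; omega

theorem codeS_eq (w : List Bool) : codeS w = (parse w).code := by
  unfold codeS parse
  rw [toksS_eq]
  have := csS_iter (encL (revtoks w)).length (revtoks w) [] (encL_length _)
  rw [List.map_nil, encL_nil] at this
  rw [this, sn_pr, T0_eq]

theorem FP.codeI : FP codeS := by
  have hlen : ∀ (i : ℕ) z, (csS^[i] z).length ≤ z.length + i * 40 := by
    intro i; induction i with
    | zero => intro z; simp
    | succ i ih =>
      intro z; rw [Function.iterate_succ_apply]
      have := ih (csS z)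
      have := csS_length z
      omega
  obtain ⟨Q, hQ⟩ := FP.toksI.length
  refine FP.T0I (FP.snd (FP.iter FP.csSI (c := toksS) (g := fun x => pr (toksS x) []) FP.toksI
    (FP.toksI.pair FP.nil) (2 * Q + 1 + Q * 40) (fun x i hi => ?_)))
  refine (hlen i _).trans ?_
  rw [pr_length]
  have := hQ x
  have h6 : i * 40 ≤ Q.eval x.length * 40 := Nat.mul_le_mul_right _ (hi.trans this)
  simp only [List.length_nil, eval_add, eval_mul, eval_ofNat, eval_one]
  omega

/-- is the string the code of a formula? -/
def isCode (w : List Bool) : Bool := decide (codeS w = w)

theorem FPb.isCodeI : FPb isCode := FPb.eq FP.codeI FP.id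

theorem isCode_iff (w : List Bool) : isCode w = true ↔ (parse w).code = w := by
  unfold isCode; rw [codeS_eq, decide_eq_true_eq]

/-! ### membership -/

/-- membership step, context: the element -/
def msS (s z : List Bool) : List Bool :=
  if (fs z).isEmpty then z else
  pr (sn (fs z)) (if decide (fs (fs z) = s) then [true] else sn z)

theorem FP.msSI : FP (fun w => msS (fs w) (sn w)) := by
  have hz : FP (fun w => sn w) := FP.snI
  exact FP.ite (FPb.isNil.comp hz.fst) hz
    (hz.fst.snd.pair (FP.ite (FPb.eq hz.fst.fst FP.fsI) (FP.const [true]) hz.snd))

/-- membership in a coded list -/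
def memS (s a : List Bool) : Bool := (sn ((msS s)^[a.length] (pr a []))).head?.getD false

theorem msS_iter (s : List Bool) (n : ℕ) : ∀ (A : List (List Bool)) (fl : Bool), A.length ≤ n →
    (msS s)^[n] (pr (encL A) (if fl then [true] else [])) =
      pr [] (if fl || decide (s ∈ A) then [true] else []) := by
  induction n with
  | zero =>
    intro A fl h
    have : A = [] := List.length_eq_zero_iff.mp (by omega)
    subst this; simp
  | succ n ih =>
    intro A fl h
    rw [Function.iterate_succ_apply]
    cases A with
    | nil =>
      have e : msS s (pr (encL []) (if fl then [true] else [])) =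
          pr (encL []) (if fl then [true] else []) := by
        unfold msS; simp
      rw [e, ih [] fl (by simp)]
    | cons a A =>
      have e : msS s (pr (encL (a :: A)) (if fl then [true] else [])) =
          pr (encL A) (if (fl || decide (a = s)) then [true] else []) := by
        unfold msS
        rw [fs_pr, sn_pr, encL_isEmpty]
        simp only [List.isEmpty_cons, encL_cons, fs_pr, sn_pr]
        by_cases has : a = s <;> simp [has]
      rw [e, ih A _ (by simpa using h)]
      congr 2
      by_cases has : a = s
      · simp [has]
      · have : ¬ s = a := fun h => has h.symm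
        simp [has, this]

theorem memS_eq (s : List Bool) (A : List (List Bool)) : memS s (encL A) = decide (s ∈ A) := by
  unfold memS
  have := msS_iter s (encL A).length A false (encL_length A)
  simp only [Bool.false_eq_true, if_false, Bool.false_or] at this
  rw [this, sn_pr]
  by_cases h : s ∈ A <;> simp [h]

theorem FPb.memI {f g : List Bool → List Bool} (hf : FP f) (hg : FP g) :
    FPb (fun x => memS (f x) (g x)) := by
  obtain ⟨Q, hQ⟩ := hg.length
  have hlen : ∀ (s : List Bool) (i : ℕ) z, ((msS s)^[i] z).length ≤ z.length + i := by
    intro s i; induction i with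
    | zero => intro z; simp
    | succ i ih =>
      intro z; rw [Function.iterate_succ_apply]
      have := ih (msS s z)
      have : (msS s z).length ≤ z.length + 1 := by
        have hz := fs_sn_length z
        have h1 := fs_sn_length (fs z)
        unfold msS
        by_cases h1 : (fs z).isEmpty = true
        · rw [if_pos h1]; omega
        · rw [if_neg h1, pr_length]
          have h2 : (sn (fs z)).length < (fs z).length := by
            have : ∀ y : List Bool, y ≠ [] → (sn y).length < y.length := by
              intro y hy
              match y, hy with
              | [], h => exact absurd rfl h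
              | false :: l, _ => simp [sn]
              | [true], _ => simp [sn]
              | true :: b :: l, _ => have := sn_length l; simp [sn]; omega
            exact this _ (by intro h3; rw [h3] at h1; simp at h1)
          split_ifs
          · simp only [List.length_cons, List.length_nil]; omega
          · omega
      omega
  refine FPb.hd.comp (FP.snd (FP.iterc (step := msS) FP.msSI hf hg (hg.pair FP.nil)
    (2 * Q + 1 + Q) (fun x i hi => ?_)))
  refine (hlen _ _ _).trans ?_
  rw [pr_length]
  have := hQ x
  simp only [List.length_nil, eval_add, eval_mul, eval_ofNat, eval_one]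
  omega

/-! ### evaluation -/

/-- top of a bit stack, default true -/
def tb (st : List Bool) : Bool := st.isEmpty || st.head?.getD false

theorem tb_eq (st : List Bool) : tb st = st.headD true := by
  cases st <;> simp [tb]

theorem FPb.tbI {f : List Bool → List Bool} (hf : FP f) : FPb (fun x => tb (f x)) :=
  (FPb.isNil.comp hf).or (FPb.hd.comp hf)

/-- evaluation step, context: the coded list of true variables; state `pr tokens stack` -/
def bsS (a z : List Bool) : List Bool :=
  if (fs z).isEmpty then z else
  if (fs (fs z)).isEmpty then
    pr (sn (fs z)) ((!tb (sn z) || tb (sn z).tail) :: (sn z).tail.tail) else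
  if (fs (fs z)).head?.getD false then
    pr (sn (fs z)) (memS (fs (fs z)).tail a :: sn z) else
  pr (sn (fs z)) ((!tb (sn z)) :: (sn z).tail)

theorem FP.bsSI : FP (fun w => bsS (fs w) (sn w)) := by
  have hz : FP (fun w => sn w) := FP.snI
  have ht := hz.fst.fst
  have hL := hz.fst.snd
  have hs := hz.snd
  refine FP.ite (FPb.isNil.comp hz.fst) hz (FP.ite (FPb.isNil.comp ht) ?_
    (FP.ite (FPb.hd.comp ht) ?_ ?_))
  · exact hL.pair (FP.consb ((FPb.tbI hs).not.or (FPb.tbI (FP.tail.comp hs)))
      (FP.tail.comp (FP.tail.comp hs)))
  · exact hL.pair (FP.consb (FPb.memI (FP.tail.comp ht) FP.fsI) hs)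
  · exact hL.pair (FP.consb (FPb.tbI hs).not (FP.tail.comp hs))

theorem bsS_eq (A : List (List Bool)) (t : List Bool) (L : List (List Bool)) (st : List Bool) :
    bsS (encL A) (pr (encL (t :: L)) st) =
      pr (encL L) (spush (fun s => decide (s ∈ A)) (fun b => !b) (fun b c => !b || c) true t st) := by
  unfold bsS
  rw [fs_pr, sn_pr, encL_isEmpty]
  simp only [List.isEmpty_cons, encL_cons, fs_pr, sn_pr, tb_eq, memS_eq]
  match t with
  | [] => simp [spush]
  | true :: t =>
    simp only [spush, List.head?_cons, Option.getD_some, List.isEmpty_cons, List.tail_cons,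
      Bool.false_eq_true, if_false, if_true]
    congr 2
  | false :: t => simp [spush]

theorem bsS_iter (A : List (List Bool)) (n : ℕ) : ∀ (L : List (List Bool)) (st : List Bool),
    L.length ≤ n →
    (bsS (encL A))^[n] (pr (encL L) st) =
      pr [] (srun (fun s => decide (s ∈ A)) (fun b => !b) (fun b c => !b || c) true L st) := by
  induction n with
  | zero =>
    intro L st h
    have : L = [] := List.length_eq_zero_iff.mp (by omega)
    subst this; rfl
  | succ n ih =>
    intro L st h
    rw [Function.iterate_succ_apply]
    cases L with
    | nil =>
      have e : bsS (encL A) (pr (encL []) st) = pr (encL []) st := by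
        unfold bsS; simp
      rw [e, ih [] st (by simp)]
    | cons t L =>
      rw [bsS_eq, ih L _ (by simpa using h)]
      rfl

/-- value of the parsed formula when exactly the variables in the coded list `a` are true -/
def evS (w a : List Bool) : Bool :=
  tb (sn ((bsS a)^[(toksS w).length] (pr (toksS w) [])))

theorem evS_eq (w : List Bool) (A : List (List Bool)) :
    evS w (encL A) = (parse w).eval (fun s => decide (s ∈ A)) := by
  unfold evS parse
  rw [toksS_eq, bsS_iter A _ _ _ (encL_length _), sn_pr, tb_eq]
  have h := srun_map (Form.eval (fun s => decide (s ∈ A))) Form.var Form.neg Form.imp topF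
    (fun s => decide (s ∈ A)) (fun b => !b) (fun b c => !b || c) (fun _ => rfl) (fun _ => rfl)
    (fun _ _ => rfl) (revtoks w) []
  rw [List.map_nil, topF_eval] at h
  rw [← h]
  cases srun Form.var Form.neg Form.imp topF (revtoks w) [] with
  | nil => simp [topF_eval]
  | cons a l => simp

theorem bsS_length (a z : List Bool) : (bsS a z).length ≤ z.length + 2 := by
  have hz := fs_sn_length z
  have h1 := fs_sn_length (fs z)
  unfold bsS
  split_ifs with ha hb hc
  · omega
  · rw [pr_length]
    simp only [List.length_cons, List.length_tail]; omega
  · rw [pr_length]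
    simp only [List.length_cons]; omega
  · rw [pr_length]
    simp only [List.length_cons, List.length_tail]; omega

theorem FPb.evI {f g : List Bool → List Bool} (hf : FP f) (hg : FP g) :
    FPb (fun x => evS (f x) (g x)) := by
  have ht := FP.toksI.comp hf
  obtain ⟨Q, hQ⟩ := ht.length
  have hlen : ∀ (a : List Bool) (i : ℕ) z, ((bsS a)^[i] z).length ≤ z.length + i * 2 := by
    intro a i; induction i with
    | zero => intro z; simp
    | succ i ih =>
      intro z; rw [Function.iterate_succ_apply]
      have := ih (bsS a z)
      have := bsS_length a z
      omega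
  refine FPb.tbI (FP.snd (FP.iterc (step := bsS) FP.bsSI hg ht (ht.pair FP.nil)
    (2 * Q + 1 + Q * 2) (fun x i hi => ?_)))
  refine (hlen _ _ _).trans ?_
  rw [pr_length]
  have := hQ x
  have h6 : i * 2 ≤ Q.eval x.length * 2 := Nat.mul_le_mul_right _ (hi.trans this)
  simp only [List.length_nil, eval_add, eval_mul, eval_ofNat, eval_one]
  omega

end Pool.Agent.Work.MP_0532f7_lc
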