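import Mathlib
import Pool.Agent.Work.MP_0532f7_lc.FormFP

/-!
The truth-table proof system: Cook-Reckhow proof systems exist.
-/

namespace Pool.Agent.Work.MP_0532f7_lc

open Polynomial

/-! ### selecting variables by a bit mask -/

/-- selection -/
def sel : List (List Bool) → List Bool → List (List Bool) → List (List Bool)
  | [], _, acc => acc
  | t :: L, m, acc =>
    sel L m.tail (if t.head?.getD false && m.head?.getD false then t.tail :: acc else acc)

/-- selection step on strings; state `pr tokens (pr mask acc)` -/
def slS (z : List Bool) : List Bool :=
  if (fs z).isEmpty then z else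
  pr (sn (fs z)) (pr (fs (sn z)).tail
    (if (fs (fs z)).head?.getD false && (fs (sn z)).head?.getD false then
      pr (fs (fs z)).tail (sn (sn z)) else sn (sn z)))

theorem FP.slSI : FP slS := by
  have h1 := FP.fsI
  have h2 := FP.snI
  exact FP.ite (FPb.isNil.comp h1) FP.id
    (h1.snd.pair ((FP.tail.comp h2.fst).pair
      (FP.ite ((FPb.hd.comp h1.fst).and (FPb.hd.comp h2.fst))
        ((FP.tail.comp h1.fst).pair h2.snd) h2.snd)))

theorem slS_iter (n : ℕ) : ∀ (L : List (List Bool)) (m : List Bool) (acc : List (List Bool)),
    L.length ≤ n → ∃ m', slS^[n] (pr (encL L) (pr m (encL acc))) =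
      pr [] (pr m' (encL (sel L m acc))) := by
  induction n with
  | zero =>
    intro L m acc h
    have : L = [] := List.length_eq_zero_iff.mp (by omega)
    subst this; exact ⟨m, rfl⟩
  | succ n ih =>
    intro L m acc h
    rw [Function.iterate_succ_apply]
    cases L with
    | nil =>
      have e : slS (pr (encL []) (pr m (encL acc))) = pr (encL []) (pr m (encL acc)) := by
        unfold slS; simp
      rw [e]; exact ih [] m acc (by simp)
    | cons t L =>
      have e : slS (pr (encL (t :: L)) (pr m (encL acc))) =
          pr (encL L) (pr m.tail (encL
            (if t.head?.getD false && m.head?.getD false then t.tail :: acc else acc))) := by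
        unfold slS
        rw [fs_pr, sn_pr, encL_isEmpty]
        simp only [List.isEmpty_cons, encL_cons, fs_pr, sn_pr]
        by_cases h : (t.head?.getD false && m.head?.getD false) = true <;> simp [h]
      rw [e]; exact ih L _ _ (by simpa using h)

/-- selection on strings -/
def selS (L m : List Bool) : List Bool := sn (sn (slS^[L.length] (pr L (pr m []))))

theorem selS_eq (L : List (List Bool)) (m : List Bool) :
    selS (encL L) m = encL (sel L m []) := by
  unfold selS
  obtain ⟨m', h⟩ := slS_iter (encL L).length L m [] (encL_length L)
  rw [encL_nil] at h
  rw [h, sn_pr, sn_pr]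

theorem slS_length (z : List Bool) : (slS z).length ≤ z.length + 4 := by
  have hz := fs_sn_length z
  have h1 := fs_sn_length (fs z)
  have h2 := fs_sn_length (sn z)
  unfold slS
  split_ifs with ha hb
  · omega
  · rw [pr_length, pr_length, pr_length]
    simp only [List.length_tail]; omega
  · rw [pr_length, pr_length]
    simp only [List.length_tail]; omega

theorem FP.selI {f g : List Bool → List Bool} (hf : FP f) (hg : FP g) :
    FP (fun x => selS (f x) (g x)) := by
  have hi := hf.pair (hg.pair FP.nil)
  obtain ⟨Q, hQ⟩ := hf.length
  obtain ⟨R, hR⟩ := hi.length
  have hlen : ∀ (i : ℕ) z, (slS^[i] z).length ≤ z.length + i * 4 := by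
    intro i; induction i with
    | zero => intro z; simp
    | succ i ih =>
      intro z; rw [Function.iterate_succ_apply]
      have := ih (slS z)
      have := slS_length z
      omega
  refine FP.snd (FP.snd (FP.iter FP.slSI hf hi (R + Q * 4) (fun x i hx => ?_)))
  refine (hlen _ _).trans ?_
  have := hQ x
  have := hR x
  have h6 : i * 4 ≤ Q.eval x.length * 4 := Nat.mul_le_mul_right _ (by omega)
  simp only [eval_add, eval_mul, eval_ofNat]
  omega

theorem mem_sel (s : List Bool) (L : List (List Bool)) : ∀ (m : List Bool) (acc : List (List Bool)),
    s ∈ sel L m acc ↔ s ∈ acc ∨ ∃ i : ℕ, L[i]? = some (true :: s) ∧ m[i]? = some true := by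
  induction L with
  | nil => intro m acc; simp [sel]
  | cons t L ih =>
    intro m acc
    rw [sel, ih]
    constructor
    · rintro (h | ⟨i, h1, h2⟩)
      · split_ifs at h with hc
        · rcases List.mem_cons.mp h with h | h
          · right
            refine ⟨0, ?_, ?_⟩
            · rw [h]
              cases t with
              | nil => simp at hc
              | cons b t => cases b with
                | false => simp at hc
                | true => simp
            · cases m with
              | nil => simp at hc
              | cons b m => cases b with
                | false => simp at hc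
                | true => simp
          · exact Or.inl h
        · exact Or.inl h
      · refine Or.inr ⟨i + 1, ?_, ?_⟩
        · simpa using h1
        · cases m with
          | nil => simp at h2
          | cons b m => simpa using h2
    · rintro (h | ⟨i, h1, h2⟩)
      · left
        split_ifs
        · exact List.mem_cons_of_mem _ h
        · exact h
      · cases i with
        | zero =>
          left
          simp only [List.getElem?_cons_zero, Option.some.injEq] at h1
          subst h1
          cases m with
          | nil => simp at h2
          | cons b m =>
            simp only [List.getElem?_cons_zero, Option.some.injEq] at h2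
            subst h2
            simp
        | succ i =>
          right
          refine ⟨i, by simpa using h1, ?_⟩
          cases m with
          | nil => simp at h2
          | cons b m => simpa using h2

/-! ### dependence on the variables -/

theorem srun_congr (fv gv : List Bool → Bool) (L : List (List Bool))
    (h : ∀ s, (true :: s) ∈ L → fv s = gv s) : ∀ st : List Bool,
    srun fv (fun b => !b) (fun b c => !b || c) true L st =
      srun gv (fun b => !b) (fun b c => !b || c) true L st := by
  induction L with
  | nil => intro st; rfl
  | cons t L ih =>
    intro st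
    simp only [srun]
    have e : spush fv (fun b => !b) (fun b c => !b || c) true t st =
        spush gv (fun b => !b) (fun b c => !b || c) true t st := by
      match t with
      | [] => rfl
      | true :: t => simp only [spush, h t (by simp)]
      | false :: t => rfl
    rw [e]
    exact ih (fun s hs => h s (List.mem_cons_of_mem _ hs)) _

theorem parse_eval (w : List Bool) (v : List Bool → Bool) : (parse w).eval v =
    (srun v (fun b => !b) (fun b c => !b || c) true (revtoks w) []).headD true := by
  have h := srun_map (Form.eval v) Form.var Form.neg Form.imp topF
    v (fun b => !b) (fun b c => !b || c) (fun _ => rfl) (fun _ => rfl)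
    (fun _ _ => rfl) (revtoks w) []
  rw [List.map_nil, topF_eval] at h
  rw [← h]
  unfold parse
  cases srun Form.var Form.neg Form.imp topF (revtoks w) [] with
  | nil => simp [topF_eval]
  | cons a l => simp

theorem tks_length (p : List Bool × List (List Bool)) :
    (tks p).2.length ≤ p.2.length + 1 := by
  obtain ⟨r, acc⟩ := p
  match r with
  | [] => simp [tks]
  | true :: r => simp [tks]
  | [false] => simp [tks]
  | false :: true :: r => simp [tks]
  | false :: false :: r => simp [tks]

theorem revtoks_length (w : List Bool) : (revtoks w).length ≤ w.length := by
  have : ∀ (n : ℕ) (p : List Bool × List (List Bool)), (tks^[n] p).2.length ≤ p.2.length + n := by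
    intro n
    induction n with
    | zero => intro p; simp
    | succ n ih =>
      intro p
      rw [Function.iterate_succ_apply]
      have := ih (tks p)
      have := tks_length p
      omega
  have := this w.length (w, [])
  unfold revtoks
  simpa using this

/-- every valuation is represented by a mask of the right length -/
theorem exists_mask (w : List Bool) (v : List Bool → Bool) : ∃ m : List Bool,
    m.length = w.length ∧
    evS w (selS (toksS w) m) = (parse w).eval v := by
  let m0 : List Bool := (revtoks w).map (fun t => match t with | true :: s => v s | _ => false)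
  refine ⟨m0 ++ List.replicate (w.length - (revtoks w).length) false, ?_, ?_⟩
  · simp only [m0, List.length_append, List.length_map, List.length_replicate]
    have := revtoks_length w
    omega
  · rw [toksS_eq, selS_eq, evS_eq, parse_eval, parse_eval]
    congr 1
    apply srun_congr
    intro s hs
    obtain ⟨i, hi, his⟩ := List.mem_iff_getElem.mp hs
    have key : s ∈ sel (revtoks w) (m0 ++ List.replicate (w.length - (revtoks w).length) false) [] ↔
        v s = true := by
      rw [mem_sel]
      constructor
      · rintro (h | ⟨j, h1, h2⟩)
        · simp at h
        · have hj : j < (revtoks w).length := by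
            rw [List.getElem?_eq_some_iff] at h1; exact h1.1
          rw [List.getElem?_append_left (by simpa [m0] using hj)] at h2
          simp only [m0, List.getElem?_map, h1, Option.map_some, Option.some.injEq] at h2
          exact h2
      · intro h
        right
        refine ⟨i, by rw [List.getElem?_eq_getElem hi, his], ?_⟩
        rw [List.getElem?_append_left (by simpa [m0] using hi)]
        simp only [m0, List.getElem?_map, List.getElem?_eq_getElem hi, his, Option.map_some,
          Option.some.injEq]
        exact h
    cases hv : v s with
    | true => exact decide_eq_true (key.mpr hv)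
    | false =>
      apply decide_eq_false
      rw [key, hv]; simp

/-! ### the truth-table system -/

/-- loop body; context: the formula; state `pr mask failures` -/
def ttS (w z : List Bool) : List Bool :=
  if ((fs z).drop w.length).isEmpty then
    pr (inc (fs z)) (if evS w (selS (toksS w) (fs z)) then sn z else [true])
  else z

theorem FP.ttSI : FP (fun w => ttS (fs w) (sn w)) := by
  have hw := FP.fsI
  have hz : FP (fun w => sn w) := FP.snI
  exact FP.ite (FPb.isNil.comp (FP.drop hw hz.fst))
    ((FP.incI.comp hz.fst).pair
      (FP.ite (FPb.evI hw (FP.selI (FP.toksI.comp hw) hz.fst)) hz.snd (FP.const [true]))) hz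

theorem FP.zeros {f : List Bool → List Bool} (hf : FP f) :
    FP (fun x => List.replicate (f x).length false) := by
  obtain ⟨Q, hQ⟩ := hf.length
  have e : ∀ n, (fun z : List Bool => false :: z)^[n] [] = List.replicate n false := by
    intro n; induction n with
    | zero => rfl
    | succ n ih => rw [Function.iterate_succ_apply', ih]; rfl
  refine (FP.iter (FP.cons false) hf FP.nil Q (fun x i hi => ?_)).congr (fun x => e _)
  rw [e, List.length_replicate]
  exact hi.trans (hQ x)

/-- the truth-table proof system -/
def ttF (z : List Bool) : List Bool :=
  if isCode (fs z) &&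
    (!((fs ((ttS (fs z))^[(sn z).length] (pr (List.replicate (fs z).length false) []))).drop
      (fs z).length).isEmpty &&
    (sn ((ttS (fs z))^[(sn z).length] (pr (List.replicate (fs z).length false) []))).isEmpty)
  then fs z else cT

theorem ttS_inv (w : List Bool) (m0 : List Bool) (n : ℕ) :
    ∃ k fl, k ≤ n ∧ (ttS w)^[n] (pr m0 []) = pr (inc^[k] m0) fl ∧
      (fl = [] ↔ ∀ j < k, evS w (selS (toksS w) (inc^[j] m0)) = true) ∧
      (k = n ∨ w.length < (inc^[k] m0).length) := by
  induction n with
  | zero => exact ⟨0, [], le_rfl, rfl, by simp, Or.inl rfl⟩
  | succ n ih =>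
    obtain ⟨k, fl, hk, h1, h2, h3⟩ := ih
    rw [Function.iterate_succ_apply', h1]
    by_cases hlen : w.length < (inc^[k] m0).length
    · refine ⟨k, fl, by omega, ?_, h2, Or.inr hlen⟩
      unfold ttS
      rw [fs_pr, if_neg]
      simp only [List.isEmpty_iff, List.drop_eq_nil_iff]
      omega
    · have hkn : k = n := by
        rcases h3 with h3 | h3
        · exact h3
        · exact absurd h3 hlen
      subst hkn
      refine ⟨k + 1, if evS w (selS (toksS w) (inc^[k] m0)) then fl else [true], le_rfl, ?_, ?_,
        Or.inl rfl⟩
      · unfold ttS
        rw [fs_pr, sn_pr, if_pos (by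
          simp only [List.isEmpty_iff, List.drop_eq_nil_iff]; omega),
          Function.iterate_succ_apply']
      · by_cases he : evS w (selS (toksS w) (inc^[k] m0)) = true
        · rw [if_pos he, h2]
          constructor
          · intro h j hj
            rcases Nat.lt_succ_iff_lt_or_eq.mp hj with h' | h'
            · exact h j h'
            · rw [h']; exact he
          · intro h j hj; exact h j (by omega)
        · rw [if_neg he]
          constructor
          · intro h; simp at h
          · intro h; exact absurd (h k (by omega)) he

theorem ttF_mem (z : List Bool) : ttF z ∈ TAUT := by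
  unfold ttF
  split_ifs with h
  · simp only [Bool.and_eq_true, Bool.not_eq_true', List.isEmpty_eq_false_iff, List.isEmpty_iff] at h
    obtain ⟨h1, h2, h3⟩ := h
    obtain ⟨k, fl, hk, e, hfl, hor⟩ := ttS_inv (fs z) (List.replicate (fs z).length false)
      (sn z).length
    rw [e, fs_pr] at h2
    rw [e, sn_pr] at h3
    rw [ne_eq, List.drop_eq_nil_iff, not_le] at h2
    rw [mem_TAUT_iff]
    refine ⟨(isCode_iff _).mp h1, fun v => ?_⟩
    obtain ⟨m, hm, hev⟩ := exists_mask (fs z) v
    rw [← hev]
    have hle : val (List.replicate (fs z).length false) ≤ val m := by
      rw [← hm]; exact val_replicate_le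
    have hi : val m - val (List.replicate (fs z).length false) < k := by
      by_contra hc
      have h4 : val (inc^[k] (List.replicate (fs z).length false)) ≤ val m := by
        rw [val_inc_iter]; omega
      have := length_le_of_val_le h4
      omega
    have h5 := hfl.mp h3 _ hi
    rwa [inc_iter_eq hle] at h5
  · exact cT_mem

theorem ttF_complete {w : List Bool} (hw : w ∈ TAUT) (t : List Bool)
    (ht : 2 ^ (w.length + 1) ≤ t.length) : ttF (pr w t) = w := by
  rw [mem_TAUT_iff] at hw
  unfold ttF
  rw [fs_pr, sn_pr]
  obtain ⟨k, fl, hk, e, hfl, hor⟩ := ttS_inv w (List.replicate w.length false) t.length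
  rw [e, fs_pr, sn_pr]
  have h1 : isCode w = true := (isCode_iff w).mpr hw.1
  have h2 : w.length < (inc^[k] (List.replicate w.length false)).length := by
    rcases hor with h | h
    · by_contra hc
      have h3 := val_le (inc^[k] (List.replicate w.length false))
      rw [val_inc_iter] at h3
      have h4 : 2 ^ ((inc^[k] (List.replicate w.length false)).length + 1) ≤ 2 ^ (w.length + 1) :=
        Nat.pow_le_pow_right (by omega) (by omega)
      omega
    · exact h
  have h3 : fl = [] := by
    rw [hfl]
    intro j _
    rw [toksS_eq, selS_eq, evS_eq]
    exact hw.2 _
  rw [if_pos]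
  simp only [Bool.and_eq_true, Bool.not_eq_true', List.isEmpty_eq_false_iff, List.isEmpty_iff]
  refine ⟨h1, ?_, h3⟩
  rw [ne_eq, List.drop_eq_nil_iff, not_le]; exact h2

theorem ttS_length (w : List Bool) (z : List Bool) : (ttS w z).length ≤ z.length + 4 := by
  have hz := fs_sn_length z
  have h1 := inc_length (fs z)
  unfold ttS
  split_ifs
  · rw [pr_length]; omega
  · rw [pr_length]; simp only [List.length_cons, List.length_nil]; omega
  · omega

theorem FP.ttFI : FP ttF := by
  have hw := FP.fsI
  have ht := FP.snI
  have hlen : ∀ (w : List Bool) (i : ℕ) z, ((ttS w)^[i] z).length ≤ z.length + i * 4 := by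
    intro w i; induction i with
    | zero => intro z; simp
    | succ i ih =>
      intro z; rw [Function.iterate_succ_apply]
      have := ih (ttS w z)
      have := ttS_length w z
      omega
  have hi : FP (fun z => pr (List.replicate (fs z).length false) []) := (FP.zeros hw).pair FP.nil
  obtain ⟨Q, hQ⟩ := ht.length
  obtain ⟨R, hR⟩ := hi.length
  have hit := FP.iterc FP.ttSI hw ht hi (R + Q * 4) (fun x i hx => by
    refine (hlen _ _ _).trans ?_
    have := hQ x
    have := hR x
    have h6 : i * 4 ≤ Q.eval x.length * 4 := Nat.mul_le_mul_right _ (by omega)
    simp only [eval_add, eval_mul, eval_ofNat]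
    omega)
  exact FP.ite (((FPb.isCodeI.comp hw)).and (((FPb.isNil.comp (FP.drop hw hit.fst)).not).and
    (FPb.isNil.comp hit.snd))) hw (FP.const cT)

theorem exists_ps : ProofSystem ttF := by
  refine ⟨FP.ttFI.polyTime, ?_⟩
  ext w
  constructor
  · rintro ⟨z, rfl⟩; exact ttF_mem z
  · intro hw
    exact ⟨pr w (List.replicate (2 ^ (w.length + 1)) true), ttF_complete hw _ (by simp)⟩

end Pool.Agent.Work.MP_0532f7_lc
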