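import Mathlib
import Pool.Agent.Work.MP_0532f7_lc.AdvDefs
import Pool.Agent.Work.MP_0532f7_lc.TT
import Pool.Agent.Work.MP_0532f7_lc.Clock

/-!
Optimal systems with arbitrarily little prefix advice.
-/

namespace Pool.Agent.Work.MP_0532f7_lc

open Polynomial

/-- the word with number `n` -/
def num (n : ℕ) : List Bool := inc^[n] []

theorem val_num (n : ℕ) : val (num n) = n := by
  unfold num; rw [val_inc_iter]; simp [val]

theorem num_val (x : List Bool) : num (val x) = x := val_inj (val_num _)

theorem num_length (n : ℕ) : (num n).length ≤ n := by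
  induction n with
  | zero => simp [num]
  | succ n ih =>
    unfold num at *
    rw [Function.iterate_succ_apply']
    have := inc_length (inc^[n] [])
    omega

theorem FP.numI {f : List Bool → List Bool} (hf : FP f) : FP (fun x => num (f x).length) := by
  obtain ⟨Q, hQ⟩ := hf.length
  exact FP.iter FP.incI hf FP.nil Q (fun x i hi => (num_length i).trans (hi.trans (hQ x)))

theorem pre_length (β : ℕ → Bool) (n : ℕ) : (pre β n).length = n := by simp [pre]

theorem pre_getElem? (β : ℕ → Bool) (n i : ℕ) :
    (pre β n)[i]? = if i < n then some (β i) else none := by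
  unfold pre
  rw [List.getElem?_map]
  by_cases h : i < n
  · rw [List.getElem?_range h, if_pos h]; rfl
  · rw [if_neg h, List.getElem?_eq_none (by simpa using h)]; rfl

/-- output of the universal function with a default value -/
def ud (c x t : List Bool) : List Bool := if (uni c x t).isEmpty then cT else (uni c x t).tail

theorem FP.udI {f g h : List Bool → List Bool} (hf : FP f) (hg : FP g) (hh : FP h) :
    FP (fun x => ud (f x) (g x) (h x)) :=
  FP.ite (FPb.isNil.comp (FP.uniI hf hg hh)) (FP.const cT) (FP.tail.comp (FP.uniI hf hg hh))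

/-- soundness of a program -/
def sound (c : List Bool) : Prop := ∀ x t, ud c x t ∈ TAUT

theorem ud_spec {g : List Bool → List Bool} (hg : PolyTime g) :
    ∃ (c : List Bool) (P : Polynomial ℕ), ∀ x t,
      (P.eval x.length ≤ t.length → ud c x t = g x) ∧ (ud c x t = cT ∨ ud c x t = g x) := by
  obtain ⟨c, P, h⟩ := uni_spec hg
  refine ⟨c, P, fun x t => ⟨fun hp => ?_, ?_⟩⟩
  · unfold ud; rw [(h x t).1 hp]; simp
  · unfold ud
    rcases (h x t).2 with h1 | h1
    · rw [h1]; simp
    · rw [h1]; simp

/-- the formula extracted from a proof -/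
def Dm (w : List Bool) : List Bool :=
  if w.head?.getD false then ud (num (fs w.tail).length) (fs (sn w.tail)) (sn (sn w.tail))
  else ttF w.tail

/-- the verifier -/
def Vm (z : List Bool) : List Bool :=
  if (fs z).head?.getD false then [((sn z).drop (fs (fs z).tail).length).head?.getD false]
  else [true]

theorem FP.DmI : FP Dm := by
  have ht : FP (fun w : List Bool => w.tail) := FP.tail
  exact FP.ite FPb.hd (FP.udI (FP.numI ht.fst) ht.snd.fst ht.snd.snd) (FP.ttFI.comp ht)

theorem FP.VmI : FP Vm := by
  have h1 : FP (fun z : List Bool => (fs z).tail) := FP.tail.comp FP.fsI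
  exact FP.ite (FPb.hd.comp FP.fsI) (FPb.hd.comp (FP.drop h1.fst FP.snI)) (FP.const [true])

open Classical in
/-- the advice: which programs are sound -/
noncomputable def bm (e : ℕ) : Bool := decide (sound (num e))

theorem bm_iff {e : ℕ} : bm e = true ↔ sound (num e) := by
  unfold bm
  exact @decide_eq_true_iff _ (Classical.propDecidable _)

theorem cT_eq : (Form.imp (.var []) (.var [])).code = cT := rfl

theorem advised_mem (α : ℕ → ℕ) (w : List Bool) : advised Dm Vm bm α w ∈ TAUT := by
  unfold advised
  split_ifs with h
  · by_cases hw : w.head?.getD false = true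
    · unfold Vm at h
      rw [fs_pr, sn_pr, if_pos hw] at h
      simp only [List.cons.injEq, and_true] at h
      rw [List.head?_drop, pre_getElem?] at h
      split_ifs at h with h2
      · have h3 : sound (num (fs w.tail).length) := bm_iff.mp h
        unfold Dm
        rw [if_pos hw]
        exact h3 _ _
      · simp at h
    · unfold Dm
      rw [if_neg hw]
      exact ttF_mem _
  · exact cT_mem

theorem advised_tt {α : ℕ → ℕ} {w : List Bool} (hw : w ∈ TAUT) (t : List Bool)
    (ht : 2 ^ (w.length + 1) ≤ t.length) : advised Dm Vm bm α (false :: pr w t) = w := by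
  have h1 : Dm (false :: pr w t) = w := by
    unfold Dm
    rw [if_neg (by simp)]
    exact ttF_complete hw t ht
  unfold advised
  rw [if_pos (by unfold Vm; rw [fs_pr, if_neg (by simp)]), h1]

theorem mem_of_ps {g : List Bool → List Bool} (hg : ProofSystem g) (x : List Bool) : g x ∈ TAUT := by
  rw [← hg.2]; exact ⟨x, rfl⟩

theorem part1 : ∃ (D V : List Bool → List Bool) (β : ℕ → Bool), PolyTime D ∧ PolyTime V ∧
    ∀ α : ℕ → ℕ, Monotone α → (∀ k, ∃ n, k ≤ α n) →
      Set.range (advised D V β α) = TAUT ∧
      ∀ g, ProofSystem g → PSimulates (advised D V β α) g := by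
  refine ⟨Dm, Vm, bm, FP.DmI.polyTime, FP.VmI.polyTime, fun α hmono hunb => ⟨?_, ?_⟩⟩
  · ext w
    constructor
    · rintro ⟨z, rfl⟩; exact advised_mem α z
    · intro hw
      exact ⟨false :: pr w (List.replicate (2 ^ (w.length + 1)) true), advised_tt hw _ (by simp)⟩
  · intro g hg
    obtain ⟨c, P, h⟩ := ud_spec hg.1
    have hsound : sound (num (val c)) := by
      rw [num_val]
      intro x t
      rcases (h x t).2 with h1 | h1
      · rw [h1]; exact cT_mem
      · rw [h1]; exact mem_of_ps hg x
    obtain ⟨n1, hn1⟩ := hunb (val c + 1)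
    obtain ⟨k, hk, hk'⟩ := FP.clock P
    have hgf := hg.1.fp
    refine ⟨fun x => if ((g x).drop (un n1).length).isEmpty then
        false :: pr (g x) (List.replicate (2 ^ (n1 + 1)) true) else
        true :: pr (un (val c)) (pr x (k x)), ?_, ?_⟩
    · exact (FP.ite (FPb.isNil.comp (FP.drop (FP.const (un n1)) hgf))
        ((FP.cons false).comp (hgf.pair (FP.const _)))
        ((FP.cons true).comp ((FP.const _).pair (FP.id.pair hk)))).polyTime
    · intro x
      by_cases hx : ((g x).drop (un n1).length).isEmpty = true
      · simp only [if_pos hx]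
        apply advised_tt (mem_of_ps hg x)
        rw [List.isEmpty_iff, List.drop_eq_nil_iff, un_length] at hx
        rw [List.length_replicate]
        exact Nat.pow_le_pow_right (by omega) (by omega)
      · simp only [if_neg hx]
        rw [List.isEmpty_iff, List.drop_eq_nil_iff, un_length, not_le] at hx
        have hD : Dm (true :: pr (un (val c)) (pr x (k x))) = g x := by
          unfold Dm
          rw [if_pos (by simp)]
          simp only [List.tail_cons, fs_pr, sn_pr, un_length]
          rw [num_val]
          exact (h x (k x)).1 (hk' x).ge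
        have h3 : val c < α (g x).length := lt_of_lt_of_le (Nat.lt_of_succ_le hn1) (hmono hx.le)
        unfold advised
        rw [hD, if_pos]
        unfold Vm
        rw [fs_pr, sn_pr, if_pos (by simp)]
        simp only [List.tail_cons, fs_pr, un_length]
        rw [List.head?_drop, pre_getElem?, if_pos h3]
        simp only [Option.getD_some, List.cons.injEq, and_true]
        exact bm_iff.mpr hsound

theorem part2 (D V : List Bool → List Bool) (β : ℕ → Bool) (α : ℕ → ℕ) (hD : PolyTime D)
    (hV : PolyTime V) (hmono : Monotone α) (hb : ∃ k, ∀ n, α n ≤ k)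
    (hr : Set.range (advised D V β α) = TAUT)
    (hs : ∀ g, ProofSystem g → Simulates (advised D V β α) g) : ∃ f, Optimal f := by
  obtain ⟨n0, hn0⟩ : ∃ n0, ∀ n, n0 ≤ n → α n = α n0 := by
    obtain ⟨k, hk⟩ := hb
    obtain ⟨n0, hn0⟩ : ∃ n0, ∀ n, α n ≤ α n0 := by
      have hfin : (Set.range α).Finite := (Set.finite_Iic k).subset (by
        rintro _ ⟨n, rfl⟩; exact hk n)
      obtain ⟨m, ⟨n0, rfl⟩, hm⟩ := hfin.exists_maximalFor id (Set.range α) ⟨α 0, ⟨0, rfl⟩⟩
      refine ⟨n0, fun n => ?_⟩
      by_contra hc
      have := hm ⟨n, rfl⟩ (not_le.mp hc).le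
      exact hc this
    exact ⟨n0, fun n hn => le_antisymm (hn0 n) (hmono hn)⟩
  have hmem : ∀ w, advised D V β α w ∈ TAUT := fun w => by rw [← hr]; exact ⟨w, rfl⟩
  have hDf := hD.fp
  have hVf := hV.fp
  let f : List Bool → List Bool := fun w =>
    if w.head?.getD false then
      (if (!(((true :: D w.tail).drop (un n0).length).isEmpty) &&
          decide (V (pr w.tail (pre β (α n0))) = [true])) then D w.tail else cT)
    else ttF w.tail
  have hfp : FP f := by
    have ht : FP (fun w : List Bool => w.tail) := FP.tail
    exact FP.ite FPb.hd (FP.ite (((FPb.isNil.comp (FP.drop (FP.const _)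
      ((FP.cons true).comp (hDf.comp ht)))).not).and
      (FPb.eq (hVf.comp (ht.pair (FP.const _))) (FP.const _))) (hDf.comp ht) (FP.const _))
      (FP.ttFI.comp ht)
  have hlong : ∀ w, n0 ≤ (D w).length → f (true :: w) = advised D V β α w := by
    intro w hw
    simp only [f, List.head?_cons, Option.getD_some, if_true, List.tail_cons]
    have e1 : (((true :: D w).drop (un n0).length).isEmpty) = false := by
      rw [List.isEmpty_eq_false_iff, ne_eq, List.drop_eq_nil_iff, un_length, List.length_cons]
      omega
    rw [e1]
    unfold advised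
    rw [hn0 _ hw]
    simp only [Bool.not_false, Bool.true_and, decide_eq_true_eq]
    rfl
  have hfmem : ∀ w, f w ∈ TAUT := by
    intro w
    by_cases h1 : w.head?.getD false = true
    · obtain ⟨v, rfl⟩ : ∃ v, w = true :: v := by
        cases w with
        | nil => simp at h1
        | cons b v =>
          simp only [List.head?_cons, Option.getD_some] at h1
          exact ⟨v, by rw [h1]⟩
      by_cases h2 : n0 ≤ (D v).length
      · rw [hlong v h2]; exact hmem v
      · have : f (true :: v) = cT := by
          simp only [f, List.head?_cons, Option.getD_some, if_true, List.tail_cons]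
          have e1 : (((true :: D v).drop (un n0).length).isEmpty) = true := by
            rw [List.isEmpty_iff, List.drop_eq_nil_iff, un_length, List.length_cons]
            omega
          rw [e1]; simp
        rw [this]; exact cT_mem
    · simp only [f, if_neg h1]; exact ttF_mem _
  have htt : ∀ w ∈ TAUT, ∀ t : List Bool, 2 ^ (w.length + 1) ≤ t.length →
      f (false :: pr w t) = w := by
    intro w hw t ht
    simp only [f, List.head?_cons, Option.getD_some, List.tail_cons]
    rw [if_neg (by simp)]
    exact ttF_complete hw t ht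
  refine ⟨f, ⟨hfp.polyTime, ?_⟩, ?_⟩
  · ext w
    constructor
    · rintro ⟨z, rfl⟩; exact hfmem z
    · intro hw
      exact ⟨false :: pr w (List.replicate (2 ^ (w.length + 1)) true), htt w hw _ (by simp)⟩
  · intro g hg
    obtain ⟨h, p, hh⟩ := hs g hg
    obtain ⟨n1, hn1⟩ : ∃ n1, n1 = n0 + cT.length := ⟨_, rfl⟩
    refine ⟨fun w => if n0 ≤ (D (h w)).length then true :: h w else
      false :: pr (g w) (List.replicate (2 ^ (n1 + 1)) true),
      p + C (2 * n1 + 2 + 2 ^ (n1 + 1)), fun w => ?_⟩
    have hgw := mem_of_ps hg w
    by_cases hc : n0 ≤ (D (h w)).length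
    · simp only [if_pos hc]
      refine ⟨by rw [hlong _ hc]; exact (hh w).1, ?_⟩
      have := (hh w).2
      have h2 : 0 < 2 ^ (n1 + 1) := by positivity
      simp only [List.length_cons, eval_add, eval_C]
      generalize 2 ^ (n1 + 1) = q at *
      omega
    · simp only [if_neg hc]
      have hlen : (g w).length ≤ n1 := by
        rw [← (hh w).1]
        unfold advised
        split_ifs
        · omega
        · rw [cT_eq]; omega
      refine ⟨htt _ hgw _ ?_, ?_⟩
      · rw [List.length_replicate]
        exact Nat.pow_le_pow_right (by omega) (by omega)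
      · rw [List.length_cons, pr_length, List.length_replicate]
        simp only [eval_add, eval_C]
        omega

theorem threshold :
    (∃ (D V : List Bool → List Bool) (β : ℕ → Bool), PolyTime D ∧ PolyTime V ∧
      ∀ α : ℕ → ℕ, Monotone α → (∀ k, ∃ n, k ≤ α n) →
        Set.range (advised D V β α) = TAUT ∧
        ∀ g, ProofSystem g → PSimulates (advised D V β α) g) ∧
    (∀ (D V : List Bool → List Bool) (β : ℕ → Bool) (α : ℕ → ℕ), PolyTime D → PolyTime V →
      Monotone α → (∃ k, ∀ n, α n ≤ k) → Set.range (advised D V β α) = TAUT →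
      (∀ g, ProofSystem g → Simulates (advised D V β α) g) → ∃ f, Optimal f) :=
  ⟨part1, fun D V β α h1 h2 h3 h4 h5 h6 => part2 D V β α h1 h2 h3 h4 h5 h6⟩

end Pool.Agent.Work.MP_0532f7_lc
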