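import Mathlib
import Pool.Agent.Work.MP_0532f7_lc.OracleDefs
import Pool.Agent.Work.MP_0532f7_lc.OutAdv

/-!
Codes of formulas with oracle gates: unique readability, and the formulas `tauF n m` with a
polynomial-time code.
-/

namespace Pool.Agent.Work.MP_0532f7_lc

open Polynomial

/-! ### unique readability -/

theorem ocode_unique (n : ℕ) :
    (∀ φ : OForm, φ.code.length < n → ∀ (ψ : OForm) (r r' : List Bool),
      φ.code ++ r = ψ.code ++ r' → φ = ψ ∧ r = r') ∧
    (∀ l : OForms, l.codes.length < n → ∀ (l' : OForms) (r r' : List Bool),
      l.codes ++ r = l'.codes ++ r' → l = l' ∧ r = r') := by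
  induction n with
  | zero => exact ⟨fun φ h => by omega, fun φ h => by omega⟩
  | succ n ih =>
    obtain ⟨ih, ih'⟩ := ih
    constructor
    · intro φ hφ ψ r r' h
      cases φ with
      | var s =>
        cases ψ with
        | var t =>
          simp only [OForm.code, List.cons_append, pr_app, List.nil_append, List.cons.injEq,
            true_and] at h
          have h1 := congrArg fs h
          have h2 := congrArg sn h
          rw [fs_pr, fs_pr] at h1
          rw [sn_pr, sn_pr] at h2
          exact ⟨by rw [h1], h2⟩
        | neg _ => simp [OForm.code] at h
        | imp _ _ => simp [OForm.code] at h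
        | orc _ => simp [OForm.code] at h
      | neg a =>
        cases ψ with
        | var t => simp [OForm.code] at h
        | neg b =>
          simp only [OForm.code, List.cons_append, List.cons.injEq, true_and] at h
          simp only [OForm.code, List.length_cons] at hφ
          obtain ⟨h1, h2⟩ := ih a (by omega) b _ _ h
          exact ⟨by rw [h1], h2⟩
        | imp _ _ => simp [OForm.code] at h
        | orc _ => simp [OForm.code] at h
      | imp a b =>
        cases ψ with
        | var t => simp [OForm.code] at h
        | neg _ => simp [OForm.code] at h
        | imp c d =>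
          simp only [OForm.code, List.cons_append, List.cons.injEq, true_and,
            List.append_assoc] at h
          simp only [OForm.code, List.length_cons, List.length_append] at hφ
          obtain ⟨h1, h2⟩ := ih a (by omega) c _ _ h
          obtain ⟨h3, h4⟩ := ih b (by omega) d _ _ h2
          exact ⟨by rw [h1, h3], h4⟩
        | orc _ => simp [OForm.code] at h
      | orc args =>
        cases ψ with
        | var t => simp [OForm.code] at h
        | neg _ => simp [OForm.code] at h
        | imp _ _ => simp [OForm.code] at h
        | orc args' =>
          simp only [OForm.code, List.cons_append, List.cons.injEq, true_and] at h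
          simp only [OForm.code, List.length_cons] at hφ
          obtain ⟨h1, h2⟩ := ih' args (by omega) args' r r' h
          exact ⟨by rw [h1], h2⟩
    · intro l hl l' r r' h
      cases l with
      | nil =>
        cases l' with
        | nil =>
          simp only [OForms.codes, List.cons_append, List.nil_append, List.cons.injEq,
            true_and] at h
          exact ⟨rfl, h⟩
        | cons _ _ => simp [OForms.codes] at h
      | cons a l =>
        cases l' with
        | nil => simp [OForms.codes] at h
        | cons b l' =>
          simp only [OForms.codes, List.cons_append, List.cons.injEq, true_and,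
            List.append_assoc] at h
          simp only [OForms.codes, List.length_cons, List.length_append] at hl
          obtain ⟨h1, h2⟩ := ih a (by omega) b _ _ h
          obtain ⟨h3, h4⟩ := ih' l (by omega) l' _ _ h2
          exact ⟨by rw [h1, h3], h4⟩

/-- unique readability -/
theorem OForm.code_injective : Function.Injective OForm.code := by
  intro φ ψ h
  exact ((ocode_unique (φ.code.length + 1)).1 φ (by omega) ψ [] [] (by rw [h])).1

/-- sequences of formulas from lists -/
def OForms.ofList : List OForm → OForms
  | [] => .nil
  | φ :: l => .cons φ (OForms.ofList l)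

/-- the oracle gate with a list of arguments -/
def OForm.gate (l : List OForm) : OForm := .orc (OForms.ofList l)

theorem evals_ofList (R v : List Bool → Bool) (l : List OForm) :
    (OForms.ofList l).evals R v = l.map (fun φ => φ.eval R v) := by
  induction l with
  | nil => simp [OForms.ofList, OForms.evals]
  | cons a l ih => simp [OForms.ofList, OForms.evals, ih]

theorem codes_ofList (l : List OForm) :
    (OForms.ofList l).codes = (l.map (fun φ => true :: φ.code)).flatten ++ [false] := by
  induction l with
  | nil => simp [OForms.ofList, OForms.codes]
  | cons a l ih => simp [OForms.ofList, OForms.codes, ih]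

theorem gate_eval (R v : List Bool → Bool) (l : List OForm) :
    (OForm.gate l).eval R v = R (l.map (fun φ => φ.eval R v)) := by
  unfold OForm.gate
  rw [OForm.eval, evals_ofList]

theorem ocode_orc (args : List OForm) : (OForm.gate args).code =
    true :: true :: ((args.map (fun φ => true :: φ.code)).flatten ++ [false]) := by
  unfold OForm.gate
  rw [OForm.code, codes_ofList]

/-! ### the formulas -/

/-- a tautology -/
def oTop : OForm := .imp (.var []) (.var [])

/-- the arguments `x₁, …, xₙ` -/
def xsF (n : ℕ) : List OForm := (List.range n).map (fun j => OForm.var (un j))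

/-- the gate asking the word `1 x 1ʲ` -/
def gateF (n j : ℕ) : OForm := .gate (oTop :: (xsF n ++ List.replicate j oTop))

/-- the formula saying that for all `x` of length `n` one of the words `1 x 1ʲ`, `j < m`, is in
the oracle -/
def tauF (n : ℕ) : ℕ → OForm
  | 0 => .neg oTop
  | j + 1 => .imp (.neg (gateF n j)) (tauF n j)

theorem oTop_eval (R v) : oTop.eval R v = true := by
  simp [oTop, OForm.eval]

theorem gateF_eval (R v : List Bool → Bool) (n j : ℕ) : (gateF n j).eval R v =
    R (true :: ((List.range n).map (fun i => v (un i)) ++ List.replicate j true)) := by
  unfold gateF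
  rw [gate_eval]
  simp only [List.map_cons, List.map_append, oTop_eval, List.map_replicate, xsF, List.map_map]
  congr 3

theorem tauF_eval (R v : List Bool → Bool) (n m : ℕ) : (tauF n m).eval R v = true ↔
    ∃ j, j < m ∧
      R (true :: ((List.range n).map (fun i => v (un i)) ++ List.replicate j true)) = true := by
  induction m with
  | zero => simp [tauF, OForm.eval, oTop_eval]
  | succ m ih =>
    simp only [tauF, OForm.eval, gateF_eval, Bool.not_not, Bool.or_eq_true, ih]
    constructor
    · rintro (h | ⟨j, hj, h⟩)
      · exact ⟨m, by omega, h⟩
      · exact ⟨j, by omega, h⟩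
    · rintro ⟨j, hj, h⟩
      rcases Nat.lt_succ_iff_lt_or_eq.1 hj with h1 | h1
      · exact Or.inr ⟨j, h1, h⟩
      · subst h1; exact Or.inl h

theorem tauF_iff (R : List Bool → Bool) (n m : ℕ) :
    (∀ v, (tauF n m).eval R v = true) ↔
      ∀ x : List Bool, x.length = n →
        ∃ j, j < m ∧ R (true :: (x ++ List.replicate j true)) = true := by
  constructor
  · intro h x hx
    have h1 := (tauF_eval R (fun s => x.getD s.length false) n m).1 (h _)
    have h2 : (List.range n).map (fun i => x.getD (un i).length false) = x := by
      apply List.ext_getElem
      · simp [hx]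
      · intro i h3 h4
        simp only [List.getElem_map, List.getElem_range, un_length]
        rw [List.getD_eq_getElem _ _ h4]
    rw [h2] at h1
    exact h1
  · intro h v
    rw [tauF_eval]
    exact h _ (by simp)

/-! ### the code -/

/-- the code of an argument `oTop` of a gate -/
def otS : List Bool := true :: oTop.code

/-- step building the codes of the arguments `x₁, …, xₙ` -/
def oxS (s : List Bool) : List Bool :=
  pr (true :: fs s) (sn s ++ (true :: false :: false :: pr (fs s) []))

/-- the codes of the arguments `x₁, …, xₙ` -/
def oxC (n : ℕ) : List Bool := ((xsF n).map (fun φ => true :: φ.code)).flatten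

theorem oxC_succ (n : ℕ) : oxC (n + 1) = oxC n ++ (true :: false :: false :: pr (un n) []) := by
  simp [oxC, xsF, List.range_succ, OForm.code]

theorem oxS_iter (n : ℕ) : oxS^[n] (pr [] []) = pr (un n) (oxC n) := by
  induction n with
  | zero => rfl
  | succ n ih =>
    rw [Function.iterate_succ_apply', ih, oxC_succ]
    simp [oxS, un_succ]

theorem oxC_length (n : ℕ) : (oxC n).length ≤ n * (2 * n + 4) := by
  induction n with
  | zero => simp [oxC, xsF]
  | succ n ih =>
    rw [oxC_succ]
    simp only [List.length_append, List.length_cons, pr_length, un_length, List.length_nil]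
    have : n * (2 * n + 4) + (2 * n + 1 + 3) ≤ (n + 1) * (2 * (n + 1) + 4) := by nlinarith
    omega

theorem FP.oxSI : FP oxS :=
  FP.pair ((FP.cons true).comp FP.fsI)
    (FP.snI.app ((FP.cons true).comp ((FP.cons false).comp ((FP.cons false).comp
      (FP.fsI.pair FP.nil)))))

theorem FP.oxCI {f : List Bool → List Bool} (hf : FP f) : FP (fun z => oxC (f z).length) := by
  obtain ⟨Q, hQ⟩ := hf.length
  have h1 := FP.iter (f := oxS) (c := f) (g := fun _ => pr [] []) FP.oxSI hf (FP.const _)
    (2 * Q + 1 + Q * (2 * Q + 4)) (fun x i hi => by
      rw [oxS_iter, pr_length, un_length]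
      have h2 := oxC_length i
      have h3 : i ≤ Q.eval x.length := hi.trans (hQ x)
      have h4 : i * (2 * i + 4) ≤ Q.eval x.length * (2 * Q.eval x.length + 4) :=
        Nat.mul_le_mul h3 (by omega)
      simp only [eval_add, eval_mul, eval_ofNat, eval_one]
      omega)
  refine (FP.snd h1).congr (fun x => ?_)
  rw [oxS_iter, sn_pr]

/-- step building the code of `tauF n m` (context: `oxC n`) -/
def otauS (P s : List Bool) : List Bool :=
  pr (otS ++ fs s) ([true, false, false, true, true, true] ++
    (otS ++ (P ++ (fs s ++ (false :: sn s)))))

/-- codes of `j` arguments `oTop` -/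
def orep (j : ℕ) : List Bool := ((List.replicate j oTop).map (fun φ => true :: φ.code)).flatten

theorem orep_succ (j : ℕ) : orep (j + 1) = otS ++ orep j := by
  simp [orep, otS, List.replicate_succ]

theorem tauF_code_succ (n j : ℕ) : (tauF n (j + 1)).code =
    [true, false, false, true, true, true] ++
      (otS ++ (oxC n ++ (orep j ++ (false :: (tauF n j).code)))) := by
  simp only [tauF, OForm.code, gateF, ocode_orc, oxC, orep, otS, List.map_cons, List.map_append,
    List.flatten_cons, List.flatten_append, List.cons_append, List.nil_append, List.append_assoc]

theorem otauS_iter (n j : ℕ) : (otauS (oxC n))^[j] (pr [] (OForm.neg oTop).code) =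
    pr (orep j) (tauF n j).code := by
  induction j with
  | zero => rfl
  | succ j ih =>
    rw [Function.iterate_succ_apply', ih, orep_succ, tauF_code_succ]
    simp only [otauS, fs_pr, sn_pr]

theorem orep_length (j : ℕ) : (orep j).length = j * otS.length := by
  induction j with
  | zero => simp [orep]
  | succ j ih => rw [orep_succ, List.length_append, ih, Nat.succ_mul]; omega

theorem tauF_code_length (n j : ℕ) : (tauF n j).code.length ≤
    (OForm.neg oTop).code.length + j * (7 + otS.length + (oxC n).length + j * otS.length) := by
  induction j with
  | zero => simp [tauF]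
  | succ j ih =>
    rw [tauF_code_succ]
    simp only [List.length_append, List.length_cons, orep_length, List.length_nil]
    have h1 : (j + 1) * (7 + otS.length + (oxC n).length + (j + 1) * otS.length)
        = j * (7 + otS.length + (oxC n).length + j * otS.length)
          + (7 + otS.length + (oxC n).length + j * otS.length + (j + 1) * otS.length) := by ring
    rw [h1]
    omega

theorem FP.otauSI : FP (fun z => otauS (fs z) (sn z)) := by
  have h1 : FP (fun z => fs (sn z)) := FP.snI.fst
  have h2 : FP (fun z => sn (sn z)) := FP.snI.snd
  exact FP.pair ((FP.const otS).app h1) ((FP.const _).app ((FP.const otS).app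
    (FP.fsI.app (h1.app ((FP.cons false).comp h2)))))

theorem FP.tauI {f g : List Bool → List Bool} (hf : FP f) (hg : FP g) :
    FP (fun z => (tauF (f z).length (g z).length).code) := by
  have hx := FP.oxCI hf
  obtain ⟨QX, hQX⟩ := hx.length
  obtain ⟨Q, hQ⟩ := hg.length
  have h1 := FP.iterc (step := otauS) (p := fun z => oxC (f z).length) (c := g)
    (g := fun _ => pr [] (OForm.neg oTop).code) FP.otauSI hx hg (FP.const _)
    (2 * (Q * C otS.length) + 1 + (C (OForm.neg oTop).code.length +
      Q * (7 + C otS.length + QX + Q * C otS.length))) (fun x i hi => by
      rw [otauS_iter, pr_length, orep_length]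
      have h2 := tauF_code_length (f x).length i
      have h3 : i ≤ Q.eval x.length := hi.trans (hQ x)
      have h4 := hQX x
      have h5 : i * otS.length ≤ Q.eval x.length * otS.length := Nat.mul_le_mul_right _ h3
      have h6 : i * (7 + otS.length + (oxC (f x).length).length + i * otS.length)
          ≤ Q.eval x.length * (7 + otS.length + QX.eval x.length
            + Q.eval x.length * otS.length) := Nat.mul_le_mul h3 (by omega)
      simp only [eval_add, eval_mul, eval_ofNat, eval_one, eval_C]
      omega)
  refine (FP.snd h1).congr (fun x => ?_)
  rw [otauS_iter, sn_pr]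

end Pool.Agent.Work.MP_0532f7_lc
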