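import Mathlib
import Pool.Agent.Work.MP_0532f7_lc.OracleDefs
import Pool.Agent.Work.MP_0532f7_lc.OutAdv

/-!
Oracle computations with finite tables, and bounded searches in polynomial time.
-/

namespace Pool.Agent.Work.MP_0532f7_lc

open Polynomial

/-! ### answers -/

theorem answers_length (Q : List Bool → List Bool) (R : List Bool → Bool) (w : List Bool) (n : ℕ) :
    (answers Q R w n).length = n := by
  induction n with
  | zero => rfl
  | succ n ih => simp [answers, ih]

theorem answers_congr (Q : List Bool → List Bool) (R R' : List Bool → Bool) (w : List Bool)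
    (n : ℕ) (h : ∀ k < n, R (Q (pr w (answers Q R w k))) = R' (Q (pr w (answers Q R w k)))) :
    answers Q R' w n = answers Q R w n := by
  induction n with
  | zero => rfl
  | succ n ih =>
    have e := ih (fun k hk => h k (by omega))
    show answers Q R' w n ++ [R' (Q (pr w (answers Q R' w n)))] =
      answers Q R w n ++ [R (Q (pr w (answers Q R w n)))]
    rw [e, ← h n (by omega)]

/-! ### tables -/

/-- value of the finite table `T` at the word `y` -/
def look (T y : List Bool) : Bool := (T.drop (val y)).head?.getD false

/-- search in a table -/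
def lkS (y z : List Bool) : List Bool :=
  if decide (fs z = y) then z else pr (inc (fs z)) (sn z).tail

theorem FP.lkSI : FP (fun w => lkS (fs w) (sn w)) :=
  FP.ite (FPb.eq FP.snI.fst FP.fsI) FP.snI
    (FP.pair (FP.incI.comp FP.snI.fst) (FP.tail.comp FP.snI.snd))

theorem lkS_iter (y T : List Bool) (i : ℕ) (hi : i ≤ val y) :
    (lkS y)^[i] (pr [] T) = pr (num i) (T.drop i) := by
  induction i with
  | zero => simp [num]
  | succ i ih =>
    rw [Function.iterate_succ_apply', ih (by omega)]
    unfold lkS
    rw [fs_pr, sn_pr]
    have : num i ≠ y := by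
      intro h
      have := val_num i
      rw [h] at this
      omega
    rw [if_neg (by simpa using this)]
    congr 1
    · unfold num; rw [Function.iterate_succ_apply']
    · rw [List.tail_drop]

theorem lkS_fix (y r : List Bool) (i : ℕ) : (lkS y)^[i] (pr y r) = pr y r := by
  induction i with
  | zero => rfl
  | succ i ih =>
    rw [Function.iterate_succ_apply', ih]
    unfold lkS
    rw [fs_pr, if_pos (by simp)]

theorem lkS_spec (y T : List Bool) : sn ((lkS y)^[T.length] (pr [] T)) = T.drop (val y) := by
  rcases le_total T.length (val y) with h | h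
  · rw [lkS_iter y T _ h, sn_pr, List.drop_length, List.drop_eq_nil_of_le h]
  · obtain ⟨d, hd⟩ := Nat.exists_eq_add_of_le h
    rw [hd, Nat.add_comm, Function.iterate_add_apply, lkS_iter y T _ le_rfl, num_val, lkS_fix,
      sn_pr]

theorem lkS_length (y z : List Bool) : (lkS y z).length ≤ z.length + 3 := by
  unfold lkS
  split_ifs with h
  · omega
  · rw [pr_length, List.length_tail]
    have h1 := inc_length (fs z)
    have h2 := fs_sn_length z
    omega

theorem lkS_iter_length (y z : List Bool) (i : ℕ) :
    ((lkS y)^[i] z).length ≤ z.length + 3 * i := by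
  induction i with
  | zero => simp
  | succ i ih =>
    rw [Function.iterate_succ_apply']
    have := lkS_length y ((lkS y)^[i] z)
    omega

theorem FPb.lookI {f g : List Bool → List Bool} (hf : FP f) (hg : FP g) :
    FPb (fun x => look (f x) (g x)) := by
  obtain ⟨Q, hQ⟩ := hf.length
  have h1 := FP.iterc (step := lkS) FP.lkSI hg hf (FP.nil.pair hf) (Q + 1 + 3 * Q)
    (fun x i hi => by
      refine (lkS_iter_length _ _ _).trans ?_
      rw [pr_length]
      have := hQ x
      simp only [List.length_nil, eval_add, eval_mul, eval_ofNat, eval_one]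
      omega)
  refine (FPb.hd.comp (FP.snd h1)).congr (fun x => ?_)
  rw [lkS_spec]
  rfl

/-- join of two tables -/
def lookJ (TA T y : List Bool) : Bool :=
  if y.isEmpty then false else if y.head?.getD false then look T y.tail else look TA y.tail

theorem FPb.lookJI {f g h : List Bool → List Bool} (hf : FP f) (hg : FP g) (hh : FP h) :
    FPb (fun x => lookJ (f x) (g x) (h x)) :=
  FPb.ite (FPb.isNil.comp hh) (FPb.const false) (FPb.ite (FPb.hd.comp hh)
    (FPb.lookI hg (FP.tail.comp hh)) (FPb.lookI hf (FP.tail.comp hh)))

/-! ### oracle computation with tables -/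

/-- one query; context `pr (pr TA T) v` -/
def anS (Q : List Bool → List Bool) (p a : List Bool) : List Bool :=
  a ++ [lookJ (fs (fs p)) (sn (fs p)) (Q (pr (sn p) a))]

theorem FP.anSI {Q : List Bool → List Bool} (hQ : FP Q) :
    FP (fun w => anS Q (fs w) (sn w)) :=
  FP.snI.app (FPb.lookJI FP.fsI.fst.fst FP.fsI.fst.snd (hQ.comp (FP.pair FP.fsI.snd FP.snI)))

theorem anS_iter (Q : List Bool → List Bool) (TA T v : List Bool) (n : ℕ) :
    (anS Q (pr (pr TA T) v))^[n] [] = answers Q (lookJ TA T) v n := by
  induction n with
  | zero => rfl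
  | succ n ih =>
    rw [Function.iterate_succ_apply', ih]
    show _ = answers Q (lookJ TA T) v n ++ [lookJ TA T (Q (pr v (answers Q (lookJ TA T) v n)))]
    unfold anS
    simp

/-- oracle computation with tables -/
def orun (Q C O : List Bool → List Bool) (TA T v : List Bool) : List Bool :=
  O (pr v (answers Q (lookJ TA T) v (C v).length))

theorem FP.orunI {Q C O : List Bool → List Bool} (hQ : FP Q) (hC : FP C) (hO : FP O)
    {f g h : List Bool → List Bool} (hf : FP f) (hg : FP g) (hh : FP h) :
    FP (fun x => orun Q C O (f x) (g x) (h x)) := by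
  obtain ⟨B, hB⟩ := (hC.comp hh).length
  have h1 := FP.iterc (step := anS Q) (FP.anSI hQ) ((hf.pair hg).pair hh) (hC.comp hh) FP.nil B
    (fun x i hi => by
      rw [anS_iter, answers_length]
      exact hi.trans (hB x))
  refine (hO.comp (hh.pair h1)).congr (fun x => ?_)
  rw [anS_iter]
  rfl

/-! ### bounded searches -/

/-- counting step -/
def ctS (p : List Bool → Bool) (c z : List Bool) : List Bool :=
  pr (if p (pr c (sn z)) then true :: fs z else fs z) (inc (sn z))

theorem FP.ctSI {p : List Bool → Bool} (hp : FPb p) : FP (fun w => ctS p (fs w) (sn w)) :=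
  FP.pair (FP.ite (hp.comp (FP.pair FP.fsI FP.snI.snd)) ((FP.cons true).comp FP.snI.fst)
    FP.snI.fst) (FP.incI.comp FP.snI.snd)

/-- number of `i < K` with `p (c, i)` -/
def cnt (p : List Bool → Bool) (c : List Bool) (K : ℕ) : ℕ :=
  ((List.range K).countP (fun i => p (pr c (num i))))

theorem cnt_succ (p : List Bool → Bool) (c : List Bool) (K : ℕ) :
    cnt p c (K + 1) = cnt p c K + if p (pr c (num K)) then 1 else 0 := by
  unfold cnt
  rw [List.range_succ, List.countP_append, List.countP_singleton]

theorem cnt_le (p : List Bool → Bool) (c : List Bool) (K : ℕ) : cnt p c K ≤ K := by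
  unfold cnt
  exact List.countP_le_length.trans (by simp)

theorem ctS_iter (p : List Bool → Bool) (c : List Bool) (K : ℕ) :
    (ctS p c)^[K] (pr [] []) = pr (un (cnt p c K)) (num K) := by
  induction K with
  | zero => rfl
  | succ K ih =>
    rw [Function.iterate_succ_apply', ih, cnt_succ]
    unfold ctS
    rw [fs_pr, sn_pr]
    congr 1
    · split_ifs with h
      · rw [un_succ]
      · rfl
    · unfold num; rw [Function.iterate_succ_apply']

theorem FP.cntI {p : List Bool → Bool} (hp : FPb p) {c k : List Bool → List Bool} (hc : FP c)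
    (hk : FP k) : FP (fun x => un (cnt p (c x) (k x).length)) := by
  obtain ⟨Q, hQ⟩ := hk.length
  refine (FP.fst (FP.iterc (step := ctS p) (FP.ctSI hp) hc hk (FP.nil.pair FP.nil)
    (2 * Q + 1 + Q) (fun x i hi => ?_))).congr (fun x => ?_)
  · rw [ctS_iter, pr_length, un_length]
    have h1 := cnt_le p (c x) i
    have h2 := num_length i
    have h3 := hQ x
    simp only [eval_add, eval_mul, eval_ofNat, eval_one]
    omega
  · rw [ctS_iter, fs_pr]

theorem cnt_pos (p : List Bool → Bool) (c : List Bool) (K : ℕ) :
    0 < cnt p c K ↔ ∃ i, i < K ∧ p (pr c (num i)) = true := by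
  unfold cnt
  rw [List.countP_pos_iff]
  simp [List.mem_range]

/-- bounded existential quantifier -/
def exb (p : List Bool → Bool) (c : List Bool) (K : ℕ) : Bool := !(un (cnt p c K)).isEmpty

theorem FPb.exbI {p : List Bool → Bool} (hp : FPb p) {c k : List Bool → List Bool} (hc : FP c)
    (hk : FP k) : FPb (fun x => exb p (c x) (k x).length) :=
  (FPb.isNil.comp (FP.cntI hp hc hk)).not

theorem exb_iff (p : List Bool → Bool) (c : List Bool) (K : ℕ) :
    exb p c K = true ↔ ∃ i, i < K ∧ p (pr c (num i)) = true := by
  rw [← cnt_pos]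
  unfold exb
  cases h : cnt p c K with
  | zero => simp
  | succ n => simp [un_succ]

/-- search step for the least `i` -/
def leS (p : List Bool → Bool) (c z : List Bool) : List Bool :=
  if p (pr c z) then z else true :: z

theorem FP.leSI {p : List Bool → Bool} (hp : FPb p) : FP (fun w => leS p (fs w) (sn w)) :=
  FP.ite (hp.comp (FP.pair FP.fsI FP.snI)) FP.snI ((FP.cons true).comp FP.snI)

/-- the least `i < K` with `p (c, 1^i)`, or `K` -/
def lst (p : List Bool → Bool) (c : List Bool) : ℕ → ℕ
  | 0 => 0
  | K + 1 => if p (pr c (un (lst p c K))) then lst p c K else lst p c K + 1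

theorem leS_iter (p : List Bool → Bool) (c : List Bool) (K : ℕ) :
    (leS p c)^[K] [] = un (lst p c K) := by
  induction K with
  | zero => rfl
  | succ K ih =>
    rw [Function.iterate_succ_apply', ih]
    show leS p c (un (lst p c K)) =
      un (if p (pr c (un (lst p c K))) then lst p c K else lst p c K + 1)
    unfold leS
    split_ifs with h
    · rfl
    · rw [un_succ]

theorem lst_spec (p : List Bool → Bool) (c : List Bool) (K : ℕ) :
    lst p c K ≤ K ∧ (∀ i < lst p c K, p (pr c (un i)) = false) ∧
      (lst p c K < K → p (pr c (un (lst p c K))) = true) := by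
  induction K with
  | zero => exact ⟨le_rfl, fun i hi => by simp [lst] at hi, fun h => by simp at h⟩
  | succ K ih =>
    obtain ⟨h1, h2, h3⟩ := ih
    unfold lst
    split_ifs with h
    · exact ⟨by omega, h2, fun _ => h⟩
    · have h4 : lst p c K = K := by
        by_contra h5
        exact h (h3 (by omega))
      refine ⟨by omega, fun i hi => ?_, fun h5 => by omega⟩
      rcases Nat.lt_or_ge i (lst p c K) with h6 | h6
      · exact h2 i h6
      · have : i = lst p c K := by omega
        rw [this]; simpa using h

theorem FP.lstI {p : List Bool → Bool} (hp : FPb p) {c k : List Bool → List Bool} (hc : FP c)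
    (hk : FP k) : FP (fun x => un (lst p (c x) (k x).length)) := by
  obtain ⟨Q, hQ⟩ := hk.length
  refine (FP.iterc (step := leS p) (FP.leSI hp) hc hk FP.nil Q (fun x i hi => ?_)).congr
    (fun x => ?_)
  · rw [leS_iter, un_length]
    exact (lst_spec p (c x) i).1.trans (hi.trans (hQ x))
  · rw [leS_iter]

/-! ### capped powers of two -/

/-- doubling, truncated at the length of `b` -/
def dc (b z : List Bool) : List Bool := (z ++ z).take b.length

theorem FP.dcI : FP (fun w => dc (fs w) (sn w)) := FP.take FP.fsI (FP.snI.app FP.snI)

theorem dc_iter (b : List Bool) (i : ℕ) :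
    (dc b)^[i] (un (min 1 b.length)) = un (min (2 ^ i) b.length) := by
  induction i with
  | zero => simp
  | succ i ih =>
    rw [Function.iterate_succ_apply', ih]
    unfold dc un
    rw [← List.replicate_add, List.take_replicate, pow_succ]
    congr 1
    omega

theorem FP.pcI {f g : List Bool → List Bool} (hf : FP f) (hg : FP g) :
    FP (fun x => un (min (2 ^ (g x).length) (f x).length)) := by
  obtain ⟨Q, hQ⟩ := hf.length
  have h0 : FP (fun x => un (min 1 (f x).length)) := by
    refine (FP.take hf (FP.const [true])).congr (fun x => ?_)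
    unfold un
    have : ([true] : List Bool) = List.replicate 1 true := rfl
    rw [this, List.take_replicate]
    congr 1
    omega
  refine (FP.iterc (step := dc) FP.dcI hf hg h0 Q (fun x i _ => ?_)).congr (fun x => ?_)
  · rw [dc_iter, un_length]
    have := hQ x
    omega
  · rw [dc_iter]

end Pool.Agent.Work.MP_0532f7_lc
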