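import Mathlib
import Pool.Agent.Work.MP_0532f7_lc.OCode
import Pool.Agent.Work.MP_0532f7_lc.OSim

/-!
A polynomial-time checker for certified evaluations of oracle formulas.
-/

namespace Pool.Agent.Work.MP_0532f7_lc

open Polynomial

/-! ### the checker -/

/-- second bit -/
def gder_hb (i : List Bool) : Bool := i.tail.head?.getD false

/-- without the first two bits -/
def gder_tt (i : List Bool) : List Bool := i.tail.tail

/-- is it an item for a formula? -/
def gder_isF (i : List Bool) : Bool := decide (i = true :: gder_hb i :: gder_tt i)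

/-- is it an item for a sequence? -/
def gder_isL (i : List Bool) : Bool := decide (i = false :: pr (fs i.tail) (sn i.tail))

/-- is the item derived from the items in `acc`? -/
def gder_ok (v s item i1 i2 acc : List Bool) : Bool :=
  decide (item = true :: memS (fs item.tail.tail.tail.tail) v :: false :: false ::
    pr (fs item.tail.tail.tail.tail) []) ||
  ((memS i1 acc && gder_isF i1) &&
    decide (item = true :: (!gder_hb i1) :: false :: true :: gder_tt i1)) ||
  (((memS i1 acc && memS i2 acc) && (gder_isF i1 && gder_isF i2)) &&
    decide (item = true :: (!gder_hb i1 || gder_hb i2) :: true :: false ::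
      (gder_tt i1 ++ gder_tt i2))) ||
  ((memS i1 acc && gder_isL i1) &&
    decide (item = true :: memS (fs i1.tail) s :: true :: true :: sn i1.tail)) ||
  decide (item = false :: pr [] [false]) ||
  (((memS i1 acc && memS i2 acc) && (gder_isF i1 && gder_isL i2)) &&
    decide (item = false :: pr (gder_hb i1 :: fs i2.tail) (true :: (gder_tt i1 ++ sn i2.tail))))

theorem gder_hbI {f : List Bool → List Bool} (hf : FP f) : FPb (fun x => gder_hb (f x)) :=
  FPb.hd.comp (FP.tail.comp hf)

theorem gder_ttI {f : List Bool → List Bool} (hf : FP f) : FP (fun x => gder_tt (f x)) :=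
  FP.tail.comp (FP.tail.comp hf)

theorem gder_consI {f : List Bool → List Bool} (b : Bool) (hf : FP f) : FP (fun x => b :: f x) :=
  (FP.cons b).comp hf

theorem gder_isFI {f : List Bool → List Bool} (hf : FP f) : FPb (fun x => gder_isF (f x)) :=
  FPb.eq hf (gder_consI true (FP.consb (gder_hbI hf) (gder_ttI hf)))

theorem gder_isLI {f : List Bool → List Bool} (hf : FP f) : FPb (fun x => gder_isL (f x)) :=
  FPb.eq hf (gder_consI false ((FP.tail.comp hf).fst.pair (FP.tail.comp hf).snd))

theorem gder_okI {v s item i1 i2 acc : List Bool → List Bool} (hv : FP v) (hs : FP s)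
    (hi : FP item) (h1 : FP i1) (h2 : FP i2) (ha : FP acc) :
    FPb (fun x => gder_ok (v x) (s x) (item x) (i1 x) (i2 x) (acc x)) := by
  have t4 : FP (fun x => (item x).tail.tail.tail.tail) :=
    FP.tail.comp (FP.tail.comp (FP.tail.comp (FP.tail.comp hi)))
  have m1 := FPb.memI h1 ha
  have m2 := FPb.memI h2 ha
  refine (((((FPb.eq hi ?_).or ((m1.and (gder_isFI h1)).and (FPb.eq hi ?_))).or
    (((m1.and m2).and ((gder_isFI h1).and (gder_isFI h2))).and (FPb.eq hi ?_))).or
    ((m1.and (gder_isLI h1)).and (FPb.eq hi ?_))).or (FPb.eq hi (FP.const _))).or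
    (((m1.and m2).and ((gder_isFI h1).and (gder_isLI h2))).and (FPb.eq hi ?_))
  · exact gder_consI true (FP.consb (FPb.memI t4.fst hv) (gder_consI false (gder_consI false
      (t4.fst.pair FP.nil))))
  · exact gder_consI true (FP.consb (gder_hbI h1).not (gder_consI false (gder_consI true
      (gder_ttI h1))))
  · exact gder_consI true (FP.consb ((gder_hbI h1).not.or (gder_hbI h2)) (gder_consI true
      (gder_consI false (FP.app (gder_ttI h1) (gder_ttI h2)))))
  · exact gder_consI true (FP.consb (FPb.memI (FP.tail.comp h1).fst hs) (gder_consI true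
      (gder_consI true (FP.tail.comp h1).snd)))
  · exact gder_consI false ((FP.consb (gder_hbI h1) (FP.tail.comp h2).fst).pair
      (gder_consI true (FP.app (gder_ttI h1) (FP.tail.comp h2).snd)))

/-- one step of the checker, parameter `pr v s`, state `pr rest acc` -/
def gder_step (p z : List Bool) : List Bool :=
  if (fs z).isEmpty then z else
  if gder_ok (fs p) (sn p) (fs (fs (fs z))) (fs (sn (fs (fs z)))) (sn (sn (fs (fs z)))) (sn z)
  then pr (sn (fs z)) (pr (fs (fs (fs z))) (sn z))
  else pr (sn (fs z)) (sn z)

theorem gder_stepI : FP (fun w => gder_step (fs w) (sn w)) := by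
  have hz : FP (fun w => sn w) := FP.snI
  have hp : FP (fun w => fs w) := FP.fsI
  exact FP.ite (FPb.isNil.comp hz.fst) hz
    (FP.ite (gder_okI hp.fst hp.snd hz.fst.fst.fst hz.fst.fst.snd.fst hz.fst.fst.snd.snd hz.snd)
      (hz.fst.snd.pair (hz.fst.fst.fst.pair hz.snd)) (hz.fst.snd.pair hz.snd))

theorem gder_step_length (p z : List Bool) : (gder_step p z).length ≤ z.length + 2 := by
  have h1 := fs_sn_length z
  have h2 := fs_sn_length (fs z)
  have h3 := fs_sn_length (fs (fs z))
  unfold gder_step
  split_ifs
  · omega
  · rw [pr_length, pr_length]; omega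
  · rw [pr_length]; omega

theorem gder_iter_length (p : List Bool) (i : ℕ) : ∀ z : List Bool,
    ((gder_step p)^[i] z).length ≤ z.length + 2 * i := by
  induction i with
  | zero => intro z; simp
  | succ i ih =>
    intro z
    rw [Function.iterate_succ_apply]
    have := ih (gder_step p z)
    have := gder_step_length p z
    omega

/-- the checker -/
def gder (w : List Bool) : Bool :=
  memS (true :: sn (sn w)) (sn ((gder_step (fs w))^[(fs (sn w)).length] (pr (fs (sn w)) [])))

theorem gder_FPb : FPb gder := by
  have hy : FP (fun w => fs (sn w)) := FP.fsI.comp FP.snI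
  have h1 : FP (fun w => (gder_step (fs w))^[(fs (sn w)).length] (pr (fs (sn w)) [])) := by
    refine FP.iterc gder_stepI FP.fsI hy (hy.pair FP.nil) (4 * X + 1) (fun w i hi => ?_)
    have := gder_iter_length (fs w) i (pr (fs (sn w)) [])
    rw [pr_length] at this
    have h2 := fs_length (sn w)
    have h3 := sn_length w
    simp only [eval_add, eval_mul, eval_X, eval_one, eval_ofNat, List.length_nil] at this ⊢
    omega
  exact FPb.memI (gder_consI true (FP.snI.comp FP.snI)) h1.snd

/-! ### abstract runs -/

/-- abstract run -/
def gder_run (v s : List Bool) : List (List Bool) → List (List Bool) → List (List Bool)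
  | [], A => A
  | e :: E, A => gder_run v s E
      (if gder_ok v s (fs e) (fs (sn e)) (sn (sn e)) (encL A) then fs e :: A else A)

theorem gder_run_append (v s : List Bool) (E F A : List (List Bool)) :
    gder_run v s (E ++ F) A = gder_run v s F (gder_run v s E A) := by
  induction E generalizing A with
  | nil => rfl
  | cons e E ih => rw [List.cons_append, gder_run, gder_run, ih]

theorem gder_run_sub (v s : List Bool) (E A : List (List Bool)) :
    ∀ x ∈ A, x ∈ gder_run v s E A := by
  induction E generalizing A with
  | nil => intro x hx; exact hx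
  | cons e E ih =>
    intro x hx
    rw [gder_run]
    apply ih
    split_ifs
    · exact List.mem_cons_of_mem _ hx
    · exact hx

theorem gder_iter (v s : List Bool) (n : ℕ) : ∀ E A : List (List Bool), E.length ≤ n →
    (gder_step (pr v s))^[n] (pr (encL E) (encL A)) = pr [] (encL (gder_run v s E A)) := by
  induction n with
  | zero =>
    intro E A h
    have : E = [] := List.length_eq_zero_iff.mp (by omega)
    subst this; rfl
  | succ n ih =>
    intro E A h
    rw [Function.iterate_succ_apply]
    cases E with
    | nil =>
      have e : gder_step (pr v s) (pr (encL []) (encL A)) = pr (encL []) (encL A) := by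
        unfold gder_step; simp
      rw [e, ih [] A (by simp)]
    | cons e E =>
      have e1 : gder_step (pr v s) (pr (encL (e :: E)) (encL A)) = pr (encL E) (encL
          (if gder_ok v s (fs e) (fs (sn e)) (sn (sn e)) (encL A) then fs e :: A else A)) := by
        unfold gder_step
        rw [fs_pr, sn_pr, encL_isEmpty]
        simp only [List.isEmpty_cons, Bool.false_eq_true, if_false, encL_cons, fs_pr, sn_pr]
        split_ifs <;> simp
      rw [e1, ih E _ (by simpa using h), gder_run]

/-! ### soundness -/

/-- correct items -/
def gder_cor (R V : List Bool → Bool) (i : List Bool) : Prop :=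
  (∃ φ : OForm, i = true :: φ.eval R V :: φ.code) ∨
    ∃ a : OForms, i = false :: pr (a.evals R V) a.codes

theorem gder_cor_F {R V : List Bool → Bool} {i : List Bool} (h : gder_cor R V i)
    (hF : gder_isF i = true) : ∃ φ : OForm, gder_hb i = φ.eval R V ∧ gder_tt i = φ.code := by
  unfold gder_isF at hF
  rw [decide_eq_true_eq] at hF
  rcases h with ⟨φ, h⟩ | ⟨a, h⟩
  · refine ⟨φ, ?_, ?_⟩
    · rw [h]; rfl
    · rw [h]; rfl
  · rw [hF] at h
    exact absurd (List.cons.inj h).1 (by decide)

theorem gder_cor_L {R V : List Bool → Bool} {i : List Bool} (h : gder_cor R V i)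
    (hL : gder_isL i = true) : ∃ a : OForms, fs i.tail = a.evals R V ∧ sn i.tail = a.codes := by
  unfold gder_isL at hL
  rw [decide_eq_true_eq] at hL
  rcases h with ⟨φ, h⟩ | ⟨a, h⟩
  · rw [hL] at h
    exact absurd (List.cons.inj h).1 (by decide)
  · refine ⟨a, ?_, ?_⟩
    · rw [h]; simp
    · rw [h]; simp

theorem gder_ok_cor (v s item i1 i2 : List Bool) (A : List (List Bool))
    (hA : ∀ x ∈ A, gder_cor (fun x => memS x s) (fun x => memS x v) x)
    (h : gder_ok v s item i1 i2 (encL A) = true) :
    gder_cor (fun x => memS x s) (fun x => memS x v) item := by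
  unfold gder_ok at h
  simp only [Bool.or_eq_true, Bool.and_eq_true, decide_eq_true_eq, memS_eq] at h
  rcases h with ((((h | h) | h) | h) | h) | h
  · exact Or.inl ⟨.var (fs item.tail.tail.tail.tail), h⟩
  · obtain ⟨⟨h1, h2⟩, h3⟩ := h
    obtain ⟨φ, e1, e2⟩ := gder_cor_F (hA _ h1) h2
    refine Or.inl ⟨.neg φ, ?_⟩
    rw [h3, e1, e2]; rfl
  · obtain ⟨⟨⟨h1, h1'⟩, h2, h2'⟩, h3⟩ := h
    obtain ⟨φ, e1, e2⟩ := gder_cor_F (hA _ h1) h2
    obtain ⟨ψ, e3, e4⟩ := gder_cor_F (hA _ h1') h2'
    refine Or.inl ⟨.imp φ ψ, ?_⟩
    rw [h3, e1, e2, e3, e4]; rfl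
  · obtain ⟨⟨h1, h2⟩, h3⟩ := h
    obtain ⟨a, e1, e2⟩ := gder_cor_L (hA _ h1) h2
    refine Or.inl ⟨.orc a, ?_⟩
    rw [h3, e1, e2]; rfl
  · exact Or.inr ⟨.nil, h⟩
  · obtain ⟨⟨⟨h1, h1'⟩, h2, h2'⟩, h3⟩ := h
    obtain ⟨φ, e1, e2⟩ := gder_cor_F (hA _ h1) h2
    obtain ⟨a, e3, e4⟩ := gder_cor_L (hA _ h1') h2'
    refine Or.inr ⟨.cons φ a, ?_⟩
    rw [h3, e1, e2, e3, e4]; rfl

theorem gder_sound_iter (v s : List Bool) (n : ℕ) : ∀ (r : List Bool) (A : List (List Bool)),
    (∀ x ∈ A, gder_cor (fun x => memS x s) (fun x => memS x v) x) →
    ∃ (r' : List Bool) (A' : List (List Bool)),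
      (gder_step (pr v s))^[n] (pr r (encL A)) = pr r' (encL A') ∧
      ∀ x ∈ A', gder_cor (fun x => memS x s) (fun x => memS x v) x := by
  induction n with
  | zero => intro r A hA; exact ⟨r, A, rfl, hA⟩
  | succ n ih =>
    intro r A hA
    rw [Function.iterate_succ_apply]
    have hstep : ∃ (r' : List Bool) (A' : List (List Bool)),
        gder_step (pr v s) (pr r (encL A)) = pr r' (encL A') ∧
        ∀ x ∈ A', gder_cor (fun x => memS x s) (fun x => memS x v) x := by
      unfold gder_step
      simp only [fs_pr, sn_pr]
      split_ifs with h1 h2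
      · exact ⟨r, A, rfl, hA⟩
      · refine ⟨sn r, fs (fs r) :: A, rfl, ?_⟩
        intro x hx
        rcases List.mem_cons.1 hx with rfl | hx
        · exact gder_ok_cor v s _ _ _ A hA h2
        · exact hA x hx
      · exact ⟨sn r, A, rfl, hA⟩
    obtain ⟨r', A', e1, e2⟩ := hstep
    rw [e1]
    exact ih r' A' e2

theorem gder_sound (v s y : List Bool) (b : Bool) (c : List Bool)
    (h : gder (pr (pr v s) (pr y (b :: c))) = true) :
    ∃ φ : OForm, φ.code = c ∧ φ.eval (fun x => memS x s) (fun x => memS x v) = b := by
  unfold gder at h
  simp only [fs_pr, sn_pr] at h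
  obtain ⟨r', A', e1, e2⟩ := gder_sound_iter v s y.length y [] (by simp)
  rw [encL_nil] at e1
  rw [e1, sn_pr, memS_eq, decide_eq_true_eq] at h
  rcases e2 _ h with ⟨φ, h⟩ | ⟨a, h⟩
  · have h1 := (List.cons.inj h).2
    have h2 := List.cons.inj h1
    exact ⟨φ, h2.2.symm, h2.1.symm⟩
  · exact absurd (List.cons.inj h).1 (by decide)

/-! ### completeness -/

/-- item of a formula -/
def OForm.item (R V : List Bool → Bool) (φ : OForm) : List Bool := true :: φ.eval R V :: φ.code

/-- item of a sequence -/
def OForms.item (R V : List Bool → Bool) (a : OForms) : List Bool :=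
  false :: pr (a.evals R V) a.codes

mutual

/-- entries of the certificate of a formula -/
def OForm.cert (R V : List Bool → Bool) : OForm → List (List Bool)
  | .var n => [pr (OForm.item R V (.var n)) (pr [] [])]
  | .neg φ => φ.cert R V ++ [pr (OForm.item R V (.neg φ)) (pr (φ.item R V) [])]
  | .imp φ ψ => φ.cert R V ++ (ψ.cert R V ++
      [pr (OForm.item R V (.imp φ ψ)) (pr (φ.item R V) (ψ.item R V))])
  | .orc a => a.certs R V ++ [pr (OForm.item R V (.orc a)) (pr (a.item R V) [])]

/-- entries of the certificate of a sequence -/
def OForms.certs (R V : List Bool → Bool) : OForms → List (List Bool)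
  | .nil => [pr (OForms.item R V .nil) (pr [] [])]
  | .cons φ a => φ.cert R V ++ (a.certs R V ++
      [pr (OForms.item R V (.cons φ a)) (pr (φ.item R V) (a.item R V))])

end

theorem gder_isF_item (R V : List Bool → Bool) (φ : OForm) : gder_isF (φ.item R V) = true := by
  unfold gder_isF
  rw [decide_eq_true_eq]
  rfl

theorem gder_isL_item (R V : List Bool → Bool) (a : OForms) : gder_isL (a.item R V) = true := by
  unfold gder_isL
  rw [decide_eq_true_eq]
  simp [OForms.item]

theorem gder_run_last (v s : List Bool) (A : List (List Bool)) (item i1 i2 : List Bool)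
    (h : gder_ok v s item i1 i2 (encL A) = true) :
    item ∈ gder_run v s [pr item (pr i1 i2)] A := by
  rw [gder_run, gder_run]
  simp only [fs_pr, sn_pr]
  rw [if_pos h]
  exact List.mem_cons_self

mutual

theorem gder_complete (v s : List Bool) : ∀ (φ : OForm) (A : List (List Bool)),
    φ.item (fun x => memS x s) (fun x => memS x v) ∈
      gder_run v s (φ.cert (fun x => memS x s) (fun x => memS x v)) A
  | .var n, A => by
    rw [OForm.cert]
    apply gder_run_last
    unfold gder_ok
    simp only [Bool.or_eq_true, decide_eq_true_eq]
    refine Or.inl (Or.inl (Or.inl (Or.inl (Or.inl ?_))))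
    simp [OForm.item, OForm.eval, OForm.code]
  | .neg φ, A => by
    rw [OForm.cert, gder_run_append]
    apply gder_run_last
    have h1 := gder_complete v s φ A
    unfold gder_ok
    simp only [Bool.or_eq_true, Bool.and_eq_true, decide_eq_true_eq, memS_eq]
    refine Or.inl (Or.inl (Or.inl (Or.inl (Or.inr ⟨⟨h1, gder_isF_item _ _ φ⟩, ?_⟩))))
    simp [OForm.item, OForm.eval, OForm.code, gder_hb, gder_tt]
  | .imp φ ψ, A => by
    rw [OForm.cert, gder_run_append, gder_run_append]
    apply gder_run_last
    have h1 := gder_run_sub v s (ψ.cert (fun x => memS x s) (fun x => memS x v)) _ _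
      (gder_complete v s φ A)
    have h2 := gder_complete v s ψ (gder_run v s (φ.cert (fun x => memS x s)
      (fun x => memS x v)) A)
    unfold gder_ok
    simp only [Bool.or_eq_true, Bool.and_eq_true, decide_eq_true_eq, memS_eq]
    refine Or.inl (Or.inl (Or.inl (Or.inr ⟨⟨⟨h1, h2⟩, gder_isF_item _ _ φ,
      gder_isF_item _ _ ψ⟩, ?_⟩)))
    simp [OForm.item, OForm.eval, OForm.code, gder_hb, gder_tt]
  | .orc a, A => by
    rw [OForm.cert, gder_run_append]
    apply gder_run_last
    have h1 := gder_completes v s a A
    unfold gder_ok
    simp only [Bool.or_eq_true, Bool.and_eq_true, decide_eq_true_eq, memS_eq]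
    refine Or.inl (Or.inl (Or.inr ⟨⟨h1, gder_isL_item _ _ a⟩, ?_⟩))
    simp [OForm.item, OForms.item, OForm.eval, OForm.code]

theorem gder_completes (v s : List Bool) : ∀ (a : OForms) (A : List (List Bool)),
    a.item (fun x => memS x s) (fun x => memS x v) ∈
      gder_run v s (a.certs (fun x => memS x s) (fun x => memS x v)) A
  | .nil, A => by
    rw [OForms.certs]
    apply gder_run_last
    unfold gder_ok
    simp only [Bool.or_eq_true, decide_eq_true_eq]
    refine Or.inl (Or.inr ?_)
    simp [OForms.item, OForms.evals, OForms.codes]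
  | .cons φ a, A => by
    rw [OForms.certs, gder_run_append, gder_run_append]
    apply gder_run_last
    have h1 := gder_run_sub v s (a.certs (fun x => memS x s) (fun x => memS x v)) _ _
      (gder_complete v s φ A)
    have h2 := gder_completes v s a (gder_run v s (φ.cert (fun x => memS x s)
      (fun x => memS x v)) A)
    unfold gder_ok
    simp only [Bool.or_eq_true, Bool.and_eq_true, decide_eq_true_eq, memS_eq]
    refine Or.inr ⟨⟨⟨h1, h2⟩, gder_isF_item _ _ φ, gder_isL_item _ _ a⟩, ?_⟩
    simp [OForm.item, OForms.item, OForms.evals, OForms.codes, gder_hb, gder_tt]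

end

/-! ### lengths -/

mutual

theorem gder_cert_num (R V : List Bool → Bool) : ∀ φ : OForm,
    (φ.cert R V).length ≤ φ.code.length
  | .var n => by simp [OForm.cert, OForm.code]
  | .neg φ => by
    have := gder_cert_num R V φ
    simp only [OForm.cert, OForm.code, List.length_append, List.length_cons, List.length_nil]
    omega
  | .imp φ ψ => by
    have := gder_cert_num R V φ
    have := gder_cert_num R V ψ
    simp only [OForm.cert, OForm.code, List.length_append, List.length_cons, List.length_nil]
    omega
  | .orc a => by
    have := gder_certs_num R V a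
    simp only [OForm.cert, OForm.code, List.length_append, List.length_cons, List.length_nil]
    omega

theorem gder_certs_num (R V : List Bool → Bool) : ∀ a : OForms,
    (a.certs R V).length ≤ a.codes.length
  | .nil => by simp [OForms.certs, OForms.codes]
  | .cons φ a => by
    have := gder_cert_num R V φ
    have := gder_certs_num R V a
    simp only [OForms.certs, OForms.codes, List.length_append, List.length_cons, List.length_nil]
    omega

end

theorem gder_evals_length (R V : List Bool → Bool) : ∀ a : OForms,
    (a.evals R V).length + 1 ≤ a.codes.length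
  | .nil => by simp [OForms.evals, OForms.codes]
  | .cons φ a => by
    have := gder_evals_length R V a
    simp only [OForms.evals, OForms.codes, List.length_append, List.length_cons]
    omega

theorem gder_item_length (R V : List Bool → Bool) (φ : OForm) :
    (φ.item R V).length = φ.code.length + 2 := by
  simp [OForm.item]

theorem gder_items_length (R V : List Bool → Bool) (a : OForms) :
    (a.item R V).length ≤ 3 * a.codes.length := by
  have := gder_evals_length R V a
  simp only [OForms.item, List.length_cons, pr_length]
  omega

mutual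

theorem gder_cert_len (R V : List Bool → Bool) : ∀ φ : OForm, ∀ e ∈ φ.cert R V,
    e.length ≤ 15 * φ.code.length + 12
  | .var n, e, he => by
    rw [OForm.cert, List.mem_singleton] at he
    rw [he, pr_length, gder_item_length]
    simp only [pr_length, List.length_nil]
    omega
  | .neg φ, e, he => by
    rw [OForm.cert, List.mem_append, List.mem_singleton] at he
    have hc : (OForm.neg φ).code.length = φ.code.length + 2 := by
      simp [OForm.code]
    rcases he with he | he
    · have := gder_cert_len R V φ e he
      omega
    · rw [he, pr_length, gder_item_length, pr_length, gder_item_length, List.length_nil, hc]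
      omega
  | .imp φ ψ, e, he => by
    rw [OForm.cert, List.mem_append, List.mem_append, List.mem_singleton] at he
    have hc : (OForm.imp φ ψ).code.length = φ.code.length + ψ.code.length + 2 := by
      simp [OForm.code]
    rcases he with he | he | he
    · have := gder_cert_len R V φ e he
      omega
    · have := gder_cert_len R V ψ e he
      omega
    · rw [he, pr_length, gder_item_length, pr_length, gder_item_length, gder_item_length, hc]
      omega
  | .orc a, e, he => by
    rw [OForm.cert, List.mem_append, List.mem_singleton] at he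
    have hc : (OForm.orc a).code.length = a.codes.length + 2 := by
      simp [OForm.code]
    rcases he with he | he
    · have := gder_certs_len R V a e he
      omega
    · have := gder_items_length R V a
      rw [he, pr_length, gder_item_length, pr_length, List.length_nil, hc]
      omega

theorem gder_certs_len (R V : List Bool → Bool) : ∀ a : OForms, ∀ e ∈ a.certs R V,
    e.length ≤ 15 * a.codes.length + 12
  | .nil, e, he => by
    rw [OForms.certs, List.mem_singleton] at he
    rw [he]
    simp [pr_length, OForms.item, OForms.evals, OForms.codes]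
  | .cons φ a, e, he => by
    rw [OForms.certs, List.mem_append, List.mem_append, List.mem_singleton] at he
    have hc : (OForms.cons φ a).codes.length = φ.code.length + a.codes.length + 1 := by
      simp [OForms.codes]
    rcases he with he | he | he
    · have := gder_cert_len R V φ e he
      omega
    · have := gder_certs_len R V a e he
      omega
    · have h1 := gder_items_length R V a
      have h2 := gder_items_length R V (.cons φ a)
      rw [he, pr_length, pr_length, gder_item_length, hc] at *
      omega

end

theorem gder_encL_len (K : ℕ) (E : List (List Bool)) (h : ∀ e ∈ E, e.length ≤ K) :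
    (encL E).length ≤ E.length * (2 * K + 1) := by
  induction E with
  | nil => simp
  | cons e E ih =>
    have h1 := ih (fun x hx => h x (List.mem_cons_of_mem _ hx))
    have h2 := h e List.mem_cons_self
    rw [encL_cons, pr_length, List.length_cons, Nat.add_mul, Nat.one_mul]
    omega

/-- there is a polynomial-time checker for certified evaluations of oracle formulas: `s` codes the
oracle (`x` is in it iff `memS x s`), `v` the valuation, `y` is the certificate -/
theorem exists_der : ∃ der : List Bool → Bool, FPb der ∧
    (∀ (v s y : List Bool) (b : Bool) (c : List Bool),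
      der (pr (pr v s) (pr y (b :: c))) = true →
        ∃ φ : OForm, φ.code = c ∧ φ.eval (fun x => memS x s) (fun x => memS x v) = b) ∧
    ∃ P : Polynomial ℕ, ∀ (φ : OForm) (v s : List Bool), ∃ y : List Bool,
      y.length ≤ P.eval φ.code.length ∧
      der (pr (pr v s) (pr y (φ.eval (fun x => memS x s) (fun x => memS x v) :: φ.code))) =
        true := by
  refine ⟨gder, gder_FPb, gder_sound, X * (2 * (15 * X + 12) + 1), ?_⟩
  intro φ v s
  refine ⟨encL (φ.cert (fun x => memS x s) (fun x => memS x v)), ?_, ?_⟩
  · have h1 := gder_encL_len _ _ (gder_cert_len (fun x => memS x s) (fun x => memS x v) φ)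
    have h2 := gder_cert_num (fun x => memS x s) (fun x => memS x v) φ
    simp only [eval_add, eval_mul, eval_X, eval_one, eval_ofNat]
    exact h1.trans (Nat.mul_le_mul_right _ h2)
  · unfold gder
    simp only [fs_pr, sn_pr]
    have h1 := gder_iter v s (encL (φ.cert (fun x => memS x s) (fun x => memS x v))).length
      (φ.cert (fun x => memS x s) (fun x => memS x v)) [] (encL_length _)
    rw [encL_nil] at h1
    rw [h1, sn_pr, memS_eq, decide_eq_true_eq]
    exact gder_complete v s φ []

end Pool.Agent.Work.MP_0532f7_lc
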