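import Mathlib
import Pool.Agent.Work.MP_0532f7_lc.OCode
import Pool.Agent.Work.MP_0532f7_lc.OSim

/-!
The embedding of plain formulas into formulas with oracle gates, on codes, in polynomial time.
-/

namespace Pool.Agent.Work.MP_0532f7_lc

open Polynomial

/-- plain formulas as oracle formulas -/
def emb : Form → OForm
  | .var s => .var s
  | .neg φ => .neg (emb φ)
  | .imp φ ψ => .imp (emb φ) (emb ψ)

theorem emb_eval (R v : List Bool → Bool) (φ : Form) : (emb φ).eval R v = φ.eval v := by
  induction φ with
  | var s => simp [emb, OForm.eval, Form.eval]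
  | neg φ ih => simp [emb, OForm.eval, Form.eval, ih]
  | imp φ ψ ih1 ih2 => simp [emb, OForm.eval, Form.eval, ih1, ih2]

/-- code of the default formula -/
def gembC : List Bool := (emb topF).code

/-- top of a coded stack of codes -/
def gembT (st : List Bool) : List Bool := if st.isEmpty then gembC else fs st

theorem gembT_eq (st : List Form) :
    gembT (encL (st.map fun φ => (emb φ).code)) = (emb (st.headD topF)).code := by
  unfold gembT
  rw [encL_isEmpty]
  cases st with
  | nil => rfl
  | cons a st => simp

/-- reconstruction step; the state is `pr tokens stack` -/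
def gembS (z : List Bool) : List Bool :=
  if (fs z).isEmpty then z else
  if (fs (fs z)).isEmpty then
    pr (sn (fs z)) (pr (true :: false :: (gembT (sn z) ++ gembT (sn (sn z)))) (sn (sn (sn z)))) else
  if (fs (fs z)).head?.getD false then
    pr (sn (fs z)) (pr (false :: false :: pr (fs (fs z)).tail []) (sn z)) else
  pr (sn (fs z)) (pr (false :: true :: gembT (sn z)) (sn (sn z)))

theorem gembT_FP {f : List Bool → List Bool} (hf : FP f) : FP (fun x => gembT (f x)) :=
  FP.ite (FPb.isNil.comp hf) (FP.const gembC) hf.fst

theorem gembS_FP : FP gembS := by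
  have h1 := FP.fsI
  have h2 := FP.snI
  have ht := h1.fst
  have hL := h1.snd
  refine FP.ite (FPb.isNil.comp h1) FP.id (FP.ite (FPb.isNil.comp ht) ?_
    (FP.ite (FPb.hd.comp ht) ?_ ?_))
  · exact hL.pair (((FP.cons true).comp ((FP.cons false).comp
      ((gembT_FP h2).app (gembT_FP h2.snd)))).pair h2.snd.snd)
  · exact hL.pair (((FP.cons false).comp ((FP.cons false).comp
      ((FP.tail.comp ht).pair FP.nil))).pair h2)
  · exact hL.pair (((FP.cons false).comp ((FP.cons true).comp (gembT_FP h2))).pair h2.snd)

theorem gembS_eq (t : List Bool) (L : List (List Bool)) (st : List Form) :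
    gembS (pr (encL (t :: L)) (encL (st.map fun φ => (emb φ).code))) =
      pr (encL L) (encL ((spush Form.var Form.neg Form.imp topF t st).map
        fun φ => (emb φ).code)) := by
  unfold gembS
  rw [fs_pr, sn_pr, encL_isEmpty]
  have e1 : sn (encL (st.map fun φ => (emb φ).code)) =
      encL (st.tail.map fun φ => (emb φ).code) := by
    cases st <;> simp
  have e2 : sn (encL (st.tail.map fun φ => (emb φ).code)) =
      encL (st.tail.tail.map fun φ => (emb φ).code) := by
    cases st.tail <;> simp
  simp only [List.isEmpty_cons, encL_cons, fs_pr, sn_pr, e1, e2, gembT_eq]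
  match t with
  | [] => simp [spush, emb, OForm.code]
  | true :: t => simp [spush, emb, OForm.code]
  | false :: t => simp [spush, emb, OForm.code]

theorem gembS_iter (n : ℕ) : ∀ (L : List (List Bool)) (st : List Form), L.length ≤ n →
    gembS^[n] (pr (encL L) (encL (st.map fun φ => (emb φ).code))) =
      pr [] (encL ((srun Form.var Form.neg Form.imp topF L st).map fun φ => (emb φ).code)) := by
  induction n with
  | zero =>
    intro L st h
    have : L = [] := List.length_eq_zero_iff.mp (by omega)
    subst this; rfl
  | succ n ih =>
    intro L st h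
    rw [Function.iterate_succ_apply]
    cases L with
    | nil =>
      have e : gembS (pr (encL []) (encL (st.map fun φ => (emb φ).code))) =
          pr (encL []) (encL (st.map fun φ => (emb φ).code)) := by
        unfold gembS; simp
      rw [e, ih [] st (by simp)]
    | cons t L =>
      rw [gembS_eq, ih L _ (by simpa using h)]
      rfl

theorem gembT_length (st : List Bool) : (gembT st).length ≤ 8 + (fs st).length := by
  unfold gembT
  split_ifs
  · have : gembC.length = 8 := by simp [gembC, topF, emb, OForm.code, pr]
    omega
  · omega

theorem gembS_length (z : List Bool) : (gembS z).length ≤ z.length + 50 := by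
  have hz := fs_sn_length z
  have h1 := fs_sn_length (fs z)
  have h2 := fs_sn_length (sn z)
  have h3 := fs_sn_length (sn (sn z))
  have h4 := gembT_length (sn z)
  have h5 := gembT_length (sn (sn z))
  unfold gembS
  split_ifs with ha hb hc
  · omega
  · rw [pr_length, pr_length]
    simp only [List.length_cons, List.length_append]; omega
  · rw [pr_length, pr_length]
    simp only [List.length_cons, pr_length, List.length_tail, List.length_nil]; omega
  · rw [pr_length, pr_length]
    simp only [List.length_cons]; omega

/-- the oracle code of the parsed formula -/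
def gembE (w : List Bool) : List Bool :=
  gembT (sn (gembS^[(toksS w).length] (pr (toksS w) [])))

theorem gembE_eq (w : List Bool) : gembE w = (emb (parse w)).code := by
  unfold gembE parse
  rw [toksS_eq]
  have := gembS_iter (encL (revtoks w)).length (revtoks w) [] (encL_length _)
  rw [List.map_nil, encL_nil] at this
  rw [this, sn_pr, gembT_eq]

theorem gembE_FP : FP gembE := by
  have hlen : ∀ (i : ℕ) z, (gembS^[i] z).length ≤ z.length + i * 50 := by
    intro i; induction i with
    | zero => intro z; simp
    | succ i ih =>
      intro z; rw [Function.iterate_succ_apply]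
      have := ih (gembS z)
      have := gembS_length z
      omega
  obtain ⟨Q, hQ⟩ := FP.toksI.length
  refine gembT_FP (FP.snd (FP.iter gembS_FP (c := toksS) (g := fun x => pr (toksS x) []) FP.toksI
    (FP.toksI.pair FP.nil) (2 * Q + 1 + Q * 50) (fun x i hi => ?_)))
  refine (hlen i _).trans ?_
  rw [pr_length]
  have := hQ x
  have h6 : i * 50 ≤ Q.eval x.length * 50 := Nat.mul_le_mul_right _ (hi.trans this)
  simp only [List.length_nil, eval_add, eval_mul, eval_ofNat, eval_one]
  omega

theorem exists_embCode : ∃ e : List Bool → List Bool, FP e ∧
    ∀ φ : Form, e φ.code = (emb φ).code :=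
  ⟨gembE, gembE_FP, fun φ => by rw [gembE_eq, parse_code]⟩

end Pool.Agent.Work.MP_0532f7_lc
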