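import Mathlib
import Pool.Agent.Work.MP_0532f7_lc.OCode
import Pool.Agent.Work.MP_0532f7_lc.OSim

/-!
Finite support of formulas with oracle gates.
-/

namespace Pool.Agent.Work.MP_0532f7_lc

open Polynomial

mutual

/-- the words asked in the evaluation of a formula -/
def gfin_asked (R u : List Bool → Bool) : OForm → List (List Bool)
  | .var _ => []
  | .neg φ => gfin_asked R u φ
  | .imp φ ψ => gfin_asked R u φ ++ gfin_asked R u ψ
  | .orc args => args.evals R u :: gfin_askeds R u args

/-- the words asked in the evaluation of a sequence of formulas -/
def gfin_askeds (R u : List Bool → Bool) : OForms → List (List Bool)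
  | .nil => []
  | .cons φ args => gfin_asked R u φ ++ gfin_askeds R u args

end

mutual

/-- the variables of a formula -/
def gfin_vars : OForm → List (List Bool)
  | .var s => [s]
  | .neg φ => gfin_vars φ
  | .imp φ ψ => gfin_vars φ ++ gfin_vars ψ
  | .orc args => gfin_varss args

/-- the variables of a sequence of formulas -/
def gfin_varss : OForms → List (List Bool)
  | .nil => []
  | .cons φ args => gfin_vars φ ++ gfin_varss args

end

theorem gfin_encL_append (A B : List (List Bool)) :
    (encL (A ++ B)).length = (encL A).length + (encL B).length := by
  induction A with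
  | nil => simp
  | cons a A ih => simp only [List.cons_append, encL_cons, pr_length, ih]; omega

theorem gfin_encL_filter (p : List Bool → Bool) (A : List (List Bool)) :
    (encL (A.filter p)).length ≤ (encL A).length := by
  induction A with
  | nil => simp
  | cons a A ih =>
    rw [List.filter_cons]
    split_ifs
    · simp only [encL_cons, pr_length]; omega
    · simp only [encL_cons, pr_length]; omega

mutual

theorem gfin_asked_length (R u : List Bool → Bool) : ∀ φ : OForm,
    (encL (gfin_asked R u φ)).length ≤ 2 * φ.code.length
  | .var s => by simp [gfin_asked]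
  | .neg φ => by
    have := gfin_asked_length R u φ
    simp only [gfin_asked, OForm.code, List.length_cons]
    omega
  | .imp φ ψ => by
    have h1 := gfin_asked_length R u φ
    have h2 := gfin_asked_length R u ψ
    simp only [gfin_asked, OForm.code, List.length_cons, List.length_append, gfin_encL_append]
    omega
  | .orc args => by
    have h1 := gfin_askeds_length R u args
    simp only [gfin_asked, OForm.code, List.length_cons, encL_cons, pr_length]
    omega

theorem gfin_askeds_length (R u : List Bool → Bool) : ∀ l : OForms,
    (encL (gfin_askeds R u l)).length + 2 * (l.evals R u).length ≤ 2 * l.codes.length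
  | .nil => by simp [gfin_askeds, OForms.evals, OForms.codes]
  | .cons φ args => by
    have h1 := gfin_asked_length R u φ
    have h2 := gfin_askeds_length R u args
    simp only [gfin_askeds, OForms.evals, OForms.codes, List.length_cons, List.length_append,
      gfin_encL_append]
    omega

end

mutual

theorem gfin_vars_length : ∀ φ : OForm, (encL (gfin_vars φ)).length ≤ φ.code.length
  | .var s => by
    simp only [gfin_vars, OForm.code, encL_cons, encL_nil, pr_length, List.length_cons,
      List.length_nil]
    omega
  | .neg φ => by
    have := gfin_vars_length φ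
    simp only [gfin_vars, OForm.code, List.length_cons]
    omega
  | .imp φ ψ => by
    have h1 := gfin_vars_length φ
    have h2 := gfin_vars_length ψ
    simp only [gfin_vars, OForm.code, List.length_cons, List.length_append, gfin_encL_append]
    omega
  | .orc args => by
    have h1 := gfin_varss_length args
    simp only [gfin_vars, OForm.code, List.length_cons]
    omega

theorem gfin_varss_length : ∀ l : OForms, (encL (gfin_varss l)).length ≤ l.codes.length
  | .nil => by simp [gfin_varss, OForms.codes]
  | .cons φ args => by
    have h1 := gfin_vars_length φ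
    have h2 := gfin_varss_length args
    simp only [gfin_varss, OForms.codes, List.length_cons, List.length_append, gfin_encL_append]
    omega

end

mutual

theorem gfin_eval (R u R' u' : List Bool → Bool) : ∀ φ : OForm,
    (∀ x ∈ gfin_asked R u φ, R' x = R x) → (∀ x ∈ gfin_vars φ, u' x = u x) →
      φ.eval R' u' = φ.eval R u
  | .var s => fun _ h2 => by
    simp only [OForm.eval]
    exact h2 s (by simp [gfin_vars])
  | .neg φ => fun h1 h2 => by
    simp only [OForm.eval]
    rw [gfin_eval R u R' u' φ (by simpa [gfin_asked] using h1) (by simpa [gfin_vars] using h2)]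
  | .imp φ ψ => fun h1 h2 => by
    simp only [gfin_asked, gfin_vars, List.mem_append] at h1 h2
    simp only [OForm.eval]
    rw [gfin_eval R u R' u' φ (fun x hx => h1 x (Or.inl hx)) (fun x hx => h2 x (Or.inl hx)),
      gfin_eval R u R' u' ψ (fun x hx => h1 x (Or.inr hx)) (fun x hx => h2 x (Or.inr hx))]
  | .orc args => fun h1 h2 => by
    simp only [gfin_asked, gfin_vars, List.mem_cons] at h1 h2
    simp only [OForm.eval]
    rw [gfin_evals R u R' u' args (fun x hx => h1 x (Or.inr hx)) h2]
    exact h1 _ (Or.inl rfl)

theorem gfin_evals (R u R' u' : List Bool → Bool) : ∀ l : OForms,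
    (∀ x ∈ gfin_askeds R u l, R' x = R x) → (∀ x ∈ gfin_varss l, u' x = u x) →
      l.evals R' u' = l.evals R u
  | .nil => fun _ _ => rfl
  | .cons φ args => fun h1 h2 => by
    simp only [gfin_askeds, gfin_varss, List.mem_append] at h1 h2
    simp only [OForms.evals]
    rw [gfin_eval R u R' u' φ (fun x hx => h1 x (Or.inl hx)) (fun x hx => h2 x (Or.inl hx)),
      gfin_evals R u R' u' args (fun x hx => h1 x (Or.inr hx)) (fun x hx => h2 x (Or.inr hx))]

end

theorem gfin_mem_length (A : List (List Bool)) (x : List Bool) (hx : x ∈ A) :
    2 * x.length + 1 ≤ (encL A).length := by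
  induction A with
  | nil => simp at hx
  | cons a A ih =>
    rcases List.mem_cons.1 hx with h | h
    · subst h; simp only [encL_cons, pr_length]; omega
    · have := ih h; simp only [encL_cons, pr_length]; omega

/-- the value depends only on short words of the oracle -/
theorem eval_len (φ : OForm) (R R' u : List Bool → Bool)
    (h : ∀ x : List Bool, x.length ≤ φ.code.length → R x = R' x) :
    φ.eval R u = φ.eval R' u := by
  refine (gfin_eval R u R' u φ (fun x hx => (h x ?_).symm) (fun _ _ => rfl)).symm
  have h1 := gfin_mem_length _ x hx
  have h2 := gfin_asked_length R u φ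
  omega

/-- finite support of polynomial size: `S` lists the words of the oracle that are asked with
positive answer, `V` the true variables -/
theorem finite_support : ∃ P : Polynomial ℕ, ∀ (φ : OForm) (R u : List Bool → Bool),
    ∃ S V : List (List Bool), (encL S).length ≤ P.eval φ.code.length ∧
      (encL V).length ≤ P.eval φ.code.length ∧ (∀ x ∈ S, R x = true) ∧
      ∀ S' : List (List Bool), (∀ x ∈ S, x ∈ S') → (∀ x ∈ S', R x = true) →
        φ.eval (fun x => decide (x ∈ S')) (fun x => decide (x ∈ V)) = φ.eval R u := by
  refine ⟨2 * X, fun φ R u => ⟨(gfin_asked R u φ).filter R, (gfin_vars φ).filter u, ?_, ?_, ?_,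
    ?_⟩⟩
  · have h1 := gfin_encL_filter R (gfin_asked R u φ)
    have h2 := gfin_asked_length R u φ
    simp only [eval_mul, eval_ofNat, eval_X]
    omega
  · have h1 := gfin_encL_filter u (gfin_vars φ)
    have h2 := gfin_vars_length φ
    simp only [eval_mul, eval_ofNat, eval_X]
    omega
  · intro x hx
    exact (List.mem_filter.1 hx).2
  · intro S' h1 h2
    refine gfin_eval R u _ _ φ (fun x hx => ?_) (fun x hx => ?_)
    · by_cases hR : R x = true
      · rw [hR]
        exact decide_eq_true (h1 x (List.mem_filter.2 ⟨hx, hR⟩))
      · have : x ∉ S' := fun h => hR (h2 x h)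
        rw [Bool.not_eq_true] at hR
        rw [hR]
        exact decide_eq_false this
    · by_cases hR : u x = true
      · rw [hR]
        exact decide_eq_true (List.mem_filter.2 ⟨hx, hR⟩)
      · have : x ∉ (gfin_vars φ).filter u := fun h => hR (List.mem_filter.1 h).2
        rw [Bool.not_eq_true] at hR
        rw [hR]
        exact decide_eq_false this

end Pool.Agent.Work.MP_0532f7_lc
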