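import Mathlib
import Pool.Agent.Work.MP_0532f7_lc.OracleDefs
import Pool.Agent.Work.MP_0532f7_lc.Clock

/-!
There are countably many polynomial-time computable functions.
-/

namespace Pool.Agent.Work.MP_0532f7_lc

deriving instance Encodable for Prog

theorem Run.ocnt_det {p : Prog} {s s' : Store} {n : ℕ} (h : Run p s s' n) :
    ∀ {s'' : Store} {m : ℕ}, Run p s s'' m → s' = s'' := by
  induction h with
  | skip s => intro s'' m h'; cases h'; rfl
  | push r b s => intro s'' m h'; cases h'; rfl
  | pop r s => intro s'' m h'; cases h'; rfl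
  | seq _ _ ih1 ih2 =>
    intro s'' m h'
    cases h' with
    | seq h1 h2 =>
      have e := ih1 h1
      subst e
      exact ih2 h2
  | condN h0 _ ih =>
    intro s'' m h'
    cases h' with
    | condN h1 h2 => exact ih h2
    | condF h1 h2 => simp [h0] at h1
    | condT h1 h2 => simp [h0] at h1
  | condF h0 _ ih =>
    intro s'' m h'
    cases h' with
    | condN h1 h2 => simp [h0] at h1
    | condF h1 h2 => exact ih h2
    | condT h1 h2 => simp [h0] at h1
  | condT h0 _ ih =>
    intro s'' m h'
    cases h' with
    | condN h1 h2 => simp [h0] at h1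
    | condF h1 h2 => simp [h0] at h1
    | condT h1 h2 => exact ih h2
  | loopN h0 =>
    intro s'' m h'
    cases h' with
    | loopN h1 => rfl
    | loopS h1 h2 h3 => exact absurd h0 h1
  | loopS h0 _ _ ih1 ih2 =>
    intro s'' m h'
    cases h' with
    | loopN h1 => exact absurd h1 h0
    | loopS h1 h2 h3 =>
      have e := ih1 h2
      subst e
      exact ih2 h3

/-- there are countably many polynomial-time functions -/
theorem countable_polyTime : {f : List Bool → List Bool | PolyTime f}.Countable := by
  classical
  have key : ∀ f : {f : List Bool → List Bool | PolyTime f}, ∃ p : Prog,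
      ∀ x, ∃ n, Run p (inp x) (inp (f.1 x)) n := by
    intro f
    obtain ⟨p, P, hp⟩ := PolyTime.fp f.2
    refine ⟨p, fun x => ?_⟩
    obtain ⟨m, -, hr⟩ := hp x
    exact ⟨m, hr⟩
  choose g hg using key
  have hinj : Function.Injective g := by
    intro f f' he
    apply Subtype.ext
    funext x
    obtain ⟨n, h1⟩ := hg f x
    obtain ⟨m, h2⟩ := hg f' x
    rw [← he] at h2
    have h3 := Run.ocnt_det h1 h2
    have h4 := congrFun h3 0
    simpa [inp] using h4
  rw [← Set.countable_coe_iff]
  exact hinj.countable

end Pool.Agent.Work.MP_0532f7_lc
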