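import Mathlib
import Pool.Agent.Work.MP_0532f7_lc.OracleDefs
import Pool.Agent.Work.MP_0532f7_lc.OutAdv

/-!
Planting zeros in a random oracle (pure measure theory in the product measure).
-/

namespace Pool.Agent.Work.MP_0532f7_lc

open MeasureTheory

instance instOrcProb : IsProbabilityMeasure randomOracle := by
  unfold randomOracle; infer_instance

/-- put the value 0 on `S` -/
def zeroOn (S : Finset (List Bool)) (R : List Bool → Bool) : List Bool → Bool :=
  fun y => if y ∈ S then false else R y

/-- sets determined by finitely many words are measurable -/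
theorem meas_of_dep (S : Finset (List Bool)) (W : Set (List Bool → Bool))
    (h : ∀ R R' : List Bool → Bool, (∀ y ∈ S, R y = R' y) → R ∈ W → R' ∈ W) :
    MeasurableSet W := by
  have h1 : W = S.restrict ⁻¹' (S.restrict '' W) := by
    apply Set.Subset.antisymm (Set.subset_preimage_image _ _)
    rintro R' ⟨R, hR, he⟩
    refine h R R' (fun y hy => ?_) hR
    have := congrFun he ⟨y, hy⟩
    exact this
  rw [h1]
  exact (Finset.measurable_restrict S) (MeasurableSet.of_discrete)

/-- flipping the bit at `a` -/
def omFlip (a : List Bool) (R : List Bool → Bool) : List Bool → Bool :=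
  fun y => if y = a then !(R y) else R y

theorem omFlip_measurable (a : List Bool) : Measurable (omFlip a) := by
  unfold omFlip
  refine measurable_pi_lambda _ (fun y => ?_)
  by_cases h : y = a
  · simp only [h, if_true]
    exact (measurable_of_finite (fun b : Bool => !b)).comp
      (measurable_pi_apply (X := fun _ : List Bool => Bool) a)
  · simp only [h, if_false]
    exact measurable_pi_apply _

theorem omFlip_map (a : List Bool) : randomOracle.map (omFlip a) = randomOracle := by
  have hnot : (PMF.uniformOfFintype Bool).toMeasure.map (fun b : Bool => !b) =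
      (PMF.uniformOfFintype Bool).toMeasure := by
    apply Measure.ext_of_singleton
    intro b
    rw [Measure.map_apply (measurable_of_finite _) (MeasurableSet.singleton b)]
    have : (fun b : Bool => !b) ⁻¹' {b} = {!b} := by
      ext c; cases b <;> cases c <;> simp
    rw [this, PMF.toMeasure_apply_singleton _ _ (MeasurableSet.singleton _),
      PMF.toMeasure_apply_singleton _ _ (MeasurableSet.singleton _)]
    simp
  have h1 : omFlip a = fun (x : List Bool → Bool) (i : List Bool) =>
      (fun (i : List Bool) (b : Bool) => if i = a then !b else b) i (x i) := by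
    funext x i; rfl
  have h2 := Measure.infinitePi_map_pi
    (fun _ : List Bool => (PMF.uniformOfFintype Bool).toMeasure)
    (f := fun (i : List Bool) (b : Bool) => if i = a then !b else b)
    (fun i => measurable_of_finite _)
  unfold randomOracle
  rw [h1, h2]
  congr 1
  funext i
  by_cases h : i = a
  · simp only [h, if_true]; exact hnot
  · simp only [h, if_false]; exact Measure.map_id

theorem om_half (a : List Bool) (V : Set (List Bool → Bool)) (hV : MeasurableSet V)
    (hinv : ∀ R, omFlip a R ∈ V ↔ R ∈ V) :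
    randomOracle.real (V ∩ {R | R a = false}) = randomOracle.real V * (1 / 2) := by
  have hm0 : MeasurableSet {R : List Bool → Bool | R a = false} :=
    (measurable_pi_apply (X := fun _ : List Bool => Bool) a) (MeasurableSet.singleton false)
  have hc : {R : List Bool → Bool | R a = false}ᶜ = {R | R a = true} := by
    ext R; simp
  have h1 : randomOracle.real (V ∩ {R | R a = false}) + randomOracle.real (V ∩ {R | R a = true}) =
      randomOracle.real V := by
    rw [← hc, ← Set.sdiff_eq]
    exact measureReal_inter_add_sdiff hm0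
  have h2 : randomOracle.real (V ∩ {R | R a = true}) =
      randomOracle.real (V ∩ {R | R a = false}) := by
    have h3 : V ∩ {R | R a = true} = omFlip a ⁻¹' (V ∩ {R | R a = false}) := by
      ext R
      simp only [Set.mem_inter_iff, Set.mem_preimage, hinv R, Set.mem_ofPred_eq]
      simp [omFlip]
    rw [h3, ← map_measureReal_apply (omFlip_measurable a) (hV.inter hm0), omFlip_map]
  linarith

theorem om_zero_meas (S : Finset (List Bool)) :
    MeasurableSet {R : List Bool → Bool | ∀ y ∈ S, R y = false} := by
  apply meas_of_dep S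
  intro R R' h hR y hy
  rw [← h y hy]; exact hR y hy

theorem om_inv (S : Finset (List Bool)) : ∀ (V : Set (List Bool → Bool)), MeasurableSet V →
    (∀ a ∈ S, ∀ R, omFlip a R ∈ V ↔ R ∈ V) →
    randomOracle.real (V ∩ {R | ∀ y ∈ S, R y = false}) =
      randomOracle.real V * (1 / 2) ^ S.card := by
  induction S using Finset.induction_on with
  | empty => intro V hV _; simp
  | insert a S ha ih =>
    intro V hV hinv
    have hm0 : MeasurableSet {R : List Bool → Bool | R a = false} :=
      (measurable_pi_apply (X := fun _ : List Bool => Bool) a) (MeasurableSet.singleton false)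
    have h1 : V ∩ {R | ∀ y ∈ insert a S, R y = false} =
        (V ∩ {R | R a = false}) ∩ {R | ∀ y ∈ S, R y = false} := by
      ext R
      simp [and_assoc]
    rw [h1, ih _ (hV.inter hm0), om_half a V hV (hinv a (Finset.mem_insert_self _ _)),
      Finset.card_insert_of_notMem ha, pow_succ]
    · ring
    · intro b hb R
      rw [Set.mem_inter_iff, Set.mem_inter_iff, hinv b (Finset.mem_insert_of_mem hb)]
      have hab : a ≠ b := fun h => ha (h ▸ hb)
      simp [omFlip, hab]

theorem zeroOn_measurable (S : Finset (List Bool)) : Measurable (zeroOn S) := by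
  unfold zeroOn
  refine measurable_pi_lambda _ (fun y => ?_)
  by_cases h : y ∈ S
  · simp only [h, if_true]; exact measurable_const
  · simp only [h, if_false]; exact measurable_pi_apply _

theorem zeroOn_self (S : Finset (List Bool)) {R : List Bool → Bool}
    (h : ∀ y ∈ S, R y = false) : zeroOn S R = R := by
  funext y
  unfold zeroOn
  split_ifs with hy
  · exact (h y hy).symm
  · rfl

theorem zeroOn_flip (S : Finset (List Bool)) {a : List Bool} (ha : a ∈ S)
    (R : List Bool → Bool) : zeroOn S (omFlip a R) = zeroOn S R := by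
  funext y
  unfold zeroOn omFlip
  split_ifs with h1 h2
  · rfl
  · rw [h2] at h1; exact absurd ha h1
  · rfl

/-- planting zeros -/
theorem plant (S : Finset (List Bool)) (W : Set (List Bool → Bool)) (hW : MeasurableSet W) :
    randomOracle.real (W ∩ {R | ∀ y ∈ S, R y = false}) =
      randomOracle.real {R | zeroOn S R ∈ W} * (1 / 2) ^ S.card := by
  have hm : MeasurableSet {R | zeroOn S R ∈ W} := (zeroOn_measurable S) hW
  rw [← om_inv S _ hm]
  · congr 1
    ext R
    simp only [Set.mem_inter_iff, Set.mem_ofPred_eq]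
    constructor
    · rintro ⟨h1, h2⟩
      exact ⟨by rw [zeroOn_self S h2]; exact h1, h2⟩
    · rintro ⟨h1, h2⟩
      exact ⟨by rw [zeroOn_self S h2] at h1; exact h1, h2⟩
  · intro a ha R
    simp only [Set.mem_ofPred_eq]
    rw [zeroOn_flip S ha]

theorem om_zero_real (S : Finset (List Bool)) :
    randomOracle.real {R | ∀ y ∈ S, R y = false} = (1 / 2) ^ S.card := by
  have h := plant S Set.univ MeasurableSet.univ
  simp only [Set.univ_inter, Set.mem_univ, Set.ofPred_true] at h
  rw [h, probReal_univ, one_mul]

/-- one of the blocks is zero: union bound -/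
theorem block_le {α : Type} (X : Finset α) (B : α → Finset (List Bool)) (m : ℕ)
    (hm : ∀ x ∈ X, (B x).card = m) :
    randomOracle.real {R | ∃ x ∈ X, ∀ y ∈ B x, R y = false} ≤ X.card * (1 / 2) ^ m := by
  have h1 : {R : List Bool → Bool | ∃ x ∈ X, ∀ y ∈ B x, R y = false} =
      ⋃ x ∈ X, {R | ∀ y ∈ B x, R y = false} := by
    ext R; simp
  rw [h1]
  refine (measureReal_biUnion_finset_le X _).trans ?_
  rw [Finset.sum_congr rfl (fun x hx => by rw [om_zero_real, hm x hx])]
  rw [Finset.sum_const, nsmul_eq_mul]

theorem om_sum_le {α : Type} (X : Finset α) (P : ℕ) (W : Set (List Bool → Bool))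
    (hW : MeasurableSet W) (V : α → Set (List Bool → Bool)) (hV : ∀ x, MeasurableSet (V x))
    (hP : ∀ R ∈ W, Set.ncard {x | x ∈ X ∧ R ∉ V x} ≤ P) :
    ∑ x ∈ X, randomOracle.real (W \ V x) ≤ P * randomOracle.real W := by
  classical
  have key : ∑ x ∈ X, randomOracle (W \ V x) ≤ P * randomOracle W := by
    have h1 : ∀ x ∈ X, randomOracle (W \ V x) =
        ∫⁻ R, (W \ V x).indicator (fun _ => (1 : ENNReal)) R ∂randomOracle := by
      intro x _
      rw [lintegral_indicator_const (hW.diff (hV x)), one_mul]
    rw [Finset.sum_congr rfl h1, ← lintegral_finsetSum _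
      (fun x _ => measurable_const.indicator (hW.diff (hV x)))]
    have h2 : (P : ENNReal) * randomOracle W =
        ∫⁻ R, W.indicator (fun _ => (P : ENNReal)) R ∂randomOracle := by
      rw [lintegral_indicator_const hW]
    rw [h2]
    apply lintegral_mono
    intro R
    by_cases hR : R ∈ W
    · simp only [Set.indicator_of_mem hR]
      have h3 : ∀ x ∈ X, (W \ V x).indicator (fun _ => (1 : ENNReal)) R =
          if R ∉ V x then 1 else 0 := by
        intro x _
        by_cases hx : R ∈ V x
        · rw [Set.indicator_of_notMem (fun h => h.2 hx), if_neg (by simpa using hx)]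
        · rw [Set.indicator_of_mem (show R ∈ W \ V x from ⟨hR, hx⟩), if_pos hx]
      rw [Finset.sum_congr rfl h3, Finset.sum_boole]
      have h4 := hP R hR
      have h5 : {x | x ∈ X ∧ R ∉ V x} = ((X.filter (fun x => R ∉ V x) : Finset α) : Set α) := by
        ext x; simp
      rw [h5, Set.ncard_coe_finset] at h4
      exact_mod_cast h4
    · simp only [Set.indicator_of_notMem hR]
      rw [Finset.sum_eq_zero]
      intro x _
      rw [Set.indicator_of_notMem (fun h => hR h.1)]
  have h6 : (∑ x ∈ X, randomOracle (W \ V x)).toReal ≤ (P * randomOracle W).toReal :=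
    ENNReal.toReal_mono (ENNReal.mul_ne_top (ENNReal.natCast_ne_top P) (measure_ne_top _ _)) key
  rw [ENNReal.toReal_sum (fun x _ => measure_ne_top _ _), ENNReal.toReal_mul] at h6
  simpa [Measure.real] using h6

theorem om_block_aux {α : Type} [DecidableEq α] (X : Finset α) (B : α → Finset (List Bool))
    (m : ℕ) (hm : ∀ x ∈ X, (B x).card = m)
    (hd : ∀ x ∈ X, ∀ x' ∈ X, x ≠ x' → Disjoint (B x) (B x'))
    (C W : Set (List Bool → Bool)) (hC : MeasurableSet C) (hW : MeasurableSet W) (hWC : W ⊆ C)
    (hCB : ∀ x ∈ X, ∀ R, zeroOn (B x) R ∈ C ↔ R ∈ C) :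
    (1 / 2) ^ m * (∑ x ∈ X, randomOracle.real {R | zeroOn (B x) R ∈ W} -
        X.card * (X.card * (1 / 2) ^ m * randomOracle.real C)) ≤
      randomOracle.real (W ∩ {R | ∃ x ∈ X, ∀ y ∈ B x, R y = false}) := by
  have hCpos : 0 ≤ randomOracle.real C := measureReal_nonneg
  induction X using Finset.induction_on with
  | empty => simp
  | insert x X hx ih =>
    have ih' := ih (fun z hz => hm z (Finset.mem_insert_of_mem hz))
      (fun z hz z' hz' => hd z (Finset.mem_insert_of_mem hz) z' (Finset.mem_insert_of_mem hz'))
      (fun z hz => hCB z (Finset.mem_insert_of_mem hz))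
    have hxm := hm x (Finset.mem_insert_self _ _)
    set U : Set (List Bool → Bool) := {R | ∃ z ∈ X, ∀ y ∈ B z, R y = false} with hU
    have hUe : U = ⋃ z ∈ X, {R | ∀ y ∈ B z, R y = false} := by
      ext R; simp [hU]
    have hUm : MeasurableSet U := by
      rw [hUe]
      exact Finset.measurableSet_biUnion _ (fun z _ => om_zero_meas _)
    have hsplit : W ∩ {R | ∃ z ∈ insert x X, ∀ y ∈ B z, R y = false} =
        (W ∩ U) ∪ ((W ∩ Uᶜ) ∩ {R | ∀ y ∈ B x, R y = false}) := by
      ext R
      simp only [Set.mem_inter_iff, Set.mem_union, Set.mem_compl_iff, Set.mem_ofPred_eq,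
        Finset.mem_insert, exists_eq_or_imp]
      change (R ∈ W ∧ ((∀ y ∈ B x, R y = false) ∨ R ∈ U)) ↔ _
      tauto
    have hdis : Disjoint (W ∩ U) ((W ∩ Uᶜ) ∩ {R | ∀ y ∈ B x, R y = false}) := by
      rw [Set.disjoint_left]
      rintro R ⟨_, h1⟩ ⟨⟨_, h2⟩, _⟩
      exact h2 h1
    rw [hsplit, measureReal_union hdis ((hW.inter hUm.compl).inter (om_zero_meas _)),
      plant (B x) (W ∩ Uᶜ) (hW.inter hUm.compl), hxm]
    have hUinv : ∀ R, zeroOn (B x) R ∈ U ↔ R ∈ U := by
      intro R
      simp only [hU, Set.mem_ofPred_eq]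
      constructor
      · rintro ⟨z, hz, h⟩
        refine ⟨z, hz, fun y hy => ?_⟩
        have h1 := h y hy
        have hxz : x ≠ z := fun e => hx (e ▸ hz)
        have hny : y ∉ B x := fun h2 => Finset.disjoint_left.mp
          (hd x (Finset.mem_insert_self _ _) z (Finset.mem_insert_of_mem hz) hxz) h2 hy
        unfold zeroOn at h1
        rwa [if_neg hny] at h1
      · rintro ⟨z, hz, h⟩
        refine ⟨z, hz, fun y hy => ?_⟩
        unfold zeroOn
        split_ifs
        · rfl
        · exact h y hy
    have hset : {R | zeroOn (B x) R ∈ W ∩ Uᶜ} = {R | zeroOn (B x) R ∈ W} \ U := by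
      ext R
      simp only [Set.mem_ofPred_eq, Set.mem_inter_iff, Set.mem_compl_iff, hUinv R, Set.mem_sdiff]
    have hge : randomOracle.real {R | zeroOn (B x) R ∈ W} -
        X.card * (1 / 2) ^ m * randomOracle.real C ≤
        randomOracle.real ({R | zeroOn (B x) R ∈ W} \ U) := by
      have h1 := measureReal_inter_add_sdiff (μ := randomOracle)
        (s := {R | zeroOn (B x) R ∈ W}) hUm
      have h2 : randomOracle.real ({R | zeroOn (B x) R ∈ W} ∩ U) ≤
          X.card * (1 / 2) ^ m * randomOracle.real C := by
        have h3 : {R | zeroOn (B x) R ∈ W} ∩ U ⊆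
            ⋃ z ∈ X, (C ∩ {R | ∀ y ∈ B z, R y = false}) := by
          rintro R ⟨h4, h5⟩
          have h6 : R ∈ C := (hCB x (Finset.mem_insert_self _ _) R).mp (hWC h4)
          obtain ⟨z, hz, h7⟩ := h5
          exact Set.mem_iUnion₂.mpr ⟨z, hz, h6, h7⟩
        refine (measureReal_mono h3 (measure_ne_top _ _)).trans
          ((measureReal_biUnion_finset_le X _).trans ?_)
        have h8 : ∀ z ∈ X, randomOracle.real (C ∩ {R | ∀ y ∈ B z, R y = false}) =
            (1 / 2) ^ m * randomOracle.real C := by
          intro z hz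
          rw [plant (B z) C hC, hm z (Finset.mem_insert_of_mem hz), mul_comm]
          congr 2
          ext R
          exact hCB z (Finset.mem_insert_of_mem hz) R
        rw [Finset.sum_congr rfl h8, Finset.sum_const, nsmul_eq_mul]
        apply le_of_eq; ring
      linarith
    rw [hset, Finset.sum_insert hx, Finset.card_insert_of_notMem hx]
    have hpm : (0 : ℝ) ≤ (1 / 2) ^ m := by positivity
    have h9 := mul_le_mul_of_nonneg_left hge hpm
    push_cast
    have hk : (0 : ℝ) ≤ (X.card : ℝ) := Nat.cast_nonneg _
    have h10 : 0 ≤ (1 / 2 : ℝ) ^ m * ((1 / 2) ^ m * randomOracle.real C) := by positivity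
    have h11 : 0 ≤ (X.card + 1 : ℝ) * ((1 / 2 : ℝ) ^ m * ((1 / 2) ^ m * randomOracle.real C)) := by
      positivity
    nlinarith [ih', h9, h10, h11]

/-- one of the blocks is zero: lower bound -/
theorem block_ge {α : Type} [DecidableEq α] (X : Finset α) (B : α → Finset (List Bool)) (m : ℕ)
    (hm : ∀ x ∈ X, (B x).card = m) (hd : ∀ x ∈ X, ∀ x' ∈ X, x ≠ x' → Disjoint (B x) (B x'))
    (C W : Set (List Bool → Bool)) (hC : MeasurableSet C) (hW : MeasurableSet W) (hWC : W ⊆ C)
    (hCB : ∀ x ∈ X, ∀ R, zeroOn (B x) R ∈ C ↔ R ∈ C) (P : ℕ)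
    (hP : ∀ R ∈ W, Set.ncard {x | x ∈ X ∧ zeroOn (B x) R ∉ W} ≤ P) :
    (1 / 2) ^ m * (((X.card : ℝ) - P) * randomOracle.real W -
        X.card * (X.card * (1 / 2) ^ m * randomOracle.real C)) ≤
      randomOracle.real (W ∩ {R | ∃ x ∈ X, ∀ y ∈ B x, R y = false}) := by
  refine le_trans ?_ (om_block_aux X B m hm hd C W hC hW hWC hCB)
  apply mul_le_mul_of_nonneg_left _ (by positivity)
  apply sub_le_sub_right
  have h1 := om_sum_le X P W hW (fun x => {R | zeroOn (B x) R ∈ W})
    (fun x => (zeroOn_measurable _) hW) hP
  have h2 : ∀ x ∈ X, randomOracle.real W - randomOracle.real (W \ {R | zeroOn (B x) R ∈ W}) ≤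
      randomOracle.real {R | zeroOn (B x) R ∈ W} := by
    intro x _
    have h3 := measureReal_inter_add_sdiff (μ := randomOracle) (s := W)
      (t := {R | zeroOn (B x) R ∈ W}) ((zeroOn_measurable _) hW)
    have h4 : randomOracle.real (W ∩ {R | zeroOn (B x) R ∈ W}) ≤
        randomOracle.real {R | zeroOn (B x) R ∈ W} :=
      measureReal_mono Set.inter_subset_right (measure_ne_top _ _)
    linarith
  have h5 := Finset.sum_le_sum h2
  rw [Finset.sum_sub_distrib, Finset.sum_const, nsmul_eq_mul] at h5
  linarith

end Pool.Agent.Work.MP_0532f7_lc
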