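import Mathlib
import Pool.Agent.Work.MP_0532f7_lc.OracleDefs
import Pool.Agent.Work.MP_0532f7_lc.OutAdv

/-!
Cylinders, density and counting for random oracles.
-/

namespace Pool.Agent.Work.MP_0532f7_lc

open MeasureTheory

local instance omb_instProb : IsProbabilityMeasure randomOracle := by
  unfold randomOracle; infer_instance

/-- the first `n` bits of an oracle, words in length order -/
def tab (R : List Bool → Bool) (n : ℕ) : List Bool := (List.range n).map (fun k => R (num k))

def ocyl (σ : List Bool) : Set (List Bool → Bool) := {R | tab R σ.length = σ}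

theorem omb_num_injective : Function.Injective num := by
  intro a b h
  have := congrArg val h
  rwa [val_num, val_num] at this

theorem omb_tab_length (R : List Bool → Bool) (n : ℕ) : (tab R n).length = n := by simp [tab]

theorem omb_tab_getElem? (R : List Bool → Bool) (n i : ℕ) :
    (tab R n)[i]? = if i < n then some (R (num i)) else none := by
  unfold tab
  rw [List.getElem?_map]
  split_ifs with h
  · rw [List.getElem?_range h]; rfl
  · rw [List.getElem?_eq_none (by simp; omega)]; rfl

theorem omb_tab_take (R : List Bool → Bool) {m n : ℕ} (h : m ≤ n) :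
    (tab R n).take m = tab R m := by
  apply List.ext_getElem?
  intro i
  rw [List.getElem?_take, omb_tab_getElem?, omb_tab_getElem?]
  split_ifs <;> first | rfl | omega

theorem omb_mem_ocyl {σ : List Bool} {R : List Bool → Bool} :
    R ∈ ocyl σ ↔ ∀ i (h : i < σ.length), R (num i) = σ[i] := by
  show tab R σ.length = σ ↔ _
  constructor
  · intro h i hi
    have h1 : (tab R σ.length)[i]? = σ[i]? := by rw [h]
    rw [omb_tab_getElem?, if_pos hi, List.getElem?_eq_getElem hi] at h1
    exact Option.some.inj h1
  · intro h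
    apply List.ext_getElem?
    intro i
    rw [omb_tab_getElem?]
    split_ifs with hi
    · rw [List.getElem?_eq_getElem hi, h i hi]
    · rw [List.getElem?_eq_none (by omega)]

theorem omb_ocyl_eq_pi (σ : List Bool) :
    ocyl σ = Set.pi (((Finset.range σ.length).image num : Finset (List Bool)) : Set (List Bool))
      (fun y => {σ.getD (val y) false}) := by
  ext R
  rw [omb_mem_ocyl, Set.mem_pi]
  constructor
  · intro h y hy
    obtain ⟨i, hi, rfl⟩ := Finset.mem_image.mp (Finset.mem_coe.mp hy)
    have hi' : i < σ.length := Finset.mem_range.mp hi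
    rw [Set.mem_singleton_iff, h i hi', val_num, List.getD_eq_getElem?_getD,
      List.getElem?_eq_getElem hi']
    rfl
  · intro h i hi
    have := h (num i) (Finset.mem_coe.mpr (Finset.mem_image_of_mem _ (Finset.mem_range.mpr hi)))
    rw [Set.mem_singleton_iff, val_num, List.getD_eq_getElem?_getD,
      List.getElem?_eq_getElem hi] at this
    exact this

theorem meas_ocyl (σ : List Bool) : MeasurableSet (ocyl σ) := by
  rw [omb_ocyl_eq_pi]
  exact MeasurableSet.pi (Finset.countable_toSet _) (fun _ _ => MeasurableSet.singleton _)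

theorem omb_ocyl_measure (σ : List Bool) :
    randomOracle (ocyl σ) = (2 : ENNReal)⁻¹ ^ σ.length := by
  rw [omb_ocyl_eq_pi]
  unfold randomOracle
  rw [Measure.infinitePi_pi _ (fun i _ => MeasurableSet.singleton _)]
  have : ∀ b : Bool, (PMF.uniformOfFintype Bool).toMeasure {b} = (2 : ENNReal)⁻¹ := by
    intro b
    rw [PMF.toMeasure_apply_singleton _ _ (MeasurableSet.singleton b)]
    simp
  simp only [this, Finset.prod_const, Finset.card_image_of_injective _ omb_num_injective,
    Finset.card_range]

theorem ocyl_real (σ : List Bool) : randomOracle.real (ocyl σ) = (1 / 2) ^ σ.length := by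
  unfold Measure.real
  rw [omb_ocyl_measure, ENNReal.toReal_pow, ENNReal.toReal_inv]
  norm_num

/-- words of a given length -/
noncomputable def ombWords (m : ℕ) : Finset (List Bool) :=
  (List.finite_length_eq Bool m).toFinset

theorem omb_mem_words {m : ℕ} {b : List Bool} : b ∈ ombWords m ↔ b.length = m := by
  unfold ombWords; rw [Set.Finite.mem_toFinset]; rfl

theorem omb_disj {b c : List Bool} (h : b.length = c.length) (hbc : b ≠ c) :
    Disjoint (ocyl b) (ocyl c) := by
  rw [Set.disjoint_left]
  intro R h8 h9
  apply hbc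
  change tab R b.length = b at h8
  change tab R c.length = c at h9
  rw [← h8, ← h9, h]

/-- density (outer measure) -/
theorem odensity (G : Set (List Bool → Bool)) (hG : randomOracle G ≠ 0) (ε : ℝ) (hε : 0 < ε) :
    ∃ σ, ENNReal.ofReal ((1 - ε) * (1 / 2) ^ σ.length) < randomOracle (G ∩ ocyl σ) := by
  by_contra hcon
  push Not at hcon
  have hfin : randomOracle G ≠ ⊤ := measure_ne_top _ _
  rcases le_or_gt 1 ε with hε1 | hε1
  · have h := hcon []
    have h1 : ocyl [] = Set.univ := by
      ext R
      simp [ocyl, tab]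
    rw [h1, Set.inter_univ] at h
    rw [ENNReal.ofReal_of_nonpos (by simp; linarith)] at h
    exact hG (le_antisymm h bot_le)
  set c : ENNReal := ENNReal.ofReal (1 - ε) with hc
  have hc0 : c ≠ 0 := by
    rw [hc, Ne, ENNReal.ofReal_eq_zero]
    linarith
  have hct : c ≠ ⊤ := ENNReal.ofReal_ne_top
  have hc1 : c < 1 := by
    rw [hc, ENNReal.ofReal_lt_one]
    linarith
  have hcon' : ∀ σ, randomOracle (G ∩ ocyl σ) ≤ c * randomOracle (ocyl σ) := by
    intro σ
    refine (hcon σ).trans (le_of_eq ?_)
    rw [ENNReal.ofReal_mul (by linarith), omb_ocyl_measure, ENNReal.ofReal_pow (by norm_num)]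
    congr 2
    rw [one_div, ENNReal.ofReal_inv_of_pos (by norm_num)]
    norm_num
  have hlt : randomOracle G < c⁻¹ * randomOracle G := by
    have h1 : (1 : ENNReal) < c⁻¹ := ENNReal.one_lt_inv.mpr hc1
    calc randomOracle G = 1 * randomOracle G := (one_mul _).symm
      _ < c⁻¹ * randomOracle G := ENNReal.mul_lt_mul_left hG hfin h1
  obtain ⟨U, hGU, hUo, hU⟩ := G.exists_isOpen_lt_of_lt _ hlt
  have hU' : c * randomOracle U < randomOracle G := by
    calc c * randomOracle U < c * (c⁻¹ * randomOracle G) :=
          ENNReal.mul_lt_mul_right hc0 hct hU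
      _ = randomOracle G := by
        rw [← mul_assoc, ENNReal.mul_inv_cancel hc0 hct, one_mul]
  let Un : ℕ → Set (List Bool → Bool) := fun n => {β | ocyl (tab β n) ⊆ U}
  have hmono : Monotone (fun n => G ∩ Un n) := by
    intro m n hmn β hβ
    refine ⟨hβ.1, fun γ hγ => hβ.2 ?_⟩
    change tab γ (tab β n).length = tab β n at hγ
    show tab γ (tab β m).length = tab β m
    rw [omb_tab_length] at *
    rw [← omb_tab_take γ hmn, hγ, omb_tab_take β hmn]
  have hun : (⋃ n, G ∩ Un n) = G := by
    apply Set.Subset.antisymm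
    · exact Set.iUnion_subset (fun n => Set.inter_subset_left)
    · intro β hβ
      rw [Set.mem_iUnion]
      have hβU := hGU hβ
      obtain ⟨I, u, hu1, hu2⟩ := isOpen_pi_iff.mp hUo β hβU
      refine ⟨I.sup val + 1, hβ, fun γ hγ => hu2 ?_⟩
      intro y hy
      have hi' : val y < I.sup val + 1 := by
        have := Finset.le_sup (f := val) (Finset.mem_coe.mp hy)
        omega
      rw [omb_mem_ocyl] at hγ
      have h2 := hγ (val y) (by rw [omb_tab_length]; exact hi')
      have h3 : (tab β (I.sup val + 1))[val y]? = some (β (num (val y))) := by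
        rw [omb_tab_getElem?, if_pos hi']
      rw [List.getElem?_eq_getElem (by rw [omb_tab_length]; exact hi')] at h3
      rw [Option.some.inj h3, num_val] at h2
      show γ y ∈ u y
      rw [h2]
      exact (hu1 y hy).2
  have h1 : randomOracle G = ⨆ n, randomOracle (G ∩ Un n) := by
    rw [← hmono.measure_iUnion, hun]
  have h3 : ∃ n, c * randomOracle U < randomOracle (G ∩ Un n) := by
    rw [h1] at hU'
    exact lt_iSup_iff.mp hU'
  obtain ⟨n, hn⟩ := h3
  classical
  let S : Finset (List Bool) := (ombWords n).filter (fun b => ocyl b ⊆ U)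
  have h4 : G ∩ Un n ⊆ ⋃ b ∈ S, (G ∩ ocyl b) := by
    intro β hβ
    rw [Set.mem_iUnion₂]
    refine ⟨tab β n, ?_, hβ.1, ?_⟩
    · rw [Finset.mem_filter, omb_mem_words, omb_tab_length]
      exact ⟨rfl, hβ.2⟩
    · show tab β (tab β n).length = tab β n
      rw [omb_tab_length]
  have h5 : randomOracle (G ∩ Un n) ≤ ∑ b ∈ S, randomOracle (G ∩ ocyl b) :=
    (measure_mono h4).trans (measure_biUnion_finset_le S _)
  have h6 : ∑ b ∈ S, randomOracle (G ∩ ocyl b) ≤ c * ∑ b ∈ S, randomOracle (ocyl b) := by
    rw [Finset.mul_sum]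
    exact Finset.sum_le_sum (fun b _ => hcon' b)
  have h7 : ∑ b ∈ S, randomOracle (ocyl b) = randomOracle (⋃ b ∈ S, ocyl b) := by
    rw [measure_biUnion_finset _ (fun b _ => meas_ocyl b)]
    intro b hb c hc hbc
    have e1 : b.length = n := omb_mem_words.mp (Finset.mem_filter.mp hb).1
    have e2 : c.length = n := omb_mem_words.mp (Finset.mem_filter.mp hc).1
    exact omb_disj (by rw [e1, e2]) hbc
  have h8 : randomOracle (⋃ b ∈ S, ocyl b) ≤ randomOracle U := by
    apply measure_mono
    exact Set.iUnion₂_subset (fun b hb => (Finset.mem_filter.mp hb).2)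
  have h9 : randomOracle (G ∩ Un n) ≤ c * randomOracle U :=
    h5.trans (h6.trans (by rw [h7]; gcongr))
  exact absurd h9 (not_le.mpr hn)

/-- counting -/
theorem ocyl_count (σ : List Bool) (t : ℕ) (W : Set (List Bool → Bool)) (P : List Bool → Prop)
    (hW : ∀ R ∈ ocyl σ, (R ∈ W ↔ P (tab R (σ.length + t)))) :
    randomOracle.real (W ∩ ocyl σ) =
      (Set.ncard {b : List Bool | b.length = t ∧ P (σ ++ b)} : ℝ) * (1 / 2) ^ (σ.length + t) := by
  classical
  let S : Finset (List Bool) := (ombWords t).filter (fun b => P (σ ++ b))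
  have hS : ({b : List Bool | b.length = t ∧ P (σ ++ b)}) = (S : Set (List Bool)) := by
    ext b
    simp only [S, Set.mem_ofPred_eq, Finset.coe_filter, omb_mem_words]
  rw [hS, Set.ncard_coe_finset]
  have hU : W ∩ ocyl σ = ⋃ b ∈ S, ocyl (σ ++ b) := by
    ext R
    rw [Set.mem_iUnion₂]
    constructor
    · rintro ⟨hRW, hRσ⟩
      have hP := (hW R hRσ).mp hRW
      have hlen := omb_tab_length R (σ.length + t)
      have htake : (tab R (σ.length + t)).take σ.length = σ := by
        rw [omb_tab_take R (Nat.le_add_right _ _)]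
        exact hRσ
      have hsplit : tab R (σ.length + t) = σ ++ (tab R (σ.length + t)).drop σ.length := by
        conv_lhs => rw [← List.take_append_drop σ.length (tab R (σ.length + t)), htake]
      refine ⟨(tab R (σ.length + t)).drop σ.length, ?_, ?_⟩
      · rw [Finset.mem_filter, omb_mem_words, ← hsplit]
        exact ⟨by rw [List.length_drop, hlen]; omega, hP⟩
      · show tab R (σ ++ _).length = _
        rw [← hsplit, hlen]
    · rintro ⟨b, hb, hR⟩
      obtain ⟨hb1, hb2⟩ := Finset.mem_filter.mp hb
      rw [omb_mem_words] at hb1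
      change tab R (σ ++ b).length = σ ++ b at hR
      rw [List.length_append, hb1] at hR
      have hRσ : R ∈ ocyl σ := by
        show tab R σ.length = σ
        rw [← omb_tab_take R (Nat.le_add_right σ.length t), hR, List.take_left]
      exact ⟨(hW R hRσ).mpr (by rw [hR]; exact hb2), hRσ⟩
  have hlen : ∀ b ∈ S, (σ ++ b).length = σ.length + t := by
    intro b hb
    rw [List.length_append, omb_mem_words.mp (Finset.mem_filter.mp hb).1]
  rw [hU]
  unfold Measure.real
  rw [measure_biUnion_finset _ (fun b _ => meas_ocyl _), ENNReal.toReal_sum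
    (fun b _ => measure_ne_top _ _)]
  · have : ∀ b ∈ S, (randomOracle (ocyl (σ ++ b))).toReal = (1 / 2) ^ (σ.length + t) := by
      intro b hb
      have := ocyl_real (σ ++ b)
      unfold Measure.real at this
      rw [this, hlen b hb]
    rw [Finset.sum_congr rfl this, Finset.sum_const, nsmul_eq_mul]
  · intro b hb c hc hbc
    apply omb_disj (by rw [hlen b hb, hlen c hc])
    intro h
    exact hbc (List.append_cancel_left h)

end Pool.Agent.Work.MP_0532f7_lc
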