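import Mathlib
import Pool.Agent.Work.MP_0532f7_lc.OSim
import Pool.Agent.Work.MP_0532f7_lc.OCode

/-!
The sequence of levels, and the brute force search for the threshold at a level, in time
polynomial in the next level.
-/

namespace Pool.Agent.Work.MP_0532f7_lc

open Polynomial

/-! ### unary arithmetic -/

theorem FP.unL {f : List Bool → List Bool} (hf : FP f) : FP (fun x => un (f x).length) := by
  obtain ⟨Q, hQ⟩ := hf.length
  have key : ∀ n : ℕ, (fun z : List Bool => true :: z)^[n] [] = un n := by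
    intro n
    induction n with
    | zero => rfl
    | succ n ih => rw [Function.iterate_succ_apply', ih, un_succ]
  refine (FP.iter (FP.cons true) hf FP.nil Q (fun x i hi => ?_)).congr (fun x => ?_)
  · rw [key, un_length]; exact hi.trans (hQ x)
  · rw [key]

theorem FP.mulU {f g : List Bool → List Bool} (hf : FP f) (hg : FP g) :
    FP (fun x => un ((f x).length * (g x).length)) := by
  obtain ⟨h, hh, h1⟩ := FP.mulLen hf hg
  exact (FP.unL hh).congr (fun x => by rw [h1])

theorem un_append (a b : ℕ) : un a ++ un b = un (a + b) := by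
  unfold un; rw [List.replicate_append_replicate]

/-! ### levels -/

/-- growth of the levels -/
def EE (m : ℕ) : ℕ := 2 ^ (2 ^ (2 ^ (m * m) + 1))

/-- the levels -/
def ch : ℕ → ℕ
  | 0 => 3
  | i + 1 => EE (ch i)

theorem EE_gt (m : ℕ) : m < EE m := by
  unfold EE
  have h1 : m ≤ m * m := Nat.le_mul_self m
  have h2 : m * m < 2 ^ (m * m) := Nat.lt_two_pow_self
  have h3 : 2 ^ (m * m) + 1 < 2 ^ (2 ^ (m * m) + 1) := Nat.lt_two_pow_self
  have h4 : 2 ^ (2 ^ (m * m) + 1) < 2 ^ (2 ^ (2 ^ (m * m) + 1)) := Nat.lt_two_pow_self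
  omega

theorem ch_lt (i : ℕ) : ch i < ch (i + 1) := EE_gt _

theorem ch_strictMono : StrictMono ch := strictMono_nat_of_lt_succ ch_lt

theorem ch_ge (i : ℕ) : i + 3 ≤ ch i := by
  induction i with
  | zero => exact le_rfl
  | succ i ih => have := ch_lt i; omega

theorem cap_pow (a B : ℕ) : min (2 ^ (min a B)) B = min (2 ^ a) B := by
  rcases le_total a B with h | h
  · rw [min_eq_left h]
  · rw [min_eq_right h]
    have h1 : B < 2 ^ B := Nat.lt_two_pow_self
    have h2 : 2 ^ B ≤ 2 ^ a := Nat.pow_le_pow_right (by omega) h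
    rw [min_eq_right h1.le, min_eq_right (h1.le.trans h2)]

theorem cap_pow1 (a B : ℕ) : min (2 ^ (min a B + 1)) B = min (2 ^ (a + 1)) B := by
  rcases le_total a B with h | h
  · rw [min_eq_left h]
  · rw [min_eq_right h]
    have h1 : B < 2 ^ B := Nat.lt_two_pow_self
    have h2 : 2 ^ B ≤ 2 ^ a := Nat.pow_le_pow_right (by omega) h
    have h3 : 2 ^ B ≤ 2 ^ (B + 1) := Nat.pow_le_pow_right (by omega) (by omega)
    have h4 : 2 ^ a ≤ 2 ^ (a + 1) := Nat.pow_le_pow_right (by omega) (by omega)
    rw [min_eq_right (by omega), min_eq_right (by omega)]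

theorem cap_EE (m B : ℕ) :
    min (2 ^ (min (2 ^ (min (2 ^ (m * m)) B + 1)) B)) B = min (EE m) B := by
  rw [cap_pow1, cap_pow]
  rfl

theorem FP.capEE {f g : List Bool → List Bool} (hf : FP f) (hg : FP g) :
    FP (fun x => un (min (EE (g x).length) (f x).length)) := by
  have h1 := FP.pcI hf (FP.mulU hg hg)
  have h2 := FP.pcI hf ((FP.cons true).comp h1)
  have h3 := FP.pcI hf h2
  refine h3.congr (fun x => ?_)
  simp only [un_length, List.length_cons]
  rw [cap_EE]

/-- one step up in the sequence of levels, bounded by the length of `b` -/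
def chS (b z : List Bool) : List Bool :=
  if decide (un (min (EE (sn z).length) b.length) = un b.length) then z
  else pr (sn z) (un (min (EE (sn z).length) b.length))

theorem FP.chSI : FP (fun w => chS (fs w) (sn w)) :=
  FP.ite (FPb.eq (FP.capEE FP.fsI FP.snI.snd) (FP.unL FP.fsI)) FP.snI
    (FP.pair FP.snI.snd (FP.capEE FP.fsI FP.snI.snd))

/-- previous level -/
def pvl : ℕ → ℕ
  | 0 => 0
  | i + 1 => ch i

theorem chS_iter (b : List Bool) (hb : 3 < b.length) (k : ℕ) :
    ∃ i, i ≤ k ∧ (chS b)^[k] (pr [] (un 3)) = pr (un (pvl i)) (un (ch i)) ∧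
      (i < k → b.length ≤ ch (i + 1)) ∧ ch i < b.length := by
  induction k with
  | zero => exact ⟨0, le_rfl, rfl, fun h => by omega, hb⟩
  | succ k ih =>
    obtain ⟨i, h1, h2, h3, h4⟩ := ih
    rw [Function.iterate_succ_apply', h2]
    unfold chS
    rw [sn_pr, un_length]
    by_cases h5 : b.length ≤ EE (ch i)
    · rw [min_eq_right h5, if_pos (by simp)]
      exact ⟨i, by omega, rfl, fun _ => h5, h4⟩
    · rw [min_eq_left (by omega), if_neg (by
        rw [decide_eq_true_eq]
        intro h6
        have := un_inj h6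
        omega)]
      rcases Nat.lt_or_ge i k with h6 | h6
      · exact absurd (h3 h6) h5
      · have : i = k := by omega
        subst this
        exact ⟨i + 1, le_rfl, rfl, fun h => by omega, by show EE (ch i) < _; omega⟩

/-- the two last levels below the length of `b` -/
def chn (b : List Bool) : List Bool := (chS b)^[b.length] (pr [] (un 3))

theorem chn_spec (b : List Bool) (hb : 3 < b.length) :
    ∃ i, chn b = pr (un (pvl i)) (un (ch i)) ∧ ch i < b.length ∧ b.length ≤ ch (i + 1) := by
  obtain ⟨i, h1, h2, h3, h4⟩ := chS_iter b hb b.length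
  refine ⟨i, h2, h4, h3 ?_⟩
  have := ch_ge i
  omega

theorem chS_length (b z : List Bool) (hz : (sn z).length ≤ b.length + 3) :
    (chS b z).length ≤ max z.length (3 * b.length + 7) ∧ (sn (chS b z)).length ≤ b.length + 3 := by
  unfold chS
  split_ifs
  · exact ⟨le_max_left _ _, hz⟩
  · rw [sn_pr, pr_length, un_length]
    constructor
    · refine le_trans ?_ (le_max_right _ _)
      have : min (EE (sn z).length) b.length ≤ b.length := min_le_right _ _
      omega
    · exact (min_le_right _ _).trans (by omega)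

theorem chS_iter_length (b : List Bool) (k : ℕ) :
    ((chS b)^[k] (pr [] (un 3))).length ≤ 3 * b.length + 7 ∧
      (sn ((chS b)^[k] (pr [] (un 3)))).length ≤ b.length + 3 := by
  induction k with
  | zero =>
    simp only [Function.iterate_zero, id_eq, sn_pr, un_length, pr_length, List.length_nil]
    omega
  | succ k ih =>
    rw [Function.iterate_succ_apply']
    obtain ⟨h1, h2⟩ := chS_length b _ ih.2
    exact ⟨h1.trans (max_le ih.1 le_rfl), h2⟩

theorem FP.chnI {f : List Bool → List Bool} (hf : FP f) : FP (fun x => chn (f x)) := by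
  obtain ⟨Q, hQ⟩ := hf.length
  refine FP.iterc (step := chS) FP.chSI hf hf (FP.const _) (3 * Q + 7) (fun x i _ => ?_)
  refine (chS_iter_length _ _).1.trans ?_
  have := hQ x
  simp only [eval_add, eval_mul, eval_ofNat]
  omega

/-! ### counting words -/

theorem cnt_ncard (p : List Bool → Bool) (c : List Bool) (K : ℕ) :
    cnt p c K = Set.ncard {b : List Bool | val b < K ∧ p (pr c b) = true} := by
  have hinj : Function.Injective num := fun a b h => by
    have := congrArg val h
    rwa [val_num, val_num] at this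
  have h1 : {b : List Bool | val b < K ∧ p (pr c b) = true} =
      num '' ((Finset.range K).filter (fun i => p (pr c (num i)) = true) : Set ℕ) := by
    ext b
    simp only [Set.mem_ofPred_eq, Finset.coe_filter, Finset.mem_range, Set.mem_image]
    constructor
    · rintro ⟨h1, h2⟩
      exact ⟨val b, ⟨h1, by rwa [num_val]⟩, num_val b⟩
    · rintro ⟨i, ⟨h1, h2⟩, rfl⟩
      exact ⟨by rwa [val_num], h2⟩
  rw [h1, Set.ncard_image_of_injective _ hinj, Set.ncard_coe_finset]
  unfold cnt
  rw [List.countP_eq_length_filter]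
  have : (Finset.range K).filter (fun i => p (pr c (num i)) = true) =
      ((List.range K).filter (fun i => p (pr c (num i)))).toFinset := by
    ext i
    simp
  rw [this, List.toFinset_card_of_nodup]
  exact List.Nodup.filter _ List.nodup_range

theorem val_lt {b : List Bool} {n : ℕ} (h : b.length ≤ n) : val b + 1 < 2 ^ (n + 1) := by
  have h1 := val_le b
  have h2 : 2 ^ (b.length + 1) ≤ 2 ^ (n + 1) := Nat.pow_le_pow_right (by omega) (by omega)
  omega

theorem ncard_words (t : ℕ) : Set.ncard {b : List Bool | b.length = t} = 2 ^ t := by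
  rw [← Nat.card_coe_set_eq]
  have h : Nat.card (List.Vector Bool t) = 2 ^ t := by
    rw [Nat.card_eq_fintype_card, card_vector, Fintype.card_bool]
  rw [← h]
  exact Nat.card_congr ⟨fun b => ⟨b.1, b.2⟩, fun b => ⟨b.1, b.2⟩, fun _ => rfl, fun _ => rfl⟩

/-! ### the search -/

/-- number of words of length at most `2 ^ (m * m)` -/
def tl (m : ℕ) : ℕ := 2 ^ (2 ^ (m * m) + 1) - 1

variable (Q C O : List Bool → List Bool)

/-- with the tables `TA`, `T` the formula of level `m` with threshold `c` has a short proof -/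
def accT (TA T : List Bool) (m c : ℕ) : Prop :=
  ∃ v : List Bool, v.length ≤ 2 ^ m ∧ orun Q C O TA T v = (tauF (m * m) (m * m + c)).code

/-- ... for at least half of the tables extending `σ` -/
def condT (TA σ : List Bool) (m c : ℕ) : Prop :=
  2 ^ (tl m - σ.length) ≤ 2 * Set.ncard {b : List Bool | b.length = tl m - σ.length ∧
    accT Q C O TA (σ ++ b) m c}

/-- inner test; context `pr (pr TA T) (pr s code)` -/
def p1 (z : List Bool) : Bool :=
  ((sn z).drop (fs (sn (fs z))).length).isEmpty &&
    decide (orun Q C O (fs (fs (fs z))) (sn (fs (fs z))) (sn z) = sn (sn (fs z)))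

variable {Q C O} in
theorem FPb.p1I (hQ : FP Q) (hC : FP C) (hO : FP O) : FPb (p1 Q C O) :=
  (FPb.isNil.comp (FP.drop FP.fsI.snd.fst FP.snI)).and
    (FPb.eq (FP.orunI hQ hC hO FP.fsI.fst.fst FP.fsI.fst.snd FP.snI) FP.fsI.snd.snd)

theorem p1_iff (TA T s y v : List Bool) : p1 Q C O (pr (pr (pr TA T) (pr s y)) v) = true ↔
    v.length ≤ s.length ∧ orun Q C O TA T v = y := by
  unfold p1
  simp only [fs_pr, sn_pr, Bool.and_eq_true, List.isEmpty_iff, List.drop_eq_nil_iff,
    decide_eq_true_eq]

theorem exb_p1 (TA T : List Bool) (m : ℕ) (y : List Bool) (K : ℕ) (hK : 2 ^ (2 ^ m + 1) ≤ K) :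
    exb (p1 Q C O) (pr (pr TA T) (pr (un (2 ^ m)) y)) K = true ↔
      ∃ v : List Bool, v.length ≤ 2 ^ m ∧ orun Q C O TA T v = y := by
  rw [exb_iff]
  constructor
  · rintro ⟨i, _, h⟩
    rw [p1_iff, un_length] at h
    exact ⟨_, h⟩
  · rintro ⟨v, h1, h2⟩
    refine ⟨val v, ?_, ?_⟩
    · have := val_lt h1
      omega
    · rw [num_val, p1_iff, un_length]
      exact ⟨h1, h2⟩

/-- outer test; context `pr (pr (pr TA σ) k) (pr t (pr s y))` -/
def p2 (z : List Bool) : Bool :=
  decide (un (sn z).length = fs (sn (fs z))) &&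
    exb (p1 Q C O) (pr (pr (fs (fs (fs (fs z)))) (sn (fs (fs (fs z))) ++ sn z))
      (pr (fs (sn (sn (fs z)))) (sn (sn (sn (fs z)))))) (sn (fs (fs z))).length

variable {Q C O} in
theorem FPb.p2I (hQ : FP Q) (hC : FP C) (hO : FP O) : FPb (p2 Q C O) :=
  (FPb.eq (FP.unL FP.snI) FP.fsI.snd.fst).and
    (FPb.exbI (FPb.p1I hQ hC hO) (FP.pair (FP.pair FP.fsI.fst.fst.fst
      (FP.fsI.fst.fst.snd.app FP.snI)) (FP.pair FP.fsI.snd.snd.fst FP.fsI.snd.snd.snd))
      FP.fsI.fst.snd)

/-- only the length test -/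
def p2' (z : List Bool) : Bool := decide (un (sn z).length = fs (sn (fs z)))

theorem FPb.p2'I : FPb p2' := FPb.eq (FP.unL FP.snI) FP.fsI.snd.fst

theorem p2_iff (TA σ k t y b : List Bool) (m : ℕ) (hk : 2 ^ (2 ^ m + 1) ≤ k.length) :
    p2 Q C O (pr (pr (pr (pr TA σ) k) (pr t (pr (un (2 ^ m)) y))) b) = true ↔
      un b.length = t ∧ ∃ v : List Bool, v.length ≤ 2 ^ m ∧ orun Q C O TA (σ ++ b) v = y := by
  unfold p2
  simp only [fs_pr, sn_pr, Bool.and_eq_true, decide_eq_true_eq]
  rw [exb_p1 Q C O TA (σ ++ b) m y k.length hk]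

theorem p2'_iff (c t s b : List Bool) : p2' (pr (pr c (pr t s)) b) = true ↔ un b.length = t := by
  unfold p2'
  simp only [fs_pr, sn_pr, decide_eq_true_eq]

theorem cnt_p2 (TA σ k s y : List Bool) (m t : ℕ) (hs : s = un (2 ^ m))
    (hk : 2 ^ (2 ^ m + 1) ≤ k.length)
    (ht : 2 ^ (t + 1) ≤ k.length + 1) :
    cnt (p2 Q C O) (pr (pr (pr TA σ) k) (pr (un t) (pr s y))) k.length =
      Set.ncard {b : List Bool | b.length = t ∧
        ∃ v : List Bool, v.length ≤ 2 ^ m ∧ orun Q C O TA (σ ++ b) v = y} := by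
  subst hs
  rw [cnt_ncard]
  congr 1
  ext b
  simp only [Set.mem_ofPred_eq]
  rw [p2_iff Q C O TA σ k (un t) y b m hk, un_eq_iff]
  constructor
  · rintro ⟨_, h⟩; exact h
  · rintro ⟨h1, h2⟩
    refine ⟨?_, h1, h2⟩
    have := val_lt h1.le
    omega

theorem cnt_p2' (c s : List Bool) (K t : ℕ) (ht : 2 ^ (t + 1) ≤ K + 1) :
    cnt p2' (pr c (pr (un t) s)) K = 2 ^ t := by
  rw [cnt_ncard, ← ncard_words t]
  congr 1
  ext b
  simp only [Set.mem_ofPred_eq]
  rw [p2'_iff, un_eq_iff]
  constructor
  · rintro ⟨_, h⟩; exact h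
  · intro h1
    refine ⟨?_, h1⟩
    have := val_lt h1.le
    omega

/-- table length at level `m`, capped by the length of `k` -/
def tlS (σ k m : List Bool) : List Bool :=
  ((un (min (2 ^ (min (2 ^ (m.length * m.length)) k.length + 1)) k.length)).tail).drop σ.length

theorem FP.tlSI {f g h : List Bool → List Bool} (hf : FP f) (hg : FP g) (hh : FP h) :
    FP (fun x => tlS (f x) (g x) (h x)) := by
  have h1 := FP.pcI hg (FP.mulU hh hh)
  have h2 := FP.pcI hg ((FP.cons true).comp h1)
  refine (FP.drop hf (FP.tail.comp h2)).congr (fun x => ?_)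
  simp only [un_length, List.length_cons]
  rfl

theorem tlS_eq (σ k m : List Bool) (hk : EE m.length ≤ k.length) :
    tlS σ k m = un (tl m.length - σ.length) := by
  have h2 : 2 ^ (2 ^ (m.length * m.length) + 1) < EE m.length := Nat.lt_two_pow_self
  unfold tlS tl
  rw [cap_pow1, min_eq_left (by omega)]
  unfold un
  rw [List.tail_replicate, List.drop_replicate]

/-- the test for the threshold; context `pr (pr (pr TA σ) k) m`, argument the threshold minus 3
in unary -/
def ctx2 (z : List Bool) : List Bool :=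
  pr (fs (fs z)) (pr (tlS (sn (fs (fs (fs z)))) (sn (fs (fs z))) (sn (fs z)))
    (pr (un (min (2 ^ (sn (fs z)).length) (sn (fs (fs z))).length))
      (tauF (un ((sn (fs z)).length * (sn (fs z)).length)).length
        (un ((sn (fs z)).length * (sn (fs z)).length) ++ (true :: true :: true :: sn z)).length).code))

theorem FP.ctx2I : FP ctx2 := by
  have hm : FP (fun z => sn (fs z)) := FP.fsI.snd
  have hk : FP (fun z => sn (fs (fs z))) := FP.fsI.fst.snd
  exact FP.pair FP.fsI.fst (FP.pair (FP.tlSI FP.fsI.fst.fst.snd hk hm)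
    (FP.pair (FP.pcI hk hm) (FP.tauI (FP.mulU hm hm)
      ((FP.mulU hm hm).app ((FP.cons true).comp ((FP.cons true).comp ((FP.cons true).comp
        FP.snI)))))))

def p3 (z : List Bool) : Bool :=
  ((un (cnt p2' (ctx2 z) (sn (fs (fs z))).length)).drop
    (un (cnt (p2 Q C O) (ctx2 z) (sn (fs (fs z))).length) ++
      un (cnt (p2 Q C O) (ctx2 z) (sn (fs (fs z))).length)).length).isEmpty

variable {Q C O} in
theorem FPb.p3I (hQ : FP Q) (hC : FP C) (hO : FP O) : FPb (p3 Q C O) := by
  have hk : FP (fun z => sn (fs (fs z))) := FP.fsI.fst.snd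
  have h2 := FP.cntI (FPb.p2I hQ hC hO) FP.ctx2I hk
  exact FPb.isNil.comp (FP.drop (h2.app h2) (FP.cntI FPb.p2'I FP.ctx2I hk))

theorem tl_lt (m : ℕ) : tl m < 2 ^ (2 ^ (m * m) + 1) := by
  have : 0 < 2 ^ (2 ^ (m * m) + 1) := by positivity
  unfold tl
  omega

theorem p3_iff (TA σ k : List Bool) (m i : ℕ) (hk : EE m ≤ k.length) :
    p3 Q C O (pr (pr (pr (pr TA σ) k) (un m)) (un i)) = true ↔
      condT Q C O TA σ m (3 + i) := by
  have h1 : 2 ^ (tl m + 1) ≤ EE m := Nat.pow_le_pow_right (by omega) (tl_lt m)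
  have h2 : 2 ^ (2 ^ m + 1) ≤ EE m := by
    apply Nat.pow_le_pow_right (by omega)
    have h3 : m ≤ 2 ^ (m * m) := by
      have : m ≤ m * m := Nat.le_mul_self m
      have : m * m < 2 ^ (m * m) := Nat.lt_two_pow_self
      omega
    have h4 : 2 ^ (m + 1) ≤ 2 ^ (2 ^ (m * m) + 1) := Nat.pow_le_pow_right (by omega) (by omega)
    have h5 : 1 ≤ 2 ^ m := Nat.one_le_two_pow
    rw [pow_succ] at h4
    omega
  have h3 : 2 ^ m ≤ k.length := by
    have : 2 ^ m ≤ 2 ^ (2 ^ m + 1) := by
      apply Nat.pow_le_pow_right (by omega)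
      have : m < 2 ^ m := Nat.lt_two_pow_self
      omega
    omega
  have e : ctx2 (pr (pr (pr (pr TA σ) k) (un m)) (un i)) =
      pr (pr (pr TA σ) k) (pr (un (tl m - σ.length)) (pr (un (2 ^ m))
        (tauF (m * m) (m * m + (3 + i))).code)) := by
    unfold ctx2
    simp only [fs_pr, sn_pr, un_length, List.length_append, List.length_cons]
    rw [tlS_eq σ k (un m) (by rw [un_length]; exact hk), un_length, min_eq_left h3]
    congr 5
    omega
  have h4 : 2 ^ (tl m - σ.length + 1) ≤ k.length + 1 := by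
    have : 2 ^ (tl m - σ.length + 1) ≤ 2 ^ (tl m + 1) :=
      Nat.pow_le_pow_right (by omega) (by omega)
    omega
  unfold p3
  rw [e]
  simp only [fs_pr, sn_pr]
  rw [cnt_p2' _ _ _ _ h4, cnt_p2 Q C O TA σ k _ _ m _ rfl (h2.trans hk) h4]
  rw [List.isEmpty_iff, List.drop_eq_nil_iff, List.length_append, un_length, un_length]
  unfold condT accT
  rw [two_mul]

/-- the threshold of level `m` -/
def cfS (TA σ k : List Bool) (m : ℕ) : ℕ :=
  3 + lst (p3 Q C O) (pr (pr (pr TA σ) k) (un m)) m

theorem cfS_spec (TA σ k : List Bool) (m : ℕ) (hk : EE m ≤ k.length) :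
    3 ≤ cfS Q C O TA σ k m ∧ cfS Q C O TA σ k m ≤ m + 3 ∧
      (∀ c, 3 ≤ c → c < cfS Q C O TA σ k m → ¬ condT Q C O TA σ m c) ∧
      (cfS Q C O TA σ k m < m + 3 → condT Q C O TA σ m (cfS Q C O TA σ k m)) := by
  obtain ⟨h1, h2, h3⟩ := lst_spec (p3 Q C O) (pr (pr (pr TA σ) k) (un m)) m
  unfold cfS
  refine ⟨by omega, by omega, fun c hc1 hc2 hc3 => ?_, fun h => ?_⟩
  · obtain ⟨i, rfl⟩ : ∃ i, c = 3 + i := ⟨c - 3, by omega⟩
    have h4 := h2 i (by omega)
    rw [← p3_iff Q C O TA σ k m i hk, h4] at hc3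
    exact absurd hc3 (by simp)
  · exact (p3_iff Q C O TA σ k m _ hk).mp (h3 (by omega))

/-- the sequence of formulas; argument `pr w TA`, where `TA` is a table of the base oracle -/
def Gs (σ : List Bool) (m1 : ℕ) (z : List Bool) : List Bool :=
  if decide (fs z = un (fs z).length) &&
      (decide (sn (chn (true :: fs z)) = fs z) &&
        ((un m1).drop (fs (chn (true :: fs z))).length).isEmpty) then
    (tauF (un ((fs z).length * (fs z).length)).length
      (un ((fs z).length * (fs z).length) ++ (true :: true :: true ::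
        un (lst (p3 Q C O) (pr (pr (pr (sn z) σ) (fs z)) (fs (chn (true :: fs z))))
          (fs (chn (true :: fs z))).length))).length).code
  else oTop.code

variable {Q C O} in
theorem FP.GsI (hQ : FP Q) (hC : FP C) (hO : FP O) (σ : List Bool) (m1 : ℕ) :
    FP (Gs Q C O σ m1) := by
  have hc := FP.chnI ((FP.cons true).comp FP.fsI)
  have hsq := FP.mulU FP.fsI FP.fsI
  exact FP.ite ((FPb.eq FP.fsI (FP.unL FP.fsI)).and ((FPb.eq hc.snd FP.fsI).and
      (FPb.isNil.comp (FP.drop hc.fst (FP.const _)))))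
    (FP.tauI hsq (hsq.app ((FP.cons true).comp ((FP.cons true).comp ((FP.cons true).comp
      (FP.lstI (FPb.p3I hQ hC hO) (FP.pair (FP.pair (FP.pair FP.snI (FP.const σ)) FP.fsI) hc.fst)
        hc.fst))))))
    (FP.const _)

theorem Gs_ch (σ : List Bool) (m1 : ℕ) (TA : List Bool) (i : ℕ) (hi : m1 ≤ ch i) :
    Gs Q C O σ m1 (pr (un (ch (i + 1))) TA) =
      (tauF (ch (i + 1) * ch (i + 1)) (ch (i + 1) * ch (i + 1) +
        cfS Q C O TA σ (un (ch (i + 1))) (ch i))).code := by
  have h1 := ch_ge (i + 1)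
  obtain ⟨j, h2, h3, h4⟩ := chn_spec (true :: un (ch (i + 1)))
    (by rw [List.length_cons, un_length]; omega)
  rw [List.length_cons, un_length] at h3 h4
  have hj : j = i + 1 := by
    have h5 : j ≤ i + 1 := ch_strictMono.le_iff_le.mp (by omega)
    have h6 : i + 1 < j + 1 := ch_strictMono.lt_iff_lt.mp (by omega)
    omega
  subst hj
  have e : pvl (i + 1) = ch i := rfl
  rw [e] at h2
  unfold Gs
  rw [fs_pr, sn_pr, h2, sn_pr, fs_pr, un_length]
  rw [if_pos (by
    simp only [decide_true, Bool.true_and, List.isEmpty_iff, List.drop_eq_nil_iff, un_length]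
    exact hi)]
  simp only [un_length, List.length_append, List.length_cons]
  unfold cfS
  congr 2
  omega

theorem Gs_cases (σ : List Bool) (m1 : ℕ) (hm1 : 1 ≤ m1) (w TA : List Bool) :
    Gs Q C O σ m1 (pr w TA) = oTop.code ∨
      ∃ i, m1 ≤ ch i ∧ w = un (ch (i + 1)) := by
  by_cases h : (decide (w = un w.length) &&
      (decide (sn (chn (true :: w)) = w) &&
        ((un m1).drop (fs (chn (true :: w))).length).isEmpty)) = true
  · right
    rw [Bool.and_eq_true, Bool.and_eq_true, decide_eq_true_eq, decide_eq_true_eq,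
      List.isEmpty_iff, List.drop_eq_nil_iff, un_length] at h
    obtain ⟨h1, h2, h3⟩ := h
    by_cases h4 : 3 < (true :: w).length
    · obtain ⟨j, h5, h6, h7⟩ := chn_spec (true :: w) h4
      rw [h5, sn_pr] at h2
      rw [h5, fs_pr, un_length] at h3
      cases j with
      | zero => simp only [pvl] at h3; omega
      | succ i => exact ⟨i, h3, h2.symm⟩
    · -- the state is the initial one
      exfalso
      have key : ∀ k, (chS (true :: w))^[k] (pr [] (un 3)) = pr [] (un 3) := by
        intro k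
        induction k with
        | zero => rfl
        | succ k ih =>
          rw [Function.iterate_succ_apply', ih]
          unfold chS
          rw [sn_pr, un_length, min_eq_right, if_pos (by simp)]
          have := EE_gt 3
          omega
      unfold chn at h3
      rw [key, fs_pr, List.length_nil] at h3
      omega
  · left
    unfold Gs
    rw [fs_pr, if_neg h]

end Pool.Agent.Work.MP_0532f7_lc
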