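import Mathlib
import Pool.Agent.Work.MP_0532f7_lc.OutAdv

/-!
A census argument: logarithmic prefix advice simulates logarithmic advice.
-/

namespace Pool.Agent.Work.MP_0532f7_lc

open Polynomial

/-! ### items and claims -/

/-- components of an item -/
def i0 (z : List Bool) : List Bool := fs z
/-- second component -/
def i1 (z : List Bool) : List Bool := fs (sn z)
/-- third component -/
def i2 (z : List Bool) : List Bool := fs (sn (sn z))
/-- fourth component -/
def i3 (z : List Bool) : List Bool := fs (sn (sn (sn z)))
/-- fifth component -/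
def i4 (z : List Bool) : List Bool := fs (sn (sn (sn (sn z))))

/-- an item -/
def mk5 (c a x t m : List Bool) : List Bool := pr c (pr a (pr x (pr t (pr m []))))

@[simp] theorem i0_mk (c a x t m : List Bool) : i0 (mk5 c a x t m) = c := by simp [i0, mk5]
@[simp] theorem i1_mk (c a x t m : List Bool) : i1 (mk5 c a x t m) = a := by simp [i1, mk5]
@[simp] theorem i2_mk (c a x t m : List Bool) : i2 (mk5 c a x t m) = x := by simp [i2, mk5]
@[simp] theorem i3_mk (c a x t m : List Bool) : i3 (mk5 c a x t m) = t := by simp [i3, mk5]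
@[simp] theorem i4_mk (c a x t m : List Bool) : i4 (mk5 c a x t m) = m := by simp [i4, mk5]

/-- refutation of a formula by a mask of variables -/
def rf (y m : List Bool) : Bool := !(isCode y && evS y (selS (toksS y) m))

theorem rf_not_mem {y m : List Bool} (h : rf y m = true) : y ∉ TAUT := by
  intro hy
  rw [mem_TAUT_iff] at hy
  unfold rf at h
  rw [(isCode_iff y).mpr hy.1, toksS_eq, selS_eq, evS_eq, hy.2] at h
  simp at h

theorem exists_rf {y : List Bool} (hy : y ∉ TAUT) : ∃ m : List Bool, m.length = y.length ∧
    rf y m = true := by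
  by_cases hc : isCode y = true
  · rw [mem_TAUT_iff] at hy
    push Not at hy
    obtain ⟨v, hv⟩ := hy ((isCode_iff y).mp hc)
    obtain ⟨m, hm, hev⟩ := exists_mask y v
    refine ⟨m, hm, ?_⟩
    unfold rf
    rw [hev, Bool.not_eq_true _ |>.mp hv]
    simp
  · refine ⟨List.replicate y.length false, by simp, ?_⟩
    unfold rf
    rw [Bool.not_eq_true _ |>.mp hc]
    rfl

/-- output of an item -/
def ou (z : List Bool) : List Bool := ud (i0 z) (pr (i2 z) (i1 z)) (i3 z)

/-- the item refutes its claim -/
def bdI (z : List Bool) : Bool := rf (ou z) (i4 z)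

/-- the claim of an item -/
def clm (z : List Bool) : List Bool :=
  pr (i0 z) (pr (i1 z) (pr (num (i2 z).length) (pr (num (i3 z).length) [])))

/-- the set of false claims -/
def US : Set (List Bool) := {u | ∃ z, bdI z = true ∧ clm z = u}

theorem FP.ouI : FP ou := by
  have h0 : FP (fun z => fs z) := FP.fsI
  have h1 : FP (fun z => sn z) := FP.snI
  exact FP.udI h0 (h1.snd.fst.pair h1.fst) h1.snd.snd.fst

theorem FPb.bdI' : FPb bdI := by
  have h1 : FP (fun z => sn z) := FP.snI
  exact ((FPb.isCodeI.comp FP.ouI).and (FPb.evI FP.ouI (FP.selI (FP.toksI.comp FP.ouI)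
    h1.snd.snd.snd.fst))).not

theorem FP.clmI : FP clm := by
  have h0 : FP (fun z => fs z) := FP.fsI
  have h1 : FP (fun z => sn z) := FP.snI
  exact h0.pair (h1.fst.pair ((FP.numI h1.snd.fst).pair ((FP.numI h1.snd.snd.fst).pair FP.nil)))

theorem ou_mem_of_not {z : List Bool} (h : clm z ∉ US) : ou z ∈ TAUT := by
  by_contra hc
  obtain ⟨m, _, hm⟩ := exists_rf hc
  apply h
  refine ⟨mk5 (i0 z) (i1 z) (i2 z) (i3 z) m, ?_, ?_⟩
  · unfold bdI
    rw [i4_mk]
    have : ou (mk5 (i0 z) (i1 z) (i2 z) (i3 z) m) = ou z := by
      simp [ou]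
    rw [this]; exact hm
  · simp [clm]

/-! ### the verification loop -/

/-- loop body; context: the length bound; state `pr items (pr count claims)` -/
def lpS (p z : List Bool) : List Bool :=
  if (fs z).isEmpty then z else
    pr (sn (fs z)) (if (bdI (fs (fs z)) && ((clm (fs (fs z))).drop p.length).isEmpty) &&
      !(memS (clm (fs (fs z))) (sn (sn z))) then
        pr (inc (fs (sn z))) (pr (clm (fs (fs z))) (sn (sn z))) else sn z)

theorem FP.lpSI : FP (fun w => lpS (fs w) (sn w)) := by
  have hp : FP (fun w => fs w) := FP.fsI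
  have hz : FP (fun w => sn w) := FP.snI
  have hc := FP.clmI.comp hz.fst.fst
  exact FP.ite (FPb.isNil.comp hz.fst) hz
    (hz.fst.snd.pair (FP.ite (((FPb.bdI'.comp hz.fst.fst).and
      (FPb.isNil.comp (FP.drop hp hc))).and (FPb.memI hc hz.snd.snd).not)
      ((FP.incI.comp hz.snd.fst).pair (hc.pair hz.snd.snd)) hz.snd))

theorem lpS_length (p z : List Bool) : (lpS p z).length ≤ z.length + 2 * p.length + 6 := by
  have h0 := fs_sn_length z
  have h1 := fs_sn_length (fs z)
  have h2 := fs_sn_length (sn z)
  unfold lpS
  split_ifs with ha hb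
  · omega
  · rw [pr_length, pr_length, pr_length]
    have h3 := inc_length (fs (sn z))
    simp only [Bool.and_eq_true, List.isEmpty_iff, List.drop_eq_nil_iff] at hb
    have := hb.1.2
    omega
  · rw [pr_length]
    omega

theorem lpS_iter_length (p : List Bool) (i : ℕ) : ∀ z : List Bool,
    ((lpS p)^[i] z).length ≤ z.length + i * (2 * p.length + 6) := by
  induction i with
  | zero => intro z; simp
  | succ i ih =>
    intro z
    rw [Function.iterate_succ_apply]
    have := ih (lpS p z)
    have := lpS_length p z
    rw [Nat.succ_mul]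
    omega

/-- the loop -/
def lp (p L : List Bool) : List Bool := (lpS p)^[L.length] (pr L (pr [] []))

theorem FP.lpI {f g : List Bool → List Bool} (hf : FP f) (hg : FP g) :
    FP (fun x => lp (f x) (g x)) := by
  obtain ⟨Q, hQ⟩ := hf.length
  obtain ⟨R, hR⟩ := hg.length
  refine FP.iterc (step := lpS) FP.lpSI hf hg (hg.pair (FP.nil.pair FP.nil))
    (2 * R + 2 + R * (2 * Q + 6)) (fun x i hx => ?_)
  refine (lpS_iter_length _ _ _).trans ?_
  rw [pr_length, pr_length]
  have h1 := hQ x
  have h2 := hR x
  have h3 : i * (2 * (f x).length + 6) ≤ R.eval x.length * (2 * Q.eval x.length + 6) :=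
    Nat.mul_le_mul (hx.trans h2) (by omega)
  simp only [eval_add, eval_mul, eval_ofNat, List.length_nil]
  omega

theorem num_inj {a b : ℕ} (h : num a = num b) : a = b := by
  have := congrArg val h
  rwa [val_num, val_num] at this

theorem lp_inv (p : List Bool) (n : ℕ) : ∀ (L : List Bool) (A : List (List Bool)), A.Nodup →
    (∀ u ∈ A, u ∈ US ∧ u.length ≤ p.length) →
    ∃ (L' : List Bool) (A' : List (List Bool)), A'.Nodup ∧
      (∀ u ∈ A', u ∈ US ∧ u.length ≤ p.length) ∧
      (lpS p)^[n] (pr L (pr (num A.length) (encL A))) = pr L' (pr (num A'.length) (encL A')) := by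
  induction n with
  | zero => intro L A h1 h2; exact ⟨L, A, h1, h2, rfl⟩
  | succ n ih =>
    intro L A h1 h2
    rw [Function.iterate_succ_apply]
    unfold lpS
    rw [fs_pr, sn_pr, fs_pr, sn_pr]
    by_cases ha : L.isEmpty = true
    · rw [if_pos ha]; exact ih L A h1 h2
    · rw [if_neg ha]
      by_cases hb : ((bdI (fs L) && ((clm (fs L)).drop p.length).isEmpty) &&
          !(memS (clm (fs L)) (encL A))) = true
      · rw [if_pos hb]
        simp only [Bool.and_eq_true, List.isEmpty_iff, List.drop_eq_nil_iff, Bool.not_eq_true',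
          memS_eq, decide_eq_false_iff_not] at hb
        have e : pr (inc (num A.length)) (pr (clm (fs L)) (encL A)) =
            pr (num (clm (fs L) :: A).length) (encL (clm (fs L) :: A)) := by
          rw [List.length_cons, encL_cons]
          congr 1
          unfold num
          rw [Function.iterate_succ_apply']
        rw [e]
        refine ih _ _ (List.nodup_cons.mpr ⟨hb.2, h1⟩) (fun u hu => ?_)
        rcases List.mem_cons.mp hu with h | h
        · rw [h]; exact ⟨⟨_, hb.1.1, rfl⟩, hb.1.2⟩
        · exact h2 u h
      · rw [if_neg hb]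
        exact ih _ A h1 h2

theorem lp_sound (p L : List Bool) : ∃ A : List (List Bool), A.Nodup ∧
    (∀ u ∈ A, u ∈ US ∧ u.length ≤ p.length) ∧ fs (sn (lp p L)) = num A.length ∧
    sn (sn (lp p L)) = encL A := by
  obtain ⟨L', A', h1, h2, h3⟩ := lp_inv p L.length L [] List.nodup_nil (by simp)
  refine ⟨A', h1, h2, ?_, ?_⟩
  · have : lp p L = pr L' (pr (num A'.length) (encL A')) := h3
    rw [this, sn_pr, fs_pr]
  · have : lp p L = pr L' (pr (num A'.length) (encL A')) := h3
    rw [this, sn_pr, sn_pr]

theorem lp_comp (p : List Bool) (n : ℕ) : ∀ (I A : List (List Bool)), I.length ≤ n →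
    (∀ z ∈ I, bdI z = true ∧ (clm z).length ≤ p.length) →
    ((I.map clm) ++ A).Nodup →
    (lpS p)^[n] (pr (encL I) (pr (num A.length) (encL A))) =
      pr [] (pr (num (I.length + A.length)) (encL ((I.map clm).reverse ++ A))) := by
  induction n with
  | zero =>
    intro I A h _ _
    have : I = [] := List.length_eq_zero_iff.mp (by omega)
    subst this; simp
  | succ n ih =>
    intro I A h h1 h2
    rw [Function.iterate_succ_apply]
    cases I with
    | nil =>
      have e : lpS p (pr (encL []) (pr (num A.length) (encL A))) =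
          pr (encL []) (pr (num A.length) (encL A)) := by
        unfold lpS; simp
      rw [e]; exact ih [] A (by simp) h1 h2
    | cons z I =>
      have hz := h1 z (by simp)
      have hn : clm z ∉ A := by
        rw [List.map_cons, List.cons_append, List.nodup_cons, List.mem_append, not_or] at h2
        exact h2.1.2
      have e : lpS p (pr (encL (z :: I)) (pr (num A.length) (encL A))) =
          pr (encL I) (pr (num (clm z :: A).length) (encL (clm z :: A))) := by
        unfold lpS
        rw [fs_pr, sn_pr, encL_isEmpty]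
        simp only [List.isEmpty_cons, encL_cons, fs_pr, sn_pr]
        rw [if_neg (by simp), if_pos]
        · congr 2
          unfold num
          rw [List.length_cons, Function.iterate_succ_apply']
        · simp only [Bool.and_eq_true, List.isEmpty_iff, List.drop_eq_nil_iff, Bool.not_eq_true',
            memS_eq, decide_eq_false_iff_not]
          exact ⟨hz, hn⟩
      rw [e, ih I (clm z :: A) (by simpa using h) (fun z' hz' => h1 z' (by simp [hz'])) ?_]
      · simp only [List.length_cons, List.map_cons, List.reverse_cons, List.append_assoc,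
          List.singleton_append]
        congr 3
        omega
      · rw [List.nodup_append] at h2 ⊢
        rw [List.map_cons, List.nodup_cons] at h2
        refine ⟨h2.1.2, List.nodup_cons.mpr ⟨hn, h2.2.1⟩, ?_⟩
        intro a ha b hb
        rcases List.mem_cons.mp hb with hb | hb
        · rw [hb]; intro hab; rw [hab] at ha; exact h2.1.1 ha
        · exact h2.2.2 a (by simp [ha]) b hb

/-! ### the census and the advice -/

/-- false claims of bounded length -/
def UL (l : ℕ) : Set (List Bool) := {u | u ∈ US ∧ u.length ≤ l}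

theorem UL_finite (l : ℕ) : (UL l).Finite :=
  (List.finite_length_le Bool l).subset (fun _ hu => hu.2)

/-- the census -/
noncomputable def NN (i : ℕ) : ℕ := (UL (2 ^ i)).ncard

theorem ncard_UL (l : ℕ) : (UL l).ncard + 1 ≤ 2 ^ (l + 1) := by
  have h1 : (UL l).ncard ≤ (Set.Iio (2 ^ (l + 1) - 1)).ncard := by
    refine Set.ncard_le_ncard_of_injOn val (fun u hu => ?_) (fun u _ v _ h => val_inj h)
      (Set.finite_Iio _)
    rw [Set.mem_Iio]
    have h2 := val_le u
    have h3 : 2 ^ (u.length + 1) ≤ 2 ^ (l + 1) := Nat.pow_le_pow_right (by omega)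
      (by have := hu.2; omega)
    omega
  rw [Set.ncard_eq_toFinset_card' (Set.Iio (2 ^ (l + 1) - 1)), Set.toFinset_Iio, Nat.card_Iio] at h1
  have h4 : 0 < 2 ^ (l + 1) := by positivity
  omega

theorem NN_length (i : ℕ) : (num (NN i)).length ≤ 2 ^ i + 1 := by
  have h1 := val_ge (num (NN i))
  rw [val_num] at h1
  have h2 := ncard_UL (2 ^ i)
  exact (Nat.pow_le_pow_iff_right (by omega)).mp (h1.trans h2)

/-- blocks of the advice -/
noncomputable def blk (n : ℕ) : List (List Bool) := (List.range n).map (fun i => num (NN i))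

theorem blk_succ (n : ℕ) : blk (n + 1) = blk n ++ [num (NN n)] := by
  unfold blk; rw [List.range_succ, List.map_append]; rfl

theorem blk_length (n : ℕ) : (encL (blk (n + 1))).length ≤ 4 * 2 ^ n + 3 * n + 1 := by
  induction n with
  | zero =>
    rw [blk_succ, encL_append, List.length_append]
    have : blk 0 = [] := rfl
    rw [this, encL_nil, encL_cons, pr_length]
    have := NN_length 0
    simp only [List.length_nil, encL_nil]
    omega
  | succ n ih =>
    rw [blk_succ, encL_append, List.length_append, encL_cons, pr_length]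
    have := NN_length (n + 1)
    simp only [List.length_nil, encL_nil]
    rw [pow_succ] at *
    omega

theorem blk_le (n : ℕ) : (encL (blk (n + 1))).length ≤ 8 * 2 ^ n := by
  refine (blk_length n).trans ?_
  have : 3 * n + 1 ≤ 4 * 2 ^ n := by
    induction n with
    | zero => simp
    | succ n ih =>
      rw [pow_succ]
      have : 0 < 2 ^ n := by positivity
      omega
  omega

theorem blk_pre (n d : ℕ) : ∃ r, encL (blk (n + d)) = encL (blk n) ++ r := by
  induction d with
  | zero => exact ⟨[], by simp⟩
  | succ d ih =>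
    obtain ⟨r, hr⟩ := ih
    rw [← Nat.add_assoc, blk_succ, encL_append, hr]
    exact ⟨_, List.append_assoc _ _ _⟩

theorem blk_ge (n : ℕ) : n ≤ (encL (blk n)).length := by
  refine le_trans ?_ (encL_length _)
  simp [blk]

/-- the advice sequence -/
noncomputable def bcen (n : ℕ) : Bool := (encL (blk (n + 1)))[n]?.getD false

theorem pre_bcen (n : ℕ) : pre bcen n = (encL (blk n)).take n := by
  apply List.ext_getElem?
  intro i
  rw [pre_getElem?, List.getElem?_take]
  split_ifs with h
  · unfold bcen
    obtain ⟨r, hr⟩ := blk_pre (i + 1) (n - (i + 1))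
    have e : i + 1 + (n - (i + 1)) = n := by omega
    rw [e] at hr
    have h1 := blk_ge (i + 1)
    rw [hr, List.getElem?_append_left (by omega)]
    rw [List.getElem?_eq_getElem (by omega)]
    rfl
  · rfl

theorem sn_iter_app (n : ℕ) : ∀ (A : List (List Bool)) (r : List Bool), n ≤ A.length →
    sn^[n] (encL A ++ r) = encL (A.drop n) ++ r := by
  induction n with
  | zero => intro A r _; simp
  | succ n ih =>
    intro A r h
    rw [Function.iterate_succ_apply]
    cases A with
    | nil => simp at h
    | cons x A =>
      rw [encL_cons, pr_app, sn_pr]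
      exact ih A r (by simpa using h)

theorem nth_bcen (i : List Bool) (n : ℕ) (h : 8 * 2 ^ i.length ≤ n) :
    nth i (pre bcen n) = num (NN i.length) := by
  rw [pre_bcen]
  have h1 := blk_le i.length
  have hin : i.length + 1 ≤ n := by
    have : i.length < 2 ^ i.length := Nat.lt_two_pow_self
    omega
  obtain ⟨r, hr⟩ := blk_pre (i.length + 1) (n - (i.length + 1))
  have e : i.length + 1 + (n - (i.length + 1)) = n := by omega
  rw [e] at hr
  rw [hr, List.take_append, List.take_of_length_le (h1.trans h)]
  unfold nth
  rw [sn_iter_app _ _ _ (by simp [blk])]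
  have e2 : (blk (i.length + 1)).drop i.length = [num (NN i.length)] := by
    rw [blk_succ, List.drop_append_of_le_length (by simp [blk])]
    have : (blk i.length).drop i.length = [] := by
      rw [List.drop_eq_nil_iff]; simp [blk]
    rw [this]; rfl
  rw [e2, encL_cons, pr_app, fs_pr]

/-! ### powers of two -/

/-- capped doubling -/
def dbl (b z : List Bool) : List Bool := if (z.drop b.length).isEmpty then z ++ z else z

theorem FP.dblI : FP (fun w => dbl (fs w) (sn w)) := by
  have hb : FP (fun w => fs w) := FP.fsI
  have hz : FP (fun w => sn w) := FP.snI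
  exact FP.ite (FPb.isNil.comp (FP.drop hb hz)) (hz.app hz) hz

theorem dbl_iter_length (b : List Bool) (i : ℕ) :
    ((dbl b)^[i] [true]).length ≤ 2 * b.length + 1 := by
  induction i with
  | zero => simp
  | succ i ih =>
    rw [Function.iterate_succ_apply']
    unfold dbl at *
    split_ifs with h
    · rw [List.isEmpty_iff, List.drop_eq_nil_iff] at h
      rw [List.length_append]; omega
    · exact ih

/-- capped power of two -/
def pw (b i : List Bool) : List Bool := (dbl b)^[i.length] [true]

theorem FP.pwI {f g : List Bool → List Bool} (hf : FP f) (hg : FP g) :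
    FP (fun x => pw (f x) (g x)) := by
  obtain ⟨Q, hQ⟩ := hf.length
  refine FP.iterc (step := dbl) FP.dblI hf hg (FP.const [true]) (2 * Q + 1) (fun x i _ => ?_)
  refine (dbl_iter_length _ _).trans ?_
  have := hQ x
  simp only [eval_add, eval_mul, eval_ofNat, eval_one]
  omega

theorem dbl_iter (b : List Bool) (i : ℕ) :
    (∀ j ≤ i, ((dbl b)^[j] [true]).length ≤ ((dbl b)^[i] [true]).length) ∧
    (((dbl b)^[i] [true]).length ≤ b.length → ((dbl b)^[i] [true]).length = 2 ^ i) ∧
    (2 ^ i ≤ b.length → ((dbl b)^[i] [true]).length = 2 ^ i) := by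
  induction i with
  | zero => simp
  | succ i ih =>
    obtain ⟨h1, h2, h3⟩ := ih
    have hstep : ((dbl b)^[i] [true]).length ≤ ((dbl b)^[i + 1] [true]).length := by
      rw [Function.iterate_succ_apply']
      generalize (dbl b)^[i] [true] = z
      unfold dbl
      split_ifs
      · rw [List.length_append]; omega
      · exact le_rfl
    have hdo : ∀ z : List Bool, z.length ≤ b.length → (dbl b z).length = 2 * z.length := by
      intro z hz
      unfold dbl
      rw [if_pos (by rw [List.isEmpty_iff, List.drop_eq_nil_iff]; omega), List.length_append]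
      omega
    refine ⟨fun j hj => ?_, fun h => ?_, fun h => ?_⟩
    · rcases Nat.le_or_eq_of_le_succ hj with h | h
      · exact (h1 j h).trans hstep
      · rw [h]
    · have h4 := h2 (hstep.trans h)
      rw [Function.iterate_succ_apply', hdo _ (hstep.trans h), h4, pow_succ]; omega
    · rw [pow_succ] at h
      have h4 := h3 (by omega)
      rw [Function.iterate_succ_apply', hdo _ (by omega), h4, pow_succ]; omega

/-! ### the system -/

/-- the checks; `w` the proof without its mode bit, `b` the advice -/
def chk (w b : List Bool) : Bool :=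
  (((pw b (fs w) ++ pw b (fs w)) ++ (pw b (fs w) ++ pw b (fs w))) ++
    ((pw b (fs w) ++ pw b (fs w)) ++ (pw b (fs w) ++ pw b (fs w)))).drop b.length |>.isEmpty

/-- the checks, second part -/
def chk2 (w b : List Bool) : Bool :=
  ((clm (fs (sn w))).drop (pw b (fs w)).length).isEmpty &&
  (decide (fs (sn (lp (pw b (fs w)) (fs (sn (sn w))))) = nth (fs w) b) &&
  !(memS (clm (fs (sn w))) (sn (sn (lp (pw b (fs w)) (fs (sn (sn w))))))))

/-- the universal system; input `pr w b` -/
def Fc (z : List Bool) : List Bool :=
  if (fs z).head?.getD false then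
    (if chk (fs z).tail (sn z) && chk2 (fs z).tail (sn z) then ou (fs (sn (fs z).tail)) else cT)
  else ttF (fs z).tail

theorem FP.FcI : FP Fc := by
  have hw : FP (fun z : List Bool => (fs z).tail) := FP.tail.comp FP.fsI
  have hb : FP (fun z : List Bool => sn z) := FP.snI
  have hp := FP.pwI hb hw.fst
  have h2 := hp.app hp
  have h4 := h2.app h2
  have h8 := h4.app h4
  have hl := FP.lpI hp hw.snd.snd.fst
  have hc := FP.clmI.comp hw.snd.fst
  exact FP.ite (FPb.hd.comp FP.fsI) (FP.ite ((FPb.isNil.comp (FP.drop hb h8)).and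
    ((FPb.isNil.comp (FP.drop hp hc)).and ((FPb.eq hl.snd.fst (FP.nthI hw.fst hb)).and
      (FPb.memI hc hl.snd.snd).not))) (FP.ouI.comp hw.snd.fst) (FP.const cT))
    (FP.ttFI.comp hw)

theorem chk_iff (w b : List Bool) : chk w b = true ↔ 8 * 2 ^ (fs w).length ≤ b.length ∧
    (pw b (fs w)).length = 2 ^ (fs w).length := by
  unfold chk
  rw [List.isEmpty_iff, List.drop_eq_nil_iff]
  simp only [List.length_append]
  have h := dbl_iter b (fs w).length
  have e : pw b (fs w) = (dbl b)^[(fs w).length] [true] := rfl
  rw [e]
  constructor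
  · intro h1
    have h2 := h.2.1 (by omega)
    omega
  · intro h1
    omega

theorem Fc_mem (w : List Bool) (n : ℕ) : Fc (pr w (pre bcen n)) ∈ TAUT := by
  unfold Fc
  rw [fs_pr, sn_pr]
  split_ifs with h1 h2
  · rw [Bool.and_eq_true, chk_iff] at h2
    obtain ⟨⟨h3, h4⟩, h5⟩ := h2
    rw [pre_length] at h3
    unfold chk2 at h5
    obtain ⟨A, hA1, hA2, hA3, hA4⟩ := lp_sound (pw (pre bcen n) (fs w.tail)) (fs (sn (sn w.tail)))
    rw [hA3, hA4, nth_bcen _ _ h3, memS_eq] at h5
    simp only [Bool.and_eq_true, List.isEmpty_iff, List.drop_eq_nil_iff, decide_eq_true_eq,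
      Bool.not_eq_true', decide_eq_false_iff_not] at h5
    obtain ⟨h6, h7, h8⟩ := h5
    have h9 := num_inj h7
    apply ou_mem_of_not
    intro hu
    apply h8
    rw [h4] at h6
    rw [h4] at hA2
    have hsub : (A.toFinset : Set (List Bool)) ⊆ UL (2 ^ (fs w.tail).length) := by
      intro u hu
      exact hA2 u (by simpa using hu)
    have heq : (A.toFinset : Set (List Bool)) = UL (2 ^ (fs w.tail).length) := by
      apply Set.eq_of_subset_of_ncard_le hsub _ (UL_finite _)
      rw [Set.ncard_coe_finset, List.toFinset_card_of_nodup hA1, h9]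
      exact le_rfl
    have hmem : clm (fs (sn w.tail)) ∈ UL (2 ^ (fs w.tail).length) := ⟨hu, h6⟩
    rw [← heq] at hmem
    simpa using hmem
  · exact cT_mem
  · exact ttF_mem _

end Pool.Agent.Work.MP_0532f7_lc
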