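import Mathlib
import Pool.Agent.Work.MP_0532f7_lc.Census

/-!
Completeness of the census system.
-/

namespace Pool.Agent.Work.MP_0532f7_lc

open Polynomial

theorem encL_length_le {B : ℕ} (I : List (List Bool)) (h : ∀ z ∈ I, z.length ≤ B) :
    (encL I).length ≤ I.length * (2 * B + 1) := by
  induction I with
  | nil => simp
  | cons z I ih =>
    rw [encL_cons, pr_length, List.length_cons]
    have h0 : (I.length + 1) * (2 * B + 1) = I.length * (2 * B + 1) + (2 * B + 1) :=
      Nat.succ_mul _ _
    have h1 := h z (by simp)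
    have h2 := ih (fun z' hz' => h z' (by simp [hz']))
    omega

theorem num_bound {n l : ℕ} (h : (num n).length ≤ l) : n ≤ 2 * 2 ^ l := by
  have h1 := val_le (num n)
  rw [val_num] at h1
  have h2 : 2 ^ ((num n).length + 1) ≤ 2 ^ (l + 1) := Nat.pow_le_pow_right (by omega) (by omega)
  rw [pow_succ 2 l] at h2
  omega

theorem item_len {c a x t m : List Bool} {l : ℕ} (h : (clm (mk5 c a x t m)).length ≤ l) :
    (mk5 c a x t m).length ≤ 12 * 2 ^ l + 5 + 2 * m.length := by
  unfold clm at h
  simp only [i0_mk, i1_mk, i2_mk, i3_mk, pr_length, List.length_nil] at h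
  have h1 := num_bound (n := x.length) (l := l) (by omega)
  have h2 := num_bound (n := t.length) (l := l) (by omega)
  have h3 : l < 2 ^ l := Nat.lt_two_pow_self
  unfold mk5
  simp only [pr_length, List.length_nil]
  omega

theorem short_item : ∃ R : Polynomial ℕ, ∀ u ∈ US, ∀ l, u.length ≤ l →
    ∃ z, bdI z = true ∧ clm z = u ∧ z.length ≤ R.eval (2 ^ l) := by
  obtain ⟨Q, hQ⟩ := FP.ouI.length
  refine ⟨17 * X + 2 * Q.comp (17 * X), fun u hu l hl => ?_⟩
  obtain ⟨z, hz, rfl⟩ := hu
  obtain ⟨m, hm, hrf⟩ := exists_rf (rf_not_mem hz)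
  have e0 : ou (mk5 (i0 z) (i1 z) (i2 z) (i3 z) []) = ou z := by simp [ou]
  have e1 : ou (mk5 (i0 z) (i1 z) (i2 z) (i3 z) m) = ou z := by simp [ou]
  have ec0 : clm (mk5 (i0 z) (i1 z) (i2 z) (i3 z) []) = clm z := by simp [clm]
  have ec1 : clm (mk5 (i0 z) (i1 z) (i2 z) (i3 z) m) = clm z := by simp [clm]
  refine ⟨mk5 (i0 z) (i1 z) (i2 z) (i3 z) m, ?_, ec1, ?_⟩
  · unfold bdI
    rw [i4_mk, e1]; exact hrf
  · have h1 := item_len (l := l) (m := m) (c := i0 z) (a := i1 z) (x := i2 z) (t := i3 z)
      (by rw [ec1]; exact hl)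
    have h2 := item_len (l := l) (m := []) (c := i0 z) (a := i1 z) (x := i2 z) (t := i3 z)
      (by rw [ec0]; exact hl)
    have h3 := hQ (mk5 (i0 z) (i1 z) (i2 z) (i3 z) [])
    rw [e0] at h3
    have h5 : 0 < 2 ^ l := by positivity
    have h4 : Q.eval (mk5 (i0 z) (i1 z) (i2 z) (i3 z) []).length ≤ Q.eval (17 * 2 ^ l) :=
      pmono Q (h2.trans (by simp only [List.length_nil]; omega))
    simp only [eval_add, eval_mul, eval_ofNat, eval_X, eval_comp]
    omega

theorem complete : ∃ W : Polynomial ℕ, ∀ (c a x t : List Bool) (i : ℕ),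
    (clm (mk5 c a x t [])).length ≤ 2 ^ i → clm (mk5 c a x t []) ∉ US →
    ∃ w, logAdv Fc bcen w = ou (mk5 c a x t []) ∧ w.length ≤ W.eval (2 ^ (2 ^ i)) := by
  obtain ⟨R, hR⟩ := short_item
  refine ⟨4 + 2 * X + 34 * X + 4 * X * (2 * R + 1) + X ^ 8, fun c a x t i h1 h2 => ?_⟩
  have hch : ∀ u : List Bool, ∃ z, (u ∈ US → u.length ≤ 2 ^ i →
      bdI z = true ∧ clm z = u ∧ z.length ≤ R.eval (2 ^ (2 ^ i))) := by
    intro u
    by_cases hu : u ∈ US ∧ u.length ≤ 2 ^ i
    · obtain ⟨z, hz⟩ := hR u hu.1 _ hu.2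
      exact ⟨z, fun _ _ => hz⟩
    · exact ⟨[], fun h3 h4 => absurd ⟨h3, h4⟩ hu⟩
  choose zz hzz using hch
  set LU := (UL_finite (2 ^ i)).toFinset.toList with hLU
  have hmemL : ∀ u, u ∈ LU ↔ u ∈ US ∧ u.length ≤ 2 ^ i := by
    intro u
    rw [hLU, Finset.mem_toList, Set.Finite.mem_toFinset]; rfl
  have hlenL : LU.length = NN i := by
    rw [hLU, Finset.length_toList, NN, Set.ncard_eq_toFinset_card _ (UL_finite _)]
  set I := LU.map zz with hI
  have hIc : I.map clm = LU := by
    rw [hI, List.map_map]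
    conv_rhs => rw [← List.map_id LU]
    apply List.map_congr_left
    intro u hu
    rw [hmemL] at hu
    exact (hzz u hu.1 hu.2).2.1
  have hIl : I.length = NN i := by rw [hI, List.length_map, hlenL]
  have hIb : ∀ z ∈ I, bdI z = true ∧ (clm z).length ≤ 2 ^ i ∧ z.length ≤ R.eval (2 ^ (2 ^ i)) := by
    intro z hz
    rw [hI, List.mem_map] at hz
    obtain ⟨u, hu, rfl⟩ := hz
    rw [hmemL] at hu
    have h3 := hzz u hu.1 hu.2
    exact ⟨h3.1, by rw [h3.2.1]; exact hu.2, h3.2.2⟩
  obtain ⟨w', hw'⟩ : ∃ w', w' = pr (un i) (pr (mk5 c a x t []) (pr (encL I)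
    (List.replicate (2 ^ (8 * 2 ^ i)) true))) := ⟨_, rfl⟩
  have hwl : (true :: w').length = 1 + (2 * i + 1) + (2 * (mk5 c a x t []).length + 1) +
      (2 * (encL I).length + 1) + 2 ^ (8 * 2 ^ i) := by
    rw [hw', List.length_cons, pr_length, pr_length, pr_length, un_length, List.length_replicate]
    omega
  refine ⟨true :: w', ?_, ?_⟩
  · obtain ⟨n, hn⟩ : ∃ n, n = Nat.log 2 (true :: w').length := ⟨_, rfl⟩
    have hlog : 8 * 2 ^ i ≤ n := by
      rw [hn]
      apply Nat.le_log_of_pow_le (by omega)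
      rw [hwl]; omega
    unfold logAdv
    rw [← hn]
    unfold Fc
    rw [fs_pr, sn_pr, if_pos (by simp), List.tail_cons]
    have hfw : fs w' = un i := by rw [hw', fs_pr]
    have hpw : (pw (pre bcen n) (un i)).length = 2 ^ i := by
      unfold pw
      rw [un_length]
      exact (dbl_iter _ i).2.2 (by rw [pre_length]; omega)
    have hc1 : chk w' (pre bcen n) = true := by
      rw [chk_iff, hfw, un_length, pre_length]
      exact ⟨hlog, hpw⟩
    have hlp : lp (pw (pre bcen n) (un i)) (encL I) =
        pr [] (pr (num (NN i)) (encL ((I.map clm).reverse ++ []))) := by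
      unfold lp
      have h4 := lp_comp (pw (pre bcen n) (un i)) (encL I).length I [] (encL_length I)
        (fun z hz => ⟨(hIb z hz).1, by rw [hpw]; exact (hIb z hz).2.1⟩)
        (by rw [List.append_nil, hIc, hLU]; exact Finset.nodup_toList _)
      rw [List.length_nil, Nat.add_zero, hIl, encL_nil] at h4
      exact h4
    have hc2 : chk2 w' (pre bcen n) = true := by
      unfold chk2
      have e1 : fs (sn w') = mk5 c a x t [] := by rw [hw', sn_pr, fs_pr]
      have e2 : fs (sn (sn w')) = encL I := by rw [hw', sn_pr, sn_pr, fs_pr]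
      rw [hfw, e1, e2, hlp, sn_pr, fs_pr, sn_pr, nth_bcen (un i) n (by rw [un_length]; exact hlog),
        un_length, memS_eq]
      simp only [Bool.and_eq_true, List.isEmpty_iff, List.drop_eq_nil_iff, decide_eq_true_eq,
        Bool.not_eq_true', decide_eq_false_iff_not, true_and]
      refine ⟨by rw [hpw]; exact h1, ?_⟩
      rw [List.append_nil, List.mem_reverse, hIc, hmemL]
      exact fun h => h2 h.1
    rw [hc1, hc2]
    simp only [Bool.and_self, if_true]
    rw [hw', sn_pr, fs_pr]
  · rw [hwl]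
    have b1 := item_len h1
    have b2 := encL_length_le I (fun z hz => (hIb z hz).2.2)
    have b3 : I.length + 1 ≤ 2 ^ (2 ^ i + 1) := by rw [hIl]; exact ncard_UL _
    rw [pow_succ] at b3
    have b4 : i < 2 ^ i := Nat.lt_two_pow_self
    have b5 : 2 ^ i < 2 ^ (2 ^ i) := Nat.lt_two_pow_self
    have b6 : 2 ^ (8 * 2 ^ i) = (2 ^ (2 ^ i)) ^ 8 := by rw [← pow_mul, mul_comm]
    have b7 : I.length * (2 * R.eval (2 ^ (2 ^ i)) + 1) ≤
        2 ^ (2 ^ i) * 2 * (2 * R.eval (2 ^ (2 ^ i)) + 1) := Nat.mul_le_mul_right _ (by omega)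
    have b8 : 0 < 2 ^ (2 ^ i) := by positivity
    rw [b6]
    simp only [eval_add, eval_mul, eval_ofNat, eval_X, eval_pow, eval_one]
    generalize 2 ^ (2 ^ i) = M at *
    simp only [List.length_nil] at b1
    have b9 : 4 * M * (2 * R.eval M + 1) = 2 * (M * 2 * (2 * R.eval M + 1)) := by ring
    rw [b9]
    omega

theorem exists_pow (q : ℕ) (hq : 1 ≤ q) : ∃ i, q ≤ 2 ^ i ∧ 2 ^ i ≤ 2 * q := by
  induction q, hq using Nat.le_induction with
  | base => exact ⟨0, by simp, by simp⟩
  | succ q hq ih =>
    obtain ⟨i, h1, h2⟩ := ih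
    by_cases h : q + 1 ≤ 2 ^ i
    · exact ⟨i, h, by omega⟩
    · refine ⟨i + 1, ?_, ?_⟩ <;> rw [pow_succ] <;> omega

theorem log_bound (n : ℕ) : 2 ^ Nat.log 2 n ≤ n + 1 := by
  rcases Nat.eq_zero_or_pos n with h | h
  · subst h; simp
  · exact (Nat.pow_log_le_self 2 (by omega)).trans (by omega)

theorem census : ∃ (F : List Bool → List Bool) (β : ℕ → Bool), PolyTime F ∧
    Set.range (logAdv F β) = TAUT ∧
    ∀ (G : List Bool → List Bool) (a : ℕ → List Bool) (k : ℕ), PolyTime G →
      (∀ n, (a n).length ≤ k * (Nat.log 2 n + 1)) → (∀ w, lenAdv G a w ∈ TAUT) →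
      Simulates (logAdv F β) (lenAdv G a) := by
  refine ⟨Fc, bcen, FP.FcI.polyTime, ?_, ?_⟩
  · ext w
    constructor
    · rintro ⟨z, rfl⟩; exact Fc_mem z _
    · intro hw
      refine ⟨false :: pr w (List.replicate (2 ^ (w.length + 1)) true), ?_⟩
      unfold logAdv Fc
      rw [fs_pr, if_neg (by simp), List.tail_cons]
      exact ttF_complete hw _ (by simp)
  · intro G a k hG ha hsnd
    obtain ⟨c, P, hc⟩ := ud_spec hG
    obtain ⟨W, hW⟩ := complete
    have key : ∀ x : List Bool, ∃ w, logAdv Fc bcen w = lenAdv G a x ∧ w.length ≤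
        (W.comp ((C (2 ^ (2 * c.length + 4)) * ((2 * (X + 1)) ^ k) ^ 2 * (X + 1) ^ 2 *
          (P.comp (2 * X + 1 + C k * (X + 1)) + 1) ^ 2) ^ 2)).eval x.length := by
      intro x
      obtain ⟨T, hT⟩ : ∃ T, T = P.eval (pr x (a x.length)).length := ⟨_, rfl⟩
      obtain ⟨q, hq⟩ : ∃ q, q = (clm (mk5 c (a x.length) x (un T) [])).length := ⟨_, rfl⟩
      have hq' : q = 2 * c.length + 1 + (2 * (a x.length).length + 1 +
          (2 * (num x.length).length + 1 + (2 * (num T).length + 1))) := by
        rw [hq]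
        unfold clm
        simp only [i0_mk, i1_mk, i2_mk, i3_mk, pr_length, List.length_nil, un_length]
      obtain ⟨i, hi1, hi2⟩ := exists_pow q (by omega)
      have hnot : clm (mk5 c (a x.length) x (un T) []) ∉ US := by
        rintro ⟨z, hz, hze⟩
        apply rf_not_mem hz
        have e0 : i0 z = c := by
          have := congrArg fs hze; simpa [clm] using this
        have e1 : i1 z = a x.length := by
          have := congrArg (fun z => fs (sn z)) hze; simpa [clm] using this
        have e2 : (i2 z).length = x.length := by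
          have := congrArg (fun z => fs (sn (sn z))) hze
          simp only [clm, sn_pr, fs_pr, i2_mk] at this
          exact num_inj this
        unfold ou
        rw [e0, e1]
        rcases (hc (pr (i2 z) (a x.length)) (i3 z)).2 with h | h
        · rw [h]; exact cT_mem
        · rw [h]
          have := hsnd (i2 z)
          unfold lenAdv at this
          rwa [e2] at this
      obtain ⟨w, hw1, hw2⟩ := hW c (a x.length) x (un T) i (by rw [← hq]; exact hi1) hnot
      refine ⟨w, ?_, hw2.trans ?_⟩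
      · rw [hw1]
        unfold ou lenAdv
        simp only [i0_mk, i1_mk, i2_mk, i3_mk]
        exact (hc _ _).1 (by rw [un_length, hT])
      · rw [eval_comp]
        apply pmono
        have h1 : 2 ^ (2 ^ i) ≤ 2 ^ (2 * q) := Nat.pow_le_pow_right (by omega) hi2
        refine h1.trans ?_
        rw [mul_comm 2 q, pow_mul, eval_pow]
        apply Nat.pow_le_pow_left
        have e : 2 ^ q = 2 ^ (2 * c.length + 4) * (2 ^ (a x.length).length) ^ 2 *
            (2 ^ (num x.length).length) ^ 2 * (2 ^ (num T).length) ^ 2 := by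
          rw [hq', ← pow_mul, ← pow_mul, ← pow_mul, ← pow_add, ← pow_add, ← pow_add]
          congr 1
          ring
        rw [e]
        simp only [eval_mul, eval_C, eval_pow, eval_ofNat, eval_add, eval_X, eval_one, eval_comp]
        have hlog : Nat.log 2 x.length ≤ x.length := Nat.log_le_self 2 _
        have g1 : 2 ^ (a x.length).length ≤ (2 * (x.length + 1)) ^ k := by
          refine (Nat.pow_le_pow_right (by omega) (ha x.length)).trans ?_
          rw [mul_comm k, pow_mul]
          apply Nat.pow_le_pow_left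
          rw [pow_succ]
          have := log_bound x.length
          omega
        have g2 : 2 ^ (num x.length).length ≤ x.length + 1 := by
          have := val_ge (num x.length)
          rwa [val_num] at this
        have g3 : 2 ^ (num T).length ≤ P.eval (2 * x.length + 1 + k * (x.length + 1)) + 1 := by
          have h3 := val_ge (num T)
          rw [val_num] at h3
          refine h3.trans ?_
          rw [hT]
          apply Nat.add_le_add_right
          apply pmono
          rw [pr_length]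
          have := ha x.length
          have h4 : k * (Nat.log 2 x.length + 1) ≤ k * (x.length + 1) :=
            Nat.mul_le_mul_left _ (by omega)
          omega
        gcongr
    choose h hh using key
    exact ⟨h, _, hh⟩

end Pool.Agent.Work.MP_0532f7_lc
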