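import Mathlib
import Pool.Agent.Work.MP_0532f7_lc.AdvDefs

/-!
Random prefix advice.
-/

namespace Pool.Agent.Work.MP_0532f7_lc

/-- The distribution of an infinite sequence of independent fair coin flips. -/
noncomputable def coin : MeasureTheory.Measure (ℕ → Bool) :=
  MeasureTheory.Measure.infinitePi (fun _ => (PMF.uniformOfFintype Bool).toMeasure)

/-- The map computed with prefix advice of logarithmic length: on a word of length `n` it uses the
first `k * ⌊log₂ n⌋` bits of the infinite bit sequence `β`. -/
def klogAdv (F : List Bool → List Bool) (k : ℕ) (β : ℕ → Bool) (w : List Bool) : List Bool :=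
  F (pr w (pre β (k * Nat.log 2 w.length)))

/-- The advice sequences with which `F` computes a proof system for tautologies that simulates
every Cook-Reckhow system. -/
def goodAdvice (F : List Bool → List Bool) (k : ℕ) : Set (ℕ → Bool) :=
  {β | Set.range (klogAdv F k β) = TAUT ∧ ∀ g, ProofSystem g → Simulates (klogAdv F k β) g}

end Pool.Agent.Work.MP_0532f7_lc
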