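import Mathlib
import Pool.Agent.Work.MP_0532f7_lc.CoinDefs
import Pool.Agent.Work.MP_0532f7_lc.OutAdv

/-!
Measure-theoretic part of the zero-one law.
-/

namespace Pool.Agent.Work.MP_0532f7_lc

open MeasureTheory

instance instCoinProb : IsProbabilityMeasure coin := by unfold coin; infer_instance

/-- cylinders -/
def cyl (σ : List Bool) : Set (ℕ → Bool) := {β | pre β σ.length = σ}

theorem mem_cyl {σ : List Bool} {β : ℕ → Bool} :
    β ∈ cyl σ ↔ ∀ i (h : i < σ.length), β i = σ[i] := by
  show pre β σ.length = σ ↔ _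
  constructor
  · intro h i hi
    have h1 : (pre β σ.length)[i]? = σ[i]? := by rw [h]
    rw [pre_getElem?, if_pos hi, List.getElem?_eq_getElem hi] at h1
    exact Option.some.inj h1
  · intro h
    apply List.ext_getElem?
    intro i
    rw [pre_getElem?]
    split_ifs with hi
    · rw [List.getElem?_eq_getElem hi, h i hi]
    · rw [List.getElem?_eq_none (by omega)]

theorem cyl_eq_pi (σ : List Bool) : cyl σ = Set.pi (Finset.range σ.length : Set ℕ)
    (fun i => {σ.getD i false}) := by
  ext β
  rw [mem_cyl, Set.mem_pi]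
  constructor
  · intro h i hi
    have hi' : i < σ.length := by simpa using hi
    rw [Set.mem_singleton_iff, h i hi', List.getD_eq_getElem?_getD, List.getElem?_eq_getElem hi']
    rfl
  · intro h i hi
    have := h i (by simpa using hi)
    rw [Set.mem_singleton_iff, List.getD_eq_getElem?_getD, List.getElem?_eq_getElem hi] at this
    exact this

theorem coin_cyl (σ : List Bool) : coin (cyl σ) = (2 : ENNReal)⁻¹ ^ σ.length := by
  rw [cyl_eq_pi]
  unfold coin
  rw [Measure.infinitePi_pi _ (fun i _ => MeasurableSet.singleton _)]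
  have : ∀ b : Bool, (PMF.uniformOfFintype Bool).toMeasure {b} = (2 : ENNReal)⁻¹ := by
    intro b
    rw [PMF.toMeasure_apply_singleton _ _ (MeasurableSet.singleton b)]
    simp
  simp only [this, Finset.prod_const, Finset.card_range]

theorem measurable_cyl (σ : List Bool) : MeasurableSet (cyl σ) := by
  rw [cyl_eq_pi]
  exact MeasurableSet.pi (Finset.countable_toSet _) (fun _ _ => MeasurableSet.singleton _)

theorem pre_take (β : ℕ → Bool) {m n : ℕ} (h : m ≤ n) : (pre β n).take m = pre β m := by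
  apply List.ext_getElem?
  intro i
  rw [List.getElem?_take, pre_getElem?, pre_getElem?]
  split_ifs <;> first | rfl | omega

/-- words of a given length -/
noncomputable def words (m : ℕ) : Finset (List Bool) :=
  (List.finite_length_eq Bool m).toFinset

theorem mem_words {m : ℕ} {b : List Bool} : b ∈ words m ↔ b.length = m := by
  unfold words; rw [Set.Finite.mem_toFinset]; rfl

theorem card_words (m : ℕ) : (words m).card = 2 ^ m := by
  have h := @card_vector Bool _ m
  rw [Fintype.card_bool] at h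
  rw [← h, ← Fintype.card_coe]
  refine Fintype.card_congr ⟨fun b => ⟨b.1, mem_words.mp b.2⟩, fun b => ⟨b.1, mem_words.mpr b.2⟩,
    fun b => rfl, fun b => rfl⟩

theorem coin_le (m : ℕ) (S : Finset (List Bool)) (hS : ∀ b ∈ S, b.length = m)
    (A : Set (ℕ → Bool)) (hA : ∀ β ∈ A, pre β m ∈ S) :
    coin A ≤ S.card * (2 : ENNReal)⁻¹ ^ m := by
  have h1 : A ⊆ ⋃ b ∈ S, cyl b := by
    intro β hβ
    rw [Set.mem_iUnion₂]
    refine ⟨pre β m, hA β hβ, ?_⟩
    show pre β (pre β m).length = pre β m
    rw [pre_length]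
  refine (measure_mono h1).trans ((measure_biUnion_finset_le S _).trans ?_)
  rw [Finset.sum_congr rfl (fun b hb => by rw [coin_cyl, hS b hb]), Finset.sum_const, nsmul_eq_mul]

/-- density -/
theorem density (G : Set (ℕ → Bool)) (hG : coin G ≠ 0) :
    ∃ σ, (2 : ENNReal)⁻¹ ^ σ.length < 2 * coin (G ∩ cyl σ) := by
  by_contra hcon
  push Not at hcon
  have hfin : coin G ≠ ⊤ := measure_ne_top _ _
  have hlt : coin G < 2 * coin G := by
    rw [two_mul]
    exact ENNReal.lt_add_right hfin hG
  obtain ⟨U, hGU, hUo, hU⟩ := G.exists_isOpen_lt_of_lt _ hlt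
  let Un : ℕ → Set (ℕ → Bool) := fun n => {β | cyl (pre β n) ⊆ U}
  have hmono : Monotone (fun n => G ∩ Un n) := by
    intro m n hmn β hβ
    refine ⟨hβ.1, fun γ hγ => hβ.2 ?_⟩
    change pre γ (pre β n).length = pre β n at hγ
    show pre γ (pre β m).length = pre β m
    rw [pre_length] at *
    rw [← pre_take γ hmn, hγ, pre_take β hmn]
  have hun : (⋃ n, G ∩ Un n) = G := by
    apply Set.Subset.antisymm
    · exact Set.iUnion_subset (fun n => Set.inter_subset_left)
    · intro β hβ
      rw [Set.mem_iUnion]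
      have hβU := hGU hβ
      obtain ⟨I, u, hu1, hu2⟩ := isOpen_pi_iff.mp hUo β hβU
      refine ⟨I.sup id + 1, hβ, fun γ hγ => hu2 ?_⟩
      intro i hi
      have hi' : i < I.sup id + 1 := by
        have := Finset.le_sup (f := id) hi
        simp only [id_eq] at this
        omega
      rw [mem_cyl] at hγ
      have h2 := hγ i (by rw [pre_length]; exact hi')
      have h3 : (pre β (I.sup id + 1))[i]? = some (β i) := by rw [pre_getElem?, if_pos hi']
      rw [List.getElem?_eq_getElem (by rw [pre_length]; exact hi')] at h3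
      rw [h2, Option.some.inj h3]
      exact (hu1 i hi).2
  have h1 : coin G = ⨆ n, coin (G ∩ Un n) := by
    rw [← hmono.measure_iUnion, hun]
  have h2 : coin U < 2 * ⨆ n, coin (G ∩ Un n) := by rw [← h1]; exact hU
  have h3 : ∃ n, coin U < 2 * coin (G ∩ Un n) := by
    rw [ENNReal.mul_iSup] at h2
    exact lt_iSup_iff.mp h2
  obtain ⟨n, hn⟩ := h3
  classical
  let S : Finset (List Bool) := (words n).filter (fun b => cyl b ⊆ U)
  have h4 : G ∩ Un n ⊆ ⋃ b ∈ S, (G ∩ cyl b) := by
    intro β hβ
    rw [Set.mem_iUnion₂]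
    refine ⟨pre β n, ?_, hβ.1, ?_⟩
    · rw [Finset.mem_filter, mem_words, pre_length]
      exact ⟨rfl, hβ.2⟩
    · show pre β (pre β n).length = pre β n
      rw [pre_length]
  have h5 : 2 * coin (G ∩ Un n) ≤ ∑ b ∈ S, 2 * coin (G ∩ cyl b) := by
    rw [← Finset.mul_sum]
    gcongr
    exact (measure_mono h4).trans (measure_biUnion_finset_le S _)
  have h6 : ∑ b ∈ S, 2 * coin (G ∩ cyl b) ≤ ∑ b ∈ S, coin (cyl b) := by
    apply Finset.sum_le_sum
    intro b _
    rw [coin_cyl]
    exact hcon b
  have h7 : ∑ b ∈ S, coin (cyl b) = coin (⋃ b ∈ S, cyl b) := by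
    rw [measure_biUnion_finset _ (fun b _ => measurable_cyl b)]
    intro b hb c hc hbc
    rw [Function.onFun, Set.disjoint_left]
    intro β h8 h9
    apply hbc
    change pre β b.length = b at h8
    change pre β c.length = c at h9
    have e1 : b.length = n := mem_words.mp (Finset.mem_filter.mp hb).1
    have e2 : c.length = n := mem_words.mp (Finset.mem_filter.mp hc).1
    rw [e1] at h8
    rw [e2] at h9
    rw [← h8, ← h9]
  have h8 : coin (⋃ b ∈ S, cyl b) ≤ coin U := by
    apply measure_mono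
    exact Set.iUnion₂_subset (fun b hb => (Finset.mem_filter.mp hb).2)
  exact absurd (h5.trans (h6.trans (h7.le.trans h8))) (not_le.mpr hn)

/-- the counting form of density -/
theorem count_ext {σ : List Bool} {A : Set (ℕ → Bool)} (hA : A ⊆ cyl σ)
    (h : (2 : ENNReal)⁻¹ ^ σ.length < 2 * coin A) (m : ℕ) (T : Finset (List Bool))
    (hT : ∀ b ∈ T, b.length = m) (hAT : ∀ β ∈ A, ∃ b ∈ T, pre β (σ.length + m) = σ ++ b) :
    2 ^ m < 2 * T.card := by
  classical
  have h1 := coin_le (σ.length + m) (T.image (fun b => σ ++ b)) (fun b hb => by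
    obtain ⟨c, hc, rfl⟩ := Finset.mem_image.mp hb
    rw [List.length_append, hT c hc]) A (fun β hβ => by
    obtain ⟨b, hb, he⟩ := hAT β hβ
    rw [he]; exact Finset.mem_image_of_mem _ hb)
  have h2 : ((T.image (fun b => σ ++ b)).card : ENNReal) ≤ T.card := by
    exact_mod_cast Finset.card_image_le
  have h3 : (2 : ENNReal)⁻¹ ^ σ.length < 2 * (T.card * (2 : ENNReal)⁻¹ ^ (σ.length + m)) := by
    refine h.trans_le ?_
    gcongr
    refine h1.trans ?_
    gcongr
  by_contra hc
  rw [not_lt] at hc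
  have h4 : (2 : ENNReal) * (T.card * (2 : ENNReal)⁻¹ ^ (σ.length + m)) ≤
      (2 : ENNReal)⁻¹ ^ σ.length := by
    have h5 : (2 : ENNReal) * T.card ≤ 2 ^ m := by exact_mod_cast hc
    calc (2 : ENNReal) * (T.card * (2 : ENNReal)⁻¹ ^ (σ.length + m))
        = (2 * T.card) * (2 : ENNReal)⁻¹ ^ (σ.length + m) := by ring
      _ ≤ 2 ^ m * (2 : ENNReal)⁻¹ ^ (σ.length + m) := by gcongr
      _ = (2 : ENNReal)⁻¹ ^ σ.length * (2 ^ m * (2 : ENNReal)⁻¹ ^ m) := by rw [pow_add]; ring
      _ = (2 : ENNReal)⁻¹ ^ σ.length := by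
        rw [← mul_pow, ENNReal.mul_inv_cancel (by norm_num) (by norm_num), one_pow, mul_one]
  exact absurd h3 (not_lt.mpr h4)

end Pool.Agent.Work.MP_0532f7_lc
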