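import Mathlib
import Pool.Agent.Work.MP_0532f7_lc.Coin
import Pool.Agent.Work.MP_0532f7_lc.Census2

/-!
A zero-one law for advice: the majority system.
-/

namespace Pool.Agent.Work.MP_0532f7_lc

open Polynomial MeasureTheory

/-! ### logarithms -/

theorem num_log (n : ℕ) : (num (n - 1)).length = Nat.log 2 n := by
  rcases Nat.eq_zero_or_pos n with h | h
  · subst h; simp [num]
  · have h1 := val_ge (num (n - 1))
    have h2 := val_le (num (n - 1))
    rw [val_num] at h1 h2
    exact (Nat.log_eq_of_pow_le_of_lt_pow (by omega) (by omega)).symm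

/-- a word of length `k * log₂ |w|` -/
def al : ℕ → List Bool → List Bool
  | 0, _ => []
  | k + 1, w => num w.tail.length ++ al k w

theorem al_length (k : ℕ) (w : List Bool) : (al k w).length = k * Nat.log 2 w.length := by
  induction k with
  | zero => simp [al]
  | succ k ih =>
    rw [al, List.length_append, ih, List.length_tail, num_log]
    ring

theorem FP.alI (k : ℕ) : FP (al k) := by
  induction k with
  | zero => exact FP.nil
  | succ k ih => exact (FP.numI FP.tail).app ih

/-! ### the majority system -/

section

variable (F : List Bool → List Bool) (k : ℕ) (σ : List Bool)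

/-- a table entry `e = pr b w` supports `τ` -/
def sup (τ e : List Bool) : Bool :=
  ((al k (sn e)).drop (σ ++ fs e).length).isEmpty &&
    decide (F (pr (sn e) ((σ ++ fs e).take (al k (sn e)).length)) = τ)

/-- loop body; context `pr τ m`, state `pr entries (pr count words)` -/
def mjS (p z : List Bool) : List Bool :=
  if (fs z).isEmpty then z else
    pr (sn (fs z)) (if (((fs (fs (fs z))).drop (sn p).length).isEmpty &&
        ((sn p).drop (fs (fs (fs z))).length).isEmpty) &&
        (!(memS (fs (fs (fs z))) (sn (sn z))) && sup F k σ (fs p) (fs (fs z))) then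
      pr (true :: fs (sn z)) (pr (fs (fs (fs z))) (sn (sn z))) else sn z)

/-- the loop -/
def mj (p L : List Bool) : List Bool := (mjS F k σ p)^[L.length] (pr L (pr [] []))

/-- the majority system -/
def mjF (w : List Bool) : List Bool :=
  if w.head?.getD false then
    (if ((pw (sn (sn (sn w.tail))) (fs (sn w.tail))).drop (sn (sn (sn w.tail))).length).isEmpty &&
        !(((fs (sn (mj F k σ (pr (fs w.tail) (fs (sn w.tail))) (fs (sn (sn w.tail))))) ++
          fs (sn (mj F k σ (pr (fs w.tail) (fs (sn w.tail))) (fs (sn (sn w.tail)))))).drop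
          (pw (sn (sn (sn w.tail))) (fs (sn w.tail))).length).isEmpty)
      then fs w.tail else cT)
  else ttF w.tail

variable {F}

theorem FPb.supI (hF : FP F) {f g : List Bool → List Bool} (hf : FP f) (hg : FP g) :
    FPb (fun x => sup F k σ (f x) (g x)) := by
  have hb := (FP.const σ).app hg.fst
  have ha := (FP.alI k).comp hg.snd
  exact (FPb.isNil.comp (FP.drop hb ha)).and
    (FPb.eq (hF.comp (hg.snd.pair (FP.take ha hb))) hf)

theorem FP.mjSI (hF : FP F) : FP (fun w => mjS F k σ (fs w) (sn w)) := by
  have hp : FP (fun w => fs w) := FP.fsI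
  have hz : FP (fun w => sn w) := FP.snI
  have he := hz.fst.fst
  exact FP.ite (FPb.isNil.comp hz.fst) hz
    (hz.fst.snd.pair (FP.ite (((FPb.isNil.comp (FP.drop hp.snd he.fst)).and
      (FPb.isNil.comp (FP.drop he.fst hp.snd))).and ((FPb.memI he.fst hz.snd.snd).not.and
        (FPb.supI k σ hF hp.fst he)))
      (((FP.cons true).comp hz.snd.fst).pair (he.fst.pair hz.snd.snd)) hz.snd))

theorem mjS_length (p z : List Bool) : (mjS F k σ p z).length ≤ z.length + 2 * p.length + 6 := by
  have h0 := fs_sn_length z
  have h1 := fs_sn_length (fs z)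
  have h2 := fs_sn_length (sn z)
  unfold mjS
  split_ifs with ha hb
  · omega
  · rw [pr_length, pr_length, pr_length]
    simp only [Bool.and_eq_true, List.isEmpty_iff, List.drop_eq_nil_iff] at hb
    have := hb.1.1
    have := sn_length p
    simp only [List.length_cons]
    omega
  · rw [pr_length]
    omega

theorem mjS_iter_length (p : List Bool) (i : ℕ) : ∀ z : List Bool,
    ((mjS F k σ p)^[i] z).length ≤ z.length + i * (2 * p.length + 6) := by
  induction i with
  | zero => intro z; simp
  | succ i ih =>
    intro z
    rw [Function.iterate_succ_apply]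
    have := ih (mjS F k σ p z)
    have := mjS_length k σ p z (F := F)
    rw [Nat.succ_mul]
    omega

theorem FP.mjI (hF : FP F) {f g : List Bool → List Bool} (hf : FP f) (hg : FP g) :
    FP (fun x => mj F k σ (f x) (g x)) := by
  obtain ⟨Q, hQ⟩ := hf.length
  obtain ⟨R, hR⟩ := hg.length
  refine FP.iterc (step := mjS F k σ) (FP.mjSI k σ hF) hf hg (hg.pair (FP.nil.pair FP.nil))
    (2 * R + 2 + R * (2 * Q + 6)) (fun x i hx => ?_)
  refine (mjS_iter_length _ _ _ _ _).trans ?_
  rw [pr_length, pr_length]
  have h1 := hQ x
  have h2 := hR x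
  have h3 : i * (2 * (f x).length + 6) ≤ R.eval x.length * (2 * Q.eval x.length + 6) :=
    Nat.mul_le_mul (hx.trans h2) (by omega)
  simp only [eval_add, eval_mul, eval_ofNat, List.length_nil]
  omega

theorem FP.mjFI (hF : FP F) : FP (mjF F k σ) := by
  have ht : FP (fun w : List Bool => w.tail) := FP.tail
  have hpw := FP.pwI ht.snd.snd.snd ht.snd.fst
  have hm := (FP.mjI k σ hF (ht.fst.pair ht.snd.fst) ht.snd.snd.fst).snd.fst
  exact FP.ite FPb.hd (FP.ite ((FPb.isNil.comp (FP.drop ht.snd.snd.snd hpw)).and
    (FPb.isNil.comp (FP.drop hpw (hm.app hm))).not) ht.fst (FP.const cT)) (FP.ttFI.comp ht)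

/-- what an accepted table entry provides -/
def good1 (F : List Bool → List Bool) (k : ℕ) (σ τ : List Bool) (m : ℕ) (b : List Bool) : Prop :=
  b.length = m ∧ ∃ w : List Bool, k * Nat.log 2 w.length ≤ (σ ++ b).length ∧
    F (pr w ((σ ++ b).take (k * Nat.log 2 w.length))) = τ

theorem sup_iff (τ e : List Bool) : sup F k σ τ e = true ↔
    k * Nat.log 2 (sn e).length ≤ (σ ++ fs e).length ∧
      F (pr (sn e) ((σ ++ fs e).take (k * Nat.log 2 (sn e).length))) = τ := by
  unfold sup
  rw [Bool.and_eq_true, List.isEmpty_iff, List.drop_eq_nil_iff, decide_eq_true_eq, al_length]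

theorem mj_inv (τ m : List Bool) (n : ℕ) : ∀ (L : List Bool) (A : List (List Bool)), A.Nodup →
    (∀ b ∈ A, good1 F k σ τ m.length b) →
    ∃ (L' : List Bool) (A' : List (List Bool)), A'.Nodup ∧
      (∀ b ∈ A', good1 F k σ τ m.length b) ∧
      (mjS F k σ (pr τ m))^[n] (pr L (pr (un A.length) (encL A))) =
        pr L' (pr (un A'.length) (encL A')) := by
  induction n with
  | zero => intro L A h1 h2; exact ⟨L, A, h1, h2, rfl⟩
  | succ n ih =>
    intro L A h1 h2
    rw [Function.iterate_succ_apply]
    by_cases ha : L.isEmpty = true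
    · have e0 : mjS F k σ (pr τ m) (pr L (pr (un A.length) (encL A))) =
          pr L (pr (un A.length) (encL A)) := by
        unfold mjS
        rw [fs_pr, if_pos ha]
      rw [e0]; exact ih L A h1 h2
    · by_cases hb : (((((fs (fs L)).drop m.length).isEmpty &&
        (m.drop (fs (fs L)).length).isEmpty) &&
        (!(memS (fs (fs L)) (encL A)) && sup F k σ τ (fs L)))) = true
      · have e0 : mjS F k σ (pr τ m) (pr L (pr (un A.length) (encL A))) =
            pr (sn L) (pr (un (fs (fs L) :: A).length) (encL (fs (fs L) :: A))) := by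
          unfold mjS
          simp only [fs_pr, sn_pr]
          rw [if_neg ha, if_pos hb]
          rfl
        rw [e0]
        simp only [Bool.and_eq_true, List.isEmpty_iff, List.drop_eq_nil_iff, Bool.not_eq_true',
          memS_eq, decide_eq_false_iff_not, sup_iff] at hb
        obtain ⟨⟨hb1, hb2⟩, hb3, hb4, hb5⟩ := hb
        refine ih _ _ (List.nodup_cons.mpr ⟨hb3, h1⟩) (fun u hu => ?_)
        rcases List.mem_cons.mp hu with h | h
        · rw [h]; exact ⟨le_antisymm hb1 hb2, sn (fs L), hb4, hb5⟩
        · exact h2 u h
      · have e0 : mjS F k σ (pr τ m) (pr L (pr (un A.length) (encL A))) =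
            pr (sn L) (pr (un A.length) (encL A)) := by
          unfold mjS
          simp only [fs_pr, sn_pr]
          rw [if_neg ha, if_neg hb]
        rw [e0]; exact ih _ A h1 h2

theorem mj_sound (τ m L : List Bool) : ∃ A : List (List Bool), A.Nodup ∧
    (∀ b ∈ A, good1 F k σ τ m.length b) ∧ fs (sn (mj F k σ (pr τ m) L)) = un A.length := by
  obtain ⟨L', A', h1, h2, h3⟩ := mj_inv (F := F) k σ τ m L.length L [] List.nodup_nil (by simp)
  refine ⟨A', h1, h2, ?_⟩
  have : mj F k σ (pr τ m) L = pr L' (pr (un A'.length) (encL A')) := h3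
  rw [this, sn_pr, fs_pr]

theorem mj_comp (τ m : List Bool) (n : ℕ) : ∀ (I A : List (List Bool)), I.length ≤ n →
    (∀ e ∈ I, (fs e).length = m.length ∧ sup F k σ τ e = true) →
    ((I.map fs) ++ A).Nodup →
    (mjS F k σ (pr τ m))^[n] (pr (encL I) (pr (un A.length) (encL A))) =
      pr [] (pr (un (I.length + A.length)) (encL ((I.map fs).reverse ++ A))) := by
  induction n with
  | zero =>
    intro I A h _ _
    have : I = [] := List.length_eq_zero_iff.mp (by omega)
    subst this; simp
  | succ n ih =>
    intro I A h h1 h2
    rw [Function.iterate_succ_apply]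
    cases I with
    | nil =>
      have e : mjS F k σ (pr τ m) (pr (encL []) (pr (un A.length) (encL A))) =
          pr (encL []) (pr (un A.length) (encL A)) := by
        unfold mjS; simp
      rw [e]; exact ih [] A (by simp) h1 h2
    | cons z I =>
      have hz := h1 z (by simp)
      have hn : fs z ∉ A := by
        rw [List.map_cons, List.cons_append, List.nodup_cons, List.mem_append, not_or] at h2
        exact h2.1.2
      have e : mjS F k σ (pr τ m) (pr (encL (z :: I)) (pr (un A.length) (encL A))) =
          pr (encL I) (pr (un (fs z :: A).length) (encL (fs z :: A))) := by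
        unfold mjS
        rw [fs_pr, sn_pr, encL_isEmpty]
        simp only [List.isEmpty_cons, encL_cons, fs_pr, sn_pr]
        rw [if_neg (by simp), if_pos]
        · rfl
        · simp only [Bool.and_eq_true, List.isEmpty_iff, List.drop_eq_nil_iff, Bool.not_eq_true',
            memS_eq, decide_eq_false_iff_not]
          exact ⟨⟨hz.1.le, hz.1.ge⟩, hn, hz.2⟩
      rw [e, ih I (fs z :: A) (by simpa using h) (fun z' hz' => h1 z' (by simp [hz'])) ?_]
      · simp only [List.length_cons, List.map_cons, List.reverse_cons, List.append_assoc,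
          List.singleton_append]
        congr 3
        omega
      · rw [List.nodup_append] at h2 ⊢
        rw [List.map_cons, List.nodup_cons] at h2
        refine ⟨h2.1.2, List.nodup_cons.mpr ⟨hn, h2.2.1⟩, ?_⟩
        intro a ha b hb
        rcases List.mem_cons.mp hb with hb | hb
        · rw [hb]; intro hab; rw [hab] at ha; exact h2.1.1 ha
        · exact h2.2.2 a (by simp [ha]) b hb

end

theorem poly_le (p : Polynomial ℕ) : ∃ j, ∀ n, p.eval n ≤ j * (n + 1) ^ j := by
  induction p using Polynomial.induction_on' with
  | add p q hp hq =>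
    obtain ⟨i, hi⟩ := hp
    obtain ⟨j, hj⟩ := hq
    refine ⟨i + j, fun n => ?_⟩
    rw [eval_add, add_mul]
    have h1 : (n + 1) ^ i ≤ (n + 1) ^ (i + j) := Nat.pow_le_pow_right (by omega) (by omega)
    have h2 : (n + 1) ^ j ≤ (n + 1) ^ (i + j) := Nat.pow_le_pow_right (by omega) (by omega)
    exact Nat.add_le_add ((hi n).trans (Nat.mul_le_mul_left _ h1))
      ((hj n).trans (Nat.mul_le_mul_left _ h2))
  | monomial d c =>
    refine ⟨d + c, fun n => ?_⟩
    rw [eval_monomial]
    have h1 : n ^ d ≤ (n + 1) ^ (d + c) :=
      (Nat.pow_le_pow_left (by omega) d).trans (Nat.pow_le_pow_right (by omega) (by omega))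
    exact Nat.mul_le_mul (by omega) h1

theorem bound_mono (n : ℕ) {i j : ℕ} (h : i ≤ j) : i * (n + 1) ^ i ≤ j * (n + 1) ^ j :=
  Nat.mul_le_mul h (Nat.pow_le_pow_right (by omega) h)

theorem zeroOne (F : List Bool → List Bool) (k : ℕ) (hF : PolyTime F)
    (hG : coin (goodAdvice F k) ≠ 0) : ∃ f, Optimal f := by
  classical
  have hFf := hF.fp
  obtain ⟨σ, hσ⟩ := density _ hG
  set G := goodAdvice F k with hGdef
  have hGS : ∀ β ∈ G, ∀ w, klogAdv F k β w ∈ TAUT := by
    intro β hβ w
    rw [← hβ.1]; exact ⟨w, rfl⟩
  -- soundness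
  have hmem : ∀ w, mjF F k σ w ∈ TAUT := by
    intro w
    unfold mjF
    split_ifs with h1 h2
    · simp only [Bool.and_eq_true, List.isEmpty_iff, List.drop_eq_nil_iff, Bool.not_eq_true',
        List.isEmpty_eq_false_iff, ne_eq, not_le] at h2
      obtain ⟨h3, h4⟩ := h2
      have h5 := (dbl_iter (sn (sn (sn w.tail))) (fs (sn w.tail)).length).2.1 h3
      have h6 : (pw (sn (sn (sn w.tail))) (fs (sn w.tail))).length =
        2 ^ (fs (sn w.tail)).length := h5
      rw [h6] at h4
      obtain ⟨A, hA1, hA2, hA3⟩ := mj_sound (F := F) k σ (fs w.tail) (fs (sn w.tail))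
        (fs (sn (sn w.tail)))
      rw [hA3, List.length_append, un_length] at h4
      generalize fs (sn w.tail) = m at *
      generalize fs w.tail = τ at *
      let T := (words m.length).filter (fun b => ∃ β ∈ G, pre β (σ.length + m.length) = σ ++ b)
      have h7 := count_ext (σ := σ) (A := G ∩ cyl σ) Set.inter_subset_right hσ m.length T
        (fun b hb => mem_words.mp (Finset.mem_filter.mp hb).1) (fun β hβ => by
          have e : pre β (σ.length + m.length) =
              σ ++ (pre β (σ.length + m.length)).drop σ.length := by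
            conv_lhs => rw [← List.take_append_drop σ.length (pre β (σ.length + m.length))]
            rw [pre_take β (by omega)]
            congr 1
            exact hβ.2
          refine ⟨(pre β (σ.length + m.length)).drop σ.length, ?_, e⟩
          rw [Finset.mem_filter, mem_words, List.length_drop, pre_length]
          exact ⟨by omega, β, hβ.1, e⟩)
      have h8 : ∃ b ∈ A.toFinset, b ∈ T := by
        by_contra hc
        push Not at hc
        have hd : Disjoint A.toFinset T := Finset.disjoint_left.mpr hc
        have h9 := Finset.card_union_of_disjoint hd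
        have h10 : (A.toFinset ∪ T).card ≤ (words m.length).card := by
          apply Finset.card_le_card
          apply Finset.union_subset
          · intro b hb
            rw [mem_words]
            exact (hA2 b (by simpa using hb)).1
          · exact Finset.filter_subset _ _
        rw [card_words] at h10
        rw [List.toFinset_card_of_nodup hA1] at h9
        omega
      obtain ⟨b, hbA, hbT⟩ := h8
      obtain ⟨_, w', hw1, hw2⟩ := hA2 b (by simpa using hbA)
      obtain ⟨β, hβ, hβ2⟩ := (Finset.mem_filter.mp hbT).2
      have h11 := hGS β hβ w'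
      unfold klogAdv at h11
      rw [← hβ2, pre_length] at hw1
      rw [← hβ2, pre_take β hw1] at hw2
      rwa [hw2] at h11
    · exact cT_mem
    · exact ttF_mem _
  refine ⟨mjF F k σ, ⟨(FP.mjFI k σ hFf).polyTime, ?_⟩, ?_⟩
  · ext w
    constructor
    · rintro ⟨z, rfl⟩; exact hmem z
    · intro hw
      refine ⟨false :: pr w (List.replicate (2 ^ (w.length + 1)) true), ?_⟩
      unfold mjF
      rw [if_neg (by simp), List.tail_cons]
      exact ttF_complete hw _ (by simp)
  · intro g hg
    let Gj : ℕ → Set (ℕ → Bool) := fun j => {β | β ∈ G ∩ cyl σ ∧ ∀ w : List Bool, ∃ w' : List Bool,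
      w'.length ≤ j * (w.length + 1) ^ j ∧ klogAdv F k β w' = g w}
    have hmono : Monotone Gj := by
      intro i j hij β hβ
      refine ⟨hβ.1, fun w => ?_⟩
      obtain ⟨w', h1, h2⟩ := hβ.2 w
      exact ⟨w', h1.trans (bound_mono _ hij), h2⟩
    have hun : (⋃ j, Gj j) = G ∩ cyl σ := by
      apply Set.Subset.antisymm
      · exact Set.iUnion_subset (fun j β hβ => hβ.1)
      · intro β hβ
        rw [Set.mem_iUnion]
        obtain ⟨h, p, hp⟩ := hβ.1.2 g hg
        obtain ⟨j, hj⟩ := poly_le p
        exact ⟨j, hβ, fun w => ⟨h w, (hp w).2.trans (hj _), (hp w).1⟩⟩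
    have hj : ∃ j, (2 : ENNReal)⁻¹ ^ σ.length < 2 * coin (Gj j) := by
      have h1 := hσ
      rw [← hun, hmono.measure_iUnion, ENNReal.mul_iSup] at h1
      exact lt_iSup_iff.mp h1
    obtain ⟨j, hj⟩ := hj
    obtain ⟨Q, hQ⟩ := hg.1.fp.length
    have key : ∀ w : List Bool, ∃ z, mjF F k σ z = g w ∧ z.length ≤
        (4 + 2 * Q + 3 * (C j * (X + 1) ^ j + 1) ^ k + 2 * ((C j * (X + 1) ^ j + 1) ^ k *
          (2 * (2 * (C j * (X + 1) ^ j + 1) ^ k + 1 + C j * (X + 1) ^ j) + 1))).eval
            w.length := by
      intro w
      obtain ⟨q, hq⟩ : ∃ q, q = j * (w.length + 1) ^ j := ⟨_, rfl⟩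
      obtain ⟨m, hm⟩ : ∃ m, m = k * Nat.log 2 q := ⟨_, rfl⟩
      let T := (words m).filter (fun b => ∃ w' : List Bool, w'.length ≤ q ∧
        F (pr w' ((σ ++ b).take (k * Nat.log 2 w'.length))) = g w)
      have hT : 2 ^ m < 2 * T.card := by
        refine count_ext (σ := σ) (A := Gj j) (fun β hβ => hβ.1.2) hj m T
          (fun b hb => mem_words.mp (Finset.mem_filter.mp hb).1) (fun β hβ => ?_)
        have e : pre β (σ.length + m) = σ ++ (pre β (σ.length + m)).drop σ.length := by
          conv_lhs => rw [← List.take_append_drop σ.length (pre β (σ.length + m))]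
          rw [pre_take β (by omega)]
          congr 1
          exact hβ.1.2
        refine ⟨(pre β (σ.length + m)).drop σ.length, ?_, e⟩
        rw [Finset.mem_filter, mem_words, List.length_drop, pre_length]
        refine ⟨by omega, ?_⟩
        obtain ⟨w', h1, h2⟩ := hβ.2 w
        rw [← hq] at h1
        refine ⟨w', h1, ?_⟩
        have h3 : k * Nat.log 2 w'.length ≤ m := by
          rw [hm]
          exact Nat.mul_le_mul_left _ (Nat.log_mono_right h1)
        rw [← e, pre_take β (by omega)]
        exact h2
      have hch : ∀ b : List Bool, ∃ w' : List Bool, b ∈ T → w'.length ≤ q ∧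
          F (pr w' ((σ ++ b).take (k * Nat.log 2 w'.length))) = g w := by
        intro b
        by_cases hb : b ∈ T
        · obtain ⟨w', hw'⟩ := (Finset.mem_filter.mp hb).2
          exact ⟨w', fun _ => hw'⟩
        · exact ⟨[], fun h => absurd h hb⟩
      choose ww hww using hch
      set I := T.toList.map (fun b => pr b (ww b)) with hI
      have hI1 : I.map fs = T.toList := by
        rw [hI, List.map_map]
        conv_rhs => rw [← List.map_id T.toList]
        apply List.map_congr_left
        intro b _
        simp
      have hI2 : I.length = T.card := by rw [hI, List.length_map, Finset.length_toList]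
      have hI3 : ∀ e ∈ I, (fs e).length = m ∧ sup F k σ (g w) e = true ∧
          e.length ≤ 2 * m + 1 + q := by
        intro e he
        rw [hI, List.mem_map] at he
        obtain ⟨b, hb, rfl⟩ := he
        rw [Finset.mem_toList] at hb
        have h1 := hww b hb
        have h2 : b.length = m := mem_words.mp (Finset.mem_filter.mp hb).1
        refine ⟨by rw [fs_pr]; exact h2, ?_, ?_⟩
        · rw [sup_iff, sn_pr, fs_pr]
          refine ⟨?_, h1.2⟩
          rw [List.length_append, h2, hm]
          have : k * Nat.log 2 (ww b).length ≤ k * Nat.log 2 q :=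
            Nat.mul_le_mul_left _ (Nat.log_mono_right h1.1)
          omega
        · rw [pr_length, h2]; omega
      refine ⟨true :: pr (g w) (pr (un m) (pr (encL I) (List.replicate (2 ^ m) true))), ?_, ?_⟩
      · unfold mjF
        rw [if_pos (by simp)]
        simp only [List.tail_cons, fs_pr, sn_pr]
        have hpw : (pw (List.replicate (2 ^ m) true) (un m)).length = 2 ^ m := by
          unfold pw
          rw [un_length]
          exact (dbl_iter _ m).2.2 (by rw [List.length_replicate])
        have hmj : mj F k σ (pr (g w) (un m)) (encL I) =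
            pr [] (pr (un T.card) (encL ((I.map fs).reverse ++ []))) := by
          unfold mj
          have h4 := mj_comp (F := F) k σ (g w) (un m) (encL I).length I [] (encL_length I)
            (fun e he => ⟨by rw [un_length]; exact (hI3 e he).1, (hI3 e he).2.1⟩)
            (by rw [List.append_nil, hI1]; exact Finset.nodup_toList _)
          rw [List.length_nil, Nat.add_zero, hI2, encL_nil] at h4
          exact h4
        rw [hmj, if_pos]
        rw [sn_pr, fs_pr]
        simp only [Bool.and_eq_true, List.isEmpty_iff, List.drop_eq_nil_iff, Bool.not_eq_true',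
          List.isEmpty_eq_false_iff, ne_eq, not_le]
        rw [hpw, List.length_replicate, List.length_append, un_length]
        exact ⟨le_rfl, by omega⟩
      · have b0 : 2 ^ m ≤ (q + 1) ^ k := by
          rw [hm, mul_comm k, pow_mul]
          exact Nat.pow_le_pow_left (log_bound q) k
        have b1 : m < 2 ^ m := Nat.lt_two_pow_self
        have b2 := encL_length_le I (fun e he => (hI3 e he).2.2)
        have b3 : I.length ≤ 2 ^ m := by
          rw [hI2, ← card_words m]
          exact Finset.card_le_card (Finset.filter_subset _ _)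
        have b4 : I.length * (2 * (2 * m + 1 + q) + 1) ≤
            (q + 1) ^ k * (2 * (2 * (q + 1) ^ k + 1 + q) + 1) :=
          Nat.mul_le_mul (b3.trans b0) (by omega)
        have b5 := hQ w
        simp only [List.length_cons, pr_length, List.length_replicate, un_length]
        simp only [eval_add, eval_mul, eval_ofNat, eval_X, eval_pow, eval_one, eval_C]
        rw [← hq]
        omega
    choose h hh using key
    exact ⟨h, _, hh⟩

end Pool.Agent.Work.MP_0532f7_lc
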