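import Mathlib
import Pool.Agent.Work.MP_0532f7_lc.OSearch
import Pool.Agent.Work.MP_0532f7_lc.OMeasA
import Pool.Agent.Work.MP_0532f7_lc.OMeasB
import Pool.Agent.Work.MP_0532f7_lc.OCnt
import Pool.Agent.Work.MP_0532f7_lc.ZeroOne

/-!
No optimal proof system relative to a random oracle: analysis.
-/

namespace Pool.Agent.Work.MP_0532f7_lc

open Polynomial MeasureTheory

/-! ### events -/

/-- the value computed with oracle `X` -/
def ora (Q C O : List Bool → List Bool) (X : List Bool → Bool) (v : List Bool) : List Bool :=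
  O (pr v (answers Q X v (C v).length))

/-- the formula of level `m` with threshold `c` has a short proof -/
def Acc (Q C O : List Bool → List Bool) (A : List Bool → Bool) (m c : ℕ) :
    Set (List Bool → Bool) :=
  {R | ∃ v : List Bool, v.length ≤ 2 ^ m ∧
    ora Q C O (ojoin A R) v = (tauF (m * m) (m * m + c)).code}

/-- the words `x 1ʲ` -/
def blkW (M : ℕ) (x : List Bool) : Finset (List Bool) :=
  (Finset.range M).image (fun j => x ++ List.replicate j true)

/-- the formula of level `m` with threshold `c` is false -/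
def Fal (m c : ℕ) : Set (List Bool → Bool) :=
  {R | ∃ x ∈ ombWords (m * m), ∀ y ∈ blkW (m * m + c) x, R y = false}

theorem mem_blkW {M : ℕ} {x y : List Bool} :
    y ∈ blkW M x ↔ ∃ j, j < M ∧ x ++ List.replicate j true = y := by
  unfold blkW
  simp only [Finset.mem_image, Finset.mem_range]

theorem card_blkW (M : ℕ) (x : List Bool) : (blkW M x).card = M := by
  unfold blkW
  rw [Finset.card_image_of_injective, Finset.card_range]
  intro a b h
  have := congrArg List.length h
  simpa using this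

theorem blkW_disj {M : ℕ} {x x' : List Bool} (hl : x.length = x'.length) (h : x ≠ x') :
    Disjoint (blkW M x) (blkW M x') := by
  rw [Finset.disjoint_left]
  intro y hy hy'
  obtain ⟨j, _, rfl⟩ := mem_blkW.mp hy
  obtain ⟨j', _, h2⟩ := mem_blkW.mp hy'
  exact h (List.append_inj_left h2.symm hl)

theorem card_ombWords (m : ℕ) : (ombWords m).card = 2 ^ m := by
  rw [← ncard_words m]
  rw [← Set.ncard_coe_finset]
  congr 1
  ext b
  simp [omb_mem_words]

theorem taut_iff (A R : List Bool → Bool) (m c : ℕ) :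
    (∀ v, (tauF (m * m) (m * m + c)).eval (ojoin A R) v = true) ↔ R ∉ Fal m c := by
  rw [tauF_iff]
  constructor
  · rintro h ⟨x, hx, h1⟩
    obtain ⟨j, hj, h2⟩ := h x (omb_mem_words.mp hx)
    have h3 := h1 _ (mem_blkW.mpr ⟨j, hj, rfl⟩)
    change R _ = true at h2
    rw [h2] at h3
    exact absurd h3 (by simp)
  · intro h x hx
    by_contra h1
    push Not at h1
    refine h ⟨x, omb_mem_words.mpr hx, fun y hy => ?_⟩
    obtain ⟨j, hj, rfl⟩ := mem_blkW.mp hy
    have h2 := h1 j hj
    change R _ ≠ true at h2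
    simpa using h2

theorem code_mem_iff (A R : List Bool → Bool) (m c : ℕ) :
    (tauF (m * m) (m * m + c)).code ∈ OTAUT (ojoin A R) ↔ R ∉ Fal m c := by
  rw [← taut_iff A R m c]
  constructor
  · rintro ⟨φ, h1, h2⟩
    rw [← OForm.code_injective h1]
    exact h2
  · intro h
    exact ⟨_, rfl, h⟩

/-! ### bounds -/

/-- at level `m` all computations on short proofs are short -/
def Good (Q C : List Bool → List Bool) (m : ℕ) : Prop :=
  ∀ v : List Bool, v.length ≤ 2 ^ m → 8 * (C v).length ≤ 2 ^ (m * m) ∧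
    ∀ a : List Bool, a.length ≤ (C v).length → (Q (pr v a)).length ≤ 2 ^ (m * m)

theorem poly_pow_le (p : Polynomial ℕ) : ∃ m0, ∀ m, m0 ≤ m → 8 * p.eval (2 ^ m) ≤ 2 ^ (m * m) := by
  obtain ⟨j, hj⟩ := poly_le p
  refine ⟨2 * j + 4, fun m hm => ?_⟩
  have h1 := hj (2 ^ m)
  have h2 : j ≤ 2 ^ j := Nat.lt_two_pow_self.le
  have h3 : 2 ^ m + 1 ≤ 2 ^ (m + 1) := by
    have := Nat.one_le_two_pow (n := m)
    rw [pow_succ]; omega
  have h4 : j * (2 ^ m + 1) ^ j ≤ 2 ^ j * (2 ^ (m + 1)) ^ j := by gcongr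
  have h5 : (2 : ℕ) ^ j * (2 ^ (m + 1)) ^ j = 2 ^ (j + (m + 1) * j) := by
    rw [← pow_mul, ← pow_add]
  have h6 : 8 * 2 ^ (j + (m + 1) * j) = 2 ^ (3 + (j + (m + 1) * j)) := by
    rw [pow_add 2 3]; norm_num
  calc 8 * p.eval (2 ^ m) ≤ 8 * (j * (2 ^ m + 1) ^ j) := by omega
    _ ≤ 8 * (2 ^ (j + (m + 1) * j)) := by rw [← h5]; omega
    _ = 2 ^ (3 + (j + (m + 1) * j)) := h6
    _ ≤ 2 ^ (m * m) := by
      apply Nat.pow_le_pow_right (by omega)
      nlinarith

theorem exists_good {Q C : List Bool → List Bool} (hQ : FP Q) (hC : FP C) :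
    ∃ m0, ∀ m, m0 ≤ m → Good Q C m := by
  obtain ⟨PQ, hPQ⟩ := hQ.length
  obtain ⟨PC, hPC⟩ := hC.length
  obtain ⟨m0, hm0⟩ := poly_pow_le (PC + PQ.comp (2 * X + 1 + PC))
  refine ⟨m0, fun m hm v hv => ?_⟩
  have h1 := hm0 m hm
  have h2 := (hPC v).trans (pmono PC hv)
  simp only [eval_add, eval_comp, eval_mul, eval_ofNat, eval_X, eval_one] at h1
  refine ⟨by omega, fun a ha => ?_⟩
  have h3 := (hPQ (pr v a)).trans (pmono PQ (b := 2 * 2 ^ m + 1 + PC.eval (2 ^ m))
    (by rw [pr_length]; omega))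
  omega

/-! ### tables and oracles -/

theorem look_tab (R : List Bool → Bool) (n : ℕ) (y : List Bool) (h : val y < n) :
    look (tab R n) y = R y := by
  unfold look
  rw [List.head?_drop, omb_tab_getElem?, if_pos h, num_val]
  rfl

theorem lookJ_tab (A R : List Bool → Bool) (n n' : ℕ) (y : List Bool) (m : ℕ)
    (hy : y.length ≤ 2 ^ (m * m)) (hn : tl m ≤ n) (hn' : tl m ≤ n') :
    lookJ (tab A n) (tab R n') y = ojoin A R y := by
  have key : ∀ x : List Bool, x.length ≤ 2 ^ (m * m) → val x < tl m := by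
    intro x hx
    have := val_lt hx
    unfold tl
    omega
  cases y with
  | nil => rfl
  | cons b x =>
    rw [List.length_cons] at hy
    have h1 := key x (by omega)
    cases b with
    | false =>
      show look (tab A n) x = A x
      exact look_tab A n x (by omega)
    | true =>
      show look (tab R n') x = R x
      exact look_tab R n' x (by omega)

theorem orun_tab {Q C : List Bool → List Bool} (O : List Bool → List Bool)
    (A R : List Bool → Bool) (n n' m : ℕ) (hG : Good Q C m) (hn : tl m ≤ n) (hn' : tl m ≤ n')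
    (v : List Bool) (hv : v.length ≤ 2 ^ m) :
    orun Q C O (tab A n) (tab R n') v = ora Q C O (ojoin A R) v := by
  unfold orun ora
  rw [answers_congr Q (ojoin A R) (lookJ (tab A n) (tab R n')) v (C v).length
    (fun k hk => ?_)]
  rw [lookJ_tab A R n n' _ m ((hG v hv).2 _ (by rw [answers_length]; omega)) hn hn']

theorem accT_iff {Q C : List Bool → List Bool} (O : List Bool → List Bool)
    (A R : List Bool → Bool) (n n' m c : ℕ) (hG : Good Q C m) (hn : tl m ≤ n) (hn' : tl m ≤ n') :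
    accT Q C O (tab A n) (tab R n') m c ↔ R ∈ Acc Q C O A m c := by
  constructor
  · rintro ⟨v, h1, h2⟩
    rw [orun_tab O A R n n' m hG hn hn' v h1] at h2
    exact ⟨v, h1, h2⟩
  · rintro ⟨v, h1, h2⟩
    rw [← orun_tab O A R n n' m hG hn hn' v h1] at h2
    exact ⟨v, h1, h2⟩

theorem condT_iff {Q C : List Bool → List Bool} (O : List Bool → List Bool)
    (A : List Bool → Bool) (σ : List Bool) (n m c : ℕ) (hG : Good Q C m) (hn : tl m ≤ n)
    (hσ : σ.length ≤ tl m) :
    condT Q C O (tab A n) σ m c ↔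
      (1 / 2 : ℝ) ^ σ.length ≤ 2 * randomOracle.real (Acc Q C O A m c ∩ ocyl σ) := by
  have e : σ.length + (tl m - σ.length) = tl m := by omega
  rw [ocyl_count σ (tl m - σ.length) (Acc Q C O A m c)
    (fun T => accT Q C O (tab A n) T m c) (fun R _ => by
      rw [e, accT_iff O A R n (tl m) m c hG hn le_rfl])]
  unfold condT
  set N := Set.ncard {b : List Bool | b.length = tl m - σ.length ∧
    accT Q C O (tab A n) (σ ++ b) m c}
  have h1 : (1 / 2 : ℝ) ^ σ.length =
      (2 : ℝ) ^ (tl m - σ.length) * (1 / 2) ^ (σ.length + (tl m - σ.length)) := by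
    rw [pow_add, mul_comm, mul_assoc, ← mul_pow]
    norm_num
  rw [h1, ← mul_assoc, mul_le_mul_iff_left₀ (by positivity)]
  exact_mod_cast Iff.rfl

/-! ### locality of the events -/

/-- words of length at most `L` -/
noncomputable def wle (L : ℕ) : Finset (List Bool) := (Finset.range (L + 1)).biUnion ombWords

theorem mem_wle {L : ℕ} {y : List Bool} : y ∈ wle L ↔ y.length ≤ L := by
  unfold wle
  simp only [Finset.mem_biUnion, Finset.mem_range, omb_mem_words]
  constructor
  · rintro ⟨i, h1, h2⟩; omega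
  · intro h; exact ⟨_, by omega, rfl⟩

/-- the two oracles agree up to length `L` -/
def Agr (L : ℕ) (R R' : List Bool → Bool) : Prop := ∀ y : List Bool, y.length ≤ L → R y = R' y

theorem Agr.symm {L : ℕ} {R R' : List Bool → Bool} (h : Agr L R R') : Agr L R' R :=
  fun y hy => (h y hy).symm

theorem Agr.mono {L L' : ℕ} {R R' : List Bool → Bool} (h : Agr L R R') (hL : L' ≤ L) :
    Agr L' R R' := fun y hy => h y (hy.trans hL)

theorem acc_local {Q C : List Bool → List Bool} (O : List Bool → List Bool)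
    (A R R' : List Bool → Bool) (m c : ℕ) (hG : Good Q C m) (h : Agr (2 ^ (m * m)) R R')
    (hR : R ∈ Acc Q C O A m c) : R' ∈ Acc Q C O A m c := by
  obtain ⟨v, h1, h2⟩ := hR
  refine ⟨v, h1, ?_⟩
  rw [← h2]
  unfold ora
  rw [answers_congr Q (ojoin A R) (ojoin A R') v (C v).length (fun k hk => ?_)]
  have h3 := (hG v h1).2 (answers Q (ojoin A R) v k) (by rw [answers_length]; omega)
  generalize Q (pr v (answers Q (ojoin A R) v k)) = y at h3
  match y, h3 with
  | [], _ => rfl
  | false :: x, _ => rfl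
  | true :: x, h3 =>
    show R x = R' x
    exact h x (by rw [List.length_cons] at h3; omega)

theorem fal_local (R R' : List Bool → Bool) (m c L : ℕ) (hL : 2 * (m * m) + c ≤ L)
    (h : Agr L R R') (hR : R ∈ Fal m c) : R' ∈ Fal m c := by
  obtain ⟨x, h1, h2⟩ := hR
  refine ⟨x, h1, fun y hy => ?_⟩
  rw [← h y ?_]
  · exact h2 y hy
  · obtain ⟨j, hj, rfl⟩ := mem_blkW.mp hy
    have := omb_mem_words.mp h1
    rw [List.length_append, List.length_replicate]
    omega

theorem meas_of_agr (L : ℕ) (W : Set (List Bool → Bool))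
    (h : ∀ R R' : List Bool → Bool, Agr L R R' → R ∈ W → R' ∈ W) : MeasurableSet W :=
  meas_of_dep (wle L) W (fun R R' h1 => h R R' (fun y hy => h1 y (mem_wle.mpr hy)))

theorem ocyl_local (σ : List Bool) (R R' : List Bool → Bool) (L : ℕ) (hL : σ.length ≤ L)
    (h : Agr L R R') (hR : R ∈ ocyl σ) : R' ∈ ocyl σ := by
  rw [omb_mem_ocyl] at *
  intro i hi
  rw [← hR i hi]
  exact (h _ ((num_length i).trans (by omega))).symm

theorem zeroOn_agr (M : ℕ) (x : List Bool) (L : ℕ) (hL : L < x.length) (R : List Bool → Bool) :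
    Agr L R (zeroOn (blkW M x) R) := by
  intro y hy
  unfold zeroOn
  rw [if_neg]
  intro h
  obtain ⟨j, _, rfl⟩ := mem_blkW.mp h
  rw [List.length_append] at hy
  omega

/-! ### errors -/

theorem plant_count {Q C : List Bool → List Bool} (O : List Bool → List Bool)
    (A : List Bool → Bool) (σ : List Bool) (m c : ℕ) (hG : Good Q C m) (hσ : σ.length < m * m)
    (D : Set (List Bool → Bool))
    (hD : ∀ x : List Bool, x.length = m * m → ∀ R, R ∈ D → zeroOn (blkW (m * m + c) x) R ∈ D)
    (R : List Bool → Bool) (hR : R ∈ ocyl σ ∩ D ∩ Acc Q C O A m c) :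
    8 * Set.ncard {x | x ∈ ombWords (m * m) ∧
      zeroOn (blkW (m * m + c) x) R ∉ ocyl σ ∩ D ∩ Acc Q C O A m c} ≤ 2 ^ (m * m) := by
  obtain ⟨⟨hR1, hR2⟩, v, h1, h2⟩ := hR
  have h3 := (hG v h1).1
  refine le_trans ?_ h3
  refine Nat.mul_le_mul_left _ ?_
  have h4 : {x | x ∈ ombWords (m * m) ∧
      zeroOn (blkW (m * m + c) x) R ∉ ocyl σ ∩ D ∩ Acc Q C O A m c} ⊆
      ((Finset.range (C v).length).image (fun k =>
        ((Q (pr v (answers Q (ojoin A R) v k))).tail.take (m * m))) : Set (List Bool)) := by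
    rintro x ⟨hx, h5⟩
    have hxl := omb_mem_words.mp hx
    by_contra h6
    apply h5
    refine ⟨⟨ocyl_local σ R _ σ.length le_rfl (zeroOn_agr _ _ _ (by omega) R) hR1,
      hD x hxl R hR2⟩, v, h1, ?_⟩
    rw [← h2]
    unfold ora
    rw [answers_congr Q (ojoin A R) (ojoin A (zeroOn (blkW (m * m + c) x) R)) v (C v).length
      (fun k hk => ?_)]
    have h7 : (Q (pr v (answers Q (ojoin A R) v k))).tail.take (m * m) ≠ x := by
      intro h8
      apply h6
      rw [Finset.mem_coe, Finset.mem_image]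
      exact ⟨k, Finset.mem_range.mpr hk, h8⟩
    generalize Q (pr v (answers Q (ojoin A R) v k)) = y at h7
    match y, h7 with
    | [], _ => rfl
    | false :: z, _ => rfl
    | true :: z, h7 =>
      show R z = zeroOn (blkW (m * m + c) x) R z
      unfold zeroOn
      rw [if_neg]
      intro h8
      obtain ⟨j, _, rfl⟩ := mem_blkW.mp h8
      apply h7
      rw [List.tail_cons, ← hxl, List.take_left']
      rfl
  refine (Set.ncard_le_ncard h4 (Finset.finite_toSet _)).trans ?_
  rw [Set.ncard_coe_finset]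
  exact Finset.card_image_le.trans (by rw [Finset.card_range])

theorem err_ge {Q C : List Bool → List Bool} (O : List Bool → List Bool)
    (A : List Bool → Bool) (σ : List Bool) (m c L : ℕ) (hG : Good Q C m) (hσ : σ.length < m * m)
    (D : Set (List Bool → Bool)) (hL : L < m * m)
    (hD : ∀ R R' : List Bool → Bool, Agr L R R' → R ∈ D → R' ∈ D) :
    (1 / 2 : ℝ) ^ c * (7 / 8 * randomOracle.real (ocyl σ ∩ D ∩ Acc Q C O A m c) -
        (1 / 2) ^ c * (1 / 2) ^ σ.length) ≤
      randomOracle.real (ocyl σ ∩ D ∩ Acc Q C O A m c ∩ Fal m c) := by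
  set W := ocyl σ ∩ D ∩ Acc Q C O A m c with hW
  have hWm : MeasurableSet W :=
    ((meas_ocyl σ).inter (meas_of_agr L D hD)).inter
      (meas_of_agr (2 ^ (m * m)) _ (fun R R' h => acc_local O A R R' m c hG h))
  have hD' : ∀ x : List Bool, x.length = m * m → ∀ R, R ∈ D →
      zeroOn (blkW (m * m + c) x) R ∈ D := fun x hx R hR =>
    hD R _ (zeroOn_agr _ x L (by omega) R) hR
  have hC : ∀ x ∈ ombWords (m * m), ∀ R,
      zeroOn (blkW (m * m + c) x) R ∈ ocyl σ ↔ R ∈ ocyl σ := fun x hx R => by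
    have hx' := omb_mem_words.mp hx
    have ha := zeroOn_agr (m * m + c) x σ.length (by omega) R
    exact ⟨ocyl_local σ _ _ _ le_rfl ha.symm, ocyl_local σ _ _ _ le_rfl ha⟩
  have h := block_ge (ombWords (m * m)) (blkW (m * m + c)) (m * m + c)
    (fun x _ => card_blkW _ x)
    (fun x hx x' hx' hne => blkW_disj
      ((omb_mem_words.mp hx).trans (omb_mem_words.mp hx').symm) hne)
    (ocyl σ) W (meas_ocyl σ) hWm (fun R hR => hR.1.1) hC (2 ^ (m * m) / 8)
    (fun R hR => by
      have := plant_count O A σ m c hG hσ D hD' R hR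
      rw [← hW] at this
      omega)
  rw [card_ombWords, ocyl_real] at h
  have hc : ((2 ^ (m * m) : ℕ) : ℝ) = 2 ^ (m * m) := by push_cast; rfl
  rw [hc] at h
  refine le_trans ?_ h
  have hp : (1 / 2 : ℝ) ^ (m * m + c) * 2 ^ (m * m) = (1 / 2) ^ c := by
    rw [pow_add, mul_right_comm, ← mul_pow]
    norm_num
  have h8 : ((2 ^ (m * m) / 8 : ℕ) : ℝ) ≤ (2 : ℝ) ^ (m * m) / 8 := by
    refine (Nat.cast_div_le).trans ?_
    push_cast
    exact le_rfl
  have hW0 : 0 ≤ randomOracle.real W := measureReal_nonneg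
  have e1 : (1 / 2 : ℝ) ^ c * (7 / 8 * randomOracle.real W - (1 / 2) ^ c * (1 / 2) ^ σ.length) =
      (1 / 2 : ℝ) ^ (m * m + c) * ((2 ^ (m * m) - 2 ^ (m * m) / 8) * randomOracle.real W -
        2 ^ (m * m) * (2 ^ (m * m) * (1 / 2) ^ (m * m + c) * (1 / 2) ^ σ.length)) := by
    rw [← hp]; ring
  rw [e1]
  gcongr

end Pool.Agent.Work.MP_0532f7_lc
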