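import Mathlib
import Pool.Agent.Work.MP_0532f7_lc.OMain

/-!
For generic oracles, soundness of a proof system is forced by a finite part of the oracle.
-/

namespace Pool.Agent.Work.MP_0532f7_lc

theorem gtop_tab_eq {R R' : List Bool → Bool} {n : ℕ} (h : tab R' n = tab R n) (y : List Bool)
    (hy : val y < n) : R' y = R y := by
  have h1 : (tab R' n)[val y]? = (tab R n)[val y]? := by rw [h]
  rw [omb_tab_getElem?, omb_tab_getElem?, if_pos hy, if_pos hy] at h1
  have h2 : num (val y) = y := val_inj (val_num _)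
  rw [h2] at h1
  exact Option.some.inj h1

theorem gtop_tab_mono {R R' : List Bool → Bool} {m n : ℕ} (hmn : m ≤ n)
    (h : tab R' n = tab R n) : tab R' m = tab R m := by
  rw [← omb_tab_take R' hmn, ← omb_tab_take R hmn, h]

theorem gtop_tab_of {R R' : List Bool → Bool} {n : ℕ} (h : ∀ y, val y < n → R' y = R y) :
    tab R' n = tab R n := by
  unfold tab
  apply List.map_congr_left
  intro k hk
  apply h
  rw [val_num]
  exact List.mem_range.1 hk

mutual

/-- the truth value of a formula depends on finitely many values of the oracle -/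
theorem eval_local (φ : OForm) (v R : List Bool → Bool) :
    ∃ n, ∀ R' : List Bool → Bool, tab R' n = tab R n → φ.eval R' v = φ.eval R v := by
  match φ with
  | .var s => exact ⟨0, fun R' _ => by simp [OForm.eval]⟩
  | .neg ψ =>
    obtain ⟨n, hn⟩ := eval_local ψ v R
    exact ⟨n, fun R' h => by simp [OForm.eval, hn R' h]⟩
  | .imp ψ χ =>
    obtain ⟨n, hn⟩ := eval_local ψ v R
    obtain ⟨m, hm⟩ := eval_local χ v R
    refine ⟨max n m, fun R' h => ?_⟩
    simp [OForm.eval, hn R' (gtop_tab_mono (le_max_left _ _) h),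
      hm R' (gtop_tab_mono (le_max_right _ _) h)]
  | .orc a =>
    obtain ⟨n, hn⟩ := gtop_evals_local a v R
    refine ⟨max n (val (a.evals R v) + 1), fun R' h => ?_⟩
    simp only [OForm.eval]
    rw [hn R' (gtop_tab_mono (le_max_left _ _) h)]
    exact gtop_tab_eq (gtop_tab_mono (le_max_right _ _) h) _ (Nat.lt_succ_self _)

theorem gtop_evals_local (a : OForms) (v R : List Bool → Bool) :
    ∃ n, ∀ R' : List Bool → Bool, tab R' n = tab R n → a.evals R' v = a.evals R v := by
  match a with
  | .nil => exact ⟨0, fun R' _ => by simp [OForms.evals]⟩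
  | .cons ψ b =>
    obtain ⟨n, hn⟩ := eval_local ψ v R
    obtain ⟨m, hm⟩ := gtop_evals_local b v R
    refine ⟨max n m, fun R' h => ?_⟩
    simp [OForms.evals, hn R' (gtop_tab_mono (le_max_left _ _) h),
      hm R' (gtop_tab_mono (le_max_right _ _) h)]

end

theorem gtop_answers_local (Q : List Bool → List Bool) (R : List Bool → Bool) (w : List Bool)
    (k : ℕ) : ∃ n, ∀ R' : List Bool → Bool, tab R' n = tab R n →
      answers Q R' w k = answers Q R w k := by
  refine ⟨(Finset.range k).sup (fun i => val (Q (pr w (answers Q R w i))) + 1), ?_⟩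
  intro R' h
  apply answers_congr
  intro i hi
  symm
  apply gtop_tab_eq h
  have := Finset.le_sup (f := fun i => val (Q (pr w (answers Q R w i))) + 1)
    (Finset.mem_range.2 hi)
  exact this

theorem gtop_nhd {U : Set (List Bool → Bool)} (hU : IsOpen U) {R : List Bool → Bool}
    (hR : R ∈ U) : ∃ n, ∀ R' : List Bool → Bool, tab R' n = tab R n → R' ∈ U := by
  obtain ⟨I, u, h1, h2⟩ := isOpen_pi_iff.1 hU R hR
  refine ⟨I.sup (fun y => val y + 1), fun R' h => h2 ?_⟩
  intro y hy
  have h3 := Finset.le_sup (f := fun y => val y + 1) hy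
  rw [gtop_tab_eq h y h3]
  exact (h1 y hy).2

theorem gtop_open {U : Set (List Bool → Bool)}
    (h : ∀ R ∈ U, ∃ n, ∀ R' : List Bool → Bool, tab R' n = tab R n → R' ∈ U) : IsOpen U := by
  rw [isOpen_iff_forall_mem_open]
  intro R hR
  obtain ⟨n, hn⟩ := h R hR
  refine ⟨⋂ k ∈ Finset.range n, {R' : List Bool → Bool | R' (num k) = R (num k)}, ?_, ?_, ?_⟩
  · intro R' hR'
    simp only [Set.mem_iInter, Finset.mem_range] at hR'
    apply hn
    apply gtop_tab_of
    intro y hy
    have := hR' (val y) hy
    have h2 : num (val y) = y := val_inj (val_num _)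
    rw [h2] at this
    exact this
  · apply isOpen_biInter_finset
    intro k _
    have hc : Continuous (fun R' : List Bool → Bool => R' (num k)) := continuous_apply (num k)
    exact (isOpen_discrete ({R (num k)} : Set Bool)).preimage hc
  · simp

/-- oracles for which the system is not sound -/
def gtop_bad (Q C O : List Bool → List Bool) : Set (List Bool → Bool) :=
  {R | ∃ v, ora Q C O R v ∉ OTAUT R}

theorem gtop_bad_open (Q C O : List Bool → List Bool) : IsOpen (gtop_bad Q C O) := by
  apply gtop_open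
  rintro R ⟨v, hv⟩
  obtain ⟨n1, h1⟩ := gtop_answers_local Q R v (C v).length
  have hora : ∀ R' : List Bool → Bool, tab R' n1 = tab R n1 →
      ora Q C O R' v = ora Q C O R v := by
    intro R' h
    unfold ora
    rw [h1 R' h]
  by_cases hc : ∃ φ : OForm, φ.code = ora Q C O R v
  · obtain ⟨φ, hφ⟩ := hc
    have h2 : ∃ V : List Bool → Bool, φ.eval R V ≠ true := by
      by_contra hcon
      push Not at hcon
      exact hv ⟨φ, hφ, hcon⟩
    obtain ⟨V, hV⟩ := h2
    obtain ⟨n2, h3⟩ := eval_local φ V R
    refine ⟨max n1 n2, fun R' h => ⟨v, ?_⟩⟩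
    rw [hora R' (gtop_tab_mono (le_max_left _ _) h)]
    rintro ⟨ψ, hψ, hψ2⟩
    have h4 : ψ = φ := OForm.code_injective (hψ.trans hφ.symm)
    apply hV
    rw [← h3 R' (gtop_tab_mono (le_max_right _ _) h), ← h4]
    exact hψ2 V
  · refine ⟨n1, fun R' h => ⟨v, ?_⟩⟩
    rw [hora R' h]
    rintro ⟨ψ, hψ, _⟩
    exact hc ⟨ψ, hψ⟩

theorem gtop_residual (Q C O : List Bool → List Bool) :
    gtop_bad Q C O ∪ interior (gtop_bad Q C O)ᶜ ∈ residual (List Bool → Bool) := by
  apply residual_of_dense_open ((gtop_bad_open Q C O).union isOpen_interior)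
  rw [interior_compl]
  intro R
  by_cases h : R ∈ closure (gtop_bad Q C O)
  · exact closure_mono Set.subset_union_left h
  · exact subset_closure (Or.inr h)

/-- for generic oracles, soundness of a system at `R` is forced by a finite part of `R` -/
theorem generic_sound : ∀ᶠ R in residual (List Bool → Bool), ∀ Q C O : List Bool → List Bool,
    PolyTime Q → PolyTime C → PolyTime O → (∀ v, ora Q C O R v ∈ OTAUT R) →
      ∃ n, ∀ R' : List Bool → Bool, tab R' n = tab R n → ∀ v, ora Q C O R' v ∈ OTAUT R' := by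
  have hc := countable_polyTime
  have h1 := (eventually_countable_ball (l := residual (List Bool → Bool))
    (S := {t : (List Bool → List Bool) × (List Bool → List Bool) × (List Bool → List Bool) |
      PolyTime t.1 ∧ PolyTime t.2.1 ∧ PolyTime t.2.2})
    (p := fun R t _ => R ∈ gtop_bad t.1 t.2.1 t.2.2 ∪ interior (gtop_bad t.1 t.2.1 t.2.2)ᶜ) (by
      refine ((hc.prod (hc.prod hc)).mono ?_)
      rintro ⟨a, b, c⟩ ⟨h1, h2, h3⟩
      exact ⟨h1, h2, h3⟩)).mpr (fun t _ => gtop_residual t.1 t.2.1 t.2.2)
  filter_upwards [h1] with R hR Q C O hQ hC hO hs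
  rcases hR (Q, C, O) ⟨hQ, hC, hO⟩ with h | h
  · obtain ⟨v, hv⟩ := h
    exact absurd (hs v) hv
  · obtain ⟨n, hn⟩ := gtop_nhd isOpen_interior h
    refine ⟨n, fun R' h' v => ?_⟩
    by_contra hcon
    exact interior_subset (hn R' h') ⟨v, hcon⟩

end Pool.Agent.Work.MP_0532f7_lc
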