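import Mathlib
import Pool.Agent.Work.MP_0532f7_lc.Univ

/-!
Every polynomial-time function is computed by a table machine.
-/

namespace Pool.Agent.Work.MP_0532f7_lc

open Polynomial Turing

/-- the initial configuration -/
def tinit (q0 K k0 i0 i1 : ℕ) (x : List Bool) : ℕ × List (List ℕ) :=
  (q0, (List.replicate K []).set k0 (x.map (fun b => if b then i1 else i0)))

open Classical in
theorem es_init' (tm : FinTM2) (ia : tm.Γ tm.k₀ ≃ Bool) (oa : tm.Γ tm.k₁ ≃ Bool) (x : List Bool) :
    es tm ia oa (initList tm (x.map ia.symm)).stk =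
      (List.replicate (Fintype.card tm.K) []).set (kid tm tm.k₀)
        (x.map (fun b => if b then ac tm ia oa ⟨tm.k₀, ia.symm true⟩
          else ac tm ia oa ⟨tm.k₀, ia.symm false⟩)) := by
  have e0 : es tm ia oa (fun _ => []) = List.replicate (Fintype.card tm.K) [] := by
    unfold es
    simp only [List.map_nil]
    rw [List.ofFn_const]
  have e1 : (initList tm (x.map ia.symm)).stk =
      @Function.update tm.K _ tm.kDecidableEq (fun _ => []) tm.k₀ (x.map ia.symm) := by
    funext k
    by_cases h : k = tm.k₀
    · subst h; simp [initList]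
    · rw [Function.update_of_ne h]
      simp [initList, h]
  rw [e1, ← es_set, e0, List.map_map]
  congr 1
  apply List.map_congr_left
  intro b _
  cases b <;> rfl

open Classical in
theorem table_k' (tm : FinTM2) (ia : tm.Γ tm.k₀ ≃ Bool) (oa : tm.Γ tm.k₁ ≃ Bool) :
    ∀ row ∈ table tm ia oa, row.getD 1 0 < Fintype.card tm.K := by
  intro r hr
  by_cases h : r.getD 0 0 = 0
  · have hpos : 0 < Fintype.card tm.K := Fintype.card_pos_iff.mpr ⟨tm.k₀⟩
    unfold table at hr
    rw [List.mem_ofFn] at hr
    obtain ⟨i, rfl⟩ := hr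
    revert h
    generalize ((sts tm).equivFin.symm i).1 = x
    obtain ⟨q, v⟩ := x
    cases q with
    | push k f q => intro h; simp [row] at h
    | peek k f q => intro h; simp [row] at h
    | pop k f q => intro h; simp [row] at h
    | load a q => intro h; simp [row] at h
    | branch f q1 q2 => intro h; simp [row] at h
    | goto l => intro h; simp [row] at h
    | halt => intro h; simpa [row] using hpos
  · exact table_k tm ia oa r hr h

open Classical in
theorem table_spec {g : List Bool → List Bool} (hg : PolyTime g) :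
    ∃ (T : List (List ℕ)) (q0 K k0 k1 i0 i1 o1 : ℕ) (P : Polynomial ℕ), k0 < K ∧ k1 < K ∧
      (∀ row ∈ T, row.getD 1 0 < K) ∧
      ∀ x t, P.eval x.length ≤ t →
        (((sstep T)^[t] (tinit q0 K k0 i0 i1 x)).2.getD k1 []).map (fun a => decide (a = o1)) =
          g x := by
  obtain ⟨h⟩ := hg
  set tm := h.tm with htm
  set ia := h.inputAlphabet with hia
  set oa := h.outputAlphabet with hoa
  refine ⟨table tm ia oa, sid tm (tm.m tm.main, tm.initialState), Fintype.card tm.K,
    kid tm tm.k₀, kid tm tm.k₁, ac tm ia oa ⟨tm.k₀, ia.symm false⟩,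
    ac tm ia oa ⟨tm.k₀, ia.symm true⟩, ac tm ia oa ⟨tm.k₁, oa.symm true⟩,
    h.time * C (mxs tm), kid_lt tm _, kid_lt tm _, table_k' tm ia oa, fun x t ht => ?_⟩
  have hs := (h.outputsFun x).evals_in_steps
  have hle := (h.outputsFun x).steps_le_m
  obtain ⟨⟨m, hm, h1⟩, h2, h3⟩ := macro_run tm ia oa _ tm.main tm.initialState
    (initList tm (x.map ia.symm)).stk (good_init tm ia oa x) (haltList tm ((g x).map oa.symm)) rfl hs
  have hzero : ((table tm ia oa).getD (sid tm ((.halt : MS tm), tm.initialState)) []).getD 0 0 =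
      0 := by
    rw [table_sid tm ia oa (mem_sts tm h2 _)]; rfl
  have hhalt : (sid tm (.halt, (haltList tm ((g x).map oa.symm)).var),
      es tm ia oa (haltList tm ((g x).map oa.symm)).stk) =
      (sid tm ((.halt : MS tm), tm.initialState),
        es tm ia oa (haltList tm ((g x).map oa.symm)).stk) := rfl
  have hmt : m ≤ t := by
    refine hm.trans (le_trans ?_ ht)
    rw [eval_mul, eval_C]
    exact Nat.mul_le_mul_right _ hle
  have hfin : (sstep (table tm ia oa))^[t] (sid tm (tm.m tm.main, tm.initialState),
      es tm ia oa (initList tm (x.map ia.symm)).stk) =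
      (sid tm ((.halt : MS tm), tm.initialState),
        es tm ia oa (haltList tm ((g x).map oa.symm)).stk) := by
    obtain ⟨d, hd⟩ : ∃ d, t = d + m := ⟨t - m, by omega⟩
    rw [hd, Function.iterate_add_apply, h1, hhalt, sstep_halt_iter hzero]
  have hinit : tinit (sid tm (tm.m tm.main, tm.initialState)) (Fintype.card tm.K)
      (kid tm tm.k₀) (ac tm ia oa ⟨tm.k₀, ia.symm false⟩)
      (ac tm ia oa ⟨tm.k₀, ia.symm true⟩) x = (sid tm (tm.m tm.main, tm.initialState),
      es tm ia oa (initList tm (x.map ia.symm)).stk) := by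
    unfold tinit
    rw [es_init']
  rw [hinit, hfin]
  show ((es tm ia oa (haltList tm ((g x).map oa.symm)).stk).getD (kid tm tm.k₁) []).map _ = g x
  rw [es_getD]
  have e2 : (haltList tm ((g x).map oa.symm)).stk tm.k₁ = (g x).map oa.symm := by
    simp [haltList]
  rw [e2, List.map_map, List.map_map]
  have hmem : ∀ b, (⟨tm.k₁, oa.symm b⟩ : Σ k, tm.Γ k) ∈ syms tm ia oa := by
    intro b
    unfold syms
    exact Finset.mem_union_right _ (Finset.mem_image.mpr ⟨b, Finset.mem_univ _, rfl⟩)
  conv_rhs => rw [← List.map_id (g x)]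
  apply List.map_congr_left
  intro b _
  simp only [Function.comp_apply, id_eq]
  cases b with
  | true => simp
  | false =>
    rw [decide_eq_false_iff_not]
    intro he
    have h5 := ac_inj tm ia oa (hmem false) (hmem true) he
    simp only [Sigma.mk.injEq, heq_eq_eq, true_and] at h5
    exact absurd (oa.symm.injective h5) (by simp)

end Pool.Agent.Work.MP_0532f7_lc
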