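import Mathlib
import Pool.Agent.Work.MP_0532f7_lc.TabSpec
import Pool.Agent.Work.MP_0532f7_lc.FormFP

/-!
The tableau formula of a table machine.
-/

namespace Pool.Agent.Work.MP_0532f7_lc

/-! ### cells -/

/-- content of a stack cell: `0` if empty, `a + 1` for the symbol `a` -/
def cell (S : List (List ℕ)) (k i : ℕ) : ℕ :=
  match (S.getD k [])[i]? with
  | none => 0
  | some a => a + 1

/-- next state -/
def nx (T : List (List ℕ)) (s c : ℕ) : ℕ :=
  if (T.getD s []).getD 0 0 = 0 then s else
    ((T.getD s []).drop 3).getD
      (if (T.getD s []).getD 0 0 = 1 ∨ (T.getD s []).getD 0 0 = 2 then 0 else c) 0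

/-- source position of a cell -/
def src (T : List (List ℕ)) (s k i : ℕ) : ℕ :=
  if (T.getD s []).getD 0 0 = 2 ∧ (T.getD s []).getD 1 0 = k then i - 1
  else if (T.getD s []).getD 0 0 = 3 ∧ (T.getD s []).getD 1 0 = k then i + 1 else i

/-- new content of a cell -/
def dst (T : List (List ℕ)) (s k i c : ℕ) : ℕ :=
  if ((T.getD s []).getD 0 0 = 2 ∧ (T.getD s []).getD 1 0 = k) ∧ i = 0 then
    (T.getD s []).getD 2 0 + 1 else c

theorem cell_zero (S : List (List ℕ)) (k : ℕ) : cell S k 0 =
    match S.getD k [] with
    | [] => 0
    | a :: _ => a + 1 := by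
  unfold cell
  cases S.getD k [] <;> rfl

theorem sstep_fst (T : List (List ℕ)) (q : ℕ) (S : List (List ℕ)) :
    (sstep T (q, S)).1 = nx T q (cell S ((T.getD q []).getD 1 0) 0) := by
  unfold sstep nx
  rw [cell_zero]
  simp only
  by_cases h0 : (T.getD q []).getD 0 0 = 0
  · rw [if_pos h0, if_pos h0]
  · rw [if_neg h0, if_neg h0]
    rfl

theorem getD_set (S : List (List ℕ)) (j k : ℕ) (st : List ℕ) (hj : j < S.length) :
    (S.set j st).getD k [] = if j = k then st else S.getD k [] := by
  rw [List.getD_eq_getElem?_getD, List.getElem?_set]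
  split_ifs with h
  · rfl
  · rw [List.getD_eq_getElem?_getD]

theorem sstep_cell (T : List (List ℕ)) (q : ℕ) (S : List (List ℕ)) (k i : ℕ)
    (hrow : (T.getD q []).getD 0 0 ≠ 0 → (T.getD q []).getD 1 0 < S.length) :
    cell (sstep T (q, S)).2 k i = dst T q k i (cell S k (src T q k i)) := by
  unfold sstep dst src
  simp only
  by_cases h0 : (T.getD q []).getD 0 0 = 0
  · rw [if_pos h0]
    simp only [h0, show ¬ (0 = 2) by omega, show ¬ (0 = 3) by omega, false_and, if_false]
  · rw [if_neg h0]
    have hj := hrow h0
    generalize T.getD q [] = row at *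
    by_cases hk : row.getD 1 0 = k
    · subst hk
      simp only [and_true]
      by_cases h2 : row.getD 0 0 = 2
      · simp only [h2, if_true, true_and]
        unfold cell
        rw [getD_set _ _ _ _ hj, if_pos rfl]
        cases i with
        | zero => simp
        | succ i => simp
      · by_cases h3 : row.getD 0 0 = 3
        · simp only [h3, if_true, show ¬ (3 = 2) by omega, if_false, false_and]
          unfold cell
          rw [getD_set _ _ _ _ hj, if_pos rfl]
          rw [List.getElem?_tail]
        · simp only [h2, h3, if_false, false_and]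
          unfold cell
          rw [getD_set _ _ _ _ hj, if_pos rfl]
    · simp only [hk, and_false, if_false, false_and]
      unfold cell
      rw [getD_set _ _ _ _ hj, if_neg hk]

/-! ### bounds -/

/-- all numbers of a configuration are small -/
def wf (N : ℕ) (c : ℕ × List (List ℕ)) : Prop :=
  c.1 < N ∧ ∀ k i, cell c.2 k i ≤ N

theorem getD_lt {N : ℕ} (hN : 0 < N) {row : List ℕ} (h : ∀ a ∈ row, a < N) (i : ℕ) :
    row.getD i 0 < N := by
  rw [List.getD_eq_getElem?_getD]
  rcases hi : row[i]? with _ | a
  · simpa using hN
  · exact h a (List.mem_of_getElem? hi)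

theorem row_mem {T : List (List ℕ)} {N : ℕ} (h : ∀ row ∈ T, ∀ a ∈ row, a < N) (q : ℕ) :
    ∀ a ∈ T.getD q [], a < N := by
  intro a ha
  rw [List.getD_eq_getElem?_getD] at ha
  rcases hi : T[q]? with _ | r
  · rw [hi] at ha; simp at ha
  · rw [hi] at ha
    exact h r (List.mem_of_getElem? hi) a ha

theorem row_lt {T : List (List ℕ)} {K : ℕ} (hKpos : 0 < K)
    (hK : ∀ row ∈ T, row.getD 1 0 < K) (q : ℕ) : (T.getD q []).getD 1 0 < K := by
  rcases hq : T[q]? with _ | r
  · have : T.getD q [] = [] := by rw [List.getD_eq_getElem?_getD, hq]; rfl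
    rw [this]; simpa using hKpos
  · have e : T.getD q [] = r := by rw [List.getD_eq_getElem?_getD, hq, Option.getD_some]
    rw [e]; exact hK r (List.mem_of_getElem? hq)

theorem wf_sstep {T : List (List ℕ)} {N K : ℕ} (h : ∀ row ∈ T, ∀ a ∈ row, a < N)
    (hKpos : 0 < K) (hK : ∀ row ∈ T, row.getD 1 0 < K) (c : ℕ × List (List ℕ))
    (hc : wf N c) (hl : c.2.length = K) : wf N (sstep T c) ∧ (sstep T c).2.length = K := by
  obtain ⟨q, S⟩ := c
  have hN : 0 < N := lt_of_le_of_lt (Nat.zero_le _) hc.1
  have hrow := row_mem h q
  have hk : (T.getD q []).getD 0 0 ≠ 0 → (T.getD q []).getD 1 0 < S.length := by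
    intro _
    have := row_lt hKpos hK q
    change S.length = K at hl
    omega
  refine ⟨⟨?_, fun k i => ?_⟩, ?_⟩
  · rw [sstep_fst]
    unfold nx
    split_ifs
    · exact hc.1
    · exact getD_lt hN (fun a ha => hrow a (List.mem_of_mem_drop ha)) _
    · exact getD_lt hN (fun a ha => hrow a (List.mem_of_mem_drop ha)) _
  · rw [sstep_cell T q S k i hk]
    unfold dst
    split_ifs
    · exact getD_lt hN hrow _
    · exact hc.2 _ _
  · rw [← hl]
    unfold sstep
    simp only
    split_ifs <;> simp

/-! ### names -/

theorem encL_inj : ∀ {A B : List (List Bool)}, encL A = encL B → A = B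
  | [], [], _ => rfl
  | [], b :: B, h => by
    exfalso
    rw [encL_nil, encL_cons] at h
    have := congrArg List.length h
    rw [pr_length, List.length_nil] at this
    omega
  | a :: A, [], h => by
    exfalso
    rw [encL_nil, encL_cons] at h
    have := congrArg List.length h
    rw [pr_length, List.length_nil] at this
    omega
  | a :: A, b :: B, h => by
    rw [encL_cons, encL_cons] at h
    have h1 := congrArg fs h
    have h2 := congrArg sn h
    rw [fs_pr, fs_pr] at h1
    rw [sn_pr, sn_pr] at h2
    rw [h1, encL_inj h2]

theorem encN_inj {A B : List ℕ} (h : encN A = encN B) : A = B := by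
  have h1 := encL_inj h
  exact List.map_injective_iff.mpr (fun a b hab => un_inj hab) h1

/-- variable: the state at time `t` is `s` -/
def vQ (t s : ℕ) : Form := .var (encN [t, s])
/-- variable: at time `t` the cell `i` of stack `k` is `c` -/
def vX (t k i c : ℕ) : Form := .var (encN [t, k, i, c])
/-- variable: input bit `j` -/
def vB (j : ℕ) : Form := .var (encN [j])

/-! ### clauses -/

/-- concatenation over `i < n` -/
def catL {α : Type} (f : ℕ → List α) : ℕ → List α
  | 0 => []
  | n + 1 => f n ++ catL f n

theorem mem_catL {α : Type} {f : ℕ → List α} {n : ℕ} {a : α} :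
    a ∈ catL f n ↔ ∃ i < n, a ∈ f i := by
  induction n with
  | zero => simp [catL]
  | succ n ih =>
    rw [catL, List.mem_append, ih]
    constructor
    · rintro (h | ⟨i, hi, h⟩)
      · exact ⟨n, by omega, h⟩
      · exact ⟨i, by omega, h⟩
    · rintro ⟨i, hi, h⟩
      rcases Nat.lt_succ_iff_lt_or_eq.mp hi with h1 | h1
      · exact Or.inr ⟨i, h1, h⟩
      · rw [h1] at h; exact Or.inl h

/-- chain of implications -/
def chain : List Form → Form → Form
  | [], g => g
  | C :: L, g => .imp C (chain L g)

theorem chain_eval (v : List Bool → Bool) (L : List Form) (g : Form) :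
    (chain L g).eval v = true ↔ ((∀ C ∈ L, C.eval v = true) → g.eval v = true) := by
  induction L with
  | nil => simp [chain]
  | cons C L ih =>
    simp only [chain, Form.eval, Bool.or_eq_true, Bool.not_eq_true', ih, List.mem_cons,
      forall_eq_or_imp]
    constructor
    · rintro (h | h) ⟨h1, h2⟩
      · rw [h] at h1; exact absurd h1 (by simp)
      · exact h h2
    · intro h
      by_cases hC : C.eval v = true
      · exact Or.inr (fun h2 => h ⟨hC, h2⟩)
      · exact Or.inl (by simpa using hC)

section

variable (T : List (List ℕ)) (N q0 K k0 k1 i0 i1 o1 : ℕ)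

/-- transition clause for the state -/
def clS (t s c : ℕ) : Form :=
  .imp (vQ t s) (.imp (vX t ((T.getD s []).getD 1 0) 0 c) (vQ (t + 1) (nx T s c)))

/-- transition clause for a cell -/
def clX (t s k i c : ℕ) : Form :=
  .imp (vQ t s) (.imp (vX t k (src T s k i) c) (vX (t + 1) k i (dst T s k i c)))

/-- symbol of an input bit, plus one -/
def bs (b : Bool) : ℕ := (if b then i1 else i0) + 1

/-- clauses for the known input bits -/
def clU (u : List Bool) (i : ℕ) : Form := vX 0 k0 i (bs i0 i1 ((u.drop i).head?.getD false))

/-- clauses for the unknown input bits -/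
def clZ (a j : ℕ) : List Form :=
  [.imp (vB j) (vX 0 k0 (a + j) (bs i0 i1 true)), .imp (.neg (vB j)) (vX 0 k0 (a + j) (bs i0 i1 false))]

/-- all clauses -/
def clauses (u : List Bool) (m τ : ℕ) : List Form :=
  (catL (fun t => catL (fun s => catL (fun c => [clS T t s c]) (N + 1)) N) τ) ++
  ((catL (fun t => catL (fun i => catL (fun s => catL (fun k => catL (fun c => [clX T t s k i c])
    (N + 1)) K) N) (τ + 1)) τ) ++
  ((catL (fun i => [clU k0 i0 i1 u i]) u.length) ++
  ((catL (fun j => clZ k0 i0 i1 u.length j) m) ++
  ((catL (fun i => [vX 0 k0 (u.length + m + i) 0]) (τ + 1)) ++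
  ((catL (fun i => catL (fun k => if k = k0 then [] else [vX 0 k i 0]) K) (τ + 1)) ++
  [vQ 0 q0])))))

/-- the tableau formula -/
def tabF (u : List Bool) (m τ : ℕ) : Form :=
  chain (clauses T N q0 K k0 i0 i1 u m τ) (vX τ k1 0 (o1 + 1))

end

theorem cell_init {q0 K k0 i0 i1 : ℕ} (hk0 : k0 < K) (x : List Bool) (k i : ℕ) :
    cell (tinit q0 K k0 i0 i1 x).2 k i =
      if k = k0 then (match x[i]? with | none => 0 | some b => bs i0 i1 b) else 0 := by
  unfold cell tinit
  simp only
  rw [getD_set _ _ _ _ (by simpa using hk0)]
  by_cases h : k = k0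
  · subst h
    simp only [if_true, List.getElem?_map]
    cases x[i]? with
    | none => rfl
    | some b => cases b <;> rfl
  · rw [if_neg (fun h' => h h'.symm), if_neg h]
    have : (List.replicate K ([] : List ℕ)).getD k [] = [] := by
      rw [List.getD_eq_getElem?_getD, List.getElem?_replicate]
      split_ifs <;> rfl
    rw [this]; rfl

theorem wf_init {q0 K k0 i0 i1 N : ℕ} (hk0 : k0 < K) (hq : q0 < N) (h0 : i0 < N) (h1 : i1 < N)
    (x : List Bool) : wf N (tinit q0 K k0 i0 i1 x) := by
  refine ⟨hq, fun k i => ?_⟩
  rw [cell_init hk0]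
  split_ifs
  · cases x[i]? with
    | none => exact Nat.zero_le _
    | some b => cases b <;> simp [bs] <;> omega
  · exact Nat.zero_le _

theorem wf_iter {T : List (List ℕ)} {N q0 K k0 i0 i1 : ℕ} (h : ∀ row ∈ T, ∀ a ∈ row, a < N)
    (hK : ∀ row ∈ T, row.getD 1 0 < K) (hk0 : k0 < K) (hq : q0 < N)
    (h0 : i0 < N) (h1 : i1 < N) (x : List Bool) (t : ℕ) :
    wf N ((sstep T)^[t] (tinit q0 K k0 i0 i1 x)) ∧
      ((sstep T)^[t] (tinit q0 K k0 i0 i1 x)).2.length = K := by
  induction t with
  | zero => exact ⟨wf_init hk0 hq h0 h1 x, by simp [tinit]⟩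
  | succ t ih =>
    rw [Function.iterate_succ_apply']
    exact wf_sstep h (by omega) hK _ ih.1 ih.2

/-- correctness of the tableau formula -/
theorem tabF_correct {T : List (List ℕ)} {N q0 K k0 k1 i0 i1 o1 : ℕ}
    (h : ∀ row ∈ T, ∀ a ∈ row, a < N)
    (hK : ∀ row ∈ T, row.getD 1 0 < K) (hk0 : k0 < K) (hk1 : k1 < K)
    (hq : q0 < N) (h0 : i0 < N) (h1 : i1 < N)
    (u : List Bool) (m τ : ℕ) :
    (∀ v, (tabF T N q0 K k0 k1 i0 i1 o1 u m τ).eval v = true) ↔
      ∀ z : List Bool, z.length = m →
        cell ((sstep T)^[τ] (tinit q0 K k0 i0 i1 (u ++ z))).2 k1 0 = o1 + 1 := by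
  constructor
  · -- exact valuation
    intro hv z hz
    classical
    set cf := fun t => (sstep T)^[t] (tinit q0 K k0 i0 i1 (u ++ z)) with hcf
    let v : List Bool → Bool := fun w => decide ((∃ t s, w = encN [t, s] ∧ (cf t).1 = s) ∨
      (∃ t k i c, w = encN [t, k, i, c] ∧ cell (cf t).2 k i = c) ∨
      (∃ j, w = encN [j] ∧ z[j]? = some true))
    have vQ_iff : ∀ t s, (vQ t s).eval v = true ↔ (cf t).1 = s := by
      intro t s
      simp only [vQ, Form.eval, v, decide_eq_true_eq]
      constructor
      · rintro (⟨t', s', he, h2⟩ | ⟨t', k', i', c', he, h2⟩ | ⟨j, he, h2⟩)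
        · have := encN_inj he
          simp only [List.cons.injEq, and_true] at this
          rw [this.1, this.2]; exact h2
        · have := encN_inj he; simp at this
        · have := encN_inj he; simp at this
      · intro h2; exact Or.inl ⟨t, s, rfl, h2⟩
    have vX_iff : ∀ t k i c, (vX t k i c).eval v = true ↔ cell (cf t).2 k i = c := by
      intro t k i c
      simp only [vX, Form.eval, v, decide_eq_true_eq]
      constructor
      · rintro (⟨t', s', he, h2⟩ | ⟨t', k', i', c', he, h2⟩ | ⟨j, he, h2⟩)
        · have := encN_inj he; simp at this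
        · have := encN_inj he
          simp only [List.cons.injEq, and_true] at this
          obtain ⟨e1, e2, e3, e4⟩ := this
          rw [e1, e2, e3, e4]; exact h2
        · have := encN_inj he; simp at this
      · intro h2; exact Or.inr (Or.inl ⟨t, k, i, c, rfl, h2⟩)
    have vB_iff : ∀ j, (vB j).eval v = true ↔ z[j]? = some true := by
      intro j
      simp only [vB, Form.eval, v, decide_eq_true_eq]
      constructor
      · rintro (⟨t', s', he, h2⟩ | ⟨t', k', i', c', he, h2⟩ | ⟨j', he, h2⟩)
        · have := encN_inj he; simp at this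
        · have := encN_inj he; simp at this
        · have := encN_inj he
          simp only [List.cons.injEq, and_true] at this
          rw [this]; exact h2
      · intro h2; exact Or.inr (Or.inr ⟨j, rfl, h2⟩)
    have himp : ∀ A B : Form, (Form.imp A B).eval v = true ↔ (A.eval v = true → B.eval v = true) := by
      intro A B
      simp only [Form.eval, Bool.or_eq_true, Bool.not_eq_true']
      cases A.eval v <;> simp
    have hneg : ∀ A : Form, (Form.neg A).eval v = true ↔ ¬ A.eval v = true := by
      intro A
      simp only [Form.eval, Bool.not_eq_true', Bool.not_eq_true]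
    have hwf := fun t => wf_iter h hK hk0 hq h0 h1 (u ++ z) t
    have hstep : ∀ t, cf (t + 1) = sstep T (cf t) := fun t => by
      simp only [hcf]; rw [Function.iterate_succ_apply']
    have hg := (chain_eval v _ _).mp (hv v)
    rw [vX_iff] at hg
    apply hg
    intro C hC
    unfold clauses at hC
    simp only [List.mem_append, mem_catL, List.mem_singleton] at hC
    rcases hC with ⟨t, ht, s, hs, c, hc, rfl⟩ | ⟨t, ht, i, hi, s, hs, k, hk, c, hc, rfl⟩ |
      ⟨i, hi, rfl⟩ | ⟨j, hj, hC⟩ | ⟨i, hi, rfl⟩ | ⟨i, hi, k, hk, hC⟩ | rfl
    · unfold clS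
      rw [himp, himp, vQ_iff, vX_iff, vQ_iff]
      intro e1 e2
      rw [hstep, show cf t = ((cf t).1, (cf t).2) from rfl, sstep_fst, e1, e2]
    · unfold clX
      rw [himp, himp, vQ_iff, vX_iff, vX_iff]
      intro e1 e2
      rw [hstep, show cf t = ((cf t).1, (cf t).2) from rfl, sstep_cell, e1, e2]
      intro h3
      rw [(hwf t).2]
      exact row_lt (by omega) hK _
    · unfold clU
      rw [vX_iff]
      show cell (tinit q0 K k0 i0 i1 (u ++ z)).2 k0 i = _
      rw [cell_init hk0, if_pos rfl, List.getElem?_append_left hi, List.getElem?_eq_getElem hi,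
        List.head?_drop, List.getElem?_eq_getElem hi]
      rfl
    · unfold clZ at hC
      simp only [List.mem_cons, List.not_mem_nil, or_false] at hC
      have e1 : cell (cf 0).2 k0 (u.length + j) = (match z[j]? with
          | none => 0 | some b => bs i0 i1 b) := by
        show cell (tinit q0 K k0 i0 i1 (u ++ z)).2 k0 (u.length + j) = _
        rw [cell_init hk0, if_pos rfl, List.getElem?_append_right (by omega)]
        have : u.length + j - u.length = j := by omega
        rw [this]
      have hj' : j < z.length := by omega
      rcases hC with rfl | rfl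
      · rw [himp, vB_iff, vX_iff, e1]
        intro h2; rw [h2]
      · rw [himp, hneg, vB_iff, vX_iff, e1]
        intro h2
        rw [List.getElem?_eq_getElem hj'] at h2 ⊢
        cases hb : z[j] with
        | true => rw [hb] at h2; exact absurd rfl h2
        | false => rfl
    · rw [vX_iff]
      show cell (tinit q0 K k0 i0 i1 (u ++ z)).2 k0 (u.length + m + i) = _
      rw [cell_init hk0, if_pos rfl, List.getElem?_eq_none (by rw [List.length_append]; omega)]
    · split_ifs at hC with hk'
      · simp at hC
      · rw [List.mem_singleton] at hC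
        subst hC
        rw [vX_iff]
        show cell (tinit q0 K k0 i0 i1 (u ++ z)).2 k i = _
        rw [cell_init hk0, if_neg hk']
    · rw [vQ_iff]; rfl
  · intro hz v
    unfold tabF
    rw [chain_eval]
    intro hC
    have himp : ∀ A B : Form, (Form.imp A B).eval v = true ↔ (A.eval v = true → B.eval v = true) := by
      intro A B
      simp only [Form.eval, Bool.or_eq_true, Bool.not_eq_true']
      cases A.eval v <;> simp
    have hneg : ∀ A : Form, (Form.neg A).eval v = true ↔ ¬ A.eval v = true := by
      intro A
      simp only [Form.eval, Bool.not_eq_true', Bool.not_eq_true]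
    -- the input word
    obtain ⟨z, hzl, hzb⟩ : ∃ z : List Bool, z.length = m ∧
        ∀ j < m, z[j]? = some ((vB j).eval v) := by
      refine ⟨(List.range m).map (fun j => (vB j).eval v), by simp, fun j hj => ?_⟩
      rw [List.getElem?_map, List.getElem?_range hj]; rfl
    have hfin := hz z hzl
    set cf := fun t => (sstep T)^[t] (tinit q0 K k0 i0 i1 (u ++ z)) with hcf
    have hwf := fun t => wf_iter h hK hk0 hq h0 h1 (u ++ z) t
    have hstep : ∀ t, cf (t + 1) = sstep T (cf t) := fun t => by
      simp only [hcf]; rw [Function.iterate_succ_apply']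
    have hmem : ∀ C : Form, C ∈ clauses T N q0 K k0 i0 i1 u m τ → C.eval v = true := hC
    unfold clauses at hmem
    simp only [List.mem_append, mem_catL, List.mem_singleton] at hmem
    have key : ∀ t ≤ τ, (vQ t (cf t).1).eval v = true ∧
        ∀ k < K, ∀ i, t + i ≤ τ → (vX t k i (cell (cf t).2 k i)).eval v = true := by
      intro t
      induction t with
      | zero =>
        intro _
        refine ⟨?_, ?_⟩
        · exact hmem _ (by right; right; right; right; right; right; rfl)
        · intro k hk i hi
          show (vX 0 k i (cell (tinit q0 K k0 i0 i1 (u ++ z)).2 k i)).eval v = true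
          rw [cell_init hk0]
          by_cases hkk : k = k0
          · subst hkk
            rw [if_pos rfl]
            by_cases hi1 : i < u.length
            · rw [List.getElem?_append_left hi1, List.getElem?_eq_getElem hi1]
              have h5 := hmem (clU k i0 i1 u i) (by right; right; left; exact ⟨i, hi1, rfl⟩)
              unfold clU at h5
              rw [List.head?_drop, List.getElem?_eq_getElem hi1] at h5
              exact h5
            · rw [List.getElem?_append_right (by omega)]
              by_cases hi2 : i - u.length < m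
              · rw [hzb _ hi2]
                have e : u.length + (i - u.length) = i := by omega
                cases hb : (vB (i - u.length)).eval v with
                | true =>
                  have h5 := hmem (.imp (vB (i - u.length))
                    (vX 0 k (u.length + (i - u.length)) (bs i0 i1 true)))
                    (by right; right; right; left
                        exact ⟨i - u.length, hi2, by unfold clZ; simp⟩)
                  rw [himp, e] at h5
                  exact h5 hb
                | false =>
                  have h5 := hmem (.imp (.neg (vB (i - u.length)))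
                    (vX 0 k (u.length + (i - u.length)) (bs i0 i1 false)))
                    (by right; right; right; left
                        exact ⟨i - u.length, hi2, by unfold clZ; simp⟩)
                  rw [himp, hneg, e] at h5
                  exact h5 (by rw [hb]; simp)
              · rw [List.getElem?_eq_none (by omega)]
                have h5 := hmem (vX 0 k (u.length + m + (i - u.length - m)) 0)
                  (by right; right; right; right; left
                      exact ⟨i - u.length - m, by omega, rfl⟩)
                have e : u.length + m + (i - u.length - m) = i := by omega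
                rwa [e] at h5
          · rw [if_neg hkk]
            exact hmem (vX 0 k i 0) (by
              right; right; right; right; right; left
              exact ⟨i, by omega, k, hk, by rw [if_neg hkk]; simp⟩)
      | succ t ih =>
        intro ht
        obtain ⟨ih1, ih2⟩ := ih (by omega)
        have hw := hwf t
        have hcell : ∀ k i, cell (cf t).2 k i < N + 1 := fun k i => Nat.lt_succ_of_le (hw.1.2 k i)
        refine ⟨?_, ?_⟩
        · -- state
          have hkk := row_lt (by omega : 0 < K) hK (cf t).1
          have h5 := hmem (clS T t (cf t).1 (cell (cf t).2 ((T.getD (cf t).1 []).getD 1 0) 0))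
            (by left; exact ⟨t, by omega, _, hw.1.1, _, hcell _ _, rfl⟩)
          unfold clS at h5
          rw [himp, himp] at h5
          have h6 := h5 ih1 (ih2 _ hkk 0 (by omega))
          rw [hstep, show cf t = ((cf t).1, (cf t).2) from rfl, sstep_fst]
          exact h6
        · intro k hk i hi
          have hk' : (T.getD (cf t).1 []).getD 0 0 ≠ 0 →
              (T.getD (cf t).1 []).getD 1 0 < (cf t).2.length := by
            intro h3
            rw [hw.2]; exact row_lt (by omega) hK _
          have h5 := hmem (clX T t (cf t).1 k i (cell (cf t).2 k (src T (cf t).1 k i)))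
            (by right; left; exact ⟨t, by omega, i, by omega, _, hw.1.1, k, hk, _, hcell _ _, rfl⟩)
          unfold clX at h5
          rw [himp, himp] at h5
          have hs : t + src T (cf t).1 k i ≤ τ := by
            unfold src; split_ifs <;> omega
          have h6 := h5 ih1 (ih2 k hk _ hs)
          rw [hstep, show cf t = ((cf t).1, (cf t).2) from rfl, sstep_cell _ _ _ _ _ hk']
          exact h6
    have h7 := (key τ le_rfl).2 k1 hk1 0 (by omega)
    rw [← hfin]
    exact h7

end Pool.Agent.Work.MP_0532f7_lc
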