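import Mathlib
import Pool.Agent.Work.MP_0532f7_lc.Tableau
import Pool.Agent.Work.MP_0532f7_lc.Clock

/-!
The tableau formula is computed in polynomial time; coNP-hardness of TAUT.
-/

namespace Pool.Agent.Work.MP_0532f7_lc

open Polynomial

/-! ### loops that produce words -/

theorem catL_iter (F : List Bool → List Bool → List Bool) (p : List Bool) (n : ℕ) :
    (fun z => pr (true :: fs z) (F p (fs z) ++ sn z))^[n] (pr [] []) =
      pr (un n) (catL (fun i => F p (un i)) n) := by
  induction n with
  | zero => rfl
  | succ n ih =>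
    rw [Function.iterate_succ_apply', ih]
    simp only [fs_pr, sn_pr]
    rfl

theorem catL_length (f : ℕ → List Bool) (n B : ℕ) (h : ∀ i < n, (f i).length ≤ B) :
    (catL f n).length ≤ n * B := by
  induction n with
  | zero => simp [catL]
  | succ n ih =>
    rw [catL, List.length_append, Nat.succ_mul]
    have h1 := h n (by omega)
    have h2 := ih (fun i hi => h i (by omega))
    omega

theorem FP.catL {F : List Bool → List Bool → List Bool} (hF : FP (fun z => F (fs z) (sn z)))
    {c h : List Bool → List Bool} (hc : FP c) (hh : FP h) :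
    FP (fun x => catL (fun i => F (h x) (un i)) (c x).length) := by
  obtain ⟨Q, hQ⟩ := hF.length
  obtain ⟨R, hR⟩ := hc.length
  obtain ⟨V, hV⟩ := hh.length
  have hp : FP (fun w => fs w) := FP.fsI
  have hz : FP (fun w => sn w) := FP.snI
  have h1 := FP.iterc (step := fun p z => pr (true :: fs z) (F p (fs z) ++ sn z))
    (((FP.cons true).comp hz.fst).pair (((hF.comp (hp.pair hz.fst)).congr (fun w => by
      simp)).app hz.snd)) hh hc (FP.const (pr [] []))
    (2 * R + 1 + R * Q.comp (2 * V + 1 + R)) (fun x i hi => by
      rw [catL_iter, pr_length, un_length]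
      have a1 := hR x
      have a2 := hV x
      have a3 := catL_length (fun i => F (h x) (un i)) i (Q.eval (2 * V.eval x.length + 1 +
        R.eval x.length)) (fun j hj => by
          have a4 := hQ (pr (h x) (un j))
          simp only [fs_pr, sn_pr] at a4
          refine a4.trans (pmono Q ?_)
          rw [pr_length, un_length]; omega)
      have a5 : i * Q.eval (2 * V.eval x.length + 1 + R.eval x.length) ≤
        R.eval x.length * Q.eval (2 * V.eval x.length + 1 + R.eval x.length) :=
        Nat.mul_le_mul_right _ (hi.trans a1)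
      simp only [eval_add, eval_mul, eval_ofNat, eval_one, eval_comp]
      omega)
  refine h1.snd.congr (fun x => ?_)
  rw [catL_iter, sn_pr]

theorem FP.catC {F : ℕ → List Bool → List Bool} (hF : ∀ i, FP (F i)) (n : ℕ) :
    FP (fun x => Pool.Agent.Work.MP_0532f7_lc.catL (fun i => F i x) n) := by
  induction n with
  | zero => exact FP.nil
  | succ n ih => exact (hF n).app ih

theorem FP.ones {f : List Bool → List Bool} (hf : FP f) : FP (fun x => un (f x).length) := by
  obtain ⟨Q, hQ⟩ := hf.length
  have e : ∀ n, (fun z : List Bool => true :: z)^[n] [] = un n := by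
    intro n; induction n with
    | zero => rfl
    | succ n ih => rw [Function.iterate_succ_apply', ih]; rfl
  refine (FP.iter (FP.cons true) hf FP.nil Q (fun x i hi => ?_)).congr (fun x => e _)
  rw [e, un_length]
  exact hi.trans (hQ x)

/-! ### codes of clauses -/

/-- code of a list of clauses, each preceded by an implication sign -/
def codeC (L : List Form) : List Bool := L.flatMap (fun C => true :: C.code)

theorem codeC_append (A B : List Form) : codeC (A ++ B) = codeC A ++ codeC B := by
  unfold codeC; rw [List.flatMap_append]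

theorem codeC_catL (f : ℕ → List Form) (n : ℕ) :
    codeC (catL f n) = catL (fun i => codeC (f i)) n := by
  induction n with
  | zero => rfl
  | succ n ih => rw [catL, codeC_append, ih]; rfl

theorem codeC_one (C : Form) : codeC [C] = true :: C.code := by simp [codeC]

theorem chain_code (L : List Form) (g : Form) : (chain L g).code = codeC L ++ g.code := by
  induction L with
  | nil => rfl
  | cons C L ih =>
    rw [chain, Form.code, ih]
    simp [codeC]

/-- code of the state variable -/
def qS (y : List Bool) (s : ℕ) : List Bool := false :: false :: pr (pr y (pr (un s) [])) []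
/-- code of the cell variable -/
def xS (y : List Bool) (k : ℕ) (i : List Bool) (c : ℕ) : List Bool :=
  false :: false :: pr (pr y (pr (un k) (pr i (pr (un c) [])))) []
/-- code of the input variable -/
def bS (j : List Bool) : List Bool := false :: false :: pr (pr j []) []

theorem vQ_code (t s : ℕ) : (vQ t s).code = qS (un t) s := rfl
theorem vX_code (t k i c : ℕ) : (vX t k i c).code = xS (un t) k (un i) c := rfl
theorem vB_code (j : ℕ) : (vB j).code = bS (un j) := rfl

theorem FP.qSI {f : List Bool → List Bool} (hf : FP f) (s : ℕ) : FP (fun x => qS (f x) s) :=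
  (FP.cons false).comp ((FP.cons false).comp ((hf.pair ((FP.const (un s)).pair FP.nil)).pair
    FP.nil))

theorem FP.xSI {f g : List Bool → List Bool} (hf : FP f) (k : ℕ) (hg : FP g) (c : ℕ) :
    FP (fun x => xS (f x) k (g x) c) :=
  (FP.cons false).comp ((FP.cons false).comp ((hf.pair ((FP.const (un k)).pair (hg.pair
    ((FP.const (un c)).pair FP.nil)))).pair FP.nil))

theorem FP.bSI {f : List Bool → List Bool} (hf : FP f) : FP (fun x => bS (f x)) :=
  (FP.cons false).comp ((FP.cons false).comp ((hf.pair FP.nil).pair FP.nil))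

section

variable (T : List (List ℕ)) (N q0 K k0 k1 i0 i1 o1 : ℕ)

/-- code of a state clause -/
def clSS (y : List Bool) (s c : ℕ) : List Bool :=
  true :: true :: (qS y s ++ (true :: (xS y ((T.getD s []).getD 1 0) [] c ++
    qS (true :: y) (nx T s c))))

theorem clSS_eq (t s c : ℕ) : codeC [clS T t s c] = clSS T (un t) s c := by
  rw [codeC_one]; rfl

theorem FP.clSSI {f : List Bool → List Bool} (hf : FP f) (s c : ℕ) :
    FP (fun x => clSS T (f x) s c) :=
  (FP.cons true).comp ((FP.cons true).comp ((FP.qSI hf s).app ((FP.cons true).comp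
    ((FP.xSI hf _ FP.nil c).app (FP.qSI ((FP.cons true).comp hf) _)))))

/-- source position as a word -/
def srcS (s k : ℕ) (w : List Bool) : List Bool :=
  if (T.getD s []).getD 0 0 = 2 ∧ (T.getD s []).getD 1 0 = k then w.tail
  else if (T.getD s []).getD 0 0 = 3 ∧ (T.getD s []).getD 1 0 = k then true :: w else w

theorem srcS_eq (s k i : ℕ) : un (src T s k i) = srcS T s k (un i) := by
  unfold src srcS
  split_ifs
  · cases i <;> simp [un, List.replicate_succ]
  · rfl
  · rfl

theorem FP.srcSI (s k : ℕ) {f : List Bool → List Bool} (hf : FP f) :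
    FP (fun x => srcS T s k (f x)) := by
  unfold srcS
  split_ifs
  · exact FP.tail.comp hf
  · exact (FP.cons true).comp hf
  · exact hf

/-- target cell variable as a word -/
def dstS (s k : ℕ) (c : ℕ) (y w : List Bool) : List Bool :=
  if (T.getD s []).getD 0 0 = 2 ∧ (T.getD s []).getD 1 0 = k then
    (if w.isEmpty then xS (true :: y) k w ((T.getD s []).getD 2 0 + 1) else xS (true :: y) k w c)
  else xS (true :: y) k w c

theorem dstS_eq (t s k i c : ℕ) :
    xS (un (t + 1)) k (un i) (dst T s k i c) = dstS T s k c (un t) (un i) := by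
  unfold dst dstS
  by_cases h : (T.getD s []).getD 0 0 = 2 ∧ (T.getD s []).getD 1 0 = k
  · rw [if_pos h]
    cases i with
    | zero => rw [if_pos ⟨h, rfl⟩]; rfl
    | succ i => rw [if_neg (by omega)]; rfl
  · rw [if_neg h, if_neg (fun h' => h h'.1)]; rfl

theorem FP.dstSI (s k c : ℕ) {f g : List Bool → List Bool} (hf : FP f) (hg : FP g) :
    FP (fun x => dstS T s k c (f x) (g x)) := by
  unfold dstS
  split_ifs
  · exact FP.ite (FPb.isNil.comp hg) (FP.xSI ((FP.cons true).comp hf) _ hg _)
      (FP.xSI ((FP.cons true).comp hf) _ hg _)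
  · exact FP.xSI ((FP.cons true).comp hf) _ hg _

/-- code of a cell clause -/
def clXS (s k c : ℕ) (y w : List Bool) : List Bool :=
  true :: true :: (qS y s ++ (true :: (xS y k (srcS T s k w) c ++ dstS T s k c y w)))

theorem clXS_eq (t s k i c : ℕ) : codeC [clX T t s k i c] = clXS T s k c (un t) (un i) := by
  rw [codeC_one]
  unfold clX clXS
  rw [← dstS_eq, ← srcS_eq]
  rfl

theorem FP.clXSI (s k c : ℕ) {f g : List Bool → List Bool} (hf : FP f) (hg : FP g) :
    FP (fun x => clXS T s k c (f x) (g x)) :=
  (FP.cons true).comp ((FP.cons true).comp ((FP.qSI hf s).app ((FP.cons true).comp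
    ((FP.xSI hf _ (FP.srcSI T s k hg) c).app (FP.dstSI T s k c hf hg)))))

/-- code of a clause for a known input bit -/
def clUS (u w : List Bool) : List Bool :=
  true :: (if (u.drop w.length).head?.getD false then xS [] k0 w (bs i0 i1 true)
    else xS [] k0 w (bs i0 i1 false))

theorem clUS_eq (u : List Bool) (i : ℕ) :
    codeC [clU k0 i0 i1 u i] = clUS k0 i0 i1 u (un i) := by
  rw [codeC_one]
  unfold clU clUS
  rw [un_length]
  cases (u.drop i).head?.getD false <;> rfl

theorem FP.clUSI {f g : List Bool → List Bool} (hf : FP f) (hg : FP g) :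
    FP (fun x => clUS k0 i0 i1 (f x) (g x)) :=
  (FP.cons true).comp (FP.ite (FPb.hd.comp (FP.drop hg hf)) (FP.xSI FP.nil _ hg _)
    (FP.xSI FP.nil _ hg _))

/-- code of the clauses for an unknown input bit; `a` the offset -/
def clZS (a w : List Bool) : List Bool :=
  true :: true :: (bS w ++ (xS [] k0 (a ++ w) (bs i0 i1 true) ++
    (true :: true :: false :: true :: (bS w ++ xS [] k0 (a ++ w) (bs i0 i1 false)))))

theorem un_add (a b : ℕ) : un (a + b) = un a ++ un b := by
  unfold un; rw [List.replicate_add]

theorem clZS_eq (a j : ℕ) :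
    codeC (clZ k0 i0 i1 a j) = clZS k0 i0 i1 (un a) (un j) := by
  unfold clZ clZS codeC
  rw [← un_add]
  simp only [List.flatMap_cons, List.flatMap_nil, Form.code, vB_code, vX_code, List.append_nil,
    List.append_assoc, List.cons_append]
  rfl

theorem FP.clZSI {f g : List Bool → List Bool} (hf : FP f) (hg : FP g) :
    FP (fun x => clZS k0 i0 i1 (f x) (g x)) :=
  (FP.cons true).comp ((FP.cons true).comp ((FP.bSI hg).app ((FP.xSI FP.nil _ (hf.app hg) _).app
    ((FP.cons true).comp ((FP.cons true).comp ((FP.cons false).comp ((FP.cons true).comp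
      ((FP.bSI hg).app (FP.xSI FP.nil _ (hf.app hg) _)))))))))

/-- the code of the tableau formula as a word function; `m`, `τ` given by lengths -/
def gen (u mm tt : List Bool) : List Bool :=
  (catL (fun t => catL (fun s => catL (fun c => clSS T (un t) s c) (N + 1)) N) tt.length ++
  (catL (fun t => catL (fun i => catL (fun s => catL (fun k => catL (fun c =>
    clXS T s k c (un t) (un i)) (N + 1)) K) N) (true :: tt).length) tt.length ++
  (catL (fun i => clUS k0 i0 i1 u (un i)) u.length ++
  (catL (fun j => clZS k0 i0 i1 (un u.length) (un j)) mm.length ++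
  (catL (fun i => true :: xS [] k0 ((un u.length ++ un mm.length) ++ un i) 0)
    (true :: tt).length ++
  (catL (fun i => catL (fun k => if k = k0 then [] else true :: xS [] k (un i) 0) K)
    (true :: tt).length ++
  (true :: qS [] q0))))))) ++ xS (un tt.length) k1 [] (o1 + 1)

theorem gen_eq (u mm tt : List Bool) : (tabF T N q0 K k0 k1 i0 i1 o1 u mm.length tt.length).code =
    gen T N q0 K k0 k1 i0 i1 o1 u mm tt := by
  unfold tabF gen clauses
  rw [chain_code]
  simp only [codeC_append, codeC_catL, clSS_eq, clXS_eq, clUS_eq, clZS_eq]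
  simp only [codeC_one, List.length_cons, vX_code, un_add]
  have e : ∀ i k, codeC (if k = k0 then [] else [vX 0 k i 0]) =
      (if k = k0 then [] else true :: xS [] k (un i) 0) := by
    intro i k
    split_ifs
    · rfl
    · rw [codeC_one]; rfl
  simp only [e]
  rfl

theorem FP.genI {f g h : List Bool → List Bool} (hf : FP f) (hg : FP g) (hh : FP h) :
    FP (fun x => gen T N q0 K k0 k1 i0 i1 o1 (f x) (g x) (h x)) := by
  have hp : FP (fun w => fs w) := FP.fsI
  have hz : FP (fun w => sn w) := FP.snI
  have hh1 := (FP.cons true).comp hh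
  have p1 := FP.catL (F := fun _ y => Pool.Agent.Work.MP_0532f7_lc.catL (fun s =>
    Pool.Agent.Work.MP_0532f7_lc.catL (fun c => clSS T y s c) (N + 1)) N)
    (FP.catC (fun s => FP.catC (fun c => FP.clSSI T hz s c) (N + 1)) N) hh FP.nil
  have p2 := FP.catL (F := fun p y => Pool.Agent.Work.MP_0532f7_lc.catL (fun i =>
    Pool.Agent.Work.MP_0532f7_lc.catL (fun s => Pool.Agent.Work.MP_0532f7_lc.catL (fun k =>
      Pool.Agent.Work.MP_0532f7_lc.catL (fun c => clXS T s k c y (un i)) (N + 1)) K) N)
        (true :: p).length)
    (FP.catL (F := fun y w => Pool.Agent.Work.MP_0532f7_lc.catL (fun s =>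
      Pool.Agent.Work.MP_0532f7_lc.catL (fun k => Pool.Agent.Work.MP_0532f7_lc.catL
        (fun c => clXS T s k c y w) (N + 1)) K) N)
      (FP.catC (fun s => FP.catC (fun k => FP.catC (fun c => FP.clXSI T s k c hp hz) (N + 1)) K)
        N) ((FP.cons true).comp hp) hz) hh hh
  have p3 := FP.catL (F := fun p w => clUS k0 i0 i1 p w) (FP.clUSI k0 i0 i1 hp hz) hf hf
  have p4 := FP.catL (F := fun p w => clZS k0 i0 i1 p w) (FP.clZSI k0 i0 i1 hp hz) hg (FP.ones hf)
  have p5 := FP.catL (F := fun p w => true :: xS [] k0 (p ++ w) 0)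
    ((FP.cons true).comp (FP.xSI FP.nil _ (hp.app hz) _)) hh1 ((FP.ones hf).app (FP.ones hg))
  have p6 := FP.catL (F := fun _ w => Pool.Agent.Work.MP_0532f7_lc.catL (fun k =>
    if k = k0 then [] else true :: xS [] k w 0) K)
    (FP.catC (fun k => by
      by_cases hk : k = k0
      · simp only [if_pos hk]; exact FP.nil
      · simp only [if_neg hk]; exact (FP.cons true).comp (FP.xSI FP.nil _ hz _)) K) hh1 FP.nil
  exact (p1.app (p2.app (p3.app (p4.app (p5.app (p6.app (FP.const _))))))).app
    (FP.xSI (FP.ones hh) _ FP.nil _)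

end

/-- coNP-hardness of TAUT: for a polynomial-time `R` and a polynomial `p` -/
theorem cook_levin {R : List Bool → List Bool} (hR : PolyTime R) (p : Polynomial ℕ) :
    ∃ r : List Bool → List Bool, PolyTime r ∧
      ∀ x, r x ∈ TAUT ↔ ∀ y : List Bool, y.length ≤ p.eval x.length → R (pr x y) ≠ [true] := by
  have hRf := hR.fp
  -- the modified predicate
  let S : List Bool → List Bool := fun w =>
    if decide (R (pr (fs w) (fs (sn w))) = [true]) then [false] else [true]
  have hS : FP S := by
    have hp : FP (fun w => fs w) := FP.fsI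
    have hz : FP (fun w => sn w) := FP.snI
    exact FP.ite (FPb.eq (hRf.comp (hp.pair hz.fst)) (FP.const _)) (FP.const _) (FP.const _)
  obtain ⟨T, q0, K, k0, k1, i0, i1, o1, P, hk0, hk1, hK, hT⟩ := table_spec hS.polyTime
  obtain ⟨N, hN⟩ : ∃ N, N = T.flatten.sum + q0 + i0 + i1 + 1 := ⟨_, rfl⟩
  have hTN : ∀ row ∈ T, ∀ a ∈ row, a < N := by
    intro row hr a ha
    have := List.single_le_sum (l := T.flatten) (fun _ _ => Nat.zero_le _) a
      (List.mem_flatten.mpr ⟨row, hr, ha⟩)
    omega
  obtain ⟨mk, hmk, hmk'⟩ := FP.clock (2 * p + 1)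
  obtain ⟨tk, htk, htk'⟩ := FP.clock (P.comp (2 * X + 1 + (2 * p + 1)))
  refine ⟨fun x => gen T N q0 K k0 k1 i0 i1 o1 (pr x []) (mk x) (tk x),
    (FP.genI T N q0 K k0 k1 i0 i1 o1 (FP.id.pair FP.nil) hmk htk).polyTime, fun x => ?_⟩
  beta_reduce
  rw [← gen_eq, code_mem_TAUT_iff, tabF_correct hTN hK hk0 hk1 (by omega) (by omega) (by omega)]
  have hacc : ∀ z : List Bool, z.length = (mk x).length →
      (cell ((sstep T)^[(tk x).length] (tinit q0 K k0 i0 i1 (pr x [] ++ z))).2 k1 0 = o1 + 1 ↔
        R (pr x (fs z)) ≠ [true]) := by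
    intro z hz
    have e1 : pr x [] ++ z = pr x z := by rw [pr_app]; rfl
    rw [e1]
    have h1 := hT (pr x z) (tk x).length (by
      rw [htk', eval_comp]
      apply pmono
      rw [pr_length, hz, hmk']
      simp only [eval_add, eval_mul, eval_ofNat, eval_one, eval_X]
      omega)
    rw [cell_zero]
    have e2 : S (pr x z) = if R (pr x (fs z)) = [true] then [false] else [true] := by
      simp only [S, fs_pr, sn_pr, decide_eq_true_eq]
    rw [e2] at h1
    generalize ((sstep T)^[(tk x).length] (tinit q0 K k0 i0 i1 (pr x z))).2.getD k1 [] = st at h1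
    by_cases hc : R (pr x (fs z)) = [true]
    · rw [if_pos hc] at h1
      simp only [hc, ne_eq, not_true_eq_false, iff_false]
      cases st with
      | nil => simp
      | cons a l =>
        simp only [List.map_cons, List.cons.injEq, decide_eq_false_iff_not] at h1
        simpa using h1.1
    · rw [if_neg hc] at h1
      simp only [hc, ne_eq, not_false_eq_true, iff_true]
      cases st with
      | nil => simp at h1
      | cons a l =>
        simp only [List.map_cons, List.cons.injEq, decide_eq_true_eq] at h1
        simpa using h1.1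
  constructor
  · intro h y hy
    have hl : (mk x).length = 2 * p.eval x.length + 1 := by
      rw [hmk']; simp only [eval_add, eval_mul, eval_ofNat, eval_one]
    have hz : (pr y (List.replicate (2 * (p.eval x.length - y.length)) false)).length =
        (mk x).length := by
      rw [pr_length, List.length_replicate, hl]; omega
    have h2 := (hacc _ hz).mp (h _ hz)
    rwa [fs_pr] at h2
  · intro h z hz
    rw [hacc z hz]
    apply h
    have h1 := fs_sn_length z
    have hl : (mk x).length = 2 * p.eval x.length + 1 := by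
      rw [hmk']; simp only [eval_add, eval_mul, eval_ofNat, eval_one]
    omega

end Pool.Agent.Work.MP_0532f7_lc
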