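import Mathlib
import Pool.Agent.Work.MP_0532f7_lc.AdvDefs

/-!
Tally NP sets and local optimality.
-/

namespace Pool.Agent.Work.MP_0532f7_lc

/-- The tally set `{1ⁿ : n ∈ T}` is in NP. -/
def TallyNP (T : Set ℕ) : Prop :=
  ∃ (R : List Bool → List Bool) (p : Polynomial ℕ), PolyTime R ∧
    ∀ n, n ∈ T ↔ ∃ y : List Bool, y.length ≤ p.eval n ∧ R (pr (List.replicate n true) y) = [true]

/-- `f` is a Cook-Reckhow system such that, for every polynomial-time `g` (not necessarily a proof
system) and every length `n` at which `g` is sound, all `g`-proofs of length `n` have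
polynomially longer `f`-proofs. -/
def LocallyOptimal (f : List Bool → List Bool) : Prop :=
  ProofSystem f ∧ ∀ g, PolyTime g → ∃ p : Polynomial ℕ, ∀ n,
    (∀ w : List Bool, w.length = n → g w ∈ TAUT) →
      ∀ w : List Bool, w.length = n → ∃ w' : List Bool, w'.length ≤ p.eval n ∧ f w' = g w

/-- `f` is a Cook-Reckhow system that simulates every map with values in TAUT that is computed in
polynomial time with advice words `a n`, for all advice functions `a` in the class `A`. -/
def SimulatesAdvice (A : Set (ℕ → List Bool)) (f : List Bool → List Bool) : Prop :=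
  ProofSystem f ∧ ∀ (G : List Bool → List Bool) (a : ℕ → List Bool), PolyTime G → a ∈ A →
    (∀ w, lenAdv G a w ∈ TAUT) → Simulates f (lenAdv G a)

end Pool.Agent.Work.MP_0532f7_lc
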