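import Mathlib
import Pool.Agent.Work.MP_0532f7_lc.LocalDefs
import Pool.Agent.Work.MP_0532f7_lc.Census2
import Pool.Agent.Work.MP_0532f7_lc.CookLevin

/-!
Local optimality, simulation of advice, and NE = coNE.
-/

namespace Pool.Agent.Work.MP_0532f7_lc

open Polynomial

theorem claim_lemma {G : List Bool → List Bool} {a : ℕ → List Bool} {k : ℕ} (hG : PolyTime G)
    (ha : ∀ n, (a n).length ≤ k * (Nat.log 2 n + 1)) (hsnd : ∀ w, lenAdv G a w ∈ TAUT) :
    ∃ Pol : Polynomial ℕ, ∀ x, ∃ it, ou it = lenAdv G a x ∧ clm it ∉ US ∧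
      2 ^ (clm it).length ≤ Pol.eval x.length ∧ it.length ≤ 12 * 2 ^ (clm it).length + 5 := by
  obtain ⟨c, P, hc⟩ := ud_spec hG
  refine ⟨C (2 ^ (2 * c.length + 4)) * ((2 * (X + 1)) ^ k) ^ 2 * (X + 1) ^ 2 *
    (P.comp (2 * X + 1 + C k * (X + 1)) + 1) ^ 2, fun x => ?_⟩
  obtain ⟨T, hT⟩ : ∃ T, T = P.eval (pr x (a x.length)).length := ⟨_, rfl⟩
  obtain ⟨q, hq⟩ : ∃ q, q = (clm (mk5 c (a x.length) x (un T) [])).length := ⟨_, rfl⟩
  have hq' : q = 2 * c.length + 1 + (2 * (a x.length).length + 1 +
      (2 * (num x.length).length + 1 + (2 * (num T).length + 1))) := by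
    rw [hq]
    unfold clm
    simp only [i0_mk, i1_mk, i2_mk, i3_mk, pr_length, List.length_nil, un_length]
  refine ⟨mk5 c (a x.length) x (un T) [], ?_, ?_, ?_, ?_⟩
  · unfold ou lenAdv
    simp only [i0_mk, i1_mk, i2_mk, i3_mk]
    exact (hc _ _).1 (by rw [un_length, hT])
  · rintro ⟨z, hz, hze⟩
    apply rf_not_mem hz
    have e0 : i0 z = c := by
      have := congrArg fs hze; simpa [clm] using this
    have e1 : i1 z = a x.length := by
      have := congrArg (fun z => fs (sn z)) hze; simpa [clm] using this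
    have e2 : (i2 z).length = x.length := by
      have := congrArg (fun z => fs (sn (sn z))) hze
      simp only [clm, sn_pr, fs_pr, i2_mk] at this
      exact num_inj this
    unfold ou
    rw [e0, e1]
    rcases (hc (pr (i2 z) (a x.length)) (i3 z)).2 with h | h
    · rw [h]; exact cT_mem
    · rw [h]
      have := hsnd (i2 z)
      unfold lenAdv at this
      rwa [e2] at this
  · rw [← hq]
    have e : 2 ^ q = 2 ^ (2 * c.length + 4) * (2 ^ (a x.length).length) ^ 2 *
        (2 ^ (num x.length).length) ^ 2 * (2 ^ (num T).length) ^ 2 := by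
      rw [hq', ← pow_mul, ← pow_mul, ← pow_mul, ← pow_add, ← pow_add, ← pow_add]
      congr 1
      ring
    rw [e]
    simp only [eval_mul, eval_C, eval_pow, eval_ofNat, eval_add, eval_X, eval_one, eval_comp]
    have hlog : Nat.log 2 x.length ≤ x.length := Nat.log_le_self 2 _
    have g1 : 2 ^ (a x.length).length ≤ (2 * (x.length + 1)) ^ k := by
      refine (Nat.pow_le_pow_right (by omega) (ha x.length)).trans ?_
      rw [mul_comm k, pow_mul]
      apply Nat.pow_le_pow_left
      rw [pow_succ]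
      have := log_bound x.length
      omega
    have g2 : 2 ^ (num x.length).length ≤ x.length + 1 := by
      have := val_ge (num x.length)
      rwa [val_num] at this
    have g3 : 2 ^ (num T).length ≤ P.eval (2 * x.length + 1 + k * (x.length + 1)) + 1 := by
      have h3 := val_ge (num T)
      rw [val_num] at h3
      refine h3.trans ?_
      rw [hT]
      apply Nat.add_le_add_right
      apply pmono
      rw [pr_length]
      have := ha x.length
      have h4 : k * (Nat.log 2 x.length + 1) ≤ k * (x.length + 1) :=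
        Nat.mul_le_mul_left _ (by omega)
      omega
    gcongr
  · have := item_len (c := c) (a := a x.length) (x := x) (t := un T) (m := []) (le_refl _)
    simpa using this

theorem Simulates.trans {f g h : List Bool → List Bool} (h1 : Simulates f g)
    (h2 : Simulates g h) : Simulates f h := by
  obtain ⟨a, p, ha⟩ := h1
  obtain ⟨b, q, hb⟩ := h2
  refine ⟨fun w => a (b w), p.comp q, fun w => ⟨by rw [(ha _).1, (hb _).1], ?_⟩⟩
  rw [eval_comp]
  exact (ha _).2.trans (pmono p (hb _).2)

/-- logarithmic advice -/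
def logClass : Set (ℕ → List Bool) := {a | ∃ k, ∀ n, (a n).length ≤ k * (Nat.log 2 n + 1)}

theorem of_NE (h : ∀ T : Set ℕ, TallyNP Tᶜ → TallyNP T) : ∃ f, SimulatesAdvice logClass f := by
  obtain ⟨R, hR⟩ := short_item
  have hT : TallyNP ({n | num n ∉ US} : Set ℕ)ᶜ := by
    refine ⟨fun w => [bdI (sn w) && decide (clm (sn w) = num (fs w).length)],
      R.comp (X + 1), ?_, fun n => ?_⟩
    · have hz : FP (fun w => sn w) := FP.snI
      exact FP.polyTime ((FPb.bdI'.comp hz).and (FPb.eq (FP.clmI.comp hz) (FP.numI FP.fsI)))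
    · simp only [Set.mem_compl_iff, Set.mem_ofPred_eq, not_not, fs_pr, sn_pr, List.cons.injEq,
        and_true, Bool.and_eq_true, decide_eq_true_eq, List.length_replicate]
      constructor
      · intro hn
        obtain ⟨z, h1, h2, h3⟩ := hR (num n) hn (num n).length le_rfl
        refine ⟨z, h3.trans ?_, h1, h2⟩
        rw [eval_comp]
        apply pmono
        have := val_ge (num n)
        rw [val_num] at this
        simpa using this
      · rintro ⟨y, _, h1, h2⟩
        exact ⟨y, h1, h2⟩
  obtain ⟨R1, p1, hR1, h1⟩ := h _ hT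
  have hR1f := hR1.fp
  obtain ⟨k1, hk1, hk1'⟩ := FP.clock p1
  -- the system
  let f : List Bool → List Bool := fun w =>
    if w.head?.getD false then
      (if (decide (num (fs (sn w.tail)).length = clm (fs w.tail)) &&
          ((sn (sn w.tail)).drop (k1 (un (fs (sn w.tail)).length)).length).isEmpty) &&
          decide (R1 (pr (un (fs (sn w.tail)).length) (sn (sn w.tail))) = [true])
        then ou (fs w.tail) else cT)
    else ttF w.tail
  have hf : FP f := by
    have ht : FP (fun w : List Bool => w.tail) := FP.tail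
    have hs := FP.ones ht.snd.fst
    exact FP.ite FPb.hd (FP.ite (((FPb.eq (FP.numI ht.snd.fst) (FP.clmI.comp ht.fst)).and
      (FPb.isNil.comp (FP.drop (hk1.comp hs) ht.snd.snd))).and
        (FPb.eq (hR1f.comp (hs.pair ht.snd.snd)) (FP.const _))) (FP.ouI.comp ht.fst)
        (FP.const _)) (FP.ttFI.comp ht)
  have hmem : ∀ w, f w ∈ TAUT := by
    intro w
    simp only [f]
    split_ifs with ha hb
    · simp only [Bool.and_eq_true, List.isEmpty_iff, List.drop_eq_nil_iff, decide_eq_true_eq] at hb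
      obtain ⟨⟨h2, h3⟩, h4⟩ := hb
      rw [hk1', un_length] at h3
      have h5 : (fs (sn w.tail)).length ∈ {n | num n ∉ US} := (h1 _).mpr ⟨_, h3, h4⟩
      apply ou_mem_of_not
      rw [← h2]
      exact h5
    · exact cT_mem
    · exact ttF_mem _
  refine ⟨f, ⟨hf.polyTime, ?_⟩, ?_⟩
  · ext w
    constructor
    · rintro ⟨z, rfl⟩; exact hmem z
    · intro hw
      refine ⟨false :: pr w (List.replicate (2 ^ (w.length + 1)) true), ?_⟩
      simp only [f]
      rw [if_neg (by simp), List.tail_cons]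
      exact ttF_complete hw _ (by simp)
  · rintro G a hG ⟨k, ha⟩ hsnd
    obtain ⟨Pol, hPol⟩ := claim_lemma hG ha hsnd
    have key : ∀ x : List Bool, ∃ w, f w = lenAdv G a x ∧ w.length ≤
        (1 + (2 * (12 * Pol + 5) + 1) + (2 * (2 * Pol) + 1) + p1.comp (2 * Pol)).eval
          x.length := by
      intro x
      obtain ⟨it, h2, h3, h4, h5⟩ := hPol x
      have h6 : val (clm it) ∈ {n | num n ∉ US} := by
        show num (val (clm it)) ∉ US
        rw [num_val]; exact h3
      obtain ⟨y, h7, h8⟩ := (h1 _).mp h6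
      refine ⟨true :: pr it (pr (un (val (clm it))) y), ?_, ?_⟩
      · simp only [f]
        rw [if_pos (by simp), if_pos]
        · simp only [List.tail_cons, fs_pr]; exact h2
        · simp only [List.tail_cons, fs_pr, sn_pr, un_length, Bool.and_eq_true, List.isEmpty_iff,
            List.drop_eq_nil_iff, decide_eq_true_eq]
          refine ⟨⟨num_val _, ?_⟩, h8⟩
          rw [hk1', un_length]; exact h7
      · have h9 := val_le (clm it)
        rw [pow_succ] at h9
        have h10 : val (clm it) ≤ 2 * Pol.eval x.length := by omega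
        have h11 : p1.eval (val (clm it)) ≤ p1.eval (2 * Pol.eval x.length) := pmono p1 h10
        simp only [List.length_cons, pr_length, un_length]
        simp only [eval_add, eval_mul, eval_ofNat, eval_one, eval_comp]
        omega
    choose h hh using key
    exact ⟨h, _, hh⟩

theorem locally_of_bit {f : List Bool → List Bool}
    (hf : SimulatesAdvice {a | ∀ n, (a n).length = 1} f) : LocallyOptimal f := by
  classical
  refine ⟨hf.1, fun g hg => ?_⟩
  have hgf := hg.fp
  let G : List Bool → List Bool := fun w => if decide (sn w = [true]) then g (fs w) else cT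
  have hG : FP G := FP.ite (FPb.eq FP.snI (FP.const _)) (hgf.comp FP.fsI) (FP.const _)
  let a : ℕ → List Bool := fun n => [decide (∀ w : List Bool, w.length = n → g w ∈ TAUT)]
  have hval : ∀ w, lenAdv G a w =
      if (∀ w' : List Bool, w'.length = w.length → g w' ∈ TAUT) then g w else cT := by
    intro w
    unfold lenAdv
    simp only [G, a, fs_pr, sn_pr, List.cons.injEq, and_true, decide_eq_true_eq]
  obtain ⟨h, p, hp⟩ := hf.2 G a hG.polyTime (fun n => rfl) (fun w => by
    rw [hval]
    split_ifs with hs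
    · exact hs w rfl
    · exact cT_mem)
  refine ⟨p, fun n hs w hw => ⟨h w, ?_, ?_⟩⟩
  · rw [← hw]; exact (hp w).2
  · rw [(hp w).1, hval, if_pos (by rw [hw]; exact hs)]

theorem NE_of_locally {f : List Bool → List Bool} (hf : LocallyOptimal f) (T : Set ℕ)
    (hT : TallyNP Tᶜ) : TallyNP T := by
  obtain ⟨R, p, hR, h1⟩ := hT
  obtain ⟨r, hr, h2⟩ := cook_levin hR p
  have hrf := hr.fp
  have hff := hf.1.1.fp
  have key : ∀ n, r (un n) ∈ TAUT ↔ n ∈ T := by
    intro n
    rw [h2, un_length]
    have h3 := h1 n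
    rw [Set.mem_compl_iff] at h3
    constructor
    · intro h
      by_contra hc
      obtain ⟨y, hy1, hy2⟩ := h3.mp hc
      exact h y hy1 hy2
    · intro h y hy1 hy2
      exact (h3.mpr ⟨y, hy1, hy2⟩) h
  obtain ⟨q, hq⟩ := hf.2 (fun w => r (un w.length)) (hrf.comp (FP.ones FP.id)).polyTime
  refine ⟨fun w => [decide (f (sn w) = r (fs w))], q, ?_, fun n => ?_⟩
  · exact FP.polyTime (FPb.eq (hff.comp FP.snI) (hrf.comp FP.fsI))
  · simp only [fs_pr, sn_pr, List.cons.injEq, and_true, decide_eq_true_eq]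
    constructor
    · intro hn
      obtain ⟨w', h4, h5⟩ := hq n (fun w hw => by rw [hw]; exact (key n).mpr hn) (un n)
        (un_length n)
      refine ⟨w', h4, ?_⟩
      rw [h5, un_length]; rfl
    · rintro ⟨w', _, h5⟩
      rw [← key n]
      have : f w' = r (un n) := h5
      rw [← this, ← hf.1.2]
      exact ⟨w', rfl⟩

theorem bit_sub_log : {a : ℕ → List Bool | ∀ n, (a n).length = 1} ⊆ logClass := by
  intro a ha
  exact ⟨1, fun n => by rw [ha n]; omega⟩

/-- prefix advice of logarithmic length -/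
def prefClass : Set (ℕ → List Bool) := {a | ∃ β : ℕ → Bool, ∀ n, a n = pre β (Nat.log 2 n)}

theorem local_tfae : List.TFAE [
    ∀ T : Set ℕ, TallyNP Tᶜ → TallyNP T,
    ∃ f, SimulatesAdvice {a | ∃ k, ∀ n, (a n).length ≤ k * (Nat.log 2 n + 1)} f,
    ∃ f, SimulatesAdvice {a | ∀ n, (a n).length = 1} f,
    ∃ f, SimulatesAdvice {a | ∃ β : ℕ → Bool, ∀ n, a n = pre β (Nat.log 2 n)} f,
    ∃ f, LocallyOptimal f] := by
  tfae_have 1 → 2 := of_NE
  tfae_have 2 → 3 := fun ⟨f, hf⟩ => ⟨f, hf.1, fun G a hG ha hs => hf.2 G a hG (bit_sub_log ha) hs⟩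
  tfae_have 2 → 4 := fun ⟨f, hf⟩ => ⟨f, hf.1, fun G a hG ha hs => hf.2 G a hG (by
    obtain ⟨β, hβ⟩ := ha
    exact ⟨1, fun n => by rw [hβ, pre_length]; omega⟩) hs⟩
  tfae_have 4 → 2 := by
    rintro ⟨f, hf⟩
    obtain ⟨F, β, hF, hr, hs⟩ := census
    refine ⟨f, hf.1, ?_⟩
    rintro G a hG ⟨k, hk⟩ hsnd
    have h1 : lenAdv F (fun n => pre β (Nat.log 2 n)) = logAdv F β := rfl
    have h2 := hf.2 F (fun n => pre β (Nat.log 2 n)) hF ⟨β, fun n => rfl⟩ (fun w => by
      rw [h1, ← hr]; exact ⟨w, rfl⟩)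
    rw [h1] at h2
    exact h2.trans (hs G a k hG hk hsnd)
  tfae_have 3 → 5 := fun ⟨f, hf⟩ => ⟨f, locally_of_bit hf⟩
  tfae_have 5 → 1 := fun ⟨f, hf⟩ T hT => NE_of_locally hf T hT
  tfae_finish

end Pool.Agent.Work.MP_0532f7_lc
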