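import Mathlib
import Pool.Agent.Work.MP_0532f7_lc.OMain

/-!
No optimal proof system relative to a random oracle: the main argument.
-/

namespace Pool.Agent.Work.MP_0532f7_lc

open Polynomial MeasureTheory

/-! ### the levels -/

theorem ch_ge3 (i : ℕ) : 3 ≤ ch i := by have := ch_ge i; omega

theorem lev_bound (m c : ℕ) (hm : 3 ≤ m) (hc : c ≤ m + 3) :
    2 ^ (m * m) ≤ EE m ∧ 2 * (m * m) + c ≤ EE m := by
  have h0 : 2 ^ (m * m) ≤ EE m := by
    unfold EE
    apply Nat.pow_le_pow_right (by omega)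
    have h1 : m * m < 2 ^ (m * m) := Nat.lt_two_pow_self
    have h2 : 2 ^ (m * m) + 1 < 2 ^ (2 ^ (m * m) + 1) := Nat.lt_two_pow_self
    omega
  refine ⟨h0, le_trans ?_ h0⟩
  have h3 : 9 ≤ m * m := by nlinarith
  have h4 : m ≤ m * m := Nat.le_mul_self m
  have h5 : 4 * (m * m) ≤ 2 ^ (m * m) := by
    generalize m * m = k at h3
    obtain ⟨d, rfl⟩ := Nat.exists_eq_add_of_le h3
    clear h3 h4 hc hm h0
    induction d with
    | zero => norm_num
    | succ d ih => rw [← Nat.add_assoc, pow_succ]; omega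
  omega

variable (Q C O : List Bool → List Bool) (A : List Bool → Bool) (σ : List Bool)

/-- the threshold used at level `i + 1` -/
def cI (i : ℕ) : ℕ := cfS Q C O (tab A (ch (i + 1))) σ (un (ch (i + 1))) (ch i)

theorem cI_spec (i : ℕ) : 3 ≤ cI Q C O A σ i ∧ cI Q C O A σ i ≤ ch i + 3 ∧
    (∀ c, 3 ≤ c → c < cI Q C O A σ i → ¬ condT Q C O (tab A (ch (i + 1))) σ (ch i) c) ∧
    (cI Q C O A σ i < ch i + 3 →
      condT Q C O (tab A (ch (i + 1))) σ (ch i) (cI Q C O A σ i)) :=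
  cfS_spec Q C O (tab A (ch (i + 1))) σ (un (ch (i + 1))) (ch i) (by rw [un_length]; exact le_rfl)

theorem tl_le_ch (i : ℕ) : tl (ch i) ≤ ch (i + 1) := by
  have h1 := tl_lt (ch i)
  have h2 : 2 ^ (2 ^ (ch i * ch i) + 1) < ch (i + 1) := Nat.lt_two_pow_self
  omega

/-- the error at level `i` -/
def Err (i : ℕ) : Set (List Bool → Bool) :=
  Acc Q C O A (ch i) (cI Q C O A σ i) ∩ Fal (ch i) (cI Q C O A σ i)

/-- no error at the levels `i0, …, i - 1` -/
def NoErr (i0 i : ℕ) : Set (List Bool → Bool) :=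
  {R | ∀ j, i0 ≤ j → j < i → R ∉ Err Q C O A σ j}

variable {Q C}

theorem err_local (i0 j i : ℕ) (hG : ∀ i, i0 ≤ i → Good Q C (ch i)) (hj : i0 ≤ j) (hji : j < i)
    (R R' : List Bool → Bool) (h : Agr (ch i) R R') (hR : R ∈ Err Q C O A σ j) :
    R' ∈ Err Q C O A σ j := by
  obtain ⟨h1, h2⟩ := lev_bound (ch j) (cI Q C O A σ j) (ch_ge3 j) (cI_spec Q C O A σ j).2.1
  have h3 : EE (ch j) ≤ ch i := ch_strictMono.monotone (show j + 1 ≤ i from hji)
  exact ⟨acc_local O A R R' _ _ (hG j hj) (h.mono (h1.trans h3)) hR.1,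
    fal_local R R' _ _ _ (h2.trans h3) h hR.2⟩

theorem noErr_local (i0 i : ℕ) (hG : ∀ i, i0 ≤ i → Good Q C (ch i))
    (R R' : List Bool → Bool) (h : Agr (ch i) R R') (hR : R ∈ NoErr Q C O A σ i0 i) :
    R' ∈ NoErr Q C O A σ i0 i := fun j h1 h2 h3 =>
  hR j h1 h2 (err_local O A σ i0 j i hG h1 h2 R' R h.symm h3)

theorem err_lower (i0 i : ℕ) (hG : ∀ i, i0 ≤ i → Good Q C (ch i))
    (hσ : σ.length < ch i0) (hi : i0 ≤ i)
    (hI : cI Q C O A σ i < ch i + 3)
    (hD : 7 / 8 * (1 / 2 : ℝ) ^ σ.length ≤ randomOracle.real (ocyl σ ∩ NoErr Q C O A σ i0 i)) :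
    (1 / 8 : ℝ) * (1 / 2) ^ σ.length * (1 / 2) ^ (cI Q C O A σ i) ≤
      randomOracle.real (ocyl σ ∩ NoErr Q C O A σ i0 i ∩ Err Q C O A σ i) := by
  set c := cI Q C O A σ i with hc
  set D := NoErr Q C O A σ i0 i with hDdef
  have hs := cI_spec Q C O A σ i
  have hchi : ch i0 ≤ ch i := ch_strictMono.monotone hi
  have hσ' : σ.length < ch i * ch i := by
    have : ch i ≤ ch i * ch i := Nat.le_mul_self _
    omega
  have hL : ch i < ch i * ch i := by have := ch_ge3 i; nlinarith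
  have hloc : ∀ R R' : List Bool → Bool, Agr (ch i) R R' → R ∈ D → R' ∈ D :=
    noErr_local O A σ i0 i hG
  have h1 := err_ge O A σ (ch i) c (ch i) (hG i hi) hσ' D hL hloc
  have hσt : σ.length ≤ tl (ch i) := by
    have h2 : ch i * ch i < 2 ^ (ch i * ch i) := Nat.lt_two_pow_self
    have h3 : 2 ^ (ch i * ch i) + 1 < 2 ^ (2 ^ (ch i * ch i) + 1) := Nat.lt_two_pow_self
    unfold tl
    omega
  have h2 := (condT_iff O A σ (ch (i + 1)) (ch i) c (hG i hi) (tl_le_ch i) hσt).mp (hs.2.2.2 hI)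
  have hDm : MeasurableSet D := meas_of_agr (ch i) D hloc
  have hAm : MeasurableSet (Acc Q C O A (ch i) c) :=
    meas_of_agr (2 ^ (ch i * ch i)) _ (fun R R' h => acc_local O A R R' _ _ (hG i hi) h)
  -- `ocyl ∩ Acc ⊆ (ocyl ∩ D ∩ Acc) ∪ (ocyl \ D)`
  have h3 : randomOracle.real (Acc Q C O A (ch i) c ∩ ocyl σ) ≤
      randomOracle.real (ocyl σ ∩ D ∩ Acc Q C O A (ch i) c) + randomOracle.real (ocyl σ \ D) := by
    refine le_trans (measureReal_mono ?_) (measureReal_union_le _ _)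
    rintro R ⟨h4, h5⟩
    by_cases h6 : R ∈ D
    · exact Or.inl ⟨⟨h5, h6⟩, h4⟩
    · exact Or.inr ⟨h5, h6⟩
  have h4 : randomOracle.real (ocyl σ ∩ D) + randomOracle.real (ocyl σ \ D) =
      (1 / 2) ^ σ.length := by
    rw [measureReal_inter_add_sdiff hDm, ocyl_real]
  have h5 : (1 / 2 : ℝ) ^ c ≤ 1 / 8 := by
    calc (1 / 2 : ℝ) ^ c ≤ (1 / 2) ^ 3 := by
          apply pow_le_pow_of_le_one (by norm_num) (by norm_num) hs.1
      _ = 1 / 8 := by norm_num
  have hκ : 0 < (1 / 2 : ℝ) ^ σ.length := by positivity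
  have hc0 : 0 < (1 / 2 : ℝ) ^ c := by positivity
  have e : ocyl σ ∩ D ∩ Err Q C O A σ i = ocyl σ ∩ D ∩ Acc Q C O A (ch i) c ∩ Fal (ch i) c := by
    unfold Err
    rw [Set.inter_assoc, Set.inter_assoc, Set.inter_assoc]
  rw [e]
  refine le_trans ?_ h1
  have h6 : (1 / 8 : ℝ) * (1 / 2) ^ σ.length ≤
      7 / 8 * randomOracle.real (ocyl σ ∩ D ∩ Acc Q C O A (ch i) c) -
        (1 / 2) ^ c * (1 / 2) ^ σ.length := by
    have h7 : (1 / 2 : ℝ) ^ c * (1 / 2) ^ σ.length ≤ 1 / 8 * (1 / 2) ^ σ.length := by gcongr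
    linarith
  calc (1 / 8 : ℝ) * (1 / 2) ^ σ.length * (1 / 2) ^ c
      = (1 / 2) ^ c * ((1 / 8 : ℝ) * (1 / 2) ^ σ.length) := by ring
    _ ≤ _ := by gcongr

theorem sum_I (i0 : ℕ) (hG : ∀ i, i0 ≤ i → Good Q C (ch i)) (hσ : σ.length < ch i0)
    (hD : ∀ i, 7 / 8 * (1 / 2 : ℝ) ^ σ.length ≤
      randomOracle.real (ocyl σ ∩ NoErr Q C O A σ i0 i)) (N : ℕ) :
    ∑ i ∈ (Finset.range N).filter (fun i => i0 ≤ i ∧ cI Q C O A σ i < ch i + 3),
      (1 / 2 : ℝ) ^ (cI Q C O A σ i) ≤ 8 := by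
  set I := (Finset.range N).filter (fun i => i0 ≤ i ∧ cI Q C O A σ i < ch i + 3) with hI
  set E : ℕ → Set (List Bool → Bool) := fun i =>
    ocyl σ ∩ NoErr Q C O A σ i0 i ∩ Err Q C O A σ i with hE
  have hm : ∀ i ∈ I, MeasurableSet (E i) := by
    intro i hi
    rw [hI, Finset.mem_filter] at hi
    refine ((meas_ocyl σ).inter (meas_of_agr (ch i) _ (noErr_local O A σ i0 i hG))).inter ?_
    exact meas_of_agr (ch (i + 1)) _ (err_local O A σ i0 i (i + 1) hG hi.2.1 (by omega))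
  have hd : (I : Set ℕ).PairwiseDisjoint E := by
    have key : ∀ i ∈ I, ∀ j ∈ I, i < j → Disjoint (E i) (E j) := by
      intro i hi j _ hij
      rw [Set.disjoint_left]
      rintro R ⟨_, h1⟩ ⟨⟨_, h2⟩, _⟩
      rw [hI, Finset.mem_filter] at hi
      exact h2 i hi.2.1 hij h1
    intro i hi j hj hij
    rcases lt_or_gt_of_ne hij with h | h
    · exact key i hi j hj h
    · exact (key j hj i hi h).symm
  have h1 : ∑ i ∈ I, randomOracle.real (E i) ≤ (1 / 2) ^ σ.length := by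
    rw [← measureReal_biUnion_finset hd hm, ← ocyl_real]
    refine measureReal_mono ?_ (measure_ne_top _ _)
    intro R hR
    rw [Set.mem_iUnion₂] at hR
    obtain ⟨i, _, h⟩ := hR
    exact h.1.1
  have h2 : ∑ i ∈ I, (1 / 8 : ℝ) * (1 / 2) ^ σ.length * (1 / 2) ^ (cI Q C O A σ i) ≤
      (1 / 2) ^ σ.length := by
    refine le_trans (Finset.sum_le_sum (fun i hi => ?_)) h1
    rw [hI, Finset.mem_filter] at hi
    exact err_lower O A σ i0 i hG hσ hi.2.1 hi.2.2 (hD i)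
  rw [← Finset.mul_sum] at h2
  have hκ : 0 < (1 / 2 : ℝ) ^ σ.length := by positivity
  have h3 : (1 / 2 : ℝ) ^ σ.length * (1 / 8 * ∑ i ∈ I, (1 / 2 : ℝ) ^ (cI Q C O A σ i)) ≤
      (1 / 2) ^ σ.length * 1 := by
    rw [mul_one]
    refine le_trans (le_of_eq ?_) h2
    ring
  have h4 := le_of_mul_le_mul_left h3 hκ
  linarith

theorem summable_c (i0 : ℕ) (hG : ∀ i, i0 ≤ i → Good Q C (ch i)) (hσ : σ.length < ch i0)
    (hD : ∀ i, 7 / 8 * (1 / 2 : ℝ) ^ σ.length ≤
      randomOracle.real (ocyl σ ∩ NoErr Q C O A σ i0 i)) :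
    Summable (fun i => (1 / 2 : ℝ) ^ (cI Q C O A σ i)) := by
  refine summable_of_sum_range_le (c := (i0 : ℝ) + 8 + 2) (fun i => by positivity) (fun N => ?_)
  have h1 := sum_I O A σ i0 hG hσ hD N
  have h2 : ∑ i ∈ (Finset.range N).filter (fun i => ¬ (i0 ≤ i ∧ cI Q C O A σ i < ch i + 3)),
      (1 / 2 : ℝ) ^ (cI Q C O A σ i) ≤ i0 + 2 := by
    have h3 : ∀ i ∈ (Finset.range N).filter (fun i => ¬ (i0 ≤ i ∧ cI Q C O A σ i < ch i + 3)),
        (1 / 2 : ℝ) ^ (cI Q C O A σ i) ≤ (if i < i0 then 1 else 0) + (1 / 2) ^ i := by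
      intro i hi
      rw [Finset.mem_filter] at hi
      have h0 : 0 < (1 / 2 : ℝ) ^ i := by positivity
      by_cases h4 : i < i0
      · rw [if_pos h4]
        have : (1 / 2 : ℝ) ^ (cI Q C O A σ i) ≤ 1 := pow_le_one₀ (by norm_num) (by norm_num)
        linarith
      · rw [if_neg h4, zero_add]
        have h5 : ¬ cI Q C O A σ i < ch i + 3 := fun h => hi.2 ⟨by omega, h⟩
        have := ch_ge i
        exact pow_le_pow_of_le_one (by norm_num) (by norm_num) (by omega)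
    refine (Finset.sum_le_sum h3).trans ?_
    refine (Finset.sum_le_sum_of_subset_of_nonneg (Finset.filter_subset _ _)
      (fun i _ _ => by positivity)).trans ?_
    rw [Finset.sum_add_distrib]
    have h4 : ∑ i ∈ Finset.range N, (if i < i0 then (1 : ℝ) else 0) ≤ i0 := by
      rw [← Finset.sum_filter, Finset.sum_const, nsmul_eq_mul, mul_one]
      have : ((Finset.range N).filter (fun i => i < i0)).card ≤ i0 := by
        refine (Finset.card_le_card (t := Finset.range i0) ?_).trans (by simp)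
        intro i hi
        rw [Finset.mem_filter] at hi
        exact Finset.mem_range.mpr hi.2
      exact_mod_cast this
    have h5 : ∑ i ∈ Finset.range N, (1 / 2 : ℝ) ^ i ≤ 2 := by
      have hs : Summable (fun i : ℕ => (1 / 2 : ℝ) ^ i) :=
        summable_geometric_of_lt_one (by norm_num) (by norm_num)
      refine (hs.sum_le_tsum _ (fun i _ => by positivity)).trans ?_
      rw [tsum_geometric_of_lt_one (by norm_num) (by norm_num)]
      norm_num
    linarith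
  rw [← Finset.sum_filter_add_sum_filter_not (Finset.range N)
    (fun i => i0 ≤ i ∧ cI Q C O A σ i < ch i + 3)]
  linarith

theorem fal_le (m c : ℕ) : randomOracle.real (Fal m c) ≤ (1 / 2) ^ c := by
  refine (block_le (ombWords (m * m)) (blkW (m * m + c)) (m * m + c)
    (fun x _ => card_blkW _ x)).trans (le_of_eq ?_)
  rw [card_ombWords, pow_add, ← mul_assoc]
  push_cast
  rw [← mul_pow]
  norm_num

theorem bc (hs : Summable (fun i => (1 / 2 : ℝ) ^ (cI Q C O A σ i))) :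
    ∀ᵐ R ∂randomOracle, ∀ᶠ i in Filter.atTop, R ∉ Fal (ch (i + 1)) (cI Q C O A σ i) := by
  apply ae_eventually_notMem
  have h1 : ∀ i, randomOracle (Fal (ch (i + 1)) (cI Q C O A σ i)) ≤
      ENNReal.ofReal ((1 / 2 : ℝ) ^ (cI Q C O A σ i)) := by
    intro i
    rw [← ofReal_measureReal]
    exact ENNReal.ofReal_le_ofReal (fal_le _ _)
  refine ne_top_of_le_ne_top ?_ (ENNReal.tsum_le_tsum h1)
  exact hs.tsum_ofReal_ne_top

end Pool.Agent.Work.MP_0532f7_lc
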