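import Mathlib
import Pool.Agent.Work.MP_0532f7_lc.OMain2

/-!
No optimal proof system relative to a random oracle: conclusion.
-/

namespace Pool.Agent.Work.MP_0532f7_lc

open Polynomial MeasureTheory

/-! ### the hard sequence -/

theorem answers_tab (A : List Bool → Bool) (w : List Bool) (n : ℕ) :
    answers (fun z => num (sn z).length) A w n = tab A n := by
  induction n with
  | zero => rfl
  | succ n ih =>
    show answers (fun z => num (sn z).length) A w n ++
      [A (num (sn (pr w (answers (fun z => num (sn z).length) A w n))).length)] = _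
    rw [ih, sn_pr, omb_tab_length]
    unfold tab
    rw [List.range_succ, List.map_append]
    rfl

theorem hard_polyTime {Q C O : List Bool → List Bool} (hQ : FP Q) (hC : FP C) (hO : FP O)
    (A : List Bool → Bool) (σ : List Bool) (m1 : ℕ) :
    PolyTimeRel A (fun w => Gs Q C O σ m1 (pr w (tab A w.length))) :=
  ⟨fun z => num (sn z).length, fun w => w, Gs Q C O σ m1, (FP.numI FP.snI).polyTime,
    FP.id.polyTime, (FP.GsI hQ hC hO σ m1).polyTime, fun w => by rw [answers_tab]⟩

/-- the oracles relative to which the given system is sound and has short proofs of almost all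
members of all sequences computable relative to `A` -/
def Opt (Q C O : List Bool → List Bool) (A : List Bool → Bool) : Set (List Bool → Bool) :=
  {R | (∀ v, ora Q C O (ojoin A R) v ∈ OTAUT (ojoin A R)) ∧
    ∀ g, PolyTimeRel A g → (∀ w, g w ∈ OTAUT (ojoin A R)) →
      ∃ m0, ∀ m, m0 ≤ m → ∃ v : List Bool, v.length ≤ 2 ^ m ∧
        ora Q C O (ojoin A R) v = g (List.replicate m true)}

theorem opt_noErr (Q C O : List Bool → List Bool) (A : List Bool → Bool) (σ : List Bool)
    (i0 i : ℕ) : Opt Q C O A ⊆ NoErr Q C O A σ i0 i := by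
  rintro R hR j _ _ ⟨⟨v, _, h2⟩, h3⟩
  have h4 := hR.1 v
  rw [h2, code_mem_iff] at h4
  exact h4 h3

theorem oTop_mem (X : List Bool → Bool) : oTop.code ∈ OTAUT X :=
  ⟨_, rfl, fun v => oTop_eval X v⟩

theorem opt_acc {Q C O : List Bool → List Bool} (hQ : FP Q) (hC : FP C) (hO : FP O)
    (A : List Bool → Bool) (σ : List Bool) (R : List Bool → Bool) (hR : R ∈ Opt Q C O A)
    (hbc : ∀ᶠ i in Filter.atTop, R ∉ Fal (ch (i + 1)) (cI Q C O A σ i)) :
    ∃ n, ∀ i, n ≤ i → R ∈ Acc Q C O A (ch (i + 1)) (cI Q C O A σ i) := by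
  obtain ⟨i1, hi1⟩ := Filter.eventually_atTop.mp hbc
  have hval : ∀ i, Gs Q C O σ (ch i1) (pr (un (ch (i + 1))) (tab A (ch (i + 1)))) =
      (tauF (ch (i + 1) * ch (i + 1)) (ch (i + 1) * ch (i + 1) + cI Q C O A σ i)).code ∨
      i < i1 := by
    intro i
    by_cases h : i1 ≤ i
    · left
      exact Gs_ch Q C O σ (ch i1) _ i (ch_strictMono.monotone h)
    · right; omega
  obtain ⟨m0, hm0⟩ := hR.2 _ (hard_polyTime hQ hC hO A σ (ch i1)) (fun w => by
    rcases Gs_cases Q C O σ (ch i1) (by have := ch_ge3 i1; omega) w (tab A w.length) with h | h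
    · rw [h]; exact oTop_mem _
    · obtain ⟨i, h1, rfl⟩ := h
      rw [un_length]
      have h2 : i1 ≤ i := ch_strictMono.le_iff_le.mp h1
      rcases hval i with h3 | h3
      · rw [h3, code_mem_iff]
        exact hi1 i h2
      · omega)
  refine ⟨max i1 m0, fun i hi => ?_⟩
  have h1 : m0 ≤ ch (i + 1) := by
    have := ch_ge (i + 1)
    have := le_max_right i1 m0
    omega
  obtain ⟨v, h2, h3⟩ := hm0 _ h1
  refine ⟨v, h2, ?_⟩
  rw [h3]
  show Gs Q C O σ (ch i1) (pr (un (ch (i + 1))) (tab A (un (ch (i + 1))).length)) = _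
  rw [un_length]
  rcases hval i with h4 | h4
  · exact h4
  · have := le_max_left i1 m0
    omega

theorem opt_null {Q C O : List Bool → List Bool} (hQ : FP Q) (hC : FP C) (hO : FP O)
    (A : List Bool → Bool) : randomOracle (Opt Q C O A) = 0 := by
  by_contra hne
  obtain ⟨σ, hσ⟩ := odensity _ hne (1 / 8) (by norm_num)
  have hκ : 0 < (1 / 2 : ℝ) ^ σ.length := by positivity
  obtain ⟨m0, hm0⟩ := exists_good hQ hC
  obtain ⟨i0, hi0⟩ : ∃ i0, i0 = m0 + σ.length := ⟨_, rfl⟩
  have hG : ∀ i, i0 ≤ i → Good Q C (ch i) := fun i hi => hm0 _ (by have := ch_ge i; omega)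
  have hσ0 : σ.length < ch i0 := by have := ch_ge i0; omega
  have hD : ∀ i, 7 / 8 * (1 / 2 : ℝ) ^ σ.length ≤
      randomOracle.real (ocyl σ ∩ NoErr Q C O A σ i0 i) := by
    intro i
    have h1 : randomOracle (Opt Q C O A ∩ ocyl σ) ≤
        randomOracle (ocyl σ ∩ NoErr Q C O A σ i0 i) :=
      measure_mono (fun R hR => ⟨hR.2, opt_noErr Q C O A σ i0 i hR.1⟩)
    have h2 := hσ.trans_le h1
    rw [← ofReal_measureReal] at h2
    have h3 := (ENNReal.ofReal_lt_ofReal_iff_of_nonneg (by norm_num)).mp h2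
    linarith
  have hs := summable_c O A σ i0 hG hσ0 hD
  have hbc := bc O A σ hs
  -- the sets on which the system has short proofs from level `n` on
  set U : ℕ → Set (List Bool → Bool) := fun n =>
    {R | ∀ i, n ≤ i → R ∈ Acc Q C O A (ch (i + 1)) (cI Q C O A σ i)} ∩ ocyl σ with hU
  have hmono : Monotone U := by
    intro n n' hn R hR
    exact ⟨fun i hi => hR.1 i (hn.trans hi), hR.2⟩
  have h1 : randomOracle (Opt Q C O A ∩ ocyl σ) ≤ randomOracle (⋃ n, U n) := by
    refine measure_mono_ae ?_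
    filter_upwards [hbc] with R hR hR1
    obtain ⟨n, hn⟩ := opt_acc hQ hC hO A σ R hR1.1 hR
    exact Set.mem_iUnion.mpr ⟨n, hn, hR1.2⟩
  rw [hmono.measure_iUnion] at h1
  obtain ⟨n, hn⟩ := lt_iSup_iff.mp (hσ.trans_le h1)
  have h2 : ∀ i, n + i0 ≤ i → cI Q C O A σ (i + 1) ≤ cI Q C O A σ i := by
    intro i hi
    by_contra hlt
    push Not at hlt
    have h3 : randomOracle (U n) ≤
        randomOracle (Acc Q C O A (ch (i + 1)) (cI Q C O A σ i) ∩ ocyl σ) :=
      measure_mono (fun R hR => ⟨hR.1 i (by omega), hR.2⟩)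
    have h4 := hn.trans_le h3
    rw [← ofReal_measureReal] at h4
    have h5 := (ENNReal.ofReal_lt_ofReal_iff_of_nonneg (by norm_num)).mp h4
    have hσt : σ.length ≤ tl (ch (i + 1)) := by
      have h2 : ch (i + 1) * ch (i + 1) < 2 ^ (ch (i + 1) * ch (i + 1)) := Nat.lt_two_pow_self
      have h3 : 2 ^ (ch (i + 1) * ch (i + 1)) + 1 < 2 ^ (2 ^ (ch (i + 1) * ch (i + 1)) + 1) :=
        Nat.lt_two_pow_self
      have h4 : ch (i + 1) ≤ ch (i + 1) * ch (i + 1) := Nat.le_mul_self _
      have h5 := ch_ge (i + 1)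
      unfold tl
      omega
    have h6 := (condT_iff O A σ (ch (i + 1 + 1)) (ch (i + 1)) (cI Q C O A σ i)
      (hG (i + 1) (by omega)) (tl_le_ch (i + 1)) hσt).mpr (by linarith)
    exact (cI_spec Q C O A σ (i + 1)).2.2.1 _ (cI_spec Q C O A σ i).1 hlt h6
  have h3 : ∀ d, cI Q C O A σ (n + i0 + d) ≤ cI Q C O A σ (n + i0) := by
    intro d
    induction d with
    | zero => exact le_rfl
    | succ d ih => exact (h2 (n + i0 + d) (by omega)).trans ih
  have h4 := hs.tendsto_atTop_zero
  have h5 : ∀ᶠ i in Filter.atTop, (1 / 2 : ℝ) ^ (cI Q C O A σ (n + i0)) ≤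
      (1 / 2) ^ (cI Q C O A σ i) := by
    rw [Filter.eventually_atTop]
    refine ⟨n + i0, fun i hi => ?_⟩
    obtain ⟨d, rfl⟩ := Nat.exists_eq_add_of_le hi
    exact pow_le_pow_of_le_one (by norm_num) (by norm_num) (h3 d)
  have h6 := ge_of_tendsto h4 h5
  have h7 : 0 < (1 / 2 : ℝ) ^ (cI Q C O A σ (n + i0)) := by positivity
  linarith

/-! ### all systems -/

theorem ae_all (A : List Bool → Bool) : ∀ᵐ R ∂randomOracle, ∀ Q C O : List Bool → List Bool,
    PolyTime Q → PolyTime C → PolyTime O → R ∉ Opt Q C O A := by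
  have hc := countable_polyTime
  have h1 := (ae_ball_iff (μ := randomOracle) (S := {t : (List Bool → List Bool) ×
      (List Bool → List Bool) × (List Bool → List Bool) |
      PolyTime t.1 ∧ PolyTime t.2.1 ∧ PolyTime t.2.2})
    (p := fun R t _ => R ∉ Opt t.1 t.2.1 t.2.2 A) (by
      refine ((hc.prod (hc.prod hc)).mono ?_)
      rintro ⟨a, b, c⟩ ⟨h1, h2, h3⟩
      exact ⟨h1, h2, h3⟩)).mpr (fun t ht => by
    have := opt_null ht.1.fp ht.2.1.fp ht.2.2.fp A
    exact measure_eq_zero_iff_ae_notMem.mp this)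
  filter_upwards [h1] with R hR Q C O hQ hC hO
  exact hR (Q, C, O) ⟨hQ, hC, hO⟩

/-! ### relative polynomial time -/

theorem PolyTimeRel.join {A : List Bool → Bool} {g : List Bool → List Bool}
    (hg : PolyTimeRel A g) (R : List Bool → Bool) : PolyTimeRel (ojoin A R) g := by
  obtain ⟨Q, C, O, hQ, hC, hO, h⟩ := hg
  refine ⟨fun z => false :: Q z, C, O, ((FP.cons false).comp hQ.fp).polyTime, hC, hO,
    fun w => ?_⟩
  have key : ∀ n, answers (fun z => false :: Q z) (ojoin A R) w n = answers Q A w n := by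
    intro n
    induction n with
    | zero => rfl
    | succ n ih =>
      show answers (fun z => false :: Q z) (ojoin A R) w n ++ _ = answers Q A w n ++ _
      rw [ih]
      rfl
  rw [h w, key]

theorem PolyTimeRel.sum {X : List Bool → Bool} {f g : List Bool → List Bool}
    (hf : PolyTimeRel X f) (hg : PolyTimeRel X g) :
    PolyTimeRel X (fun w => if w.head?.getD false then g w.tail else f w.tail) := by
  obtain ⟨Q, C, O, hQ, hC, hO, h⟩ := hf
  obtain ⟨Q', C', O', hQ', hC', hO', h'⟩ := hg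
  have hhd : FPb (fun z => (fs z).head?.getD false) := FPb.hd.comp FP.fsI
  have hin : FP (fun z => pr (fs z).tail (sn z)) := FP.pair (FP.tail.comp FP.fsI) FP.snI
  refine ⟨fun z => if (fs z).head?.getD false then Q' (pr (fs z).tail (sn z))
      else Q (pr (fs z).tail (sn z)),
    fun w => if w.head?.getD false then C' w.tail else C w.tail,
    fun z => if (fs z).head?.getD false then O' (pr (fs z).tail (sn z))
      else O (pr (fs z).tail (sn z)),
    (FP.ite hhd (hQ'.fp.comp hin) (hQ.fp.comp hin)).polyTime,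
    (FP.ite FPb.hd (hC'.fp.comp FP.tail) (hC.fp.comp FP.tail)).polyTime,
    (FP.ite hhd (hO'.fp.comp hin) (hO.fp.comp hin)).polyTime, fun w => ?_⟩
  set QQ : List Bool → List Bool := fun z => if (fs z).head?.getD false then
    Q' (pr (fs z).tail (sn z)) else Q (pr (fs z).tail (sn z)) with hQQ
  cases hb : w.head?.getD false with
  | true =>
    have key : ∀ n, answers QQ X w n = answers Q' X w.tail n := by
      intro n
      induction n with
      | zero => rfl
      | succ n ih =>
        show answers QQ X w n ++ [X (QQ (pr w (answers QQ X w n)))] =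
          answers Q' X w.tail n ++ [X (Q' (pr w.tail (answers Q' X w.tail n)))]
        rw [ih, hQQ]
        simp [hb]
    simp only [if_true, fs_pr, sn_pr, hb]
    rw [key, h']
  | false =>
    have key : ∀ n, answers QQ X w n = answers Q X w.tail n := by
      intro n
      induction n with
      | zero => rfl
      | succ n ih =>
        show answers QQ X w n ++ [X (QQ (pr w (answers QQ X w n)))] =
          answers Q X w.tail n ++ [X (Q (pr w.tail (answers Q X w.tail n)))]
        rw [ih, hQQ]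
        simp [hb]
    simp only [Bool.false_eq_true, if_false, fs_pr, sn_pr, hb]
    rw [key, h]

/-! ### conclusion -/

theorem poly_pow_le' (p : Polynomial ℕ) : ∃ m0, ∀ m, m0 ≤ m → p.eval m ≤ 2 ^ m := by
  obtain ⟨j, hj⟩ := poly_le p
  have h1 : Filter.Tendsto (fun n : ℕ => (n : ℝ) ^ (j + 1) / (2 : ℝ) ^ n) Filter.atTop
      (nhds 0) := tendsto_pow_const_div_const_pow_of_one_lt (j + 1) (by norm_num)
  have h2 := (h1.eventually (gt_mem_nhds (show (0 : ℝ) < 1 / 2 ^ (j + 1) by positivity)))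
  obtain ⟨n0, hn0⟩ := Filter.eventually_atTop.mp h2
  refine ⟨max n0 (j + 1), fun m hm => (hj m).trans ?_⟩
  have h3 := hn0 m ((le_max_left _ _).trans hm)
  have h4 : j + 1 ≤ m := (le_max_right _ _).trans hm
  rw [div_lt_div_iff₀ (by positivity) (by positivity), one_mul, ← mul_pow] at h3
  have h5 : (m * 2) ^ (j + 1) < 2 ^ m := by exact_mod_cast h3
  calc j * (m + 1) ^ j ≤ (m * 2) * (m * 2) ^ j := by gcongr <;> omega
    _ = (m * 2) ^ (j + 1) := by rw [pow_succ, mul_comm]
    _ ≤ 2 ^ m := h5.le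

theorem hard_of (A R : List Bool → Bool)
    (hR : ∀ Q C O : List Bool → List Bool, PolyTime Q → PolyTime C → PolyTime O →
      R ∉ Opt Q C O A) (f : List Bool → List Bool) (hf : PolyTimeRel (ojoin A R) f)
    (hs : Set.range f ⊆ OTAUT (ojoin A R)) :
    ∃ g, PolyTimeRel A g ∧ Set.range g ⊆ OTAUT (ojoin A R) ∧
      ∀ m0, ∃ m, m0 ≤ m ∧ ∀ v, f v = g (List.replicate m true) → 2 ^ m < v.length := by
  obtain ⟨Q, C, O, hQ, hC, hO, h⟩ := hf
  have h1 := hR Q C O hQ hC hO
  have h2 : ∀ v, ora Q C O (ojoin A R) v = f v := fun v => (h v).symm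
  unfold Opt at h1
  rw [Set.mem_ofPred_eq, not_and] at h1
  have h3 := h1 (fun v => by rw [h2]; exact hs ⟨v, rfl⟩)
  push Not at h3
  obtain ⟨g, h4, h5, h6⟩ := h3
  refine ⟨g, h4, ?_, fun m0 => ?_⟩
  · rintro _ ⟨w, rfl⟩; exact h5 w
  · obtain ⟨m, h7, h8⟩ := h6 m0
    refine ⟨m, h7, fun v hv => ?_⟩
    by_contra h9
    push Not at h9
    exact h8 v h9 (by rw [h2]; exact hv)

theorem not_optimal (A R : List Bool → Bool)
    (hR : ∀ Q C O : List Bool → List Bool, PolyTime Q → PolyTime C → PolyTime O →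
      R ∉ Opt Q C O A) (f : List Bool → List Bool) : ¬ OptimalRel (ojoin A R) f := by
  rintro ⟨⟨hf, hr⟩, hopt⟩
  obtain ⟨g, hg, hgs, hhard⟩ := hard_of A R hR f hf hr.le
  have h1 : ProofSystemRel (ojoin A R)
      (fun w => if w.head?.getD false then g w.tail else f w.tail) := by
    refine ⟨hf.sum (hg.join R), ?_⟩
    apply Set.Subset.antisymm
    · rintro _ ⟨w, rfl⟩
      show (if w.head?.getD false then g w.tail else f w.tail) ∈ _
      split_ifs
      · exact hgs ⟨_, rfl⟩
      · exact hr ▸ ⟨_, rfl⟩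
    · intro x hx
      rw [← hr] at hx
      obtain ⟨w, rfl⟩ := hx
      exact ⟨false :: w, rfl⟩
  obtain ⟨h, p, hp⟩ := hopt _ h1
  obtain ⟨m0, hm0⟩ := poly_pow_le' (p.comp (X + 1))
  obtain ⟨m, hm, hv⟩ := hhard m0
  obtain ⟨h2, h3⟩ := hp (true :: List.replicate m true)
  have h4 := hv _ h2
  have h5 := hm0 m hm
  simp only [eval_comp, eval_add, eval_X, eval_one] at h5
  rw [List.length_cons, List.length_replicate] at h3
  omega

end Pool.Agent.Work.MP_0532f7_lc
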