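import Mathlib
import Pool.Agent.Work.MP_0532f7_lc.OMain3
import Pool.Agent.Work.MP_0532f7_lc.LocalOpt
import Pool.Agent.Work.MP_0532f7_lc.GDer
import Pool.Agent.Work.MP_0532f7_lc.GEmb
import Pool.Agent.Work.MP_0532f7_lc.GTop
import Pool.Agent.Work.MP_0532f7_lc.GFin

/-!
Optimal proof systems relative to generic oracles.
-/

namespace Pool.Agent.Work.MP_0532f7_lc

open Polynomial

/-! ### lists produced by loops -/

theorem flat_iter (F : List Bool → List Bool → List Bool) (p : List Bool) (n : ℕ) :
    (fun z => pr (true :: fs z) (sn z ++ F p (fs z)))^[n] (pr [] []) =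
      pr (un n) ((List.range n).flatMap (fun i => F p (un i))) := by
  induction n with
  | zero => rfl
  | succ n ih =>
    rw [Function.iterate_succ_apply', ih]
    simp only [fs_pr, sn_pr, List.range_succ, List.flatMap_append, List.flatMap_cons,
      List.flatMap_nil, List.append_nil]
    rfl

theorem flat_length (f : ℕ → List Bool) (n B : ℕ) (h : ∀ i < n, (f i).length ≤ B) :
    ((List.range n).flatMap f).length ≤ n * B := by
  induction n with
  | zero => simp
  | succ n ih =>
    rw [List.range_succ, List.flatMap_append, List.length_append, Nat.succ_mul]
    have h1 := h n (by omega)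
    have h2 := ih (fun i hi => h i (by omega))
    simp only [List.flatMap_cons, List.flatMap_nil, List.append_nil]
    omega

theorem FP.flat {F : List Bool → List Bool → List Bool} (hF : FP (fun z => F (fs z) (sn z)))
    {c h : List Bool → List Bool} (hc : FP c) (hh : FP h) :
    FP (fun x => (List.range (c x).length).flatMap (fun i => F (h x) (un i))) := by
  obtain ⟨Q, hQ⟩ := hF.length
  obtain ⟨R, hR⟩ := hc.length
  obtain ⟨V, hV⟩ := hh.length
  have hp : FP (fun w => fs w) := FP.fsI
  have hz : FP (fun w => sn w) := FP.snI
  have h1 := FP.iterc (step := fun p z => pr (true :: fs z) (sn z ++ F p (fs z)))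
    (((FP.cons true).comp hz.fst).pair (hz.snd.app ((hF.comp (hp.pair hz.fst)).congr (fun w => by
      simp)))) hh hc (FP.const (pr [] []))
    (2 * R + 1 + R * Q.comp (2 * V + 1 + R)) (fun x i hi => by
      rw [flat_iter, pr_length, un_length]
      have a1 := hR x
      have a2 := hV x
      have a3 := flat_length (fun i => F (h x) (un i)) i (Q.eval (2 * V.eval x.length + 1 +
        R.eval x.length)) (fun j hj => by
          have a4 := hQ (pr (h x) (un j))
          simp only [fs_pr, sn_pr] at a4
          refine a4.trans (pmono Q ?_)
          rw [pr_length, un_length]; omega)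
      have a5 : i * Q.eval (2 * V.eval x.length + 1 + R.eval x.length) ≤
        R.eval x.length * Q.eval (2 * V.eval x.length + 1 + R.eval x.length) :=
        Nat.mul_le_mul_right _ (hi.trans a1)
      simp only [eval_add, eval_mul, eval_ofNat, eval_one, eval_comp]
      omega)
  refine h1.snd.congr (fun x => ?_)
  rw [flat_iter, sn_pr]

theorem flatMap_pr (f : ℕ → List Bool) (n : ℕ) :
    (List.range n).flatMap (fun i => pr (f i) []) = encL ((List.range n).map f) := by
  induction n with
  | zero => rfl
  | succ n ih =>
    rw [List.range_succ, List.flatMap_append, List.map_append, encL_append, ih]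
    simp

/-! ### consistency of an oracle with finitely many answers -/

/-- the oracle coded by `s` gives the answers `a` to the queries listed in `q` -/
def Con (s q a : List Bool) : Prop :=
  ∀ i, i < a.length → memS (nth (un i) q) s = a.getD i false

/-- test for a wrong answer; context `pr (pr s q) a` -/
def vio (z : List Bool) : Bool :=
  !(decide ([memS (nth (sn z) (sn (fs (fs z)))) (fs (fs (fs z)))] =
    [((sn (fs z)).drop (sn z).length).head?.getD false]))

theorem FPb.vioI : FPb vio :=
  (FPb.eq (FPb.memI (FP.nthI FP.snI FP.fsI.fst.snd) FP.fsI.fst.fst)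
    (FPb.hd.comp (FP.drop FP.snI FP.fsI.snd))).not

theorem vio_iff (s q a : List Bool) (i : ℕ) : vio (pr (pr (pr s q) a) (un i)) = true ↔
    memS (nth (un i) q) s ≠ a.getD i false := by
  unfold vio
  simp only [fs_pr, sn_pr, un_length, Bool.not_eq_true', decide_eq_false_iff_not, List.cons.injEq,
    and_true, List.head?_drop, List.getD_eq_getElem?_getD]

/-- consistency as a test -/
def conS (s q a : List Bool) : Bool :=
  decide (un (lst vio (pr (pr s q) a) a.length) = un a.length)

theorem conS_iff (s q a : List Bool) : conS s q a = true ↔ Con s q a := by
  unfold conS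
  rw [decide_eq_true_eq, un_eq_iff]
  obtain ⟨h1, h2, h3⟩ := lst_spec vio (pr (pr s q) a) a.length
  constructor
  · intro h i hi
    have h4 := h2 i (by omega)
    by_contra h5
    rw [(vio_iff s q a i).mpr h5] at h4
    exact absurd h4 (by simp)
  · intro h
    by_contra h4
    have h5 := h3 (by omega)
    rw [vio_iff] at h5
    exact h5 (h _ (by omega))

theorem FPb.conI {f g h : List Bool → List Bool} (hf : FP f) (hg : FP g) (hh : FP h) :
    FPb (fun x => conS (f x) (g x) (h x)) :=
  FPb.eq (FP.lstI FPb.vioI ((hf.pair hg).pair hh) hh) (FP.unL hh)

/-! ### the queries of a computation and an initial segment -/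

/-- the queries made by a computation with the answers `a` -/
def qry (Q : List Bool → List Bool) (w a : List Bool) (k : ℕ) : List (List Bool) :=
  (List.range k).map (fun i => Q (pr w (a.take i)))

theorem answers_take (Q : List Bool → List Bool) (X : List Bool → Bool) (w : List Bool)
    (n i : ℕ) (hi : i ≤ n) : (answers Q X w n).take i = answers Q X w i := by
  induction n with
  | zero => obtain rfl : i = 0 := by omega
            rfl
  | succ n ih =>
    rcases Nat.lt_or_ge i (n + 1) with h | h
    · show (answers Q X w n ++ _).take i = _
      rw [List.take_append_of_le_length (by rw [answers_length]; omega)]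
      exact ih (by omega)
    · obtain rfl : i = n + 1 := by omega
      exact List.take_of_length_le (by rw [answers_length])

theorem answers_getD (Q : List Bool → List Bool) (X : List Bool → Bool) (w : List Bool)
    (n i : ℕ) (hi : i < n) :
    (answers Q X w n).getD i false = X (Q (pr w (answers Q X w i))) := by
  have h1 := answers_take Q X w n (i + 1) (by omega)
  have h2 : (answers Q X w n).getD i false = ((answers Q X w n).take (i + 1)).getD i false := by
    rw [List.getD_eq_getElem?_getD, List.getD_eq_getElem?_getD, List.getElem?_take,
      if_pos (by omega)]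
  rw [h2, h1]
  show (answers Q X w i ++ [X (Q (pr w (answers Q X w i)))]).getD i false = _
  rw [List.getD_eq_getElem?_getD, List.getElem?_append_right (by rw [answers_length]),
    answers_length]
  simp

/-- answers determined by consistency -/
theorem answers_of_con (Q : List Bool → List Bool) (X : List Bool → Bool) (w a : List Bool)
    (h : ∀ i, i < a.length → X (Q (pr w (a.take i))) = a.getD i false) :
    answers Q X w a.length = a := by
  have key : ∀ n, n ≤ a.length → answers Q X w n = a.take n := by
    intro n
    induction n with
    | zero => intro _; rfl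
    | succ n ih =>
      intro hn
      show answers Q X w n ++ [X (Q (pr w (answers Q X w n)))] = _
      rw [ih (by omega), h n (by omega)]
      apply List.ext_getElem?
      intro i
      rw [List.getElem?_take]
      rcases lt_trichotomy i n with h1 | h1 | h1
      · rw [List.getElem?_append_left (by rw [List.length_take]; omega), List.getElem?_take,
          if_pos h1, if_pos (by omega)]
      · subst h1
        have hia : i < a.length := by omega
        rw [List.getElem?_append_right (by rw [List.length_take]; omega), if_pos (by omega),
          List.length_take, min_eq_left (by omega), Nat.sub_self]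
        simp [List.getD_eq_getElem?_getD, List.getElem?_eq_getElem hia]
      · rw [List.getElem?_eq_none (by simp; omega), if_neg (by omega)]
  rw [key a.length le_rfl, List.take_length]

/-- coded list of the queries followed by the words number `0, …, n0 - 1` -/
def qL (Q : List Bool → List Bool) (n0 : ℕ) (w a : List Bool) : List Bool :=
  encL (qry Q w a a.length ++ (List.range n0).map num)

theorem nth_qL_lt (Q : List Bool → List Bool) (n0 : ℕ) (w a : List Bool) (i : ℕ)
    (hi : i < a.length) : nth (un i) (qL Q n0 w a) = Q (pr w (a.take i)) := by
  unfold qL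
  rw [nth_encL, un_length, List.getD_append _ _ _ _ (by simp [qry]; omega)]
  unfold qry
  rw [List.getD_eq_getElem?_getD, List.getElem?_map, List.getElem?_range hi]
  rfl

theorem nth_qL_ge (Q : List Bool → List Bool) (n0 : ℕ) (w a : List Bool) (k : ℕ)
    (hk : k < n0) : nth (un (a.length + k)) (qL Q n0 w a) = num k := by
  unfold qL
  rw [nth_encL, un_length, List.getD_append_right _ _ _ _ (by simp [qry])]
  have : a.length + k - (qry Q w a a.length).length = k := by simp [qry]
  rw [this, List.getD_eq_getElem?_getD, List.getElem?_map, List.getElem?_range hk]
  rfl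

theorem FP.qLI {Q : List Bool → List Bool} (hQ : FP Q) (n0 : ℕ) {f g : List Bool → List Bool}
    (hf : FP f) (hg : FP g) : FP (fun x => qL Q n0 (f x) (g x)) := by
  have h1 := FP.flat (F := fun c i => pr (Q (pr (fs c) ((sn c).take i.length))) [])
    ((hQ.comp (FP.pair FP.fsI.fst (FP.take FP.snI FP.fsI.snd))).pair FP.nil) hg (hf.pair hg)
  refine (h1.app (FP.const (encL ((List.range n0).map num)))).congr (fun x => ?_)
  unfold qL
  rw [encL_append]
  congr 1
  have h2 : ∀ i : ℕ, pr (Q (pr (fs (pr (f x) (g x))) ((sn (pr (f x) (g x))).take (un i).length)))
      [] = pr (Q (pr (f x) ((g x).take i))) [] := by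
    intro i
    rw [fs_pr, sn_pr, un_length]
  simp only [h2]
  rw [flatMap_pr]
  rfl

/-- an oracle consistent with the answers and the initial segment `σ` -/
theorem con_spec (Q : List Bool → List Bool) (s w a σ : List Bool)
    (h : Con s (qL Q σ.length w a) (a ++ σ)) :
    answers Q (fun x => memS x s) w a.length = a ∧ tab (fun x => memS x s) σ.length = σ := by
  constructor
  · apply answers_of_con
    intro i hi
    have h1 := h i (by rw [List.length_append]; omega)
    rw [nth_qL_lt Q _ w a i hi, List.getD_append _ _ _ _ hi] at h1
    exact h1
  · apply List.ext_getElem?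
    intro k
    rw [omb_tab_getElem?]
    split_ifs with hk
    · have h1 := h (a.length + k) (by rw [List.length_append]; omega)
      rw [nth_qL_ge Q _ w a k hk, List.getD_append_right _ _ _ _ (by omega)] at h1
      rw [h1, show a.length + k - a.length = k by omega, List.getD_eq_getElem?_getD,
        List.getElem?_eq_getElem hk]
      rfl
    · rw [List.getElem?_eq_none (by omega)]

/-- the true oracle is consistent -/
theorem con_true (Q : List Bool → List Bool) (R : List Bool → Bool) (w : List Bool) (n n0 i : ℕ)
    (hi : i < (answers Q R w n ++ tab R n0).length) :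
    R (nth (un i) (qL Q n0 w (answers Q R w n))) = (answers Q R w n ++ tab R n0).getD i false := by
  rw [List.length_append, omb_tab_length] at hi
  rcases Nat.lt_or_ge i (answers Q R w n).length with h | h
  · rw [nth_qL_lt Q n0 w _ i h, List.getD_append _ _ _ _ h]
    rw [answers_length] at h
    rw [answers_getD Q R w n i h, answers_take Q R w n i (by omega)]
  · obtain ⟨k, rfl⟩ := Nat.exists_eq_add_of_le h
    rw [nth_qL_ge Q n0 w _ k (by omega), List.getD_append_right _ _ _ _ (by omega)]
    rw [show (answers Q R w n).length + k - (answers Q R w n).length = k by omega,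
      List.getD_eq_getElem?_getD, omb_tab_getElem?, if_pos (by omega)]
    rfl

end Pool.Agent.Work.MP_0532f7_lc
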