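import Mathlib
import Pool.Agent.Work.MP_0532f7_lc.GMain

/-!
From an optimal system to an optimal system relative to a generic oracle.
-/

namespace Pool.Agent.Work.MP_0532f7_lc

open Polynomial

/-- `z = pr (pr c (pr q a)) (pr (pr v s) y)`: the certificate `y` shows that the formula with code
`c` is false for the oracle coded by `s`, which gives the answers `a` to the queries `q` -/
def badS (der : List Bool → Bool) (z : List Bool) : Bool :=
  der (pr (fs (sn z)) (pr (sn (sn z)) (false :: fs (fs z)))) &&
    conS (sn (fs (sn z))) (fs (sn (fs z))) (sn (sn (fs z)))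

theorem FPb.badI {der : List Bool → Bool} (hd : FPb der) : FPb (badS der) :=
  (hd.comp (FP.pair FP.snI.fst (FP.pair FP.snI.snd ((FP.cons false).comp FP.fsI.fst)))).and
    (FPb.conI FP.snI.fst.snd FP.fsI.snd.fst FP.fsI.snd.snd)

/-- the properties of the checker of certified evaluations -/
def DerOk (der : List Bool → Bool) (P : Polynomial ℕ) : Prop :=
  (∀ (v s y : List Bool) (b : Bool) (c : List Bool),
      der (pr (pr v s) (pr y (b :: c))) = true →
        ∃ φ : OForm, φ.code = c ∧ φ.eval (fun x => memS x s) (fun x => memS x v) = b) ∧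
    ∀ (φ : OForm) (v s : List Bool), ∃ y : List Bool,
      y.length ≤ P.eval φ.code.length ∧
      der (pr (pr v s) (pr y (φ.eval (fun x => memS x s) (fun x => memS x v) :: φ.code))) =
        true

/-- every `z` may be replaced by a pair of pairs for `der` only if `fs (sn z)` is a pair; so bad
words give false formulas when the certificate is well formed -/
theorem bad_sound {der : List Bool → Bool} {P : Polynomial ℕ} (hd : DerOk der P)
    (c q a v s y : List Bool)
    (h : badS der (pr (pr c (pr q a)) (pr (pr v s) y)) = true) :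
    ∃ φ : OForm, φ.code = c ∧ φ.eval (fun x => memS x s) (fun x => memS x v) = false ∧
      Con s q a := by
  unfold badS at h
  simp only [fs_pr, sn_pr, Bool.and_eq_true] at h
  obtain ⟨φ, h1, h2⟩ := hd.1 v s y false c h.1
  exact ⟨φ, h1, h2, (conS_iff s q a).mp h.2⟩

theorem bad_complete {der : List Bool → Bool} {P : Polynomial ℕ} (hd : DerOk der P) :
    ∃ p : Polynomial ℕ, ∀ (φ : OForm) (q a : List Bool) (R u : List Bool → Bool),
      (∀ i, i < a.length → R (nth (un i) q) = a.getD i false) → φ.eval R u = false →
      ∃ v s y : List Bool, (pr (pr v s) y).length ≤ p.eval (pr φ.code (pr q a)).length ∧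
        badS der (pr (pr φ.code (pr q a)) (pr (pr v s) y)) = true := by
  obtain ⟨F, hF⟩ := finite_support
  refine ⟨2 * (2 * F + 1 + F + X * (2 * X + 1)) + 1 + P, fun φ q a R u hR hu => ?_⟩
  obtain ⟨S, V, h1, h2, h3, h4⟩ := hF φ R u
  set Qp : List (List Bool) := ((List.range a.length).map (fun i => nth (un i) q)).filter R
    with hQp
  have h5 := h4 (S ++ Qp) (fun x hx => List.mem_append_left _ hx) (fun x hx => by
    rcases List.mem_append.mp hx with h | h
    · exact h3 x h
    · rw [hQp, List.mem_filter] at h; exact h.2)
  rw [hu] at h5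
  have e1 : (fun x => memS x (encL (S ++ Qp))) = fun x => decide (x ∈ S ++ Qp) := by
    funext x; exact memS_eq x _
  have e2 : (fun x => memS x (encL V)) = fun x => decide (x ∈ V) := by
    funext x; exact memS_eq x _
  obtain ⟨y, h6, h7⟩ := hd.2 φ (encL V) (encL (S ++ Qp))
  rw [e1, e2, h5] at h7
  have hcon : Con (encL (S ++ Qp)) q a := by
    intro i hi
    rw [memS_eq, ← hR i hi]
    cases hb : R (nth (un i) q) with
    | true =>
      rw [decide_eq_true_eq]
      refine List.mem_append_right _ ?_
      rw [hQp, List.mem_filter]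
      exact ⟨List.mem_map.mpr ⟨i, List.mem_range.mpr hi, rfl⟩, hb⟩
    | false =>
      rw [decide_eq_false_iff_not]
      intro h
      have h8 : R (nth (un i) q) = true := by
        rcases List.mem_append.mp h with h | h
        · exact h3 _ h
        · rw [hQp, List.mem_filter] at h; exact h.2
      rw [hb] at h8
      exact absurd h8 (by simp)
  refine ⟨encL V, encL (S ++ Qp), y, ?_, ?_⟩
  · have hlen : ∀ L : List (List Bool), (∀ x ∈ L, x.length ≤ q.length) →
        (encL L).length ≤ L.length * (2 * q.length + 1) := by
      intro L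
      induction L with
      | nil => intro _; simp
      | cons x L ih =>
        intro h
        rw [encL_cons, pr_length, List.length_cons]
        have e : (L.length + 1) * (2 * q.length + 1) =
          L.length * (2 * q.length + 1) + (2 * q.length + 1) := Nat.succ_mul _ _
        have := h x (by simp)
        have := ih (fun z hz => h z (by simp [hz]))
        omega
    have h8 : (encL Qp).length ≤ a.length * (2 * q.length + 1) := by
      refine (hlen Qp (fun x hx => ?_)).trans (Nat.mul_le_mul_right _ ?_)
      · rw [hQp, List.mem_filter, List.mem_map] at hx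
        obtain ⟨⟨i, _, rfl⟩, _⟩ := hx
        exact nth_length _ _
      · rw [hQp]
        exact (List.length_filter_le _ _).trans (by simp)
    have hx : (pr φ.code (pr q a)).length = 2 * φ.code.length + 1 + (2 * q.length + 1 + a.length) := by
      rw [pr_length, pr_length]
    have h9 := pmono F (show φ.code.length ≤ (pr φ.code (pr q a)).length by omega)
    have h10 := pmono P (show φ.code.length ≤ (pr φ.code (pr q a)).length by omega)
    have h11 : a.length * (2 * q.length + 1) ≤ (pr φ.code (pr q a)).length *
        (2 * (pr φ.code (pr q a)).length + 1) := Nat.mul_le_mul (by omega) (by omega)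
    rw [pr_length (pr _ _) y, pr_length (encL V), encL_append, List.length_append]
    simp only [eval_add, eval_mul, eval_ofNat, eval_one, eval_X]
    omega
  · unfold badS
    simp only [fs_pr, sn_pr, Bool.and_eq_true]
    exact ⟨h7, (conS_iff _ _ _).mpr hcon⟩

/-- bad words as the relation for the coNP-hardness of TAUT: only well formed certificates count -/
def Rb (der : List Bool → Bool) (z : List Bool) : List Bool :=
  [badS der z && decide (sn z = pr (pr (fs (fs (sn z))) (sn (fs (sn z)))) (sn (sn z)))]

theorem FP.RbI {der : List Bool → Bool} (hd : FPb der) : FP (Rb der) :=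
  (FPb.badI hd).and (FPb.eq FP.snI (FP.pair (FP.pair FP.snI.fst.fst FP.snI.fst.snd) FP.snI.snd))

/-- the reduction to TAUT -/
theorem exists_red {der : List Bool → Bool} {P : Polynomial ℕ} (hd : DerOk der P)
    (hdf : FPb der) : ∃ r : List Bool → List Bool, PolyTime r ∧
      (∀ c q a : List Bool, (∀ (s : List Bool) (φ : OForm), φ.code = c → Con s q a →
        ∀ u, φ.eval (fun x => memS x s) u = true) → r (pr c (pr q a)) ∈ TAUT) ∧
      ∀ (φ : OForm) (q a : List Bool) (R u : List Bool → Bool),
        (∀ i, i < a.length → R (nth (un i) q) = a.getD i false) →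
        r (pr φ.code (pr q a)) ∈ TAUT → φ.eval R u = true := by
  obtain ⟨p, hp⟩ := bad_complete hd
  obtain ⟨r, hr, h⟩ := cook_levin (R := Rb der) (FP.RbI hdf).polyTime p
  refine ⟨r, hr, fun c q a h1 => ?_, fun φ q a R u h1 h2 => ?_⟩
  · rw [h]
    intro y _ hy
    unfold Rb at hy
    simp only [List.cons.injEq, and_true, Bool.and_eq_true, decide_eq_true_eq, sn_pr] at hy
    obtain ⟨hy1, hy2⟩ := hy
    rw [hy2] at hy1
    obtain ⟨φ, h2, h3, h4⟩ := bad_sound hd c q a _ _ _ hy1
    have h5 := h1 _ φ h2 h4 (fun x => memS x (fs (fs y)))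
    rw [h5] at h3
    exact absurd h3 (by simp)
  · rw [h] at h2
    by_contra h3
    obtain ⟨v, s, y, h4, h5⟩ := hp φ q a R u h1 (by simpa using h3)
    refine h2 _ h4 ?_
    unfold Rb
    rw [h5]
    simp

/-- values of the oracle on the words listed in `q` -/
theorem answers_nth (q w : List Bool)
    (R : List Bool → Bool) (Q : List Bool → List Bool)
    (hQ : ∀ a, Q (pr w a) = nth a q) (n i : ℕ) (hi : i < n) :
    R (nth (un i) q) = (answers Q R w n).getD i false := by
  rw [answers_getD Q R w n i hi, hQ]
  congr 1
  unfold nth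
  rw [un_length, answers_length]

theorem list_eq_of_getD {a b : List Bool} (hl : a.length = b.length)
    (h : ∀ i, i < a.length → a.getD i false = b.getD i false) : a = b := by
  apply List.ext_getElem hl
  intro i h1 h2
  have := h i h1
  rwa [List.getD_eq_getElem?_getD, List.getD_eq_getElem?_getD, List.getElem?_eq_getElem h1,
    List.getElem?_eq_getElem h2] at this

/-- soundness of every system that is sound at `R` is forced by a finite part of `R` -/
def Gen (R : List Bool → Bool) : Prop := ∀ Q C O : List Bool → List Bool,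
    PolyTime Q → PolyTime C → PolyTime O → (∀ v, ora Q C O R v ∈ OTAUT R) →
      ∃ n, ∀ R' : List Bool → Bool, tab R' n = tab R n → ∀ v, ora Q C O R' v ∈ OTAUT R'

section

variable (f r : List Bool → List Bool) (der : List Bool → Bool)

/-- queries of the relativized system -/
def Qst (z : List Bool) : List Bool := nth (sn z) (fs (sn (fs z)))

/-- number of queries -/
def Cst (w : List Bool) : List Bool := fs (sn (sn w))

/-- value; `z = pr (pr c (pr q (pr k (pr v d)))) a` -/
def Ost (z : List Bool) : List Bool :=
  if decide (f (fs (sn (sn (sn (fs z))))) = r (pr (fs (fs z)) (pr (fs (sn (fs z))) (sn z)))) &&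
      (der (pr (pr [] []) (pr (sn (sn (sn (sn (fs z))))) (true :: fs (fs z)))) ||
        der (pr (pr [] []) (pr (sn (sn (sn (sn (fs z))))) (false :: fs (fs z))))) then
    fs (fs z)
  else oTop.code

theorem FP.QstI : FP Qst := FP.nthI FP.snI FP.fsI.snd.fst

theorem FP.CstI : FP Cst := FP.snI.snd.fst

variable {f r der} in
theorem FP.OstI (hf : FP f) (hr : FP r) (hd : FPb der) : FP (Ost f r der) := by
  have hc : FP (fun z => fs (fs z)) := FP.fsI.fst
  have hdd : FP (fun z => sn (sn (sn (sn (fs z))))) := FP.fsI.snd.snd.snd.snd
  exact FP.ite ((FPb.eq (hf.comp FP.fsI.snd.snd.snd.fst)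
      (hr.comp (FP.pair hc (FP.pair FP.fsI.snd.fst FP.snI)))).and
        ((hd.comp (FP.pair (FP.const _) (FP.pair hdd ((FP.cons true).comp hc)))).or
          (hd.comp (FP.pair (FP.const _) (FP.pair hdd ((FP.cons false).comp hc))))))
    hc (FP.const _)

/-- the relativized system -/
def Fst (R : List Bool → Bool) (w : List Bool) : List Bool :=
  Ost f r der (pr w (answers Qst R w (Cst w).length))

theorem Fst_eq (R : List Bool → Bool) (c q k v d : List Bool) (b : Bool)
    (A : List Bool) (hA : A.length = k.length)
    (hR : ∀ i, i < k.length → R (nth (un i) q) = A.getD i false)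
    (h1 : f v = r (pr c (pr q A))) (h2 : der (pr (pr [] []) (pr d (b :: c))) = true) :
    Fst f r der R (pr c (pr q (pr k (pr v d)))) = c := by
  have hk : (Cst (pr c (pr q (pr k (pr v d))))).length = k.length := by
    unfold Cst; simp only [fs_pr, sn_pr]
  have e : answers Qst R (pr c (pr q (pr k (pr v d)))) k.length = A := by
    apply list_eq_of_getD
    · rw [answers_length, hA]
    · intro i hi
      rw [answers_length] at hi
      rw [← hR i hi, ← answers_nth q _ R Qst (fun a => by
        unfold Qst; simp only [fs_pr, sn_pr]) k.length i hi]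
  unfold Fst
  rw [hk, e]
  unfold Ost
  simp only [fs_pr, sn_pr]
  rw [if_pos]
  rw [Bool.and_eq_true, Bool.or_eq_true, decide_eq_true_eq]
  refine ⟨h1, ?_⟩
  cases b with
  | true => exact Or.inl h2
  | false => exact Or.inr h2

end

theorem dir1 {f : List Bool → List Bool} (hf : Optimal f) (R : List Bool → Bool) (hR : Gen R) :
    ∃ F, OptimalRel R F := by
  obtain ⟨der, hdf, hd1, P, hd2⟩ := exists_der
  have hd : DerOk der P := ⟨hd1, hd2⟩
  obtain ⟨r, hr, hr1, hr2⟩ := exists_red hd hdf
  obtain ⟨⟨hfp, hfr⟩, hopt⟩ := hf
  refine ⟨Fst f r der R, ⟨⟨Qst, Cst, Ost f r der, FP.QstI.polyTime, FP.CstI.polyTime,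
    (FP.OstI hfp.fp hr.fp hdf).polyTime, fun w => rfl⟩, ?_⟩, ?_⟩
  · apply Set.Subset.antisymm
    · rintro _ ⟨w, rfl⟩
      show Ost f r der (pr w (answers Qst R w (Cst w).length)) ∈ OTAUT R
      unfold Ost
      rw [fs_pr, sn_pr]
      split_ifs with h
      · rw [Bool.and_eq_true, Bool.or_eq_true, decide_eq_true_eq] at h
        have hval : ∃ φ : OForm, φ.code = fs w := by
          rcases h.2 with h2 | h2
          · obtain ⟨φ, h3, _⟩ := hd1 _ _ _ _ _ h2; exact ⟨φ, h3⟩
          · obtain ⟨φ, h3, _⟩ := hd1 _ _ _ _ _ h2; exact ⟨φ, h3⟩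
        obtain ⟨φ, hφ⟩ := hval
        refine ⟨φ, hφ, fun u => ?_⟩
        have h3 : r (pr φ.code (pr (fs (sn w)) (answers Qst R w (Cst w).length))) ∈ TAUT := by
          rw [hφ, ← h.1, ← hfr]; exact ⟨_, rfl⟩
        refine hr2 φ _ _ R u (fun i hi => ?_) h3
        rw [answers_length] at hi
        exact answers_nth (fs (sn w)) w R Qst (fun a => by
          unfold Qst; rw [fs_pr, sn_pr]) _ i hi
      · exact oTop_mem R
    · rintro _ ⟨φ, rfl, hφ⟩
      obtain ⟨N, hN⟩ : ∃ N, N = 2 ^ (φ.code.length + 1) := ⟨_, rfl⟩
      set q := encL ((List.range N).map num) with hq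
      have hq' : ∀ i, i < N → nth (un i) q = num i := by
        intro i hi
        rw [hq, nth_encL, un_length, List.getD_eq_getElem?_getD, List.getElem?_map,
          List.getElem?_range hi]
        rfl
      have htab : ∀ i, i < N → R (nth (un i) q) = (tab R N).getD i false := by
        intro i hi
        rw [hq' i hi, List.getD_eq_getElem?_getD, omb_tab_getElem?, if_pos hi]
        rfl
      have h1 : r (pr φ.code (pr q (tab R N))) ∈ TAUT := by
        apply hr1
        intro s ψ hψ hcon u
        have hψ' := OForm.code_injective hψ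
        subst hψ'
        rw [← hφ u]
        apply eval_len
        intro x hx
        have h2 := val_lt hx
        have h3 := hcon (val x) (by rw [omb_tab_length]; omega)
        rw [hq' _ (by omega), num_val] at h3
        rw [h3, ← htab _ (by omega), hq' _ (by omega), num_val]
      rw [← hfr] at h1
      obtain ⟨v, hv⟩ := h1
      obtain ⟨d, _, hd3⟩ := hd2 φ [] []
      refine ⟨pr φ.code (pr q (pr (un N) (pr v d))), ?_⟩
      exact Fst_eq f r der R φ.code q (un N) v d _ (tab R N) (by rw [omb_tab_length, un_length])
        (fun i hi => htab i (by rwa [un_length] at hi)) hv hd3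
  · rintro g ⟨⟨Q, C, O, hQ, hC, hO, hg⟩, hgr⟩
    have hsound : ∀ v, ora Q C O R v ∈ OTAUT R := fun v => by
      rw [← hgr]; exact ⟨v, hg v⟩
    obtain ⟨n0, hn0⟩ := hR Q C O hQ hC hO hsound
    have hσl : (tab R n0).length = n0 := omb_tab_length R n0
    -- the plain system
    set g' : List Bool → List Bool := fun u =>
      if decide (un (sn u).length = un (C (fs u)).length) then
        r (pr (O (pr (fs u) (sn u))) (pr (qL Q n0 (fs u) (sn u)) (sn u ++ tab R n0)))
      else cT with hg'
    have hg'fp : FP g' := FP.ite (FPb.eq (FP.unL FP.snI) (FP.unL (hC.fp.comp FP.fsI)))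
      (hr.fp.comp (FP.pair (hO.fp.comp (FP.pair FP.fsI FP.snI))
        (FP.pair (FP.qLI hQ.fp n0 FP.fsI FP.snI) (FP.snI.app (FP.const _))))) (FP.const _)
    have hg's : ∀ u, g' u ∈ TAUT := by
      intro u
      simp only [hg']
      split_ifs with h
      · rw [decide_eq_true_eq, un_eq_iff] at h
        apply hr1
        intro s φ hφ hcon v
        have hcon' : Con s (qL Q (tab R n0).length (fs u) (sn u)) (sn u ++ tab R n0) := by
          rw [hσl]; exact hcon
        obtain ⟨h1, h2⟩ := con_spec Q s (fs u) (sn u) (tab R n0) hcon'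
        rw [hσl] at h2
        have h3 := hn0 (fun x => memS x s) h2 (fs u)
        unfold ora at h3
        rw [← h, h1] at h3
        obtain ⟨ψ, h4, h5⟩ := h3
        have h6 := OForm.code_injective (h4.trans hφ.symm)
        subst h6
        exact h5 v
      · exact cT_mem
    have hps : ProofSystem (fun u => if u.head?.getD false then g' u.tail else f u.tail) := by
      refine ⟨(FP.ite FPb.hd (hg'fp.comp FP.tail) (hfp.fp.comp FP.tail)).polyTime, ?_⟩
      apply Set.Subset.antisymm
      · rintro _ ⟨u, rfl⟩
        show (if u.head?.getD false then g' u.tail else f u.tail) ∈ TAUT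
        split_ifs
        · exact hg's _
        · rw [← hfr]; exact ⟨_, rfl⟩
      · intro x hx
        rw [← hfr] at hx
        obtain ⟨u, rfl⟩ := hx
        exact ⟨false :: u, rfl⟩
    obtain ⟨h, p, hp⟩ := hopt _ hps
    -- translation
    have key : ∀ w, ∃ d : List Bool, d.length ≤ P.eval (g w).length ∧
        Fst f r der R (pr (g w) (pr (qL Q n0 w (answers Q R w (C w).length))
          (pr (un ((C w).length + n0))
            (pr (h (true :: pr w (answers Q R w (C w).length))) d)))) = g w := by
      intro w
      have hmem : g w ∈ OTAUT R := by rw [← hgr]; exact ⟨w, rfl⟩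
      obtain ⟨φ, hφ, _⟩ := hmem
      obtain ⟨d, hd3, hd4⟩ := hd2 φ [] []
      rw [hφ] at hd3 hd4
      refine ⟨d, hd3, ?_⟩
      refine Fst_eq f r der R (g w) _ (un ((C w).length + n0)) _ d _
        (answers Q R w (C w).length ++ tab R n0) ?_ (fun i hi => ?_) ?_ hd4
      · rw [List.length_append, answers_length, hσl, un_length]
      · rw [un_length] at hi
        exact con_true Q R w _ n0 i (by rw [List.length_append, answers_length, hσl]; exact hi)
      · obtain ⟨h1, _⟩ := hp (true :: pr w (answers Q R w (C w).length))
        rw [h1]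
        show g' (pr w (answers Q R w (C w).length)) = _
        simp only [hg', fs_pr, sn_pr]
        rw [if_pos (by rw [decide_eq_true_eq, answers_length]), ← hg w]
    choose d hd3 hd4 using key
    -- bounds
    obtain ⟨PC, hPC⟩ := hC.fp.length
    obtain ⟨PO, hPO⟩ := hO.fp.length
    obtain ⟨PL, hPL⟩ := (FP.qLI hQ.fp n0 FP.fsI FP.snI).length
    refine ⟨fun w => pr (g w) (pr (qL Q n0 w (answers Q R w (C w).length))
          (pr (un ((C w).length + n0))
            (pr (h (true :: pr w (answers Q R w (C w).length))) (d w)))),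
      2 * PO.comp (2 * X + 1 + PC) + 1 + (2 * PL.comp (2 * X + 1 + PC) + 1 +
        (2 * (PC + Polynomial.C n0) + 1 + (2 * p.comp (2 * X + 2 + PC) + 1 +
          P.comp (PO.comp (2 * X + 1 + PC))))),
      fun w => ⟨hd4 w, ?_⟩⟩
    have hu : (pr w (answers Q R w (C w).length)).length ≤ 2 * w.length + 1 + PC.eval w.length := by
      rw [pr_length, answers_length]
      have := hPC w
      omega
    have b1 : (g w).length ≤ PO.eval (2 * w.length + 1 + PC.eval w.length) := by
      rw [hg w]; exact (hPO _).trans (pmono PO hu)
    have b2 : (qL Q n0 w (answers Q R w (C w).length)).length ≤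
        PL.eval (2 * w.length + 1 + PC.eval w.length) := by
      have := hPL (pr w (answers Q R w (C w).length))
      rw [fs_pr, sn_pr] at this
      exact this.trans (pmono PL hu)
    have b3 := hPC w
    have b4 : (h (true :: pr w (answers Q R w (C w).length))).length ≤
        p.eval (2 * w.length + 2 + PC.eval w.length) := by
      refine (hp _).2.trans (pmono p ?_)
      rw [List.length_cons]; omega
    have b5 : (d w).length ≤ P.eval (PO.eval (2 * w.length + 1 + PC.eval w.length)) :=
      (hd3 w).trans (pmono P b1)
    rw [pr_length, pr_length, pr_length, pr_length, un_length]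
    simp only [eval_add, eval_mul, eval_ofNat, eval_one, eval_X, eval_comp, eval_C]
    omega

end Pool.Agent.Work.MP_0532f7_lc
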