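import Mathlib
import Pool.Agent.Work.MP_0532f7_lc.GMain2

/-!
From an optimal system relative to a generic oracle to an optimal system.
-/

namespace Pool.Agent.Work.MP_0532f7_lc

open Polynomial

/-- the words listed in `q` with positive answer, as a coded list -/
def pos (q b : List Bool) : List Bool :=
  (List.range b.length).flatMap (fun i =>
    if ((sn (pr q b)).drop (un i).length).head?.getD false then
      pr (nth (un i) (fs (pr q b))) [] else [])

theorem FP.posI {f g : List Bool → List Bool} (hf : FP f) (hg : FP g) :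
    FP (fun x => pos (f x) (g x)) :=
  FP.flat (F := fun c i => if ((sn c).drop i.length).head?.getD false then
      pr (nth i (fs c)) [] else [])
    (FP.ite (FPb.hd.comp (FP.drop FP.snI FP.fsI.snd))
      (FP.pair (FP.nthI FP.snI FP.fsI.fst) FP.nil) FP.nil) hg (hf.pair hg)

theorem pos_eq (q b : List Bool) : ∃ L : List (List Bool), pos q b = encL L ∧
    ∀ x, x ∈ L ↔ ∃ i, i < b.length ∧ b.getD i false = true ∧ nth (un i) q = x := by
  have key : ∀ n, ∃ L : List (List Bool), (List.range n).flatMap (fun i =>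
      if ((sn (pr q b)).drop (un i).length).head?.getD false then
        pr (nth (un i) (fs (pr q b))) [] else []) = encL L ∧
      ∀ x, x ∈ L ↔ ∃ i, i < n ∧ b.getD i false = true ∧ nth (un i) q = x := by
    intro n
    induction n with
    | zero => exact ⟨[], rfl, fun x => by simp⟩
    | succ n ih =>
      obtain ⟨L, h1, h2⟩ := ih
      have hb : ((sn (pr q b)).drop (un n).length).head?.getD false = b.getD n false := by
        rw [sn_pr, un_length, List.head?_drop, List.getD_eq_getElem?_getD]
      rw [List.range_succ, List.flatMap_append, h1, List.flatMap_cons, List.flatMap_nil,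
        List.append_nil, hb, fs_pr]
      cases hc : b.getD n false with
      | true =>
        refine ⟨L ++ [nth (un n) q], ?_, fun x => ?_⟩
        · rw [encL_append]; rfl
        · rw [List.mem_append, h2, List.mem_singleton]
          constructor
          · rintro (⟨i, h3, h4⟩ | h3)
            · exact ⟨i, by omega, h4⟩
            · exact ⟨n, by omega, hc, h3.symm⟩
          · rintro ⟨i, h3, h4, h5⟩
            rcases Nat.lt_succ_iff_lt_or_eq.mp h3 with h6 | h6
            · exact Or.inl ⟨i, h6, h4, h5⟩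
            · subst h6; exact Or.inr h5.symm
      | false =>
        refine ⟨L, by simp, fun x => ?_⟩
        rw [h2]
        constructor
        · rintro ⟨i, h3, h4⟩; exact ⟨i, by omega, h4⟩
        · rintro ⟨i, h3, h4, h5⟩
          rcases Nat.lt_succ_iff_lt_or_eq.mp h3 with h6 | h6
          · exact ⟨i, h6, h4, h5⟩
          · subst h6; rw [hc] at h4; exact absurd h4 (by simp)
  exact key b.length

theorem pos_con (q b : List Bool) (R : List Bool → Bool)
    (h : ∀ i, i < b.length → R (nth (un i) q) = b.getD i false) : Con (pos q b) q b := by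
  obtain ⟨L, h1, h2⟩ := pos_eq q b
  intro i hi
  rw [h1, memS_eq, ← h i hi]
  cases hb : R (nth (un i) q) with
  | true =>
    rw [decide_eq_true_eq, h2]
    exact ⟨i, hi, by rw [← h i hi, hb], rfl⟩
  | false =>
    rw [decide_eq_false_iff_not, h2]
    rintro ⟨j, h3, h4, h5⟩
    rw [← h j h3, h5, hb] at h4
    exact absurd h4 (by simp)

section

variable (Q C O e : List Bool → List Bool) (σ : List Bool)

/-- the plain system; `u = pr c (pr w a)` -/
def Fpl (u : List Bool) : List Bool :=
  if (isCode (fs u) && decide (un (sn (sn u)).length = un (C (fs (sn u))).length)) &&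
      (decide (O (pr (fs (sn u)) (sn (sn u))) = e (fs u)) &&
        conS (pos (qL Q σ.length (fs (sn u)) (sn (sn u))) (sn (sn u) ++ σ))
          (qL Q σ.length (fs (sn u)) (sn (sn u))) (sn (sn u) ++ σ)) then fs u
  else cT

variable {Q C O e} in
theorem FP.FplI (hQ : FP Q) (hC : FP C) (hO : FP O) (he : FP e) : FP (Fpl Q C O e σ) := by
  have hw : FP (fun u => fs (sn u)) := FP.snI.fst
  have ha : FP (fun u => sn (sn u)) := FP.snI.snd
  have hq := FP.qLI hQ σ.length hw ha
  have hb := ha.app (FP.const σ)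
  exact FP.ite (((FPb.isCodeI.comp FP.fsI).and (FPb.eq (FP.unL ha) (FP.unL (hC.comp hw)))).and
    ((FPb.eq (hO.comp (hw.pair ha)) (he.comp FP.fsI)).and
      (FPb.conI (FP.posI hq hb) hq hb))) FP.fsI (FP.const _)

theorem Fpl_mem (he : ∀ φ : Form, e φ.code = (emb φ).code) (R : List Bool → Bool) (n0 : ℕ)
    (hσ : σ = tab R n0)
    (hs : ∀ R' : List Bool → Bool, tab R' n0 = tab R n0 → ∀ v, ora Q C O R' v ∈ OTAUT R')
    (u : List Bool) : Fpl Q C O e σ u ∈ TAUT := by
  unfold Fpl
  split_ifs with h
  · rw [Bool.and_eq_true, Bool.and_eq_true, Bool.and_eq_true, isCode_iff, decide_eq_true_eq,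
      decide_eq_true_eq, un_eq_iff, conS_iff] at h
    obtain ⟨⟨h1, h2⟩, h3, h4⟩ := h
    obtain ⟨h5, h6⟩ := con_spec Q _ _ _ σ h4
    generalize pos (qL Q σ.length (fs (sn u)) (sn (sn u))) (sn (sn u) ++ σ) = s at h4 h5 h6
    have hl : σ.length = n0 := by rw [hσ, omb_tab_length]
    have h6' : tab (fun x => memS x s) n0 = tab R n0 := by
      rw [← hl, h6, hl]; exact hσ
    have h7 := hs _ h6' (fs (sn u))
    unfold ora at h7
    rw [← h2, h5, h3, ← h1, he] at h7
    obtain ⟨φ, h8, h9⟩ := h7
    have h10 := OForm.code_injective h8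
    subst h10
    rw [← h1, code_mem_TAUT_iff]
    intro v
    rw [← emb_eval _ v]
    exact h9 v
  · exact cT_mem

theorem Fpl_eq (R : List Bool → Bool) (n0 : ℕ) (hσ : σ = tab R n0) (c w : List Bool)
    (h1 : isCode c = true) (h2 : ora Q C O R w = e c) :
    Fpl Q C O e σ (pr c (pr w (answers Q R w (C w).length))) = c := by
  unfold Fpl
  simp only [fs_pr, sn_pr]
  rw [if_pos]
  rw [Bool.and_eq_true, Bool.and_eq_true, Bool.and_eq_true, decide_eq_true_eq,
    decide_eq_true_eq, un_eq_iff, conS_iff, answers_length]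
  refine ⟨⟨h1, rfl⟩, h2, ?_⟩
  have hl : σ.length = n0 := by rw [hσ, omb_tab_length]
  rw [hl, hσ]
  exact pos_con _ _ R (fun i hi => con_true Q R w _ n0 i hi)

end

theorem PolyTimeRel.of_fp {g : List Bool → List Bool} (hg : FP g) (R : List Bool → Bool) :
    PolyTimeRel R g :=
  ⟨fun _ => [], fun _ => [], fun z => g (fs z), FP.nil.polyTime, FP.nil.polyTime,
    (hg.comp FP.fsI).polyTime, fun w => by
      show g w = g (fs (pr w _))
      rw [fs_pr]⟩

theorem dir2 {R : List Bool → Bool} (hR : Gen R) {f : List Bool → List Bool}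
    (hf : OptimalRel R f) : ∃ F, Optimal F := by
  obtain ⟨e, he, he'⟩ := exists_embCode
  obtain ⟨⟨hfp, hfr⟩, hopt⟩ := hf
  have hfp' := hfp
  obtain ⟨Q, C, O, hQ, hC, hO, hff⟩ := hfp
  have hsound : ∀ v, ora Q C O R v ∈ OTAUT R := fun v => by
    rw [← hfr]; exact ⟨v, hff v⟩
  obtain ⟨n0, hn0⟩ := hR Q C O hQ hC hO hsound
  have hmem : ∀ u, Fpl Q C O e (tab R n0) u ∈ TAUT :=
    Fpl_mem Q C O e (tab R n0) he' R n0 rfl hn0
  have hFP : FP (Fpl Q C O e (tab R n0)) := FP.FplI _ hQ.fp hC.fp hO.fp he
  have key : ∀ g, ProofSystem g → Simulates (Fpl Q C O e (tab R n0)) g := by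
    rintro g ⟨hg, hgr⟩
    have hgm : ∀ w, g w ∈ TAUT := fun w => by rw [← hgr]; exact ⟨w, rfl⟩
    have hps : ProofSystemRel R
        (fun w => if w.head?.getD false then e (g w.tail) else f w.tail) := by
      refine ⟨hfp'.sum (PolyTimeRel.of_fp (he.comp hg.fp) R), ?_⟩
      apply Set.Subset.antisymm
      · rintro _ ⟨w, rfl⟩
        show (if w.head?.getD false then e (g w.tail) else f w.tail) ∈ OTAUT R
        split_ifs
        · obtain ⟨φ, h1, h2⟩ := hgm w.tail
          rw [← h1, he']
          exact ⟨_, rfl, fun v => by rw [emb_eval]; exact h2 v⟩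
        · rw [← hfr]; exact ⟨_, rfl⟩
      · intro x hx
        rw [← hfr] at hx
        obtain ⟨w, rfl⟩ := hx
        exact ⟨false :: w, rfl⟩
    obtain ⟨h, p, hp⟩ := hopt _ hps
    obtain ⟨PC, hPC⟩ := hC.fp.length
    obtain ⟨PG, hPG⟩ := hg.fp.length
    refine ⟨fun w => pr (g w) (pr (h (true :: w))
        (answers Q R (h (true :: w)) (C (h (true :: w))).length)),
      2 * PG + 1 + (2 * p.comp (X + 1) + 1 + PC.comp (p.comp (X + 1))), fun w => ⟨?_, ?_⟩⟩
    · refine Fpl_eq Q C O e (tab R n0) R n0 rfl (g w) (h (true :: w)) ?_ ?_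
      · rw [isCode_iff]
        obtain ⟨φ, h1, _⟩ := hgm w
        rw [← h1, parse_code]
      · have := (hp (true :: w)).1
        rw [hff] at this
        exact this
    · rw [pr_length, pr_length, answers_length]
      have h1 := hPG w
      have h2 := (hp (true :: w)).2
      rw [List.length_cons] at h2
      have h3 := (hPC (h (true :: w))).trans (pmono PC h2)
      simp only [eval_add, eval_mul, eval_ofNat, eval_one, eval_X, eval_comp]
      omega
  refine ⟨Fpl Q C O e (tab R n0), ⟨hFP.polyTime, ?_⟩, key⟩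
  apply Set.Subset.antisymm
  · rintro _ ⟨u, rfl⟩; exact hmem u
  · intro x hx
    rw [← exists_ps.2] at hx
    obtain ⟨w, rfl⟩ := hx
    obtain ⟨h, p, hp⟩ := key _ exists_ps
    exact ⟨h w, (hp w).1⟩

/-- for generic oracles the relativized question is the original one -/
theorem generic_iff : ∀ᶠ R in residual (List Bool → Bool),
    ((∃ f, OptimalRel R f) ↔ ∃ f, Optimal f) := by
  filter_upwards [generic_sound] with R hR
  exact ⟨fun ⟨f, hf⟩ => dir2 hR hf, fun ⟨f, hf⟩ => dir1 hf R hR⟩

end Pool.Agent.Work.MP_0532f7_lc
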