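import Mathlib
import Pool.Agent.Work.MP_0532f7_lc.OracleDefs

/-!
Polynomially bounded proof systems relative to an oracle.
-/

namespace Pool.Agent.Work.MP_0532f7_lc

/-- `f` is a polynomially bounded proof system relative to the oracle `R`. -/
def BoundedRel (R : List Bool → Bool) (f : List Bool → List Bool) : Prop :=
  ProofSystemRel R f ∧ ∃ p : Polynomial ℕ, ∀ x ∈ OTAUT R, ∃ w : List Bool,
    w.length ≤ p.eval x.length ∧ f w = x

end Pool.Agent.Work.MP_0532f7_lc
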