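import Mathlib
import Pool.Agent.Work.MP_0532f7_lc.GMain3
import Pool.Agent.Work.MP_0532f7_lc.GenDefs

/-!
Relative to a generic oracle no proof system is polynomially bounded.
-/

namespace Pool.Agent.Work.MP_0532f7_lc

open Polynomial

theorem generic_full (N : ℕ) : ∀ᶠ R in residual (List Bool → Bool),
    ∃ n, N ≤ n ∧ ∀ x : List Bool, x.length = n → R (true :: x) = true := by
  have hopen : IsOpen {R : List Bool → Bool |
      ∃ n, N ≤ n ∧ ∀ x : List Bool, x.length = n → R (true :: x) = true} := by
    have e : {R : List Bool → Bool |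
        ∃ n, N ≤ n ∧ ∀ x : List Bool, x.length = n → R (true :: x) = true} =
        ⋃ n ∈ {n | N ≤ n}, ⋂ x ∈ (ombWords n : Set (List Bool)),
          (fun R : List Bool → Bool => R (true :: x)) ⁻¹' {true} := by
      ext R
      simp [omb_mem_words]
    rw [e]
    refine isOpen_biUnion (fun n _ => ?_)
    refine (Finset.finite_toSet _).isOpen_biInter (fun x _ => ?_)
    exact (isOpen_discrete _).preimage (continuous_apply _)
  refine residual_of_dense_open hopen ?_
  rw [dense_iff_inter_open]
  rintro V hV ⟨R0, hR0⟩
  obtain ⟨I, u, hu1, hu2⟩ := isOpen_pi_iff.mp hV R0 hR0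
  refine ⟨fun y => if y ∈ I then R0 y else true, hu2 (fun y hy => ?_),
    max N (I.sup List.length), le_max_left _ _, fun x hx => ?_⟩
  · have hy' : y ∈ I := hy
    show (if y ∈ I then R0 y else true) ∈ u y
    rw [if_pos hy']
    exact (hu1 y hy').2
  · show (if true :: x ∈ I then R0 (true :: x) else true) = true
    rw [if_neg]
    intro h
    have h1 := Finset.le_sup (f := List.length) h
    rw [List.length_cons] at h1
    have := le_max_right N (I.sup List.length)
    omega

theorem tab_update (R : List Bool → Bool) (y : List Bool) (b : Bool) (n : ℕ)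
    (h : n < y.length) : tab (Function.update R y b) n = tab R n := by
  unfold tab
  apply List.map_congr_left
  intro k hk
  rw [Function.update_of_ne]
  intro h1
  have h2 := num_length k
  rw [h1] at h2
  rw [List.mem_range] at hk
  omega

theorem not_bounded {R : List Bool → Bool} (hR : Gen R)
    (hfull : ∀ N, ∃ n, N ≤ n ∧ ∀ x : List Bool, x.length = n → R (true :: x) = true)
    (f : List Bool → List Bool) : ¬ BoundedRel R f := by
  rintro ⟨⟨⟨Q, C, O, hQ, hC, hO, hf⟩, hr⟩, p, hp⟩
  have hsound : ∀ v, ora Q C O R v ∈ OTAUT R := fun v => by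
    rw [← hr]; exact ⟨v, hf v⟩
  obtain ⟨n0, hn0⟩ := hR Q C O hQ hC hO hsound
  obtain ⟨PC, hPC⟩ := hC.fp.length
  obtain ⟨PT, hPT⟩ := (FP.tauI FP.id (FP.const [true])).length
  obtain ⟨m0, hm0⟩ := poly_pow_le' (PC.comp (p.comp PT) + 1)
  obtain ⟨n, hn, hfull'⟩ := hfull (max m0 n0)
  have h1 : (tauF n 1).code ∈ OTAUT R := by
    refine ⟨_, rfl, ?_⟩
    rw [tauF_iff]
    intro x hx
    exact ⟨0, by omega, by simpa using hfull' x hx⟩
  obtain ⟨v, hv1, hv2⟩ := hp _ h1
  have h2 : (tauF n 1).code.length ≤ PT.eval n := by
    have := hPT (un n)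
    rwa [un_length] at this
  have h3 : (C v).length < 2 ^ n := by
    have a1 := (hPC v).trans (pmono PC (hv1.trans (pmono p h2)))
    have a2 := hm0 n ((le_max_left _ _).trans hn)
    simp only [eval_add, eval_comp, eval_one] at a2
    omega
  -- a word that is not asked
  obtain ⟨x, hx, hx'⟩ : ∃ x ∈ ombWords n, x ∉ (Finset.range (C v).length).image
      (fun k => (Q (pr v (answers Q R v k))).tail) := by
    by_contra hcon
    push Not at hcon
    have a1 : (ombWords n).card ≤ ((Finset.range (C v).length).image
      (fun k => (Q (pr v (answers Q R v k))).tail)).card := Finset.card_le_card hcon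
    have a2 := Finset.card_image_le (s := Finset.range (C v).length)
      (f := fun k => (Q (pr v (answers Q R v k))).tail)
    rw [Finset.card_range] at a2
    rw [card_ombWords] at a1
    omega
  have hxl := omb_mem_words.mp hx
  have h4 : tab (Function.update R (true :: x) false) n0 = tab R n0 :=
    tab_update R _ _ _ (by
      rw [List.length_cons, hxl]
      have := (le_max_right m0 n0).trans hn
      omega)
  have h5 := hn0 _ h4 v
  have h6 : ora Q C O (Function.update R (true :: x) false) v = (tauF n 1).code := by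
    rw [← hv2, hf v]
    unfold ora
    rw [answers_congr Q R (Function.update R (true :: x) false) v (C v).length
      (fun k hk => ?_)]
    rw [Function.update_of_ne]
    intro h7
    apply hx'
    rw [Finset.mem_image]
    exact ⟨k, Finset.mem_range.mpr hk, by rw [h7, List.tail_cons]⟩
  rw [h6] at h5
  obtain ⟨φ, h7, h8⟩ := h5
  have h9 := OForm.code_injective h7
  subst h9
  rw [tauF_iff] at h8
  obtain ⟨j, hj, h10⟩ := h8 x hxl
  obtain rfl : j = 0 := by omega
  simp at h10

theorem generic_main : ∀ᶠ R in residual (List Bool → Bool),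
    (¬ ∃ f, BoundedRel R f) ∧ ((∃ f, OptimalRel R f) ↔ ∃ f, Optimal f) := by
  filter_upwards [generic_sound, eventually_countable_forall.mpr generic_full] with R hR hfull
  exact ⟨fun ⟨f, hf⟩ => not_bounded hR hfull f hf,
    fun ⟨f, hf⟩ => dir2 hR hf, fun ⟨f, hf⟩ => dir1 hf R hR⟩

end Pool.Agent.Work.MP_0532f7_lc
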