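import Mathlib
import Pool.Agent.Work.MP_0532f7_lc.OracleDefs

/-!
Proof systems for sets of tally words with few lengths.
-/

namespace Pool.Agent.Work.MP_0532f7_lc

/-- The tally words `1 ^ s` with `s` in `S`. -/
def tal (S : Set ℕ) : Set (List Bool) := {w | ∃ s ∈ S, w = List.replicate s true}

/-- The set of tally words with length in `S` is decidable in polynomial time. -/
def TallyP (S : Set ℕ) : Prop :=
  ∃ d : List Bool → List Bool, PolyTime d ∧ ∀ n, d (List.replicate n true) = [true] ↔ n ∈ S

/-- For some `c` every interval `[n, n ^ c + c]` meets `S`. -/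
def PolyDense (S : Set ℕ) : Prop := ∃ c : ℕ, ∀ n : ℕ, ∃ s ∈ S, n ≤ s ∧ s ≤ n ^ c + c

/-- `L` is in coNP. -/
def CoNP (L : Set (List Bool)) : Prop :=
  ∃ V : List Bool → List Bool, PolyTime V ∧ ∃ p : Polynomial ℕ, ∀ z, z ∈ L ↔
    ∀ y : List Bool, y.length ≤ p.eval z.length → V (pr z y) = [true]

/-- `L` is in coNP relative to the oracle `X`. -/
def CoNPRel (X : List Bool → Bool) (L : Set (List Bool)) : Prop :=
  ∃ V : List Bool → List Bool, PolyTimeRel X V ∧ ∃ p : Polynomial ℕ, ∀ z, z ∈ L ↔
    ∀ y : List Bool, y.length ≤ p.eval z.length → V (pr z y) = [true]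

/-- `L` is in P relative to the oracle `X`. -/
def PRel (X : List Bool → Bool) (L : Set (List Bool)) : Prop :=
  ∃ D : List Bool → List Bool, PolyTimeRel X D ∧ ∀ z, D z = [true] ↔ z ∈ L

/-- `f` is an optimal proof system for the set `L`. -/
def OptimalFor (L : Set (List Bool)) (f : List Bool → List Bool) : Prop :=
  (PolyTime f ∧ Set.range f = L) ∧ ∀ g, PolyTime g → Set.range g = L → Simulates f g

/-- `f` is an optimal proof system for the set `L` relative to the oracle `X`. -/
def OptimalForRel (X : List Bool → Bool) (L : Set (List Bool)) (f : List Bool → List Bool) :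
    Prop :=
  (PolyTimeRel X f ∧ Set.range f = L) ∧
    ∀ g, PolyTimeRel X g → Set.range g = L → Simulates f g

end Pool.Agent.Work.MP_0532f7_lc
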