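import Mathlib
import Pool.Agent.Work.MP_0532f7_lc.OracleDefs

/-!
Tally oracles and p-optimal proof systems.
-/

namespace Pool.Agent.Work.MP_0532f7_lc

/-- The tally oracle of a set `T` of numbers: its members are the words `1 ^ n` with `n` in `T`. -/
def tally (T : ℕ → Bool) (w : List Bool) : Bool :=
  decide (w = List.replicate w.length true) && T w.length

/-- `f` is a p-optimal proof system relative to the oracle `R`: it is a proof system, and every
proof system `g` relative to `R` is simulated by a translation `h` of proofs computable in
polynomial time (even without oracle). -/
def POptimalRel (R : List Bool → Bool) (f : List Bool → List Bool) : Prop :=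
  ProofSystemRel R f ∧ ∀ g, ProofSystemRel R g → ∃ h, PolyTime h ∧ ∀ w, f (h w) = g w

end Pool.Agent.Work.MP_0532f7_lc
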