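import Mathlib
import Pool.Agent.Work.MP_0532f7_lc.GMain

/-!
The clocked universal oracle computation.
-/

namespace Pool.Agent.Work.MP_0532f7_lc

open Polynomial

/-! The context is `u = pr c (pr x t)` with the code `c = pr cQ (pr cC cO)`, the input `x` and the
time bound `t`. -/

/-- the next query after the answers `a` -/
def rQ (u a : List Bool) : List Bool := (uni (fs (fs u)) (pr (fs (sn u)) a) (sn (sn u))).tail

/-- the number of queries (with a leading bit) -/
def rC (u : List Bool) : List Bool := uni (fs (sn (fs u))) (fs (sn u)) (sn (sn u))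

/-- the output (with a leading bit) -/
def rO (u a : List Bool) : List Bool := uni (sn (sn (fs u))) (pr (fs (sn u)) a) (sn (sn u))

/-- no halt at the computation of a query; context `pr (pr u a) (un i)` -/
def rVio (z : List Bool) : Bool :=
  (uni (fs (fs (fs (fs z)))) (pr (fs (sn (fs (fs z)))) ((sn (fs z)).take (sn z).length))
    (sn (sn (fs (fs z))))).isEmpty

/-- all computations of queries halt -/
def rOk (u a : List Bool) : Bool := decide (un (lst rVio (pr u a) a.length) = un a.length)

/-- result of the computation with the answers `a` -/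
def rOut (u a : List Bool) : List Bool :=
  if ((rC u).isEmpty || (rO u a).isEmpty) || !rOk u a then oTop.code else (rO u a).tail

/-- the answers in the universal computation -/
def rAns (X : List Bool → Bool) (u : List Bool) : List Bool :=
  answers (fun z => rQ u (sn z)) X [] (rC u).tail.length

/-- the universal computation -/
def run (X : List Bool → Bool) (u : List Bool) : List Bool := rOut u (rAns X u)

theorem FP.rQI {f g : List Bool → List Bool} (hf : FP f) (hg : FP g) :
    FP (fun x => rQ (f x) (g x)) :=
  FP.tail.comp (FP.uniI hf.fst.fst (hf.snd.fst.pair hg) hf.snd.snd)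

theorem FP.rCI {f : List Bool → List Bool} (hf : FP f) : FP (fun x => rC (f x)) :=
  FP.uniI hf.fst.snd.fst hf.snd.fst hf.snd.snd

theorem FP.rOI {f g : List Bool → List Bool} (hf : FP f) (hg : FP g) :
    FP (fun x => rO (f x) (g x)) :=
  FP.uniI hf.fst.snd.snd (hf.snd.fst.pair hg) hf.snd.snd

theorem FPb.rVioI : FPb rVio := by
  have hu : FP (fun z => fs (fs z)) := FP.fsI.fst
  exact FPb.isNil.comp (FP.uniI hu.fst.fst (hu.snd.fst.pair (FP.take FP.snI FP.fsI.snd))
    hu.snd.snd)

theorem FPb.rOkI {f g : List Bool → List Bool} (hf : FP f) (hg : FP g) :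
    FPb (fun x => rOk (f x) (g x)) :=
  FPb.eq (FP.lstI FPb.rVioI (hf.pair hg) hg) (FP.unL hg)

theorem FP.rOutI {f g : List Bool → List Bool} (hf : FP f) (hg : FP g) :
    FP (fun x => rOut (f x) (g x)) :=
  FP.ite (((FPb.isNil.comp (FP.rCI hf)).or (FPb.isNil.comp (FP.rOI hf hg))).or
    (FPb.rOkI hf hg).not) (FP.const _) (FP.tail.comp (FP.rOI hf hg))

theorem rOk_iff (u a : List Bool) : rOk u a = true ↔ ∀ i, i < a.length →
    uni (fs (fs u)) (pr (fs (sn u)) (a.take i)) (sn (sn u)) ≠ [] := by
  unfold rOk
  rw [decide_eq_true_eq, un_eq_iff]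
  obtain ⟨h1, h2, h3⟩ := lst_spec rVio (pr u a) a.length
  have key : ∀ i, rVio (pr (pr u a) (un i)) = true ↔
      uni (fs (fs u)) (pr (fs (sn u)) (a.take i)) (sn (sn u)) = [] := by
    intro i
    unfold rVio
    simp only [fs_pr, sn_pr, un_length, List.isEmpty_iff]
  constructor
  · intro h i hi h4
    have h5 := h2 i (by omega)
    rw [(key i).mpr h4] at h5
    exact absurd h5 (by simp)
  · intro h
    by_contra h4
    have h5 := h3 (by omega)
    rw [key] at h5
    exact h _ (by omega) h5

/-- the universal computation with the code of `g` -/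
theorem run_spec {Y : List Bool → Bool} {g : List Bool → List Bool} (hg : PolyTimeRel Y g)
    (hs : ∀ w, g w ∈ OTAUT Y) : ∃ (c : List Bool) (P : Polynomial ℕ), ∀ x t,
      (P.eval x.length ≤ t.length → run Y (pr c (pr x t)) = g x) ∧
      run Y (pr c (pr x t)) ∈ OTAUT Y := by
  obtain ⟨Q, C, O, hQ, hC, hO, h⟩ := hg
  obtain ⟨cQ, PQ, hcQ⟩ := uni_spec hQ
  obtain ⟨cC, PC, hcC⟩ := uni_spec hC
  obtain ⟨cO, PO, hcO⟩ := uni_spec hO
  obtain ⟨BC, hBC⟩ := hC.fp.length
  have key : ∀ x t, rOk (pr (pr cQ (pr cC cO)) (pr x t)) (rAns Y (pr (pr cQ (pr cC cO)) (pr x t)))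
      = true → rC (pr (pr cQ (pr cC cO)) (pr x t)) = true :: C x →
      rAns Y (pr (pr cQ (pr cC cO)) (pr x t)) = answers Q Y x (C x).length := by
    intro x t h1 h2
    rw [rOk_iff] at h1
    have hk : (rC (pr (pr cQ (pr cC cO)) (pr x t))).tail.length = (C x).length := by
      rw [h2]; rfl
    unfold rAns at h1 ⊢
    rw [hk, answers_length] at h1
    rw [hk]
    have : ∀ i, i ≤ (C x).length → answers (fun z => rQ (pr (pr cQ (pr cC cO)) (pr x t)) (sn z)) Y
        [] i = answers Q Y x i := by
      intro i
      induction i with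
      | zero => intro _; rfl
      | succ i ih =>
        intro hi
        have h3 := h1 i (by omega)
        rw [answers_take _ _ _ _ _ (by omega), ih (by omega)] at h3
        simp only [fs_pr, sn_pr] at h3
        have h4 : uni cQ (pr x (answers Q Y x i)) t = true :: Q (pr x (answers Q Y x i)) := by
          rcases (hcQ (pr x (answers Q Y x i)) t).2 with h5 | h5
          · exact absurd h5 h3
          · exact h5
        show answers _ Y [] i ++ [Y (rQ _ (sn (pr [] (answers _ Y [] i))))] = answers Q Y x i ++ _
        rw [ih (by omega), sn_pr]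
        unfold rQ
        simp only [fs_pr, sn_pr]
        rw [h4]
        rfl
    exact this _ le_rfl
  refine ⟨pr cQ (pr cC cO), PC + PO.comp (2 * X + 1 + BC) + PQ.comp (2 * X + 1 + BC), fun x t =>
    ⟨fun ht => ?_, ?_⟩⟩
  · simp only [eval_add, eval_mul, eval_ofNat, eval_one, eval_X, eval_comp] at ht
    have h2 : rC (pr (pr cQ (pr cC cO)) (pr x t)) = true :: C x := by
      unfold rC
      simp only [fs_pr, sn_pr]
      exact (hcC x t).1 (by omega)
    have hlen : (rAns Y (pr (pr cQ (pr cC cO)) (pr x t))).length = (C x).length := by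
      unfold rAns; rw [answers_length, h2]; rfl
    have h1 : rOk (pr (pr cQ (pr cC cO)) (pr x t)) (rAns Y (pr (pr cQ (pr cC cO)) (pr x t)))
        = true := by
      rw [rOk_iff]
      intro i hi
      simp only [fs_pr, sn_pr]
      rw [(hcQ _ t).1]
      · simp
      · refine le_trans (pmono PQ (b := 2 * x.length + 1 + BC.eval x.length) ?_) (by omega)
        rw [pr_length, List.length_take]
        have := hBC x
        omega
    have h3 := key x t h1 h2
    rw [h3] at h1
    unfold run rOut
    rw [h3, h1, h2]
    have h4 : rO (pr (pr cQ (pr cC cO)) (pr x t)) (answers Q Y x (C x).length) =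
        true :: O (pr x (answers Q Y x (C x).length)) := by
      unfold rO
      simp only [fs_pr, sn_pr]
      refine (hcO _ t).1 ?_
      refine le_trans (pmono PO (b := 2 * x.length + 1 + BC.eval x.length) ?_) (by omega)
      rw [pr_length, answers_length]
      have := hBC x
      omega
    rw [h4, h]
    simp
  · unfold run rOut
    split_ifs with h5
    · exact oTop_mem Y
    · simp only [Bool.or_eq_true, List.isEmpty_iff, Bool.not_eq_true', not_or, Bool.not_eq_false]
        at h5
      obtain ⟨⟨h6, h7⟩, h8⟩ := h5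
      have h2 : rC (pr (pr cQ (pr cC cO)) (pr x t)) = true :: C x := by
        unfold rC at h6 ⊢
        simp only [fs_pr, sn_pr] at h6 ⊢
        rcases (hcC x t).2 with h9 | h9
        · exact absurd h9 h6
        · exact h9
      have h3 := key x t h8 h2
      rw [h3] at h7 ⊢
      have h4 : rO (pr (pr cQ (pr cC cO)) (pr x t)) (answers Q Y x (C x).length) =
          true :: O (pr x (answers Q Y x (C x).length)) := by
        unfold rO at h7 ⊢
        simp only [fs_pr, sn_pr] at h7 ⊢
        rcases (hcO (pr x (answers Q Y x (C x).length)) t).2 with h9 | h9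
        · exact absurd h9 h7
        · exact h9
      rw [h4, List.tail_cons, ← h]
      exact hs x

/-- the computation and the membership of its result depend on short words of the oracle only -/
theorem run_local : ∃ P : Polynomial ℕ, ∀ (Y Y' : List Bool → Bool) (u : List Bool) (N : ℕ),
    u.length ≤ N → (∀ y : List Bool, y.length ≤ P.eval N → Y y = Y' y) →
      run Y' u = run Y u ∧ (run Y' u ∈ OTAUT Y' → run Y u ∈ OTAUT Y) := by
  obtain ⟨PQ, hPQ⟩ := (FP.rQI FP.fsI FP.snI).length
  obtain ⟨PC, hPC⟩ := (FP.tail.comp (FP.rCI FP.id)).length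
  obtain ⟨PO, hPO⟩ := (FP.rOutI FP.fsI FP.snI).length
  refine ⟨PQ.comp (2 * X + 1 + PC) + PO.comp (2 * X + 1 + PC), fun Y Y' u N hN h => ?_⟩
  simp only [eval_add, eval_mul, eval_ofNat, eval_one, eval_X, eval_comp] at h
  have hC : (rC u).tail.length ≤ PC.eval N := (hPC u).trans (pmono PC hN)
  have h1 : rAns Y' u = rAns Y u := by
    unfold rAns
    apply answers_congr
    intro k hk
    apply h
    have h2 := hPQ (pr u (sn (pr [] (answers (fun z => rQ u (sn z)) Y [] k))))
    rw [fs_pr, sn_pr, sn_pr] at h2
    rw [sn_pr]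
    refine h2.trans ((pmono PQ (b := 2 * N + 1 + PC.eval N) ?_).trans (by omega))
    rw [pr_length, answers_length]
    omega
  have h2 : run Y' u = run Y u := by unfold run; rw [h1]
  refine ⟨h2, fun h3 => ?_⟩
  rw [h2] at h3
  obtain ⟨φ, h4, h5⟩ := h3
  refine ⟨φ, h4, fun v => ?_⟩
  rw [← h5 v]
  apply eval_len
  intro y hy
  apply h
  refine hy.trans ?_
  rw [h4]
  have h6 := hPO (pr u (rAns Y u))
  rw [fs_pr, sn_pr] at h6
  refine h6.trans ((pmono PO (b := 2 * N + 1 + PC.eval N) ?_).trans (by omega))
  rw [pr_length]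
  unfold rAns
  rw [answers_length]
  omega

end Pool.Agent.Work.MP_0532f7_lc
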