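import Mathlib
import Pool.Agent.Work.MP_0532f7_lc.SpRun
import Pool.Agent.Work.MP_0532f7_lc.SpDefs

/-!
The construction of a sparse tally set with marks for the sound programs.
-/

namespace Pool.Agent.Work.MP_0532f7_lc

open Polynomial

/-- the number of marks in the row `v` before the column `s` -/
def mks (v s : ℕ) (τ : ℕ → Bool) : ℕ :=
  ((Finset.range s).filter (fun s' => τ (Nat.pair v s') = true)).card

theorem mks_succ (v s : ℕ) (τ : ℕ → Bool) :
    mks v (s + 1) τ = mks v s τ + if τ (Nat.pair v s) = true then 1 else 0 := by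
  unfold mks
  rw [Finset.range_add_one, Finset.filter_insert]
  split_ifs with h
  · rw [Finset.card_insert_of_notMem (by simp)]
  · rfl

theorem mks_congr {v s : ℕ} {τ τ' : ℕ → Bool} (h : ∀ j < Nat.pair v s, τ j = τ' j) :
    mks v s τ = mks v s τ' := by
  unfold mks
  congr 1
  apply Finset.filter_congr
  intro s' hs'
  rw [h _ (Nat.pair_lt_pair_right v (Finset.mem_range.mp hs'))]

theorem mks_zero {v s : ℕ} {τ : ℕ → Bool} (h : ∀ s' < s, τ (Nat.pair v s') = false) :
    mks v s τ = 0 := by
  unfold mks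
  rw [Finset.card_eq_zero, Finset.filter_eq_empty_iff]
  intro s' hs'
  rw [h s' (Finset.mem_range.mp hs')]
  simp

theorem mks_pos {v s s' : ℕ} {τ : ℕ → Bool} (h : τ (Nat.pair v s') = true) (hs : s' < s) :
    0 < mks v s τ :=
  Finset.card_pos.mpr ⟨s', by simp [hs, h]⟩

section

variable (Z : (ℕ → Bool) → List Bool → Bool) (P : Polynomial ℕ) (b : ℕ → ℕ)

/-- some short computation of the program number `v` has a wrong result -/
def Uns (v s : ℕ) (τ : ℕ → Bool) : Prop :=
  ∃ x t : List Bool, P.eval (2 * v + 2 * x.length + t.length + 2) < s ∧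
    run (Z τ) (pr (num v) (pr x t)) ∉ OTAUT (Z τ)

open Classical in
/-- the decision at the position `i` -/
noncomputable def rule (i : ℕ) (τ : ℕ → Bool) : Bool :=
  decide ((mks (Nat.unpair i).1 (Nat.unpair i).2 τ = 0 ∧ b (Nat.unpair i).1 ≤ i) ∨
    (mks (Nat.unpair i).1 (Nat.unpair i).2 τ = 1 ∧ Uns Z P (Nat.unpair i).1 (Nat.unpair i).2 τ))

theorem rule_iff (i : ℕ) (τ : ℕ → Bool) : rule Z P b i τ = true ↔
    (mks (Nat.unpair i).1 (Nat.unpair i).2 τ = 0 ∧ b (Nat.unpair i).1 ≤ i) ∨
    (mks (Nat.unpair i).1 (Nat.unpair i).2 τ = 1 ∧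
      Uns Z P (Nat.unpair i).1 (Nat.unpair i).2 τ) := by
  classical
  unfold rule
  exact decide_eq_true_iff

/-- finite approximations -/
noncomputable def tset : ℕ → ℕ → Bool
  | 0 => fun _ => false
  | k + 1 => fun i => if i = k then rule Z P b k (tset k) else tset k i

/-- the set -/
noncomputable def tlim (i : ℕ) : Bool := tset Z P b (i + 1) i

theorem tset_eq (k j : ℕ) (h : j < k) : tset Z P b k j = tlim Z P b j := by
  induction k with
  | zero => omega
  | succ k ih =>
    rcases Nat.lt_succ_iff_lt_or_eq.mp h with h1 | h1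
    · show (if j = k then _ else tset Z P b k j) = _
      rw [if_neg (by omega), ih h1]
    · subst h1; rfl

/-- the oracle at the word `y` depends on the bits up to `|y|` of the set -/
def Loc : Prop := ∀ (τ τ' : ℕ → Bool) (y : List Bool), (∀ j ≤ y.length, τ j = τ' j) →
  Z τ y = Z τ' y

variable {Z P}

theorem uns_congr (hZ : Loc Z) (hP : ∀ (Y Y' : List Bool → Bool) (u : List Bool) (N : ℕ),
    u.length ≤ N → (∀ y : List Bool, y.length ≤ P.eval N → Y y = Y' y) →
      run Y' u = run Y u ∧ (run Y' u ∈ OTAUT Y' → run Y u ∈ OTAUT Y)) {v s : ℕ}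
    {τ τ' : ℕ → Bool} (h : ∀ j < s, τ j = τ' j) (hu : Uns Z P v s τ) : Uns Z P v s τ' := by
  obtain ⟨x, t, h1, h2⟩ := hu
  refine ⟨x, t, h1, fun h3 => h2 ?_⟩
  refine (hP (Z τ) (Z τ') _ (2 * v + 2 * x.length + t.length + 2) ?_ (fun y hy => ?_)).2 h3
  · rw [pr_length, pr_length]
    have := num_length v
    omega
  · exact hZ _ _ _ fun j hj => h j (by omega)

variable (hZ : Loc Z) (hP : ∀ (Y Y' : List Bool → Bool) (u : List Bool) (N : ℕ),
    u.length ≤ N → (∀ y : List Bool, y.length ≤ P.eval N → Y y = Y' y) →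
      run Y' u = run Y u ∧ (run Y' u ∈ OTAUT Y' → run Y u ∈ OTAUT Y))

include hZ hP

theorem tlim_iff (v s : ℕ) : tlim Z P b (Nat.pair v s) = true ↔
    (mks v s (tlim Z P b) = 0 ∧ b v ≤ Nat.pair v s) ∨
      (mks v s (tlim Z P b) = 1 ∧ Uns Z P v s (tlim Z P b)) := by
  have h1 : tlim Z P b (Nat.pair v s) = rule Z P b (Nat.pair v s) (tset Z P b (Nat.pair v s)) := by
    show (if Nat.pair v s = Nat.pair v s then _ else _) = _
    rw [if_pos rfl]
  rw [h1, rule_iff, Nat.unpair_pair]
  simp only
  have h2 : ∀ j < Nat.pair v s, tset Z P b (Nat.pair v s) j = tlim Z P b j :=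
    fun j hj => tset_eq Z P b _ j hj
  have h3 := Nat.right_le_pair v s
  rw [mks_congr h2]
  have h4 : Uns Z P v s (tset Z P b (Nat.pair v s)) ↔ Uns Z P v s (tlim Z P b) :=
    ⟨uns_congr hZ hP fun j hj => h2 j (by omega),
      uns_congr hZ hP fun j hj => (h2 j (by omega)).symm⟩
  rw [h4]

theorem tlim_le (v s : ℕ) (h : tlim Z P b (Nat.pair v s) = true) : b v ≤ Nat.pair v s := by
  induction s using Nat.strong_induction_on with
  | _ s ih =>
    rcases (tlim_iff b hZ hP v s).mp h with h1 | h1
    · exact h1.2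
    · by_contra h2
      have h3 : mks v s (tlim Z P b) = 0 := by
        apply mks_zero
        intro s' hs'
        by_contra h4
        rw [Bool.not_eq_false] at h4
        have := ih s' hs' h4
        have := Nat.pair_lt_pair_right v hs'
        omega
      omega

theorem mks_le_two (v s : ℕ) : mks v s (tlim Z P b) ≤ 2 := by
  induction s with
  | zero => simp [mks]
  | succ s ih =>
    rw [mks_succ]
    split_ifs with h
    · rcases (tlim_iff b hZ hP v s).mp h with h1 | h1 <;> omega
    · omega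

theorem tlim_sparse (α : ℕ → ℕ) (hb : ∀ v n, b v ≤ n → 2 * (v + 1) ≤ α n) (n : ℕ) :
    {i | i ≤ n ∧ tlim Z P b i = true}.ncard ≤ α n := by
  have h1 : {i | i ≤ n ∧ tlim Z P b i = true} ⊆ (((Finset.range (α n / 2)).biUnion (fun v =>
      ((Finset.range (n + 1)).filter (fun s => tlim Z P b (Nat.pair v s) = true)).image
        (Nat.pair v)) : Finset ℕ) : Set ℕ) := by
    rintro i ⟨h2, h3⟩
    have h4 : Nat.pair (Nat.unpair i).1 (Nat.unpair i).2 = i := Nat.pair_unpair i
    rw [← h4] at h3
    have h5 := tlim_le b hZ hP _ _ h3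
    rw [h4] at h5
    have h6 := hb _ n (h5.trans h2)
    have h7 := Nat.right_le_pair (Nat.unpair i).1 (Nat.unpair i).2
    rw [h4] at h7
    rw [Finset.mem_coe, Finset.mem_biUnion]
    refine ⟨(Nat.unpair i).1, Finset.mem_range.mpr (by omega), ?_⟩
    rw [Finset.mem_image]
    exact ⟨(Nat.unpair i).2, Finset.mem_filter.mpr ⟨Finset.mem_range.mpr (by omega), h3⟩, h4⟩
  refine (Set.ncard_le_ncard h1 (Finset.finite_toSet _)).trans ?_
  rw [Set.ncard_coe_finset]
  refine (Finset.card_biUnion_le_card_mul _ _ 2 (fun v _ => ?_)).trans ?_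
  · refine Finset.card_image_le.trans ?_
    exact mks_le_two b hZ hP v (n + 1)
  · rw [Finset.card_range]
    omega

/-- the marks of a sound program -/
theorem tlim_sound (v : ℕ) (hv : ∀ s, ¬ Uns Z P v s (tlim Z P b)) :
    ∃ s0, ∀ s, tlim Z P b (Nat.pair v s) = decide (s = s0) := by
  classical
  have hex : ∃ s, b v ≤ Nat.pair v s := ⟨b v, Nat.right_le_pair _ _⟩
  have h1 : ∀ s < Nat.find hex, tlim Z P b (Nat.pair v s) = false := by
    intro s hs
    by_contra h
    rw [Bool.not_eq_false] at h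
    exact Nat.find_min hex hs (tlim_le b hZ hP v s h)
  have h2 : tlim Z P b (Nat.pair v (Nat.find hex)) = true := by
    rw [tlim_iff b hZ hP]
    exact Or.inl ⟨mks_zero h1, Nat.find_spec hex⟩
  refine ⟨Nat.find hex, fun s => ?_⟩
  rcases lt_trichotomy s (Nat.find hex) with h | h | h
  · rw [h1 s h, eq_comm, decide_eq_false_iff_not]; omega
  · rw [h, h2]; simp
  · have h3 : tlim Z P b (Nat.pair v s) = false := by
      by_contra h4
      rw [Bool.not_eq_false, tlim_iff b hZ hP] at h4
      have := mks_pos h2 h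
      rcases h4 with h5 | h5
      · omega
      · exact hv s h5.2
    rw [h3, eq_comm, decide_eq_false_iff_not]; omega

/-- the pattern of the marks seen by the proof system certifies soundness -/
theorem sound_of_pattern (v k l : ℕ) (hl : 0 < l)
    (h : ∀ s, s < k + 1 + l → tlim Z P b (Nat.pair v s) = decide (s = k)) (x t : List Bool)
    (hx : P.eval (2 * v + 2 * x.length + t.length + 2) < k + l) :
    run (Z (tlim Z P b)) (pr (num v) (pr x t)) ∈ OTAUT (Z (tlim Z P b)) := by
  by_contra hc
  have h1 : tlim Z P b (Nat.pair v (k + l)) = false := by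
    rw [h _ (by omega), decide_eq_false_iff_not]; omega
  have h2 : mks v (k + l) (tlim Z P b) = 1 := by
    unfold mks
    rw [Finset.card_eq_one]
    refine ⟨k, ?_⟩
    ext s
    rw [Finset.mem_filter, Finset.mem_range, Finset.mem_singleton]
    constructor
    · rintro ⟨h3, h4⟩
      rw [h s (by omega), decide_eq_true_eq] at h4
      exact h4
    · intro h3
      refine ⟨by omega, ?_⟩
      rw [h s (by omega), decide_eq_true_eq]
      exact h3
  have h3 : tlim Z P b (Nat.pair v (k + l)) = true :=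
    (tlim_iff b hZ hP v (k + l)).mpr (Or.inr ⟨h2, x, t, hx, hc⟩)
  rw [h1] at h3
  exact absurd h3 (by simp)

end

end Pool.Agent.Work.MP_0532f7_lc
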