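import Mathlib
import Pool.Agent.Work.MP_0532f7_lc.SpSet
import Pool.Agent.Work.MP_0532f7_lc.GMain3

/-!
A p-optimal proof system relative to a sparse tally set.
-/

namespace Pool.Agent.Work.MP_0532f7_lc

open Polynomial

/-! ### unary arithmetic -/

/-- zeros -/
def zer (x : List Bool) : List Bool := List.replicate x.length false

theorem FP.zerI {f : List Bool → List Bool} (hf : FP f) : FP (fun x => zer (f x)) := by
  obtain ⟨Q, hQ⟩ := hf.length
  have key : ∀ n : ℕ, (fun z : List Bool => false :: z)^[n] [] = List.replicate n false := by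
    intro n
    induction n with
    | zero => rfl
    | succ n ih => rw [Function.iterate_succ_apply', ih, List.replicate_succ]
  refine (FP.iter (FP.cons false) hf FP.nil Q (fun x i hi => ?_)).congr (fun x => ?_)
  · rw [key, List.length_replicate]; exact hi.trans (hQ x)
  · rw [key]; rfl

theorem FPb.ltI {f g : List Bool → List Bool} (hf : FP f) (hg : FP g) :
    FPb (fun x => decide ((f x).length < (g x).length)) := by
  refine ((FPb.isNil.comp (FP.drop hf hg)).not).congr (fun x => ?_)
  rw [Bool.eq_iff_iff, decide_eq_true_eq, Bool.not_eq_true', ← Bool.not_eq_true,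
    List.isEmpty_iff, List.drop_eq_nil_iff, not_le]

theorem FP.pairU {f g : List Bool → List Bool} (hf : FP f) (hg : FP g) :
    FP (fun x => un (Nat.pair (f x).length (g x).length)) := by
  refine (FP.ite (FPb.ltI hf hg) ((FP.mulU hg hg).app (FP.unL hf))
    (((FP.mulU hf hf).app (FP.unL hf)).app (FP.unL hg))).congr (fun x => ?_)
  unfold Nat.pair
  simp only [decide_eq_true_eq]
  split_ifs
  · rw [un_append]
  · rw [un_append, un_append]

theorem map_range_iff (n : ℕ) (f g : ℕ → Bool) :
    (List.range n).map f = (List.range n).map g ↔ ∀ s < n, f s = g s := by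
  rw [List.map_inj_left]
  simp [List.mem_range]

theorem pattern_eq (y z : List Bool) : zer y ++ true :: zer z =
    (List.range (y.length + 1 + z.length)).map (fun s => decide (s = y.length)) := by
  apply List.ext_getElem?
  intro i
  rw [List.getElem?_map]
  unfold zer
  rcases lt_trichotomy i y.length with h | h | h
  · rw [List.getElem?_append_left (by simpa using h), List.getElem?_replicate_of_lt h,
      List.getElem?_range (by omega)]
    simp; omega
  · rw [List.getElem?_append_right (by simp [h]), List.getElem?_range (by omega)]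
    simp [h]
  · rw [List.getElem?_append_right (by simp; omega)]
    obtain ⟨j, rfl⟩ := Nat.exists_eq_add_of_lt h
    rw [List.length_replicate, show y.length + j + 1 - y.length = j + 1 by omega,
      List.getElem?_cons_succ]
    rcases Nat.lt_or_ge j z.length with h1 | h1
    · rw [List.getElem?_replicate_of_lt h1, List.getElem?_range (by omega)]
      simp; omega
    · rw [List.getElem?_eq_none (by simpa using h1), List.getElem?_eq_none (by simp; omega)]
      rfl

/-! ### the proof system; a proof is `pr V (pr x (pr t (pr y z)))` -/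

/-- context of the universal computation -/
def spU (w : List Bool) : List Bool := pr (num (fs w).length) (pr (fs (sn w)) (fs (sn (sn w))))

/-- a word whose length is the number of marks to be read -/
def spL (w : List Bool) : List Bool := fs (sn (sn (sn w))) ++ true :: sn (sn (sn (sn w)))

theorem FP.spUI : FP spU :=
  (FP.numI FP.fsI).pair (FP.snI.fst.pair FP.snI.snd.fst)

theorem FP.spLI : FP spL :=
  FP.snI.snd.snd.fst.app ((FP.cons true).comp FP.snI.snd.snd.snd)

section

variable (q k : List Bool → List Bool)

/-- the queries -/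
def spQ (v : List Bool) : List Bool :=
  if decide ((sn v).length < (spL (fs v)).length) then
    q (un (Nat.pair (fs (fs v)).length (sn v).length))
  else rQ (spU (fs v)) ((sn v).drop (spL (fs v)).length)

/-- the number of queries -/
def spC (w : List Bool) : List Bool := spL w ++ (rC (spU w)).tail

/-- the test -/
def spT (w a : List Bool) : Bool :=
  (decide (a.take (spL w).length = zer (fs (sn (sn (sn w)))) ++ true ::
    zer (sn (sn (sn (sn w))))) &&
    decide (([] : List Bool).length < (sn (sn (sn (sn w)))).length)) &&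
    decide ((k (pr (fs w) (pr (fs (sn w)) (fs (sn (sn w)))))).length <
      (fs (sn (sn (sn w))) ++ sn (sn (sn (sn w)))).length)

/-- the output -/
def spO (v : List Bool) : List Bool :=
  if spT k (fs v) (sn v) then rOut (spU (fs v)) ((sn v).drop (spL (fs v)).length)
  else oTop.code

variable {q k}

theorem FP.spQI (hq : FP q) : FP (spQ q) := by
  have hL : FP (fun v => spL (fs v)) := FP.spLI.comp FP.fsI
  exact FP.ite (FPb.ltI FP.snI hL) (hq.comp (FP.pairU FP.fsI.fst FP.snI))
    (FP.rQI (FP.spUI.comp FP.fsI) (FP.drop hL FP.snI))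

theorem FP.spCI : FP spC := FP.spLI.app (FP.tail.comp (FP.rCI FP.spUI))

theorem FP.spOI (hk : FP k) : FP (spO k) := by
  have hw : FP (fun v => fs v) := FP.fsI
  have hL : FP (fun v => spL (fs v)) := FP.spLI.comp FP.fsI
  have hy : FP (fun v => fs (sn (sn (sn (fs v))))) := hw.snd.snd.snd.fst
  have hz : FP (fun v => sn (sn (sn (sn (fs v))))) := hw.snd.snd.snd.snd
  refine FP.ite (((FPb.eq (FP.take hL FP.snI)
    ((FP.zerI hy).app ((FP.cons true).comp (FP.zerI hz)))).and (FPb.ltI FP.nil hz)).and
    (FPb.ltI (hk.comp (hw.fst.pair (hw.snd.fst.pair hw.snd.snd.fst))) (hy.app hz)))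
    (FP.rOutI (FP.spUI.comp FP.fsI) (FP.drop hL FP.snI)) (FP.const _)

variable (q k)

/-- the proof system -/
def fsp (Y : List Bool → Bool) (w : List Bool) : List Bool :=
  spO k (pr w (answers (spQ q) Y w (spC w).length))

theorem spL_length (w : List Bool) : (spL w).length =
    (fs (sn (sn (sn w)))).length + 1 + (sn (sn (sn (sn w)))).length := by
  unfold spL
  rw [List.length_append, List.length_cons]; omega

theorem answers_marks (Y : List Bool → Bool) (w : List Bool) (n : ℕ) (hn : n ≤ (spL w).length) :
    answers (spQ q) Y w n = (List.range n).map (fun s => Y (q (un (Nat.pair (fs w).length s)))) := by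
  induction n with
  | zero => rfl
  | succ n ih =>
    show answers (spQ q) Y w n ++ [Y (spQ q (pr w (answers (spQ q) Y w n)))] = _
    rw [List.range_succ, List.map_append, ih (by omega)]
    congr 1
    unfold spQ
    rw [fs_pr, sn_pr, List.length_map, List.length_range, if_pos (by simp; omega)]
    rfl

theorem spQ_ge (w a : List Bool) (h : (spL w).length ≤ a.length) :
    spQ q (pr w a) = rQ (spU w) (a.drop (spL w).length) := by
  unfold spQ
  rw [fs_pr, sn_pr, if_neg (by simpa using h)]

theorem answers_split (Y : List Bool → Bool) (w : List Bool) (j : ℕ) :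
    answers (spQ q) Y w ((spL w).length + j) = answers (spQ q) Y w (spL w).length ++
      answers (fun z => rQ (spU w) (sn z)) Y [] j := by
  induction j with
  | zero => simp [answers]
  | succ j ih =>
    show answers (spQ q) Y w ((spL w).length + j) ++
      [Y (spQ q (pr w (answers (spQ q) Y w ((spL w).length + j))))] = _ ++
        (answers _ Y [] j ++ [Y (rQ (spU w) (sn (pr [] (answers _ Y [] j))))])
    have h1 : (answers (spQ q) Y w (spL w).length).length = (spL w).length := answers_length _ _ _ _
    rw [ih, List.append_assoc, spQ_ge q w _ (by rw [List.length_append, h1]; omega),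
      List.drop_left' h1, sn_pr]

theorem fsp_eq (Y : List Bool → Bool) (w : List Bool) : fsp q k Y w =
    if ((∀ s < (fs (sn (sn (sn w)))).length + 1 + (sn (sn (sn (sn w)))).length,
      Y (q (un (Nat.pair (fs w).length s))) = decide (s = (fs (sn (sn (sn w)))).length)) ∧
      0 < (sn (sn (sn (sn w)))).length) ∧
      (k (pr (fs w) (pr (fs (sn w)) (fs (sn (sn w)))))).length <
        (fs (sn (sn (sn w)))).length + (sn (sn (sn (sn w)))).length
    then run Y (spU w) else oTop.code := by
  unfold fsp spO
  rw [fs_pr, sn_pr]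
  have h0 : (spC w).length = (spL w).length + (rC (spU w)).tail.length := by
    unfold spC; rw [List.length_append]
  have h1 : (answers (spQ q) Y w (spL w).length).length = (spL w).length := answers_length _ _ _ _
  have h2 : (answers (spQ q) Y w (spC w).length).drop (spL w).length = rAns Y (spU w) := by
    rw [h0, answers_split, List.drop_left' h1]
    rfl
  have h3 : (answers (spQ q) Y w (spC w).length).take (spL w).length =
      (List.range (spL w).length).map (fun s => Y (q (un (Nat.pair (fs w).length s)))) := by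
    rw [h0, answers_take _ _ _ _ _ (by omega), answers_marks q Y w _ le_rfl]
  rw [h2]
  unfold spT
  rw [h3, pattern_eq, spL_length]
  simp only [Bool.and_eq_true, decide_eq_true_eq, map_range_iff, List.length_nil,
    List.length_append]
  rfl

end

/-- **p-optimal systems relative to sparse tally sets.** -/
theorem exists_sparse (Z : (ℕ → Bool) → List Bool → Bool) (q : List Bool → List Bool) (hq : FP q)
    (hZ : Loc Z) (hZq : ∀ τ i, Z τ (q (un i)) = τ i) (α : ℕ → ℕ)
    (hα : Filter.Tendsto α Filter.atTop Filter.atTop) :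
    ∃ T : ℕ → Bool, (∀ n, {i | i ≤ n ∧ T i = true}.ncard ≤ α n) ∧
      ∃ f, POptimalRel (Z T) f := by
  obtain ⟨P, hP⟩ := run_local
  obtain ⟨k, hk, hk'⟩ := FP.clock P
  have hb : ∀ v : ℕ, ∃ N, ∀ n, N ≤ n → 2 * (v + 1) ≤ α n := fun v =>
    Filter.eventually_atTop.mp (hα.eventually_ge_atTop (2 * (v + 1)))
  choose b hb using hb
  refine ⟨tlim Z P b, tlim_sparse b hZ hP α hb, fsp q k (Z (tlim Z P b)), ?_⟩
  have hps : PolyTimeRel (Z (tlim Z P b)) (fsp q k (Z (tlim Z P b))) :=
    ⟨spQ q, spC, spO k, (FP.spQI hq).polyTime, FP.spCI.polyTime, (FP.spOI hk).polyTime,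
      fun w => rfl⟩
  have hsound : ∀ w, fsp q k (Z (tlim Z P b)) w ∈ OTAUT (Z (tlim Z P b)) := by
    intro w
    rw [fsp_eq]
    split_ifs with h
    · obtain ⟨⟨h1, h2⟩, h3⟩ := h
      refine sound_of_pattern b hZ hP (fs w).length (fs (sn (sn (sn w)))).length
        (sn (sn (sn (sn w)))).length h2 (fun s hs => ?_) _ _ ?_
      · rw [← hZq (tlim Z P b)]
        exact h1 s hs
      · rw [hk', pr_length, pr_length] at h3
        convert h3 using 2
        omega
    · exact oTop_mem _
  have hsim : ∀ g, PolyTimeRel (Z (tlim Z P b)) g → (∀ w, g w ∈ OTAUT (Z (tlim Z P b))) →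
      ∃ h, FP h ∧ ∀ x, fsp q k (Z (tlim Z P b)) (h x) = g x := by
    intro g hg hgs
    obtain ⟨c, P1, hc⟩ := run_spec hg hgs
    obtain ⟨k1, hk1, hk1'⟩ := FP.clock P1
    obtain ⟨s0, hs0⟩ := tlim_sound b hZ hP (val c) (fun s => by
      rintro ⟨x, t, -, h1⟩
      rw [num_val] at h1
      exact h1 (hc x t).2)
    refine ⟨fun x => pr (un (val c)) (pr x (pr (k1 x) (pr (un s0)
      (true :: k (pr (un (val c)) (pr x (k1 x))))))), ?_, fun x => ?_⟩
    · exact (FP.const _).pair (FP.id.pair (hk1.pair ((FP.const _).pair ((FP.cons true).comp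
        (hk.comp ((FP.const _).pair (FP.id.pair hk1)))))))
    · rw [fsp_eq]
      simp only [fs_pr, sn_pr, un_length, List.length_cons]
      rw [if_pos]
      · unfold spU
        simp only [fs_pr, sn_pr, un_length]
        rw [num_val]
        exact (hc x _).1 (hk1' x).ge
      · refine ⟨⟨fun s _ => ?_, by omega⟩, by omega⟩
        rw [hZq, hs0]
  refine ⟨⟨hps, ?_⟩, ?_⟩
  · apply Set.Subset.antisymm
    · rintro _ ⟨w, rfl⟩; exact hsound w
    · intro x hx
      obtain ⟨h, -, h2⟩ := hsim (fun _ => x) (PolyTimeRel.of_fp (FP.const x) _) (fun _ => hx)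
      exact ⟨h [], h2 []⟩
  · rintro g ⟨hg, hgr⟩
    obtain ⟨h, h1, h2⟩ := hsim g hg (fun w => by rw [← hgr]; exact ⟨w, rfl⟩)
    exact ⟨h, h1.polyTime, h2⟩

theorem POptimalRel.optimal {R : List Bool → Bool} {f : List Bool → List Bool}
    (hf : POptimalRel R f) : OptimalRel R f := by
  refine ⟨hf.1, fun g hg => ?_⟩
  obtain ⟨h, h1, h2⟩ := hf.2 g hg
  obtain ⟨p, hp⟩ := h1.fp.length
  exact ⟨h, p, fun w => ⟨h2 w, hp w⟩⟩

end Pool.Agent.Work.MP_0532f7_lc
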