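import Mathlib
import Pool.Agent.Work.MP_0532f7_lc.SpRun
import Pool.Agent.Work.MP_0532f7_lc.SpMain

/-!
Closure properties of relative polynomial time.
-/

namespace Pool.Agent.Work.MP_0532f7_lc

open Polynomial

private theorem slclo_mk {X : List Bool → Bool} {f Q C O : List Bool → List Bool} (hQ : FP Q)
    (hC : FP C) (hO : FP O) (h : ∀ w, f w = O (pr w (answers Q X w (C w).length))) :
    PolyTimeRel X f :=
  ⟨Q, C, O, hQ.polyTime, hC.polyTime, hO.polyTime, h⟩

theorem PolyTimeRel.length {X : List Bool → Bool} {g : List Bool → List Bool}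
    (hg : PolyTimeRel X g) : ∃ P : Polynomial ℕ, ∀ z, (g z).length ≤ P.eval z.length := by
  obtain ⟨Q, C, O, _, hC, hO, h⟩ := hg
  obtain ⟨PC, hPC⟩ := hC.fp.length
  obtain ⟨PO, hPO⟩ := hO.fp.length
  refine ⟨PO.comp (2 * Polynomial.X + 1 + PC), fun z => ?_⟩
  rw [h]
  refine (hPO _).trans ?_
  simp only [eval_add, eval_mul, eval_ofNat, eval_one, eval_X, eval_comp]
  apply pmono
  rw [pr_length, answers_length]
  have := hPC z
  omega

theorem PolyTimeRel.post {X : List Bool → Bool} {g k : List Bool → List Bool}
    (hg : PolyTimeRel X g) (hk : FP k) : PolyTimeRel X (fun z => k (g z)) := by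
  obtain ⟨Q, C, O, hQ, hC, hO, h⟩ := hg
  exact slclo_mk hQ.fp hC.fp (O := fun v => k (O v)) (hk.comp hO.fp) (fun w => by rw [h])

theorem PolyTimeRel.pre {X : List Bool → Bool} {g k : List Bool → List Bool}
    (hg : PolyTimeRel X g) (hk : FP k) : PolyTimeRel X (fun z => g (k z)) := by
  obtain ⟨Q, C, O, hQ, hC, hO, h⟩ := hg
  have hpre : FP (fun v => pr (k (fs v)) (sn v)) := (hk.comp FP.fsI).pair FP.snI
  refine slclo_mk (Q := fun v => Q (pr (k (fs v)) (sn v))) (C := fun z => C (k z))
    (O := fun v => O (pr (k (fs v)) (sn v))) (hQ.fp.comp hpre) (hC.fp.comp hk)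
    (hO.fp.comp hpre) (fun w => ?_)
  have key : ∀ n, answers (fun v => Q (pr (k (fs v)) (sn v))) X w n = answers Q X (k w) n := by
    intro n
    induction n with
    | zero => rfl
    | succ n ih =>
      show answers (fun v => Q (pr (k (fs v)) (sn v))) X w n ++ [X (Q (pr (k (fs (pr w _)))
        (sn (pr w (answers (fun v => Q (pr (k (fs v)) (sn v))) X w n)))))] =
        answers Q X (k w) n ++ [X (Q (pr (k w) (answers Q X (k w) n)))]
      rw [ih, fs_pr, sn_pr]
  rw [h, fs_pr, sn_pr, key]

/-- two computations one after the other -/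
private theorem slclo_bind {X : List Bool → Bool} {Q1 C1 G Q2 C2 H : List Bool → List Bool}
    (hQ1 : FP Q1) (hC1 : FP C1) (hG : FP G) (hQ2 : FP Q2) (hC2 : FP C2) (hH : FP H)
    {f : List Bool → List Bool}
    (hf : ∀ w, f w = H (pr w (pr (answers Q1 X w (C1 w).length)
      (answers Q2 X (G (pr w (answers Q1 X w (C1 w).length)))
        (C2 (G (pr w (answers Q1 X w (C1 w).length)))).length)))) :
    PolyTimeRel X f := by
  obtain ⟨PC1, hPC1⟩ := hC1.length
  obtain ⟨PG, hPG⟩ := (hC2.comp hG).length
  obtain ⟨k, hk, hk'⟩ := FP.clock (PG.comp (2 * Polynomial.X + 1 + PC1))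
  have hC1' : FP (fun v => C1 (fs v)) := hC1.comp FP.fsI
  have ha1 : FP (fun v => (sn v).take (C1 (fs v)).length) := FP.take hC1' FP.snI
  have ha2 : FP (fun v => (sn v).drop (C1 (fs v)).length) := FP.drop hC1' FP.snI
  have hg : FP (fun v => G (pr (fs v) ((sn v).take (C1 (fs v)).length))) :=
    hG.comp (FP.fsI.pair ha1)
  set Q : List Bool → List Bool := fun v =>
    if decide ((sn v).length < (C1 (fs v)).length) then Q1 v
    else Q2 (pr (G (pr (fs v) ((sn v).take (C1 (fs v)).length)))
      ((sn v).drop (C1 (fs v)).length)) with hQdef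
  have hQ : FP Q := FP.ite (FPb.ltI FP.snI hC1') hQ1 (hQ2.comp (hg.pair ha2))
  set O : List Bool → List Bool := fun v =>
    H (pr (fs v) (pr ((sn v).take (C1 (fs v)).length)
      (((sn v).drop (C1 (fs v)).length).take
        (C2 (G (pr (fs v) ((sn v).take (C1 (fs v)).length)))).length))) with hOdef
  have hO : FP O := hH.comp (FP.fsI.pair (ha1.pair (FP.take (hC2.comp hg) ha2)))
  have hC : FP (fun w => C1 w ++ k w) := hC1.app hk
  refine slclo_mk hQ hC hO (fun w => ?_)
  -- first phase
  have k1 : ∀ n, n ≤ (C1 w).length → answers Q X w n = answers Q1 X w n := by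
    intro n
    induction n with
    | zero => intro _; rfl
    | succ n ih =>
      intro hn
      show answers Q X w n ++ [X (Q (pr w (answers Q X w n)))] =
        answers Q1 X w n ++ [X (Q1 (pr w (answers Q1 X w n)))]
      rw [ih (by omega)]
      have : Q (pr w (answers Q1 X w n)) = Q1 (pr w (answers Q1 X w n)) := by
        rw [hQdef]
        simp only [fs_pr, sn_pr, answers_length]
        rw [if_pos (by simpa using (by omega : n < (C1 w).length))]
      rw [this]
  set a1 := answers Q1 X w (C1 w).length with ha1def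
  have hl1 : a1.length = (C1 w).length := answers_length _ _ _ _
  set g := G (pr w a1) with hgdef
  -- second phase
  have k2 : ∀ j, answers Q X w ((C1 w).length + j) = a1 ++ answers Q2 X g j := by
    intro j
    induction j with
    | zero =>
      rw [Nat.add_zero, k1 _ le_rfl]
      show a1 = a1 ++ []
      rw [List.append_nil]
    | succ j ih =>
      show answers Q X w ((C1 w).length + j) ++ [X (Q (pr w (answers Q X w ((C1 w).length + j))))] =
        a1 ++ (answers Q2 X g j ++ [X (Q2 (pr g (answers Q2 X g j)))])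
      rw [ih]
      have : Q (pr w (a1 ++ answers Q2 X g j)) = Q2 (pr g (answers Q2 X g j)) := by
        rw [hQdef]
        simp only [fs_pr, sn_pr]
        rw [if_neg (by
          rw [List.length_append, hl1]
          simp), List.drop_left' hl1, List.take_left' hl1]
      rw [this, List.append_assoc]
  have hb : (C2 g).length ≤ (k w).length := by
    rw [hk']
    refine (hPG (pr w a1)).trans ?_
    simp only [eval_add, eval_mul, eval_ofNat, eval_one, eval_X, eval_comp]
    apply pmono
    rw [pr_length, hl1]
    have := hPC1 w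
    omega
  rw [hf, List.length_append, k2, hOdef]
  simp only [fs_pr, sn_pr]
  rw [List.drop_left' hl1, List.take_left' hl1, answers_take _ _ _ _ _ hb]

theorem PolyTimeRel.pair {X : List Bool → Bool} {f g : List Bool → List Bool}
    (hf : PolyTimeRel X f) (hg : PolyTimeRel X g) : PolyTimeRel X (fun z => pr (f z) (g z)) := by
  obtain ⟨Q1, C1, O1, hQ1, hC1, hO1, h1⟩ := hf
  obtain ⟨Q2, C2, O2, hQ2, hC2, hO2, h2⟩ := hg
  refine slclo_bind (G := fs) (H := fun v => pr (O1 (pr (fs v) (fs (sn v))))
    (O2 (pr (fs v) (sn (sn v))))) hQ1.fp hC1.fp FP.fsI hQ2.fp hC2.fp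
    ((hO1.fp.comp (FP.fsI.pair FP.snI.fst)).pair (hO2.fp.comp (FP.fsI.pair FP.snI.snd)))
    (fun w => ?_)
  simp only [fs_pr, sn_pr]
  rw [h1, h2]

theorem PolyTimeRel.comp {X : List Bool → Bool} {f g : List Bool → List Bool}
    (hf : PolyTimeRel X f) (hg : PolyTimeRel X g) : PolyTimeRel X (fun z => f (g z)) := by
  obtain ⟨Q2, C2, O2, hQ2, hC2, hO2, h2⟩ := hf
  obtain ⟨Q1, C1, O1, hQ1, hC1, hO1, h1⟩ := hg
  refine slclo_bind (G := O1) (H := fun v => O2 (pr (O1 (pr (fs v) (fs (sn v)))) (sn (sn v))))
    hQ1.fp hC1.fp hO1.fp hQ2.fp hC2.fp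
    (hO2.fp.comp ((hO1.fp.comp (FP.fsI.pair FP.snI.fst)).pair FP.snI.snd))
    (fun w => ?_)
  simp only [fs_pr, sn_pr]
  rw [h2, h1]

/-- definition by cases with a condition computed relative to the oracle -/
theorem PolyTimeRel.ite {X : List Bool → Bool} {c f g : List Bool → List Bool}
    (hc : PolyTimeRel X c) (hf : PolyTimeRel X f) (hg : PolyTimeRel X g) :
    PolyTimeRel X (fun z => if c z = [true] then f z else g z) := by
  have hk : FP (fun v => if decide (fs v = [true]) then fs (sn v) else sn (sn v)) :=
    FP.ite (FPb.eq FP.fsI (FP.const [true])) FP.snI.fst FP.snI.snd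
  have h := (hc.pair (hf.pair hg)).post hk
  simp only [fs_pr, sn_pr, decide_eq_true_eq] at h
  exact h

/-- non-adaptive queries -/
theorem PolyTimeRel.table (X : List Bool → Bool) {q c : List Bool → List Bool}
    (hq : FP q) (hc : FP c) :
    PolyTimeRel X (fun z => (List.range (c z).length).map (fun j => X (q (pr z (un j))))) := by
  refine slclo_mk (Q := fun v => q (pr (fs v) (un (sn v).length))) (C := c) (O := sn)
    (hq.comp (FP.fsI.pair (FP.unL FP.snI))) hc FP.snI (fun w => ?_)
  have key : ∀ n, answers (fun v => q (pr (fs v) (un (sn v).length))) X w n =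
      (List.range n).map (fun j => X (q (pr w (un j)))) := by
    intro n
    induction n with
    | zero => rfl
    | succ n ih =>
      show answers (fun v => q (pr (fs v) (un (sn v).length))) X w n ++
        [X (q (pr (fs (pr w (answers (fun v => q (pr (fs v) (un (sn v).length))) X w n)))
          (un (sn (pr w (answers (fun v => q (pr (fs v) (un (sn v).length))) X w n))).length)))] = _
      rw [ih, fs_pr, sn_pr, List.range_succ, List.map_append, List.length_map, List.length_range]
      rfl
  rw [sn_pr, key]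

theorem PolyTimeRel.query (X : List Bool → Bool) {q : List Bool → List Bool} (hq : FP q) :
    PolyTimeRel X (fun z => [X (q z)]) := by
  have h := PolyTimeRel.table X (q := fun v => q (fs v)) (c := fun _ => [true])
    (hq.comp FP.fsI) (FP.const [true])
  simpa using h

private theorem slclo_run (X : List Bool → Bool) (u : List Bool) (n : ℕ) :
    answers (fun v => rQ (fs v) (sn v)) X u n = answers (fun z => rQ u (sn z)) X [] n := by
  induction n with
  | zero => rfl
  | succ n ih =>
    show answers (fun v => rQ (fs v) (sn v)) X u n ++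
      [X (rQ (fs (pr u (answers (fun v => rQ (fs v) (sn v)) X u n)))
        (sn (pr u (answers (fun v => rQ (fs v) (sn v)) X u n))))] =
      answers (fun z => rQ u (sn z)) X [] n ++
      [X (rQ u (sn (pr [] (answers (fun z => rQ u (sn z)) X [] n))))]
    rw [ih, fs_pr, sn_pr, sn_pr]

theorem PolyTimeRel.run (X : List Bool → Bool) : PolyTimeRel X (run X) := by
  refine slclo_mk (Q := fun v => rQ (fs v) (sn v)) (C := fun u => (rC u).tail)
    (O := fun v => rOut (fs v) (sn v)) (FP.rQI FP.fsI FP.snI) (FP.tail.comp (FP.rCI FP.id))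
    (FP.rOutI FP.fsI FP.snI) (fun u => ?_)
  rw [fs_pr, sn_pr, slclo_run]
  rfl

/-- the universal computation with the code of `g` (no soundness needed) -/
theorem run_code {Y : List Bool → Bool} {g : List Bool → List Bool} (hg : PolyTimeRel Y g) :
    ∃ (c : List Bool) (P : Polynomial ℕ), ∀ x t,
      P.eval x.length ≤ t.length → run Y (pr c (pr x t)) = g x := by
  obtain ⟨Q, C, O, hQ, hC, hO, h⟩ := hg
  obtain ⟨cQ, PQ, hcQ⟩ := uni_spec hQ
  obtain ⟨cC, PC, hcC⟩ := uni_spec hC
  obtain ⟨cO, PO, hcO⟩ := uni_spec hO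
  obtain ⟨BC, hBC⟩ := hC.fp.length
  have key : ∀ x t, rOk (pr (pr cQ (pr cC cO)) (pr x t)) (rAns Y (pr (pr cQ (pr cC cO)) (pr x t)))
      = true → rC (pr (pr cQ (pr cC cO)) (pr x t)) = true :: C x →
      rAns Y (pr (pr cQ (pr cC cO)) (pr x t)) = answers Q Y x (C x).length := by
    intro x t h1 h2
    rw [rOk_iff] at h1
    have hk : (rC (pr (pr cQ (pr cC cO)) (pr x t))).tail.length = (C x).length := by
      rw [h2]; rfl
    unfold rAns at h1 ⊢
    rw [hk, answers_length] at h1
    rw [hk]
    have : ∀ i, i ≤ (C x).length → answers (fun z => rQ (pr (pr cQ (pr cC cO)) (pr x t)) (sn z)) Y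
        [] i = answers Q Y x i := by
      intro i
      induction i with
      | zero => intro _; rfl
      | succ i ih =>
        intro hi
        have h3 := h1 i (by omega)
        rw [answers_take _ _ _ _ _ (by omega), ih (by omega)] at h3
        simp only [fs_pr, sn_pr] at h3
        have h4 : uni cQ (pr x (answers Q Y x i)) t = true :: Q (pr x (answers Q Y x i)) := by
          rcases (hcQ (pr x (answers Q Y x i)) t).2 with h5 | h5
          · exact absurd h5 h3
          · exact h5
        show answers _ Y [] i ++ [Y (rQ _ (sn (pr [] (answers _ Y [] i))))] = answers Q Y x i ++ _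
        rw [ih (by omega), sn_pr]
        unfold rQ
        simp only [fs_pr, sn_pr]
        rw [h4]
        rfl
    exact this _ le_rfl
  refine ⟨pr cQ (pr cC cO), PC + PO.comp (2 * X + 1 + BC) + PQ.comp (2 * X + 1 + BC),
    fun x t ht => ?_⟩
  simp only [eval_add, eval_mul, eval_ofNat, eval_one, eval_X, eval_comp] at ht
  have h2 : rC (pr (pr cQ (pr cC cO)) (pr x t)) = true :: C x := by
    unfold rC
    simp only [fs_pr, sn_pr]
    exact (hcC x t).1 (by omega)
  have hlen : (rAns Y (pr (pr cQ (pr cC cO)) (pr x t))).length = (C x).length := by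
    unfold rAns; rw [answers_length, h2]; rfl
  have h1 : rOk (pr (pr cQ (pr cC cO)) (pr x t)) (rAns Y (pr (pr cQ (pr cC cO)) (pr x t)))
      = true := by
    rw [rOk_iff]
    intro i hi
    simp only [fs_pr, sn_pr]
    rw [(hcQ _ t).1]
    · simp
    · refine le_trans (pmono PQ (b := 2 * x.length + 1 + BC.eval x.length) ?_) (by omega)
      rw [pr_length, List.length_take]
      have := hBC x
      omega
  have h3 := key x t h1 h2
  rw [h3] at h1
  unfold Pool.Agent.Work.MP_0532f7_lc.run rOut
  rw [h3, h1, h2]
  have h4 : rO (pr (pr cQ (pr cC cO)) (pr x t)) (answers Q Y x (C x).length) =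
      true :: O (pr x (answers Q Y x (C x).length)) := by
    unfold rO
    simp only [fs_pr, sn_pr]
    refine (hcO _ t).1 ?_
    refine le_trans (pmono PO (b := 2 * x.length + 1 + BC.eval x.length) ?_) (by omega)
    rw [pr_length, answers_length]
    have := hBC x
    omega
  rw [h4, h]
  simp

theorem PolyTimeRel.empty_iff {g : List Bool → List Bool} :
    PolyTimeRel (fun _ => false) g ↔ PolyTime g := by
  constructor
  · rintro ⟨Q, C, O, _, hC, hO, h⟩
    have key : ∀ w n, answers Q (fun _ => false) w n = List.replicate n false := by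
      intro w n
      induction n with
      | zero => rfl
      | succ n ih =>
        show answers Q (fun _ => false) w n ++ [false] = _
        rw [ih, List.replicate_succ']
    have hfp : FP (fun w => O (pr w (zer (C w)))) := hO.fp.comp (FP.id.pair (FP.zerI hC.fp))
    have hg : g = fun w => O (pr w (zer (C w))) := by
      funext w
      rw [h, key]
      rfl
    rw [hg]
    exact hfp.polyTime
  · intro h
    exact PolyTimeRel.of_fp h.fp _

end Pool.Agent.Work.MP_0532f7_lc
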