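import Mathlib
import Pool.Agent.Work.MP_0532f7_lc.GMain2

/-!
Certificates for the falsity of formulas relative to an oracle.
-/

namespace Pool.Agent.Work.MP_0532f7_lc

open Polynomial

/-- the word asked by the gate rule for the entry `e` of a certificate -/
def slcert_word (e : List Bool) : List Bool := fs (fs (sn e)).tail

theorem slcert_word_nil : slcert_word [] = [] := rfl

theorem slcert_word_length (e : List Bool) : (slcert_word e).length ≤ e.length := by
  have h1 := fs_length (fs (sn e)).tail
  have h2 := fs_length (sn e)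
  have h3 := sn_length e
  have h4 : (fs (sn e)).tail.length ≤ (fs (sn e)).length := by
    rw [List.length_tail]; omega
  unfold slcert_word
  omega

theorem slcert_wordI {f : List Bool → List Bool} (hf : FP f) : FP (fun x => slcert_word (f x)) :=
  (FP.tail.comp hf.snd.fst).fst

/-! ### the queries agree with the set `s` -/

/-- test for a wrong answer; context `pr (pr s y) a` -/
def slcert_vio (z : List Bool) : Bool :=
  !(decide ([memS (slcert_word (nth (sn z) (sn (fs (fs z))))) (fs (fs (fs z)))] =
    [((sn (fs z)).drop (sn z).length).head?.getD false]))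

theorem slcert_vioI : FPb slcert_vio :=
  (FPb.eq (FPb.memI (slcert_wordI (FP.nthI FP.snI FP.fsI.fst.snd)) FP.fsI.fst.fst)
    (FPb.hd.comp (FP.drop FP.snI FP.fsI.snd))).not

theorem slcert_vio_iff (s y a : List Bool) (i : ℕ) :
    slcert_vio (pr (pr (pr s y) a) (un i)) = true ↔
      memS (slcert_word (nth (un i) y)) s ≠ a.getD i false := by
  unfold slcert_vio
  simp only [fs_pr, sn_pr, un_length, Bool.not_eq_true', decide_eq_false_iff_not, List.cons.injEq,
    and_true, List.head?_drop, List.getD_eq_getElem?_getD]

/-- all the answers agree with the set `s` -/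
def slcert_con (s y a : List Bool) : Bool :=
  decide (un (lst slcert_vio (pr (pr s y) a) a.length) = un a.length)

theorem slcert_con_iff (s y a : List Bool) : slcert_con s y a = true ↔
    ∀ i, i < a.length → memS (slcert_word (nth (un i) y)) s = a.getD i false := by
  unfold slcert_con
  rw [decide_eq_true_eq, un_eq_iff]
  obtain ⟨h1, h2, h3⟩ := lst_spec slcert_vio (pr (pr s y) a) a.length
  constructor
  · intro h i hi
    have h4 := h2 i (by omega)
    by_contra h5
    rw [(slcert_vio_iff s y a i).mpr h5] at h4
    exact absurd h4 (by simp)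
  · intro h
    by_contra h4
    have h5 := h3 (by omega)
    rw [slcert_vio_iff] at h5
    exact h5 (h _ (by omega))

theorem slcert_conI {f g h : List Bool → List Bool} (hf : FP f) (hg : FP g) (hh : FP h) :
    FPb (fun x => slcert_con (f x) (g x) (h x)) :=
  FPb.eq (FP.lstI slcert_vioI ((hf.pair hg).pair hh) hh) (FP.unL hh)

/-! ### the checker relative to `X` -/

/-- the queries; `z = pr (pr c (pr (pr v s) y)) a` -/
def slcert_Q (z : List Bool) : List Bool := slcert_word (nth (sn z) (sn (sn (fs z))))

/-- the number of queries -/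
def slcert_C (w : List Bool) : List Bool := sn (sn w)

/-- the value -/
def slcert_O (z : List Bool) : List Bool :=
  [gder (pr (pr (fs (fs (sn (fs z)))) (sn (fs (sn (fs z)))))
      (pr (sn (sn (fs z))) (false :: fs (fs z)))) &&
    slcert_con (sn (fs (sn (fs z)))) (sn (sn (fs z))) (sn z)]

theorem slcert_QI : FP slcert_Q := slcert_wordI (FP.nthI FP.snI FP.fsI.snd.snd)

theorem slcert_CI : FP slcert_C := FP.snI.snd

theorem slcert_OI : FP slcert_O :=
  (gder_FPb.comp (FP.pair (FP.pair FP.fsI.snd.fst.fst FP.fsI.snd.fst.snd)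
    (FP.pair FP.fsI.snd.snd ((FP.cons false).comp FP.fsI.fst)))).and
    (slcert_conI FP.fsI.snd.fst.snd FP.fsI.snd.snd FP.snI)

/-- the checker -/
def slcert_F (X : List Bool → Bool) (w : List Bool) : List Bool :=
  slcert_O (pr w (answers slcert_Q X w (slcert_C w).length))

theorem slcert_F_iff (X : List Bool → Bool) (c v s y : List Bool) :
    slcert_F X (pr c (pr (pr v s) y)) = [true] ↔
      gder (pr (pr v s) (pr y (false :: c))) = true ∧
        ∀ i, i < y.length → memS (slcert_word (nth (un i) y)) s =
          X (slcert_word (nth (un i) y)) := by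
  have hQ : ∀ a, slcert_Q (pr (pr c (pr (pr v s) y)) a) = slcert_word (nth a y) := by
    intro a; unfold slcert_Q; simp only [fs_pr, sn_pr]
  have hC : (slcert_C (pr c (pr (pr v s) y))).length = y.length := by
    unfold slcert_C; simp only [sn_pr]
  have hA : ∀ i, i < y.length → (answers slcert_Q X (pr c (pr (pr v s) y)) y.length).getD i false =
      X (slcert_word (nth (un i) y)) := by
    intro i hi
    rw [answers_getD _ _ _ _ _ hi, hQ]
    unfold nth
    rw [answers_length, un_length]
  unfold slcert_F
  rw [hC]
  unfold slcert_O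
  simp only [fs_pr, sn_pr, List.cons.injEq, and_true, Bool.and_eq_true]
  rw [slcert_con_iff, answers_length]
  exact and_congr_right (fun _ => forall_congr' (fun i => forall_congr' (fun hi => by
    rw [hA i hi])))

/-- the checker looks only at the components of its input -/
theorem slcert_F_eq (X : List Bool → Bool) (c y : List Bool) :
    slcert_F X (pr c y) = slcert_F X (pr c (pr (pr (fs (fs y)) (sn (fs y))) (sn y))) := by
  have hC : slcert_C (pr c y) = slcert_C (pr c (pr (pr (fs (fs y)) (sn (fs y))) (sn y))) := by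
    unfold slcert_C; simp only [sn_pr]
  have hQ : ∀ a, slcert_Q (pr (pr c y) a) =
      slcert_Q (pr (pr c (pr (pr (fs (fs y)) (sn (fs y))) (sn y))) a) := by
    intro a; unfold slcert_Q; simp only [fs_pr, sn_pr]
  have hO : ∀ a, slcert_O (pr (pr c y) a) =
      slcert_O (pr (pr c (pr (pr (fs (fs y)) (sn (fs y))) (sn y))) a) := by
    intro a; unfold slcert_O; simp only [fs_pr, sn_pr]
  have hA : ∀ n, answers slcert_Q X (pr c y) n =
      answers slcert_Q X (pr c (pr (pr (fs (fs y)) (sn (fs y))) (sn y))) n := by
    intro n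
    induction n with
    | zero => rfl
    | succ n ih =>
      show answers slcert_Q X (pr c y) n ++ _ = answers slcert_Q X _ n ++ _
      rw [ih, hQ]
  unfold slcert_F
  rw [hC, hA, hO]

/-! ### soundness -/

theorem slcert_ok_cor (X : List Bool → Bool) (v s item i1 i2 : List Bool) (A : List (List Bool))
    (hA : ∀ x ∈ A, gder_cor X (fun x => memS x v) x)
    (hs : memS (fs i1.tail) s = X (fs i1.tail))
    (h : gder_ok v s item i1 i2 (encL A) = true) :
    gder_cor X (fun x => memS x v) item := by
  unfold gder_ok at h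
  simp only [Bool.or_eq_true, Bool.and_eq_true, decide_eq_true_eq, memS_eq _ A] at h
  rcases h with ((((h | h) | h) | h) | h) | h
  · exact Or.inl ⟨.var (fs item.tail.tail.tail.tail), h⟩
  · obtain ⟨⟨h1, h2⟩, h3⟩ := h
    obtain ⟨φ, e1, e2⟩ := gder_cor_F (hA _ h1) h2
    refine Or.inl ⟨.neg φ, ?_⟩
    rw [h3, e1, e2]; rfl
  · obtain ⟨⟨⟨h1, h1'⟩, h2, h2'⟩, h3⟩ := h
    obtain ⟨φ, e1, e2⟩ := gder_cor_F (hA _ h1) h2
    obtain ⟨ψ, e3, e4⟩ := gder_cor_F (hA _ h1') h2'
    refine Or.inl ⟨.imp φ ψ, ?_⟩
    rw [h3, e1, e2, e3, e4]; rfl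
  · obtain ⟨⟨h1, h2⟩, h3⟩ := h
    obtain ⟨a, e1, e2⟩ := gder_cor_L (hA _ h1) h2
    refine Or.inl ⟨.orc a, ?_⟩
    rw [h3, hs, e1, e2]; rfl
  · exact Or.inr ⟨.nil, h⟩
  · obtain ⟨⟨⟨h1, h1'⟩, h2, h2'⟩, h3⟩ := h
    obtain ⟨φ, e1, e2⟩ := gder_cor_F (hA _ h1) h2
    obtain ⟨a, e3, e4⟩ := gder_cor_L (hA _ h1') h2'
    refine Or.inr ⟨.cons φ a, ?_⟩
    rw [h3, e1, e2, e3, e4]; rfl

theorem slcert_sound_iter (X : List Bool → Bool) (v s y : List Bool) (n : ℕ)
    (hs : ∀ i, i < n → memS (slcert_word (nth (un i) y)) s = X (slcert_word (nth (un i) y))) :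
    ∃ A' : List (List Bool), (gder_step (pr v s))^[n] (pr y []) = pr (sn^[n] y) (encL A') ∧
      ∀ x ∈ A', gder_cor X (fun x => memS x v) x := by
  induction n with
  | zero => exact ⟨[], rfl, by simp⟩
  | succ n ih =>
    obtain ⟨A, e1, e2⟩ := ih (fun i hi => hs i (by omega))
    have h0 := hs n (by omega)
    have hn : nth (un n) y = fs (sn^[n] y) := by unfold nth; rw [un_length]
    rw [hn] at h0
    rw [Function.iterate_succ_apply', Function.iterate_succ_apply', e1]
    generalize hr : sn^[n] y = r at h0 ⊢
    unfold gder_step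
    simp only [fs_pr, sn_pr]
    split_ifs with h1 h2
    · refine ⟨A, ?_, e2⟩
      rw [List.isEmpty_iff] at h1
      rw [h1]; rfl
    · refine ⟨fs (fs r) :: A, rfl, fun x hx => ?_⟩
      rcases List.mem_cons.1 hx with rfl | hx
      · exact slcert_ok_cor X v s _ _ _ A e2 h0 h2
      · exact e2 x hx
    · exact ⟨A, rfl, e2⟩

theorem slcert_sound (X : List Bool → Bool) (v s y : List Bool) (b : Bool) (c : List Bool)
    (h : gder (pr (pr v s) (pr y (b :: c))) = true)
    (hs : ∀ i, i < y.length → memS (slcert_word (nth (un i) y)) s =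
      X (slcert_word (nth (un i) y))) :
    ∃ φ : OForm, φ.code = c ∧ φ.eval X (fun x => memS x v) = b := by
  unfold gder at h
  simp only [fs_pr, sn_pr] at h
  obtain ⟨A', e1, e2⟩ := slcert_sound_iter X v s y y.length hs
  rw [e1, sn_pr, memS_eq, decide_eq_true_eq] at h
  rcases e2 _ h with ⟨φ, h⟩ | ⟨a, h⟩
  · have h1 := (List.cons.inj h).2
    have h2 := List.cons.inj h1
    exact ⟨φ, h2.2.symm, h2.1.symm⟩
  · exact absurd (List.cons.inj h).1 (by decide)

/-! ### completeness -/

mutual

theorem slcert_complete (X : List Bool → Bool) (v s : List Bool) :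
    ∀ (φ : OForm) (A : List (List Bool)),
    (∀ e ∈ φ.cert X (fun x => memS x v), memS (slcert_word e) s = X (slcert_word e)) →
    φ.item X (fun x => memS x v) ∈ gder_run v s (φ.cert X (fun x => memS x v)) A
  | .var n, A, _ => by
    rw [OForm.cert]
    apply gder_run_last
    unfold gder_ok
    simp only [Bool.or_eq_true, decide_eq_true_eq]
    refine Or.inl (Or.inl (Or.inl (Or.inl (Or.inl ?_))))
    simp [OForm.item, OForm.eval, OForm.code]
  | .neg φ, A, hs => by
    rw [OForm.cert] at hs ⊢
    rw [gder_run_append]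
    apply gder_run_last
    have h1 := slcert_complete X v s φ A (fun e he => hs e (List.mem_append_left _ he))
    unfold gder_ok
    simp only [Bool.or_eq_true, Bool.and_eq_true, decide_eq_true_eq, memS_eq]
    refine Or.inl (Or.inl (Or.inl (Or.inl (Or.inr ⟨⟨h1, gder_isF_item _ _ φ⟩, ?_⟩))))
    simp [OForm.item, OForm.eval, OForm.code, gder_hb, gder_tt]
  | .imp φ ψ, A, hs => by
    rw [OForm.cert] at hs ⊢
    rw [gder_run_append, gder_run_append]
    apply gder_run_last
    have h1 := gder_run_sub v s (ψ.cert X (fun x => memS x v)) _ _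
      (slcert_complete X v s φ A (fun e he => hs e (List.mem_append_left _ he)))
    have h2 := slcert_complete X v s ψ (gder_run v s (φ.cert X (fun x => memS x v)) A)
      (fun e he => hs e (List.mem_append_right _ (List.mem_append_left _ he)))
    unfold gder_ok
    simp only [Bool.or_eq_true, Bool.and_eq_true, decide_eq_true_eq, memS_eq]
    refine Or.inl (Or.inl (Or.inl (Or.inr ⟨⟨⟨h1, h2⟩, gder_isF_item _ _ φ,
      gder_isF_item _ _ ψ⟩, ?_⟩)))
    simp [OForm.item, OForm.eval, OForm.code, gder_hb, gder_tt]
  | .orc a, A, hs => by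
    rw [OForm.cert] at hs ⊢
    rw [gder_run_append]
    apply gder_run_last
    have h1 := slcert_completes X v s a A (fun e he => hs e (List.mem_append_left _ he))
    have h2 := hs _ (List.mem_append_right _ (List.mem_singleton_self _))
    have h3 : slcert_word (pr (OForm.item X (fun x => memS x v) (.orc a))
        (pr (a.item X (fun x => memS x v)) [])) = a.evals X (fun x => memS x v) := by
      simp [slcert_word, OForms.item]
    rw [h3] at h2
    unfold gder_ok
    simp only [Bool.or_eq_true, Bool.and_eq_true, decide_eq_true_eq, memS_eq _ (gder_run _ _ _ _)]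
    refine Or.inl (Or.inl (Or.inr ⟨⟨h1, gder_isL_item _ _ a⟩, ?_⟩))
    have h4 : fs (a.item X (fun x => memS x v)).tail = a.evals X (fun x => memS x v) := by
      simp [OForms.item]
    rw [h4, h2]
    simp [OForm.item, OForms.item, OForm.eval, OForm.code]

theorem slcert_completes (X : List Bool → Bool) (v s : List Bool) :
    ∀ (a : OForms) (A : List (List Bool)),
    (∀ e ∈ a.certs X (fun x => memS x v), memS (slcert_word e) s = X (slcert_word e)) →
    a.item X (fun x => memS x v) ∈ gder_run v s (a.certs X (fun x => memS x v)) A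
  | .nil, A, _ => by
    rw [OForms.certs]
    apply gder_run_last
    unfold gder_ok
    simp only [Bool.or_eq_true, decide_eq_true_eq]
    refine Or.inl (Or.inr ?_)
    simp [OForms.item, OForms.evals, OForms.codes]
  | .cons φ a, A, hs => by
    rw [OForms.certs] at hs ⊢
    rw [gder_run_append, gder_run_append]
    apply gder_run_last
    have h1 := gder_run_sub v s (a.certs X (fun x => memS x v)) _ _
      (slcert_complete X v s φ A (fun e he => hs e (List.mem_append_left _ he)))
    have h2 := slcert_completes X v s a (gder_run v s (φ.cert X (fun x => memS x v)) A)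
      (fun e he => hs e (List.mem_append_right _ (List.mem_append_left _ he)))
    unfold gder_ok
    simp only [Bool.or_eq_true, Bool.and_eq_true, decide_eq_true_eq, memS_eq]
    refine Or.inr ⟨⟨⟨h1, h2⟩, gder_isF_item _ _ φ, gder_isL_item _ _ a⟩, ?_⟩
    simp [OForm.item, OForms.item, OForms.evals, OForms.codes, gder_hb, gder_tt]

end

/-- There is a function `F X`, computable in polynomial time relative to `X` for every `X`, that
checks certificates of polynomial length for the falsity of formulas relative to `X`. -/
theorem exists_fal : ∃ F : (List Bool → Bool) → List Bool → List Bool,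
    (∀ X, PolyTimeRel X (F X)) ∧
    (∀ X c y, F X (pr c y) = [true] → ∃ φ : OForm, φ.code = c ∧ ∃ u, φ.eval X u = false) ∧
    ∃ P : Polynomial ℕ, ∀ (X : List Bool → Bool) (φ : OForm) (u : List Bool → Bool),
      φ.eval X u = false →
      ∃ y : List Bool, y.length ≤ P.eval φ.code.length ∧ F X (pr φ.code y) = [true] := by
  refine ⟨slcert_F, fun X => ⟨slcert_Q, slcert_C, slcert_O, slcert_QI.polyTime,
    slcert_CI.polyTime, slcert_OI.polyTime, fun w => rfl⟩, ?_,
    2 * (2 * X + 1 + (X + 1) * (2 * (15 * X + 12) + 1)) + 1 + X * (2 * (15 * X + 12) + 1), ?_⟩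
  · intro X c y h
    rw [slcert_F_eq, slcert_F_iff] at h
    obtain ⟨φ, h1, h2⟩ := slcert_sound X _ _ _ _ _ h.1 h.2
    exact ⟨φ, h1, _, h2⟩
  · intro X φ u hu
    obtain ⟨v, hv⟩ : ∃ v, v = encL ((gfin_vars φ).filter u) := ⟨_, rfl⟩
    have hev : φ.eval X (fun x => memS x v) = false := by
      rw [← hu]
      refine gfin_eval X u X _ φ (fun _ _ => rfl) (fun x hx => ?_)
      simp only [hv, memS_eq, List.mem_filter]
      by_cases h : u x = true
      · simp [h, hx]
      · simp [h]
    obtain ⟨E, hE⟩ : ∃ E, E = φ.cert X (fun x => memS x v) := ⟨_, rfl⟩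
    obtain ⟨W, hW⟩ : ∃ W, W = [] :: E.map slcert_word := ⟨_, rfl⟩
    obtain ⟨s, hs⟩ : ∃ s, s = encL (W.filter X) := ⟨_, rfl⟩
    have hmem : ∀ x ∈ W, memS x s = X x := by
      intro x hx
      rw [hs, memS_eq]
      by_cases h : X x = true
      · rw [h, decide_eq_true_eq, List.mem_filter]; exact ⟨hx, h⟩
      · rw [decide_eq_false_iff_not.mpr (fun h' => h (List.mem_filter.1 h').2)]
        simpa using h
    have hEl : ∀ e ∈ E, e.length ≤ 15 * φ.code.length + 12 := by
      rw [hE]; exact gder_cert_len X _ φ
    have hEn : E.length ≤ φ.code.length := by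
      rw [hE]; exact gder_cert_num X _ φ
    refine ⟨pr (pr v s) (encL E), ?_, ?_⟩
    · have h1 := gder_encL_len _ _ hEl
      have h2 : (encL W).length ≤ W.length * (2 * (15 * φ.code.length + 12) + 1) := by
        apply gder_encL_len
        intro x hx
        rw [hW, List.mem_cons, List.mem_map] at hx
        rcases hx with rfl | ⟨e, he, rfl⟩
        · simp
        · exact (slcert_word_length e).trans (hEl e he)
      have h3 := gfin_encL_filter X W
      have h4 := gfin_encL_filter u (gfin_vars φ)
      have h5 := gfin_vars_length φ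
      have h6 : W.length = E.length + 1 := by rw [hW]; simp
      rw [h6] at h2
      have h7 : E.length * (2 * (15 * φ.code.length + 12) + 1) ≤
        φ.code.length * (2 * (15 * φ.code.length + 12) + 1) := Nat.mul_le_mul_right _ hEn
      have h8 : (E.length + 1) * (2 * (15 * φ.code.length + 12) + 1) ≤
        (φ.code.length + 1) * (2 * (15 * φ.code.length + 12) + 1) :=
        Nat.mul_le_mul_right _ (by omega)
      rw [← hs] at h3
      rw [← hv] at h4
      rw [pr_length, pr_length]
      simp only [eval_add, eval_mul, eval_X, eval_one, eval_ofNat]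
      omega
    · rw [slcert_F_iff]
      refine ⟨?_, fun i _ => ?_⟩
      · unfold gder
        simp only [fs_pr, sn_pr]
        have h1 := gder_iter v s (encL E).length E [] (encL_length _)
        rw [encL_nil] at h1
        rw [h1, sn_pr, memS_eq, decide_eq_true_eq]
        have h2 := slcert_complete X v s φ [] (fun e he => hmem _ (by
          rw [hW, List.mem_cons, List.mem_map]
          exact Or.inr ⟨e, by rw [hE]; exact he, rfl⟩))
        rw [← hE] at h2
        have h3 : φ.item X (fun x => memS x v) = true :: false :: φ.code := by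
          rw [OForm.item, hev]
        rwa [h3] at h2
      · apply hmem
        rw [nth_encL, un_length, hW, List.mem_cons, List.mem_map]
        by_cases hi : i < E.length
        · right
          refine ⟨E[i], List.getElem_mem hi, ?_⟩
          rw [List.getD_eq_getElem?_getD, List.getElem?_eq_getElem hi]
          rfl
        · left
          rw [List.getD_eq_default _ _ (by omega)]
          rfl

end Pool.Agent.Work.MP_0532f7_lc
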