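import Mathlib
import Pool.Agent.Work.MP_0532f7_lc.SlDefs
import Pool.Agent.Work.MP_0532f7_lc.SpMain

/-!
Splitting a polynomially dense set into infinitely many polynomially dense sets.
-/

namespace Pool.Agent.Work.MP_0532f7_lc

open Polynomial

/-! ### counting the elements of a tally set -/

/-- counting step: state is the pair of the number of elements found and the current length -/
private def slrow_step (d : List Bool → List Bool) (z : List Bool) : List Bool :=
  pr (if decide (d (sn z) = [true]) then true :: fs z else fs z) (true :: sn z)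

private theorem slrow_iter {S : Set ℕ} {d : List Bool → List Bool}
    (hd : ∀ n, d (List.replicate n true) = [true] ↔ n ∈ S) [DecidablePred (· ∈ S)] (K : ℕ) :
    (slrow_step d)^[K] (pr [] []) = pr (un (Nat.count (· ∈ S) K)) (un K) := by
  induction K with
  | zero => rfl
  | succ K ih =>
    rw [Function.iterate_succ_apply', ih, Nat.count_succ]
    unfold slrow_step
    rw [fs_pr, sn_pr, un_succ]
    congr 1
    have h1 : (d (un K) = [true]) ↔ K ∈ S := hd K
    by_cases h : K ∈ S
    · rw [if_pos (by simpa using h1.2 h), if_pos h, un_succ]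
    · rw [if_neg (by simpa using (not_congr h1).2 h), if_neg h]
      rfl

private theorem slrow_count {S : Set ℕ} {d : List Bool → List Bool} (hp : PolyTime d)
    (hd : ∀ n, d (List.replicate n true) = [true] ↔ n ∈ S) [DecidablePred (· ∈ S)] :
    FP (fun x => un (Nat.count (· ∈ S) x.length)) := by
  have hstep : FP (slrow_step d) := by
    have h1 : FPb (fun z => decide (d (sn z) = [true])) :=
      FPb.eq (hp.fp.comp FP.snI) (FP.const [true])
    exact FP.pair (FP.ite h1 ((FP.cons true).comp FP.fsI) FP.fsI) ((FP.cons true).comp FP.snI)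
  have h2 : FP (fun x => (slrow_step d)^[x.length] (pr [] [])) := by
    refine FP.iter (f := slrow_step d) hstep FP.id (FP.const (pr [] [])) (3 * X + 1)
      (fun x i hi => ?_)
    rw [slrow_iter hd, pr_length, un_length, un_length]
    have h3 := Nat.count_le (p := (· ∈ S)) (n := i)
    simp only [eval_add, eval_mul, eval_ofNat, eval_one, eval_X]
    omega
  refine (FP.fst h2).congr fun x => ?_
  rw [slrow_iter hd, fs_pr]

/-! ### leading ones -/

private def slrow_tst (z : List Bool) : Bool := !(((fs z).drop (sn z).length).head?.getD false)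

private theorem slrow_tstI : FPb slrow_tst :=
  (FPb.hd.comp (FP.drop FP.snI FP.fsI)).not

/-- number of leading ones -/
private def slrow_lead (w : List Bool) : ℕ := lst slrow_tst w w.length

private theorem slrow_lead_eq (e : ℕ) (z : List Bool) :
    slrow_lead (List.replicate e true ++ false :: z) = e := by
  set w := List.replicate e true ++ false :: z with hw
  have hlen : w.length = e + (z.length + 1) := by simp [hw]
  obtain ⟨h1, h2, h3⟩ := lst_spec slrow_tst w w.length
  have t1 : ∀ i, i < e → slrow_tst (pr w (un i)) = false := by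
    intro i hi
    unfold slrow_tst
    rw [fs_pr, sn_pr, un_length, List.head?_drop, hw, List.getElem?_append_left (by simpa using hi)]
    simp [hi]
  have t2 : slrow_tst (pr w (un e)) = true := by
    unfold slrow_tst
    rw [fs_pr, sn_pr, un_length, List.head?_drop, hw, List.getElem?_append_right (by simp)]
    simp
  show lst slrow_tst w w.length = e
  rcases Nat.lt_trichotomy (lst slrow_tst w w.length) e with h | h | h
  · have := h3 (by omega)
    rw [t1 _ h] at this
    simp at this
  · exact h
  · have := h2 e h
    rw [t2] at this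
    simp at this

private theorem slrow_val (e : ℕ) (w : List Bool) :
    val (List.replicate e true ++ w) + 2 = 2 ^ e * (val w + 2) := by
  induction e with
  | zero => simp
  | succ e ih =>
    rw [List.replicate_succ, List.cons_append, val, pow_succ]
    simp only [if_true]
    linarith

private theorem slrow_find (e r : ℕ) : ∃ r', r ≤ r' ∧ r' ≤ r + 3 * 2 ^ e ∧
    slrow_lead (num r') = e := by
  set m := r / 2 ^ (e + 1) with hm
  have h1 := Nat.div_add_mod r (2 ^ (e + 1))
  have h2 := Nat.mod_lt r (show 2 ^ (e + 1) > 0 by positivity)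
  have h3 := slrow_val e (false :: num m)
  have h4 : val (false :: num m) = 1 + 2 * m := by
    rw [val, val_num]; simp
  rw [h4] at h3
  have h5 : 2 ^ e * (1 + 2 * m + 2) = 3 * 2 ^ e + 2 ^ (e + 1) * m := by rw [pow_succ]; ring
  have h6 : 2 ^ (e + 1) = 2 * 2 ^ e := by rw [pow_succ]; ring
  have h7 : 1 ≤ 2 ^ e := Nat.one_le_two_pow
  refine ⟨val (List.replicate e true ++ false :: num m), ?_, ?_, ?_⟩
  · rw [← hm] at h1
    omega
  · rw [← hm] at h1
    omega
  · rw [num_val]
    exact slrow_lead_eq e (num m)

/-! ### growth of the enumeration -/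

private noncomputable def slrow_P (c : ℕ) : ℕ → Polynomial ℕ
  | 0 => X ^ c + C c
  | j + 1 => (slrow_P c j + 1) ^ c + C c

/-- A polynomially dense set with easy tally set splits into rows, each polynomially dense, such
that the number of the row of an element is easy to find. -/
theorem exists_row {S : Set ℕ} (hS : TallyP S) (hd : PolyDense S) :
    ∃ row : ℕ → ℕ, FP (fun x => un (row x.length)) ∧
      ∀ e, ∃ P : Polynomial ℕ, ∀ n, ∃ s ∈ S, row s = e ∧ n ≤ s ∧ s ≤ P.eval n := by
  classical
  obtain ⟨d, hp, hdS⟩ := hS
  obtain ⟨c, hc⟩ := hd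
  have hinf : (Set.ofPred (· ∈ S)).Infinite := by
    show S.Infinite
    rw [Set.infinite_iff_exists_gt]
    intro n
    obtain ⟨s, hs, h1, _⟩ := hc (n + 1)
    exact ⟨s, hs, by omega⟩
  refine ⟨fun s => slrow_lead (num (Nat.count (· ∈ S) s)), ?_, fun e => ?_⟩
  · have h1 : FP (fun x : List Bool => num (Nat.count (· ∈ S) x.length)) :=
      (FP.numI (slrow_count hp hdS)).congr fun x => by rw [un_length]
    exact FP.lstI slrow_tstI h1 h1
  · -- bounds for the enumeration
    have hbase : ∀ n, Nat.nth (· ∈ S) (Nat.count (· ∈ S) n) ≤ n ^ c + c := by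
      intro n
      obtain ⟨s, hs, h1, h2⟩ := hc n
      have h3 : Nat.count (· ∈ S) n ≤ Nat.count (· ∈ S) s := Nat.count_monotone _ h1
      have h4 := (Nat.nth_strictMono hinf).monotone h3
      rw [Nat.nth_count (p := (· ∈ S)) hs] at h4
      exact h4.trans h2
    have hstep : ∀ r, Nat.nth (· ∈ S) (r + 1) ≤ (Nat.nth (· ∈ S) r + 1) ^ c + c := by
      intro r
      have h1 := hbase (Nat.nth (· ∈ S) r + 1)
      have h2 : Nat.count (· ∈ S) (Nat.nth (· ∈ S) r + 1) = r + 1 := by
        rw [Nat.count_succ, Nat.count_nth_of_infinite hinf, if_pos (Nat.nth_mem_of_infinite hinf r)]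
      rwa [h2] at h1
    have hP : ∀ n j, Nat.nth (· ∈ S) (Nat.count (· ∈ S) n + j) ≤ (slrow_P c j).eval n := by
      intro n j
      induction j with
      | zero =>
        simp only [slrow_P, add_zero, eval_add, eval_pow, eval_X, eval_C]
        exact hbase n
      | succ j ih =>
        rw [← add_assoc]
        refine (hstep _).trans ?_
        simp only [slrow_P, eval_add, eval_pow, eval_C, eval_one]
        gcongr
    refine ⟨slrow_P c (3 * 2 ^ e), fun n => ?_⟩
    obtain ⟨r', h1, h2, h3⟩ := slrow_find e (Nat.count (· ∈ S) n)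
    refine ⟨Nat.nth (· ∈ S) r', Nat.nth_mem_of_infinite hinf r', ?_, ?_, ?_⟩
    · show slrow_lead (num (Nat.count (· ∈ S) (Nat.nth (· ∈ S) r'))) = e
      rw [Nat.count_nth_of_infinite hinf]
      exact h3
    · exact (Nat.count_le_iff_le_nth hinf).1 h1
    · exact ((Nat.nth_strictMono hinf).monotone h2).trans (hP n (3 * 2 ^ e))

end Pool.Agent.Work.MP_0532f7_lc
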