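import Mathlib
import Pool.Agent.Work.MP_0532f7_lc.SlDefs
import Pool.Agent.Work.MP_0532f7_lc.SlClo
import Pool.Agent.Work.MP_0532f7_lc.SlCert
import Pool.Agent.Work.MP_0532f7_lc.SlRow

/-!
An optimal proof system from optimal proof systems for tally sets with polynomially dense lengths.
-/

namespace Pool.Agent.Work.MP_0532f7_lc

open Polynomial

/-- the word is not the code of a false formula -/
def NF (Y : List Bool → Bool) (c : List Bool) : Prop :=
  ∀ φ : OForm, φ.code = c → ∀ u, φ.eval Y u = true

theorem NF_of_mem {Y : List Bool → Bool} {c : List Bool} (h : c ∈ OTAUT Y) : NF Y c := by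
  obtain ⟨φ, h1, h2⟩ := h
  intro ψ h3 u
  have := OForm.code_injective (h3.trans h1.symm)
  subst this
  exact h2 u

/-- the tally set: `1 ^ s` is in it if no short computation of the program number `row s` has a
false formula as its result -/
def slL (S : Set ℕ) (row : ℕ → ℕ) (Y : List Bool → Bool) : Set (List Bool) :=
  {w | ∃ s ∈ S, w = un s ∧ ∀ x t : List Bool, x.length + t.length ≤ s →
    NF Y (run Y (pr (num (row s)) (pr x t)))}

section

variable {S : Set ℕ} {row : ℕ → ℕ} {Y : List Bool → Bool}

theorem slL_tal : slL S row Y ⊆ tal S := by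
  rintro w ⟨s, hs, h, -⟩
  exact ⟨s, hs, h⟩

theorem mem_slL {c : List Bool} (hc : ∀ x t, run Y (pr c (pr x t)) ∈ OTAUT Y) {s : ℕ}
    (hs : s ∈ S) (hr : row s = val c) : un s ∈ slL S row Y := by
  refine ⟨s, hs, rfl, fun x t _ => ?_⟩
  rw [hr, num_val]
  exact NF_of_mem (hc x t)

theorem FP.rowW (hrow : FP (fun x => un (row x.length))) : FP (fun x => num (row x.length)) := by
  refine (FP.numI hrow).congr (fun x => ?_)
  rw [un_length]

/-- `x.length + y.length ≤ z.length` as a test -/
theorem FPb.leI {f g h : List Bool → List Bool} (hf : FP f) (hg : FP g) (hh : FP h) :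
    FPb (fun x => decide ((f x).length + (g x).length ≤ (h x).length)) := by
  refine (FPb.ltI (hf.app hg) ((FP.cons true).comp hh)).congr (fun x => ?_)
  rw [List.length_append, List.length_cons]
  congr 1
  exact propext Nat.lt_succ_iff

/-- test for tally words with length in `S` -/
theorem exists_talTest (hS : TallyP S) : ∃ b : List Bool → Bool, FPb b ∧
    ∀ w, b w = true ↔ w = un w.length ∧ w.length ∈ S := by
  obtain ⟨d, hd, hd'⟩ := hS
  refine ⟨fun w => decide (w = un w.length) && decide (d (un w.length) = [true]),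
    (FPb.eq FP.id (FP.unL FP.id)).and (FPb.eq (hd.fp.comp (FP.unL FP.id)) (FP.const _)),
    fun w => ?_⟩
  rw [Bool.and_eq_true, decide_eq_true_eq, decide_eq_true_eq]
  have := hd' w.length
  unfold un
  rw [this]

theorem PolyTimeRel.iteb {c : List Bool → Bool} {f g : List Bool → List Bool}
    (hc : PolyTimeRel Y (fun z => [c z])) (hf : PolyTimeRel Y f) (hg : PolyTimeRel Y g) :
    PolyTimeRel Y (fun z => if c z = true then f z else g z) := by
  have h := hc.ite hf hg
  have e : (fun z => if [c z] = [true] then f z else g z) =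
      fun z => if c z = true then f z else g z := by
    funext z
    by_cases hz : c z = true
    · rw [if_pos hz, if_pos (by rw [hz])]
    · rw [if_neg hz, if_neg (by simpa using hz)]
  rwa [e] at h

theorem slL_coNP (hS : TallyP S) (hrow : FP (fun x => un (row x.length))) :
    CoNPRel Y (slL S row Y) := by
  obtain ⟨b, hb, hb'⟩ := exists_talTest hS
  obtain ⟨F, hF, hs, P, hP⟩ := exists_fal
  obtain ⟨PR, hPR⟩ := (PolyTimeRel.run Y).length
  obtain ⟨PN, hPN⟩ := (FP.rowW hrow).length
  -- the formula
  have hc : PolyTimeRel Y (fun z => run Y (pr (num (row (fs z).length))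
      (pr (fs (sn z)) (fs (sn (sn z)))))) :=
    (PolyTimeRel.run Y).pre (((FP.rowW hrow).comp FP.fsI).pair
      (FP.snI.fst.pair FP.snI.snd.fst))
  have hG : PolyTimeRel Y (fun z => F Y (pr (run Y (pr (num (row (fs z).length))
      (pr (fs (sn z)) (fs (sn (sn z)))))) (sn (sn (sn z))))) :=
    (hF Y).comp (hc.pair (PolyTimeRel.of_fp (FP.snI.snd.snd) Y))
  have h1 : PolyTimeRel Y (fun z => [b (fs z)]) := PolyTimeRel.of_fp (hb.comp FP.fsI) Y
  have h2 : PolyTimeRel Y (fun z => [decide ((fs (sn z)).length + (fs (sn (sn z))).length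
      ≤ (fs z).length)]) := PolyTimeRel.of_fp (FPb.leI FP.snI.fst FP.snI.snd.fst FP.fsI) Y
  refine ⟨_, h1.iteb (h2.iteb (hG.ite (PolyTimeRel.of_fp (FP.const [false]) Y)
    (PolyTimeRel.of_fp (FP.const [true]) Y)) (PolyTimeRel.of_fp (FP.const [true]) Y))
    (PolyTimeRel.of_fp (FP.const [false]) Y),
    2 * X + 1 + (2 * X + 1 + P.comp (PR.comp (2 * PN + 1 + (2 * X + 1 + X)))), fun w => ?_⟩
  simp only [fs_pr, sn_pr, decide_eq_true_eq]
  constructor
  · rintro ⟨s, hs1, rfl, h⟩ y -
    rw [if_pos ((hb' _).mpr ⟨by rw [un_length], by rw [un_length]; exact hs1⟩)]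
    simp only [un_length]
    split_ifs with h3 h4
    · obtain ⟨φ, h5, u, h6⟩ := hs Y _ _ h4
      rw [h _ _ h3 φ h5 u] at h6
      exact absurd h6 (by simp)
    · rfl
    · rfl
  · intro h
    have hb0 : b w = true := by
      by_contra h3
      have := h [] (by simp)
      rw [if_neg h3] at this
      exact absurd this (by simp)
    have h0 := (hb' w).mp hb0
    refine ⟨w.length, h0.2, h0.1, fun x t hxt φ hφ u => ?_⟩
    by_contra h3
    rw [Bool.not_eq_true] at h3
    obtain ⟨y, h4, h5⟩ := hP Y φ u h3
    have h6 := h (pr x (pr t y)) (by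
      rw [pr_length, pr_length]
      simp only [eval_add, eval_mul, eval_ofNat, eval_one, eval_X, eval_comp]
      have a1 : φ.code.length ≤ PR.eval (2 * PN.eval w.length + 1 +
          (2 * w.length + 1 + w.length)) := by
        rw [hφ]
        refine (hPR _).trans (pmono PR ?_)
        rw [pr_length, pr_length]
        have := hPN w
        omega
      have a2 := h4.trans (pmono P a1)
      omega)
    rw [if_pos hb0] at h6
    simp only [fs_pr, sn_pr] at h6
    rw [if_pos hxt, ← hφ, if_pos h5] at h6
    exact absurd h6 (by simp)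

end

/-- certified codes of formulas -/
def cod (der : List Bool → Bool) (c d : List Bool) : Bool :=
  der (pr (pr [] []) (pr d (true :: c))) || der (pr (pr [] []) (pr d (false :: c)))

theorem FPb.codI {der : List Bool → Bool} (hd : FPb der) {f g : List Bool → List Bool}
    (hf : FP f) (hg : FP g) : FPb (fun x => cod der (f x) (g x)) :=
  (hd.comp ((FP.const _).pair (hg.pair ((FP.cons true).comp hf)))).or
    (hd.comp ((FP.const _).pair (hg.pair ((FP.cons false).comp hf))))

section

variable (S : Set ℕ) (row : ℕ → ℕ) (Y : List Bool → Bool) (h : List Bool → List Bool)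
  (der : List Bool → Bool)

/-- the formula of a proof `pr π (pr x (pr t d))` -/
def upC (w : List Bool) : List Bool :=
  run Y (pr (num (row (h (fs w)).length)) (pr (fs (sn w)) (fs (sn (sn w)))))

/-- the proof system -/
def upF (w : List Bool) : List Bool :=
  if (decide ((fs (sn w)).length + (fs (sn (sn w))).length ≤ (h (fs w)).length) &&
      cod der (upC row Y h w) (sn (sn (sn w)))) = true then upC row Y h w
  else oTop.code

variable {S row Y h der}

theorem upF_poly (hrow : FP (fun x => un (row x.length))) (hh : PolyTimeRel Y h)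
    (hd : FPb der) : PolyTimeRel Y (upF row Y h der) := by
  have h1 : PolyTimeRel Y (fun w => h (fs w)) := hh.pre FP.fsI
  have hC : PolyTimeRel Y (upC row Y h) :=
    (PolyTimeRel.run Y).comp ((h1.post (FP.rowW hrow)).pair
      (PolyTimeRel.of_fp (FP.snI.fst.pair FP.snI.snd.fst) Y))
  have h2 : PolyTimeRel Y (fun w => [decide ((fs (sn w)).length + (fs (sn (sn w))).length ≤
      (h (fs w)).length) && cod der (upC row Y h w) (sn (sn (sn w)))]) := by
    have h3 := (((PolyTimeRel.of_fp FP.id Y).pair h1).pair hC).post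
      (k := fun z => [decide ((fs (sn (fs (fs z)))).length + (fs (sn (sn (fs (fs z))))).length ≤
        (sn (fs z)).length) && cod der (sn z) (sn (sn (sn (fs (fs z)))))])
      ((FPb.leI FP.fsI.fst.snd.fst FP.fsI.fst.snd.snd.fst FP.fsI.snd).and
        (FPb.codI hd FP.snI FP.fsI.fst.snd.snd.snd))
    simpa only [fs_pr, sn_pr] using h3
  exact h2.iteb hC (PolyTimeRel.of_fp (FP.const _) Y)

theorem upF_sound (hr : Set.range h = slL S row Y)
    (hd : ∀ (v s y : List Bool) (b : Bool) (c : List Bool),
      der (pr (pr v s) (pr y (b :: c))) = true →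
        ∃ φ : OForm, φ.code = c ∧ φ.eval (fun x => memS x s) (fun x => memS x v) = b)
    (w : List Bool) : upF row Y h der w ∈ OTAUT Y := by
  unfold upF
  split_ifs with h1
  · rw [Bool.and_eq_true, decide_eq_true_eq] at h1
    obtain ⟨h1, h2⟩ := h1
    obtain ⟨s, hs, h3, h4⟩ : h (fs w) ∈ slL S row Y := by rw [← hr]; exact ⟨_, rfl⟩
    have h5 : (h (fs w)).length = s := by rw [h3, un_length]
    have h6 : NF Y (upC row Y h w) := by
      unfold upC
      rw [h5]
      exact h4 _ _ (by omega)
    obtain ⟨φ, h7⟩ : ∃ φ : OForm, φ.code = upC row Y h w := by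
      unfold cod at h2
      rw [Bool.or_eq_true] at h2
      rcases h2 with h2 | h2
      · obtain ⟨φ, h7, -⟩ := hd _ _ _ _ _ h2; exact ⟨φ, h7⟩
      · obtain ⟨φ, h7, -⟩ := hd _ _ _ _ _ h2; exact ⟨φ, h7⟩
    exact ⟨φ, h7, fun u => h6 φ h7 u⟩
  · exact oTop_mem Y

end

theorem dense_optimal {S : Set ℕ} (hS : TallyP S) (hd : PolyDense S) (Y : List Bool → Bool)
    (H : ∀ L ⊆ tal S, L.Nonempty → CoNPRel Y L → ∃ h, OptimalForRel Y L h) :
    ∃ f, OptimalForRel Y (OTAUT Y) f := by
  obtain ⟨row, hrow, hdense⟩ := exists_row hS hd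
  obtain ⟨b, hb, hb'⟩ := exists_talTest hS
  obtain ⟨der, hder, hd1, P, hd2⟩ := exists_der
  -- the optimal system for the tally set
  have hne : (slL S row Y).Nonempty := by
    obtain ⟨c, P0, hc⟩ := run_spec (PolyTimeRel.of_fp (FP.const oTop.code) Y)
      (fun _ => oTop_mem Y)
    obtain ⟨Pe, hPe⟩ := hdense (val c)
    obtain ⟨s, hs1, hs2, -⟩ := hPe 0
    exact ⟨un s, mem_slL (fun x t => (hc x t).2) hs1 hs2⟩
  obtain ⟨h, ⟨hh, hr⟩, hopt⟩ := H _ slL_tal hne (slL_coNP hS hrow)
  have hsound := upF_sound (der := der) hr hd1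
  have key : ∀ g, PolyTimeRel Y g → (∀ w, g w ∈ OTAUT Y) →
      Simulates (upF row Y h der) g := by
    intro g hg hgs
    obtain ⟨c, P0, hc⟩ := run_spec hg hgs
    obtain ⟨Pe, hPe⟩ := hdense (val c)
    choose σ hσ1 hσ2 hσ3 hσ4 using hPe
    -- the system with short proofs for the row
    have hb2 : FPb (fun u => b (un u.length) && decide (un (row u.length) = un (val c))) :=
      (hb.comp (FP.unL FP.id)).and (FPb.eq hrow (FP.const _))
    have hg1 : PolyTimeRel Y (fun u => if (b (un u.length) &&
        decide (un (row u.length) = un (val c))) = true then un u.length else h []) :=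
      PolyTimeRel.of_fp (FP.ite hb2 (FP.unL FP.id) (FP.const (h []))) Y
    have hmem : ∀ u : List Bool, (if (b (un u.length) &&
        decide (un (row u.length) = un (val c))) = true then un u.length else h []) ∈
          slL S row Y := by
      intro u
      split_ifs with h1
      · rw [Bool.and_eq_true, hb', decide_eq_true_eq, un_length] at h1
        exact mem_slL (fun x t => (hc x t).2) h1.1.2 (un_inj h1.2)
      · rw [← hr]; exact ⟨_, rfl⟩
    obtain ⟨k, p, hk⟩ := hopt _ (hh.sum hg1) (by
      apply Set.Subset.antisymm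
      · rintro _ ⟨w, rfl⟩
        show (if w.head?.getD false then _ else h w.tail) ∈ slL S row Y
        split_ifs with h1 h2
        · have := hmem w.tail
          rwa [if_pos h2] at this
        · rw [← hr]; exact ⟨_, rfl⟩
        · rw [← hr]; exact ⟨_, rfl⟩
      · intro x hx
        rw [← hr] at hx
        obtain ⟨w, rfl⟩ := hx
        exact ⟨false :: w, rfl⟩)
    have hk' : ∀ n, h (k (true :: un (σ n))) = un (σ n) := by
      intro n
      rw [(hk _).1]
      show (if (b (un (un (σ n)).length) && decide (un (row (un (σ n)).length) = un (val c)))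
        = true then un (un (σ n)).length else h []) = un (σ n)
      rw [un_length, if_pos]
      rw [Bool.and_eq_true, hb', decide_eq_true_eq, un_length]
      exact ⟨⟨rfl, hσ1 n⟩, by rw [hσ2 n]⟩
    -- the proofs
    have hcode : ∀ w, ∃ d : List Bool, d.length ≤ P.eval (g w).length ∧
        cod der (g w) d = true := by
      intro w
      obtain ⟨φ, hφ, -⟩ := hgs w
      obtain ⟨d, h1, h2⟩ := hd2 φ [] []
      rw [hφ] at h1 h2
      refine ⟨d, h1, ?_⟩
      unfold cod
      rw [Bool.or_eq_true]
      cases hv : φ.eval (fun x => memS x []) (fun x => memS x []) with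
      | true => rw [hv] at h2; exact Or.inl h2
      | false => rw [hv] at h2; exact Or.inr h2
    choose d hd3 hd4 using hcode
    obtain ⟨PG, hPG⟩ := hg.length
    refine ⟨fun w => pr (k (true :: un (σ (w.length + P0.eval w.length))))
      (pr w (pr (un (P0.eval w.length)) (d w))),
      2 * p.comp (Pe.comp (X + P0) + 1) + 1 + (2 * X + 1 + (2 * P0 + 1 + P.comp PG)),
      fun w => ⟨?_, ?_⟩⟩
    · have e : upC row Y h (pr (k (true :: un (σ (w.length + P0.eval w.length))))
          (pr w (pr (un (P0.eval w.length)) (d w)))) = g w := by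
        unfold upC
        simp only [fs_pr, sn_pr]
        rw [hk', un_length, hσ2, num_val]
        exact (hc w _).1 (by rw [un_length])
      unfold upF
      rw [e]
      simp only [fs_pr, sn_pr]
      rw [if_pos]
      rw [Bool.and_eq_true, decide_eq_true_eq, hk', un_length, un_length]
      exact ⟨hσ3 _, hd4 w⟩
    · have a1 := (hk (true :: un (σ (w.length + P0.eval w.length)))).2
      rw [List.length_cons, un_length] at a1
      have a2 := hσ4 (w.length + P0.eval w.length)
      have a3 := a1.trans (pmono p (show σ (w.length + P0.eval w.length) + 1 ≤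
        Pe.eval (w.length + P0.eval w.length) + 1 by omega))
      have a4 := (hd3 w).trans (pmono P (hPG w))
      rw [pr_length, pr_length, pr_length, un_length]
      simp only [eval_add, eval_mul, eval_ofNat, eval_one, eval_X, eval_comp]
      omega
  refine ⟨upF row Y h der, ⟨upF_poly hrow hh hder, ?_⟩, fun g hg hgr =>
    key g hg (fun w => by rw [← hgr]; exact ⟨w, rfl⟩)⟩
  apply Set.Subset.antisymm
  · rintro _ ⟨w, rfl⟩; exact hsound w
  · intro x hx
    obtain ⟨h', p', hk⟩ := key (fun _ => x) (PolyTimeRel.of_fp (FP.const x) Y) (fun _ => hx)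
    exact ⟨h' [], (hk []).1⟩

end Pool.Agent.Work.MP_0532f7_lc
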