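import Mathlib
import Pool.Agent.Work.MP_0532f7_lc.OMain3

/-!
A diagonalization over relativized computations.
-/

namespace Pool.Agent.Work.MP_0532f7_lc

open Polynomial

section

variable (n l st : ℕ → ℕ)

open Classical in
/-- The block part of the oracle: the words of length `n i` are in it according to the value of
`R` at `st i + val z`, where `z` consists of the first `l i` bits; other words are in it. -/
noncomputable def slBlk (R : ℕ → Bool) (x : List Bool) : Bool :=
  if h : ∃ i, n i = x.length then
    R (st h.choose + val (x.take (l h.choose)))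
  else true

/-- The oracle: `00 y` is asked from `A`, `01 x` reveals the bit number `|x|` of `R`, and `1 x`
is asked from the blocks. -/
noncomputable def slX (A : List Bool → Bool) (R : ℕ → Bool) : List Bool → Bool :=
  ojoin (ojoin A (fun x => R x.length)) (slBlk n l st R)

variable {n l st} in
theorem slBlk_eq (hn : Function.Injective n) (R : ℕ → Bool) (i : ℕ) (x : List Bool)
    (hx : x.length = n i) : slBlk n l st R x = R (st i + val (x.take (l i))) := by
  have h : ∃ i, n i = x.length := ⟨i, hx.symm⟩
  unfold slBlk
  rw [dif_pos h]
  have h1 : h.choose = i := hn (by rw [h.choose_spec, hx])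
  rw [h1]

variable {n l st} in
theorem slBlk_true (R : ℕ → Bool) (x : List Bool) (hx : ∀ i, x.length ≠ n i) :
    slBlk n l st R x = true := by
  unfold slBlk
  rw [dif_neg]
  rintro ⟨i, hi⟩
  exact hx i hi.symm

variable {n l st} in
/-- the answers to short queries only depend on the relevant bits -/
private theorem sldiag_congr (hn : Function.Injective n) (A : List Bool → Bool)
    (R R' : ℕ → Bool) (y : List Bool)
    (h1 : ∀ x : List Bool, y = false :: true :: x → R x.length = R' x.length)
    (h2 : ∀ (x : List Bool) (j : ℕ), y = true :: x → x.length = n j →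
      R (st j + val (x.take (l j))) = R' (st j + val (x.take (l j)))) :
    slX n l st A R y = slX n l st A R' y := by
  unfold slX
  match y, h1, h2 with
  | [], _, _ => rfl
  | [false], _, _ => rfl
  | false :: false :: _, _, _ => rfl
  | false :: true :: x, h1, _ => exact h1 x rfl
  | true :: x, _, h2 =>
    show slBlk n l st R x = slBlk n l st R' x
    by_cases h : ∃ j, n j = x.length
    · obtain ⟨j, hj⟩ := h
      rw [slBlk_eq hn R j x hj.symm, slBlk_eq hn R' j x hj.symm]
      exact h2 x j rfl hj.symm
    · push Not at h
      rw [slBlk_true R x (fun i hi => h i hi.symm), slBlk_true R' x (fun i hi => h i hi.symm)]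

variable {n l st} in
/-- Diagonalization: at each stage `i` the computation number `i` has no short proof of the
target `τ i` and the block `i` is full, or it has a proof of the target and the block is not
full. -/
theorem exists_diag (V Λ : ℕ → ℕ) (A : List Bool → Bool) (Q C O : ℕ → List Bool → List Bool)
    (τ : ℕ → List Bool)
    (hΛ : ∀ i, Λ i < 2 ^ l i) (hln : ∀ i, l i ≤ n i) (hst : ∀ i, Λ i < st i)
    (hst1 : ∀ i, st i + 2 ^ (l i + 1) ≤ st (i + 1)) (hn : ∀ i, Λ i < n (i + 1))
    (hnΛ : ∀ i, n i ≤ Λ i) (hΛm : ∀ i, Λ i ≤ Λ (i + 1))
    (hC : ∀ i w, w.length ≤ V i → (C i w).length ≤ Λ i)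
    (hQ : ∀ i w, w.length ≤ V i → ∀ (X : List Bool → Bool) (k : ℕ), k ≤ (C i w).length →
      (Q i (pr w (answers (Q i) X w k))).length ≤ Λ i) :
    ∃ R : ℕ → Bool, ∀ i,
      ((∀ x : List Bool, x.length = n i → slX n l st A R (true :: x) = true) ∧
        ∀ w : List Bool, w.length ≤ V i → ora (Q i) (C i) (O i) (slX n l st A R) w ≠ τ i) ∨
      ((∃ x : List Bool, x.length = n i ∧ slX n l st A R (true :: x) = false) ∧
        ∃ w : List Bool, ora (Q i) (C i) (O i) (slX n l st A R) w = τ i) := by
  have hnmono : StrictMono n := strictMono_nat_of_lt_succ (fun i => (hnΛ i).trans_lt (hn i))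
  have hninj : Function.Injective n := hnmono.injective
  have hstmono : StrictMono st := strictMono_nat_of_lt_succ (fun i => by
    have h1 := hst1 i
    have h2 : 0 < 2 ^ (l i + 1) := by positivity
    omega)
  have hsti : ∀ i, i < st i := by
    intro i
    induction i with
    | zero => exact (Nat.zero_le _).trans_lt (hst 0)
    | succ i ih => exact Nat.lt_of_le_of_lt ih (hstmono (Nat.lt_succ_self i))
  -- indices of blocks
  have hidx : ∀ (j : ℕ) (z : List Bool), z.length ≤ l j → st j + val z < st (j + 1) := by
    intro j z hz
    have h1 := val_le z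
    have h2 : 2 ^ (z.length + 1) ≤ 2 ^ (l j + 1) := Nat.pow_le_pow_right (by norm_num) (by omega)
    have h3 := hst1 j
    omega
  have htake : ∀ (x : List Bool) (j : ℕ), (x.take (l j)).length ≤ l j := by
    intro x j
    rw [List.length_take]
    exact min_le_left _ _
  -- the key step
  have key : ∀ (i : ℕ) (R : ℕ → Bool), ∃ R' : ℕ → Bool,
      (R' = R ∧ ¬ ∃ w : List Bool, w.length ≤ V i ∧
        ora (Q i) (C i) (O i) (slX n l st A R) w = τ i) ∨
      (∃ z : List Bool, z.length = l i ∧ R' = Function.update R (st i + val z) false ∧
        ∃ w : List Bool, w.length ≤ V i ∧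
          ora (Q i) (C i) (O i) (slX n l st A R') w = τ i) := by
    intro i R
    by_cases hP : ∃ w : List Bool, w.length ≤ V i ∧
        ora (Q i) (C i) (O i) (slX n l st A R) w = τ i
    · obtain ⟨w, hw1, hw2⟩ := hP
      obtain ⟨z, hz, hz'⟩ : ∃ z ∈ ombWords (l i), z ∉ (Finset.range (C i w).length).image
          (fun k => ((Q i (pr w (answers (Q i) (slX n l st A R) w k))).tail).take (l i)) := by
        by_contra hcon
        push Not at hcon
        have a1 := Finset.card_le_card (s := ombWords (l i)) hcon
        have a2 := Finset.card_image_le (s := Finset.range (C i w).length)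
          (f := fun k => ((Q i (pr w (answers (Q i) (slX n l st A R) w k))).tail).take (l i))
        rw [Finset.card_range] at a2
        rw [card_ombWords] at a1
        have a3 := hC i w hw1
        have a4 := hΛ i
        omega
      have hzl := omb_mem_words.mp hz
      refine ⟨Function.update R (st i + val z) false, Or.inr ⟨z, hzl, rfl, w, hw1, ?_⟩⟩
      rw [← hw2]
      unfold ora
      rw [answers_congr (Q i) (slX n l st A R) (slX n l st A
        (Function.update R (st i + val z) false)) w (C i w).length (fun k hk => ?_)]
      have hlen := hQ i w hw1 (slX n l st A R) k hk.le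
      have hnz : z ≠ ((Q i (pr w (answers (Q i) (slX n l st A R) w k))).tail).take (l i) := by
        intro h
        apply hz'
        rw [Finset.mem_image]
        exact ⟨k, Finset.mem_range.mpr hk, h.symm⟩
      generalize Q i (pr w (answers (Q i) (slX n l st A R) w k)) = y at hlen hnz
      apply sldiag_congr hninj
      · intro x hx
        rw [Function.update_of_ne]
        rw [hx] at hlen
        simp only [List.length_cons] at hlen
        have := hst i
        omega
      · intro x j hx hxj
        rw [Function.update_of_ne]
        rcases lt_trichotomy j i with hji | hji | hji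
        · have h1 := hidx j _ (htake x j)
          have h2 : st (j + 1) ≤ st i := hstmono.monotone hji
          omega
        · subst hji
          intro h
          apply hnz
          rw [hx, List.tail_cons]
          exact val_inj (by omega)
        · have h1 := hidx i z hzl.le
          have h2 : st (i + 1) ≤ st j := hstmono.monotone hji
          omega
    · exact ⟨R, Or.inl ⟨rfl, hP⟩⟩
  choose F hF using key
  -- the approximations
  let Rs : ℕ → (ℕ → Bool) := fun i => Nat.rec (fun _ => true) (fun i R => F i R) i
  have hRs0 : Rs 0 = fun _ => true := rfl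
  have hRss : ∀ i, Rs (i + 1) = F i (Rs i) := fun i => rfl
  have hstep : ∀ i j, (j < st i ∨ st (i + 1) ≤ j) → Rs (i + 1) j = Rs i j := by
    intro i j hj
    rcases hF i (Rs i) with ⟨h1, _⟩ | ⟨z, h1, h2, _⟩
    · rw [hRss, h1]
    · rw [hRss, h2, Function.update_of_ne]
      have := hidx i z h1.le
      omega
  have htrue : ∀ i j, st i ≤ j → Rs i j = true := by
    intro i
    induction i with
    | zero => intro j _; rfl
    | succ i ih =>
      intro j hj
      have h1 : st i ≤ st (i + 1) := hstmono.monotone (Nat.le_succ i)
      rw [hstep i j (Or.inr hj)]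
      exact ih j (h1.trans hj)
  have hstab : ∀ i d j, j < st i → Rs (i + d) j = Rs i j := by
    intro i d
    induction d with
    | zero => intro j _; rfl
    | succ d ih =>
      intro j hj
      have h1 : st i ≤ st (i + d) := hstmono.monotone (Nat.le_add_right i d)
      rw [← Nat.add_assoc, hstep (i + d) j (Or.inl (hj.trans_le h1)), ih j hj]
  let R : ℕ → Bool := fun j => Rs j j
  have hR : ∀ i j, j < st i → R j = Rs i j := by
    intro i j hj
    show Rs j j = Rs i j
    rcases le_total i j with h | h
    · obtain ⟨d, rfl⟩ := Nat.exists_eq_add_of_le h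
      exact hstab i d _ hj
    · obtain ⟨d, rfl⟩ := Nat.exists_eq_add_of_le h
      exact (hstab j d _ (hsti j)).symm
  -- computations with short inputs
  have hora : ∀ i w, w.length ≤ V i → ora (Q i) (C i) (O i) (slX n l st A R) w =
      ora (Q i) (C i) (O i) (slX n l st A (Rs (i + 1))) w := by
    intro i w hw
    unfold ora
    rw [answers_congr (Q i) (slX n l st A (Rs (i + 1))) (slX n l st A R) w (C i w).length
      (fun k hk => ?_)]
    have hlen := hQ i w hw (slX n l st A (Rs (i + 1))) k hk.le
    generalize Q i (pr w (answers (Q i) (slX n l st A (Rs (i + 1))) w k)) = y at hlen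
    apply sldiag_congr hninj
    · intro x hx
      rw [hx] at hlen
      simp only [List.length_cons] at hlen
      have h1 := hst i
      have h2 : st i ≤ st (i + 1) := hstmono.monotone (Nat.le_succ i)
      exact (hR (i + 1) x.length (by omega)).symm
    · intro x j hx hxj
      rw [hx] at hlen
      simp only [List.length_cons] at hlen
      have hji : j ≤ i := by
        by_contra hcon
        have h1 : n (i + 1) ≤ n j := hnmono.monotone (by omega)
        have h2 := hn i
        omega
      have h1 := hidx j _ (htake x j)
      have h2 : st (j + 1) ≤ st (i + 1) := hstmono.monotone (by omega)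
      exact (hR (i + 1) _ (by omega)).symm
  refine ⟨R, fun i => ?_⟩
  rcases hF i (Rs i) with ⟨h1, h2⟩ | ⟨z, h1, h2, w, hw1, hw2⟩
  · left
    refine ⟨fun x hx => ?_, fun w hw hcon => ?_⟩
    · show slBlk n l st R x = true
      rw [slBlk_eq hninj R i x hx, hR (i + 1) _ (hidx i _ (htake x i)), hRss, h1]
      exact htrue i _ (Nat.le_add_right _ _)
    · apply h2
      refine ⟨w, hw, ?_⟩
      rw [← hcon, hora i w hw, hRss, h1]
  · right
    refine ⟨⟨z ++ List.replicate (n i - l i) false, ?_, ?_⟩, w, ?_⟩
    · rw [List.length_append, List.length_replicate, h1]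
      have := hln i
      omega
    · show slBlk n l st R _ = false
      rw [slBlk_eq hninj R i _ (by
        rw [List.length_append, List.length_replicate, h1]
        have := hln i
        omega)]
      rw [← h1, List.take_left, hR (i + 1) _ (hidx i z h1.le), hRss, h2, Function.update_self]
    · rw [hora i w hw1, hRss]
      exact hw2

end

end Pool.Agent.Work.MP_0532f7_lc
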