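import Mathlib
import Pool.Agent.Work.MP_0532f7_lc.SlDefs
import Pool.Agent.Work.MP_0532f7_lc.OMain3

/-!
Parameters from long gaps, and an enumeration of relativized computations.
-/

namespace Pool.Agent.Work.MP_0532f7_lc

open Polynomial

private theorem slpar_poly_le (P : Polynomial ℕ) : ∃ c : ℕ, ∀ n : ℕ, P.eval n ≤ n ^ c + c := by
  obtain ⟨j, hj⟩ := poly_le P
  refine ⟨3 * j + P.eval 0 + P.eval 1, fun n => ?_⟩
  rcases Nat.lt_or_ge n 2 with hn | hn
  · interval_cases n
    · have := Nat.zero_le ((0 : ℕ) ^ (3 * j + P.eval 0 + P.eval 1)); omega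
    · have := Nat.zero_le ((1 : ℕ) ^ (3 * j + P.eval 0 + P.eval 1)); omega
  · have h1 : n + 1 ≤ n ^ 2 := by nlinarith
    have h2 : j ≤ n ^ j := (Nat.lt_pow_self (by omega : 1 < n)).le
    have h3 : j * (n + 1) ^ j ≤ n ^ j * (n ^ 2) ^ j := by gcongr
    have h4 : n ^ j * (n ^ 2) ^ j = n ^ (3 * j) := by
      rw [← pow_mul, ← pow_add]; congr 1; ring
    have h5 : n ^ (3 * j) ≤ n ^ (3 * j + P.eval 0 + P.eval 1) :=
      Nat.pow_le_pow_right (by omega) (by omega)
    have h6 := hj n
    omega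

private theorem slpar_size (a : ℕ) : 2 ^ (Nat.size a + 1) ≤ 4 * a + 2 := by
  rcases Nat.eq_zero_or_pos (Nat.size a) with h | h
  · rw [h]; omega
  · obtain ⟨k, hk⟩ : ∃ k, Nat.size a = k + 1 := ⟨Nat.size a - 1, by omega⟩
    have h1 : 2 ^ k ≤ a := Nat.lt_size.1 (by omega)
    rw [hk, pow_succ, pow_succ]
    omega

private theorem slpar_large (PD : Polynomial ℕ) (i : ℕ) :
    ∃ n0 : ℕ, ∀ n, n0 ≤ n → Nat.size (PD.eval (n ^ (i + 1) + n + i)) ≤ n := by
  obtain ⟨n0, h⟩ := poly_pow_le' (PD.comp (X ^ (i + 1) + X + C i) + 1)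
  refine ⟨n0, fun n hn => ?_⟩
  have h1 := h n hn
  simp only [eval_add, eval_comp, eval_pow, eval_X, eval_C, eval_one] at h1
  exact Nat.size_le.2 (by omega)

/-- in a long gap of `S` there is room for all parameters of a stage -/
theorem exists_par {S : Set ℕ} (hS : ¬ PolyDense S) (PD : Polynomial ℕ) (i Γ : ℕ) :
    ∃ γ n V l : ℕ, Γ < γ ∧ γ ^ i + i ≤ n ∧ n ^ i + i ≤ V ∧ n ≤ V ∧ PD.eval V < 2 ^ l ∧ l ≤ n ∧
      ∀ s ∈ S, s < γ ∨ PD.eval V + 1 + 2 ^ (l + 1) < s := by
  have gap : ∀ c G : ℕ, ∃ g, G < g ∧ ∀ s ∈ S, s < g ∨ g ^ c + c < s := by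
    intro c G
    by_contra h
    push Not at h
    apply hS
    obtain ⟨s0, hs0, h1, h2⟩ := h (G + 1) (by omega)
    refine ⟨max c ((G + 1) ^ c + c), fun n => ?_⟩
    have m1 : c ≤ max c ((G + 1) ^ c + c) := le_max_left _ _
    have m2 : (G + 1) ^ c + c ≤ max c ((G + 1) ^ c + c) := le_max_right _ _
    by_cases hn : G < n
    · obtain ⟨s, hs, h3, h4⟩ := h n hn
      refine ⟨s, hs, h3, h4.trans ?_⟩
      exact Nat.add_le_add (Nat.pow_le_pow_right (by omega) m1) m1
    · refine ⟨s0, hs0, by omega, ?_⟩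
      have := Nat.zero_le (n ^ max c ((G + 1) ^ c + c))
      omega
  obtain ⟨n0, hn0⟩ := slpar_large PD i
  obtain ⟨c, hc⟩ := slpar_poly_le
    (5 * (PD.comp (X ^ (i + 1) + X + C i)).comp (X ^ i + X + C (i + 1)) + 3)
  obtain ⟨γ, hγ, hgap⟩ := gap c (max Γ n0)
  have m1 : Γ ≤ max Γ n0 := le_max_left _ _
  have m2 : n0 ≤ max Γ n0 := le_max_right _ _
  set n : ℕ := γ ^ i + γ + (i + 1) with hn
  set V : ℕ := n ^ (i + 1) + n + i with hV
  have hnpos : 0 < n := by omega
  have hpow : n ^ i ≤ n ^ (i + 1) := Nat.pow_le_pow_right hnpos (by omega)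
  refine ⟨γ, n, V, Nat.size (PD.eval V), by omega, by omega, by omega, by omega,
    Nat.lt_size_self _, hn0 n (by omega), fun s hs => ?_⟩
  rcases hgap s hs with h | h
  · left; exact h
  · right
    have h1 := hc γ
    simp only [eval_add, eval_mul, eval_comp, eval_pow, eval_X, eval_C, eval_ofNat] at h1
    rw [← hn, ← hV] at h1
    have h2 := slpar_size (PD.eval V)
    omega

/-- every infinite set contains such parameters `n` -/
theorem exists_par' {S : Set ℕ} (hS : S.Infinite) (PD : Polynomial ℕ) (i Γ : ℕ) :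
    ∃ n V l : ℕ, n ∈ S ∧ Γ < n ∧ n ^ i + i ≤ V ∧ n ≤ V ∧ PD.eval V < 2 ^ l ∧ l ≤ n := by
  obtain ⟨n0, hn0⟩ := slpar_large PD i
  obtain ⟨n, hn, hn1⟩ := hS.exists_gt (max Γ n0)
  have m1 : Γ ≤ max Γ n0 := le_max_left _ _
  have m2 : n0 ≤ max Γ n0 := le_max_right _ _
  have hpow : n ^ i ≤ n ^ (i + 1) := Nat.pow_le_pow_right (by omega) (by omega)
  exact ⟨n, n ^ (i + 1) + n + i, Nat.size (PD.eval (n ^ (i + 1) + n + i)), hn, by omega,
    by omega, by omega, Nat.lt_size_self _, hn0 n (by omega)⟩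

/-- An enumeration of all relativized computations `ora Q C O` (each occurs infinitely often: the
number of the computation at stage `i` is `(Nat.unpair i).1`), with bounds for the number and the
lengths of the queries. -/
theorem exists_enum : ∃ (Q C O : ℕ → List Bool → List Bool) (PD : ℕ → Polynomial ℕ),
    (∀ e, PolyTime (Q e) ∧ PolyTime (C e) ∧ PolyTime (O e)) ∧
    (∀ Q' C' O' : List Bool → List Bool, PolyTime Q' → PolyTime C' → PolyTime O' →
      ∃ e, Q e = Q' ∧ C e = C' ∧ O e = O') ∧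
    (∀ e n, n ≤ (PD e).eval n) ∧
    ∀ (e : ℕ) (w : List Bool) (V : ℕ), w.length ≤ V → (C e w).length ≤ (PD e).eval V ∧
      ∀ (X : List Bool → Bool) (k : ℕ), k ≤ (C e w).length →
        (Q e (pr w (answers (Q e) X w k))).length ≤ (PD e).eval V := by
  have hc := countable_polyTime
  have hcount : ({t : (List Bool → List Bool) × (List Bool → List Bool) ×
      (List Bool → List Bool) | PolyTime t.1 ∧ PolyTime t.2.1 ∧ PolyTime t.2.2}).Countable := by
    refine ((hc.prod (hc.prod hc)).mono ?_)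
    rintro ⟨a, b, c⟩ ⟨h1, h2, h3⟩
    exact ⟨h1, h2, h3⟩
  have hid : PolyTime (fun x : List Bool => x) := FP.id.polyTime
  obtain ⟨f, hf⟩ := hcount.exists_eq_range ⟨(_, _, _), hid, hid, hid⟩
  have hmem : ∀ e, PolyTime (f e).1 ∧ PolyTime (f e).2.1 ∧ PolyTime (f e).2.2 := by
    intro e
    have : f e ∈ Set.range f := ⟨e, rfl⟩
    rw [← hf] at this
    exact this
  choose PQ hPQ using fun e => (hmem e).1.fp.length
  choose PC hPC using fun e => (hmem e).2.1.fp.length
  refine ⟨fun e => (f e).1, fun e => (f e).2.1, fun e => (f e).2.2,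
    fun e => X + PC e + (PQ e).comp (2 * X + 1 + PC e), hmem, ?_, ?_, ?_⟩
  · intro Q' C' O' hQ hC hO
    have : (Q', C', O') ∈ Set.range f := by
      rw [← hf]
      exact ⟨hQ, hC, hO⟩
    obtain ⟨e, he⟩ := this
    exact ⟨e, by simp only [he], by simp only [he], by simp only [he]⟩
  · intro e n
    simp only [eval_add, eval_X]
    omega
  · intro e w V hw
    have h1 := hPC e w
    have h2 := pmono (PC e) hw
    refine ⟨?_, fun R k hk => ?_⟩
    · simp only [eval_add, eval_X]
      omega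
    · have hk' : k ≤ (((f e).2.1) w).length := hk
      have h3 := hPQ e (pr w (answers (f e).1 R w k))
      rw [pr_length, answers_length] at h3
      have h4 : (PQ e).eval (2 * w.length + 1 + k) ≤
          (PQ e).eval (2 * V + 1 + (PC e).eval V) := pmono _ (by omega)
      simp only [eval_add, eval_X, eval_comp, eval_mul, eval_ofNat, eval_one]
      omega

/-- recursion over the length of words -/
theorem exists_fix (Θ : (List Bool → Bool) → List Bool → Bool) :
    ∃ A : List Bool → Bool,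
      ∀ y, A y = Θ (fun w => if w.length < y.length then A w else false) y := by
  let B : ℕ → List Bool → Bool := fun n => Nat.rec (fun _ => false)
    (fun n Bn y => if y.length = n then Θ Bn y else Bn y) n
  have hB : ∀ n y, B (n + 1) y = if y.length = n then Θ (B n) y else B n y := fun n y => rfl
  have key : ∀ n w, B n w = if w.length < n then B (w.length + 1) w else false := by
    intro n
    induction n with
    | zero => intro w; simp [B]
    | succ n ih =>
      intro w
      by_cases h : w.length = n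
      · rw [if_pos (by omega), h]
      · rw [hB, if_neg h, ih]
        by_cases h2 : w.length < n
        · rw [if_pos h2, if_pos (by omega)]
        · rw [if_neg h2, if_neg (by omega)]
  refine ⟨fun y => B (y.length + 1) y, fun y => ?_⟩
  show B (y.length + 1) y = _
  rw [hB, if_pos rfl]
  congr 1
  funext w
  exact key _ w

end Pool.Agent.Work.MP_0532f7_lc
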