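import Mathlib
import Pool.Agent.Work.MP_0532f7_lc.SlUp
import Pool.Agent.Work.MP_0532f7_lc.SlPar
import Pool.Agent.Work.MP_0532f7_lc.SlDiag

/-!
An oracle that decides its own coNP subsets of a tally set whose lengths avoid long gaps.
-/

namespace Pool.Agent.Work.MP_0532f7_lc

open Polynomial

theorem poly_le_pow (p : Polynomial ℕ) : ∃ K, ∀ m : ℕ, p.eval m ≤ m ^ K + K := by
  obtain ⟨j, hj⟩ := poly_le p
  refine ⟨3 * j + j * 2 ^ j, fun m => (hj m).trans ?_⟩
  rcases Nat.lt_or_ge m 2 with h | h
  · have h1 : (m + 1) ^ j ≤ 2 ^ j := Nat.pow_le_pow_left (by omega) j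
    have h2 := Nat.mul_le_mul_left j h1
    omega
  · have h1 : (m + 1) ^ j ≤ (m ^ 2) ^ j := Nat.pow_le_pow_left (by nlinarith) j
    have h2 : j ≤ m ^ j := Nat.lt_pow_self (by omega) |>.le
    calc j * (m + 1) ^ j ≤ m ^ j * (m ^ 2) ^ j := Nat.mul_le_mul h2 h1
      _ = m ^ (3 * j) := by rw [← pow_mul, ← pow_add]; ring_nf
      _ ≤ m ^ (3 * j + j * 2 ^ j) := Nat.pow_le_pow_right (by omega) (by omega)
      _ ≤ _ := Nat.le_add_right _ _

section

variable (n l st : ℕ → ℕ) (info : List Bool → Bool)

open Classical in
/-- the rule of the oracle -/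
noncomputable def slTh (B : List Bool → Bool) : List Bool → Bool
  | [] => false
  | true :: u => info u
  | false :: u => decide (∀ v : List Bool, v.length ≤ (fs (sn (sn (sn (fs u))))).length →
      run (slX n l st B (fun j => (sn (sn (sn (sn (fs u))))).getD j true))
        (pr (fs (fs u)) (pr (pr (fs (sn (fs u))) v) (fs (sn (sn (fs u)))))) = [true])

/-- an oracle with this rule -/
def SlFix (A : List Bool → Bool) : Prop :=
  ∀ y, A y = slTh n l st info (fun w => if w.length < y.length then A w else false) y

variable {n l st info} {A : List Bool → Bool}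

theorem SlFix.eqInfo (hA : SlFix n l st info A) (u : List Bool) : A (true :: u) = info u := by
  rw [hA]; rfl

/-- the values of the rule do not depend on long words -/
theorem slX_agree (hn : Function.Injective n) (R : ℕ → Bool) (T : List Bool) (M K : ℕ)
    (hT : T = (List.range M).map R) (hK : K < M)
    (hblk : ∀ i, n i ≤ K → st i + 2 ^ (l i + 1) ≤ M) (y : List Bool) (hy : K < y.length)
    (w : List Bool) (hw : w.length ≤ K) :
    slX n l st A R w = slX n l st (fun w => if w.length < y.length then A w else false)
      (fun j => T.getD j true) w := by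
  have hget : ∀ j, j < M → R j = T.getD j true := by
    intro j hj
    rw [hT, List.getD_eq_getElem?_getD, List.getElem?_map, List.getElem?_range hj]
    rfl
  match w with
  | [] => rfl
  | [false] => rfl
  | false :: false :: w' =>
    show A w' = if w'.length < y.length then A w' else false
    rw [if_pos]
    simp only [List.length_cons] at hw
    omega
  | false :: true :: x =>
    show R x.length = T.getD x.length true
    simp only [List.length_cons] at hw
    exact hget _ (by omega)
  | true :: x =>
    show slBlk n l st R x = slBlk n l st (fun j => T.getD j true) x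
    simp only [List.length_cons] at hw
    by_cases h : ∃ i, x.length = n i
    · obtain ⟨i, hi⟩ := h
      rw [slBlk_eq hn _ i x hi, slBlk_eq hn _ i x hi]
      apply hget
      have h1 := hblk i (by omega)
      have h2 := val_lt (b := x.take (l i)) (n := l i) (by rw [List.length_take]; omega)
      omega
    · push Not at h
      rw [slBlk_true _ x h, slBlk_true _ x h]

/-- the decision of the rule -/
theorem slTh_iff (hn : Function.Injective n) (hA : SlFix n l st info A) (R : ℕ → Bool)
    {P2 : Polynomial ℕ}
    (hP2 : ∀ (Y Y' : List Bool → Bool) (u : List Bool) (N : ℕ),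
      u.length ≤ N → (∀ y : List Bool, y.length ≤ P2.eval N → Y y = Y' y) →
        run Y' u = run Y u ∧ (run Y' u ∈ OTAUT Y' → run Y u ∈ OTAUT Y))
    (c z t vb pad : List Bool) (N M : ℕ)
    (hN : 2 * c.length + 1 + (2 * (2 * z.length + 1 + vb.length) + 1 + t.length) ≤ N)
    (hpad : P2.eval N ≤ pad.length) (hM : P2.eval N < M)
    (hblk : ∀ i, n i ≤ P2.eval N → st i + 2 ^ (l i + 1) ≤ M) :
    A (false :: pr (pr c (pr z (pr t (pr vb ((List.range M).map R))))) pad) = true ↔
      ∀ v : List Bool, v.length ≤ vb.length →
        run (slX n l st A R) (pr c (pr (pr z v) t)) = [true] := by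
  rw [hA]
  unfold slTh
  simp only [fs_pr, sn_pr, decide_eq_true_eq]
  apply forall_congr'
  intro v
  apply imp_congr_right
  intro hv
  rw [(hP2 (slX n l st A R) _ (pr c (pr (pr z v) t)) N ?_ (fun w hw => ?_)).1]
  · rw [pr_length, pr_length, pr_length]; omega
  · refine slX_agree hn R _ M (P2.eval N) rfl hM hblk _ ?_ w hw
    rw [List.length_cons, pr_length]
    omega

end

/-- every coNP subset of the tally set is decided in polynomial time relative to the oracle -/
theorem coNP_dec {n l st γ : ℕ → ℕ} {info : List Bool → Bool} {A : List Bool → Bool} {S : Set ℕ}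
    (hS : TallyP S) (hn : Function.Injective n) (hγ : Monotone γ)
    (hγn : ∀ i, γ i ^ i + i ≤ n i)
    (hgap : ∀ i, ∀ s ∈ S, s < γ i ∨ st i + 2 ^ (l i + 1) < s)
    (hA : SlFix n l st info A) (R : ℕ → Bool) (L : Set (List Bool)) (hL : L ⊆ tal S)
    (hLc : CoNPRel (slX n l st A R) L) : PRel (slX n l st A R) L := by
  classical
  obtain ⟨V, hV, p, hp⟩ := hLc
  obtain ⟨c, P1, hc⟩ := run_code hV
  obtain ⟨P2, hP2⟩ := run_local
  obtain ⟨b, hb, hb'⟩ := exists_talTest hS
  -- clocks
  obtain ⟨kt, hkt, hkt'⟩ := FP.clock (P1.comp (2 * X + 1 + p))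
  obtain ⟨kv, hkv, hkv'⟩ := FP.clock p
  set PN : Polynomial ℕ := C (2 * c.length + 1) + (2 * (2 * X + 1 + p) + 1 +
    P1.comp (2 * X + 1 + p)) with hPN
  obtain ⟨kp, hkp, hkp'⟩ := FP.clock (P2.comp PN)
  obtain ⟨km, hkm, hkm'⟩ := FP.clock (X + P2.comp PN + 1)
  obtain ⟨K, hK⟩ := poly_le_pow (P2.comp PN)
  -- the query
  set yq : List Bool → List Bool := fun z => false :: false :: false ::
    pr (pr c (pr (fs z) (pr (kt (fs z)) (pr (kv (fs z)) (sn z))))) (kp (fs z)) with hyq
  have hyqF : FP yq := (FP.cons false).comp ((FP.cons false).comp ((FP.cons false).comp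
    (((FP.const c).pair (FP.fsI.pair ((hkt.comp FP.fsI).pair ((hkv.comp FP.fsI).pair
      FP.snI)))).pair (hkp.comp FP.fsI))))
  have htab := PolyTimeRel.table (slX n l st A R) (q := fun z => false :: true :: sn z)
    (c := km) ((FP.cons false).comp ((FP.cons true).comp FP.snI)) hkm
  have hD0 : PolyTimeRel (slX n l st A R) (fun z => [slX n l st A R (yq (pr z
      ((List.range (km z).length).map (fun j => slX n l st A R
        (false :: true :: sn (pr z (un j)))))))]) :=
    (PolyTimeRel.query _ hyqF).comp ((PolyTimeRel.of_fp FP.id _).pair htab)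
  -- finitely many words
  set cst : List Bool := encL (((List.range (γ K + 1)).filter (fun s => un s ∈ L)).map un)
    with hcst
  have hb1 : FPb (fun z : List Bool => decide (z.length < (un (γ K + 1)).length)) :=
    FPb.ltI FP.id (FP.const _)
  refine ⟨_, PolyTimeRel.iteb (c := b) (PolyTimeRel.of_fp hb _)
    (PolyTimeRel.iteb (c := fun z => decide (z.length < (un (γ K + 1)).length))
      (PolyTimeRel.of_fp hb1 _)
      (PolyTimeRel.of_fp (FPb.memI FP.id (FP.const cst)) _) hD0)
    (PolyTimeRel.of_fp (FP.const [false]) _), fun z => ?_⟩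
  by_cases hz : b z = true
  · rw [if_pos hz]
    obtain ⟨hz1, hz2⟩ := (hb' z).mp hz
    by_cases hz3 : z.length < γ K + 1
    · rw [if_pos (by rw [decide_eq_true_eq, un_length]; exact hz3), hcst]
      simp only [List.cons.injEq, and_true]
      rw [memS_eq, decide_eq_true_eq, List.mem_map]
      constructor
      · rintro ⟨s, h1, h2⟩
        rw [List.mem_filter, decide_eq_true_eq] at h1
        rw [← h2]; exact h1.2
      · intro h
        refine ⟨z.length, ?_, hz1.symm⟩
        rw [List.mem_filter, decide_eq_true_eq, ← hz1]
        exact ⟨List.mem_range.mpr hz3, h⟩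
    · rw [if_neg (by rw [decide_eq_true_eq, un_length]; exact hz3)]
      simp only [List.cons.injEq, and_true]
      have e1 : (List.range (km z).length).map (fun j => slX n l st A R
          (false :: true :: sn (pr z (un j)))) = (List.range (km z).length).map R := by
        apply List.map_congr_left
        intro j _
        rw [sn_pr]
        show R (un j).length = R j
        rw [un_length]
      rw [e1, hyq]
      show A (false :: pr (pr c (pr (fs (pr z _)) (pr (kt (fs (pr z _)))
        (pr (kv (fs (pr z _))) (sn (pr z _)))))) (kp (fs (pr z _)))) = true ↔ _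
      rw [fs_pr, sn_pr, slTh_iff hn hA R hP2 c z (kt z) (kv z) (kp z) (PN.eval z.length)
        (km z).length ?_ ?_ ?_ ?_, hp]
      · apply forall_congr'
        intro v
        rw [hkv']
        apply imp_congr_right
        intro hv
        rw [hc]
        rw [hkt', eval_comp]
        refine pmono P1 ?_
        rw [pr_length]
        simp only [eval_add, eval_mul, eval_ofNat, eval_one, eval_X]
        omega
      · rw [hkv', hkt', hPN]
        simp only [eval_add, eval_mul, eval_ofNat, eval_one, eval_X, eval_comp, eval_C]
        omega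
      · rw [hkp', eval_comp]
      · rw [hkm']
        simp only [eval_add, eval_one, eval_X, eval_comp]
        omega
      · intro i hi
        have h1 := hK z.length
        rw [eval_comp] at h1
        rcases hgap i z.length hz2 with h2 | h2
        · exfalso
          have h3 := hγn i
          rcases Nat.lt_or_ge K i with h4 | h4
          · have h5 : z.length ^ K ≤ γ i ^ K := Nat.pow_le_pow_left h2.le K
            have h6 : γ i ^ K ≤ γ i ^ i := Nat.pow_le_pow_right (by omega) h4.le
            omega
          · have h5 := hγ h4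
            omega
        · rw [hkm']
          simp only [eval_add, eval_one, eval_X, eval_comp]
          omega
  · rw [if_neg hz]
    refine iff_of_false (by simp) (fun h => hz ?_)
    obtain ⟨s, hs, h1⟩ := hL h
    rw [hb', h1, List.length_replicate]
    exact ⟨rfl, hs⟩

end Pool.Agent.Work.MP_0532f7_lc
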