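import Mathlib
import Pool.Agent.Work.MP_0532f7_lc.SlDec

/-!
Oracles without optimal proof systems from long gaps, and from infinite sets.
-/

namespace Pool.Agent.Work.MP_0532f7_lc

open Polynomial

/-- a proof system with infinitely many hard targets is not optimal -/
theorem not_opt {Y : List Bool → Bool} {L : Set (List Bool)} {f T q : List Bool → List Bool}
    {n V : ℕ → ℕ} {e : ℕ} (hT : FP T) (hq : FP q)
    (hf : PolyTimeRel Y f) (hr : Set.range f = L)
    (htest : ∀ u, Y (q u) = true → ∃ i, (Nat.unpair i).1 = e ∧ u.length = n i)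
    (htest' : ∀ i, (Nat.unpair i).1 = e → Y (q (un (n i))) = true)
    (hTl : ∀ u : List Bool, T u = T (un u.length))
    (hmem : ∀ i, (Nat.unpair i).1 = e → T (un (n i)) ∈ L)
    (hshort : ∀ i, (Nat.unpair i).1 = e → ∀ w : List Bool, w.length ≤ V i →
      f w ≠ T (un (n i)))
    (hV : ∀ i, n i ^ i + i ≤ V i) (hn1 : ∀ i, 1 ≤ n i) :
    ∃ g, PolyTimeRel Y g ∧ Set.range g = L ∧ ¬ Simulates f g := by
  have hg1 : PolyTimeRel Y (fun u => if Y (q u) = true then T u else f []) :=
    PolyTimeRel.iteb (c := fun u => Y (q u)) (PolyTimeRel.query Y hq) (PolyTimeRel.of_fp hT Y)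
      (PolyTimeRel.of_fp (FP.const _) Y)
  have hm : ∀ u : List Bool, (if Y (q u) = true then T u else f []) ∈ L := by
    intro u
    split_ifs with h
    · obtain ⟨i, h1, h2⟩ := htest u h
      rw [hTl, h2]
      exact hmem i h1
    · rw [← hr]; exact ⟨_, rfl⟩
  refine ⟨_, hf.sum hg1, ?_, ?_⟩
  · apply Set.Subset.antisymm
    · rintro _ ⟨w, rfl⟩
      show (if w.head?.getD false then (if Y (q w.tail) = true then T w.tail else f [])
        else f w.tail) ∈ L
      by_cases h : w.head?.getD false = true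
      · rw [if_pos h]; exact hm _
      · rw [if_neg h, ← hr]; exact ⟨_, rfl⟩
    · intro x hx
      rw [← hr] at hx
      obtain ⟨w, rfl⟩ := hx
      exact ⟨false :: w, rfl⟩
  · rintro ⟨h, p, hp⟩
    obtain ⟨K, hK⟩ := poly_le_pow (p.comp (X + 1))
    have hi : (Nat.unpair (Nat.pair e K)).1 = e := by rw [Nat.unpair_pair]
    have hKi : K ≤ Nat.pair e K := Nat.right_le_pair _ _
    set i := Nat.pair e K with hidef
    obtain ⟨h1, h2⟩ := hp (true :: un (n i))
    refine hshort i hi _ ?_ (h1.trans ?_)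
    · refine h2.trans (le_trans ?_ (hV i))
      have h3 := hK (n i)
      simp only [eval_comp, eval_add, eval_X, eval_one] at h3
      rw [List.length_cons, un_length]
      have h4 : n i ^ K ≤ n i ^ i := Nat.pow_le_pow_right (hn1 i) hKi
      omega
    · show (if Y (q (un (n i))) = true then T (un (n i)) else f []) = T (un (n i))
      rw [if_pos (htest' i hi)]

/-- recursive choice of parameters -/
theorem exists_seq {α : Type} (K : ℕ → ℕ → α → Prop) (F : ℕ → α → ℕ)
    (h : ∀ i Γ, ∃ a, K i Γ a) :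
    ∃ q : ℕ → α, (∃ Γ, K 0 Γ (q 0)) ∧ ∀ i, K (i + 1) (F i (q i)) (q (i + 1)) := by
  choose f hf using h
  refine ⟨fun i => Nat.rec (f 0 0) (fun i a => f (i + 1) (F i a)) i, ⟨0, hf 0 0⟩, fun i => ?_⟩
  exact hf (i + 1) _

/-- what is common to both constructions -/
theorem stage_bounds {n l V st Λ : ℕ → ℕ} {e : ℕ → ℕ} {PD : ℕ → Polynomial ℕ}
    (hPD : ∀ e n, n ≤ (PD e).eval n)
    (hΛ : ∀ i, Λ i = (PD (e i)).eval (V i)) (hst : ∀ i, st i = Λ i + 1)
    (hnV : ∀ i, n i ≤ V i)
    (hnext : ∀ i, st i + 2 ^ (l i + 1) < n (i + 1)) :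
    (∀ i, n i ≤ Λ i) ∧ (∀ i, Λ i < st i) ∧ (∀ i, st i + 2 ^ (l i + 1) ≤ st (i + 1)) ∧
      (∀ i, Λ i < n (i + 1)) ∧ (∀ i, Λ i ≤ Λ (i + 1)) ∧ Function.Injective n := by
  have h1 : ∀ i, V i ≤ Λ i := fun i => by rw [hΛ]; exact hPD _ _
  have h2 : ∀ i, n i ≤ Λ i := fun i => (hnV i).trans (h1 i)
  have h3 : ∀ i, Λ i < n (i + 1) := fun i => by
    have a1 := hnext i
    have a2 := hst i
    have a3 : 0 < 2 ^ (l i + 1) := by positivity
    omega
  refine ⟨h2, fun i => by rw [hst]; omega, fun i => ?_, h3, fun i => ?_, ?_⟩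
  · have a1 := hnext i
    have a2 := h2 (i + 1)
    have a3 := hst (i + 1)
    rw [a3]; omega
  · have := h3 i; have := h2 (i + 1); omega
  · exact (strictMono_nat_of_lt_succ (fun i => (h2 i).trans_lt (h3 i))).injective

open Classical in
/-- information on the sequence `n` -/
noncomputable def slInfo (n : ℕ → ℕ) (u : List Bool) : Bool :=
  decide (∃ i, u = pr (un ((Nat.unpair i).1 + 1)) (un (n i)) ∨ u = pr [] (un (n i)))

theorem slInfo_iff {n : ℕ → ℕ} (e m : ℕ) : slInfo n (pr (un (e + 1)) (un m)) = true ↔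
    ∃ i, (Nat.unpair i).1 = e ∧ m = n i := by
  simp only [slInfo, decide_eq_true_eq]
  apply exists_congr
  intro i
  constructor
  · rintro (h | h)
    · have h1 := congrArg fs h
      have h2 := congrArg sn h
      rw [fs_pr, fs_pr, un_eq_iff] at h1
      rw [sn_pr, sn_pr, un_eq_iff] at h2
      exact ⟨by omega, h2⟩
    · have h1 := congrArg fs h
      rw [fs_pr, fs_pr] at h1
      exact absurd h1 (by simp [un_succ])
  · rintro ⟨h1, h2⟩
    exact Or.inl (by rw [h1, h2])

theorem slInfo_iff' {n : ℕ → ℕ} (m : ℕ) : slInfo n (pr [] (un m)) = true ↔ ∃ i, m = n i := by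
  simp only [slInfo, decide_eq_true_eq]
  apply exists_congr
  intro i
  constructor
  · rintro (h | h)
    · have h1 := congrArg fs h
      rw [fs_pr, fs_pr] at h1
      exact absurd h1 (by simp [un_succ])
    · have h2 := congrArg sn h
      rw [sn_pr, sn_pr, un_eq_iff] at h2
      exact h2
  · intro h1
    exact Or.inr (by rw [h1])

/-- the full blocks give tautologies -/
theorem tau_mem_iff (Y : List Bool → Bool) (m : ℕ) : (tauF m 1).code ∈ OTAUT Y ↔
    ∀ x : List Bool, x.length = m → Y (true :: x) = true := by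
  constructor
  · rintro ⟨φ, h1, h2⟩ x hx
    have := OForm.code_injective h1
    subst this
    obtain ⟨j, hj, h3⟩ := (tauF_iff Y m 1).mp h2 x hx
    obtain rfl : j = 0 := by omega
    simpa using h3
  · intro h
    refine ⟨_, rfl, (tauF_iff Y m 1).mpr fun x hx => ⟨0, by omega, ?_⟩⟩
    simpa using h x hx

/-- **Long gaps.** -/
theorem gap_oracle {S : Set ℕ} (hS : TallyP S) (hnd : ¬ PolyDense S) :
    ∃ Y : List Bool → Bool, (∀ L ⊆ tal S, CoNPRel Y L → PRel Y L) ∧
      ¬ ∃ f, OptimalForRel Y (OTAUT Y) f := by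
  obtain ⟨Q, C, O, PD, hP, hall, hPD, hbd⟩ := exists_enum
  obtain ⟨q, ⟨Γ0, hq0⟩, hq⟩ := exists_seq (α := ℕ × ℕ × ℕ × ℕ)
    (fun i Γ a => Γ < a.1 ∧ a.1 ^ i + i ≤ a.2.1 ∧ a.2.1 ^ i + i ≤ a.2.2.1 ∧ a.2.1 ≤ a.2.2.1 ∧
      (PD (Nat.unpair i).1).eval a.2.2.1 < 2 ^ a.2.2.2 ∧ a.2.2.2 ≤ a.2.1 ∧
      ∀ s ∈ S, s < a.1 ∨ (PD (Nat.unpair i).1).eval a.2.2.1 + 1 + 2 ^ (a.2.2.2 + 1) < s)
    (fun i a => a.1 + ((PD (Nat.unpair i).1).eval a.2.2.1 + 1 + 2 ^ (a.2.2.2 + 1)))
    (fun i Γ => by
      obtain ⟨γ, n, V, l, h⟩ := exists_par hnd (PD (Nat.unpair i).1) i Γ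
      exact ⟨(γ, n, V, l), h⟩)
  have hall' : ∀ i, (q i).1 ^ i + i ≤ (q i).2.1 ∧ (q i).2.1 ^ i + i ≤ (q i).2.2.1 ∧
      (q i).2.1 ≤ (q i).2.2.1 ∧
      (PD (Nat.unpair i).1).eval (q i).2.2.1 < 2 ^ (q i).2.2.2 ∧ (q i).2.2.2 ≤ (q i).2.1 ∧
      ∀ s ∈ S, s < (q i).1 ∨
        (PD (Nat.unpair i).1).eval (q i).2.2.1 + 1 + 2 ^ ((q i).2.2.2 + 1) < s := by
    intro i
    cases i with
    | zero => exact hq0.2
    | succ i => exact (hq i).2
  set γ : ℕ → ℕ := fun i => (q i).1 with hγdef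
  set n : ℕ → ℕ := fun i => (q i).2.1 with hndef
  set V : ℕ → ℕ := fun i => (q i).2.2.1 with hVdef
  set l : ℕ → ℕ := fun i => (q i).2.2.2 with hldef
  set Λ : ℕ → ℕ := fun i => (PD (Nat.unpair i).1).eval (V i) with hΛdef
  set st : ℕ → ℕ := fun i => Λ i + 1 with hstdef
  have hγ : ∀ i, γ i + (st i + 2 ^ (l i + 1)) < γ (i + 1) := fun i => (hq i).1
  have h1 : ∀ i, γ i ^ i + i ≤ n i := fun i => (hall' i).1
  have h2 : ∀ i, n i ^ i + i ≤ V i := fun i => (hall' i).2.1
  have h3 : ∀ i, n i ≤ V i := fun i => (hall' i).2.2.1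
  have h4 : ∀ i, Λ i < 2 ^ l i := fun i => (hall' i).2.2.2.1
  have h5 : ∀ i, l i ≤ n i := fun i => (hall' i).2.2.2.2.1
  have h6 : ∀ i, ∀ s ∈ S, s < γ i ∨ st i + 2 ^ (l i + 1) < s := fun i => (hall' i).2.2.2.2.2
  have h7 : ∀ i, st i + 2 ^ (l i + 1) < n (i + 1) := fun i => by
    have a1 := hγ i
    have a2 := h1 (i + 1)
    have a3 : γ (i + 1) ≤ γ (i + 1) ^ (i + 1) := Nat.le_self_pow (by omega) _
    omega
  obtain ⟨b1, b2, b3, b4, b5, b6⟩ := stage_bounds (e := fun i => (Nat.unpair i).1) hPD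
    (fun i => rfl) (fun i => rfl) h3 h7
  obtain ⟨A, hA⟩ := exists_fix (slTh n l st (slInfo n))
  have hA' : SlFix n l st (slInfo n) A := hA
  obtain ⟨R, hR⟩ := exists_diag (n := n) (l := l) (st := st) V Λ A
    (fun i => Q (Nat.unpair i).1) (fun i => C (Nat.unpair i).1) (fun i => O (Nat.unpair i).1)
    (fun i => (tauF (n i) 1).code) h4 h5 b2 b3 b4 b1 b5
    (fun i w hw => (hbd _ w (V i) hw).1) (fun i w hw => (hbd _ w (V i) hw).2)
  refine ⟨slX n l st A R, fun L hL hLc => ?_, ?_⟩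
  · exact coNP_dec hS b6 (monotone_nat_of_le_succ fun i =>
      (Nat.le_add_right _ _).trans (hγ i).le) h1 h6 hA' R
      L hL hLc
  · rintro ⟨f, ⟨hf, hr⟩, hopt⟩
    have hf' := hf
    obtain ⟨Q', C', O', hQ', hC', hO', hff⟩ := hf'
    obtain ⟨e, rfl, rfl, rfl⟩ := hall Q' C' O' hQ' hC' hO'
    have hora : ∀ i, (Nat.unpair i).1 = e → ∀ w, ora (Q (Nat.unpair i).1)
        (C (Nat.unpair i).1) (O (Nat.unpair i).1) (slX n l st A R) w = f w := by
      intro i hi w
      rw [hi, hff]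
      rfl
    have key : ∀ i, (Nat.unpair i).1 = e → (tauF (n i) 1).code ∈ OTAUT (slX n l st A R) ∧
        ∀ w : List Bool, w.length ≤ V i → f w ≠ (tauF (n i) 1).code := by
      intro i hi
      rcases hR i with ⟨c1, c2⟩ | ⟨⟨x, c1, c2⟩, w, c3⟩
      · refine ⟨(tau_mem_iff _ _).mpr c1, fun w hw => ?_⟩
        rw [← hora i hi w]
        exact c2 w hw
      · exfalso
        rw [hora i hi] at c3
        have c4 : (tauF (n i) 1).code ∈ OTAUT (slX n l st A R) := by
          rw [← hr, ← c3]; exact ⟨w, rfl⟩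
        rw [(tau_mem_iff _ _).mp c4 x c1] at c2
        exact absurd c2 (by simp)
    have hqe : ∀ u : List Bool, slX n l st A R (false :: false :: true ::
        pr (un (e + 1)) (un u.length)) = true ↔ ∃ i, (Nat.unpair i).1 = e ∧ u.length = n i := by
      intro u
      show A (true :: pr (un (e + 1)) (un u.length)) = true ↔ _
      rw [hA'.eqInfo, slInfo_iff]
    obtain ⟨g, hg, hgr, hns⟩ := not_opt (Y := slX n l st A R) (L := OTAUT (slX n l st A R))
      (f := f) (T := fun u => (tauF u.length 1).code)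
      (q := fun u => false :: false :: true :: pr (un (e + 1)) (un u.length)) (n := n) (V := V)
      (e := e) ((FP.tauI FP.id (FP.const [true])).congr (fun x => rfl))
      ((FP.cons false).comp ((FP.cons false).comp ((FP.cons true).comp
        ((FP.const _).pair (FP.unL FP.id))))) hf hr
      (fun u hu => (hqe u).mp hu)
      (fun i hi => (hqe _).mpr ⟨i, hi, un_length _⟩)
      (fun u => by rw [un_length])
      (fun i hi => by rw [un_length]; exact (key i hi).1)
      (fun i hi w hw => by rw [un_length]; exact (key i hi).2 w hw) h2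
      (fun i => by
        rcases Nat.eq_zero_or_pos i with h | h
        · have a1 := h1 i
          rw [h] at a1 ⊢
          simpa using a1
        · have a1 := h1 i
          omega)
    exact hns (hopt g hg hgr)

/-- **Infinite sets.** -/
theorem infinite_oracle {S : Set ℕ} (hS : S.Infinite) :
    ∃ Y : List Bool → Bool, ∃ L ⊆ tal S, L.Nonempty ∧ CoNPRel Y L ∧
      ¬ ∃ f, OptimalForRel Y L f := by
  obtain ⟨Q, C, O, PD, hP, hall, hPD, hbd⟩ := exists_enum
  obtain ⟨q, ⟨Γ0, hq0⟩, hq⟩ := exists_seq (α := ℕ × ℕ × ℕ)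
    (fun i Γ a => a.1 ∈ S ∧ Γ < a.1 ∧ a.1 ^ i + i ≤ a.2.1 ∧ a.1 ≤ a.2.1 ∧
      (PD (Nat.unpair i).1).eval a.2.1 < 2 ^ a.2.2 ∧ a.2.2 ≤ a.1)
    (fun i a => (PD (Nat.unpair i).1).eval a.2.1 + 1 + 2 ^ (a.2.2 + 1))
    (fun i Γ => by
      obtain ⟨n, V, l, h⟩ := exists_par' hS (PD (Nat.unpair i).1) i Γ
      exact ⟨(n, V, l), h⟩)
  have hall' : ∀ i, (q i).1 ∈ S ∧ 0 < (q i).1 ∧ (q i).1 ^ i + i ≤ (q i).2.1 ∧
      (q i).1 ≤ (q i).2.1 ∧
      (PD (Nat.unpair i).1).eval (q i).2.1 < 2 ^ (q i).2.2 ∧ (q i).2.2 ≤ (q i).1 := by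
    intro i
    cases i with
    | zero => exact ⟨hq0.1, (Nat.zero_le _).trans_lt hq0.2.1, hq0.2.2⟩
    | succ i => exact ⟨(hq i).1, (Nat.zero_le _).trans_lt (hq i).2.1, (hq i).2.2⟩
  set n : ℕ → ℕ := fun i => (q i).1 with hndef
  set V : ℕ → ℕ := fun i => (q i).2.1 with hVdef
  set l : ℕ → ℕ := fun i => (q i).2.2 with hldef
  set Λ : ℕ → ℕ := fun i => (PD (Nat.unpair i).1).eval (V i) with hΛdef
  set st : ℕ → ℕ := fun i => Λ i + 1 with hstdef
  have h1 : ∀ i, n i ∈ S := fun i => (hall' i).1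
  have h2 : ∀ i, n i ^ i + i ≤ V i := fun i => (hall' i).2.2.1
  have h3 : ∀ i, n i ≤ V i := fun i => (hall' i).2.2.2.1
  have h4 : ∀ i, Λ i < 2 ^ l i := fun i => (hall' i).2.2.2.2.1
  have h5 : ∀ i, l i ≤ n i := fun i => (hall' i).2.2.2.2.2
  have h7 : ∀ i, st i + 2 ^ (l i + 1) < n (i + 1) := fun i => (hq i).2.1
  obtain ⟨b1, b2, b3, b4, b5, b6⟩ := stage_bounds (e := fun i => (Nat.unpair i).1) hPD
    (fun i => rfl) (fun i => rfl) h3 h7
  set A : List Bool → Bool := fun y => slInfo n y with hA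
  obtain ⟨R, hR⟩ := exists_diag (n := n) (l := l) (st := st) V Λ A
    (fun i => Q (Nat.unpair i).1) (fun i => C (Nat.unpair i).1) (fun i => O (Nat.unpair i).1)
    (fun i => un (n i)) h4 h5 b2 b3 b4 b1 b5
    (fun i w hw => (hbd _ w (V i) hw).1) (fun i w hw => (hbd _ w (V i) hw).2)
  set Y := slX n l st A R with hY
  set L : Set (List Bool) := {w | ∃ i, w = un (n i) ∧
    ∀ x : List Bool, x.length = n i → Y (true :: x) = true} with hLdef
  have hqe : ∀ (e : ℕ) (u : List Bool), Y (false :: false ::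
      pr (un (e + 1)) (un u.length)) = true ↔ ∃ i, (Nat.unpair i).1 = e ∧ u.length = n i := by
    intro e u
    show A (pr (un (e + 1)) (un u.length)) = true ↔ _
    rw [hA]
    exact slInfo_iff _ _
  have hqe' : ∀ u : List Bool, Y (false :: false ::
      pr [] (un u.length)) = true ↔ ∃ i, u.length = n i := by
    intro u
    show A (pr [] (un u.length)) = true ↔ _
    rw [hA]
    exact slInfo_iff' _
  have hmem : ∀ i, un (n i) ∈ L ↔ ∀ x : List Bool, x.length = n i → Y (true :: x) = true := by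
    intro i
    constructor
    · rintro ⟨j, h, h'⟩
      have := b6 (un_inj h)
      subst this
      exact h'
    · intro h; exact ⟨i, rfl, h⟩
  refine ⟨Y, L, ?_, ?_, ?_, ?_⟩
  · rintro w ⟨i, rfl, -⟩
    exact ⟨n i, h1 i, rfl⟩
  · obtain ⟨e, he1, he2, he3⟩ := hall (fun _ => []) (fun _ => []) (fun _ => [false])
      FP.nil.polyTime FP.nil.polyTime (FP.const [false]).polyTime
    have hi : (Nat.unpair (Nat.pair e 0)).1 = e := by rw [Nat.unpair_pair]
    refine ⟨un (n (Nat.pair e 0)), (hmem _).mpr ?_⟩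
    rcases hR (Nat.pair e 0) with ⟨c1, -⟩ | ⟨-, w, c3⟩
    · exact c1
    · exfalso
      simp only [hi] at c3
      unfold ora at c3
      rw [he3] at c3
      have := (hall' (Nat.pair e 0)).2.1
      have h0 : 0 < n (Nat.pair e 0) := this
      obtain ⟨k, hk⟩ := Nat.exists_eq_succ_of_ne_zero h0.ne'
      rw [hk, un_succ] at c3
      exact absurd c3 (by simp)
  · have hV1 : PolyTimeRel Y (fun z => [decide (fs z = un (fs z).length)]) :=
      PolyTimeRel.of_fp (FPb.eq FP.fsI (FP.unL FP.fsI)) Y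
    have hV2 : PolyTimeRel Y (fun z => [Y (false :: false :: pr [] (un (fs z).length))]) :=
      PolyTimeRel.query Y (q := fun z => false :: false :: pr [] (un (fs z).length))
        ((FP.cons false).comp ((FP.cons false).comp (FP.nil.pair (FP.unL FP.fsI))))
    have hV3 : PolyTimeRel Y (fun z => [decide (un (sn z).length = un (fs z).length)]) :=
      PolyTimeRel.of_fp (FPb.eq (FP.unL FP.snI) (FP.unL FP.fsI)) Y
    have hV4 : PolyTimeRel Y (fun z => [Y (true :: sn z)]) :=
      PolyTimeRel.query Y (q := fun z => true :: sn z) ((FP.cons true).comp FP.snI)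
    refine ⟨_, PolyTimeRel.iteb (c := fun z => decide (fs z = un (fs z).length)) hV1
      (PolyTimeRel.iteb (c := fun z => Y (false :: false :: pr [] (un (fs z).length))) hV2
        (PolyTimeRel.iteb (c := fun z => decide (un (sn z).length = un (fs z).length)) hV3 hV4
          (PolyTimeRel.of_fp (FP.const [true]) Y)) (PolyTimeRel.of_fp (FP.const [false]) Y))
      (PolyTimeRel.of_fp (FP.const [false]) Y), X, fun z => ?_⟩
    simp only [eval_X]
    constructor
    · rintro ⟨i, rfl, h⟩ y -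
      rw [fs_pr, sn_pr, if_pos (by rw [un_length, decide_eq_true_eq]),
        if_pos ((hqe' _).mpr ⟨i, un_length _⟩)]
      split_ifs with h8
      · rw [decide_eq_true_eq, un_eq_iff, un_length] at h8
        rw [h y h8]
      · rfl
    · intro h
      have c1 : z = un z.length := by
        by_contra h8
        have := h [] (by simp)
        rw [fs_pr, if_neg (by rw [decide_eq_true_eq]; exact h8)] at this
        exact absurd this (by simp)
      have c2 : ∃ i, z.length = n i := by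
        by_contra h8
        have := h [] (by simp)
        rw [fs_pr, if_pos (by rw [decide_eq_true_eq]; exact c1),
          if_neg (by rw [hqe']; exact h8)] at this
        exact absurd this (by simp)
      obtain ⟨i, hi⟩ := c2
      refine ⟨i, by rw [← hi]; exact c1, fun x hx => ?_⟩
      have := h x (by omega)
      rw [fs_pr, sn_pr, if_pos (by rw [decide_eq_true_eq]; exact c1),
        if_pos ((hqe' _).mpr ⟨i, hi⟩), if_pos (by rw [hx, hi, decide_eq_true_eq])] at this
      simpa using this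
  · rintro ⟨f, ⟨hf, hr⟩, hopt⟩
    have hf' := hf
    obtain ⟨Q', C', O', hQ', hC', hO', hff⟩ := hf'
    obtain ⟨e, rfl, rfl, rfl⟩ := hall Q' C' O' hQ' hC' hO'
    have hora : ∀ i, (Nat.unpair i).1 = e → ∀ w, ora (Q (Nat.unpair i).1)
        (C (Nat.unpair i).1) (O (Nat.unpair i).1) Y w = f w := by
      intro i hi w
      rw [hi, hff]
      rfl
    have key : ∀ i, (Nat.unpair i).1 = e → un (n i) ∈ L ∧
        ∀ w : List Bool, w.length ≤ V i → f w ≠ un (n i) := by
      intro i hi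
      rcases hR i with ⟨c1, c2⟩ | ⟨⟨x, c1, c2⟩, w, c3⟩
      · refine ⟨(hmem i).mpr c1, fun w hw => ?_⟩
        rw [← hora i hi w]
        exact c2 w hw
      · exfalso
        rw [hora i hi] at c3
        have c4 : un (n i) ∈ L := by
          rw [← hr, ← c3]; exact ⟨w, rfl⟩
        have c5 := (hmem i).mp c4 x c1
        rw [c5] at c2
        exact absurd c2 (by simp)
    obtain ⟨g, hg, hgr, hns⟩ := not_opt (Y := Y) (L := L)
      (f := f) (T := fun u => un u.length)
      (q := fun u => false :: false :: pr (un (e + 1)) (un u.length)) (n := n) (V := V)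
      (e := e) (FP.unL FP.id)
      ((FP.cons false).comp ((FP.cons false).comp
        ((FP.const _).pair (FP.unL FP.id)))) hf hr
      (fun u hu => (hqe e u).mp hu)
      (fun i hi => (hqe e _).mpr ⟨i, hi, un_length _⟩)
      (fun u => by rw [un_length])
      (fun i hi => by rw [un_length]; exact (key i hi).1)
      (fun i hi w hw => by rw [un_length]; exact (key i hi).2 w hw) h2
      (fun i => (hall' i).2.1)
    exact hns (hopt g hg hgr)

end Pool.Agent.Work.MP_0532f7_lc
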