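import Mathlib
import Pool.Agent.Work.MP_0532f7_lc.SlUp
import Pool.Agent.Work.MP_0532f7_lc.CookLevin

/-!
Optimal Cook-Reckhow systems and optimal proof systems for tally sets.
-/

namespace Pool.Agent.Work.MP_0532f7_lc

open Polynomial

/-- an optimal proof system for TAUT gives optimal proof systems for all nonempty coNP sets -/
theorem plain_down {f : List Bool → List Bool} (hf : OptimalFor TAUT f) {L : Set (List Bool)}
    (hne : L.Nonempty) (hL : CoNP L) : ∃ h, OptimalFor L h := by
  obtain ⟨⟨hf, hr⟩, hopt⟩ := hf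
  obtain ⟨V, hV, p, hp⟩ := hL
  obtain ⟨z0, hz0⟩ := hne
  obtain ⟨r, hrr, hr'⟩ := cook_levin
    (R := fun z => if decide (V z = [true]) = true then [false] else [true])
    (FP.ite (FPb.eq hV.fp (FP.const _)) (FP.const _) (FP.const _)).polyTime p
  have hrL : ∀ z, r z ∈ TAUT ↔ z ∈ L := by
    intro z
    rw [hr', hp]
    apply forall_congr'
    intro y
    apply imp_congr_right
    intro _
    by_cases h : V (pr z y) = [true]
    · simp [h]
    · simp [h]
  have hmem : ∀ w, (if decide (f (sn w) = r (fs w)) = true then fs w else z0) ∈ L := by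
    intro w
    split_ifs with h
    · rw [decide_eq_true_eq] at h
      rw [← hrL, ← h, ← hr]
      exact ⟨_, rfl⟩
    · exact hz0
  refine ⟨fun w => if decide (f (sn w) = r (fs w)) = true then fs w else z0,
    ⟨(FP.ite (FPb.eq (hf.fp.comp FP.snI) (hrr.fp.comp FP.fsI)) FP.fsI (FP.const _)).polyTime,
      ?_⟩, fun g hg hgr => ?_⟩
  · apply Set.Subset.antisymm
    · rintro _ ⟨w, rfl⟩; exact hmem w
    · intro z hz
      have h1 := (hrL z).mpr hz
      rw [← hr] at h1
      obtain ⟨w, hw⟩ := h1
      refine ⟨pr z w, ?_⟩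
      show (if decide (f (sn (pr z w)) = r (fs (pr z w))) = true then fs (pr z w) else z0) = z
      rw [fs_pr, sn_pr, if_pos (by rw [decide_eq_true_eq]; exact hw)]
  · have hgL : ∀ w, g w ∈ L := fun w => by rw [← hgr]; exact ⟨w, rfl⟩
    obtain ⟨k, q, hk⟩ := hopt
      (fun w => if w.head?.getD false = true then r (g w.tail) else f w.tail)
      (FP.ite FPb.hd ((hrr.fp.comp hg.fp).comp FP.tail) (hf.fp.comp FP.tail)).polyTime (by
        apply Set.Subset.antisymm
        · rintro _ ⟨w, rfl⟩
          show (if w.head?.getD false = true then r (g w.tail) else f w.tail) ∈ TAUT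
          split_ifs
          · exact (hrL _).mpr (hgL _)
          · rw [← hr]; exact ⟨_, rfl⟩
        · intro x hx
          rw [← hr] at hx
          obtain ⟨w, rfl⟩ := hx
          exact ⟨false :: w, rfl⟩)
    obtain ⟨PG, hPG⟩ := hg.fp.length
    refine ⟨fun w => pr (g w) (k (true :: w)), 2 * PG + 1 + q.comp (X + 1), fun w => ⟨?_, ?_⟩⟩
    · show (if decide (f (sn (pr (g w) (k (true :: w)))) = r (fs (pr (g w) (k (true :: w)))))
        = true then fs (pr (g w) (k (true :: w))) else z0) = g w
      rw [fs_pr, sn_pr, if_pos]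
      rw [decide_eq_true_eq]
      exact (hk (true :: w)).1
    · rw [pr_length]
      have h1 := (hk (true :: w)).2
      rw [List.length_cons] at h1
      have h2 := hPG w
      simp only [eval_add, eval_mul, eval_ofNat, eval_one, eval_X, eval_comp]
      omega

/-- from the empty oracle to no oracle -/
theorem plain_of_empty {f : List Bool → List Bool}
    (hf : OptimalForRel (fun _ => false) (OTAUT fun _ => false) f) :
    ∃ F, OptimalFor TAUT F := by
  obtain ⟨e, he, he'⟩ := exists_embCode
  obtain ⟨⟨hfp, hr⟩, hopt⟩ := hf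
  have hfp' : PolyTime f := PolyTimeRel.empty_iff.mp hfp
  set F : List Bool → List Bool := fun u =>
    if (isCode (fs u) && decide (f (sn u) = e (fs u))) = true then fs u else cT with hF
  have hFP : FP F := FP.ite ((FPb.isCodeI.comp FP.fsI).and (FPb.eq (hfp'.fp.comp FP.snI)
    (he.comp FP.fsI))) FP.fsI (FP.const _)
  have hmem : ∀ u, F u ∈ TAUT := by
    intro u
    show (if (isCode (fs u) && decide (f (sn u) = e (fs u))) = true then fs u else cT) ∈ TAUT
    split_ifs with h
    · rw [Bool.and_eq_true, isCode_iff, decide_eq_true_eq] at h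
      obtain ⟨h1, h2⟩ := h
      have h3 : e (fs u) ∈ OTAUT fun _ => false := by rw [← h2, ← hr]; exact ⟨_, rfl⟩
      rw [← h1, he'] at h3
      rw [← h1, code_mem_TAUT_iff]
      intro v
      obtain ⟨φ, h4, h5⟩ := h3
      have h6 := OForm.code_injective h4
      subst h6
      rw [← emb_eval (fun _ => false) v]
      exact h5 v
    · exact cT_mem
  have key : ∀ g, PolyTime g → (∀ w, g w ∈ TAUT) → Simulates F g := by
    intro g hg hgm
    obtain ⟨k, q, hk⟩ := hopt
      (fun w => if w.head?.getD false then e (g w.tail) else f w.tail)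
      (hfp.sum (PolyTimeRel.of_fp (he.comp hg.fp) _)) (by
        apply Set.Subset.antisymm
        · rintro _ ⟨w, rfl⟩
          show (if w.head?.getD false then e (g w.tail) else f w.tail) ∈ _
          split_ifs
          · obtain ⟨φ, h1, h2⟩ := hgm w.tail
            rw [← h1, he']
            exact ⟨_, rfl, fun v => by rw [emb_eval]; exact h2 v⟩
          · rw [← hr]; exact ⟨_, rfl⟩
        · intro x hx
          rw [← hr] at hx
          obtain ⟨w, rfl⟩ := hx
          exact ⟨false :: w, rfl⟩)
    obtain ⟨PG, hPG⟩ := hg.fp.length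
    refine ⟨fun w => pr (g w) (k (true :: w)), 2 * PG + 1 + q.comp (X + 1), fun w => ⟨?_, ?_⟩⟩
    · show (if (isCode (fs (pr (g w) (k (true :: w)))) &&
        decide (f (sn (pr (g w) (k (true :: w)))) = e (fs (pr (g w) (k (true :: w)))))) = true
        then fs (pr (g w) (k (true :: w))) else cT) = g w
      rw [fs_pr, sn_pr, if_pos]
      rw [Bool.and_eq_true, isCode_iff, decide_eq_true_eq]
      refine ⟨?_, (hk (true :: w)).1⟩
      obtain ⟨φ, h1, _⟩ := hgm w
      rw [← h1, parse_code]
    · rw [pr_length]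
      have h1 := (hk (true :: w)).2
      rw [List.length_cons] at h1
      have h2 := hPG w
      simp only [eval_add, eval_mul, eval_ofNat, eval_one, eval_X, eval_comp]
      omega
  refine ⟨F, ⟨hFP.polyTime, ?_⟩, fun g hg hgr => key g hg fun w => by rw [← hgr]; exact ⟨w, rfl⟩⟩
  apply Set.Subset.antisymm
  · rintro _ ⟨u, rfl⟩; exact hmem u
  · intro x hx
    obtain ⟨k, q, hk⟩ := key (fun _ => x) (FP.const x).polyTime (fun _ => hx)
    exact ⟨k [], (hk []).1⟩

/-- **The unrelativized criterion.** -/
theorem plain_iff {S : Set ℕ} (hS : TallyP S) (hd : PolyDense S) :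
    (∃ f, OptimalFor TAUT f) ↔
      ∀ L ⊆ tal S, L.Nonempty → CoNP L → ∃ h, OptimalFor L h := by
  constructor
  · rintro ⟨f, hf⟩ L - hne hL
    exact plain_down hf hne hL
  · intro H
    obtain ⟨f, hf⟩ := dense_optimal hS hd (fun _ => false) (fun L hL hne hLc => by
      obtain ⟨V, hV, p, hp⟩ := hLc
      obtain ⟨h, ⟨h1, h2⟩, h3⟩ := H L hL hne ⟨V, PolyTimeRel.empty_iff.mp hV, p, hp⟩
      exact ⟨h, ⟨PolyTimeRel.empty_iff.mpr h1, h2⟩,
        fun g hg hgr => h3 g (PolyTimeRel.empty_iff.mp hg) hgr⟩)
    exact plain_of_empty hf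

end Pool.Agent.Work.MP_0532f7_lc
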