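import Mathlib
import Pool.Agent.Work.MP_0532f7_lc.SlDown
import Pool.Agent.Work.MP_0532f7_lc.SlPlain

/-!
The lengths that decide the existence of optimal proof systems.
-/

namespace Pool.Agent.Work.MP_0532f7_lc

open Polynomial

/-! ### an example -/

/-- square the length if the word is shorter than `p` -/
def sqS (p z : List Bool) : List Bool :=
  if decide (z.length < p.length) = true then un (z.length * z.length) else z

theorem FP.sqSI : FP (fun w => sqS (fs w) (sn w)) :=
  FP.ite (FPb.ltI FP.snI FP.fsI) (FP.mulU FP.snI FP.snI) FP.snI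

theorem sqS_iter_length (p : List Bool) (i : ℕ) :
    ((sqS p)^[i] (un 2)).length ≤ p.length * p.length + 2 := by
  induction i with
  | zero => simp
  | succ i ih =>
    rw [Function.iterate_succ_apply']
    unfold sqS at *
    split_ifs with h
    · rw [decide_eq_true_eq] at h
      rw [un_length]
      have := Nat.mul_le_mul h.le h.le
      omega
    · exact ih

theorem sqS_iter_form (p : List Bool) (i : ℕ) :
    ∃ j, (sqS p)^[i] (un 2) = un (2 ^ 2 ^ j) := by
  induction i with
  | zero => exact ⟨0, by simp⟩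
  | succ i ih =>
    obtain ⟨j, hj⟩ := ih
    rw [Function.iterate_succ_apply', hj]
    unfold sqS
    split_ifs with h
    · refine ⟨j + 1, ?_⟩
      rw [un_length, ← pow_add, pow_succ, mul_two]
    · exact ⟨j, rfl⟩

theorem sqS_iter_eq (k i : ℕ) (p : List Bool) (hp : p.length = 2 ^ 2 ^ k) :
    (sqS p)^[i] (un 2) = un (2 ^ 2 ^ (min i k)) := by
  induction i with
  | zero => simp
  | succ i ih =>
    rw [Function.iterate_succ_apply', ih]
    unfold sqS
    rw [un_length, hp]
    split_ifs with h
    · rw [decide_eq_true_eq] at h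
      have h1 : min i k < k := by
        by_contra h2
        have h3 : min i k = k := by omega
        rw [h3] at h
        exact lt_irrefl _ h
      have h4 : min i k = i := by omega
      have h5 : min (i + 1) k = i + 1 := by omega
      rw [h4, h5, ← pow_add, pow_succ, mul_two]
    · have h1 : ¬ min i k < k := by
        intro h2
        apply h
        rw [decide_eq_true_eq]
        exact Nat.pow_lt_pow_right (by omega) (Nat.pow_lt_pow_right (by omega) h2)
      congr 3
      omega

theorem dd_tallyP : TallyP {s | ∃ k, s = 2 ^ 2 ^ k} := by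
  have h1 : FP (fun x => (sqS x)^[x.length] (un 2)) :=
    FP.iterc FP.sqSI FP.id FP.id (FP.const (un 2)) (X * X + 2) (fun x i _ => by
      have := sqS_iter_length x i
      simpa using this)
  refine ⟨fun x => [decide (un x.length = un ((sqS x)^[x.length] (un 2)).length)],
    (FPb.eq (FP.unL FP.id) (FP.unL h1)).polyTime, fun n => ?_⟩
  simp only [List.cons.injEq, and_true, decide_eq_true_eq, un_eq_iff, Set.mem_ofPred_eq]
  constructor
  · intro h
    obtain ⟨j, hj⟩ := sqS_iter_form (List.replicate n true) (List.replicate n true).length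
    refine ⟨j, ?_⟩
    rw [hj, un_length, List.length_replicate] at h
    exact h
  · rintro ⟨k, hk⟩
    rw [sqS_iter_eq k _ _ (by rw [List.length_replicate, hk]), un_length,
      List.length_replicate]
    have h2 : k < 2 ^ 2 ^ k := (Nat.lt_two_pow_self).trans (Nat.lt_two_pow_self)
    rw [hk]
    congr 2
    omega

theorem dd_dense : PolyDense {s | ∃ k, s = 2 ^ 2 ^ k} := by
  refine ⟨2, fun n => ?_⟩
  have hex : ∃ k, n ≤ 2 ^ 2 ^ k :=
    ⟨n, ((Nat.lt_two_pow_self).trans (Nat.lt_two_pow_self)).le⟩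
  classical
  refine ⟨2 ^ 2 ^ (Nat.find hex), ⟨_, rfl⟩, Nat.find_spec hex, ?_⟩
  rcases Nat.eq_zero_or_pos (Nat.find hex) with h | h
  · rw [h]; simp
  · have h1 := Nat.find_min hex (m := Nat.find hex - 1) (by omega)
    push Not at h1
    have h2 : 2 ^ 2 ^ (Nat.find hex) = (2 ^ 2 ^ (Nat.find hex - 1)) ^ 2 := by
      rw [← pow_mul, ← pow_succ, Nat.sub_add_cancel h]
    rw [h2]
    have h3 := Nat.pow_le_pow_left h1.le 2
    omega

/-! ### the theorem -/

theorem optimalFor_of_P {Y : List Bool → Bool} {L : Set (List Bool)} (hne : L.Nonempty)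
    (hL : PRel Y L) : ∃ f, OptimalForRel Y L f := by
  obtain ⟨D, hD, hD'⟩ := hL
  obtain ⟨z0, hz0⟩ := hne
  refine ⟨fun w => if D w = [true] then w else z0, ⟨hD.ite (PolyTimeRel.of_fp FP.id Y)
    (PolyTimeRel.of_fp (FP.const z0) Y), ?_⟩, fun g hg hgr => ?_⟩
  · apply Set.Subset.antisymm
    · rintro _ ⟨w, rfl⟩
      show (if D w = [true] then w else z0) ∈ L
      split_ifs with h
      · exact (hD' w).mp h
      · exact hz0
    · intro z hz
      refine ⟨z, ?_⟩
      show (if D z = [true] then z else z0) = z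
      rw [if_pos ((hD' z).mpr hz)]
  · obtain ⟨P, hP⟩ := hg.length
    refine ⟨g, P, fun w => ⟨?_, hP w⟩⟩
    show (if D (g w) = [true] then g w else z0) = g w
    rw [if_pos ((hD' _).mpr (by rw [← hgr]; exact ⟨w, rfl⟩))]

theorem sl_main {S : Set ℕ} (hS : TallyP S) :
    (PolyDense S → ((∃ f, OptimalFor TAUT f) ↔
      ∀ L ⊆ tal S, L.Nonempty → CoNP L → ∃ f, OptimalFor L f)) ∧
    List.TFAE [PolyDense S,
      ∀ X : List Bool → Bool,
        (∀ L ⊆ tal S, L.Nonempty → CoNPRel X L → ∃ f, OptimalForRel X L f) →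
          ∃ f, OptimalForRel X (OTAUT X) f,
      ∀ X : List Bool → Bool, (∀ L ⊆ tal S, CoNPRel X L → PRel X L) →
        ∃ f, OptimalForRel X (OTAUT X) f] ∧
    (S.Infinite → ∃ X : List Bool → Bool, ∃ L ⊆ tal S, L.Nonempty ∧ CoNPRel X L ∧
      ¬ ∃ f, OptimalForRel X L f) := by
  refine ⟨fun hd => plain_iff hS hd, ?_, fun h => infinite_oracle h⟩
  tfae_have 1 → 2 := fun hd X H => dense_optimal hS hd X H
  tfae_have 2 → 3 := fun H X H' => H X fun L hL hne hLc => optimalFor_of_P hne (H' L hL hLc)
  tfae_have 3 → 1 := by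
    intro H
    by_contra hnd
    obtain ⟨Y, h1, h2⟩ := gap_oracle hS hnd
    exact h2 (H Y h1)
  tfae_finish

theorem sl_example : (∃ f, OptimalFor TAUT f) ↔
    ∀ L ⊆ tal {s | ∃ k, s = 2 ^ 2 ^ k}, L.Nonempty → CoNP L → ∃ f, OptimalFor L f :=
  plain_iff dd_tallyP dd_dense

end Pool.Agent.Work.MP_0532f7_lc
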