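import Mathlib
import Pool.Agent.Work.MP_0532f7_lc.SpMain

/-!
The threshold for the tally information that creates optimal proof systems relative to a random
oracle.
-/

namespace Pool.Agent.Work.MP_0532f7_lc

open Polynomial MeasureTheory

/-- the family of oracles `(A ⊕ 1^T) ⊕ R` -/
theorem loc_join (A R : List Bool → Bool) : Loc (fun τ => ojoin (ojoin A (tally τ)) R) := by
  intro τ τ' y h
  match y with
  | [] => rfl
  | true :: x => rfl
  | [false] => rfl
  | false :: false :: x => rfl
  | false :: true :: x =>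
    show tally τ x = tally τ' x
    unfold tally
    rw [h x.length (by simp; omega)]

theorem sparse_join (A R : List Bool → Bool) (α : ℕ → ℕ)
    (hα : Filter.Tendsto α Filter.atTop Filter.atTop) :
    ∃ T : ℕ → Bool, (∀ n, {i | i ≤ n ∧ T i = true}.ncard ≤ α n) ∧
      ∃ f, POptimalRel (ojoin (ojoin A (tally T)) R) f := by
  refine exists_sparse (fun τ => ojoin (ojoin A (tally τ)) R) (fun x => false :: true :: x)
    ((FP.cons false).comp (FP.cons true)) (loc_join A R) (fun τ i => ?_) α hα
  show tally τ (un i) = τ i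
  unfold tally
  rw [un_length]
  simp [un]

/-- a set with few elements in infinitely many initial segments is finite -/
theorem finite_of_sparse {T : ℕ → Bool} {α : ℕ → ℕ}
    (h : ∀ n, {i | i ≤ n ∧ T i = true}.ncard ≤ α n)
    (hα : ¬ Filter.Tendsto α Filter.atTop Filter.atTop) : {i | T i = true}.Finite := by
  rw [Filter.tendsto_atTop] at hα
  push Not at hα
  obtain ⟨B, hB⟩ := hα
  by_contra hinf
  obtain ⟨S, hS1, hS2⟩ := Set.Infinite.exists_subset_card_eq (s := {i | T i = true}) hinf (B + 1)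
  obtain ⟨n, hn1, hn2⟩ := Filter.frequently_atTop.mp hB (S.sup id)
  have h1 : (S : Set ℕ) ⊆ {i | i ≤ n ∧ T i = true} := fun i hi =>
    ⟨(Finset.le_sup (f := id) hi).trans hn1, hS1 hi⟩
  have h2 := Set.ncard_le_ncard h1 ((Set.finite_Iic n).subset fun i hi => hi.1)
  rw [Set.ncard_coe_finset, hS2] at h2
  have h3 := h n
  omega

theorem none_countable (A : List Bool → Bool) (F : Set (ℕ → Bool)) (hF : F.Countable) :
    ∀ᵐ R ∂randomOracle, ∀ T ∈ F, ¬ ∃ f, OptimalRel (ojoin (ojoin A (tally T)) R) f := by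
  rw [ae_ball_iff hF]
  intro T _
  filter_upwards [ae_all (ojoin A (tally T))] with R hR
  exact fun ⟨f, hf⟩ => not_optimal _ R hR f hf

theorem countable_finite : {T : ℕ → Bool | {i | T i = true}.Finite}.Countable := by
  have : {T : ℕ → Bool | {i | T i = true}.Finite} ⊆
      Set.range (fun (S : Finset ℕ) (i : ℕ) => decide (i ∈ S)) := by
    intro T hT
    refine ⟨hT.toFinset, ?_⟩
    funext i
    simp [Set.Finite.mem_toFinset]
  exact (Set.countable_range _).mono this

theorem threshold_tally (A : List Bool → Bool) : ∀ᵐ R ∂randomOracle, ∀ α : ℕ → ℕ,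
    List.TFAE [Filter.Tendsto α Filter.atTop Filter.atTop,
      ∃ T : ℕ → Bool, (∀ n, {i | i ≤ n ∧ T i = true}.ncard ≤ α n) ∧
        ∃ f, POptimalRel (ojoin (ojoin A (tally T)) R) f,
      ∃ T : ℕ → Bool, (∀ n, {i | i ≤ n ∧ T i = true}.ncard ≤ α n) ∧
        ∃ f, OptimalRel (ojoin (ojoin A (tally T)) R) f] := by
  filter_upwards [none_countable A _ countable_finite] with R hR α
  tfae_have 1 → 2 := fun h => sparse_join A R α h
  tfae_have 2 → 3 := fun ⟨T, h1, f, h2⟩ => ⟨T, h1, f, h2.optimal⟩
  tfae_have 3 → 1 := by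
    rintro ⟨T, h1, f, h2⟩
    by_contra h3
    exact hR T (finite_of_sparse h1 h3) ⟨f, h2⟩
  tfae_finish

end Pool.Agent.Work.MP_0532f7_lc
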